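import Pool.Agent.AUK.FJA.SDefs

/-!
# The index type and the raw classes
-/

set_option autoImplicit false
set_option linter.unusedSectionVars false

open Matrix Pool.Agent.WhK Pool.Agent.Lib25 CategoryTheory

noncomputable section

namespace Pool.Agent.FJA

/-- The data of an admissible pair `(p, φ)` and of a class in the centraliser. -/
structure Ix (n : ℕ) (G : Type) [Group G] : Type where
  N : ℕ
  p : ℕ
  φ : Cyc N →* G
  c : HQ (n + 1) (Cen (φ (gen N)))
  hN : 0 < N
  hp : p.Prime
  hpN : p ∣ N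
  hφ : Function.Injective φ

section

variable (ε0 : ∀ N : ℕ, ℕ → IdemMat (LaurentPolynomial (MonoidAlgebra ℤ (Cyc N)))) (n : ℕ)
  (G : Type) [Group G]

/-- The class defined by the raw idempotent matrix. -/
def rawV (j : Ix n G) : KB n (MonoidAlgebra ℤ G) :=
  KB.mk n (MonoidAlgebra ℤ G) (ε0 j.N j.p).n (HQ.map (n + 1) (rhoC (ε0 j.N j.p) j.φ) j.c)

end

end Pool.Agent.FJA
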