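import Pool.Agent.Lib_helper25.KDefs
import Pool.Agent.Lib_helper44.Wh.KDefs

/-!
# Definitions for the statement in all degrees (draft of helper14)

* `HQ m Γ = H_m(Γ; ℚ)`, `HZ m Γ = H_m(Γ; ℤ)`: group homology (Mathlib).
* `KQ m R`, for `m ≥ 1`: the indecomposable part of `H_m(GL(R); ℚ)`, that is, the sum of the
  `H_m(GL_r(R); ℚ)` modulo `(X ⊕ Y)_* c = X_* c + Y_* c` for `c` in `H_m(GL_a(R) × GL_b(R); ℚ)`.
* `KB n R`, for `n ≥ 0`: the cokernel of `KQ (n+1) R[t] ⊕ KQ (n+1) R[t⁻¹] → KQ (n+1) R[t,t⁻¹]`.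
* `Src n G`: the part with coefficients `K_{-1}` of the source of the assembly map in degree `n`.
-/

set_option autoImplicit false

open Matrix Pool.Agent.WhK Pool.Agent.Lib25 CategoryTheory

noncomputable section

namespace Pool.Agent.FJA

/-! ## Homology of groups -/

/-- The homology `H_m(Γ; ℚ)` of the group `Γ`. -/
abbrev HQ (m : ℕ) (Γ : Type) [Group Γ] : ModuleCat ℚ := groupHomology (Rep.trivial ℚ Γ ℚ) m

/-- The homology `H_m(Γ; ℤ)` of the group `Γ`. -/
abbrev HZ (m : ℕ) (Γ : Type) [Group Γ] : ModuleCat ℤ := groupHomology (Rep.trivial ℤ Γ ℤ) m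

/-- The map `H_m(Γ; ℚ) → H_m(Δ; ℚ)` induced by a homomorphism. -/
def HQ.map (m : ℕ) {Γ Δ : Type} [Group Γ] [Group Δ] (f : Γ →* Δ) : HQ m Γ →ₗ[ℚ] HQ m Δ :=
  (groupHomology.map f (𝟙 (Rep.trivial ℚ Γ ℚ)) m).hom

/-! ## K-theory -/

/-- Block sum of square matrices. -/
def bsum {R : Type} [Ring R] {a b : ℕ} (X : Matrix (Fin a) (Fin a) R)
    (Y : Matrix (Fin b) (Fin b) R) : Matrix (Fin (a + b)) (Fin (a + b)) R :=
  (Matrix.fromBlocks X 0 0 Y).submatrix finSumFinEquiv.symm finSumFinEquiv.symm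

theorem bsum_mul {R : Type} [Ring R] {a b : ℕ} (X X' : Matrix (Fin a) (Fin a) R)
    (Y Y' : Matrix (Fin b) (Fin b) R) : bsum (X * X') (Y * Y') = bsum X Y * bsum X' Y' := by
  unfold bsum
  rw [Matrix.submatrix_mul_equiv, Matrix.fromBlocks_multiply]
  simp

theorem bsum_one {R : Type} [Ring R] {a b : ℕ} :
    bsum (1 : Matrix (Fin a) (Fin a) R) (1 : Matrix (Fin b) (Fin b) R) = 1 := by
  unfold bsum
  rw [Matrix.fromBlocks_one]
  simp

/-- Block sum `GL_a(R) × GL_b(R) → GL_{a+b}(R)`. -/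
def bsumHom (R : Type) [Ring R] (a b : ℕ) : GLn R a × GLn R b →* GLn R (a + b) where
  toFun X := ⟨bsum X.1.val X.2.val, bsum X.1.inv X.2.inv,
    by rw [← bsum_mul, X.1.val_inv, X.2.val_inv, bsum_one],
    by rw [← bsum_mul, X.1.inv_val, X.2.inv_val, bsum_one]⟩
  map_one' := by
    apply Units.ext
    exact bsum_one
  map_mul' X Y := by
    apply Units.ext
    exact bsum_mul _ _ _ _

/-- The direct sum over `r` of the homology groups `H_m(GL_r(R); ℚ)`. -/
abbrev HGL (m : ℕ) (R : Type) [Ring R] : Type := DirectSum ℕ fun r => HQ m (GLn R r)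

/-- The class in `HGL m R` of an element of `H_m(GL_r(R); ℚ)`. -/
def HGL.of (m : ℕ) (R : Type) [Ring R] (r : ℕ) : HQ m (GLn R r) →ₗ[ℚ] HGL m R :=
  DirectSum.lof ℚ ℕ (fun r => HQ m (GLn R r)) r

/-- The relations `(X ⊕ Y)_* c = X_* c + Y_* c`, for `c` in `H_m(GL_a(R) × GL_b(R); ℚ)`. -/
def blockRel (m : ℕ) (R : Type) [Ring R] : Submodule ℚ (HGL m R) :=
  Submodule.span ℚ {x | ∃ (a b : ℕ) (c : HQ m (GLn R a × GLn R b)),
    x = HGL.of m R (a + b) (HQ.map m (bsumHom R a b) c) -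
      HGL.of m R a (HQ.map m (MonoidHom.fst _ _) c) -
      HGL.of m R b (HQ.map m (MonoidHom.snd _ _) c)}

/-- `K_m(R) ⊗ ℚ`, for `m ≥ 1`, as the indecomposable part of `H_m(GL(R); ℚ)`. -/
abbrev KQ (m : ℕ) (R : Type) [Ring R] : Type := HGL m R ⧸ blockRel m R

/-- The class in `KQ m R` of an element of `H_m(GL_r(R); ℚ)`. -/
def KQ.mk (m : ℕ) (R : Type) [Ring R] (r : ℕ) : HQ m (GLn R r) →ₗ[ℚ] KQ m R :=
  (blockRel m R).mkQ ∘ₗ HGL.of m R r

/-- The homomorphism `GL_r(R) → GL_r(S)` induced by a ring homomorphism. -/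
def glm {R S : Type} [Ring R] [Ring S] (f : R →+* S) (r : ℕ) : GLn R r →* GLn S r :=
  Units.map f.mapMatrix.toMonoidHom

/-- The subspace of `KQ m S` generated by the images of the classes of `KQ m R`. -/
def KQ.im (m : ℕ) {R S : Type} [Ring R] [Ring S] (f : R →+* S) : Submodule ℚ (KQ m S) :=
  Submodule.span ℚ {x | ∃ (r : ℕ) (c : HQ m (GLn R r)), x = KQ.mk m S r (HQ.map m (glm f r) c)}

/-- `K_n(R) ⊗ ℚ`, for `n ≥ 0`, as the cokernel of
`K_{n+1}(R[t]) ⊕ K_{n+1}(R[t⁻¹]) → K_{n+1}(R[t,t⁻¹])`, tensored with `ℚ`. -/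
abbrev KB (n : ℕ) (R : Type) [Ring R] : Type :=
  KQ (n + 1) (LaurentPolynomial R) ⧸
    (KQ.im (n + 1) (posIncl R) ⊔ KQ.im (n + 1) (negIncl R))

/-- The class in `KB n R` of an element of `H_{n+1}(GL_r(R[t,t⁻¹]); ℚ)`. -/
def KB.mk (n : ℕ) (R : Type) [Ring R] (r : ℕ) :
    HQ (n + 1) (GLn (LaurentPolynomial R) r) →ₗ[ℚ] KB n R :=
  (KQ.im (n + 1) (posIncl R) ⊔ KQ.im (n + 1) (negIncl R)).mkQ ∘ₗ
    KQ.mk (n + 1) (LaurentPolynomial R) r

/-! ## The source -/

/-- The centraliser of `h`. -/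
abbrev Cen {G : Type} [Group G] (h : G) : Subgroup G := Subgroup.centralizer {h}

/-- The homomorphism `z ↦ x z x⁻¹` from the centraliser of `h` to the centraliser of `h'`. -/
def cHom {G : Type} [Group G] (x : G) {h h' : G}
    (H : ∀ z ∈ Cen h, x * z * x⁻¹ ∈ Cen h') : Cen h →* Cen h' where
  toFun z := ⟨x * z * x⁻¹, H z z.2⟩
  map_one' := by simp
  map_mul' y z := by
    apply Subtype.ext
    simp [mul_assoc]

theorem cHom_conj {G : Type} [Group G] (x h : G) : ∀ z ∈ Cen h, x * z * x⁻¹ ∈ Cen (x * h * x⁻¹) := by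
  intro z hz
  rw [Subgroup.mem_centralizer_singleton_iff] at hz ⊢
  simp only [mul_assoc, inv_mul_cancel_left]
  rw [← mul_assoc z h, ← mul_assoc h z, hz]

theorem cHom_pow {G : Type} [Group G] (h : G) {h' : G} (hh : h' ∈ Subgroup.zpowers h) :
    ∀ z ∈ Cen h, 1 * z * 1⁻¹ ∈ Cen h' := by
  intro z hz
  obtain ⟨k, rfl⟩ := hh
  rw [one_mul, inv_one, mul_one]
  rw [Subgroup.mem_centralizer_singleton_iff] at hz ⊢
  exact (Commute.zpow_right (show Commute z h from hz) k)

/-- A symbol `[p, h, c]`: a natural number `p`, an element `h` of `G` and a class `c` in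
`H_{n+1}(Z_G(h); ℚ)`. -/
structure Sym (n : ℕ) (G : Type) [Group G] : Type where
  p : ℕ
  h : G
  c : HQ (n + 1) (Cen h)

/-- The symbol as an element of the vector space generated by the symbols. -/
def sg {n : ℕ} {G : Type} [Group G] (p : ℕ) (h : G) (c : HQ (n + 1) (Cen h)) : Sym n G →₀ ℚ :=
  Finsupp.single ⟨p, h, c⟩ 1

/-- The symbol is admissible: `p` is a prime and `h` has finite order divisible by `p`. -/
def Adm {G : Type} [Group G] (p : ℕ) (h : G) : Prop := p.Prime ∧ IsOfFinOrder h ∧ p ∣ orderOf h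

/-- The relations between the symbols. -/
inductive Rel (n : ℕ) (G : Type) [Group G] : (Sym n G →₀ ℚ) → Prop
  | invalid (p : ℕ) (h : G) (c : HQ (n + 1) (Cen h)) : ¬ Adm p h → Rel n G (sg p h c)
  | add (p : ℕ) (h : G) (c c' : HQ (n + 1) (Cen h)) :
      Rel n G (sg p h (c + c') - sg p h c - sg p h c')
  | smul (p : ℕ) (h : G) (q : ℚ) (c : HQ (n + 1) (Cen h)) :
      Rel n G (sg p h (q • c) - q • sg p h c)
  | conj (p : ℕ) (h x : G) (c : HQ (n + 1) (Cen h)) :
      Rel n G (sg p (x * h * x⁻¹) (HQ.map (n + 1) (cHom x (cHom_conj x h)) c) - sg p h c)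
  | frob (p : ℕ) (h h' : G) (hh : h' ∈ Subgroup.zpowers h) (j k : ℕ)
      (c : HQ (n + 1) (Cen h)) : Adm p h → h ∈ Subgroup.zpowers h' → h ^ p ^ j = h' ^ p ^ k →
      Rel n G (sg p h' (HQ.map (n + 1) (cHom 1 (cHom_pow h hh)) c) - sg p h c)
  | sum (h : G) (c : HQ (n + 1) (Cen h)) : IsOfFinOrder h →
      Rel n G (∑ p ∈ (orderOf h).primeFactors,
        ∑ a ∈ (Finset.range (orderOf h)).filter (fun a => a.Coprime (orderOf h)),
          sg p (h ^ a) (HQ.map (n + 1) (cHom 1 (cHom_pow h (Subgroup.pow_mem _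
            (Subgroup.mem_zpowers h) a))) c))

/-- The part with coefficients `K_{-1}` of the source of the rationalised assembly map in
degree `n`. -/
abbrev Src (n : ℕ) (G : Type) [Group G] : Type :=
  (Sym n G →₀ ℚ) ⧸ Submodule.span ℚ {x | Rel n G x}

/-- The class of a symbol. -/
def sym {n : ℕ} {G : Type} [Group G] (p : ℕ) (h : G) (c : HQ (n + 1) (Cen h)) : Src n G :=
  (Submodule.span ℚ {x | Rel n G x}).mkQ (sg p h c)

/-! ## The assembly map -/

/-- The cyclic group of order `N` (for `N > 0`). -/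
abbrev Cyc (N : ℕ) : Type := Multiplicative (ZMod N)

/-- The image of an element of `G` in `ℤ[G][t,t⁻¹]`. -/
def elt {G : Type} [Group G] : G →* LaurentPolynomial (MonoidAlgebra ℤ G) :=
  ((AddMonoidAlgebra.singleZeroRingHom (R := MonoidAlgebra ℤ G) (M := ℤ) :
      MonoidAlgebra ℤ G →* LaurentPolynomial (MonoidAlgebra ℤ G))).comp (MonoidAlgebra.of ℤ G)

section Rho

variable {S : Type} [Ring S] {P : Type} [Group P] {r : ℕ}

/-- The matrix `u ε + 1 - ε`. -/
def rhoMat (ε : Matrix (Fin r) (Fin r) S) (u : S) : Matrix (Fin r) (Fin r) S := u • ε + (1 - ε)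

theorem rhoMat_mul {ε : Matrix (Fin r) (Fin r) S} (hε : ε * ε = ε) {u v : S}
    (hv : ∀ i j, Commute v (ε i j)) : rhoMat ε (u * v) = rhoMat ε u * rhoMat ε v := by
  have h1 : ε * (v • ε) = v • ε := by
    have h2 : ε * (v • ε) = v • (ε * ε) := by
      ext i j
      rw [Matrix.mul_apply, Matrix.smul_apply, Matrix.mul_apply, smul_eq_mul, Finset.mul_sum]
      refine Finset.sum_congr rfl fun k _ => ?_
      rw [Matrix.smul_apply, smul_eq_mul, ← mul_assoc, ← mul_assoc, (hv i k).eq]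
    rw [h2, hε]
  unfold rhoMat
  rw [add_mul, mul_add, mul_add, Matrix.smul_mul, h1, smul_smul, Matrix.smul_mul, mul_sub, hε,
    mul_one, sub_self, smul_zero, add_zero, sub_mul, h1, one_mul, sub_self, zero_add, sub_mul,
    one_mul, mul_sub, mul_one, hε, sub_self, sub_zero]

theorem rhoMat_one (ε : Matrix (Fin r) (Fin r) S) : rhoMat ε 1 = 1 := by
  unfold rhoMat
  rw [one_smul, add_sub_cancel]

/-- The homomorphism `z ↦ u(z) ε + 1 - ε` from `P` to `GL_r(S)`, for an idempotent matrix `ε` and a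
homomorphism `u` from `P` to the elements of `S` commuting with the entries of `ε`. -/
def rho (ε : Matrix (Fin r) (Fin r) S) (hε : ε * ε = ε) (u : P →* S)
    (hu : ∀ z i j, Commute (u z) (ε i j)) : P →* GLn S r where
  toFun z := ⟨rhoMat ε (u z), rhoMat ε (u z⁻¹),
    by rw [← rhoMat_mul hε (hu _), ← map_mul, mul_inv_cancel, map_one, rhoMat_one],
    by rw [← rhoMat_mul hε (hu _), ← map_mul, inv_mul_cancel, map_one, rhoMat_one]⟩
  map_one' := by
    apply Units.ext
    exact (congrArg (rhoMat ε) (map_one u)).trans (rhoMat_one ε)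
  map_mul' y z := by
    apply Units.ext
    exact (congrArg (rhoMat ε) (map_mul u y z)).trans (rhoMat_mul hε (hu z))

end Rho

/-- The ring homomorphism `ℤ[C][t,t⁻¹] → ℤ[G][t,t⁻¹]` induced by a homomorphism `C → G`. -/
def gmap {C G : Type} [Group C] [Group G] (φ : C →* G) :
    LaurentPolynomial (MonoidAlgebra ℤ C) →+* LaurentPolynomial (MonoidAlgebra ℤ G) :=
  mapL (MonoidAlgebra.mapDomainRingHom ℤ φ)

theorem commute_gmap {C G : Type} [Group C] [Group G] (φ : C →* G) {z : G}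
    (hz : ∀ c, Commute z (φ c)) (x : LaurentPolynomial (MonoidAlgebra ℤ C)) :
    Commute (elt z) (gmap φ x) := by
  have h1 : ∀ y : MonoidAlgebra ℤ C,
      Commute (MonoidAlgebra.of ℤ G z) (MonoidAlgebra.mapDomainRingHom ℤ φ y) := by
    intro y
    induction y using MonoidAlgebra.induction_on with
    | of c =>
      have h3 : MonoidAlgebra.mapDomainRingHom ℤ φ (MonoidAlgebra.of ℤ C c) =
          MonoidAlgebra.of ℤ G (φ c) := by
        simp
      rw [h3]
      exact (hz c).map (MonoidAlgebra.of ℤ G)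
    | add x y hx hy => rw [map_add]; exact hx.add_right hy
    | smul r x hx => rw [map_zsmul]; exact hx.smul_right r
  induction x using AddMonoidAlgebra.induction_linear with
  | zero => rw [map_zero]; exact Commute.zero_right _
  | add f g hf hg => rw [map_add]; exact hf.add_right hg
  | single n a =>
    have h4 : gmap φ (AddMonoidAlgebra.single n a) =
        AddMonoidAlgebra.single n (MonoidAlgebra.mapDomainRingHom ℤ φ a) := mapL_single _ _ _
    have h5 : elt z = (AddMonoidAlgebra.single 0 (MonoidAlgebra.of ℤ G z) :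
        LaurentPolynomial (MonoidAlgebra ℤ G)) := rfl
    rw [h4, h5]
    show _ * _ = _ * _
    rw [AddMonoidAlgebra.single_mul_single, AddMonoidAlgebra.single_mul_single, zero_add, add_zero,
      (h1 a).eq]

/-- The generator of `Cyc N`. -/
abbrev gen (N : ℕ) : Cyc N := Multiplicative.ofAdd 1

theorem commute_cyc {N : ℕ} {G : Type} [Group G] (φ : Cyc N →* G) (z : Cen (φ (gen N)))
    (c : Cyc N) : Commute (z : G) (φ c) := by
  have h1 : c ∈ Subgroup.zpowers (gen N) := by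
    obtain ⟨k, hk⟩ := ZMod.intCast_surjective (Multiplicative.toAdd c)
    refine ⟨k, ?_⟩
    apply Multiplicative.toAdd.injective
    simp [← hk]
  obtain ⟨k, rfl⟩ := h1
  have h2 : Commute (z : G) (φ (gen N)) := (Subgroup.mem_centralizer_singleton_iff.1 z.2)
  simp only [map_zpow]
  exact h2.zpow_right k

/-- For an idempotent matrix `ε` over `ℤ[C_N][t,t⁻¹]` and a homomorphism `φ : C_N → G`, the
homomorphism `z ↦ z φ(ε) + 1 - φ(ε)` from the centraliser of the image of the generator to the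
general linear group of `ℤ[G][t,t⁻¹]`. -/
def rhoC {N : ℕ} {G : Type} [Group G] (ε : IdemMat (LaurentPolynomial (MonoidAlgebra ℤ (Cyc N))))
    (φ : Cyc N →* G) : Cen (φ (gen N)) →* GLn (LaurentPolynomial (MonoidAlgebra ℤ G)) ε.n :=
  rho (ε.mat.map (gmap φ)) (by rw [← Matrix.map_mul, ε.idem])
    (elt.comp (Cen (φ (gen N))).subtype)
    (fun z _ _ => commute_gmap φ (fun c => commute_cyc φ z c) _)

/-- The linear map `A : Src n G → K_n(ℤ[G]) ⊗ ℚ` sends the symbol `[p, h, c]`, where `h` is the image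
of the generator of `C_N` under an injective homomorphism `φ : C_N → G`, to the image of `c` under
the homomorphism `z ↦ z φ(ε) + 1 - φ(ε)`, with `ε = ε N p`. -/
def IsAssembly (ε : ∀ N : ℕ, ℕ → IdemMat (LaurentPolynomial (MonoidAlgebra ℤ (Cyc N)))) {n : ℕ}
    {G : Type} [Group G] (A : Src n G →ₗ[ℚ] KB n (MonoidAlgebra ℤ G)) : Prop :=
  ∀ (N p : ℕ) (φ : Cyc N →* G) (c : HQ (n + 1) (Cen (φ (gen N)))), 0 < N → p.Prime → p ∣ N →
    Function.Injective φ →
    A (sym p (φ (gen N)) c) =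
      KB.mk n (MonoidAlgebra ℤ G) (ε N p).n (HQ.map (n + 1) (rhoC (ε N p) φ) c)

end Pool.Agent.FJA
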