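import Pool.Agent.FJA.Chains
import Pool.Agent.AUK.FJA.Core
import Pool.Agent.AUK.FJA.SDefs

/-!
# Definitions for the blocks 2 and 3

`Z' = Multiplicative ℤ`, `Γ = G × Z'`.
-/

set_option autoImplicit false

open Matrix Pool.Agent.WhK Pool.Agent.Lib25

noncomputable section

namespace Pool.Agent.FJA

/-! ## Simplices of the general linear groups and the killed chains -/

/-- Formal rational combinations of `M`-tuples of elements of the groups `GL_r(R)`. -/
abbrev SCh (R : Type) [Ring R] (M : ℕ) : Type := (Σ r : ℕ, (Fin M → GLn R r)) →₀ ℚ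

/-- The inclusion of the tuples of elements of `GL_r(R)`. -/
def kinS (R : Type) [Ring R] (M r : ℕ) : ((Fin M → GLn R r) →₀ ℚ) →ₗ[ℚ] SCh R M :=
  Finsupp.lmapDomain ℚ ℚ fun X => ⟨r, X⟩

/-- The boundary. -/
def bdS (R : Type) [Ring R] (M : ℕ) : SCh R (M + 1) →ₗ[ℚ] SCh R M :=
  Finsupp.linearCombination ℚ fun x =>
    ∑ i : Fin (M + 1), Finsupp.single ⟨x.1, fun t => x.2 (i.succAbove t)⟩ ((-1 : ℚ) ^ (i : ℕ))

/-- The killed chains over `R[t,t⁻¹]`: they are spanned by the differences between a simplex and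
its left translates, the differences between a block sum of simplices and the sum of the two
simplices, and the simplices of `GL(R[t])` and of `GL(R[t⁻¹])`. -/
def Kil (R : Type) [Ring R] (M : ℕ) : Submodule ℚ (SCh (LaurentPolynomial R) M) :=
  Submodule.span ℚ
    ({x | ∃ (r : ℕ) (g : GLn (LaurentPolynomial R) r) (X : Fin M → GLn (LaurentPolynomial R) r),
        x = Finsupp.single ⟨r, fun i => g * X i⟩ 1 - Finsupp.single ⟨r, X⟩ 1} ∪
     {x | ∃ (a b : ℕ) (A : Fin M → GLn (LaurentPolynomial R) a)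
        (B : Fin M → GLn (LaurentPolynomial R) b),
        x = Finsupp.single ⟨a + b, fun i => bsumHom (LaurentPolynomial R) a b (A i, B i)⟩ 1 -
          Finsupp.single ⟨a, A⟩ 1 - Finsupp.single ⟨b, B⟩ 1} ∪
     {x | ∃ (r : ℕ) (Y : Fin M → GLn (Polynomial R) r),
        x = Finsupp.single ⟨r, fun i => glm (posIncl R) r (Y i)⟩ 1} ∪
     {x | ∃ (r : ℕ) (Y : Fin M → GLn (Polynomial R) r),
        x = Finsupp.single ⟨r, fun i => glm (negIncl R) r (Y i)⟩ 1})

/-! ## From Laurent polynomials to the group algebra of `Γ = G × Z'` -/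

/-- `k[G][t,t⁻¹] → k[G × Z']`. -/
def lau (k G : Type) [Field k] [Group G] :
    LaurentPolynomial (MonoidAlgebra k G) →+* MonoidAlgebra k (G × Multiplicative ℤ) :=
  AddMonoidAlgebra.liftNCRingHom
    (MonoidAlgebra.mapDomainRingHom k (MonoidHom.inl G (Multiplicative ℤ)))
    ((MonoidAlgebra.of k (G × Multiplicative ℤ)).comp (MonoidHom.inr G (Multiplicative ℤ)))
    (by
      intro x a
      induction x using MonoidAlgebra.induction_linear with
      | zero => rw [map_zero]; exact Commute.zero_left _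
      | add x y hx hy => rw [map_add]; exact hx.add_left hy
      | single g c =>
        have h1 : MonoidAlgebra.mapDomainRingHom k (MonoidHom.inl G (Multiplicative ℤ))
            (MonoidAlgebra.single g c) = MonoidAlgebra.single (g, 1) c := by
          change MonoidAlgebra.mapDomain _ (MonoidAlgebra.single g c) = _
          rw [MonoidAlgebra.mapDomain_single]
          rfl
        rw [h1]
        change _ * MonoidAlgebra.single ((1 : G), a) (1 : k) =
          MonoidAlgebra.single ((1 : G), a) (1 : k) * _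
        rw [MonoidAlgebra.single_mul_single, MonoidAlgebra.single_mul_single, mul_one, one_mul]
        congr 1
        ext
        · simp
        · simp)

/-- `ℤ[G][t,t⁻¹] → k[G × Z']`. -/
def lauZ (k G : Type) [Field k] [Group G] :
    LaurentPolynomial (MonoidAlgebra ℤ G) →+* MonoidAlgebra k (G × Multiplicative ℤ) :=
  (lau k G).comp (mapL (MonoidAlgebra.mapRingHom G (Int.castRingHom k)))

/-- `GL_r(ℤ[G][t,t⁻¹]) → GL_r(k[G × Z'])`. -/
def cvt (k : Type) [Field k] {G : Type} [Group G] (r : ℕ) :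
    GLn (LaurentPolynomial (MonoidAlgebra ℤ G)) r →*
      (Matrix (Fin r) (Fin r) (MonoidAlgebra k (G × Multiplicative ℤ)))ˣ :=
  glm (lauZ k G) r

/-- The projection `σ : G × Z' → Z'`. -/
abbrev sg2 (G : Type) [Group G] : G × Multiplicative ℤ →* Multiplicative ℤ :=
  MonoidHom.snd G (Multiplicative ℤ)

/-- The map of group algebras induced by a homomorphism of groups, on invertible matrices. -/
def glG {k : Type} [Field k] {Γ' Γ : Type} [Group Γ'] [Group Γ] (f : Γ' →* Γ) {ι : Type} [Fintype ι]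
    [DecidableEq ι] : (Matrix ι ι (MonoidAlgebra k Γ'))ˣ →* (Matrix ι ι (MonoidAlgebra k Γ))ˣ :=
  Units.map ((MonoidAlgebra.mapDomainRingHom k f).mapMatrix :
    Matrix ι ι (MonoidAlgebra k Γ') →+* Matrix ι ι (MonoidAlgebra k Γ)).toMonoidHom

/-- The map of recorded paths induced by a homomorphism of groups. -/
def recG {Γ' Γ : Type} [Group Γ'] [Group Γ] {V : Type} (f : Γ' →* Γ) : Rec Γ' V →* Rec Γ V where
  toFun μ := ⟨fun i => (μ.lst i).map f, f μ.val⟩
  map_one' := by
    apply Rec.ext
    · rfl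
    · exact map_one f
  map_mul' μ ν := by
    apply Rec.ext
    · funext i
      change (μ.lst i ++ (ν.lst i).map (μ.val * ·)).map f =
        (μ.lst i).map f ++ ((ν.lst i).map f).map (f μ.val * ·)
      rw [List.map_append, List.map_map, List.map_map]
      congr 2
      funext t
      exact map_mul f _ _
    · exact map_mul f _ _

/-! ## Cochains -/

/-- Evaluation of a family of homogeneous cochains on a chain of a group `P` mapping to `G`. -/
def evc {G : Type} {P : Type} (j : P → G) {m : ℕ} (F : (Fin m → G) → G → ℚ)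
    (w : (Fin m → P) →₀ ℚ) (y : G) : ℚ :=
  w.sum fun z c => c * F (fun i => j (z i)) y

/-- A `G`-invariant family of homogeneous cocycles `F (·; y)` of degree `m` on `G`, with bounded
denominators, supported on the elements `y` for which `S y` holds. -/
structure GCoch {G : Type} [Group G] (m : ℕ) (S : G → Prop) (F : (Fin (m + 1) → G) → G → ℚ) :
    Prop where
  inv : ∀ (γ : G) (a : Fin (m + 1) → G) (y : G), F (fun i => γ * a i) (γ * y * γ⁻¹) = F a y
  coc : ∀ (a : Fin (m + 2) → G) (y : G),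
    ∑ i : Fin (m + 2), (-1 : ℚ) ^ (i : ℕ) * F (fun j => a (i.succAbove j)) y = 0
  supp : ∀ (a : Fin (m + 1) → G) (y : G), F a y ≠ 0 → S y
  den : ∃ D : ℕ, 0 < D ∧ ∀ (a : Fin (m + 1) → G) (y : G), ∃ z : ℤ, (D : ℚ) * F a y = z

/-- The cup product of a family of cocycles on `G` with the class of `Z'`. -/
def cup {G : Type} [Group G] {m : ℕ} (F : (Fin (m + 1) → G) → G → ℚ)
    (a : Fin (m + 2) → G × Multiplicative ℤ) (y : G × Multiplicative ℤ) : ℚ :=
  if y.2 = 1 then
    F (fun i => (a i.castSucc).1) y.1 *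
      ((Multiplicative.toAdd (a (Fin.last (m + 1))).2 -
        Multiplicative.toAdd (a (Fin.last m).castSucc).2 : ℤ) : ℚ)
  else 0

/-- The family `F (·; y ^ a)`, restricted to the elements `y` of order `n0`. -/
def twF {G : Type} [Group G] {m : ℕ} (n0 a : ℕ) (F : (Fin m → G) → G → ℚ) :
    (Fin m → G) → G → ℚ :=
  fun x y => if orderOf y = n0 then F x (y ^ a) else 0

/-! ## Functionals on chains -/

/-- The linear extension of `TX φ N` to formal combinations of simplices over `k[Γ]`. -/
def TF {k : Type} [Field k] [CharZero k] {Γ : Type} [Group Γ] {ι : Type} [Fintype ι] [DecidableEq ι]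
    {M : ℕ} (φ : Rec Γ (Fin M) → ℚ) (N : ℕ) :
    ((Fin M → (Matrix ι ι (MonoidAlgebra k Γ))ˣ) →₀ ℚ) →ₗ[ℚ] k :=
  Finsupp.linearCombination ℚ fun X => TX φ N X

/-- The functional on the chains over `ℤ[G][t,t⁻¹]`. -/
def TS (k : Type) [Field k] [CharZero k] {G : Type} [Group G] {M : ℕ}
    (φ : Rec (G × Multiplicative ℤ) (Fin M) → ℚ) (N : ℕ) :
    SCh (LaurentPolynomial (MonoidAlgebra ℤ G)) M →ₗ[ℚ] k :=
  Finsupp.linearCombination ℚ fun x => TX φ N fun i => cvt k x.1 (x.2 i)

/-! ## Trivialisations of idempotent matrices -/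

/-- The derivation `t d/dt`. -/
def dZ {k : Type} [Field k] {P : Type} (x : MonoidAlgebra k (P × Multiplicative ℤ)) :
    MonoidAlgebra k (P × Multiplicative ℤ) :=
  MonoidAlgebra.ofCoeff
    (x.coeff.sum fun g c => Finsupp.single g (((Multiplicative.toAdd g.2 : ℤ) : k) * c))

/-- For an invertible matrix `X` over `k[P × Z']`: the coefficient at `(c, 1)` of the diagonal
entry `a` of `X * t d/dt (X⁻¹)`. -/
def dlog {k : Type} [Field k] {P : Type} [Group P] {r : ℕ}
    (X : (Matrix (Fin r) (Fin r) (MonoidAlgebra k (P × Multiplicative ℤ)))ˣ) (a : Fin r) (c : P) : k :=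
  ((X.val * (X⁻¹).val.map dZ) a a).coeff (c, 1)

/-- The diagonal idempotent matrix with the entries `1` at the places where `d` is `true`. -/
def dg (k : Type) [Field k] {Γ : Type} [Group Γ] {r : ℕ} (d : Fin r → Bool) :
    Matrix (Fin r) (Fin r) (MonoidAlgebra k Γ) :=
  Matrix.diagonal fun a => if d a then 1 else 0

/-- `X` conjugates the image of the idempotent matrix `e` over `k[C_N × Z']` to `dg k d`. -/
def Trv (k : Type) [Field k] {N : ℕ} (e : IdemMat (LaurentPolynomial (MonoidAlgebra ℤ (Cyc N))))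
    (d : Fin e.n → Bool)
    (X : (Matrix (Fin e.n) (Fin e.n) (MonoidAlgebra k (Cyc N × Multiplicative ℤ)))ˣ) : Prop :=
  X.val * e.mat.map (lauZ k (Cyc N)) = dg k d * X.val

/-- The local data of an idempotent matrix `e` over `ℤ[C_N][t,t⁻¹]`: trivialisations over `ℚ` and over
all `ℤ_q`, whose logarithmic derivatives differ by the functions `v q`. -/
def LocE {N : ℕ} (e : IdemMat (LaurentPolynomial (MonoidAlgebra ℤ (Cyc N))))
    (v : ∀ q : ℕ, [Fact q.Prime] → Cyc N → ℚ_[q]) : Prop :=
  ∃ (d : Fin e.n → Bool)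
    (X : (Matrix (Fin e.n) (Fin e.n) (MonoidAlgebra ℚ (Cyc N × Multiplicative ℤ)))ˣ),
    Trv ℚ e d X ∧ ∀ (q : ℕ) [Fact q.Prime],
      ∃ Y : (Matrix (Fin e.n) (Fin e.n) (MonoidAlgebra ℚ_[q] (Cyc N × Multiplicative ℤ)))ˣ,
        NIU Y ∧ Trv ℚ_[q] e d Y ∧ ∀ c : Cyc N,
          ∑ a ∈ Finset.univ.filter (fun a => d a = true),
            (((dlog X a c : ℚ) : ℚ_[q]) - dlog Y a c) = v q c

/-- The element `z e + 1 - e` over `k[G × Z']`, for `z` in the centraliser of `h = φ (gen N)`. -/
def fV (k : Type) [Field k] {N : ℕ} {G : Type} [Group G]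
    (e : IdemMat (LaurentPolynomial (MonoidAlgebra ℤ (Cyc N)))) (φ : Cyc N →* G)
    (z : Cen (φ (gen N))) :
    (Matrix (Fin e.n) (Fin e.n) (MonoidAlgebra k (G × Multiplicative ℤ)))ˣ :=
  cvt k e.n (rhoC e φ z)

/-- The image over `k[G × Z']` of an invertible matrix over `k[C × Z']`. -/
def XG {k : Type} [Field k] {C G : Type} [Group C] [Group G] (φ : C →* G) {ι : Type} [Fintype ι]
    [DecidableEq ι] (X : (Matrix ι ι (MonoidAlgebra k (C × Multiplicative ℤ)))ˣ) :
    (Matrix ι ι (MonoidAlgebra k (G × Multiplicative ℤ)))ˣ :=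
  glG (MonoidHom.prodMap φ (MonoidHom.id (Multiplicative ℤ))) X

/-- The chain homotopy from `fV` to `fV * X⁻¹`, on a chain `w` of the centraliser. -/
def DX {k : Type} [Field k] {N : ℕ} {G : Type} [Group G]
    (e : IdemMat (LaurentPolynomial (MonoidAlgebra ℤ (Cyc N)))) (φ : Cyc N →* G)
    (X : (Matrix (Fin e.n) (Fin e.n) (MonoidAlgebra k (Cyc N × Multiplicative ℤ)))ˣ) {m : ℕ}
    (w : (Fin m → Cen (φ (gen N))) →₀ ℚ) :
    (Fin (m + 1) → (Matrix (Fin e.n) (Fin e.n) (MonoidAlgebra k (G × Multiplicative ℤ)))ˣ) →₀ ℚ :=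
  prism ℚ (fV k e φ) (fun z => fV k e φ z * (XG φ X)⁻¹) m w

/-- The diagonal matrix with the entries `z` at the places where `d` is `true` and `1` elsewhere. -/
def dgU (k : Type) [Field k] {P : Type} [Group P] {r : ℕ} (d : Fin r → Bool) (z : P) :
    (Matrix (Fin r) (Fin r) (MonoidAlgebra k (P × Multiplicative ℤ)))ˣ where
  val := Matrix.diagonal fun a => if d a then MonoidAlgebra.single (z, 1) 1 else 1
  inv := Matrix.diagonal fun a => if d a then MonoidAlgebra.single (z⁻¹, 1) 1 else 1
  val_inv := by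
    rw [Matrix.diagonal_mul_diagonal, ← Matrix.diagonal_one]
    congr 1
    funext a
    split_ifs
    · rw [MonoidAlgebra.single_mul_single, Prod.mk_mul_mk, mul_inv_cancel, mul_one, mul_one]
      rfl
    · rw [mul_one]
  inv_val := by
    rw [Matrix.diagonal_mul_diagonal, ← Matrix.diagonal_one]
    congr 1
    funext a
    split_ifs
    · rw [MonoidAlgebra.single_mul_single, Prod.mk_mul_mk, inv_mul_cancel, mul_one, mul_one]
      rfl
    · rw [mul_one]

/-- The average of `F` over the translations by the central finite subgroup `ψ C` in all the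
variables. -/
def avC {P C : Type} [Group P] [Group C] [Fintype C] (ψ : C →* P) {m : ℕ}
    (F : (Fin m → P) → P → ℚ) : (Fin m → P) → P → ℚ :=
  fun a y => ((Fintype.card C : ℚ) ^ m)⁻¹ * ∑ t : Fin m → C, F (fun i => ψ (t i) * a i) y

end Pool.Agent.FJA
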