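import Pool.Agent.AUK.FJA.SDefs2
import Pool.Agent.AUK.FJA.St5

/-!
# Phase 2: evaluation on the chains of the units, the logarithm

`C = Cyc N0` or a finite commutative group, `N = p ^ k`, `Γ = G × Z'`.
-/

set_option autoImplicit false

open Matrix Pool.Agent.WhK Pool.Agent.Lib25

noncomputable section

namespace Pool.Agent.FJA

/-! ## Definitions -/

/-- The ring homomorphism `ℤ[C] → ℤ[G][t,t⁻¹]`. -/
def iu {C G : Type} [Group C] [Group G] (φ : C →* G) :
    MonoidAlgebra ℤ C →+* LaurentPolynomial (MonoidAlgebra ℤ G) :=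
  (AddMonoidAlgebra.singleZeroRingHom (R := MonoidAlgebra ℤ G) (M := ℤ)).comp
    (MonoidAlgebra.mapDomainRingHom ℤ φ)

/-- The `1 × 1` matrix over `ℤ[G][t,t⁻¹]` of a unit of `ℤ[C]`. -/
def uEl {C G : Type} [Group C] [Group G] (φ : C →* G) (u : (MonoidAlgebra ℤ C)ˣ) :
    GLn (LaurentPolynomial (MonoidAlgebra ℤ G)) 1 :=
  gl1 (((iu φ : MonoidAlgebra ℤ C →+* LaurentPolynomial (MonoidAlgebra ℤ G)) :
    MonoidAlgebra ℤ C →* LaurentPolynomial (MonoidAlgebra ℤ G)).comp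
      (Units.coeHom (MonoidAlgebra ℤ C))) u

/-- The `1 × 1` matrix `t`. -/
def sEl (G : Type) [Group G] : GLn (LaurentPolynomial (MonoidAlgebra ℤ G)) 1 :=
  gl1 mon (1, Multiplicative.ofAdd 1)

/-- The chain of the product `w × [u] × [t]`, for a chain `w` of the centraliser of `φ (gen N)` and a
unit `u` of `ℤ[C_N]`. -/
def E1 {G : Type} [Group G] {N : ℕ} (m : ℕ) (φ : Cyc N →* G) (u : (MonoidAlgebra ℤ (Cyc N))ˣ)
    (w : (Fin (m + 1) → Cen (φ (gen N))) →₀ ℚ) :
    SCh (LaurentPolynomial (MonoidAlgebra ℤ G)) (m + 3) :=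
  kinS (LaurentPolynomial (MonoidAlgebra ℤ G)) (m + 3) 1
    (prism ℚ id (fun x => x * sEl G) (m + 2)
      (prism ℚ (fun z : Cen (φ (gen N)) => gl1 elt (z : G))
        (fun z : Cen (φ (gen N)) => gl1 elt (z : G) * uEl φ u) (m + 1) w))

/-- The function `(μ ↦ j (μ.lst 1) - j (μ.lst 0))` on the paths with endpoint `c` and lists of length
`p ^ k`. -/
def lamM {C : Type} [Group C] (p k B : ℕ) (j : List C → C → ZMod (p ^ (k - B))) (c : C)
    (μ : Rec C (Fin 2)) : ℚ := by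
  classical
  exact if (∀ i, (μ.lst i).length = p ^ k) ∧ μ.val = c then
    (((j (μ.lst 1) c - j (μ.lst 0) c).val : ℕ) : ℚ) else 0

/-- The restriction of a marking. -/
def rsJ {C G : Type} [Group C] [Group G] {n : ℕ} (φ : C →* G)
    (j : List (G × Multiplicative ℤ) → G × Multiplicative ℤ → ZMod n) : List C → C → ZMod n :=
  fun Y c => j (Y.map fun x => (φ x, 1)) (φ c, 1)

/-- The `1 × 1` matrix of a unit. -/
def sc {S : Type} [Ring S] : Sˣ →* (Matrix (Fin 1) (Fin 1) S)ˣ :=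
  Units.map (Matrix.scalar (Fin 1) : S →+* Matrix (Fin 1) (Fin 1) S).toMonoidHom

/-- The image over `ℚ_p` of a unit of `ℤ[C]`. -/
def uZ (p : ℕ) [Fact p.Prime] {C : Type} [Group C] :
    (MonoidAlgebra ℤ C)ˣ →* (MonoidAlgebra ℚ_[p] C)ˣ :=
  Units.map (MonoidAlgebra.mapRingHom C (Int.castRingHom ℚ_[p])).toMonoidHom

/-- The scalar matrix of an element of the group. -/
def sclU (k : Type) [Field k] {Γ : Type} [Group Γ] (ι : Type) [Fintype ι] [DecidableEq ι] :
    Γ →* (Matrix ι ι (MonoidAlgebra k Γ))ˣ :=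
  (Units.map ((Matrix.scalar ι : MonoidAlgebra k Γ →+* Matrix ι ι (MonoidAlgebra k Γ)).toMonoidHom.comp
    (MonoidAlgebra.of k Γ))).comp (toUnits : Γ ≃* Γˣ).toMonoidHom

/-- The twist: the positions with the label `i` are multiplied by `γ i`. -/
def twR {Γ' Γ V : Type} [Group Γ'] [Group Γ] (f : Γ' →* Γ) (γ : V → Γ) (μ : Rec Γ' V) : Rec Γ V :=
  ⟨fun i => (μ.lst i).map fun x => γ i * f x, f μ.val⟩

/-- `ℓ` is the `p`-adic logarithm of `u ∈ ℤ[C]`. -/
def IsPlog (p : ℕ) [Fact p.Prime] {C : Type} [Group C] (u : MonoidAlgebra ℤ C) (l : C → ℚ_[p]) :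
    Prop :=
  ∃ E : ℕ, 0 < E ∧ (∀ c : C, (p : ℤ) ∣ (u ^ E - 1).coeff c) ∧
    ∀ c : C, Filter.Tendsto (fun a : ℕ => (((u ^ (E * p ^ a) - 1).coeff c : ℤ) : ℚ_[p]) /
      ((E * p ^ a : ℕ) : ℚ_[p])) Filter.atTop (nhds (l c))

/-- The family is invariant under the translations by the powers of `y` in every variable. -/
def Basic {G : Type} [Group G] {m : ℕ} (F : (Fin m → G) → G → ℚ) : Prop :=
  ∀ (t : Fin m → ℤ) (a : Fin m → G) (y : G), F (fun i => y ^ t i * a i) y = F a y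

/-! ## Modules TWI, TXR -/

/-- TWI: twists.  Proof: `twR f γ` is a homomorphism of monoids
(`γ_i * f (y x) = f y * (γ_i * f x)` as `γ_i` commutes with `f y`), it sends `inc x` to `inc (f x)` and
`om i` to `inc γ_i * om i * inc γ_i⁻¹`; so the induced ring homomorphism of the matrices over `k[Rec]` sends
`j X_i * ω_i * j X_i⁻¹` to `j (glG f X_i) * (γ_i ω_i γ_i⁻¹) * j (glG f X_i)⁻¹ =
j (γ_i glG f X_i) * ω_i * j (γ_i glG f X_i)⁻¹` (the scalar matrix `γ_i` commutes with `glG f X_i` as `γ_i`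
commutes with the image of `f`).  Compare P_GRP.lean. -/
def S_TWI : Prop := ∀ (k : Type) [Field k] [CharZero k] (Γ' Γ : Type) [Group Γ'] [Group Γ]
    (f : Γ' →* Γ) (ι : Type) [Fintype ι] [DecidableEq ι] (M N : ℕ) (φ : Rec Γ (Fin M) → ℚ)
    (γ : Fin M → Γ), (∀ i x, Commute (γ i) (f x)) →
    ∀ X : Fin M → (Matrix ι ι (MonoidAlgebra k Γ'))ˣ,
    TX φ N (fun i => sclU k ι (γ i) * glG f (X i)) = TX (fun μ => φ (twR f γ μ)) N X

/-- TXR (uses TXfac): restriction of the labels along a strictly monotone map.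
Proof: induction on `M - M'`: if `f` is not surjective choose `i` outside of the range, then
`f = i.succAbove ∘ g` with `g` strictly monotone (`Fin.exists_succAbove_eq`, or `i.predAbove`), and TXfac.
If `f` is surjective then it is the identity (`M' = M`). -/
def S_TXR : Prop := ∀ (k : Type) [Field k] [CharZero k] (Γ : Type) [Group Γ] (ι : Type) [Fintype ι]
    [DecidableEq ι] (M M' N : ℕ) (f : Fin M' → Fin M), StrictMono f →
    ∀ (φ : Rec Γ (Fin M') → ℚ) (X : Fin M → (Matrix ι ι (MonoidAlgebra k Γ))ˣ),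
    TX (fun μ => φ (Rec.res f μ)) N X = TX φ N (fun t => X (f t))

/-! ## Modules LM0, EV0, EV1 -/

/-- LM0 (uses TXinv, TXsup): the values of `lamM` on the simplices with two vertices, over a commutative
group.  (a) left invariance: `lamM` is invariant under conjugation (`Mrk.cj`; `C` is commutative),
TXinv.  (b) `TX .. ![1, 1] = 0` for `c ≠ 1`: all the paths have the endpoint `1` (TXsup with `S` the paths with
endpoint `1`, for the function `lamM`). -/
def S_LM0 : Prop := ∀ (k : Type) [Field k] [CharZero k] (C : Type) [CommGroup C] (p r B : ℕ)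
    (j : List C → C → ZMod (p ^ (r - B))), Mrk C p r B j → ∀ (c : C) (N : ℕ),
    (∀ g X Y : (Matrix (Fin 1) (Fin 1) (MonoidAlgebra k C))ˣ,
      TX (lamM p r B j c) N ![g * X, g * Y] = TX (lamM p r B j c) N ![X, Y]) ∧
    (c ≠ 1 → TX (lamM p r B j c) N
      ![(1 : (Matrix (Fin 1) (Fin 1) (MonoidAlgebra k C))ˣ), 1] = 0)

/-- EV0 (uses TWI, TXR, TXlen, TXlin, MEX): the value of `psiM` on a simplex of the centraliser times
units of `k[C]`.

Proof.  TWI for `f x = (φ x, 1)` and `γ i = (z i, b i)` (`z i` commutes with the image of `φ`, `commute_cyc`)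
gives `TX (ψ ∘ twR) N (sc ∘ v)`, `ψ ∘ twR` on `Rec C (Fin (m + 3))`.  Let `μ` have all lists of length `p^k`
(TXlen) and `c = μ.val`, `y = (φ c, 1)`, `Y_i = μ.lst i`.  If not `S (φ c)` then `F (·; φ c) = 0` and the value is
`0`.  Otherwise `y` has finite order divisible by `p` and `c` generates `C`.  The section
`s (γ_i Y_i) y` is supported in the elements `y^t γ_i (φ x, 1)`, `x ∈ Y_i`, which are of the form
`(y'^t' z_i, b_i)`, `y' = φ c` (as `φ x` is a power of `φ c` and commutes with `z_i`): on these elements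
`cup F` has the constant value `F (z_0, …, z_m; φ c) * (b_(m+1) - b_m)` (`Basic`), and the augmentations of the
sections are one, so `evs (cup F) s (res ..) = F (z_0, …, z_m; φ c) * (b_(m+1) - b_m)` (MEX: constant
function on the product of the supports).  By `Mrk.cj` with `γ_i` (which commutes with `y`)
`j (γ_i Y_i) y = rsJ φ j Y_i c`.  So on the paths with all lists of length `p^k`
`ψ ∘ twR = ∑_c F (z; φ c) * (b_(m+1) - b_m) * lamM (rsJ φ j) c ∘ Rec.res f`, `f : Fin 2 → Fin (m + 3)` with the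
values `m + 1, m + 2`.  TXlen, TXlin, TXR. -/
def S_EV0 : Prop := ∀ (G : Type) [Group G] (p : ℕ) [Fact p.Prime] (k B m cc N : ℕ) [NeZero N]
    (φ : Cyc N →* G), Function.Injective φ → ∀ (S : G → Prop) (F : (Fin (m + 1) → G) → G → ℚ),
    (∀ y, S y → IsOfFinOrder y ∧ p ∣ orderOf y) → (∀ c : Cyc N, S (φ c) → Subgroup.zpowers c = ⊤) →
    GCoch m S F → Basic F →
    ∀ s : List (G × Multiplicative ℤ) → G × Multiplicative ℤ → (G × Multiplicative ℤ →₀ ℚ),
    SecR cc s →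
    ∀ j : List (G × Multiplicative ℤ) → G × Multiplicative ℤ → ZMod (p ^ (k - B)),
    Mrk (G × Multiplicative ℤ) p k B j →
    ∀ (z : Fin (m + 3) → Cen (φ (gen N))) (b : Fin (m + 3) → ℤ)
      (v : Fin (m + 3) → (MonoidAlgebra ℚ_[p] (Cyc N))ˣ),
    TX (psiM p k B (cup F) s j) (p ^ k) (fun i => sclU ℚ_[p] (Fin 1) ((z i : G),
        Multiplicative.ofAdd (b i)) * glG (MonoidHom.inl G (Multiplicative ℤ))
          (glG φ (sc (v i)))) =
      ∑ c : Cyc N, (F (fun i : Fin (m + 1) => (z (Fin.castAdd 2 i) : G)) (φ c) : ℚ_[p]) *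
        ((b (Fin.last (m + 1)).castSucc - b (Fin.last m).castSucc.castSucc : ℤ) : ℚ_[p]) *
        TX (lamM p k B (rsJ φ j) c) (p ^ k)
          ![sc (v (Fin.last (m + 1)).castSucc), sc (v (Fin.last (m + 2)))]

/-- EV1 (uses EV0, LM0, LAU): the value of `psiM` on the chain `E1`.

Proof: by linearity `w = single Z 1`.  `E1` is the sum over `i ≤ m`, `i' ≤ m + 1` of `(-1)^(i + i')` times the
simplex obtained from the vertices `x_0, …, x_(m+1)` = `z_0, …, z_i, z_i u, …, z_m u` by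
`x_0, …, x_i', x_i' t, …, x_(m+1) t`.  Under `cvt` (see LAU) `gl1 elt z` becomes the scalar `(z, 1)`, `uEl φ u`
becomes the image of `sc (uZ p u)`, `sEl` becomes the scalar `(1, t)`.  So EV0 applies with `b_l = 0` for
`l ≤ i'` and `1` for `l > i'`, and `v_l` is `1` or `uZ p u`: `b_(m+1) - b_m` is `1` for `i' = m` and `0` otherwise.
For `i' = m` the last two vertices are `x_m t`, `x_(m+1) t` with `x_(m+1) = z_m u`, and `x_m = z_m` for `i = m`,
`x_m = z_(m-1) u` for `i < m`.  For `i < m` the factor is `TX lamM ![sc u, sc u] = TX lamM ![1, 1] = 0` by LM0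
(if the term is not zero then `S (φ c)` and `c ≠ 1` because `p` divides its order), for `i = m` it is
`TX lamM ![1, sc u]`, and the first `m + 1` vertices are `z_0, …, z_m`; the sign is `(-1)^(m + m) = 1`. -/
def S_EV1 : Prop := ∀ (G : Type) [Group G] (p : ℕ) [Fact p.Prime] (k B m cc N : ℕ) [NeZero N]
    (φ : Cyc N →* G), Function.Injective φ → ∀ (S : G → Prop) (F : (Fin (m + 1) → G) → G → ℚ),
    (∀ y, S y → IsOfFinOrder y ∧ p ∣ orderOf y) → (∀ c : Cyc N, S (φ c) → Subgroup.zpowers c = ⊤) →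
    GCoch m S F → Basic F →
    ∀ s : List (G × Multiplicative ℤ) → G × Multiplicative ℤ → (G × Multiplicative ℤ →₀ ℚ),
    SecR cc s →
    ∀ j : List (G × Multiplicative ℤ) → G × Multiplicative ℤ → ZMod (p ^ (k - B)),
    Mrk (G × Multiplicative ℤ) p k B j →
    ∀ (u : (MonoidAlgebra ℤ (Cyc N))ˣ) (w : (Fin (m + 1) → Cen (φ (gen N))) →₀ ℚ),
    TS ℚ_[p] (psiM p k B (cup F) s j) (p ^ k) (E1 m φ u w) =
      ∑ c : Cyc N, ((evc (fun z : Cen (φ (gen N)) => (z : G)) F w (φ c) : ℚ) : ℚ_[p]) *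
        TX (lamM p k B (rsJ φ j) c) (p ^ k) ![1, sc (uZ p u)]

/-! ## Modules ADD, GRA, FST, LIM -/

/-- ADD (uses DIV, LM0, TXlin, TXfac, TXlen): the functional is additive up to `p ^ (2k - 2B)`.

Proof: let `X = ![1, sc v, sc (v * v')]` and `φ = cobR (lamM ..)`, set to `0` outside of `Bal`.  `TX φ N X =
TX lamM ![sc v, sc (v v')] - TX lamM ![1, sc (v v')] + TX lamM ![1, sc v]` (TXfac, TXlin, TXlen) and the
first term is `TX lamM ![1, sc v']` (LM0).  `lamM` is a trace function on the balanced paths (see PSA: the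
endpoints are the same as `C` is commutative, the lists are rotated by the same number of steps), so
`φ` is one; it is supported on the paths with endpoint `c`, of finite order divisible by `p`; its values are
`0` or `p^(k-B)` times an integer (`x.val + x'.val - (x + x').val`, see PSC; for a balanced path with lists
of length `≠ p^k` it is `0`).  DIV with `e = k - B`, `D = 1`. -/
def S_ADD : Prop := ∀ (C : Type) [CommGroup C] (b : ℕ), TorBd C b → ∀ (p : ℕ) [Fact p.Prime]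
    (B : ℕ), b < p ^ B → ∀ k : ℕ, B ≤ k → ∀ j : List C → C → ZMod (p ^ (k - B)), Mrk C p k B j →
    ∀ c : C, IsOfFinOrder c → p ∣ orderOf c → ∀ v v' : (MonoidAlgebra ℚ_[p] C)ˣ,
    NI (v : MonoidAlgebra ℚ_[p] C) → NI ((v⁻¹ : (MonoidAlgebra ℚ_[p] C)ˣ) : MonoidAlgebra ℚ_[p] C) →
    NI (v' : MonoidAlgebra ℚ_[p] C) →
    NI ((v'⁻¹ : (MonoidAlgebra ℚ_[p] C)ˣ) : MonoidAlgebra ℚ_[p] C) →
    ‖TX (lamM p k B j c) (p ^ k) ![1, sc (v * v')] - TX (lamM p k B j c) (p ^ k) ![1, sc v] -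
      TX (lamM p k B j c) (p ^ k) ![1, sc v']‖ ≤ (p : ℝ) ^ (-(2 * k - 2 * B : ℤ))

/-- GRA (uses GAS): the divisibility with a grading.

Proof: the function `φ' (μ, d) = p^(r (d - 2)) φ μ` for `d ≥ 2`, `0` otherwise, has integral values and is a
trace function on the submonoid `Bal × ℕ`; `φ'' = p^(2r) φ'` is the function of the statement.  As in DIV:
GAS `B` times for `φ' (· ^ (p^i))`, and `φ' ((μ, d)^(p^B)) = 0` by the bound on the orders. -/
def S_GRA : Prop := ∀ (Γ : Type) [Group Γ] (b : ℕ), TorBd Γ b → ∀ (p : ℕ) [Fact p.Prime] (B : ℕ),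
    b < p ^ B → ∀ (k : ℕ), B ≤ k → ∀ (M r : ℕ) (φ : Rec Γ (Fin M) → ℚ),
    (∀ μ ∈ Bal Γ (Fin M), ∀ ν ∈ Bal Γ (Fin M), φ (μ * ν) = φ (ν * μ)) →
    (∀ μ, φ μ ≠ 0 → IsOfFinOrder μ.val ∧ p ∣ orderOf μ.val) → (∀ μ, ∃ z : ℤ, φ μ = z) →
    ∀ (ι : Type) [Fintype ι] [DecidableEq ι]
      (U : Matrix ι ι (MonoidAlgebra ℚ_[p] (Rec Γ (Fin M) × Multiplicative ℕ))), NIM U →
    (∀ a b x, (U a b).coeff x ≠ 0 → x.1 ∈ Bal Γ (Fin M)) →
    ‖lin ℚ_[p] (fun x : Rec Γ (Fin M) × Multiplicative ℕ => if 2 ≤ Multiplicative.toAdd x.2 then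
      (p : ℚ) ^ (r * Multiplicative.toAdd x.2) * φ x.1 else 0) (Matrix.trace (U ^ p ^ k))‖ ≤
      (p : ℝ) ^ (-(2 * r + k - B : ℤ))

/-- FST (uses GRA): the functional on units close to one.

Proof.  `v = 1 + p^r x`, `v⁻¹ = 1 + p^r x'` with `x' = - x v⁻¹` integral.  Over the monoid
`Rec C (Fin 2) × ℕ` (grading) put `U' = ω_0 (1 + T x) ω_1 (1 + T x')` (`1 × 1` matrices; `T` = degree one): it
is integral and supported in `Bal` (all lists of length one), and its image under `(μ, d) ↦ p^(r d) μ` is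
`UX ![1, sc v]`.  So `TX lamM (p^k) ![1, sc v] = lin λ' (tr U'^(p^k))`, `λ' (μ, d) = p^(r d) lamM μ`.  Split `λ'`
in the degrees `0`, `1`, `≥ 2`.
* `≥ 2`: GRA (`lamM` is a trace function on `Bal` with integral values supported on the endpoint `c`).
* `0`: all paths have the endpoint `1 ≠ c`: zero.
* `1`: write `U' = ω_0 ω_1 + T V + T^2 ..`, `V = ω_0 x ω_1 + ω_0 ω_1 x'`; the part of degree one of `U'^N` is
  `∑_(t < N) (ω_0 ω_1)^t V (ω_0 ω_1)^(N-1-t)`.  For a letter `g` (with coefficient `x_g`) in the first term of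
  `V`: the lists are `Y_0 = 1^(t+1) g^(N-1-t)`, `Y_1 = 1^t g^(N-t)`, endpoint `g`: for `g = c`,
  `(Y_1, c) = rot (Y_0, c)`, so `j Y_1 - j Y_0 = 1` and the value is `1` (as `p^(k-B) > 1`).  For the second term
  of `V`: `Y_0 = Y_1 = 1^(t+1) g^(N-1-t)`, the value is `0`.  So the part of degree one is
  `p^r * p^k * x_c`. -/
def S_FST : Prop := ∀ (C : Type) [CommGroup C] (b : ℕ), TorBd C b → ∀ (p : ℕ) [Fact p.Prime]
    (B : ℕ), b < p ^ B → ∀ k : ℕ, B < k → ∀ j : List C → C → ZMod (p ^ (k - B)), Mrk C p k B j →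
    ∀ c : C, IsOfFinOrder c → p ∣ orderOf c → ∀ (v : (MonoidAlgebra ℚ_[p] C)ˣ) (r : ℕ)
      (x : MonoidAlgebra ℚ_[p] C), NI x →
    NI ((v⁻¹ : (MonoidAlgebra ℚ_[p] C)ˣ) : MonoidAlgebra ℚ_[p] C) →
    (v : MonoidAlgebra ℚ_[p] C) = 1 + (p : ℚ_[p]) ^ r • x →
    ‖TX (lamM p k B j c) (p ^ k) ![1, sc v] - (p : ℚ_[p]) ^ (k + r) * x.coeff c‖ ≤
      (p : ℝ) ^ (-(2 * r + k - B : ℤ))

/-- LIM (uses ADD, FST): the limit is the logarithm, uniformly in the markings.

Proof: let `L = (p^k)⁻¹ TX lamM ![1, sc (uZ p u)]` and `E` as in `IsPlog`.  By ADD (induction on the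
exponent; `uZ p u` and its powers and inverses are integral) `‖E p^a L - (p^k)⁻¹ TX lamM ![1, sc (uZ p u)^(E p^a)]‖ ≤
p^(-(k - 2B))`.  `u^E = 1 + p x_0` gives `u^(E p^a) = 1 + p^(a+1) x_a` with `x_a` integral, so by FST with
`r = a + 1` the second term differs from `(u^(E p^a) - 1)_c` by at most `p^(-(2a + 2 - B))`.  Dividing by
`E p^a`: `‖L - (u^(E p^a) - 1)_c / (E p^a)‖ ≤ ‖E‖⁻¹ max (p^(a + 2B - k), p^(B - a - 2))`.  Take `a = k / 2`. -/
def S_LIM : Prop := ∀ (C : Type) [CommGroup C] (b : ℕ), TorBd C b → ∀ (p : ℕ) [Fact p.Prime]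
    (B : ℕ), b < p ^ B → ∀ (u : (MonoidAlgebra ℤ C)ˣ) (l : C → ℚ_[p]),
    IsPlog p (u : MonoidAlgebra ℤ C) l → ∀ c : C, IsOfFinOrder c → p ∣ orderOf c →
    ∀ ε : ℝ, 0 < ε → ∃ K : ℕ, B < K ∧ ∀ k : ℕ, K ≤ k →
      ∀ j : List C → C → ZMod (p ^ (k - B)), Mrk C p k B j →
      ‖((p : ℚ_[p]) ^ k)⁻¹ * TX (lamM p k B j c) (p ^ k) ![1, sc (uZ p u)] - l c‖ ≤ ε

/-! ## Modules BAS, CON -/

/-- BAS (uses MEX, PRI): basic families.

Proof: for `m = 0` the cocycle identity says that `F (·; y)` is constant, take `F' = F`.  For `m ≥ 1`, for `y`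
with `S y` let `c_i = (1/N1) ∑_(t < N1) [y^t a_i]` and `F' a y = mex (F · y) c`, `F' a y = 0` if not `S y` (then
`F a y = 0` anyway, so one may use the formula for all `y` of order `N1`).  As in AVC (P_AVC.lean, average
over a central subgroup; here the subgroup generated by `y` depends on `y`): invariance, cocycle, support,
denominators `D N1^(m+1)`, `Basic`; and `F a y - F' a y = ∑ (-1)^i G0 (a ∘ i.succAbove) y` with `G0`
invariant (the prism between `a ↦ [a]` and `a ↦ (1/N1) ∑ [y^t a]`).  For `w ∈ cyc (Cen h) m` and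
`y ∈ zpowers h` the value of `G0 (·; y)` on `∂ w ∈ hdeg` is zero (invariance under `g ∈ Cen h`, which commutes
with `y`). -/
def S_BAS : Prop := ∀ (G : Type) [Group G] (m N1 : ℕ), 0 < N1 → ∀ (S : G → Prop)
    (F : (Fin (m + 1) → G) → G → ℚ), (∀ y, S y → orderOf y = N1) → GCoch m S F →
    ∃ F' : (Fin (m + 1) → G) → G → ℚ, GCoch m S F' ∧ Basic F' ∧
      ∀ (h y : G), y ∈ Subgroup.zpowers h → ∀ w ∈ cyc ℚ (Cen h) m,
        evc (fun z : Cen h => (z : G)) F' w y = evc (fun z : Cen h => (z : G)) F w y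

/-- CON (uses LAM, EV1, LIM, BAS, MRK, SEC, TXsup): the conclusion for the units.

Proof.  By BAS we may assume that `F` is basic (the sum only involves `evc F (w i) (φ i c)` with
`w i ∈ cyc`).  `SEC` for `Γ = G × Z'` (torsion bounded by `bG`, `RLP.torBd`) gives `s` with `SecR bG! s`;
choose `B` with `bG < p^B`, and for every `k > B` a marking `j_k` (MRK).  `ψ_k = psiM p k B (cup F) s j_k`.
LAM for `E = kinS 1 (hmap (gl1 mon) w0) + ∑ q_i E1 ..`: `‖TS ψ_k (p^k) E‖ ≤ C p^(-2k)`.  The first term of `E`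
contributes `0`: the vertices are `cvt (gl1 mon z)`, scalar matrices of elements of `Γ`, so all paths have
the endpoint `1` and `psiM` vanishes on them (`p` does not divide `1`; TXsup with `S` the paths with
endpoint `1`... the letters are not `1`: use instead `UX = ∏ z_i ω_i z_i⁻¹`, or TWI with `Γ'` trivial).  By EV1
(if `S (φ i c)` then `c` has order `N1 ≥ N i`, so it generates `Cyc (N i)`)
`(p^k)⁻¹ TS ψ_k E = ∑_i q_i ∑_c evc F (w i) (φ i c) (p^k)⁻¹ TX (lamM (rsJ (φ i) j_k) c) ![1, sc (uZ p (u i))]`;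
`rsJ (φ i) j_k` is a marking of `Cyc (N i)` (`φ i` injective).  By LIM the right side tends to
`∑_i q_i ∑_c evc .. * l i c` as `k → ∞` (only the `c` with `S (φ i c)` contribute, their order is divisible
by `p`), the left side tends to `0`. -/
def S_CON : Prop := ∀ (G : Type) [Group G] (bG : ℕ), TorBd G bG → ∀ (p : ℕ) [Fact p.Prime]
    (m N1 : ℕ), 0 < N1 → p ∣ N1 → ∀ (S : G → Prop) (F : (Fin (m + 1) → G) → G → ℚ),
    (∀ y, S y → orderOf y = N1) → GCoch m S F →
    ∀ (D : Dat G (m + 1)) (e : ∀ j, IdemMat (LaurentPolynomial (MonoidAlgebra ℤ (Cyc (D.N j)))))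
      (v : ∀ (j : D.J) (q : ℕ), [Fact q.Prime] → Cyc (D.N j) → ℚ_[q]),
    (∀ j, LocE (e j) (fun q _ => v j q)) →
    ∀ (w0 : (Fin (m + 3) → G × Multiplicative ℤ) →₀ ℚ)
      (I : Type) (t : Finset I) (q : I → ℚ) (N : I → ℕ) [∀ i, NeZero (N i)]
      (φ : ∀ i, Cyc (N i) →* G) (u : ∀ i, (MonoidAlgebra ℤ (Cyc (N i)))ˣ)
      (l : ∀ i, Cyc (N i) → ℚ_[p]) (w : ∀ i, (Fin (m + 1) → Cen (φ i (gen (N i)))) →₀ ℚ),
    (∀ i, N i ≤ N1) → (∀ i, Function.Injective (φ i)) →
    (∀ i, IsPlog p (u i : MonoidAlgebra ℤ (Cyc (N i))) (l i)) →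
    (∀ i, w i ∈ cyc ℚ (Cen (φ i (gen (N i)))) m) →
    D.ch e + (kinS (LaurentPolynomial (MonoidAlgebra ℤ G)) (m + 3) 1
        (hmap ℚ (gl1 mon) (m + 3) w0) + ∑ i ∈ t, q i • E1 m (φ i) (u i) (w i)) ∈
      LinearMap.range (bdS (LaurentPolynomial (MonoidAlgebra ℤ G)) (m + 3)) ⊔
        Kil (MonoidAlgebra ℤ G) (m + 3) →
    ∑ i ∈ t, (q i : ℚ_[p]) * ∑ c : Cyc (N i),
      ((evc (fun z : Cen (φ i (gen (N i))) => (z : G)) F (w i) (φ i c) : ℚ) : ℚ_[p]) * l i c = 0

end Pool.Agent.FJA
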