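import Pool.Agent.AUK.FJA.SDefsD
import Pool.Agent.AUK.FJA.St6

/-!
# Definitions for the part with coefficients `K_1`
-/

set_option autoImplicit false

open Matrix Pool.Agent.WhK Pool.Agent.Lib25 CategoryTheory

noncomputable section

namespace Pool.Agent.FJA

/-- A positive multiple of the linear functional `lam` on `H_m(P; ℚ)` is represented by an integral
inhomogeneous cocycle. -/
def DenG (m : ℕ) {P : Type} [Group P] (lam : Hk ℚ m P →ₗ[ℚ] ℚ) : Prop :=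
  ∃ (D : ℕ) (f : (Fin m → P) → ℤ), 0 < D ∧
    (∀ y : IC ℚ (m + 1) P, pair (fun g => (f g : ℚ)) (dI ℚ m P y) = 0) ∧
    ∀ x : ZC ℚ m P, (D : ℚ) * lam (cl ℚ m P x) = pair (fun g => (f g : ℚ)) (ch ℚ m P x)

/-! ## The `p`-adic logarithm of units of `ℤ[C]` -/

/-- The order of the group of units of `F_p[C]`. -/
def pE (p : ℕ) (C : Type) [Group C] : ℕ := Nat.card (MonoidAlgebra (ZMod p) C)ˣ

/-- The coefficient at `c` of `(u ^ (E p ^ a) - 1) / (E p ^ a)`, `E = pE p C`. -/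
def plogS (p : ℕ) [Fact p.Prime] {C : Type} [Group C] (u : (MonoidAlgebra ℤ C)ˣ) (c : C) (a : ℕ) :
    ℚ_[p] :=
  (((((u ^ (pE p C * p ^ a) : (MonoidAlgebra ℤ C)ˣ) : MonoidAlgebra ℤ C) - 1).coeff c : ℤ) : ℚ_[p]) /
    ((pE p C * p ^ a : ℕ) : ℚ_[p])

/-- The coefficient at `c` of the `p`-adic logarithm of the unit `u`. -/
def plog (p : ℕ) [Fact p.Prime] {C : Type} [Group C] (u : (MonoidAlgebra ℤ C)ˣ) (c : C) : ℚ_[p] :=
  Filter.limUnder Filter.atTop (plogS p u c)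

/-! ## The chains -/

/-- The map of units induced by a homomorphism of groups. -/
def uG {C G : Type} [Group C] [Group G] (φ : C →* G) : (MonoidAlgebra ℤ C)ˣ →* (MonoidAlgebra ℤ G)ˣ :=
  Units.map (MonoidAlgebra.mapDomainRingHom ℤ φ : MonoidAlgebra ℤ C →* MonoidAlgebra ℤ G)

/-- The inhomogeneous chain `x × [u] × [t]`. -/
def chU {m : ℕ} {G : Type} [Group G] {P : Subgroup G} (u : (MonoidAlgebra ℤ G)ˣ) (x : IC ℚ m P) :
    IC ℚ (m + 2) (GLn (LaurentPolynomial (MonoidAlgebra ℤ G)) 1) :=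
  insL (m + 1) (tL G) (insL m (uL G u) (Finsupp.mapDomain (fun a i => uL G (gU G (a i))) x))

/-- The linear map `A` sends the symbol `[h, c, u]` to the class of `c × [u] × [t]`. -/
def IsA1 {m : ℕ} {G : Type} [Group G] (A : Src1 m G →ₗ[ℚ] KB (m + 1) (MonoidAlgebra ℤ G)) : Prop :=
  ∀ (h : G) (u : (MonoidAlgebra ℤ G)ˣ) (z : ZC ℚ m (Cen h)), Adm1 h u →
    ∃ z' : ZC ℚ (m + 2) (GLn (LaurentPolynomial (MonoidAlgebra ℤ G)) 1),
      ch ℚ (m + 2) _ z' = chU u (ch ℚ m (Cen h) z) ∧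
      A (sym1 h (cl ℚ m _ z) u) = KB.mk (m + 1) (MonoidAlgebra ℤ G) 1 (cl ℚ (m + 2) _ z')

/-! ## The symbols `[φ gen, cl z, φ u]` -/

/-- The data of a symbol: an injective homomorphism `φ : C_N → G`, a unit `u` of `ℤ[C_N]` and a cycle
`z` of the centraliser of `φ gen`. -/
structure Sy1 (m : ℕ) (G : Type) [Group G] : Type where
  N : ℕ
  pos : NeZero N
  φ : Cyc N →* G
  inj : Function.Injective φ
  u : (MonoidAlgebra ℤ (Cyc N))ˣ
  z : ZC ℚ m (Cen (φ (gen N)))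

attribute [instance] Sy1.pos

section Sy1

variable {m : ℕ} {G : Type} [Group G]

/-- The symbol. -/
def Sy1.val (s : Sy1 m G) : Src1 m G := sym1 (s.φ (gen s.N)) (cl ℚ m _ s.z) (uG s.φ s.u)

/-- The homogeneous cycle. -/
def Sy1.w (s : Sy1 m G) : (Fin (m + 1) → Cen (s.φ (gen s.N))) →₀ ℚ :=
  psi ℚ m _ (ch ℚ m _ s.z)

/-- The chain over `ℤ[G][t,t⁻¹]`. -/
def Sy1.chn (s : Sy1 m G) : SCh (LaurentPolynomial (MonoidAlgebra ℤ G)) (m + 3) :=
  E1 m s.φ s.u s.w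

/-- The value of a family of cocycles, with the `p`-adic logarithm of the unit. -/
def Sy1.ev (s : Sy1 m G) (p : ℕ) [Fact p.Prime] (F : (Fin (m + 1) → G) → G → ℚ) : ℚ_[p] :=
  ∑ c : Cyc s.N, ((evc (fun z : Cen (s.φ (gen s.N)) => (z : G)) F s.w (s.φ c) : ℚ) : ℚ_[p]) *
    plog p s.u c

/-- The element of `Src1 m G` of a formal combination of symbols. -/
def val1 (m : ℕ) (G : Type) [Group G] : (Sy1 m G →₀ ℚ) →ₗ[ℚ] Src1 m G :=
  Finsupp.linearCombination ℚ Sy1.val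

/-- The chain of a formal combination of symbols. -/
def chn1 (m : ℕ) (G : Type) [Group G] :
    (Sy1 m G →₀ ℚ) →ₗ[ℚ] SCh (LaurentPolynomial (MonoidAlgebra ℤ G)) (m + 3) :=
  Finsupp.linearCombination ℚ Sy1.chn

/-- The value of a family of cocycles on a formal combination of symbols. -/
def ev1 (p : ℕ) [Fact p.Prime] (F : (Fin (m + 1) → G) → G → ℚ) : (Sy1 m G →₀ ℚ) →ₗ[ℚ] ℚ_[p] :=
  Finsupp.linearCombination ℚ fun s => s.ev p F

/-- All the functionals vanish on all representations of `y`. -/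
def ZRel (y : Src1 m G) : Prop :=
  ∀ D : Sy1 m G →₀ ℚ, val1 m G D = y → ∀ (N1 : ℕ), 0 < N1 → (∀ s ∈ D.support, s.N ≤ N1) →
    ∀ (p : ℕ) [Fact p.Prime], p ∣ N1 → ∀ F : (Fin (m + 1) → G) → G → ℚ,
    GCoch m (fun y => orderOf y = N1) F → ev1 p F D = 0

/-- The span of the symbols `[h, c, u]` with `h` of order less than `N`. -/
def LowN (m : ℕ) (G : Type) [Group G] (N : ℕ) : Submodule ℚ (Src1 m G) :=
  Submodule.span ℚ {x | ∃ (h : G) (c : HQ m (Cen h)) (u : (MonoidAlgebra ℤ G)ˣ),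
    Adm1 h u ∧ orderOf h < N ∧ x = sym1 h c u}

end Sy1

end Pool.Agent.FJA
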