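import Pool.Agent.AUK.FJA.Core2

/-!
# Statements of the modules, block 2: from simplices over `ℤ[G][t,t⁻¹]` to the relation theorem

Notation: `Z' = Multiplicative ℤ`, `Γ = G × Z'`, `C = Cyc N`, `h = φ (gen N)`.
All groups and fields are in `Type`.
-/

set_option autoImplicit false

open Matrix Pool.Agent.WhK Pool.Agent.Lib25

noncomputable section

namespace Pool.Agent.FJA

/-! ## Module LAU -/

/-- LAU: the ring homomorphisms `lau`, `lauZ`: coefficients; naturality in the group; the image of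
`z ∈ G`; the images of `ℤ[G][t]` and `ℤ[G][t⁻¹]` are supported in nonnegative, nonpositive exponents;
naturality in the field; integrality. -/
def S_LAU : Prop := ∀ (k : Type) [Field k] [CharZero k] (G : Type) [Group G],
    (∀ (x : LaurentPolynomial (MonoidAlgebra k G)) (g : G) (a : Multiplicative ℤ),
      (lau k G x).coeff (g, a) = (x.coeff (Multiplicative.toAdd a)).coeff g) ∧
    (∀ (C : Type) [Group C] (φ : C →* G) (x : LaurentPolynomial (MonoidAlgebra ℤ C)),
      lauZ k G (gmap φ x) = MonoidAlgebra.mapDomainRingHom k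
        (MonoidHom.prodMap φ (MonoidHom.id (Multiplicative ℤ))) (lauZ k C x)) ∧
    (∀ z : G, lauZ k G (elt z) = MonoidAlgebra.single (z, 1) 1) ∧
    (∀ (x : Polynomial (MonoidAlgebra ℤ G)) (g : G) (a : Multiplicative ℤ),
      (lauZ k G (posIncl _ x)).coeff (g, a) ≠ 0 → 0 ≤ Multiplicative.toAdd a) ∧
    (∀ (x : Polynomial (MonoidAlgebra ℤ G)) (g : G) (a : Multiplicative ℤ),
      (lauZ k G (negIncl _ x)).coeff (g, a) ≠ 0 → Multiplicative.toAdd a ≤ 0) ∧
    (∀ (k' : Type) [Field k'] [CharZero k'] (f : k →+* k')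
      (x : LaurentPolynomial (MonoidAlgebra ℤ G)),
      MonoidAlgebra.mapRingHom (G × Multiplicative ℤ) f (lauZ k G x) = lauZ k' G x)

def S_LAUint : Prop := ∀ (q : ℕ) [Fact q.Prime] (G : Type) [Group G]
    (x : LaurentPolynomial (MonoidAlgebra ℤ G)), NI (lauZ ℚ_[q] G x)

/-! ## Module KIL (uses LAU, TXinv, TXblk, TXrix, ONE) -/

/-- KIL: null functionals vanish on the killed chains.
Proof: on generators.  Translations: TXinv (`cvt` is a homomorphism).  Block sums:
`cvt (bsumHom (A, B)) = rix finSumFinEquiv (blk (cvt A) (cvt B))`, TXrix, TXblk.  One sided simplices: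
ONE and LAU; the inverse of `cvt (glm (posIncl) Y)` is `cvt (glm (posIncl) Y⁻¹)`. -/
def S_KIL : Prop := ∀ (k : Type) [Field k] [CharZero k] (G : Type) [Group G] (M N : ℕ)
    (η : Rec (G × Multiplicative ℤ) (Fin M) → ℚ), NullFun (sg2 G) η →
    ∀ x ∈ Kil (MonoidAlgebra ℤ G) M, TS k η N x = 0

/-! ## Module GRP -/

/-- GRP: functoriality in the group.  Proof: `recG f` induces a ring homomorphism of the matrices over
`k[Rec]` which commutes with `jm` and sends `wm` to `wm`, so it sends `UX X` to `UX (glG f ∘ X)`. -/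
def S_GRP : Prop := ∀ (k : Type) [Field k] [CharZero k] (Γ' Γ : Type) [Group Γ'] [Group Γ]
    (f : Γ' →* Γ) (ι : Type) [Fintype ι] [DecidableEq ι] (M N : ℕ) (φ : Rec Γ (Fin M) → ℚ)
    (X : Fin M → (Matrix ι ι (MonoidAlgebra k Γ'))ˣ),
    TX φ N (fun i => glG f (X i)) = TX (fun μ => φ (recG f μ)) N X

/-! ## Module HTP (uses PRI, BD, TXinv, ONE) -/

/-- HTP: the boundary of the conjugation homotopy.  Let `X` be an invertible matrix over `k[C × Z']`,
`ψ : C → P` a homomorphism, `Xp = XG ψ X`, `f z = Xp⁻¹ D(z) Xp` and `f' z = Xp⁻¹ D(z)`,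
`D(z) = dgU k d z`.  Then null functionals satisfy `η (∂ prism f f' w) = - η (f_* w)` for the cycles `w`
of a group `Q` which maps to `P`.

Proof: `f (z z') = f z * f z'` and `f' (z z') = f z * f' z'`.  By PRI,
`∂ (prism f f' w) = f'_* w - f_* w - prism f f' (∂ w)`.
* `η (f'_* w) = 0`: multiply every simplex from the left by `Xp` (TXinv): it becomes the tuple of the
  `D(z_i)`, whose entries and those of the inverses are supported in `P × 1`: ONE.
* `∂ w ∈ hdeg` (as `w ∈ cyc`, degree `m + 1 ≥ 1`), and `prism f f'` sends `g Z - Z` to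
  `f(g) (prism Z) - prism Z` (BD (c) with left translations, or directly), killed by TXinv. -/
def S_HTP : Prop := ∀ (k : Type) [Field k] [CharZero k] (C P Q : Type) [Group C] [Group P] [Group Q]
    (ψ : C →* P) (j : Q →* P) (r : ℕ) (d : Fin r → Bool)
    (X : (Matrix (Fin r) (Fin r) (MonoidAlgebra k (C × Multiplicative ℤ)))ˣ) (m : ℕ)
    (w : (Fin (m + 2) → Q) →₀ ℚ), w ∈ cyc ℚ Q (m + 1) →
    ∀ (η : Rec (P × Multiplicative ℤ) (Fin (m + 2)) → ℚ) (N : ℕ), NullFun (sg2 P) η →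
    TF η N (bd ℚ _ (m + 2) (prism ℚ (fun z : Q => (XG ψ X)⁻¹ * dgU k d (j z) * XG ψ X)
      (fun z : Q => (XG ψ X)⁻¹ * dgU k d (j z)) (m + 2) w)) =
      - TF η N (hmap ℚ (fun z : Q => (XG ψ X)⁻¹ * dgU k d (j z) * XG ψ X) (m + 2) w)

/-! ## Module FVX (uses LAU) -/

/-- FVX: if `X` trivialises `e` then `fV k e φ z = X⁻¹ D(z) X` over `k[G × Z']`, and more precisely over
`k[P × Z']` with `P` the centraliser of `h`, where `C → P` is the corestriction `ψ` of `φ`.

Proof: `e.mat.map (lauZ k C) = X⁻¹ dg X` (`Trv`), so over `k[P × Z']` the matrix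
`X⁻¹ D(z) X = X⁻¹ (z dg + 1 - dg) X = z X⁻¹ dg X + 1 - X⁻¹ dg X` because `z` commutes with the
entries of `X` (`ψ C` is central in `P`); `rhoC e φ z = z e + 1 - e`; LAU (b), (c). -/
def S_FVX : Prop := ∀ (k : Type) [Field k] [CharZero k] (G : Type) [Group G] (N : ℕ)
    (e : IdemMat (LaurentPolynomial (MonoidAlgebra ℤ (Cyc N)))) (φ : Cyc N →* G)
    (d : Fin e.n → Bool)
    (X : (Matrix (Fin e.n) (Fin e.n) (MonoidAlgebra k (Cyc N × Multiplicative ℤ)))ˣ),
    Trv k e d X →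
    (∀ z : Cen (φ (gen N)), fV k e φ z = (XG φ X)⁻¹ * dgU k d (z : G) * XG φ X) ∧
    ∃ ψ : Cyc N →* Cen (φ (gen N)), (∀ c, (ψ c : G) = φ c) ∧ (∀ c z, Commute (ψ c) z) ∧
      (∀ z : Cen (φ (gen N)), fV k e φ z =
        glG (MonoidHom.prodMap (Cen (φ (gen N))).subtype (MonoidHom.id (Multiplicative ℤ)))
          ((XG ψ X)⁻¹ * dgU k d z * XG ψ X)) ∧
      (∀ z : Cen (φ (gen N)), fV k e φ z * (XG φ X)⁻¹ =
        glG (MonoidHom.prodMap (Cen (φ (gen N))).subtype (MonoidHom.id (Multiplicative ℤ)))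
          ((XG ψ X)⁻¹ * dgU k d z))

/-! ## Module TXC -/

/-- TXC: if the letters of `K` commute with the record `j` under `φ`, then the vertex `X j` may be
multiplied from the right by an invertible matrix supported in `K`.

Proof: in `UX` the factor `j` becomes `X_j Y ω_j Y⁻¹ X_j⁻¹`; under `φ` (one-fold trace: the function is
`lin φ (tr (A * j(Y) * ω_j * B))` with arbitrary matrices `A, B` over `k[Rec]`, cyclically: use
`tr (A Y ω B)`, expand bilinearly) `Y ω_j` may be replaced by `ω_j Y`, and `Y Y⁻¹ = 1`. -/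
def S_TXC : Prop := ∀ (k : Type) [Field k] [CharZero k] (Γ : Type) [Group Γ] (ι : Type) [Fintype ι]
    [DecidableEq ι] (M : ℕ) (φ : Rec Γ (Fin M) → ℚ) (j : Fin M) (K : Subgroup Γ),
    (∀ (μ ν : Rec Γ (Fin M)) (γ : Γ), γ ∈ K →
      φ (μ * Rec.inc γ * Rec.om j * ν) = φ (μ * Rec.om j * Rec.inc γ * ν)) →
    ∀ (X : Fin M → (Matrix ι ι (MonoidAlgebra k Γ))ˣ) (Y : (Matrix ι ι (MonoidAlgebra k Γ))ˣ),
    (∀ a b γ, ((Y : Matrix ι ι (MonoidAlgebra k Γ)) a b).coeff γ ≠ 0 → γ ∈ K) →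
    TX φ 1 (Function.update X j (X j * Y)) = TX φ 1 X

/-! ## Module CUP -/

/-- CUP: the coboundary of a cup product, and `cup F` is a family of cocycles.

Proof of (a): let `y.2 = 1`, `α_i = toAdd (a i).2`.  Deleting `i ≤ m` leaves the last two vertices
`m + 1, m + 2`; deleting `m + 1` leaves `m, m + 2`, deleting `m + 2` leaves `m, m + 1`.  The sum is
`(α_(m+2) - α_(m+1)) ∑_(i ≤ m) (-1)^i F(without i) + (-1)^(m+1) F(a_0..a_m) (α_(m+2) - α_m) +
(-1)^(m+2) F(a_0..a_m) (α_(m+1) - α_m)`, the last two terms add up to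
`(-1)^(m+1) F(a_0..a_m) (α_(m+2) - α_(m+1))`. -/
def S_CUP : Prop := ∀ (G : Type) [Group G] (m : ℕ) (F : (Fin (m + 1) → G) → G → ℚ),
    (∀ (a : Fin (m + 3) → G × Multiplicative ℤ) (y : G × Multiplicative ℤ),
      ∑ i : Fin (m + 3), (-1 : ℚ) ^ (i : ℕ) * cup F (fun j => a (i.succAbove j)) y =
        if y.2 = 1 then
          (∑ i : Fin (m + 2), (-1 : ℚ) ^ (i : ℕ) * F (fun j => (a (i.succAbove j).castSucc).1) y.1) *
            ((Multiplicative.toAdd (a (Fin.last (m + 2))).2 -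
              Multiplicative.toAdd (a (Fin.last (m + 1)).castSucc).2 : ℤ) : ℚ)
        else 0) ∧
    (∀ S : G → Prop, (∀ y, S y → IsOfFinOrder y) → GCoch m S F → Coch (sg2 G) (m + 1) (cup F))

/-! ## Module AVC (uses MEX, PRI) -/

/-- AVC: averaging over a central finite subgroup `ψ C` of `P`.

Proof: `avC ψ F a y = mex (F · y) (c)` with `c i = (1/|C|) ∑_(t ∈ C) [ψ(t) a_i]` (augmentation `1`).
The invariance under `P` holds because `ψ C` is central; `avC` is invariant under translations by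
reindexing the sum; cocycle: reindexing (`Fin.insertNth`) or MEX (b), (c).  The difference
`F a y - avC ψ F a y` is the coboundary of
`G0 a y = ∑_(j : Fin (m+1)) (-1)^j mex (F · y) (mix …)` exactly as in the comment to SCH (prism identity
for the two maps `a ↦ [a]` and `a ↦ (1/|C|) ∑ [ψ(t) a]` from `P` to `P →₀ ℚ`).  `G0` is invariant, and
`G0 a y = 0` if `F (·; y) = 0`. -/
def S_AVC : Prop := ∀ (P C : Type) [Group P] [Group C] [Fintype C] (ψ : C →* P),
    (∀ c p, Commute (ψ c) p) → ∀ (m : ℕ) (S : P → Prop) (F : (Fin (m + 2) → P) → P → ℚ),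
    GCoch (m + 1) S F →
    GCoch (m + 1) S (avC ψ F) ∧
    (∀ (t : Fin (m + 2) → C) (a : Fin (m + 2) → P) (y : P),
      avC ψ F (fun i => ψ (t i) * a i) y = avC ψ F a y) ∧
    ∃ G0 : (Fin (m + 1) → P) → P → ℚ,
      (∀ (γ : P) (a : Fin (m + 1) → P) (y : P), G0 (fun i => γ * a i) (γ * y * γ⁻¹) = G0 a y) ∧
      (∀ (a : Fin (m + 1) → P) (y : P), G0 a y ≠ 0 → S y) ∧
      ∀ (a : Fin (m + 2) → P) (y : P), F a y - avC ψ F a y =
        ∑ i : Fin (m + 2), (-1 : ℚ) ^ (i : ℕ) * G0 (fun j => a (i.succAbove j)) y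

/-! ## Module EVA (uses TXinv, TXC, TXlen) -/

/-- EVA: evaluation of the conjugation homotopy on a simplex `Z`, for a family `F` which is invariant
under the translations by the central subgroup `ψ C` in every variable separately.

Proof.  Write `X` for `XG ψ X`, `D_i = dgU k d (Z i)`, `ω_i = wm`, `φ = fst (cup F)`.  The simplices of
the prism are `V_0, …, V_i, V_i X⁻¹, …, V_m X⁻¹` (`m + 2` vertices) with `V_l = X⁻¹ D_l X`, with sign
`(-1)^i`.  Multiply from the left by `X` (TXinv; `φ` is invariant under conjugation):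
`D_0 X, …, D_i X, D_i, …, D_m`.
(1) `i < m`: the last two vertices are `D_(m-1), D_m`, so between the records `m` and `m + 1` only letters
in `P × 1` occur, and the value of `φ` on all paths in the support is `0` (the difference of the
`Z'`-coordinates of the last two positions vanishes).
(2) `i = m`: the vertices are `D_0 X, …, D_m X, D_m`.  Letters of `K = ψ C × Z'` commute with the record
`j` under `φ` for `j < m`: moving `γ = (ψ c, α)` from the left of `om j` to the right changes the position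
`j` from `x γ` to `x`, i.e. by the central factor `ψ c`, and the `Z'`-coordinate of the position `j` does
not enter (`j < m`).  By TXC the vertices `0, …, m - 1` may be replaced by `D_0, …, D_(m-1)`.  Now
`U = (∏_(l<m) D_l ω_l D_l⁻¹) D_m X ω_m X⁻¹ ω_(m+1) D_m⁻¹` (with `X⁻¹ D_m⁻¹ D_m = X⁻¹`).  For the record `m`:
`φ (μ * inc γ * om m * ν) = φ (μ * om m * inc γ * ν) - α φ_0 (μ * inc γ * ν')`, precisely:
`cup F = F (positions 0..m) * (α_(m+1) - α_m)`; moving `γ = (ψ c, α)` across `om m` decreases the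
coordinate `α_m` by `α` and does not change the factor `F`.  So
`φ (tr U) = φ (tr (∏ D_l ω_l D_l⁻¹) D_m ω_m X X⁻¹ ω_(m+1) D_m⁻¹) -
φ_0 (tr ((∏_(l<m) D_l ω_l D_l⁻¹) D_m ω_m (δX) X⁻¹ ω_(m+1) D_m⁻¹))`, `φ_0 μ = F (positions 0..m; μ.val.1)` if
`μ.val.2 = 1`, else `0`; the first term vanishes (`α_(m+1) = α_m`), and
`- (δX) X⁻¹ = X δ(X⁻¹)` (`δ = dZ` is a derivation).  As the `D_l` are diagonal, the trace is the sum over
the index `a`: with `z_l = Z l` if `d a` and `z_l = 1` otherwise the positions are `z_0, …, z_m` and the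
value is the letter of `(X δ(X⁻¹)) a a`, which is the image of an element of `k[C × Z']`; the coefficient
at `(c, 1)` contributes `F (z; ψ c)`.
(For `Z` fixed one may also expand everything over indices and letters from the beginning.) -/
def S_EVA : Prop := ∀ (k : Type) [Field k] [CharZero k] (C P : Type) [Group C] [Group P] [Fintype C]
    (ψ : C →* P), (∀ c p, Commute (ψ c) p) → ∀ (r : ℕ) (d : Fin r → Bool)
    (X : (Matrix (Fin r) (Fin r) (MonoidAlgebra k (C × Multiplicative ℤ)))ˣ) (m : ℕ)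
    (F : (Fin (m + 1) → P) → P → ℚ),
    (∀ (γ : P) (a : Fin (m + 1) → P) (y : P), F (fun i => γ * a i) (γ * y * γ⁻¹) = F a y) →
    (∀ (t : Fin (m + 1) → C) (a : Fin (m + 1) → P) (y : P), F (fun i => ψ (t i) * a i) y = F a y) →
    ∀ Z : Fin (m + 1) → P,
    TF (fst (cup F)) 1 (prism ℚ (fun z : P => (XG ψ X)⁻¹ * dgU k d z * XG ψ X)
      (fun z : P => (XG ψ X)⁻¹ * dgU k d z) (m + 1) (Finsupp.single Z 1)) =
      (-1 : k) ^ m * ∑ a : Fin r, ∑ c : C,
        dlog X a c * ((F (fun i => if d a then Z i else 1) (ψ c) : ℚ) : k)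

/-! ## Module DIF (uses GRP, HTP, FVX, CUP, AVC, EVA, TXlin, TXfac, TXlen) -/

/-- DIF: comparison of two trivialisations of the same idempotent matrix.

Proof.  `P = Cen h`, `ψ` as in FVX, `ι : P × Z' → G × Z'` the inclusion, `F_P a y = F (ι a) (ι y)`, a
`GCoch (m + 1)` on `P`.  By FVX and GRP, `TF (fst (cup F)) 1 (DX e φ X w)` is
`TF (fst (cup F_P)) 1 (D_X)`, `D_X = prism f_X f'_X w`, `f_X z = X⁻¹ D(z) X` over `k[P × Z']`, and
`f_X = f_(X')` (both have the image `z e + 1 - e`; as matrices over `k[P × Z']`, by the computation of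
FVX; note that `glG` of an injective homomorphism is injective).
Let `F' = avC ψ F_P`, `G0` as in AVC.  By CUP (a), for every `a : Fin (m + 3) → P × Z'`,
`cup F_P a y - cup F' a y = ∑_i (-1)^i cup G0 (a ∘ i.succAbove) y`.  So (TXlin, TXfac, TXlen)
`TF (fst (cup F_P)) 1 D_X - TF (fst (cup F')) 1 D_X = TF η 1 (∂ D_X)`, `η = fst (cup G0)`, a null function;
by HTP (with `Q = P`) this is `- TF η 1 (f_* w)`, the same for `X` and `X'`.  So it suffices to compute
with `F'`: EVA (linearity in `w`) gives `(-1)^(m+1) ∑_a ∑_c dlog X a c * (∑_Z w(Z) F' (Z^(d a); ψ c))`.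
For `d a = false` the inner sum is `aug(w) F' (1,…,1; ψ c) = 0`: if the number `m + 2` of the entries is
even then the cocycle identity for the constant tuple with `m + 3` entries says `F' (1,…,1) = 0`
(`∑_(i < m+3) (-1)^i = 1`); if `m + 2` is odd, `aug (∂ w) = aug w` and `aug` vanishes on `hdeg`, so
`aug w = 0`.  For `d a = true` it is `evc F' w (ψ c) = evc F_P w (ψ c)`, because the difference is the
value of the `P`-invariant function `G0 (·; ψ c)` (`ψ c` central) on `∂ w ∈ hdeg`. -/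
def S_DIF : Prop := ∀ (k : Type) [Field k] [CharZero k] (G : Type) [Group G] (N : ℕ) [NeZero N]
    (e : IdemMat (LaurentPolynomial (MonoidAlgebra ℤ (Cyc N)))) (φ : Cyc N →* G)
    (d : Fin e.n → Bool)
    (X X' : (Matrix (Fin e.n) (Fin e.n) (MonoidAlgebra k (Cyc N × Multiplicative ℤ)))ˣ),
    Trv k e d X → Trv k e d X' → ∀ (m : ℕ) (S : G → Prop) (F : (Fin (m + 2) → G) → G → ℚ),
    (∀ y, S y → IsOfFinOrder y) → GCoch (m + 1) S F →
    ∀ w : (Fin (m + 2) → Cen (φ (gen N))) →₀ ℚ, w ∈ cyc ℚ (Cen (φ (gen N))) (m + 1) →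
    TF (fst (cup F)) 1 (DX e φ X w) - TF (fst (cup F)) 1 (DX e φ X' w) =
      (-1 : k) ^ (m + 1) * ∑ c : Cyc N,
        (∑ a ∈ Finset.univ.filter (fun a => d a = true), (dlog X a c - dlog X' a c)) *
          ((evc (fun z : Cen (φ (gen N)) => (z : G)) F w (φ c) : ℚ) : k)

/-! ## Module INT -/

/-- INT: almost all primes do not divide the denominators of a matrix over `ℚ[M]`; and for `a` prime
to `n` there are arbitrarily large primes congruent to `a` modulo `n` (Dirichlet's theorem is in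
Mathlib, `Nat.infinite_setOf_prime_and_eq_mod` or similar). -/
def S_INT : Prop :=
    (∀ (M : Type) [Monoid M] (ι ι' : Type) [Fintype ι] [Fintype ι'] (A : Matrix ι ι' (MonoidAlgebra ℚ M)),
      ∃ B : ℕ, ∀ (ℓ : ℕ) [Fact ℓ.Prime], B < ℓ →
        NIM (A.map (MonoidAlgebra.mapRingHom M (algebraMap ℚ ℚ_[ℓ])))) ∧
    (∀ (n a B : ℕ), 0 < n → a.Coprime n → ∃ ℓ : ℕ, ℓ.Prime ∧ B < ℓ ∧ ℓ % n = a % n)

/-! ## Module REL (uses LAU, LAUint, KIL, HTP, FVX, CUP, DIF, INT, TXmap, TXlin, TXfac, TXlen, PAD) -/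

/-- REL: the relation theorem.

Proof.  Put `Γ = G × Z'`, `σ = sg2 G`, `F̂ = cup F`, a `Coch σ (n + 2)` (CUP).  Write the hypothesis as
`∑ q_j (rhoC)_* w_j = ∂ b + κ`, `κ ∈ Kil`, and let `X_j` (over `ℚ`), `Y_j^p` (over `ℚ_p`) be the
trivialisations of `LocE (e j) (v j)`.  For a field `k` (`ℚ` or `ℚ_p`) and trivialisations `T_j` over `k`
let `B(T) = b_k + ∑ q_j DX (e j) (φ j) T_j (w j)`, a formal combination of `(n + 3)`-tuples over `k[Γ]`
(as a family indexed by a finite set).  For null `η` and all `N`: `η (∂ B(T)) = TS η (∂ b) +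
∑ q_j TF η (∂ DX ..) = TS η (∑ q_j rhoC_* w_j) - ∑ q_j TF η (fV_* w_j) = 0` (KIL; HTP with FVX (a);
`TS η N (kinS r (hmap rhoC w)) = TF η N (hmap fV w)` by definition).
Define `Q F = (-1)^(n+1) * (value of fst F̂ on B(X))`, a rational number, linear in `F`.
* Let `p ∣ n0` be a prime.  PAD over `ℚ_p` for `B(Y^p)` (integral: LAUint, `NIU Y_j^p`, products of
  integral matrices, also after `glG`): the value of `fst F̂` on `B(Y^p)` equals the value of
  `fst (powF (p^e) F̂)` for every `e`.  If `p^e > bG` (`bG` a torsion bound of `G`, hence of `Γ`, as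
  `Z'` has no torsion) then `powF (p^e) F̂ = 0`: `F̂ a (y^(p^e)) ≠ 0` implies that `y^(p^e)` has order
  `n0`, divisible by `p`, so `p^e` divides the order of `y` (which is finite), a contradiction.  So the
  value is `0`, and `Q F = (-1)^(n+1) (value on B(X) - value on B(Y^p))` in `ℚ_p` (TXmap for `ℚ → ℚ_p`)
  `= (-1)^(n+1) ∑ q_j (TF .. (DX X_j) - TF .. (DX Y_j)) = ∑ q_j ∑_c v_j p c * evc F w_j (φ_j c)` (DIF).
* Let `a` be prime to `n0`.  Choose a prime `ℓ` with `ℓ ≡ a mod n0`, `ℓ > bG` and `ℓ` so large that all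
  `X_j` and `X_j⁻¹` are `ℓ`-integral (INT).  PAD over `ℚ_ℓ` for `B(X)` with `e = 1`: the value of
  `fst F̂` equals the value of `fst (powF ℓ F̂)`, and `powF ℓ F̂ = cup (twF n0 a F)`: if
  `F̂ x (y^ℓ) ≠ 0` then `y` has finite order prime to `ℓ`, so `y` has order `n0` (first coordinate),
  `y^ℓ = y^a`; conversely clear; note also that `y.2^ℓ = 1` iff `y.2 = 1`. -/
def S_REL : Prop := ∀ (G : Type) [Group G] (bG : ℕ), TorBd G bG → ∀ (n n0 : ℕ), 0 < n0 →
    ∀ (J : Type) (s : Finset J) (q : J → ℚ) (N : J → ℕ) [∀ j, NeZero (N j)]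
      (φ : ∀ j, Cyc (N j) →* G)
      (e : ∀ j, IdemMat (LaurentPolynomial (MonoidAlgebra ℤ (Cyc (N j)))))
      (v : ∀ (j : J) (p : ℕ) [Fact p.Prime], Cyc (N j) → ℚ_[p])
      (w : ∀ j, (Fin (n + 2) → Cen (φ j (gen (N j)))) →₀ ℚ),
    (∀ j, LocE (e j) (fun p _ => v j p)) →
    (∀ j, w j ∈ cyc ℚ (Cen (φ j (gen (N j)))) (n + 1)) →
    ∑ j ∈ s, q j • kinS (LaurentPolynomial (MonoidAlgebra ℤ G)) (n + 2) (e j).n
      (hmap ℚ (fun z => rhoC (e j) (φ j) z) (n + 2) (w j)) ∈
      LinearMap.range (bdS (LaurentPolynomial (MonoidAlgebra ℤ G)) (n + 2)) ⊔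
        Kil (MonoidAlgebra ℤ G) (n + 2) →
    ∃ Q : ((Fin (n + 2) → G) → G → ℚ) → ℚ,
      (∀ F F' : (Fin (n + 2) → G) → G → ℚ, Q (fun a y => F a y + F' a y) = Q F + Q F') ∧
      (∀ (c : ℚ) (F : (Fin (n + 2) → G) → G → ℚ), Q (fun a y => c * F a y) = c * Q F) ∧
      ∀ F : (Fin (n + 2) → G) → G → ℚ, GCoch (n + 1) (fun y => orderOf y = n0) F →
        (∀ (p : ℕ) [Fact p.Prime], p ∣ n0 →
          ∑ j ∈ s, (q j : ℚ_[p]) * ∑ c : Cyc (N j), v j p c *
            ((evc (fun z : Cen (φ j (gen (N j))) => (z : G)) F (w j) (φ j c) : ℚ) : ℚ_[p]) =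
          ((Q F : ℚ) : ℚ_[p])) ∧
        (∀ a : ℕ, a.Coprime n0 → Q (twF n0 a F) = Q F)

end Pool.Agent.FJA
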