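import Pool.Agent.AUK.FJA.Core3
import Pool.Agent.AUK.FJA.StF

/-!
# Statements of the modules, block 4: from the chains to the statement
-/

set_option autoImplicit false

open Matrix Pool.Agent.WhK Pool.Agent.Lib25 CategoryTheory

noncomputable section

namespace Pool.Agent.FJA

/-- The data of a relation from cycles of Mathlib's complexes. -/
def mkDat {G : Type} [Group G] {n : ℕ} (J : Type) (s : Finset J) (q : J → ℚ) (N p : J → ℕ)
    (φ : ∀ j, Cyc (N j) →* G) (hN : ∀ j, 0 < N j) (hp : ∀ j, (p j).Prime) (hd : ∀ j, p j ∣ N j)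
    (hφ : ∀ j, Function.Injective (φ j))
    (z : ∀ j, ZC ℚ (n + 1) (Cen (φ j (gen (N j))))) : Dat G n where
  J := J
  s := s
  q := q
  p := p
  N := N
  pos := fun j => ⟨(hN j).ne'⟩
  prime := fun j => ⟨hp j⟩
  dvd := hd
  φ := φ
  inj := hφ
  w := fun j => psi ℚ (n + 1) (Cen (φ j (gen (N j)))) (ch ℚ (n + 1) (Cen (φ j (gen (N j)))) (z j))
  mem := fun j => psi_ch_mem n (z j)

/-- BRG: a relation in `KB n ℤ[G]` gives a relation between chains.

Proof: apply the linear map `bridge` (Bridge.lean): by `bridge_mk` (for `ρ = gl1 mon`, `r = 1`, and for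
`ρ = rhoC ..`) the image of the left side is the class of the chain modulo
`BK R (n + 2) = range bdS ⊔ Kil`, `R = ℤ[G]`; `(BK ..).mkQ x = 0` iff `x ∈ BK ..`. -/
def S_BRG : Prop :=
    ∀ (ε0 : ∀ N : ℕ, ℕ → IdemMat (LaurentPolynomial (MonoidAlgebra ℤ (Cyc N)))) (G : Type) [Group G]
      (n : ℕ) (J : Type) (s : Finset J) (q : J → ℚ) (N p : J → ℕ) (φ : ∀ j, Cyc (N j) →* G)
      (hN : ∀ j, 0 < N j) (hp : ∀ j, (p j).Prime) (hd : ∀ j, p j ∣ N j)
      (hφ : ∀ j, Function.Injective (φ j)) (z : ∀ j, ZC ℚ (n + 1) (Cen (φ j (gen (N j)))))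
      (x : ZC ℚ (n + 1) (G × Multiplicative ℤ)),
    tau n G (cl ℚ (n + 1) _ x) + ∑ j ∈ s, q j • KB.mk n (MonoidAlgebra ℤ G) (ε0 (N j) (p j)).n
      (HQ.map (n + 1) (rhoC (ε0 (N j) (p j)) (φ j)) (cl ℚ (n + 1) _ (z j))) = 0 →
    kinS (LaurentPolynomial (MonoidAlgebra ℤ G)) (n + 2) 1
        (hmap ℚ (gl1 mon) (n + 2) (psi ℚ (n + 1) _ (ch ℚ (n + 1) _ x))) +
      (mkDat J s q N p φ hN hp hd hφ z).ch (fun j => ε0 (N j) (p j)) ∈
      LinearMap.range (bdS (LaurentPolynomial (MonoidAlgebra ℤ G)) (n + 2)) ⊔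
        Kil (MonoidAlgebra ℤ G) (n + 2)

/-- T0M (uses BRG, KCB, KIL, HTP, FVX, LAU, TXfac, TXlen, TXlin): the part with coefficients `K_0`.

Proof.  `Γ = G × Z'`, `w = psi (ch x)`, `η = fst (fun a y => if y = 1 then F a else 0)`, a function on
`Rec Γ (Fin (n + 2))`.
(i) `η` is a null function: conjugation: `γ y = 1` iff `y γ = 1`, `F` is left invariant; `η μ ≠ 0` implies
`μ.val = 1`; on flat paths the heads of the lists have the same second coordinate, so `F` vanishes.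
(ii) `TF η 1 (bd c) = 0` for all `c`, and `TS ℚ η 1 (bdS b) = 0`: for a simplex `X` of `n + 3` vertices
`∑ (-1)^i TX η 1 (X ∘ i.succAbove) = ∑ (-1)^i TX (η ∘ res i.succAbove) 1 X` (TXfac) `= TX (∑ ..) 1 X`
(TXlin, or linearity of `lin`), and `∑ (-1)^i η (res i.succAbove μ) = 0` for the paths with all lists of
length one, by the cocycle identity (if `μ.val = 1`; otherwise all terms vanish): TXlen.
(iii) `TS ℚ η 1 (kinS 1 (hmap (gl1 mon) w)) = pair F w`: on a basis element `Z` the matrices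
`cvt ℚ 1 (gl1 mon (Z i))` are the `1 × 1` matrices with entry `single (Z i) 1` (LAU (a)), `UX` is the
`1 × 1` matrix with entry the recorded path with lists `[Z i]` and value `1`, `η` of it is `F Z`.
(See `HTP.TX_dgU`, `HTP.TF_hmap` in P_HTP.lean.)
(iv) `TF η 1 (hmap fV w_j) = 0` for the `w_j` of the data: for a trivialisation `X` over `ℚ` of `ε N p`
(`NodeD.loc`, `LocE`) FVX (a) says `fV z = (XG φ X)⁻¹ * dgU z * XG φ X`, and HTP (`m = n`, `P = G`,
`Q = Cen h_j`) says `TF η 1 (bd (prism ..)) = - TF η 1 (hmap fV w_j)`; the left side is `0` by (ii).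
(v) With `c j = cl (z j)` (`exists_cl`) the hypothesis and BRG give `kinS 1 (..) + D.ch = bdS b + κ`; apply
`TS ℚ η 1`: (iii), (iv) with KCB (e), (ii), and KIL give `pair F w + 0 = 0 + 0`. -/
def S_T0M : Prop :=
    ∀ (ε : ∀ N : ℕ, ℕ → IdemMat (LaurentPolynomial (MonoidAlgebra ℤ (Cyc N))))
      (v : ∀ (N : ℕ) (_ : ℕ) (q : ℕ), [Fact q.Prime] → Cyc N → ℚ_[q]) (K : ℕ → ℕ), NodeD ε v K →
    S_T0 ε

/-- RST: restriction of a family of functionals to finitely many classes.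

Proof: let `T` be the set of all powers of the elements of `T0` (finite), and
`Lam p h = L p h` if `h` is conjugate to an element of `T`, `0` otherwise.  The condition is invariant
under conjugation, and it holds for `h` iff it holds for a generator `h'` of `⟨h⟩` (`h = x t x⁻¹`,
`h' = h^k = x t^k x⁻¹`), in particular for `h ^ a` with `a` prime to the order of `h`.  So in every
relation of `FamL` either all the terms are those of `AdmL` or all of them vanish.  (`HQ` is `Hk ℚ` and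
`HQ.map` is `Hk.map ℚ` by definition.) -/
def S_RST : Prop := ∀ (G : Type) [Group G] (n : ℕ)
    (L : ∀ (_ : ℕ) (h : G), HQ (n + 1) (Cen h) →ₗ[ℚ] ℚ), AdmL n G L →
    ∀ T0 : Finset G, (∀ t ∈ T0, IsOfFinOrder t) →
    ∃ (T : Finset G) (Lam : ∀ (_ : ℕ) (h : G), Hk ℚ (n + 1) (Cen h) →ₗ[ℚ] ℚ),
      T0 ⊆ T ∧ FamL n T Lam ∧ (∀ p : ℕ, ∀ t ∈ T, DenL n (Lam p t)) ∧
      ∀ p : ℕ, ∀ t ∈ T0, Lam p t = L p t

/-- ADP (uses FINC, FCH, RST, BRG): the core theorem in the form of `StF.lean`.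

Proof: choose `z j` with `cl (z j) = c j` (`exists_cl`); BRG with `x = 0` (`tau (cl 0) = 0`,
`psi (ch 0) = 0`) gives `D.ch ∈ range ⊔ Kil` for `D = mkDat ..`.  RST with `T0` the image of `s` under
`j ↦ h_j = φ j (gen (N j))` (of finite order because `Cyc (N j)` is finite), FCH for `Lam`, FINC for the
family `L'` of FCH: `0 = ∑ q_j evc .. (L' (p j)) (psi (ch (z j))) h_j = ∑ q_j Lam (p j) h_j (cl (z j)) =
∑ q_j L (p j) h_j (c j)`. -/
def S_ADP : Prop :=
    ∀ (ε : ∀ N : ℕ, ℕ → IdemMat (LaurentPolynomial (MonoidAlgebra ℤ (Cyc N))))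
      (v : ∀ (N : ℕ) (_ : ℕ) (q : ℕ), [Fact q.Prime] → Cyc N → ℚ_[q]) (K : ℕ → ℕ), NodeD ε v K →
    S_FIN ε

end Pool.Agent.FJA
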