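import Pool.Agent.AUK.FJA.St1

/-!
# TXD: supports of the powers of `UX X`
-/

set_option autoImplicit false

open Matrix

namespace Pool.Agent.FJA

universe u w x

namespace TXD

/-! ### supports -/

section Sp

variable {k : Type w} [Field k] {M : Type u} [Monoid M] {ι : Type x} [Fintype ι] [DecidableEq ι]

/-- The coefficients are supported in `T`. -/
def Sp (T : Set M) (x : MonoidAlgebra k M) : Prop := ∀ μ, x.coeff μ ≠ 0 → μ ∈ T

theorem sp_zero (T : Set M) : Sp T (0 : MonoidAlgebra k M) := fun μ h => absurd (by simp) h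

theorem sp_add {T : Set M} {x y : MonoidAlgebra k M} (hx : Sp T x) (hy : Sp T y) :
    Sp T (x + y) := by
  intro μ h
  by_contra hn
  have h1 : x.coeff μ = 0 := by
    by_contra h1
    exact hn (hx μ h1)
  have h2 : y.coeff μ = 0 := by
    by_contra h2
    exact hn (hy μ h2)
  exact h (by rw [MonoidAlgebra.coeff_add, Finsupp.add_apply, h1, h2, add_zero])

theorem sp_sum {J : Type*} {T : Set M} (s : Finset J) (f : J → MonoidAlgebra k M)
    (h : ∀ i ∈ s, Sp T (f i)) : Sp T (∑ i ∈ s, f i) :=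
  Finset.sum_induction _ _ (fun _ _ => sp_add) (sp_zero T) h

theorem sp_mul {T₁ T₂ T₃ : Set M} (h : ∀ μ ∈ T₁, ∀ ν ∈ T₂, μ * ν ∈ T₃) {x y : MonoidAlgebra k M}
    (hx : Sp T₁ x) (hy : Sp T₂ y) : Sp T₃ (x * y) := by
  classical
  intro μ hμ
  have h1 := MonoidAlgebra.support_coeff_mul_subset x y (Finsupp.mem_support_iff.2 hμ)
  obtain ⟨a, ha, b, hb, rfl⟩ := Finset.mem_mul.1 h1
  exact h a (hx a (Finsupp.mem_support_iff.1 ha)) b (hy b (Finsupp.mem_support_iff.1 hb))

theorem sp_single {T : Set M} {μ : M} (h : μ ∈ T) (c : k) :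
    Sp T (MonoidAlgebra.single μ c) := by
  classical
  intro ν hν
  rw [MonoidAlgebra.coeff_single, Finsupp.single_apply] at hν
  by_cases h1 : μ = ν
  · rw [← h1]
    exact h
  · exact absurd (if_neg h1) hν

/-- The coefficients of the entries are supported in `T`. -/
def SpM (T : Set M) (A : Matrix ι ι (MonoidAlgebra k M)) : Prop := ∀ a b, Sp T (A a b)

theorem spM_mul {T₁ T₂ T₃ : Set M} (h : ∀ μ ∈ T₁, ∀ ν ∈ T₂, μ * ν ∈ T₃)
    {A B : Matrix ι ι (MonoidAlgebra k M)} (hA : SpM T₁ A) (hB : SpM T₂ B) : SpM T₃ (A * B) := by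
  intro a b
  rw [Matrix.mul_apply]
  exact sp_sum _ _ fun c _ => sp_mul h (hA a c) (hB c b)

theorem spM_diag {T : Set M} {μ : M} (h : μ ∈ T) :
    SpM T (Matrix.diagonal fun _ : ι => MonoidAlgebra.single μ (1 : k)) := by
  intro a b
  rw [Matrix.diagonal_apply]
  split_ifs
  · exact sp_single h 1
  · exact sp_zero T

theorem spM_one {T : Set M} (h : (1 : M) ∈ T) : SpM T (1 : Matrix ι ι (MonoidAlgebra k M)) := by
  have := spM_diag (k := k) (ι := ι) h
  exact this

theorem sp_trace {T : Set M} {A : Matrix ι ι (MonoidAlgebra k M)} (hA : SpM T A) :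
    Sp T (Matrix.trace A) := sp_sum _ _ fun a _ => hA a a

/-- A filtration by subsets. -/
structure Fam {I : Type*} [AddCommMonoid I] (T : I → Set M) : Prop where
  one : 1 ∈ T 0
  mul : ∀ a b μ ν, μ ∈ T a → ν ∈ T b → μ * ν ∈ T (a + b)

variable {I : Type*} [AddCommMonoid I] {T : I → Set M}

theorem Fam.mulM (hT : Fam T) {a b : I} {A B : Matrix ι ι (MonoidAlgebra k M)}
    (hA : SpM (T a) A) (hB : SpM (T b) B) : SpM (T (a + b)) (A * B) :=
  spM_mul (fun μ hμ ν hν => hT.mul a b μ ν hμ hν) hA hB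

theorem Fam.pow (hT : Fam T) {a : I} {A : Matrix ι ι (MonoidAlgebra k M)}
    (hA : SpM (T a) A) (N : ℕ) : SpM (T (N • a)) (A ^ N) := by
  induction N with
  | zero =>
    rw [pow_zero, zero_smul]
    exact spM_one hT.one
  | succ N ih =>
    rw [pow_succ, succ_nsmul]
    exact hT.mulM ih hA

theorem Fam.prod (hT : Fam T) {m : ℕ} (F : Fin m → Matrix ι ι (MonoidAlgebra k M)) (f : Fin m → I)
    (h : ∀ i, SpM (T (f i)) (F i)) : SpM (T (∑ i, f i)) (List.ofFn F).prod := by
  induction m with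
  | zero =>
    rw [List.ofFn_zero, List.prod_nil, Finset.univ_eq_empty, Finset.sum_empty]
    exact spM_one hT.one
  | succ m ih =>
    rw [List.ofFn_succ, List.prod_cons, Fin.sum_univ_succ]
    exact hT.mulM (h 0) (ih _ _ fun i => h i.succ)

theorem lin_congr {T : Set M} {φ φ' : M → ℚ} {x : MonoidAlgebra k M} (hx : Sp T x)
    (h : ∀ μ ∈ T, φ μ = φ' μ) : lin k φ x = lin k φ' x := by
  rw [lin_apply, lin_apply]
  refine Finset.sum_congr rfl fun μ hμ => ?_
  beta_reduce
  rw [h μ (hx μ (Finsupp.mem_support_iff.1 hμ))]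

theorem lin_zero {T : Set M} {φ : M → ℚ} {x : MonoidAlgebra k M} (hx : Sp T x)
    (h : ∀ μ ∈ T, φ μ = 0) : lin k φ x = 0 := by
  rw [lin_apply]
  refine Finset.sum_eq_zero fun μ hμ => ?_
  beta_reduce
  rw [h μ (hx μ (Finsupp.mem_support_iff.1 hμ)), Rat.cast_zero, mul_zero]

end Sp

/-! ### recorded paths -/

section Paths

variable {k : Type w} [Field k] {Γ : Type u} [Group Γ] {ι : Type x} [Fintype ι] [DecidableEq ι]

theorem spM_jm {V : Type*} {T : Set (Rec Γ V)} {A : Matrix ι ι (MonoidAlgebra k Γ)}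
    (h : ∀ a b γ, (A a b).coeff γ ≠ 0 → Rec.inc γ ∈ T) : SpM T (jm k V A) := by
  classical
  intro a b μ hμ
  have h1 : (jm k V A a b) = MonoidAlgebra.mapDomain (Rec.inc (Γ := Γ) (V := V)) (A a b) := rfl
  rw [h1] at hμ
  have h2 : μ ∈ (Finsupp.mapDomain (Rec.inc (Γ := Γ) (V := V)) (A a b).coeff).support :=
    Finsupp.mem_support_iff.2 hμ
  have h3 := Finsupp.mapDomain_support h2
  obtain ⟨γ, hγ, rfl⟩ := Finset.mem_image.1 h3
  exact h a b γ (Finsupp.mem_support_iff.1 hγ)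

theorem fam_UX {m : ℕ} {I : Type*} [AddCommMonoid I] {T : I → Set (Rec Γ (Fin m))} (hT : Fam T)
    (X : Fin m → (Matrix ι ι (MonoidAlgebra k Γ))ˣ) (f : Fin m → I)
    (h0 : ∀ i, Rec.om i ∈ T (f i))
    (h1 : ∀ i a b γ, ((X i : Matrix ι ι (MonoidAlgebra k Γ)) a b).coeff γ ≠ 0 → Rec.inc γ ∈ T 0)
    (h2 : ∀ i a b γ, (((X i)⁻¹ : (Matrix ι ι (MonoidAlgebra k Γ))ˣ).val a b).coeff γ ≠ 0 →
      Rec.inc γ ∈ T 0) : SpM (T (∑ i, f i)) (UX X) := by
  have h := hT.prod (fun i => jm k (Fin m) (X i : Matrix ι ι (MonoidAlgebra k Γ)) * wm k ι i *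
    jm k (Fin m) ((X i)⁻¹ : (Matrix ι ι (MonoidAlgebra k Γ))ˣ)) (fun i => 0 + f i + 0) fun i =>
      hT.mulM (hT.mulM (spM_jm (h1 i)) (spM_diag (h0 i))) (spM_jm (h2 i))
  have e : ∑ i, (0 + f i + 0) = ∑ i, f i :=
    Finset.sum_congr rfl fun i _ => by rw [zero_add, add_zero]
  rw [e] at h
  exact h

/-- Paths with given lengths of the lists. -/
def Ln {V : Type*} (f : V → ℕ) : Set (Rec Γ V) := {μ | ∀ i, (μ.lst i).length = f i}

theorem fam_Ln {V : Type*} : Fam (Ln : (V → ℕ) → Set (Rec Γ V)) where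
  one := fun i => rfl
  mul := by
    intro a b μ ν hμ hν i
    rw [Rec.mul_lst, List.length_append, List.length_map, hμ i, hν i]
    rfl

theorem spM_UX {m : ℕ} (X : Fin m → (Matrix ι ι (MonoidAlgebra k Γ))ˣ) :
    SpM (Ln (fun _ => 1)) (UX X) := by
  have h := fam_UX (fam_Ln (Γ := Γ)) X (fun i => Pi.single i 1) ?_ ?_ ?_
  · have e : ∑ i : Fin m, (Pi.single i 1 : Fin m → ℕ) = fun _ => 1 := by
      funext j
      rw [Finset.sum_apply]
      simp [Pi.single_apply]
    rw [e] at h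
    exact h
  · intro i j
    rw [Rec.om_lst, Pi.single_apply]
    split_ifs <;> rfl
  · intro i a b γ _ j
    rfl
  · intro i a b γ _ j
    rfl

/-! ### the first visit -/

/-- Forget the records, as an endomorphism of the algebra of recorded paths. -/
noncomputable def fg (k : Type w) [Field k] (Γ : Type u) [Group Γ] (V : Type*) :
    MonoidAlgebra k (Rec Γ V) →+* MonoidAlgebra k (Rec Γ V) :=
  MonoidAlgebra.mapDomainRingHom k ((Rec.inc (Γ := Γ) (V := V)).comp Rec.valHom)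

theorem fg_single {V : Type*} (μ : Rec Γ V) (c : k) :
    fg k Γ V (MonoidAlgebra.single μ c) = MonoidAlgebra.single (Rec.inc μ.val) c := by
  unfold fg
  rw [MonoidAlgebra.mapDomainRingHom_apply, MonoidAlgebra.mapDomain_single]
  rfl

theorem fg_inc {V : Type*} (x : MonoidAlgebra k Γ) :
    fg k Γ V (MonoidAlgebra.mapDomainRingHom k (Rec.inc (Γ := Γ) (V := V)) x) =
      MonoidAlgebra.mapDomainRingHom k (Rec.inc (Γ := Γ) (V := V)) x := by
  induction x using MonoidAlgebra.induction_linear with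
  | zero => simp only [map_zero]
  | add x y hx hy => simp only [map_add, hx, hy]
  | single γ c =>
    rw [MonoidAlgebra.mapDomainRingHom_apply, MonoidAlgebra.mapDomain_single, fg_single]
    rfl

theorem fg_jm {V : Type*} (A : Matrix ι ι (MonoidAlgebra k Γ)) :
    (fg k Γ V).mapMatrix (jm k V A) = jm k V A := by
  ext1 a b
  exact fg_inc _

theorem fg_wm {V : Type*} [DecidableEq V] (v : V) :
    (fg k Γ V).mapMatrix (wm k ι v) = 1 := by
  unfold wm
  rw [RingHom.mapMatrix_apply, Matrix.diagonal_map (map_zero _)]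
  have e : (fun _ : ι => fg k Γ V (MonoidAlgebra.single (Rec.om v) 1)) = fun _ => 1 := by
    funext _
    rw [fg_single]
    rfl
  rw [e, Matrix.diagonal_one]

theorem fg_UX {m : ℕ} (X : Fin m → (Matrix ι ι (MonoidAlgebra k Γ))ˣ) :
    (fg k Γ (Fin m)).mapMatrix (UX X) = 1 := by
  unfold UX
  rw [map_list_prod, List.map_ofFn]
  refine List.prod_eq_one fun A hA => ?_
  rw [List.mem_ofFn'] at hA
  obtain ⟨i, rfl⟩ := hA
  simp only [Function.comp_apply]
  rw [map_mul, map_mul, fg_jm, fg_jm, fg_wm, mul_one, ← map_mul, Units.mul_inv, map_one]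

theorem lin_mul_single {V : Type*} (φ : Rec Γ V → ℚ) (u : MonoidAlgebra k (Rec Γ V)) (ν : Rec Γ V)
    (d : k) : lin k φ (u * MonoidAlgebra.single ν d) =
      u.coeff.sum fun μ c => c * d * ((φ (μ * ν) : ℚ) : k) := by
  induction u using MonoidAlgebra.induction_linear with
  | zero => simp
  | add x y hx hy =>
    rw [add_mul, map_add, hx, hy, MonoidAlgebra.coeff_add, Finsupp.sum_add_index']
    · intro a
      ring
    · intro a b c
      ring
  | single μ c =>
    rw [MonoidAlgebra.single_mul_single, lin_single, MonoidAlgebra.coeff_single,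
      Finsupp.sum_single_index]
    ring

theorem lin_fg {V : Type*} {φ : Rec Γ V → ℚ}
    (hφ : ∀ μ ν : Rec Γ V, (∀ i, μ.lst i ≠ []) → φ (μ * ν) = φ (μ * Rec.inc ν.val))
    {u : MonoidAlgebra k (Rec Γ V)} (hu : Sp {μ | ∀ i, μ.lst i ≠ []} u)
    (z : MonoidAlgebra k (Rec Γ V)) : lin k φ (u * z) = lin k φ (u * fg k Γ V z) := by
  induction z using MonoidAlgebra.induction_linear with
  | zero => simp only [map_zero]
  | add x y hx hy => simp only [map_add, mul_add, hx, hy]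
  | single ν d =>
    rw [fg_single, lin_mul_single, lin_mul_single]
    refine Finset.sum_congr rfl fun μ hμ => ?_
    simp only
    rw [hφ μ ν (hu μ (Finsupp.mem_support_iff.1 hμ))]

theorem lin_trace_fg {V : Type*} {φ : Rec Γ V → ℚ}
    (hφ : ∀ μ ν : Rec Γ V, (∀ i, μ.lst i ≠ []) → φ (μ * ν) = φ (μ * Rec.inc ν.val))
    {U : Matrix ι ι (MonoidAlgebra k (Rec Γ V))} (hU : SpM {μ | ∀ i, μ.lst i ≠ []} U)
    (Z : Matrix ι ι (MonoidAlgebra k (Rec Γ V))) :
    lin k φ (Matrix.trace (U * Z)) = lin k φ (Matrix.trace (U * (fg k Γ V).mapMatrix Z)) := by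
  simp only [Matrix.trace, Matrix.diag_apply, Matrix.mul_apply, map_sum]
  refine Finset.sum_congr rfl fun a _ => Finset.sum_congr rfl fun b _ => ?_
  exact lin_fg hφ (hU a b) (Z b a)

end Paths

end TXD

open TXD

theorem t_TXlen : S_TXlen := by
  intro k _ _ Γ _ ι _ _ M N φ φ' X h
  refine lin_congr (sp_trace (fam_Ln.pow (spM_UX X) N)) fun μ hμ => h μ fun i => ?_
  rw [hμ i]
  simp

theorem t_TXfst : S_TXfst := by
  intro k _ _ Γ _ ι _ _ M N φ X hN hφ
  obtain ⟨n, rfl⟩ : ∃ n, N = n + 1 := ⟨N - 1, by omega⟩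
  have hU : SpM {μ : Rec Γ (Fin M) | ∀ i, μ.lst i ≠ []} (UX X) := by
    intro a b μ hμ i h0
    have := spM_UX X a b μ hμ i
    rw [h0] at this
    exact absurd this (by simp)
  have key : ∀ n : ℕ, TX φ (n + 1) X = lin k φ (Matrix.trace (UX X)) := by
    intro n
    unfold TX
    rw [pow_succ', lin_trace_fg hφ hU, map_pow, fg_UX, one_pow, mul_one]
  rw [key n, ← key 0]

theorem t_TXsup : S_TXsup := by
  intro k _ _ Γ _ ι _ _ M N φ X S h0 h1 h2 hφ
  have hT : Fam (fun _ : Unit => (S : Set (Rec Γ (Fin M)))) :=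
    ⟨S.one_mem, fun _ _ μ ν hμ hν => S.mul_mem hμ hν⟩
  have hU := fam_UX hT X (fun _ => ()) h0 h1 h2
  exact lin_zero (sp_trace (hT.pow (a := ()) hU N)) hφ

end Pool.Agent.FJA
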