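import Pool.Agent.AUK.FJA.St1

/-!
# Module EVS: properties of `evs` and `powF`
-/

set_option autoImplicit false

namespace Pool.Agent.FJA

universe u

namespace EVS

variable {Γ : Type u} [Group Γ]

omit [Group Γ] in
theorem evs_pos {M : ℕ} (F : (Fin M → Γ) → Γ → ℚ) (s : List Γ → Γ → (Γ →₀ ℚ))
    (μ : Rec Γ (Fin M)) (h : ∀ i, μ.lst i ≠ []) :
    evs F s μ = mex (fun a => F a μ.val) (fun i => s (μ.lst i) μ.val) := by
  unfold evs
  exact if_pos h

omit [Group Γ] in
theorem evs_neg {M : ℕ} (F : (Fin M → Γ) → Γ → ℚ) (s : List Γ → Γ → (Γ →₀ ℚ))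
    (μ : Rec Γ (Fin M)) (h : ¬ ∀ i, μ.lst i ≠ []) : evs F s μ = 0 := by
  unfold evs
  exact if_neg h

theorem fst_pos {M : ℕ} (F : (Fin M → Γ) → Γ → ℚ) (μ : Rec Γ (Fin M)) (h : ∀ i, μ.lst i ≠ []) :
    fst F μ = F (fun i => (μ.lst i).headD 1) μ.val := by
  unfold fst
  exact if_pos h

theorem fst_neg {M : ℕ} (F : (Fin M → Γ) → Γ → ℚ) (μ : Rec Γ (Fin M))
    (h : ¬ ∀ i, μ.lst i ≠ []) : fst F μ = 0 := by
  unfold fst
  exact if_neg h

theorem pow_val {V : Type} (μ : Rec Γ V) (e : ℕ) : (μ ^ e).val = μ.val ^ e := by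
  have := map_pow (Rec.valHom (Γ := Γ) (V := V)) μ e
  exact this

theorem powL_zero (Y : List Γ) (y : Γ) : powL 0 Y y = [] := rfl

theorem powL_succ (e : ℕ) (Y : List Γ) (y : Γ) :
    powL (e + 1) Y y = powL e Y y ++ Y.map (y ^ e * ·) := by
  unfold powL
  rw [List.range_succ, List.flatMap_append]
  simp

theorem pow_lst {V : Type} (μ : Rec Γ V) (e : ℕ) (i : V) :
    (μ ^ e).lst i = powL e (μ.lst i) μ.val := by
  induction e with
  | zero => rw [pow_zero, powL_zero]; rfl
  | succ e ih => rw [pow_succ, Rec.mul_lst, ih, powL_succ, pow_val]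

theorem powL_ne (e : ℕ) (he : 0 < e) (Y : List Γ) (y : Γ) : powL e Y y ≠ [] ↔ Y ≠ [] := by
  constructor
  · rintro h rfl
    apply h
    unfold powL
    simp
  · intro h h'
    unfold powL at h'
    rw [List.flatMap_eq_nil_iff] at h'
    have := h' 0 (List.mem_range.2 he)
    rw [List.map_eq_nil_iff] at this
    exact h this

theorem powL_map (e : ℕ) (Y : List Γ) (y γ : Γ) :
    powL e (Y.map (γ * ·)) (γ * y * γ⁻¹) = (powL e Y y).map (γ * ·) := by
  unfold powL
  rw [List.map_flatMap]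
  congr 1
  funext t
  rw [List.map_map, List.map_map]
  congr 1
  funext a
  simp only [Function.comp_apply, conj_pow]
  group

theorem mem_powL (e : ℕ) (Y : List Γ) (y a : Γ) (h : a ∈ powL e Y y) :
    ∃ t : ℕ, ∃ b ∈ Y, a = y ^ t * b := by
  unfold powL at h
  rw [List.mem_flatMap] at h
  obtain ⟨t, _, h2⟩ := h
  rw [List.mem_map] at h2
  obtain ⟨b, hb, rfl⟩ := h2
  exact ⟨t, b, hb, rfl⟩

theorem rot_list {s : List Γ → Γ → (Γ →₀ ℚ)} {y : Γ}
    (hr : ∀ (a : Γ) (Y : List Γ), s (Y ++ [y * a]) y = s (a :: Y) y) (Y Z : List Γ) :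
    s (Y ++ Z) y = s (Z ++ Y.map (y * ·)) y := by
  induction Y generalizing Z with
  | nil => simp
  | cons a Y ih =>
    rw [List.cons_append, ← hr, List.append_assoc, ih]
    simp

theorem cond_iff {M : ℕ} (μ ν : Rec Γ (Fin M)) :
    (∀ i, (μ * ν).lst i ≠ []) ↔ (∀ i, (ν * μ).lst i ≠ []) := by
  apply forall_congr'
  intro i
  simp only [Rec.mul_lst, ne_eq, List.append_eq_nil_iff, List.map_eq_nil_iff]
  tauto

theorem powF_coch {σ : Γ →* Multiplicative ℤ} {M : ℕ} {F : (Fin (M + 1) → Γ) → Γ → ℚ}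
    (hF : Coch σ M F) (e : ℕ) (he : 0 < e) : Coch σ M (powF e F) where
  inv γ a y := by
    change F (fun i => γ * a i) ((γ * y * γ⁻¹) ^ e) = F a (y ^ e)
    rw [conj_pow, hF.inv]
  coc a y := hF.coc a (y ^ e)
  fin a y h := by
    have h1 : IsOfFinOrder (y ^ e) := hF.fin a (y ^ e) h
    rcases isOfFinOrder_pow.1 h1 with h2 | h2
    · exact h2
    · omega
  den := by
    obtain ⟨D, hD, h⟩ := hF.den
    exact ⟨D, hD, fun a y => h a (y ^ e)⟩
  flat a y h := hF.flat a (y ^ e) h

end EVS

open EVS in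
theorem t_EVS (hmex : S_MEX.{u}) : S_EVS.{u} := by
  intro Γ _ σ M F s hF hs
  obtain ⟨_, _, _, hd, he', hf⟩ := hmex Γ (M + 1)
  refine ⟨?_, ?_, ?_, ?_, ?_, ?_, ?_⟩
  · intro hr μ ν
    by_cases hfin : IsOfFinOrder (μ.val * ν.val)
    · have hval : μ.val * (ν.val * μ.val) * μ.val⁻¹ = μ.val * ν.val := by group
      have hfin' : IsOfFinOrder (ν.val * μ.val) := by
        have e1 : ν.val * μ.val = μ.val⁻¹ * (μ.val * ν.val) * (μ.val⁻¹)⁻¹ := by group
        rw [e1]
        exact (MulAut.conj (μ.val⁻¹)).toMonoidHom.isOfFinOrder hfin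
      by_cases hc : ∀ i, (μ * ν).lst i ≠ []
      · have hc' := (cond_iff μ ν).1 hc
        rw [evs_pos F s _ hc, evs_pos F s _ hc']
        simp only [Rec.mul_val, Rec.mul_lst]
        have key : ∀ i, s (μ.lst i ++ (ν.lst i).map (μ.val * ·)) (μ.val * ν.val) =
            (s (ν.lst i ++ (μ.lst i).map (ν.val * ·)) (ν.val * μ.val)).mapDomain
              (μ.val * ·) := by
          intro i
          rw [← hs.inv _ _ _ hfin', hval, List.map_append, List.map_map,
            rot_list (fun a Y => hr a Y _ hfin)]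
          congr 3
          funext a
          simp only [Function.comp_apply]
          group
        simp only [key]
        rw [he' _ _ _ (mul_right_injective μ.val)]
        congr 1
        funext x
        have := hF.inv μ.val x (ν.val * μ.val)
        rw [hval] at this
        exact this
      · have hc' : ¬ ∀ i, (ν * μ).lst i ≠ [] := fun h => hc ((cond_iff μ ν).2 h)
        rw [evs_neg F s _ hc, evs_neg F s _ hc']
    · have hfin' : ¬ IsOfFinOrder (ν.val * μ.val) := by
        intro h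
        apply hfin
        have e1 : μ.val * ν.val = ν.val⁻¹ * (ν.val * μ.val) * (ν.val⁻¹)⁻¹ := by group
        rw [e1]
        exact (MulAut.conj (ν.val⁻¹)).toMonoidHom.isOfFinOrder h
      have hz : ∀ ρ : Rec Γ (Fin (M + 1)), ¬ IsOfFinOrder ρ.val → evs F s ρ = 0 := by
        intro ρ hρ
        by_cases hc : ∀ i, ρ.lst i ≠ []
        · rw [evs_pos F s _ hc]
          apply hf
          intro x _
          by_contra h
          exact hρ (hF.fin _ _ h)
        · exact evs_neg F s _ hc
      rw [hz _ hfin, hz _ hfin']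
  · intro b hb
    obtain ⟨D, hD, hDF⟩ := hF.den
    refine ⟨D * b ^ (M + 1), fun hb0 => ⟨Nat.mul_pos hD (pow_pos hb0 _), fun μ => ?_⟩⟩
    by_cases hc : ∀ i, μ.lst i ≠ []
    · rw [evs_pos F s _ hc]
      exact hd _ _ D b (fun x => hDF x _) (fun i x => hb _ _ _)
    · rw [evs_neg F s _ hc]
      exact ⟨0, by simp⟩
  · intro e he
    exact powF_coch hF e he
  · intro e he μ
    by_cases hc : ∀ i, μ.lst i ≠ []
    · have hc' : ∀ i, (μ ^ e).lst i ≠ [] := by
        intro i
        rw [pow_lst, powL_ne e he]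
        exact hc i
      rw [evs_pos _ _ _ hc', evs_pos _ _ _ hc]
      simp only [pow_lst, pow_val]
      rfl
    · have hc' : ¬ ∀ i, (μ ^ e).lst i ≠ [] := by
        intro h
        apply hc
        intro i
        have := h i
        rwa [pow_lst, powL_ne e he] at this
      rw [evs_neg _ _ _ hc', evs_neg _ _ _ hc]
  · intro e he
    refine ⟨?_, ?_, ?_⟩
    · intro γ Y y hy
      rw [powL_map, conj_pow]
      exact hs.inv γ _ _ hy.pow
    · intro Y y hy hY
      exact hs.aug _ _ hy.pow ((powL_ne e he Y y).2 hY)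
    · intro Y y hy x hx
      obtain ⟨t, a, ha, rfl⟩ := hs.supp _ _ hy.pow x hx
      obtain ⟨t', b, hb, rfl⟩ := mem_powL e Y y a ha
      refine ⟨e * t + t', b, hb, ?_⟩
      rw [zpow_add, zpow_mul, zpow_natCast, zpow_natCast, mul_assoc]
  · intro μ ν hc
    have h1 : ∀ i, (μ * ν).lst i ≠ [] := by
      intro i h
      rw [Rec.mul_lst, List.append_eq_nil_iff] at h
      exact hc i h.1
    have h2 : ∀ i, (μ * Rec.inc ν.val).lst i ≠ [] := by
      intro i h
      rw [Rec.mul_lst, List.append_eq_nil_iff] at h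
      exact hc i h.1
    rw [fst_pos F _ h1, fst_pos F _ h2]
    congr 1
    funext i
    rw [Rec.mul_lst, Rec.mul_lst]
    cases hL : μ.lst i with
    | nil => exact absurd hL (hc i)
    | cons a L => rfl
  · intro γ μ
    by_cases hc : ∀ i, μ.lst i ≠ []
    · have h1 : ∀ i, (Rec.inc γ * μ).lst i ≠ [] := by
        intro i h
        rw [Rec.mul_lst, List.append_eq_nil_iff, List.map_eq_nil_iff] at h
        exact hc i h.2
      have h2 : ∀ i, (μ * Rec.inc γ).lst i ≠ [] := by
        intro i h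
        rw [Rec.mul_lst, List.append_eq_nil_iff] at h
        exact hc i h.1
      rw [fst_pos F _ h1, fst_pos F _ h2]
      have h3 := hF.inv γ (fun i => ((μ * Rec.inc γ).lst i).headD 1) (μ * Rec.inc γ).val
      rw [← h3]
      have e1 : (Rec.inc γ * μ).val = γ * (μ * Rec.inc γ).val * γ⁻¹ := by
        simp only [Rec.mul_val, Rec.inc_val]
        group
      rw [e1]
      congr 1
      funext i
      rw [Rec.mul_lst, Rec.mul_lst]
      cases hL : μ.lst i with
      | nil => exact absurd hL (hc i)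
      | cons a L => rfl
    · have h1 : ¬ ∀ i, (Rec.inc γ * μ).lst i ≠ [] := by
        intro h
        apply hc
        intro i hi
        apply h i
        rw [Rec.mul_lst, hi]
        rfl
      have h2 : ¬ ∀ i, (μ * Rec.inc γ).lst i ≠ [] := by
        intro h
        apply hc
        intro i hi
        apply h i
        rw [Rec.mul_lst, hi]
        rfl
      rw [fst_neg F _ h1, fst_neg F _ h2]

end Pool.Agent.FJA
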