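import Pool.Agent.AUK.FJA.Hom
import Pool.Agent.AUK.FJA.St3

/-!
# Module FCH (helper26): from functionals to families of cocycles
-/

set_option autoImplicit false

open Matrix Pool.Agent.WhK Pool.Agent.Lib25

noncomputable section

namespace Pool.Agent.FJA

namespace FCH

variable {G : Type} [Group G]

theorem hom_comp_id (x : G) {h h' : G} (H : ∀ z ∈ Cen h, x⁻¹ * z * x⁻¹⁻¹ ∈ Cen h')
    (H' : ∀ z ∈ Cen h', x * z * x⁻¹ ∈ Cen h) :
    (cHom x H').comp (cHom x⁻¹ H) = MonoidHom.id (Cen h) := by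
  ext z
  change x * (x⁻¹ * (z : G) * x⁻¹⁻¹) * x⁻¹ = z
  group

theorem evc_zero {P : Type} (j : P → G) {m : ℕ} (F : (Fin m → G) → G → ℚ)
    (w : (Fin m → P) →₀ ℚ) (y : G) (h : ∀ a, F a y = 0) : evc j F w y = 0 := by
  unfold evc
  refine Finset.sum_eq_zero fun z _ => ?_
  simp only [h, mul_zero]

theorem evc_congr {P : Type} (j : P → G) {m : ℕ} (F F' : (Fin m → G) → G → ℚ)
    (w : (Fin m → P) →₀ ℚ) (y : G) (h : ∀ a, F a y = F' a y) : evc j F w y = evc j F' w y := by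
  unfold evc
  refine Finset.sum_congr rfl fun z _ => ?_
  simp only [h]

theorem evc_hmap {P Q : Type} (j : Q → G) (f : P → Q) {m : ℕ} (F : (Fin m → G) → G → ℚ)
    (w : (Fin m → P) →₀ ℚ) (y : G) :
    evc j F (hmap ℚ f m w) y = evc (fun z => j (f z)) F w y := by
  unfold evc hmap
  rw [Finsupp.lmapDomain_apply, Finsupp.sum_mapDomain_index]
  · intro b
    rw [zero_mul]
  · intro b m₁ m₂
    rw [add_mul]

theorem mk_conj (x y : G) : ConjClasses.mk (x * y * x⁻¹) = ConjClasses.mk y :=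
  (ConjClasses.mk_eq_mk_iff_isConj.2 (isConj_iff.2 ⟨x, rfl⟩)).symm

theorem adm_conj (p : ℕ) (x y : G) (h : Adm p y) : Adm p (x * y * x⁻¹) := by
  obtain ⟨h1, h2, h3⟩ := h
  have h4 : orderOf (x * y * x⁻¹) = orderOf y :=
    orderOf_injective (MulAut.conj x).toMonoidHom (MulAut.conj x).injective y
  refine ⟨h1, ?_, ?_⟩
  · rw [← orderOf_pos_iff, h4]
    exact h2.orderOf_pos
  · rw [h4]
    exact h3

theorem adm_conj_iff (p : ℕ) (x y : G) : Adm p (x * y * x⁻¹) ↔ Adm p y := by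
  constructor
  · intro h
    have h1 := adm_conj p x⁻¹ _ h
    have h2 : x⁻¹ * (x * y * x⁻¹) * x⁻¹⁻¹ = y := by group
    rwa [h2] at h1
  · exact adm_conj p x y

end FCH

open FCH

theorem t_FCH (hfca : S_FCA) (hfcw : S_FCW) : S_FCH := by
  classical
  intro G _ n T Lam hL hden
  obtain ⟨hW1, hW2, hW3⟩ := hfcw
  -- the families of FCA
  have hF0 : ∀ (p : ℕ) (t : G), ∃ F : (Fin (n + 2) → G) → G → ℚ, t ∈ T →
      GCoch (n + 1) (fun y => ∃ x : G, y = x * t * x⁻¹) F ∧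
      ∀ (x : G) (H : ∀ z ∈ Cen (x * t * x⁻¹), x⁻¹ * z * x⁻¹⁻¹ ∈ Cen t)
        (z : ZC ℚ (n + 1) (Cen (x * t * x⁻¹))),
        evc (fun z : Cen (x * t * x⁻¹) => (z : G)) F
          (psi ℚ (n + 1) _ (ch ℚ (n + 1) _ z)) (x * t * x⁻¹) =
          Lam p t (Hk.map ℚ (n + 1) (cHom x⁻¹ H) (cl ℚ (n + 1) _ z)) := by
    intro p t
    by_cases ht : t ∈ T
    · obtain ⟨F, hF⟩ := hfca G n t (Lam p t) (hden p t ht)
      exact ⟨F, fun _ => hF⟩
    · exact ⟨fun _ _ => 0, fun h => absurd h ht⟩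
  choose F hF using hF0
  -- representatives
  have hr0 : ∀ c : ConjClasses G, ∃ t : G, (∃ t' ∈ T, ConjClasses.mk t' = c) →
      t ∈ T ∧ ConjClasses.mk t = c := by
    intro c
    by_cases hc : ∃ t' ∈ T, ConjClasses.mk t' = c
    · obtain ⟨t, ht, htc⟩ := hc
      exact ⟨t, fun _ => ⟨ht, htc⟩⟩
    · exact ⟨1, fun h => absurd h hc⟩
  choose r hr using hr0
  -- denominators
  have hD0 : ∀ (p : ℕ) (t : G), ∃ D : ℕ, 0 < D ∧ (t ∈ T → ∀ (a : Fin (n + 2) → G) (y : G),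
      ∃ z : ℤ, (D : ℚ) * F p t a y = z) := by
    intro p t
    by_cases ht : t ∈ T
    · obtain ⟨D, h1, h2⟩ := (hF p t ht).1.den
      exact ⟨D, h1, fun _ => h2⟩
    · exact ⟨1, one_pos, fun h => absurd h ht⟩
  choose D hDpos hD using hD0
  let L : ℕ → (Fin (n + 2) → G) → G → ℚ := fun p a y =>
    if (∃ t ∈ T, ConjClasses.mk t = ConjClasses.mk y) ∧ Adm p y then
      F p (r (ConjClasses.mk y)) a y else 0
  have hLdef : ∀ p a y, L p a y = if (∃ t ∈ T, ConjClasses.mk t = ConjClasses.mk y) ∧ Adm p y then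
      F p (r (ConjClasses.mk y)) a y else 0 := fun p a y => rfl
  have hL0 : ∀ p y, ¬ ((∃ t ∈ T, ConjClasses.mk t = ConjClasses.mk y) ∧ Adm p y) →
      ∀ a, L p a y = 0 := by
    intro p y h a
    rw [hLdef, if_neg h]
  have hL1 : ∀ p y, ((∃ t ∈ T, ConjClasses.mk t = ConjClasses.mk y) ∧ Adm p y) →
      ∀ a, L p a y = F p (r (ConjClasses.mk y)) a y := by
    intro p y h a
    rw [hLdef, if_pos h]
  -- values
  have hval : ∀ (p : ℕ) (h : G), p.Prime → ∀ z : ZC ℚ (n + 1) (Cen h),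
        evc (fun z : Cen h => (z : G)) (L p) (psi ℚ (n + 1) _ (ch ℚ (n + 1) _ z)) h =
          Lam p h (cl ℚ (n + 1) _ z) := by
    intro p h _ z
    by_cases hc : (∃ t ∈ T, ConjClasses.mk t = ConjClasses.mk h) ∧ Adm p h
    · obtain ⟨t, ht, hth, hLF⟩ : ∃ t ∈ T, ConjClasses.mk t = ConjClasses.mk h ∧
          ∀ a, L p a h = F p t a h :=
        ⟨r (ConjClasses.mk h), (hr _ hc.1).1, (hr _ hc.1).2, hL1 p h hc⟩
      rw [evc_congr _ _ _ _ _ hLF]
      clear hLF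
      obtain ⟨x, hx⟩ := isConj_iff.1 (ConjClasses.mk_eq_mk_iff_isConj.1 hth)
      subst hx
      have H : ∀ z ∈ Cen (x * t * x⁻¹), x⁻¹ * z * x⁻¹⁻¹ ∈ Cen t := by
        intro z hz
        have h1 := cHom_conj x⁻¹ (x * t * x⁻¹) z hz
        have h2 : x⁻¹ * (x * t * x⁻¹) * x⁻¹⁻¹ = t := by group
        rwa [h2] at h1
      rw [(hF p t ht).2 x H z, ← hL.conj p t x, ← Hk.map_comp, hom_comp_id, Hk.map_id]
    · rw [evc_zero _ _ _ _ (hL0 p h hc)]
      have h0 : Lam p h = 0 := by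
        by_contra h1
        apply hc
        constructor
        · obtain ⟨t, ht, x, hx⟩ := hL.supp p h h1
          refine ⟨t, ht, ?_⟩
          rw [hx, mk_conj]
        · by_contra h2
          exact h1 (hL.adm p h h2)
      rw [h0]
      rfl
  -- the family of cocycles
  have hgc : ∀ p : ℕ, GCoch (n + 1) (fun y => IsOfFinOrder y ∧ p ∣ orderOf y) (L p) := by
    intro p
    refine ⟨?_, ?_, ?_, ?_⟩
    · intro γ a y
      by_cases hc : (∃ t ∈ T, ConjClasses.mk t = ConjClasses.mk y) ∧ Adm p y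
      · have hc' : (∃ t ∈ T, ConjClasses.mk t = ConjClasses.mk (γ * y * γ⁻¹)) ∧
            Adm p (γ * y * γ⁻¹) := by
          rw [mk_conj, adm_conj_iff]
          exact hc
        rw [hL1 p y hc, hL1 p _ hc', mk_conj]
        exact (hF p _ (hr _ hc.1).1).1.inv γ a y
      · have hc' : ¬ ((∃ t ∈ T, ConjClasses.mk t = ConjClasses.mk (γ * y * γ⁻¹)) ∧
            Adm p (γ * y * γ⁻¹)) := by
          rw [mk_conj, adm_conj_iff]
          exact hc
        rw [hL0 p y hc, hL0 p _ hc']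
    · intro a y
      by_cases hc : (∃ t ∈ T, ConjClasses.mk t = ConjClasses.mk y) ∧ Adm p y
      · have h1 := (hF p _ (hr _ hc.1).1).1.coc a y
        rw [← h1]
        refine Finset.sum_congr rfl fun i _ => ?_
        rw [hL1 p y hc]
      · refine Finset.sum_eq_zero fun i _ => ?_
        rw [hL0 p y hc, mul_zero]
    · intro a y h
      by_cases hc : (∃ t ∈ T, ConjClasses.mk t = ConjClasses.mk y) ∧ Adm p y
      · exact ⟨hc.2.2.1, hc.2.2.2⟩
      · exact absurd (hL0 p y hc a) h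
    · refine ⟨∏ t ∈ T, D p t, Finset.prod_pos fun t _ => hDpos p t, fun a y => ?_⟩
      by_cases hc : (∃ t ∈ T, ConjClasses.mk t = ConjClasses.mk y) ∧ Adm p y
      · rw [hL1 p y hc]
        have ht := (hr _ hc.1).1
        set t := r (ConjClasses.mk y) with htdef
        obtain ⟨z, hz⟩ := hD p t ht a y
        refine ⟨((∏ t' ∈ T.erase t, D p t' : ℕ) : ℤ) * z, ?_⟩
        rw [← Finset.prod_erase_mul T (D p) ht]
        push_cast
        rw [mul_assoc, hz]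
      · exact ⟨0, by rw [hL0 p y hc, mul_zero, Int.cast_zero]⟩
  -- values on all cycles
  have hcyc : ∀ (h : G) (w : HCh ℚ (Cen h) (n + 1)), w ∈ cyc ℚ (Cen h) (n + 1) →
      ∃ z : ZC ℚ (n + 1) (Cen h), ∀ (p : ℕ) (y : G), y ∈ Subgroup.zpowers h →
        evc (fun z : Cen h => (z : G)) (L p) w y =
          evc (fun z : Cen h => (z : G)) (L p) (psi ℚ (n + 1) _ (ch ℚ (n + 1) _ z)) y := by
    intro h w hw
    obtain ⟨z, hz⟩ := hW1 (Cen h) n w hw
    refine ⟨z, fun p y hy => ?_⟩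
    have h1 := hW2 G (n + 1) _ (L p) (hgc p) h y hy _ hz
    rw [hW3, map_sub, sub_eq_zero] at h1
    rw [hW3, hW3, h1]
  have hpow : ∀ (h h' : G) (hh : h' ∈ Subgroup.zpowers h) (z : ZC ℚ (n + 1) (Cen h)) (p : ℕ),
      p.Prime → evc (fun z : Cen h => (z : G)) (L p) (psi ℚ (n + 1) _ (ch ℚ (n + 1) _ z)) h' =
        Lam p h' (Hk.map ℚ (n + 1) (cHom 1 (cHom_pow h hh)) (cl ℚ (n + 1) _ z)) := by
    intro h h' hh z p hp
    obtain ⟨z', h1, h2⟩ := Hk.map_cl (cHom 1 (cHom_pow h hh)) z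
    rw [h1, ← hval p h' hp z', h2, psi_map, evc_hmap]
    congr 1
    funext u
    change (u : G) = 1 * (u : G) * 1⁻¹
    group
  refine ⟨L, ⟨fun p _ => hgc p, ?_, ?_⟩, hval⟩
  · intro p hp h h' j k hfin hdvd hh hh' hjk w hw
    obtain ⟨z, hz⟩ := hcyc h w hw
    rw [hz p h' hh, hz p h (Subgroup.mem_zpowers h), hpow h h' hh z p hp, hval p h hp z]
    exact hL.frob p h h' hh j k _ ⟨hp, hfin, hdvd⟩ hh' hjk
  · intro h hfin w hw
    obtain ⟨z, hz⟩ := hcyc h w hw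
    rw [← hL.sum h (cl ℚ (n + 1) _ z) hfin]
    refine Finset.sum_congr rfl fun p hp => Finset.sum_congr rfl fun a _ => ?_
    rw [hz p (h ^ a) (Subgroup.pow_mem _ (Subgroup.mem_zpowers h) a)]
    exact hpow h (h ^ a) (Subgroup.pow_mem _ (Subgroup.mem_zpowers h) a) z p
      (Nat.prime_of_mem_primeFactors hp)

end Pool.Agent.FJA
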