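import Pool.Agent.AUK.FJA.St3

/-!
# FCW: chains modulo `hdeg`

Proof of `S_FCW`: homogeneous cycles agree modulo `hdeg` with the chains of the cycles of Mathlib's
complex; invariant families of cochains vanish on `hdeg` of the centraliser; `evc` and `pair`.
-/

set_option autoImplicit false
set_option linter.unusedSectionVars false

open Matrix Pool.Agent.WhK Pool.Agent.Lib25 CategoryTheory

noncomputable section

namespace Pool.Agent.FJA

namespace FCW

/-- Every homogeneous chain agrees modulo `hdeg` with `psi (phi w)`. -/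
theorem sub_psi_phi (P : Type) [Group P] (m : ℕ) (w : HCh ℚ P m) :
    w - psi ℚ m P (phi ℚ m P w) ∈ hdeg ℚ P m := by
  induction w using Finsupp.induction_linear with
  | zero =>
    rw [map_zero, map_zero, sub_zero]
    exact Submodule.zero_mem _
  | add f g hf hg =>
    rw [map_add, map_add, add_sub_add_comm]
    exact Submodule.add_mem _ hf hg
  | single X q =>
    rw [phi_single, psi_single]
    have h1 := hdeg_mem (k := ℚ) m (X 0) (Fin.partialProd (quo X)) q
    rw [← eq_mul_partialProd X] at h1
    exact h1

/-- `evc` is a value of `pair`. -/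
theorem evc_eq (G P : Type) (j : P → G) (m : ℕ) (F : (Fin m → G) → G → ℚ)
    (w : (Fin m → P) →₀ ℚ) (y : G) :
    evc j F w y = pair (fun Z : Fin m → P => F (fun i => j (Z i)) y) w := by
  unfold evc pair
  rw [Finsupp.linearCombination_apply]
  rfl

end FCW

/-- The module FCW. -/
theorem t_FCW : S_FCW := by
  refine ⟨?_, ?_, ?_⟩
  · intro P _ m w hw
    have h1 : dI ℚ m P (phi ℚ (m + 1) P w) = 0 := by
      rw [← phi_bd]
      exact phi_hdeg m hw
    obtain ⟨z, hz⟩ := exists_ch _ h1
    refine ⟨z, ?_⟩
    rw [hz]
    exact FCW.sub_psi_phi P (m + 1) w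
  · intro G _ m S F hF h y hy w hw
    rw [FCW.evc_eq]
    have h1 : hdeg ℚ (Cen h) m ≤ LinearMap.ker
        (pair (fun Z : Fin (m + 1) → Cen h => F (fun i => ((Z i : Cen h) : G)) y)) := by
      unfold hdeg
      rw [Submodule.span_le]
      rintro x ⟨g, X, rfl⟩
      change pair _ _ = 0
      rw [map_sub, pair_single, pair_single, one_mul, one_mul, sub_eq_zero]
      have h2 : (g : G) * y * (g : G)⁻¹ = y := by
        obtain ⟨n, rfl⟩ := Subgroup.mem_zpowers_iff.1 hy
        have h3 : Commute h (g : G) :=
          (show Commute (g : G) h from Subgroup.mem_centralizer_singleton_iff.1 g.2).symm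
        have h4 : Commute (h ^ n) (g : G) := h3.zpow_left n
        rw [← h4.eq, mul_inv_cancel_right]
      have h5 := hF.inv (g : G) (fun i => ((X i : Cen h) : G)) y
      rw [h2] at h5
      exact h5
    exact h1 hw
  · intro G P j m F w y
    exact FCW.evc_eq G P j m F w y

end Pool.Agent.FJA
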