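import Pool.Agent.AUK.FJA.St3

set_option autoImplicit false

open Matrix Pool.Agent.WhK Pool.Agent.Lib25

noncomputable section

namespace Pool.Agent.FJA

namespace FIN

theorem Q_zero {G : Type} [Group G] {n : ℕ} {D : Dat G n}
    {v : ∀ (j : D.J) (p : ℕ), [Fact p.Prime] → Cyc (D.N j) → ℚ_[p]} {n0 : ℕ}
    {Q : ((Fin (n + 2) → G) → G → ℚ) → ℚ} (hQ : QF D v n0 Q) :
    Q (fun _ _ => 0) = 0 := by
  have h := hQ.smul 0 (fun _ _ => 0)
  simpa using h

theorem Q_sum {G : Type} [Group G] {n : ℕ} {D : Dat G n}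
    {v : ∀ (j : D.J) (p : ℕ), [Fact p.Prime] → Cyc (D.N j) → ℚ_[p]} {n0 : ℕ}
    {Q : ((Fin (n + 2) → G) → G → ℚ) → ℚ} (hQ : QF D v n0 Q)
    (H : ℕ → (Fin (n + 2) → G) → G → ℚ) (S : Finset ℕ) :
    Q (fun a y => ∑ p ∈ S, H p a y) = ∑ p ∈ S, Q (H p) := by
  classical
  induction S using Finset.induction_on with
  | empty => simpa using Q_zero hQ
  | insert x S hx ih =>
    have h1 : (fun (a : Fin (n + 2) → G) (y : G) => ∑ p ∈ insert x S, H p a y) =
        fun a y => H x a y + (fun a y => ∑ p ∈ S, H p a y) a y := by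
      funext a y
      exact Finset.sum_insert hx
    rw [h1, hQ.add, ih, Finset.sum_insert hx]

end FIN

theorem t_FIN (hrel : S_REL3) (hfnb : S_FNB) (hfnc : S_FNC) : S_FINC := by
  intro ε v K hN G _ bG hb n D hD L hL
  have key : ∀ n0 : ℕ, [NeZero n0] →
      ∑ j ∈ D.s with D.N j = n0, D.q j *
        evc (fun z : Cen (D.φ j (gen (D.N j))) => (z : G)) (L (D.p j)) (D.w j)
          (D.φ j (gen (D.N j))) = 0 := by
    intro n0 hn0
    obtain ⟨Q, hQ⟩ := hrel G bG hb n n0 (Nat.pos_of_ne_zero (NeZero.ne n0)) D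
      (fun j => ε (D.N j) (D.p j)) (fun j p _ => v (D.N j) (D.p j) p)
      (fun j => hN.loc (D.N j) (D.p j) (D.dvd j)) hD
    have hmap : ∀ j ∈ D.s.filter (fun j => D.N j = n0), D.p j ∈ n0.primeFactors := by
      intro j hj
      have hj2 := (Finset.mem_filter.mp hj).2
      refine Nat.mem_primeFactors.mpr ⟨(D.prime j).out, ?_, NeZero.ne n0⟩
      have := D.dvd j
      rwa [hj2] at this
    rw [← Finset.sum_fiberwise_of_maps_to hmap]
    have hK : (K n0 : ℚ) ≠ 0 := by
      have := hN.pos n0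
      exact_mod_cast this.ne'
    have h2 : (K n0 : ℚ) * ∑ p ∈ n0.primeFactors,
        ∑ j ∈ (D.s.filter (fun j => D.N j = n0)).filter (fun j => D.p j = p), D.q j *
          evc (fun z : Cen (D.φ j (gen (D.N j))) => (z : G)) (L (D.p j)) (D.w j)
            (D.φ j (gen (D.N j))) = 0 := by
      rw [Finset.mul_sum]
      have h3 : ∀ p ∈ n0.primeFactors, (K n0 : ℚ) *
          ∑ j ∈ (D.s.filter (fun j => D.N j = n0)).filter (fun j => D.p j = p), D.q j *
            evc (fun z : Cen (D.φ j (gen (D.N j))) => (z : G)) (L (D.p j)) (D.w j)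
              (D.φ j (gen (D.N j))) = Q (rsF n0 (L p)) := by
        intro p hp
        rw [← hfnb ε v K hN G n n0 D Q hQ L hL p (Nat.prime_of_mem_primeFactors hp)
          (Nat.dvd_of_mem_primeFactors hp), Finset.filter_filter]
        congr 1
        refine Finset.sum_congr rfl fun j hj => ?_
        have hj2 := (Finset.mem_filter.mp hj).2.2
        rw [hj2]
      rw [Finset.sum_congr rfl h3, ← FIN.Q_sum hQ]
      exact hfnc ε v K hN G n n0 D Q hQ L hL
    exact (mul_eq_zero.mp h2).resolve_left hK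
  rw [← Finset.sum_fiberwise_of_maps_to (fun j hj => Finset.mem_image_of_mem D.N hj)]
  refine Finset.sum_eq_zero fun n0 hn0 => ?_
  obtain ⟨j0, hj0, rfl⟩ := Finset.mem_image.mp hn0
  exact key (D.N j0)

end Pool.Agent.FJA
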