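import Pool.Agent.AUK.FJA.St2

/-!
# Module FJA_GRP (helper15)
-/

set_option autoImplicit false

open Matrix

noncomputable section

namespace Pool.Agent.FJA

namespace GRP

variable {k : Type} [Field k] {Γ' Γ : Type} [Group Γ'] [Group Γ] (f : Γ' →* Γ) (ι : Type)
  [Fintype ι] [DecidableEq ι] (V : Type)

/-- the homomorphism of matrices over `k[Γ']` induced by `f` -/
def mG : Matrix ι ι (MonoidAlgebra k Γ') →+* Matrix ι ι (MonoidAlgebra k Γ) :=
  (MonoidAlgebra.mapDomainRingHom k f).mapMatrix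

/-- the homomorphism of matrices over recorded paths induced by `recG f` -/
def mR : Matrix ι ι (MonoidAlgebra k (Rec Γ' V)) →+* Matrix ι ι (MonoidAlgebra k (Rec Γ V)) :=
  (MonoidAlgebra.mapDomainRingHom k (recG (V := V) f)).mapMatrix

theorem jm_mG (x : Matrix ι ι (MonoidAlgebra k Γ')) :
    jm k V (mG f ι x) = mR f ι V (jm k V x) := by
  ext i j : 1
  show MonoidAlgebra.mapDomainRingHom k (Rec.inc (Γ := Γ) (V := V))
      (MonoidAlgebra.mapDomainRingHom k f (x i j)) =
    MonoidAlgebra.mapDomainRingHom k (recG (V := V) f)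
      (MonoidAlgebra.mapDomainRingHom k (Rec.inc (Γ := Γ') (V := V)) (x i j))
  rw [← RingHom.comp_apply, ← RingHom.comp_apply]
  congr 1
  refine MonoidAlgebra.ringHom_ext ?_ ?_
  · intro r
    simp
  · intro g
    simp only [RingHom.comp_apply, MonoidAlgebra.mapDomainRingHom_apply,
      MonoidAlgebra.mapDomain_single]
    rfl

theorem wm_mR [DecidableEq V] (v : V) :
    (wm k ι v : Matrix ι ι (MonoidAlgebra k (Rec Γ V))) = mR f ι V (wm k ι v) := by
  unfold mR wm
  rw [RingHom.mapMatrix_apply, Matrix.diagonal_map (map_zero _)]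
  congr 1
  funext _
  rw [MonoidAlgebra.mapDomainRingHom_apply, MonoidAlgebra.mapDomain_single]
  congr 1
  apply Rec.ext
  · funext i
    show (if i = v then [(1 : Γ)] else []) = (if i = v then [(1 : Γ')] else []).map f
    split_ifs
    · simp
    · rfl
  · exact (map_one f).symm

theorem UX_mR {M : ℕ} (X : Fin M → (Matrix ι ι (MonoidAlgebra k Γ'))ˣ) :
    UX (fun i => glG f (X i)) = mR f ι (Fin M) (UX X) := by
  unfold UX
  rw [map_list_prod, List.map_ofFn]
  congr 2
  funext i
  have h1 : ((glG f (X i) : (Matrix ι ι (MonoidAlgebra k Γ))ˣ) : Matrix ι ι (MonoidAlgebra k Γ)) =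
      mG f ι (X i : Matrix ι ι (MonoidAlgebra k Γ')) := rfl
  have h2 : (((glG f (X i))⁻¹ : (Matrix ι ι (MonoidAlgebra k Γ))ˣ) :
      Matrix ι ι (MonoidAlgebra k Γ)) =
      mG f ι (((X i)⁻¹ : (Matrix ι ι (MonoidAlgebra k Γ'))ˣ) : Matrix ι ι (MonoidAlgebra k Γ')) := rfl
  rw [h1, h2, jm_mG, jm_mG, wm_mR f, Function.comp_apply, map_mul, map_mul]

theorem lin_recG (φ : Rec Γ V → ℚ) (x : MonoidAlgebra k (Rec Γ' V)) :
    lin k φ (MonoidAlgebra.mapDomainRingHom k (recG (V := V) f) x) =
      lin k (fun μ => φ (recG f μ)) x := by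
  induction x using MonoidAlgebra.induction_linear with
  | zero => simp
  | add a b ha hb => rw [map_add, map_add, map_add, ha, hb]
  | single μ c =>
    rw [MonoidAlgebra.mapDomainRingHom_apply, MonoidAlgebra.mapDomain_single, lin_single,
      lin_single]

end GRP

theorem t_GRP : S_GRP := by
  intro k _ _ Γ' Γ _ _ f ι _ _ M N φ X
  unfold TX
  rw [GRP.UX_mR, ← map_pow, ← GRP.lin_recG f]
  congr 1
  rw [Matrix.trace, Matrix.trace, map_sum]
  rfl

end Pool.Agent.FJA
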