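import Pool.Agent.AUK.FJA.St2

/-!
# Module INT: almost all primes do not divide the denominators; Dirichlet's theorem
-/

set_option autoImplicit false

open Matrix

namespace Pool.Agent.FJA

namespace INT

/-- The sum of the denominators of the coefficients. -/
noncomputable def dsum {M : Type} (x : MonoidAlgebra ℚ M) : ℕ := ∑ μ ∈ x.coeff.support, (x.coeff μ).den

theorem norm_cast_le_one {ℓ : ℕ} [Fact ℓ.Prime] (r : ℚ) (h : r.den < ℓ) :
    ‖((r : ℚ) : ℚ_[ℓ])‖ ≤ 1 := by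
  apply Padic.norm_rat_le_one
  intro hd
  exact absurd (Nat.le_of_dvd r.den_pos hd) (not_le.mpr h)

theorem norm_coeff_le_one {M : Type} {ℓ : ℕ} [Fact ℓ.Prime] (x : MonoidAlgebra ℚ M)
    (h : dsum x < ℓ) (μ : M) : ‖((x.coeff μ : ℚ) : ℚ_[ℓ])‖ ≤ 1 := by
  by_cases hμ : x.coeff μ = 0
  · rw [hμ, Rat.cast_zero, norm_zero]
    exact zero_le_one
  · apply norm_cast_le_one
    refine lt_of_le_of_lt ?_ h
    exact Finset.single_le_sum (f := fun μ => (x.coeff μ).den) (fun _ _ => Nat.zero_le _)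
      (Finsupp.mem_support_iff.mpr hμ)

theorem partA (M : Type) [Monoid M] (ι ι' : Type) [Fintype ι] [Fintype ι']
    (A : Matrix ι ι' (MonoidAlgebra ℚ M)) :
    ∃ B : ℕ, ∀ (ℓ : ℕ) [Fact ℓ.Prime], B < ℓ →
      NIM (A.map (MonoidAlgebra.mapRingHom M (algebraMap ℚ ℚ_[ℓ]))) := by
  classical
  refine ⟨∑ a : ι, ∑ b : ι', dsum (A a b), ?_⟩
  intro ℓ _ hℓ a b μ
  have h1 : dsum (A a b) ≤ ∑ b : ι', dsum (A a b) :=
    Finset.single_le_sum (f := fun b => dsum (A a b)) (fun _ _ => Nat.zero_le _) (Finset.mem_univ b)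
  have h2 : ∑ b : ι', dsum (A a b) ≤ ∑ a : ι, ∑ b : ι', dsum (A a b) :=
    Finset.single_le_sum (f := fun a => ∑ b : ι', dsum (A a b)) (fun _ _ => Nat.zero_le _)
      (Finset.mem_univ a)
  have h3 := norm_coeff_le_one (A a b) (lt_of_le_of_lt (h1.trans h2) hℓ) μ
  have h4 : ((A.map (MonoidAlgebra.mapRingHom M (algebraMap ℚ ℚ_[ℓ]))) a b).coeff μ =
      (((A a b).coeff μ : ℚ) : ℚ_[ℓ]) := by
    rw [Matrix.map_apply, MonoidAlgebra.coeff_mapRingHom]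
    exact eq_ratCast (algebraMap ℚ ℚ_[ℓ]) _
  rw [h4]
  exact h3

theorem partB (n a B : ℕ) (hn : 0 < n) (ha : a.Coprime n) :
    ∃ ℓ : ℕ, ℓ.Prime ∧ B < ℓ ∧ ℓ % n = a % n := by
  haveI : NeZero n := ⟨hn.ne'⟩
  obtain ⟨p, hp, hpp, h⟩ := Nat.forall_exists_prime_gt_and_eq_mod
    ((ZMod.isUnit_iff_coprime a n).mpr ha) B
  exact ⟨p, hpp, hp, (ZMod.natCast_eq_natCast_iff' p a n).mp h⟩

end INT

theorem t_INT : S_INT :=
  ⟨fun M _ ι ι' _ _ A => INT.partA M ι ι' A, fun n a B hn ha => INT.partB n a B hn ha⟩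

end Pool.Agent.FJA
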