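import Pool.Agent.AUK.FJA.St3

/-!
# Module KCB: compatibilities between the chains
-/

set_option autoImplicit false

open Matrix Pool.Agent.WhK Pool.Agent.Lib25

noncomputable section

namespace Pool.Agent.FJA

namespace KCB

lemma ext_lin {α : Type} {W : Type} [AddCommGroup W] [Module ℚ W] (f g : (α →₀ ℚ) →ₗ[ℚ] W)
    (h : ∀ a, f (Finsupp.single a 1) = g (Finsupp.single a 1)) (x : α →₀ ℚ) : f x = g x := by
  have h1 : f = g := by
    apply Finsupp.lhom_ext'
    intro a
    apply LinearMap.ext_ring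
    exact h a
  rw [h1]

lemma cvS_single (k : Type) [Field k] (G : Type) [Group G] (M : ℕ)
    (x : Σ r : ℕ, (Fin M → GLn (LaurentPolynomial (MonoidAlgebra ℤ G)) r)) (c : ℚ) :
    cvS k G M (Finsupp.single x c) = Finsupp.single ⟨x.1, fun i => cvt k x.1 (x.2 i)⟩ c := by
  unfold cvS
  rw [Finsupp.lmapDomain_apply, Finsupp.mapDomain_single]

lemma kinK_single (k : Type) [Field k] (Γ : Type) [Group Γ] (M r : ℕ)
    (X : Fin M → (Matrix (Fin r) (Fin r) (MonoidAlgebra k Γ))ˣ) (c : ℚ) :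
    kinK k Γ M r (Finsupp.single X c) = Finsupp.single ⟨r, X⟩ c := by
  unfold kinK
  rw [Finsupp.lmapDomain_apply, Finsupp.mapDomain_single]

lemma kinS_single (R : Type) [Ring R] (M r : ℕ) (X : Fin M → GLn R r) (c : ℚ) :
    kinS R M r (Finsupp.single X c) = Finsupp.single ⟨r, X⟩ c := by
  unfold kinS
  rw [Finsupp.lmapDomain_apply, Finsupp.mapDomain_single]

lemma bdS_single (R : Type) [Ring R] (M : ℕ) (x : Σ r : ℕ, (Fin (M + 1) → GLn R r)) :
    bdS R M (Finsupp.single x 1) =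
      ∑ i : Fin (M + 1), Finsupp.single ⟨x.1, fun t => x.2 (i.succAbove t)⟩ ((-1 : ℚ) ^ (i : ℕ)) := by
  unfold bdS
  rw [Finsupp.linearCombination_single, one_smul]

lemma bdK_single (k : Type) [Field k] (Γ : Type) [Group Γ] (M : ℕ)
    (x : Σ r : ℕ, (Fin (M + 1) → (Matrix (Fin r) (Fin r) (MonoidAlgebra k Γ))ˣ)) :
    bdK k Γ M (Finsupp.single x 1) =
      ∑ i : Fin (M + 1), Finsupp.single ⟨x.1, fun t => x.2 (i.succAbove t)⟩ ((-1 : ℚ) ^ (i : ℕ)) := by
  unfold bdK
  rw [Finsupp.linearCombination_single, one_smul]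

lemma bd_sgl {V : Type} (M : ℕ) (X : Fin (M + 1) → V) :
    bd ℚ V M (Finsupp.single X 1) =
      ∑ i : Fin (M + 1), Finsupp.single (fun j => X (i.succAbove j)) ((-1 : ℚ) ^ (i : ℕ)) := by
  unfold bd
  rw [Finsupp.linearCombination_single, one_smul]

lemma TK_single (k : Type) [Field k] [CharZero k] {Γ : Type} [Group Γ] {M : ℕ}
    (φ : Rec Γ (Fin M) → ℚ) (N : ℕ)
    (x : Σ r : ℕ, (Fin M → (Matrix (Fin r) (Fin r) (MonoidAlgebra k Γ))ˣ)) :
    TK k φ N (Finsupp.single x 1) = TX φ N x.2 := by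
  unfold TK
  rw [Finsupp.linearCombination_single, one_smul]

lemma TF_single {k : Type} [Field k] [CharZero k] {Γ : Type} [Group Γ] {ι : Type} [Fintype ι]
    [DecidableEq ι] {M : ℕ} (φ : Rec Γ (Fin M) → ℚ) (N : ℕ)
    (X : Fin M → (Matrix ι ι (MonoidAlgebra k Γ))ˣ) :
    TF φ N (Finsupp.single X 1) = TX φ N X := by
  unfold TF
  rw [Finsupp.linearCombination_single, one_smul]

lemma TS_single (k : Type) [Field k] [CharZero k] {G : Type} [Group G] {M : ℕ}
    (φ : Rec (G × Multiplicative ℤ) (Fin M) → ℚ) (N : ℕ)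
    (x : Σ r : ℕ, (Fin M → GLn (LaurentPolynomial (MonoidAlgebra ℤ G)) r)) :
    TS k φ N (Finsupp.single x 1) = TX φ N fun i => cvt k x.1 (x.2 i) := by
  unfold TS
  rw [Finsupp.linearCombination_single, one_smul]

lemma hmap_single {V V' : Type} (f : V → V') (M : ℕ) (X : Fin M → V) (c : ℚ) :
    hmap ℚ f M (Finsupp.single X c) = Finsupp.single (fun i => f (X i)) c := by
  unfold hmap
  rw [Finsupp.lmapDomain_apply, Finsupp.mapDomain_single]

end KCB

open KCB in
theorem t_KCB : S_KCB := by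
  intro k _ _ G _ M
  refine ⟨?_, ?_, ?_, ?_, ?_⟩
  · intro b
    refine ext_lin (bdK k _ M ∘ₗ cvS k G (M + 1)) (cvS k G M ∘ₗ bdS _ M) ?_ b
    intro x
    rw [LinearMap.comp_apply, LinearMap.comp_apply, cvS_single, bdK_single, bdS_single, map_sum]
    refine Finset.sum_congr rfl fun i _ => ?_
    rw [cvS_single]
  · intro η N x
    refine ext_lin (TK k η N ∘ₗ cvS k G M) (TS k η N) ?_ x
    intro y
    rw [LinearMap.comp_apply, cvS_single, TK_single, TS_single]
  · intro r c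
    refine ext_lin (bdK k _ M ∘ₗ kinK k _ (M + 1) r) (kinK k _ M r ∘ₗ bd ℚ _ M) ?_ c
    intro X
    rw [LinearMap.comp_apply, LinearMap.comp_apply, kinK_single, bdK_single, bd_sgl, map_sum]
    refine Finset.sum_congr rfl fun i _ => ?_
    rw [kinK_single]
  · intro η N r c
    refine ext_lin (TK k η N ∘ₗ kinK k _ M r) (TF η N) ?_ c
    intro X
    rw [LinearMap.comp_apply, kinK_single, TK_single, TF_single]
  · intro η N N0 e φ w
    refine ext_lin (TS k η N ∘ₗ kinS (LaurentPolynomial (MonoidAlgebra ℤ G)) M e.n ∘ₗ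
      hmap ℚ (fun z => rhoC e φ z) M) (TF η N ∘ₗ hmap ℚ (fV k e φ) M) ?_ w
    intro X
    rw [LinearMap.comp_apply, LinearMap.comp_apply, LinearMap.comp_apply, hmap_single, hmap_single,
      kinS_single, TS_single, TF_single]
    rfl

end Pool.Agent.FJA
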