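import Pool.Agent.AUK.FJA.P_TXB
import Pool.Agent.AUK.FJA.St2
import Pool.Agent.AUK.FJA.St3

/-!
# Module MPB: change of fields
-/

set_option autoImplicit false

open Matrix Pool.Agent.WhK Pool.Agent.Lib25

noncomputable section

namespace Pool.Agent.FJA

namespace MPB

section Chains

variable {k k' : Type} [Field k] [Field k'] (f : k →+* k')

/-- The image of a chain under the change of fields. -/
def mapK (Γ : Type) [Group Γ] (M : ℕ) : KCh k Γ M →ₗ[ℚ] KCh k' Γ M :=
  Finsupp.lmapDomain ℚ ℚ fun x => ⟨x.1, fun i => mapU f (x.2 i)⟩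

theorem mapK_single (Γ : Type) [Group Γ] (M : ℕ)
    (x : Σ r : ℕ, (Fin M → (Matrix (Fin r) (Fin r) (MonoidAlgebra k Γ))ˣ)) (c : ℚ) :
    mapK f Γ M (Finsupp.single x c) = Finsupp.single ⟨x.1, fun i => mapU f (x.2 i)⟩ c :=
  Finsupp.mapDomain_single

theorem TK_single [CharZero k] {Γ : Type} [Group Γ] {M : ℕ} (φ : Rec Γ (Fin M) → ℚ) (N : ℕ)
    (x : Σ r : ℕ, (Fin M → (Matrix (Fin r) (Fin r) (MonoidAlgebra k Γ))ˣ)) (c : ℚ) :
    TK k φ N (Finsupp.single x c) = (c : k) * TX φ N x.2 := by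
  unfold TK
  rw [Finsupp.linearCombination_single, Rat.smul_def]

theorem TK_mapK [CharZero k] [CharZero k'] {Γ : Type} [Group Γ] {M : ℕ}
    (φ : Rec Γ (Fin M) → ℚ) (N : ℕ) (B : KCh k Γ M) :
    TK k' φ N (mapK f Γ M B) = f (TK k φ N B) := by
  induction B using Finsupp.induction_linear with
  | zero => rw [map_zero, map_zero, map_zero, map_zero]
  | add x y hx hy => rw [map_add, map_add, map_add, map_add, hx, hy]
  | single x c =>
    rw [mapK_single, TK_single, TK_single, map_mul, map_ratCast]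
    congr 1
    exact t_TXmap k k' f Γ (Fin x.1) M N φ x.2

theorem mapK_kinK (Γ : Type) [Group Γ] (M r : ℕ)
    (c : (Fin M → (Matrix (Fin r) (Fin r) (MonoidAlgebra k Γ))ˣ) →₀ ℚ) :
    mapK f Γ M (kinK k Γ M r c) = kinK k' Γ M r (hmap ℚ (fun A => mapU f A) M c) := by
  induction c using Finsupp.induction_linear with
  | zero => simp only [map_zero]
  | add x y hx hy => simp only [map_add, hx, hy]
  | single x c =>
    have h1 : kinK k Γ M r (Finsupp.single x c) = Finsupp.single ⟨r, x⟩ c :=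
      Finsupp.mapDomain_single
    have h2 : hmap ℚ (fun A : (Matrix (Fin r) (Fin r) (MonoidAlgebra k Γ))ˣ => mapU f A) M
        (Finsupp.single x c) = Finsupp.single (fun i => mapU f (x i)) c :=
      Finsupp.mapDomain_single
    have h3 : kinK k' Γ M r (Finsupp.single (fun i => mapU f (x i)) c) =
        Finsupp.single ⟨r, fun i => mapU f (x i)⟩ c := Finsupp.mapDomain_single
    rw [h1, h2, h3, mapK_single]

theorem hmap_prism {V V' V'' : Type} (h : V' → V'') (g g' : V → V') (m : ℕ)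
    (w : (Fin m → V) →₀ ℚ) :
    hmap ℚ h (m + 1) (prism ℚ g g' m w) =
      prism ℚ (fun v => h (g v)) (fun v => h (g' v)) m w := by
  induction w using Finsupp.induction_linear with
  | zero => simp only [map_zero]
  | add x y hx hy => simp only [map_add, hx, hy]
  | single x c =>
    unfold prism
    rw [Finsupp.linearCombination_single, Finsupp.linearCombination_single, map_smul, map_sum]
    congr 1
    refine Finset.sum_congr rfl fun i _ => ?_
    have h1 : hmap ℚ h (m + 1) (Finsupp.single (mix g g' x i) ((-1 : ℚ) ^ (i : ℕ))) =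
        Finsupp.single (fun j => h (mix g g' x i j)) ((-1 : ℚ) ^ (i : ℕ)) :=
      Finsupp.mapDomain_single
    rw [h1]
    congr 1
    funext j
    unfold mix
    split_ifs
    · rfl
    · rfl

theorem mapU_cvt {G : Type} [Group G]
    (hN : ∀ x : LaurentPolynomial (MonoidAlgebra ℤ G),
      MonoidAlgebra.mapRingHom (G × Multiplicative ℤ) f (lauZ k G x) = lauZ k' G x)
    (r : ℕ) (A : GLn (LaurentPolynomial (MonoidAlgebra ℤ G)) r) :
    mapU (k := k) (k' := k') f (Γ := G × Multiplicative ℤ) (ι := Fin r) (cvt k r A) =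
      cvt k' r A := by
  apply Units.ext
  ext1 i j
  exact hN (A.val i j)

theorem mapK_cvS {G : Type} [Group G]
    (hN : ∀ x : LaurentPolynomial (MonoidAlgebra ℤ G),
      MonoidAlgebra.mapRingHom (G × Multiplicative ℤ) f (lauZ k G x) = lauZ k' G x)
    (M : ℕ) (b : SCh (LaurentPolynomial (MonoidAlgebra ℤ G)) M) :
    mapK f (G × Multiplicative ℤ) M (cvS k G M b) = cvS k' G M b := by
  induction b using Finsupp.induction_linear with
  | zero => simp only [map_zero]
  | add x y hx hy => simp only [map_add, hx, hy]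
  | single x c =>
    have h1 : cvS k G M (Finsupp.single x c) =
        Finsupp.single ⟨x.1, fun i => cvt k x.1 (x.2 i)⟩ c := Finsupp.mapDomain_single
    have h2 : cvS k' G M (Finsupp.single x c) =
        Finsupp.single ⟨x.1, fun i => cvt k' x.1 (x.2 i)⟩ c := Finsupp.mapDomain_single
    rw [h1, h2, mapK_single]
    have h3 : (fun i => mapU (k := k) (k' := k') f (Γ := G × Multiplicative ℤ) (ι := Fin x.1)
        (cvt k x.1 (x.2 i))) = fun i => cvt k' x.1 (x.2 i) := by
      funext i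
      exact mapU_cvt f hN x.1 (x.2 i)
    exact congrArg (fun X => Finsupp.single (⟨x.1, X⟩ : Σ r : ℕ, (Fin M →
      (Matrix (Fin r) (Fin r) (MonoidAlgebra k' (G × Multiplicative ℤ)))ˣ)) c) h3

theorem mapU_XG {C G : Type} [Group C] [Group G] (φ : C →* G) {ι : Type} [Fintype ι]
    [DecidableEq ι] (X : (Matrix ι ι (MonoidAlgebra k (C × Multiplicative ℤ)))ˣ) :
    mapU (k := k) (k' := k') f (Γ := G × Multiplicative ℤ) (ι := ι) (XG φ X) =
      XG φ (mapU (k := k) (k' := k') f (Γ := C × Multiplicative ℤ) (ι := ι) X) := by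
  apply Units.ext
  ext1 i j
  have h := MonoidAlgebra.mapRingHom_comp_mapDomainRingHom f
    (MonoidHom.prodMap φ (MonoidHom.id (Multiplicative ℤ)))
  exact RingHom.congr_fun h (X.val i j)

theorem mapDX {G : Type} [Group G]
    (hN : ∀ x : LaurentPolynomial (MonoidAlgebra ℤ G),
      MonoidAlgebra.mapRingHom (G × Multiplicative ℤ) f (lauZ k G x) = lauZ k' G x)
    {N : ℕ} (e : IdemMat (LaurentPolynomial (MonoidAlgebra ℤ (Cyc N)))) (φ : Cyc N →* G)
    (X : (Matrix (Fin e.n) (Fin e.n) (MonoidAlgebra k (Cyc N × Multiplicative ℤ)))ˣ) {m : ℕ}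
    (w : (Fin m → Cen (φ (gen N))) →₀ ℚ) :
    hmap ℚ (fun A => mapU (k := k) (k' := k') f (Γ := G × Multiplicative ℤ) (ι := Fin e.n) A)
        (m + 1) (DX e φ X w) =
      DX e φ (mapU (k := k) (k' := k') f (Γ := Cyc N × Multiplicative ℤ) (ι := Fin e.n) X) w := by
  unfold DX
  rw [hmap_prism]
  have h1 : (fun z : Cen (φ (gen N)) => mapU (k := k) (k' := k') f (Γ := G × Multiplicative ℤ)
      (ι := Fin e.n) (fV k e φ z)) = fV k' e φ := by
    funext z
    exact mapU_cvt f hN _ _
  have h2 : (fun z : Cen (φ (gen N)) => mapU (k := k) (k' := k') f (Γ := G × Multiplicative ℤ)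
      (ι := Fin e.n) (fV k e φ z * (XG φ X)⁻¹)) =
      fun z => fV k' e φ z * (XG φ (mapU (k := k) (k' := k') f (Γ := Cyc N × Multiplicative ℤ)
        (ι := Fin e.n) X))⁻¹ := by
    funext z
    have h3 : mapU (k := k) (k' := k') f (Γ := G × Multiplicative ℤ) (ι := Fin e.n)
        (fV k e φ z) = fV k' e φ z := mapU_cvt f hN _ _
    rw [map_mul, map_inv, mapU_XG, h3]
  rw [h1, h2]

theorem mapK_BT
    (hN : ∀ (G : Type) [Group G] (x : LaurentPolynomial (MonoidAlgebra ℤ G)),
      MonoidAlgebra.mapRingHom (G × Multiplicative ℤ) f (lauZ k G x) = lauZ k' G x)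
    {G : Type} [Group G] {n : ℕ} (D : Dat G n)
    (e : ∀ j, IdemMat (LaurentPolynomial (MonoidAlgebra ℤ (Cyc (D.N j)))))
    (b : SCh (LaurentPolynomial (MonoidAlgebra ℤ G)) (n + 3))
    (T : ∀ j, (Matrix (Fin (e j).n) (Fin (e j).n)
      (MonoidAlgebra k (Cyc (D.N j) × Multiplicative ℤ)))ˣ) :
    mapK f (G × Multiplicative ℤ) (n + 3) (BT k D e b T) =
      BT k' D e b (fun j => mapU f (T j)) := by
  unfold BT
  rw [map_add, mapK_cvS f (hN G), map_sum]
  refine congrArg (fun y => cvS k' G (n + 3) b + y) ?_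
  refine Finset.sum_congr rfl fun j _ => ?_
  rw [map_smul, mapK_kinK]
  refine congrArg (fun y => D.q j • kinK k' (G × Multiplicative ℤ) (n + 3) (e j).n y) ?_
  exact mapDX f (hN G) (e j) (D.φ j) (T j) (D.w j)

theorem map_dg {Γ : Type} [Group Γ] {r : ℕ} (d : Fin r → Bool) :
    (MonoidAlgebra.mapRingHom Γ f).mapMatrix (dg k d : Matrix (Fin r) (Fin r) (MonoidAlgebra k Γ)) =
      dg k' d := by
  unfold dg
  rw [RingHom.mapMatrix_apply, Matrix.diagonal_map (map_zero _)]
  congr 1
  funext a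
  split_ifs
  · exact map_one _
  · exact map_zero _

theorem trv
    (hN : ∀ (G : Type) [Group G] (x : LaurentPolynomial (MonoidAlgebra ℤ G)),
      MonoidAlgebra.mapRingHom (G × Multiplicative ℤ) f (lauZ k G x) = lauZ k' G x)
    (N : ℕ) (e : IdemMat (LaurentPolynomial (MonoidAlgebra ℤ (Cyc N)))) (d : Fin e.n → Bool)
    (X : (Matrix (Fin e.n) (Fin e.n) (MonoidAlgebra k (Cyc N × Multiplicative ℤ)))ˣ)
    (h : Trv k e d X) : Trv k' e d (mapU f X) := by
  have h0 : X.val * e.mat.map (lauZ k (Cyc N)) = dg k d * X.val := h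
  have h1 := congrArg (MonoidAlgebra.mapRingHom (Cyc N × Multiplicative ℤ) f).mapMatrix h0
  rw [map_mul, map_mul, map_dg] at h1
  have h2 : (MonoidAlgebra.mapRingHom (Cyc N × Multiplicative ℤ) f).mapMatrix
      (e.mat.map (lauZ k (Cyc N))) = e.mat.map (lauZ k' (Cyc N)) := by
    ext1 i j
    exact hN (Cyc N) (e.mat i j)
  rw [h2] at h1
  exact h1

theorem dZ_single {C : Type} (g : C × Multiplicative ℤ) (q : k) :
    dZ (MonoidAlgebra.single g q) =
      MonoidAlgebra.single g (((Multiplicative.toAdd g.2 : ℤ) : k) * q) := by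
  unfold dZ
  rw [MonoidAlgebra.coeff_single, Finsupp.sum_single_index (by rw [mul_zero, Finsupp.single_zero])]
  rfl

theorem dZ_zero {C : Type} : dZ (0 : MonoidAlgebra k (C × Multiplicative ℤ)) = 0 := by
  unfold dZ
  rw [MonoidAlgebra.coeff_zero, Finsupp.sum_zero_index]
  rfl

theorem dZ_add {C : Type} (x y : MonoidAlgebra k (C × Multiplicative ℤ)) :
    dZ (x + y) = dZ x + dZ y := by
  unfold dZ
  rw [MonoidAlgebra.coeff_add, Finsupp.sum_add_index', MonoidAlgebra.ofCoeff_add]
  · intro g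
    rw [mul_zero, Finsupp.single_zero]
  · intro g a b
    rw [mul_add, Finsupp.single_add]

theorem dZ_map {C : Type} [Group C] (x : MonoidAlgebra k (C × Multiplicative ℤ)) :
    dZ (MonoidAlgebra.mapRingHom (C × Multiplicative ℤ) f x) =
      MonoidAlgebra.mapRingHom (C × Multiplicative ℤ) f (dZ x) := by
  induction x using MonoidAlgebra.induction_linear with
  | zero => rw [map_zero, dZ_zero, dZ_zero, map_zero]
  | add x y hx hy => rw [map_add, dZ_add, dZ_add, map_add, hx, hy]
  | single g c =>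
    rw [MonoidAlgebra.mapRingHom_single, dZ_single, dZ_single, MonoidAlgebra.mapRingHom_single,
      map_mul, map_intCast]

theorem dlog_map {P : Type} [Group P] {r : ℕ}
    (X : (Matrix (Fin r) (Fin r) (MonoidAlgebra k (P × Multiplicative ℤ)))ˣ) (a : Fin r) (c : P) :
    dlog (k := k') (P := P) (r := r)
      (mapU (k := k) (k' := k') f (Γ := P × Multiplicative ℤ) (ι := Fin r) X) a c =
        f (dlog (k := k) (P := P) (r := r) X a c) := by
  have h1 : ((mapU f X)⁻¹).val.map dZ =
      (MonoidAlgebra.mapRingHom (P × Multiplicative ℤ) f).mapMatrix ((X⁻¹).val.map dZ) := by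
    ext1 i j
    exact dZ_map f ((X⁻¹).val i j)
  have h2 : (mapU f X).val =
      (MonoidAlgebra.mapRingHom (P × Multiplicative ℤ) f).mapMatrix X.val := rfl
  unfold dlog
  rw [h1, h2, ← map_mul]
  exact MonoidAlgebra.coeff_mapRingHom f _ _

end Chains

end MPB

theorem t_MPB (hlau : S_LAU) : S_MPB := by
  intro k k' _ _ _ _ f
  have hN : ∀ (G : Type) [Group G] (x : LaurentPolynomial (MonoidAlgebra ℤ G)),
      MonoidAlgebra.mapRingHom (G × Multiplicative ℤ) f (lauZ k G x) = lauZ k' G x :=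
    fun G _ x => (hlau k G).2.2.2.2.2 k' f x
  refine ⟨?_, ?_, ?_⟩
  · intro G _ n D e T b φ N
    rw [← MPB.mapK_BT f hN, MPB.TK_mapK]
  · intro N e d X h
    exact MPB.trv f hN N e d X h
  · intro P _ r X a c
    exact MPB.dlog_map f X a c

end Pool.Agent.FJA
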