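import Pool.Agent.AUK.FJA.St3
import Pool.Agent.AUK.H2.Theta2

/-!
# Module NDC: the family of idempotents
-/

set_option autoImplicit false

open Matrix Pool.Agent.WhK Pool.Agent.Lib25

noncomputable section

namespace Pool.Agent.FJA

namespace NDC

/-- Idempotent matrices over the Laurent polynomials over `ℤ[C_N]`. -/
abbrev LPM (N : ℕ) := IdemMat (LaurentPolynomial (MonoidAlgebra ℤ (Cyc N)))

/-- Families of local functions. -/
abbrev LV (N : ℕ) := ∀ q : ℕ, [Fact q.Prime] → Cyc N → ℚ_[q]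

theorem locE_congr {N : ℕ} {e : LPM N} {v v' : LV N} (h : LocE e (fun q _ => v q))
    (hv : ∀ (q : ℕ) [Fact q.Prime] (c : Cyc N), v q c = v' q c) : LocE e (fun q _ => v' q) := by
  obtain ⟨d, X, hX, hY⟩ := h
  refine ⟨d, X, hX, fun q hq => ?_⟩
  obtain ⟨Y, h1, h2, h3⟩ := hY q
  exact ⟨Y, h1, h2, fun c => (h3 c).trans (hv q c)⟩

theorem copies (hndb : S_NDB) {N : ℕ} [NeZero N] (e : LPM N) (v : LV N)
    (h : LocE e (fun q _ => v q)) (m : ℕ) :
    ∃ e' : LPM N, LocE e' (fun q _ c => (m : ℚ_[q]) * v q c) := by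
  induction m with
  | zero =>
    refine ⟨_, locE_congr (v := fun q _ _ => 0) (v' := fun q _ c => ((0 : ℕ) : ℚ_[q]) * v q c)
      (hndb N).1 fun q _ c => ?_⟩
    rw [Nat.cast_zero, zero_mul]
  | succ m ih =>
    obtain ⟨e', he'⟩ := ih
    refine ⟨_, locE_congr (v := fun q _ c => (m : ℚ_[q]) * v q c + v q c)
      (v' := fun q _ c => ((m + 1 : ℕ) : ℚ_[q]) * v q c)
      ((hndb N).2 e' e (fun q _ c => (m : ℚ_[q]) * v q c) v he' h) fun q _ c => ?_⟩
    rw [Nat.cast_succ]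
    ring

theorem sums (hndb : S_NDB) {N : ℕ} [NeZero N] {ι : Type} (v : ι → LV N)
    (h : ∀ i, ∃ e : LPM N, LocE e (fun q _ => v i q)) (s : Finset ι) :
    ∃ e' : LPM N, LocE e' (fun q _ c => ∑ i ∈ s, v i q c) := by
  classical
  induction s using Finset.induction_on with
  | empty =>
    refine ⟨_, locE_congr (v := fun q _ _ => 0)
      (v' := fun q _ c => ∑ i ∈ (∅ : Finset ι), v i q c) (hndb N).1 fun q _ c => ?_⟩
    rw [Finset.sum_empty]
  | insert a s ha ih =>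
    obtain ⟨e', he'⟩ := ih
    obtain ⟨e, he⟩ := h a
    refine ⟨_, locE_congr (v := fun q _ c => v a q c + ∑ i ∈ s, v i q c)
      (v' := fun q _ c => ∑ i ∈ insert a s, v i q c)
      ((hndb N).2 e e' (v a) (fun q _ c => ∑ i ∈ s, v i q c) he he') fun q _ c => ?_⟩
    rw [Finset.sum_insert ha]

/-- The properties of one idempotent. -/
structure OneD (N p : ℕ) [NeZero N] [Fact p.Prime] (K : ℕ) (e : LPM N) (v : LV N) : Prop where
  loc : LocE e (fun q _ => v q)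
  away : ∀ (q : ℕ) [Fact q.Prime], q ≠ p → ∀ c : Cyc N, v q c = 0
  top : ∀ c : Cyc N, Subgroup.zpowers c ≠ ⊤ → v p c = 0
  cls : open scoped Classical in ∀ (Y : (ZMod N)ˣ → ℚ) (y : ℚ),
    ∑ u : (ZMod N)ˣ, v p (Multiplicative.ofAdd (u : ZMod N)) * (Y u : ℚ_[p]) = (y : ℚ_[p]) →
    ∀ z : (ZMod N)ˣ, (K : ℚ) * ∑ u ∈ Finset.univ.filter (fun u => uRel N p u z), Y u =
      y * ((Finset.univ.filter (fun u => uRel N p u z)).card : ℚ)

theorem exists_one (hnda : S_NDA) (hndb : S_NDB) (N p : ℕ) [NeZero N] [Fact p.Prime]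
    (hpN : p ∣ N) : ∃ (K : ℕ) (e : LPM N) (v : LV N), 0 < K ∧ OneD N p K e v := by
  classical
  obtain ⟨ι, _, a, e, M, K, hnode, hK, htop, hcls⟩ := H2.exists_theta2 p N hpN
  choose ε ε' v h1 h2 h3 h4 using fun i => hnda p N (e i) (hnode i).idem
  have h5 : ∀ i, ∃ e0 : LPM N, LocE e0 (fun q _ c => ((M i : ℤ) : ℚ_[q]) * v i q c) := by
    intro i
    rcases le_total 0 (M i) with h | h
    · obtain ⟨e0, he0⟩ := copies hndb (ε i) (v i) (h1 i) (M i).toNat
      refine ⟨e0, locE_congr (v := fun q _ c => ((M i).toNat : ℚ_[q]) * v i q c)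
        (v' := fun q _ c => ((M i : ℤ) : ℚ_[q]) * v i q c) he0 fun q _ c => ?_⟩
      have h6 : (((M i).toNat : ℤ) : ℚ_[q]) = ((M i : ℤ) : ℚ_[q]) := by rw [Int.toNat_of_nonneg h]
      rw [← h6, Int.cast_natCast]
    · obtain ⟨e0, he0⟩ := copies hndb (ε' i) (fun q _ c => - v i q c) (h2 i) (-(M i)).toNat
      refine ⟨e0, locE_congr (v := fun q _ c => ((-(M i)).toNat : ℚ_[q]) * - v i q c)
        (v' := fun q _ c => ((M i : ℤ) : ℚ_[q]) * v i q c) he0 fun q _ c => ?_⟩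
      have h6 : (((-(M i)).toNat : ℤ) : ℚ_[q]) = ((-(M i) : ℤ) : ℚ_[q]) := by
        rw [Int.toNat_of_nonneg (by omega)]
      rw [Int.cast_natCast] at h6
      rw [h6, Int.cast_neg]
      ring
  obtain ⟨e0, he0⟩ := sums hndb (fun i q _ c => ((M i : ℤ) : ℚ_[q]) * v i q c) h5 Finset.univ
  have h6 : ∀ c : Cyc N, ∑ i, ((M i : ℤ) : ℚ_[p]) * v i p c =
      (∑ i, (M i : ℚ_[p]) • e i).coeff c := by
    intro c
    rw [MonoidAlgebra.coeff_sum, Finset.sum_apply']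
    refine Finset.sum_congr rfl fun i _ => ?_
    rw [h3 i c, MonoidAlgebra.coeff_smul]
    rfl
  refine ⟨K, e0, fun q _ c => ∑ i, ((M i : ℤ) : ℚ_[q]) * v i q c, hK, he0, ?_, ?_, ?_⟩
  · intro q _ hq c
    refine Finset.sum_eq_zero fun i _ => ?_
    rw [h4 i q hq c, mul_zero]
  · intro c hc
    rw [h6 c]
    exact htop c hc
  · intro Y y hy z
    refine hcls Y y ?_ z
    rw [← hy]
    refine Finset.sum_congr rfl fun u _ => ?_
    rw [← h6]

theorem scale (hndb : S_NDB) (N p : ℕ) [NeZero N] [Fact p.Prime] (K m : ℕ) (hm : 0 < m)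
    (e : LPM N) (v : LV N) (h : OneD N p K e v) :
    ∃ (e' : LPM N) (v' : LV N), OneD N p (m * K) e' v' := by
  classical
  obtain ⟨e', he'⟩ := copies hndb e v h.loc m
  have hm' : (m : ℚ) ≠ 0 := by exact_mod_cast hm.ne'
  have hmp : (m : ℚ_[p]) ≠ 0 := by exact_mod_cast hm.ne'
  refine ⟨e', fun q _ c => (m : ℚ_[q]) * v q c, he', ?_, ?_, ?_⟩
  · intro q _ hq c
    rw [h.away q hq c, mul_zero]
  · intro c hc
    rw [h.top c hc, mul_zero]
  · intro Y y hy z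
    have h1 : ∑ u : (ZMod N)ˣ, v p (Multiplicative.ofAdd (u : ZMod N)) * (Y u : ℚ_[p]) =
        ((y / m : ℚ) : ℚ_[p]) := by
      rw [Rat.cast_div, Rat.cast_natCast, eq_div_iff hmp, ← hy, Finset.sum_mul]
      refine Finset.sum_congr rfl fun u _ => ?_
      ring
    have h2 := h.cls Y (y / m) h1 z
    have h3 : ((m * K : ℕ) : ℚ) * ∑ u ∈ Finset.univ.filter (fun u => uRel N p u z), Y u =
        m * (K * ∑ u ∈ Finset.univ.filter (fun u => uRel N p u z), Y u) := by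
      rw [Nat.cast_mul, mul_assoc]
    rw [h3, h2]
    field_simp

end NDC

open NDC in
theorem t_NDC (hnda : S_NDA) (hndb : S_NDB) : S_NDC := by
  classical
  have h1 : ∀ N p : ℕ, ∃ K : ℕ, 0 < K ∧ ∀ [NeZero N] [Fact p.Prime], p ∣ N →
      ∃ (e : LPM N) (v : LV N), OneD N p K e v := by
    intro N p
    by_cases h : N ≠ 0 ∧ p.Prime ∧ p ∣ N
    · have : NeZero N := ⟨h.1⟩
      have : Fact p.Prime := ⟨h.2.1⟩
      obtain ⟨K, e, v, hK, ho⟩ := exists_one hnda hndb N p h.2.2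
      exact ⟨K, hK, fun {_} {_} _ => ⟨e, v, ho⟩⟩
    · exact ⟨1, one_pos, fun {hN} {hp} hpN => (h ⟨hN.out, hp.out, hpN⟩).elim⟩
  choose Kp hKp hone using h1
  have h2 : ∀ N p : ℕ, ∃ (e : LPM N) (v : LV N), ∀ [NeZero N] [Fact p.Prime], p ∣ N →
      OneD N p (∏ q ∈ N.primeFactors, Kp N q) e v := by
    intro N p
    by_cases h : N ≠ 0 ∧ p.Prime ∧ p ∣ N
    · have : NeZero N := ⟨h.1⟩
      have : Fact p.Prime := ⟨h.2.1⟩
      obtain ⟨e, v, ho⟩ := hone N p h.2.2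
      have hmem : p ∈ N.primeFactors := Nat.mem_primeFactors.2 ⟨h.2.1, h.2.2, h.1⟩
      obtain ⟨e', v', ho'⟩ := scale hndb N p (Kp N p) (∏ q ∈ N.primeFactors.erase p, Kp N q)
        (Finset.prod_pos fun q _ => hKp N q) e v ho
      refine ⟨e', v', fun {_} {_} _ => ?_⟩
      rw [← Finset.prod_erase_mul _ _ hmem]
      exact ho'
    · exact ⟨IdemMat.zero _, fun q _ _ => 0,
        fun {hN} {hp} hpN => (h ⟨hN.out, hp.out, hpN⟩).elim⟩
  choose ε v hε using h2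
  refine ⟨ε, fun N p q _ c => v N p q c, fun N => ∏ q ∈ N.primeFactors, Kp N q, ?_, ?_, ?_, ?_, ?_⟩
  · intro N
    exact Finset.prod_pos fun q _ => hKp N q
  · intro N p _ _ hpN
    exact (hε N p hpN).loc
  · intro N p _ _ hpN q _ hq c
    exact (hε N p hpN).away q hq c
  · intro N p _ _ hpN c hc
    exact (hε N p hpN).top c hc
  · intro N p _ _ hpN Y y hy z
    have h3 := (hε N p hpN).cls Y y hy z
    convert h3 using 1

end Pool.Agent.FJA
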