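import Pool.Agent.AUK.FJA.P_GAU
import Pool.Agent.AUK.FJA.St2
import Pool.Agent.AUK.FJA.St3

/-!
# Module NIB: integrality of the vertices of `BT`
-/

set_option autoImplicit false

open Matrix Pool.Agent.WhK Pool.Agent.Lib25

namespace Pool.Agent.FJA

namespace NIB

section NI

variable {ℓ : ℕ} [Fact ℓ.Prime]

theorem niu_mul {M : Type} [Monoid M] {ι : Type} [Fintype ι] [DecidableEq ι]
    {A B : (Matrix ι ι (MonoidAlgebra ℚ_[ℓ] M))ˣ} (hA : NIU A) (hB : NIU B) : NIU (A * B) := by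
  refine ⟨?_, ?_⟩
  · rw [Units.val_mul]
    exact GAU.nim_mul hA.1 hB.1
  · rw [_root_.mul_inv_rev, Units.val_mul]
    exact GAU.nim_mul hB.2 hA.2

theorem niu_inv {M : Type} [Monoid M] {ι : Type} [Fintype ι] [DecidableEq ι]
    {A : (Matrix ι ι (MonoidAlgebra ℚ_[ℓ] M))ˣ} (hA : NIU A) : NIU A⁻¹ := by
  refine ⟨hA.2, ?_⟩
  rw [inv_inv]
  exact hA.1

theorem niu_cvt (hint : S_LAUint) {G : Type} [Group G] (r : ℕ)
    (A : GLn (LaurentPolynomial (MonoidAlgebra ℤ G)) r) : NIU (cvt ℚ_[ℓ] r A) := by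
  have h1 : ∀ B : GLn (LaurentPolynomial (MonoidAlgebra ℤ G)) r,
      NIM (cvt ℚ_[ℓ] r B).val := by
    intro B a b
    exact hint ℓ G (B.val a b)
  refine ⟨h1 A, ?_⟩
  rw [← map_inv]
  exact h1 A⁻¹

theorem ni_mapDomain {M N : Type} [Monoid M] [Monoid N] (f : M →* N)
    {x : MonoidAlgebra ℚ_[ℓ] M} (hx : NI x) : NI (MonoidAlgebra.mapDomainRingHom ℚ_[ℓ] f x) := by
  obtain ⟨y, hy⟩ := (GAU.ni_iff x).1 hx
  rw [GAU.ni_iff]
  have h3 : (MonoidAlgebra.mapDomainRingHom ℚ_[ℓ] f).comp (GAU.ext ℓ M) =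
      (GAU.ext ℓ N).comp (MonoidAlgebra.mapDomainRingHom ℤ_[ℓ] f) := by
    unfold GAU.ext
    ext <;> simp
  refine ⟨MonoidAlgebra.mapDomainRingHom ℤ_[ℓ] f y, ?_⟩
  rw [← hy]
  exact (congrArg (fun g => g y) h3).symm

theorem niu_glG {Γ' Γ : Type} [Group Γ'] [Group Γ] (f : Γ' →* Γ) {ι : Type} [Fintype ι]
    [DecidableEq ι] {X : (Matrix ι ι (MonoidAlgebra ℚ_[ℓ] Γ'))ˣ} (hX : NIU X) :
    NIU (glG f X) := by
  refine ⟨fun a b => ni_mapDomain f (hX.1 a b), ?_⟩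
  rw [← map_inv]
  exact fun a b => ni_mapDomain f (hX.2 a b)

end NI

/-! ### supports -/

theorem mapDomain_mem {α β : Type} (f : α → β) (s : Set α) (t : Set β) (hf : ∀ a ∈ s, f a ∈ t)
    (w : α →₀ ℚ) (hw : w ∈ Finsupp.supported ℚ ℚ s) :
    Finsupp.lmapDomain ℚ ℚ f w ∈ Finsupp.supported ℚ ℚ t := by
  classical
  rw [Finsupp.lmapDomain_apply, Finsupp.mem_supported]
  intro b hb
  have h1 := Finsupp.mapDomain_support (f := f) (s := w) hb
  rw [Finset.mem_image] at h1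
  obtain ⟨a, ha, rfl⟩ := h1
  exact hf a ((Finsupp.mem_supported ℚ w).1 hw ha)

theorem prism_mem {V V' : Type} (f f' : V → V') (P : V' → Prop) (hf : ∀ v, P (f v))
    (hf' : ∀ v, P (f' v)) (m : ℕ) (w : (Fin m → V) →₀ ℚ) :
    prism ℚ f f' m w ∈ Finsupp.supported ℚ ℚ {X : Fin (m + 1) → V' | ∀ i, P (X i)} := by
  unfold prism
  rw [Finsupp.linearCombination_apply]
  refine Submodule.sum_mem _ fun v _ => Submodule.smul_mem _ _ (Submodule.sum_mem _ fun i _ => ?_)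
  apply Finsupp.single_mem_supported
  intro j
  unfold mix
  split_ifs
  · exact hf _
  · exact hf' _

end NIB

open NIB in
theorem t_NIB (hint : S_LAUint) : S_NIB := by
  intro ℓ _ G _ n D e T b hT x hx
  have key : BT ℚ_[ℓ] D e b T ∈ Finsupp.supported ℚ ℚ
      {x : (Σ r : ℕ, (Fin (n + 3) → (Matrix (Fin r) (Fin r)
        (MonoidAlgebra ℚ_[ℓ] (G × Multiplicative ℤ)))ˣ)) | ∀ i, NIU (x.2 i)} := by
    unfold BT
    refine Submodule.add_mem _ ?_ (Submodule.sum_mem _ fun j hj => Submodule.smul_mem _ _ ?_)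
    · unfold cvS
      refine mapDomain_mem _ Set.univ _ ?_ b ?_
      · intro a _ i
        exact niu_cvt hint a.1 (a.2 i)
      · rw [Finsupp.supported_univ]
        exact Submodule.mem_top
    · unfold kinK
      refine mapDomain_mem _ {X : Fin (n + 3) → _ | ∀ i, NIU (X i)} _ ?_ _ ?_
      · intro X hX i
        exact hX i
      · unfold DX
        have h1 : ∀ z : Cen (D.φ j (gen (D.N j))), NIU (fV ℚ_[ℓ] (e j) (D.φ j) z) :=
          fun z => niu_cvt hint _ _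
        exact prism_mem _ _ _ h1
          (fun z => niu_mul (h1 z) (niu_inv (niu_glG _ (hT j hj)))) _ _
  exact (Finsupp.mem_supported ℚ _).1 key hx

end Pool.Agent.FJA
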