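import Pool.Agent.AUK.FJA.St1

/-!
# FJA: the module PAD
-/

set_option autoImplicit false

open Matrix

namespace Pool.Agent.FJA

universe u x

namespace PAD

lemma isTr_pow {M : Type u} [Monoid M] {φ : M → ℚ} (h : IsTr φ) (e : ℕ) :
    IsTr fun μ => φ (μ ^ e) := by
  intro μ ν
  rcases e with _ | e
  · simp
  · have h1 : (μ * ν) ^ (e + 1) = μ * ((ν * μ) ^ e * ν) := by
      rw [pow_succ, ← mul_assoc, ← mul_assoc]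
      congr 1
      induction e with
      | zero => simp
      | succ e ih =>
        rw [pow_succ (μ * ν) e, pow_succ (ν * μ) e, mul_assoc ((μ * ν) ^ e) (μ * ν) μ,
          mul_assoc μ ν μ, ← mul_assoc ((μ * ν) ^ e) μ (ν * μ), ih, mul_assoc]
    have h2 : (ν * μ) ^ (e + 1) = ((ν * μ) ^ e * ν) * μ := by
      rw [pow_succ, mul_assoc]
    change φ ((μ * ν) ^ (e + 1)) = φ ((ν * μ) ^ (e + 1))
    rw [h1, h2]
    exact h _ _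

section

variable {ℓ : ℕ} [Fact ℓ.Prime] {M : Type u} [Monoid M] {ι : Type} [Fintype ι] [DecidableEq ι]

lemma gau_iter (hgau : S_GAU.{u, 0}) {φ : M → ℚ} {D : ℕ} (hφ : IsTr φ) (hD : 0 < D)
    (hden : ∀ μ, ∃ z : ℤ, (D : ℚ) * φ μ = z) (U : Matrix ι ι (MonoidAlgebra ℚ_[ℓ] M))
    (hU : NIM U) (t n : ℕ) :
    ‖(D : ℚ_[ℓ]) * (lin ℚ_[ℓ] φ (Matrix.trace (U ^ ℓ ^ (n + t))) -
      lin ℚ_[ℓ] (fun μ => φ (μ ^ ℓ ^ t)) (Matrix.trace (U ^ ℓ ^ n)))‖ ≤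
        (ℓ : ℝ) ^ (-(n + 1 : ℤ)) := by
  have hℓ : (1 : ℝ) ≤ ℓ := by exact_mod_cast (Fact.out : ℓ.Prime).one_le
  induction t generalizing n with
  | zero =>
    simp only [add_zero, pow_zero, pow_one, sub_self, mul_zero, norm_zero]
    positivity
  | succ t ih =>
    have h1 := ih (n + 1)
    have h2 := hgau ℓ M ι (fun μ => φ (μ ^ ℓ ^ t)) D (isTr_pow hφ _) hD (fun μ => hden _) U hU n
    have h3 : (fun μ : M => φ ((μ ^ ℓ) ^ ℓ ^ t)) = fun μ => φ (μ ^ ℓ ^ (t + 1)) := by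
      funext μ
      rw [← pow_mul, pow_succ']
    simp only [h3] at h2
    have h4 : (D : ℚ_[ℓ]) * (lin ℚ_[ℓ] φ (Matrix.trace (U ^ ℓ ^ (n + (t + 1)))) -
        lin ℚ_[ℓ] (fun μ => φ (μ ^ ℓ ^ (t + 1))) (Matrix.trace (U ^ ℓ ^ n))) =
        (D : ℚ_[ℓ]) * (lin ℚ_[ℓ] φ (Matrix.trace (U ^ ℓ ^ (n + 1 + t))) -
          lin ℚ_[ℓ] (fun μ => φ (μ ^ ℓ ^ t)) (Matrix.trace (U ^ ℓ ^ (n + 1)))) +
        (D : ℚ_[ℓ]) * (lin ℚ_[ℓ] (fun μ => φ (μ ^ ℓ ^ t)) (Matrix.trace (U ^ ℓ ^ (n + 1))) -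
          lin ℚ_[ℓ] (fun μ => φ (μ ^ ℓ ^ (t + 1))) (Matrix.trace (U ^ ℓ ^ n))) := by
      rw [show n + (t + 1) = n + 1 + t by ring]
      ring
    rw [h4]
    refine (IsUltrametricDist.norm_add_le_max _ _).trans (max_le (h1.trans ?_) h2)
    refine zpow_le_zpow_right₀ hℓ ?_
    push_cast
    omega

end

section

variable {Γ : Type u} [Group Γ] {σ : Γ →* Multiplicative ℤ} {ℓ : ℕ} [Fact ℓ.Prime] {M : ℕ}
  {J : Type x} {S : Finset J} {c : J → ℚ_[ℓ]} {r : J → ℕ}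
  {X : ∀ j, Fin (M + 1) → (Matrix (Fin (r j)) (Fin (r j)) (MonoidAlgebra ℚ_[ℓ] Γ))ˣ}

lemma sum_evs (hsch : S_SCH.{u, 0, 0}) (hevs : S_EVS.{u}) (hfst : S_TXfst.{u, 0, 0})
    (hnull : ∀ η : Rec Γ (Fin M) → ℚ, NullFun σ η → ∀ N : ℕ, 0 < N →
      ∑ j ∈ S, c j * ∑ i : Fin (M + 1), (-1 : ℚ_[ℓ]) ^ (i : ℕ) *
        TX η N (fun t => X j (i.succAbove t)) = 0)
    {F : (Fin (M + 1) → Γ) → Γ → ℚ} {s : List Γ → Γ → (Γ →₀ ℚ)} (hF : Coch σ M F) (hs : Sec s)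
    (N : ℕ) (hN : 0 < N) :
    ∑ j ∈ S, c j * TX (evs F s) N (X j) = ∑ j ∈ S, c j * TX (fst F) 1 (X j) := by
  obtain ⟨η, hη, h1⟩ := hsch Γ σ M F s hF hs
  obtain ⟨-, -, -, -, -, h2, -⟩ := hevs Γ σ M F s hF hs
  have h3 := hnull η hη N hN
  rw [← sub_eq_zero, ← Finset.sum_sub_distrib, ← h3]
  refine Finset.sum_congr rfl fun j _ => ?_
  rw [← h1 ℚ_[ℓ] (Fin (r j)) N hN (X j), hfst ℚ_[ℓ] Γ (Fin (r j)) (M + 1) N (fst F) (X j) hN h2]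
  ring

end

end PAD

open PAD in
theorem t_PAD (hgau : S_GAU.{u, 0}) (hint : S_GAUint.{u, 0}) (hsec : S_SEC.{u})
    (hsch : S_SCH.{u, 0, 0}) (hevs : S_EVS.{u}) (hfst : S_TXfst.{u, 0, 0}) : S_PAD.{u, x} := by
  intro Γ _ σ b hb ℓ _ M F hF J S c r X hX hnull e
  obtain ⟨s, hs, hrot, hden⟩ := hsec Γ b hb
  obtain ⟨h1, h2, h3, h4, h5, -, -⟩ := hevs Γ σ M F s hF hs
  obtain ⟨D, hD⟩ := h2 b.factorial hden
  obtain ⟨hD0, hDz⟩ := hD b.factorial_pos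
  have htr : IsTr (evs F s) := h1 hrot
  have hprime : ℓ.Prime := Fact.out
  have hℓ0 : 0 < ℓ := hprime.pos
  have hpos : ∀ n : ℕ, 0 < ℓ ^ n := fun n => Nat.pow_pos hℓ0
  have e1 : ∀ N : ℕ, 0 < N → ∑ j ∈ S, c j * TX (evs F s) N (X j) =
      ∑ j ∈ S, c j * TX (fst F) 1 (X j) := fun N hN => sum_evs hsch hevs hfst hnull hF hs N hN
  have e2 : ∀ N : ℕ, 0 < N → ∑ j ∈ S, c j * TX (fun μ => evs F s (μ ^ ℓ ^ e)) N (X j) =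
      ∑ j ∈ S, c j * TX (fst (powF (ℓ ^ e) F)) 1 (X j) := by
    intro N hN
    have h6 : (fun μ => evs F s (μ ^ ℓ ^ e)) =
        evs (powF (ℓ ^ e) F) (fun Y y => s (powL (ℓ ^ e) Y y) (y ^ ℓ ^ e)) := by
      funext μ
      exact h4 _ (hpos e) μ
    rw [h6]
    exact sum_evs hsch hevs hfst hnull (h3 _ (hpos e)) (h5 _ (hpos e)) N hN
  obtain ⟨A, hA⟩ : ∃ A, A = ∑ j ∈ S, c j * TX (fst F) 1 (X j) := ⟨_, rfl⟩
  obtain ⟨B, hB⟩ : ∃ B, B = ∑ j ∈ S, c j * TX (fst (powF (ℓ ^ e) F)) 1 (X j) := ⟨_, rfl⟩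
  rw [← hA, ← hB]
  have hbound : ∀ n : ℕ, ‖(D : ℚ_[ℓ]) * (A - B)‖ ≤ (∑ j ∈ S, ‖c j‖) * (ℓ : ℝ) ^ (-(n + 1 : ℤ)) := by
    intro n
    rw [hA, hB, ← e1 (ℓ ^ (n + e)) (hpos _), ← e2 (ℓ ^ n) (hpos _), ← Finset.sum_sub_distrib,
      Finset.mul_sum, Finset.sum_mul]
    refine (norm_sum_le _ _).trans (Finset.sum_le_sum fun j hj => ?_)
    have h7 := gau_iter hgau htr hD0 hDz (UX (X j)) (hint ℓ Γ (Fin (r j)) (M + 1) (X j) (hX j hj))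
      e n
    have h8 : (D : ℚ_[ℓ]) * (c j * TX (evs F s) (ℓ ^ (n + e)) (X j) -
        c j * TX (fun μ => evs F s (μ ^ ℓ ^ e)) (ℓ ^ n) (X j)) =
        c j * ((D : ℚ_[ℓ]) * (lin ℚ_[ℓ] (evs F s) (Matrix.trace (UX (X j) ^ ℓ ^ (n + e))) -
          lin ℚ_[ℓ] (fun μ => evs F s (μ ^ ℓ ^ e)) (Matrix.trace (UX (X j) ^ ℓ ^ n)))) := by
      unfold TX
      ring
    rw [h8, norm_mul]
    exact mul_le_mul_of_nonneg_left h7 (norm_nonneg _)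
  have hℓ1 : (1 : ℝ) < ℓ := by exact_mod_cast hprime.one_lt
  have hlim : Filter.Tendsto (fun n : ℕ => (∑ j ∈ S, ‖c j‖) * (ℓ : ℝ) ^ (-(n + 1 : ℤ)))
      Filter.atTop (nhds 0) := by
    have h9 : Filter.Tendsto (fun n : ℕ => ((ℓ : ℝ)⁻¹) ^ (n + 1)) Filter.atTop (nhds 0) := by
      exact (tendsto_pow_atTop_nhds_zero_of_lt_one (by positivity)
        (inv_lt_one_of_one_lt₀ hℓ1)).comp (Filter.tendsto_add_atTop_nat 1)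
    have h10 := h9.const_mul (∑ j ∈ S, ‖c j‖)
    rw [mul_zero] at h10
    refine h10.congr fun n => ?_
    congr 1
    rw [inv_pow, _root_.zpow_neg]
    congr 1
  have h11 : ‖(D : ℚ_[ℓ]) * (A - B)‖ ≤ 0 := ge_of_tendsto' hlim hbound
  have h12 : (D : ℚ_[ℓ]) * (A - B) = 0 := norm_le_zero_iff.mp h11
  have h13 : (D : ℚ_[ℓ]) ≠ 0 := by exact_mod_cast hD0.ne'
  exact sub_eq_zero.mp ((mul_eq_zero.mp h12).resolve_left h13)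

end Pool.Agent.FJA
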