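import Pool.Agent.AUK.FJA.St2
import Pool.Agent.AUK.FJA.St3

/-!
# Module REA: null functionals vanish on the boundary of `BT`
-/

set_option autoImplicit false

open Matrix Pool.Agent.WhK Pool.Agent.Lib25

noncomputable section

namespace Pool.Agent.FJA

/-- **Module REA** -/
theorem t_REA (hkcb : S_KCB) (hkil : S_KIL) (hhtp : S_HTP) (hfvx : S_FVX) : S_REA := by
  intro k _ _ G _ n D e d T hT b κ hκ hch η N hη
  obtain ⟨c1, c2, c3, c4, c5⟩ := hkcb k G (n + 2)
  have key : ∀ j, TK k η N (bdK k _ (n + 2)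
      (kinK k _ (n + 3) (e j).n (DX (e j) (D.φ j) (T j) (D.w j)))) =
      - TS k η N (kinS (LaurentPolynomial (MonoidAlgebra ℤ G)) (n + 2) (e j).n
        (hmap ℚ (fun z => rhoC (e j) (D.φ j) z) (n + 2) (D.w j))) := by
    intro j
    rw [c3, c4, c5]
    have h1 := (hfvx k G (D.N j) (e j) (D.φ j) (d j) (T j) (hT j)).1
    have h2 := hhtp k (Cyc (D.N j)) G (Cen (D.φ j (gen (D.N j)))) (D.φ j)
      (Cen (D.φ j (gen (D.N j)))).subtype (e j).n (d j) (T j) n (D.w j) (D.mem j) η N hη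
    have h3 : (fun z : Cen (D.φ j (gen (D.N j))) => (XG (D.φ j) (T j))⁻¹ *
        dgU k (d j) ((Cen (D.φ j (gen (D.N j)))).subtype z) * XG (D.φ j) (T j)) =
        fV k (e j) (D.φ j) := by
      funext z
      exact (h1 z).symm
    have h4 : (fun z : Cen (D.φ j (gen (D.N j))) => (XG (D.φ j) (T j))⁻¹ *
        dgU k (d j) ((Cen (D.φ j (gen (D.N j)))).subtype z)) =
        fun z => fV k (e j) (D.φ j) z * (XG (D.φ j) (T j))⁻¹ := by
      funext z
      rw [h1 z, mul_inv_cancel_right]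
      rfl
    rw [h3, h4] at h2
    exact h2
  have h5 : TS k η N (D.ch e) = TS k η N (bdS (LaurentPolynomial (MonoidAlgebra ℤ G)) (n + 2) b) := by
    rw [hch, map_add, hkil k G (n + 2) N η hη κ hκ, add_zero]
  have h6 : TS k η N (D.ch e) = ∑ j ∈ D.s, D.q j •
      TS k η N (kinS (LaurentPolynomial (MonoidAlgebra ℤ G)) (n + 2) (e j).n
        (hmap ℚ (fun z => rhoC (e j) (D.φ j) z) (n + 2) (D.w j))) := by
    unfold Dat.ch
    rw [map_sum]
    refine Finset.sum_congr rfl fun j _ => ?_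
    rw [map_smul]
  unfold BT
  rw [map_add, map_add, c1, c2, ← h5, h6, map_sum, map_sum, ← Finset.sum_add_distrib]
  refine Finset.sum_eq_zero fun j _ => ?_
  rw [map_smul, map_smul, key j, smul_neg, add_neg_cancel]

end Pool.Agent.FJA
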