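import Pool.Agent.AUK.FJA.St2
import Pool.Agent.AUK.FJA.St3

/-!
# RLG: the Galois symmetry of the value on `BT` over `ℚ`
-/

set_option autoImplicit false

open Matrix Pool.Agent.WhK Pool.Agent.Lib25

noncomputable section

namespace Pool.Agent.FJA

namespace RLG

theorem mz_one {z : Multiplicative ℤ} {m : ℕ} (hm : 0 < m) (h : z ^ m = 1) : z = 1 := by
  have h1 : Multiplicative.toAdd (z ^ m) = 0 := by rw [h]; rfl
  rw [toAdd_pow, nsmul_eq_mul, mul_eq_zero] at h1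
  rcases h1 with h1 | h1
  · exact absurd (Nat.cast_eq_zero.1 h1) (Nat.pos_iff_ne_zero.1 hm)
  · exact Multiplicative.toAdd.injective h1

theorem torBd {G : Type} [Group G] {bG : ℕ} (h : TorBd G bG) :
    TorBd (G × Multiplicative ℤ) bG := by
  intro y hy
  obtain ⟨m, hm, h1⟩ := isOfFinOrder_iff_pow_eq_one.1 hy
  have h2 : y.2 = 1 := mz_one hm (by rw [← Prod.pow_snd, h1]; rfl)
  have h3 : y.1 ^ m = 1 := by rw [← Prod.pow_fst, h1]; rfl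
  have h4 : IsOfFinOrder y.1 := isOfFinOrder_iff_pow_eq_one.2 ⟨m, hm, h3⟩
  rw [Prod.orderOf, h2, orderOf_one, Nat.lcm_one_right]
  exact h y.1 h4

theorem powF_cup {G : Type} [Group G] {bG : ℕ} (htb : TorBd G bG) {m n0 a ℓ : ℕ} (hn0 : 0 < n0)
    (hℓ : ℓ.Prime) (hbG : bG < ℓ) (hmod : ℓ % n0 = a % n0) (F : (Fin (m + 1) → G) → G → ℚ)
    (hF : ∀ (x : Fin (m + 1) → G) (y : G), F x y ≠ 0 → orderOf y = n0) :
    powF (ℓ ^ 1) (cup F) = cup (twF n0 a F) := by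
  funext x y
  rw [pow_one]
  unfold powF cup
  by_cases h2 : y.2 = 1
  · have h3 : (y ^ ℓ).2 = 1 := by rw [Prod.pow_snd, h2, one_pow]
    rw [if_pos h2, if_pos h3, Prod.pow_fst]
    congr 1
    unfold twF
    by_cases h4 : orderOf y.1 = n0
    · rw [if_pos h4, ← pow_mod_orderOf y.1 ℓ, ← pow_mod_orderOf y.1 a, h4, hmod]
    · rw [if_neg h4]
      by_contra h5
      have h6 := hF _ _ h5
      have h7 : IsOfFinOrder (y.1 ^ ℓ) := orderOf_pos_iff.1 (by rw [h6]; exact hn0)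
      have h8 : IsOfFinOrder y.1 := by
        obtain ⟨k, hk, h9⟩ := isOfFinOrder_iff_pow_eq_one.1 h7
        exact isOfFinOrder_iff_pow_eq_one.2 ⟨ℓ * k, Nat.mul_pos hℓ.pos hk, by rw [pow_mul, h9]⟩
      have h9 : orderOf y.1 < ℓ := lt_of_le_of_lt (htb _ h8) hbG
      have h10 : (orderOf y.1).Coprime ℓ :=
        (Nat.coprime_of_lt_prime (orderOf_pos_iff.2 h8).ne' h9 hℓ).symm
      exact h4 (by rw [← h10.orderOf_pow, h6])
  · have h3 : ¬ (y ^ ℓ).2 = 1 := fun h => h2 (mz_one hℓ.pos (by rw [← Prod.pow_snd, h]))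
    rw [if_neg h2, if_neg h3]

theorem niu {P : Type} [Group P] {r : ℕ} {ℓ : ℕ} [Fact ℓ.Prime]
    (X : (Matrix (Fin r) (Fin r) (MonoidAlgebra ℚ P))ˣ)
    (h1 : NIM (X.val.map (MonoidAlgebra.mapRingHom P (algebraMap ℚ ℚ_[ℓ]))))
    (h2 : NIM ((X⁻¹).val.map (MonoidAlgebra.mapRingHom P (algebraMap ℚ ℚ_[ℓ])))) :
    NIU (mapU (algebraMap ℚ ℚ_[ℓ]) X) := by
  refine ⟨h1, ?_⟩
  rw [← map_inv]
  exact h2

end RLG

theorem t_RLG (hpdk : S_PDK) (hrea : S_REA) (hnib : S_NIB) (hmpb : S_MPB) (hint : S_INT)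
    (hcup : S_CUP) : S_RLG := by
  intro G _ bG htb n n0 hn0 a ha D e d X hX b κ hκ hch F hF
  choose B1 hB1 using fun j => hint.1 (Cyc (D.N j) × Multiplicative ℤ) (Fin (e j).n) (Fin (e j).n)
    (X j).val
  choose B2 hB2 using fun j => hint.1 (Cyc (D.N j) × Multiplicative ℤ) (Fin (e j).n) (Fin (e j).n)
    ((X j)⁻¹).val
  obtain ⟨ℓ, hℓ, hb, hmod⟩ := hint.2 n0 a (max bG (D.s.sup fun j => max (B1 j) (B2 j))) hn0 ha
  haveI : Fact ℓ.Prime := ⟨hℓ⟩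
  have hbG : bG < ℓ := lt_of_le_of_lt (le_max_left _ _) hb
  have hbj : ∀ j ∈ D.s, max (B1 j) (B2 j) < ℓ := fun j hj =>
    lt_of_le_of_lt (Finset.le_sup (f := fun j => max (B1 j) (B2 j)) hj)
      (lt_of_le_of_lt (le_max_right _ _) hb)
  have hNIU : ∀ j ∈ D.s, NIU (mapU (algebraMap ℚ ℚ_[ℓ]) (X j)) := fun j hj =>
    RLG.niu (X j) (hB1 j ℓ (lt_of_le_of_lt (le_max_left _ _) (hbj j hj)))
      (hB2 j ℓ (lt_of_le_of_lt (le_max_right _ _) (hbj j hj)))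
  obtain ⟨hm1, hm2, -⟩ := hmpb ℚ ℚ_[ℓ] (algebraMap ℚ ℚ_[ℓ])
  have hT : ∀ j, Trv ℚ_[ℓ] (e j) (d j) (mapU (algebraMap ℚ ℚ_[ℓ]) (X j)) := fun j =>
    hm2 (D.N j) (e j) (d j) (X j) (hX j)
  have hS : ∀ y : G, orderOf y = n0 → IsOfFinOrder y := fun y hy =>
    orderOf_pos_iff.1 (by rw [hy]; exact hn0)
  have hco : Coch (sg2 G) (n + 2) (cup F) := (hcup G (n + 1) F).2 _ hS hF
  have h1 := hpdk (G × Multiplicative ℤ) (sg2 G) bG (RLG.torBd htb) ℓ (n + 2) (cup F) hco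
    (BT ℚ_[ℓ] D e b fun j => mapU (algebraMap ℚ ℚ_[ℓ]) (X j))
    (hnib ℓ G n D e _ b hNIU)
    (fun η hη N _ => hrea ℚ_[ℓ] G n D e d _ hT b κ hκ hch η N hη) 1
  rw [RLG.powF_cup htb hn0 hℓ hbG hmod F hF.supp] at h1
  rw [hm1 G n D e X b, hm1 G n D e X b] at h1
  exact ((algebraMap ℚ ℚ_[ℓ]).injective h1).symm

end Pool.Agent.FJA
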