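import Pool.Agent.AUK.FJA.St2

/-!
# FVX: the matrices `z e + 1 - e` in terms of a trivialisation
-/

set_option autoImplicit false

open Matrix Pool.Agent.WhK Pool.Agent.Lib25

noncomputable section

namespace Pool.Agent.FJA

namespace FVX

/-- a central factor -/
theorem mul_smul_comm' {S : Type} [Ring S] {ι : Type} [Fintype ι] (A B : Matrix ι ι S) (u : S)
    (h : ∀ i j, Commute u (A i j)) : A * (u • B) = u • (A * B) := by
  ext i j
  rw [Matrix.mul_apply, Matrix.smul_apply, Matrix.mul_apply, smul_eq_mul, Finset.mul_sum]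
  refine Finset.sum_congr rfl fun l _ => ?_
  rw [Matrix.smul_apply, smul_eq_mul, ← mul_assoc, ← mul_assoc, (h i l).eq]

variable {k : Type} [Field k] [CharZero k]

omit [CharZero k] in
theorem mdr_single {C G : Type} [Group C] [Group G] (f : C →* G) (c : C) (r : k) :
    MonoidAlgebra.mapDomainRingHom k f (MonoidAlgebra.single c r) =
      MonoidAlgebra.single (f c) r := by
  change MonoidAlgebra.mapDomain _ (MonoidAlgebra.single c r) = _
  rw [MonoidAlgebra.mapDomain_single]

omit [CharZero k] in
/-- the image of `k[C × Z']` commutes with the elements which commute with the image of `C` -/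
theorem commute_map {C G : Type} [Group C] [Group G] (φ : C →* G) (z : G)
    (hz : ∀ c, Commute z (φ c)) (x : MonoidAlgebra k (C × Multiplicative ℤ)) :
    Commute (MonoidAlgebra.single ((z, 1) : G × Multiplicative ℤ) (1 : k))
      (MonoidAlgebra.mapDomainRingHom k
        (MonoidHom.prodMap φ (MonoidHom.id (Multiplicative ℤ))) x) := by
  induction x using MonoidAlgebra.induction_linear with
  | zero => rw [map_zero]; exact Commute.zero_right _
  | add x y hx hy => rw [map_add]; exact hx.add_right hy
  | single c r =>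
    rw [mdr_single]
    change _ * _ = _ * _
    rw [MonoidAlgebra.single_mul_single, MonoidAlgebra.single_mul_single, mul_one, one_mul]
    congr 1
    ext
    · exact (hz c.1).eq
    · change 1 * c.2 = c.2 * 1
      rw [mul_one, one_mul]

omit [CharZero k] in
/-- functoriality of `glG` -/
theorem glG_comp {Γ1 Γ2 Γ3 : Type} [Group Γ1] [Group Γ2] [Group Γ3] (f : Γ1 →* Γ2) (g : Γ2 →* Γ3)
    {ι : Type} [Fintype ι] [DecidableEq ι] (X : (Matrix ι ι (MonoidAlgebra k Γ1))ˣ) :
    glG g (glG f X) = glG (g.comp f) X := by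
  apply Units.ext
  ext1 i j
  change MonoidAlgebra.mapDomainRingHom k g (MonoidAlgebra.mapDomainRingHom k f (X.val i j)) =
    MonoidAlgebra.mapDomainRingHom k (g.comp f) (X.val i j)
  generalize X.val i j = x
  induction x using MonoidAlgebra.induction_linear with
  | zero => rw [map_zero, map_zero, map_zero]
  | add x y hx hy => rw [map_add, map_add, map_add, hx, hy]
  | single c r => rw [mdr_single, mdr_single, mdr_single]; rfl

omit [CharZero k] in
theorem glG_dgU {P G : Type} [Group P] [Group G] (f : P →* G) {r : ℕ} (d : Fin r → Bool) (z : P) :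
    glG (MonoidHom.prodMap f (MonoidHom.id (Multiplicative ℤ))) (dgU k d z) = dgU k d (f z) := by
  apply Units.ext
  ext1 i j
  change MonoidAlgebra.mapDomainRingHom k _ ((Matrix.diagonal fun a =>
    if d a then MonoidAlgebra.single ((z, 1) : P × Multiplicative ℤ) (1 : k) else 1) i j) =
    (Matrix.diagonal fun a =>
      if d a then MonoidAlgebra.single ((f z, 1) : G × Multiplicative ℤ) (1 : k) else 1) i j
  by_cases hij : i = j
  · subst hij
    rw [Matrix.diagonal_apply_eq, Matrix.diagonal_apply_eq]
    split_ifs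
    · rw [mdr_single]
      rfl
    · rw [map_one]
  · rw [Matrix.diagonal_apply_ne _ hij, Matrix.diagonal_apply_ne _ hij, map_zero]

/-- the first claim -/
theorem main (hlau : S_LAU) {G : Type} [Group G] {N : ℕ}
    (e : IdemMat (LaurentPolynomial (MonoidAlgebra ℤ (Cyc N)))) (φ : Cyc N →* G)
    (d : Fin e.n → Bool)
    (X : (Matrix (Fin e.n) (Fin e.n) (MonoidAlgebra k (Cyc N × Multiplicative ℤ)))ˣ)
    (hX : Trv k e d X) (z : Cen (φ (gen N))) :
    fV k e φ z = (XG φ X)⁻¹ * dgU k d (z : G) * XG φ X := by
  obtain ⟨-, hnat, helt, -⟩ := hlau k G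
  have hcom : ∀ c, Commute (z : G) (φ c) := commute_cyc φ z
  let h : MonoidAlgebra k (Cyc N × Multiplicative ℤ) →+* MonoidAlgebra k (G × Multiplicative ℤ) :=
    MonoidAlgebra.mapDomainRingHom k (MonoidHom.prodMap φ (MonoidHom.id (Multiplicative ℤ)))
  let u : MonoidAlgebra k (G × Multiplicative ℤ) := MonoidAlgebra.single ((z : G), 1) 1
  let E : Matrix (Fin e.n) (Fin e.n) (MonoidAlgebra k (G × Multiplicative ℤ)) :=
    (e.mat.map (lauZ k (Cyc N))).map h
  have hXv : (XG φ X).val = X.val.map h := rfl
  have hu : ∀ i j, Commute u ((XG φ X).val i j) := fun i j => commute_map φ (z : G) hcom _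
  -- the trivialisation
  have h1 : (XG φ X).val * E = dg k d * (XG φ X).val := by
    have h2 : (X.val * e.mat.map (lauZ k (Cyc N))).map h = (dg k d * X.val).map h :=
      congrArg (fun M : Matrix (Fin e.n) (Fin e.n)
        (MonoidAlgebra k (Cyc N × Multiplicative ℤ)) => M.map h) hX
    rw [Matrix.map_mul, Matrix.map_mul] at h2
    rw [hXv]
    refine h2.trans ?_
    congr 1
    unfold dg
    rw [Matrix.diagonal_map (map_zero h)]
    congr 1
    funext a
    change h (if d a then 1 else 0) = if d a then 1 else 0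
    split_ifs
    · exact map_one h
    · exact map_zero h
  -- the value of `fV`
  have h3 : (fV k e φ z).val = u • E + (1 - E) := by
    have h4 : ((e.mat.map (gmap φ)).map (lauZ k G)) = E := by
      ext1 i j
      exact hnat (Cyc N) φ (e.mat i j)
    rw [← h4]
    ext1 i j
    change lauZ k G ((rhoMat (e.mat.map (gmap φ)) (elt (z : G))) i j) = _
    unfold rhoMat
    rw [Matrix.add_apply, Matrix.smul_apply, Matrix.sub_apply, smul_eq_mul, map_add, map_mul,
      map_sub, helt, Matrix.add_apply, Matrix.smul_apply, Matrix.sub_apply, smul_eq_mul,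
      Matrix.map_apply (M := e.mat.map (gmap φ))]
    congr 2
    by_cases hij : i = j
    · subst hij
      rw [Matrix.one_apply_eq, Matrix.one_apply_eq, map_one]
    · rw [Matrix.one_apply_ne hij, Matrix.one_apply_ne hij, map_zero]
  -- the diagonal matrix
  have h5 : (dgU k d (z : G)).val = u • dg k d + (1 - dg k d) := by
    ext1 i j
    change (Matrix.diagonal fun a =>
      if d a then MonoidAlgebra.single (((z : G), 1) : G × Multiplicative ℤ) (1 : k) else 1) i j = _
    unfold dg
    rw [Matrix.add_apply, Matrix.smul_apply, Matrix.sub_apply, smul_eq_mul]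
    by_cases hij : i = j
    · subst hij
      rw [Matrix.diagonal_apply_eq, Matrix.diagonal_apply_eq, Matrix.one_apply_eq]
      split_ifs
      · rw [mul_one, sub_self, add_zero]
      · rw [mul_zero, sub_zero, zero_add]
    · rw [Matrix.diagonal_apply_ne _ hij, Matrix.diagonal_apply_ne _ hij, Matrix.one_apply_ne hij,
        mul_zero, sub_zero, add_zero]
  have h6 : (XG φ X).val * (fV k e φ z).val = (dgU k d (z : G)).val * (XG φ X).val := by
    rw [h3, h5, mul_add, mul_sub, mul_one, mul_smul_comm' _ _ _ hu, h1, add_mul, sub_mul, one_mul,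
      Matrix.smul_mul]
  have h7 : XG φ X * fV k e φ z = dgU k d (z : G) * XG φ X := Units.ext h6
  rw [mul_assoc, ← h7, inv_mul_cancel_left]

end FVX

open FVX in
theorem t_FVX (hlau : S_LAU) : S_FVX := by
  intro k _ _ G _ N e φ d X hX
  refine ⟨main hlau e φ d X hX, ?_⟩
  have hmem : ∀ c, φ c ∈ Cen (φ (gen N)) := by
    intro c
    rw [Subgroup.mem_centralizer_singleton_iff, ← map_mul, ← map_mul, mul_comm]
  let ψ : Cyc N →* Cen (φ (gen N)) := φ.codRestrict (Cen (φ (gen N))) hmem
  have hψ : ∀ c, (ψ c : G) = φ c := fun c => rfl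
  have hXG : glG (MonoidHom.prodMap (Cen (φ (gen N))).subtype
      (MonoidHom.id (Multiplicative ℤ))) (XG ψ X) = XG φ X := by
    unfold XG
    rw [glG_comp]
    rfl
  have hdg : ∀ z : Cen (φ (gen N)), glG (MonoidHom.prodMap (Cen (φ (gen N))).subtype
      (MonoidHom.id (Multiplicative ℤ))) (dgU k d z) = dgU k d (z : G) := fun z =>
    glG_dgU (Cen (φ (gen N))).subtype d z
  refine ⟨ψ, hψ, fun c z => ?_, fun z => ?_, fun z => ?_⟩
  · apply Subtype.ext
    exact (commute_cyc φ z c).symm.eq
  · rw [map_mul, map_mul, map_inv, hXG, hdg, main hlau e φ d X hX]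
  · rw [map_mul, map_inv, hXG, hdg, main hlau e φ d X hX, mul_assoc, mul_inv_cancel, mul_one]

end Pool.Agent.FJA
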