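import Pool.Agent.AUK.FJA.St1

/-!
# Module TXA: linearity, left invariance and faces of the trace of a simplex
-/

set_option autoImplicit false

open Matrix

namespace Pool.Agent.FJA

universe u v w x

namespace TXA

theorem lin_add_fun (k : Type*) [Field k] [CharZero k] {M : Type*} (φ φ' : M → ℚ)
    (z : MonoidAlgebra k M) :
    lin k (fun μ => φ μ + φ' μ) z = lin k φ z + lin k φ' z := by
  induction z using MonoidAlgebra.induction_linear with
  | zero => simp only [map_zero, add_zero]
  | add a b ha hb =>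
    rw [map_add, map_add, map_add, ha, hb]
    ring
  | single m r =>
    rw [lin_single, lin_single, lin_single]
    push_cast
    ring

theorem lin_smul_fun (k : Type*) [Field k] [CharZero k] {M : Type*} (c : ℚ) (φ : M → ℚ)
    (z : MonoidAlgebra k M) :
    lin k (fun μ => c * φ μ) z = (c : k) * lin k φ z := by
  induction z using MonoidAlgebra.induction_linear with
  | zero => simp only [map_zero, mul_zero]
  | add a b ha hb =>
    rw [map_add, map_add, ha, hb]
    ring
  | single m r =>
    rw [lin_single, lin_single]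
    push_cast
    ring

theorem lin_comp (k : Type*) [Field k] {M N : Type*} (φ : N → ℚ) (f : M → N)
    (z : MonoidAlgebra k M) :
    lin k (fun μ => φ (f μ)) z = lin k φ (MonoidAlgebra.mapDomain f z) := by
  induction z using MonoidAlgebra.induction_linear with
  | zero => simp only [map_zero, MonoidAlgebra.mapDomain_zero]
  | add a b ha hb =>
    rw [MonoidAlgebra.mapDomain_add, map_add, map_add, ha, hb]
  | single m r =>
    rw [MonoidAlgebra.mapDomain_single, lin_single, lin_single]

theorem prod_conj {R : Type*} [Monoid R] (a b : R) (hab : a * b = 1) (hba : b * a = 1)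
    (l : List R) : (l.map fun t => a * t * b).prod = a * l.prod * b := by
  induction l with
  | nil => simp [hab]
  | cons t l ih =>
    rw [List.map_cons, List.prod_cons, List.prod_cons, ih]
    calc a * t * b * (a * l.prod * b) = a * t * (b * a) * l.prod * b := by
          simp only [mul_assoc]
      _ = a * (t * l.prod) * b := by
          rw [hba, mul_one]
          simp only [mul_assoc]

theorem prod_ofFn_succAbove {R : Type*} [Monoid R] : ∀ {M : ℕ} (f : Fin (M + 1) → R)
    (i : Fin (M + 1)), f i = 1 →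
    (List.ofFn f).prod = (List.ofFn fun t => f (i.succAbove t)).prod := by
  intro M
  induction M with
  | zero =>
    intro f i hi
    have hi0 : i = 0 := Fin.ext (by omega)
    subst hi0
    simp [hi]
  | succ M ih =>
    intro f i hi
    induction i using Fin.cases with
    | zero =>
      rw [List.ofFn_succ, List.prod_cons, hi, one_mul]
      simp only [Fin.zero_succAbove]
    | succ i =>
      rw [List.ofFn_succ, List.prod_cons, ih (fun t => f t.succ) i hi, List.ofFn_succ,
        List.prod_cons]
      simp only [Fin.succ_succAbove_zero, Fin.succ_succAbove_succ]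

section

variable {k : Type w} [Field k] {Γ : Type u} [Group Γ] {ι : Type x} [Fintype ι] [DecidableEq ι]

theorem lin_comm {V : Type v} (φ : Rec Γ V → ℚ) (hφ : CjInv φ) (a : MonoidAlgebra k Γ)
    (z : MonoidAlgebra k (Rec Γ V)) :
    lin k φ (MonoidAlgebra.mapDomainRingHom k (Rec.inc (Γ := Γ) (V := V)) a * z) =
      lin k φ (z * MonoidAlgebra.mapDomainRingHom k (Rec.inc (Γ := Γ) (V := V)) a) := by
  induction a using MonoidAlgebra.induction_linear with
  | zero => simp only [map_zero, zero_mul, mul_zero]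
  | add a b ha hb => rw [map_add, add_mul, mul_add, map_add, map_add, ha, hb]
  | single γ r =>
    induction z using MonoidAlgebra.induction_linear with
    | zero => simp only [map_zero, zero_mul, mul_zero]
    | add a b ha hb => rw [mul_add, add_mul, map_add, map_add, ha, hb]
    | single μ s =>
      have h1 : MonoidAlgebra.mapDomainRingHom k (Rec.inc (Γ := Γ) (V := V))
          (MonoidAlgebra.single γ r) = MonoidAlgebra.single (Rec.inc γ) r :=
        MonoidAlgebra.mapDomain_single
      rw [h1, MonoidAlgebra.single_mul_single, MonoidAlgebra.single_mul_single, lin_single,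
        lin_single, hφ γ μ, mul_comm r s]

theorem lin_trace_comm {V : Type v} (φ : Rec Γ V → ℚ) (hφ : CjInv φ)
    (A : Matrix ι ι (MonoidAlgebra k Γ)) (Z : Matrix ι ι (MonoidAlgebra k (Rec Γ V))) :
    lin k φ (Matrix.trace (jm k V A * Z)) = lin k φ (Matrix.trace (Z * jm k V A)) := by
  simp only [Matrix.trace, Matrix.diag_apply, Matrix.mul_apply, map_sum]
  rw [Finset.sum_comm]
  refine Finset.sum_congr rfl fun a _ => Finset.sum_congr rfl fun b _ => ?_
  exact lin_comm φ hφ (A b a) (Z a b)

theorem UX_smul {M : ℕ} (g : (Matrix ι ι (MonoidAlgebra k Γ))ˣ)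
    (X : Fin M → (Matrix ι ι (MonoidAlgebra k Γ))ˣ) :
    UX (fun i => g * X i) = jm k (Fin M) (g : Matrix ι ι (MonoidAlgebra k Γ)) * UX X *
      jm k (Fin M) ((g⁻¹ : (Matrix ι ι (MonoidAlgebra k Γ))ˣ)) := by
  unfold UX
  rw [← prod_conj _ _ (by rw [← map_mul, Units.mul_inv, map_one])
    (by rw [← map_mul, Units.inv_mul, map_one]), List.map_ofFn]
  congr 2
  funext i
  simp only [Function.comp_apply, Units.val_mul, _root_.mul_inv_rev, map_mul, mul_assoc]

end

end TXA

open TXA

theorem t_TXlin : S_TXlin.{u, w, x} := by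
  intro k _ _ Γ _ ι _ _ M N X
  exact ⟨fun φ φ' => lin_add_fun k φ φ' _, fun c φ => lin_smul_fun k c φ _⟩

theorem t_TXinv : S_TXinv.{u, w, x} := by
  intro k _ _ Γ _ ι _ _ M N φ hφ g X
  unfold TX
  rw [UX_smul]
  have hpow : ∀ n : ℕ, (jm k (Fin M) (g : Matrix ι ι (MonoidAlgebra k Γ)) * UX X *
      jm k (Fin M) ((g⁻¹ : (Matrix ι ι (MonoidAlgebra k Γ))ˣ))) ^ n =
      jm k (Fin M) (g : Matrix ι ι (MonoidAlgebra k Γ)) * (UX X ^ n *
      jm k (Fin M) ((g⁻¹ : (Matrix ι ι (MonoidAlgebra k Γ))ˣ))) := by
    intro n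
    have hab : jm k (Fin M) (g : Matrix ι ι (MonoidAlgebra k Γ)) *
        jm k (Fin M) ((g⁻¹ : (Matrix ι ι (MonoidAlgebra k Γ))ˣ)) = 1 := by
      rw [← map_mul, Units.mul_inv, map_one]
    have hba : jm k (Fin M) ((g⁻¹ : (Matrix ι ι (MonoidAlgebra k Γ))ˣ)) *
        jm k (Fin M) (g : Matrix ι ι (MonoidAlgebra k Γ)) = 1 := by
      rw [← map_mul, Units.inv_mul, map_one]
    have h := prod_conj _ _ hab hba (List.replicate n (UX X))
    rw [List.map_replicate, List.prod_replicate, List.prod_replicate] at h
    rw [h, mul_assoc]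
  rw [hpow, lin_trace_comm φ hφ, mul_assoc, ← map_mul, Units.inv_mul, map_one, mul_one]

theorem t_TXfac : S_TXfac.{u, w, x} := by
  intro k _ _ Γ _ ι _ _ M N φ i X
  unfold TX
  rw [lin_comp]
  set θ : Rec Γ (Fin (M + 1)) →* Rec Γ (Fin M) := Rec.res i.succAbove with hθ
  set Θ : Matrix ι ι (MonoidAlgebra k (Rec Γ (Fin (M + 1)))) →+*
    Matrix ι ι (MonoidAlgebra k (Rec Γ (Fin M))) :=
      (MonoidAlgebra.mapDomainRingHom k θ).mapMatrix with hΘ
  have htr : ∀ Z : Matrix ι ι (MonoidAlgebra k (Rec Γ (Fin (M + 1)))),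
      MonoidAlgebra.mapDomain θ (Matrix.trace Z) = Matrix.trace (Θ Z) := by
    intro Z
    change MonoidAlgebra.mapDomainRingHom k θ (Matrix.trace Z) = _
    simp only [Matrix.trace, Matrix.diag_apply, map_sum]
    rfl
  have hJ : ∀ A : Matrix ι ι (MonoidAlgebra k Γ), Θ (jm k (Fin (M + 1)) A) = jm k (Fin M) A := by
    intro A
    ext1 a b
    change MonoidAlgebra.mapDomainRingHom k θ (MonoidAlgebra.mapDomainRingHom k Rec.inc (A a b)) =
      MonoidAlgebra.mapDomainRingHom k Rec.inc (A a b)
    rw [← RingHom.comp_apply, ← MonoidAlgebra.mapDomainRingHom_comp]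
    rfl
  have hw : ∀ v : Fin (M + 1), Θ (wm k ι v) =
      Matrix.diagonal fun _ => MonoidAlgebra.single (θ (Rec.om v)) 1 := by
    intro v
    rw [hΘ, RingHom.mapMatrix_apply, wm, Matrix.diagonal_map (map_zero _)]
    congr 1
    funext _
    exact MonoidAlgebra.mapDomain_single
  have hwi : Θ (wm k ι i) = 1 := by
    rw [hw, hθ, Rec.res_om_of_ne _ _ (fun t => Fin.succAbove_ne i t)]
    rfl
  have hwt : ∀ t : Fin M, Θ (wm k ι (i.succAbove t)) = wm k ι t := by
    intro t
    rw [hw, hθ, Rec.res_om _ Fin.succAbove_right_injective]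
    rfl
  have hU : Θ (UX X) = UX (fun t => X (i.succAbove t)) := by
    unfold UX
    rw [map_list_prod, List.map_ofFn, prod_ofFn_succAbove _ i]
    · congr 2
      funext t
      simp only [Function.comp_apply, map_mul, hJ, hwt]
    · simp only [Function.comp_apply, map_mul, hJ, hwi, mul_one]
      rw [← map_mul, Units.mul_inv, map_one]
  have h2 := htr (UX X ^ N)
  rw [map_pow, hU] at h2
  rw [h2]

end Pool.Agent.FJA
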