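import Pool.Agent.AUK.FJA.P_ONE
import Pool.Agent.AUK.FJA.P_TXA
import Pool.Agent.AUK.FJA.P_TXB
import Pool.Agent.AUK.FJA.P_TXD
import Pool.Agent.AUK.FJA.St2

/-!
# Module KIL: null functionals vanish on the killed chains
-/

set_option autoImplicit false

open Matrix Pool.Agent.WhK Pool.Agent.Lib25

noncomputable section

namespace Pool.Agent.FJA

namespace KIL

theorem TS_single (k : Type) [Field k] [CharZero k] {G : Type} [Group G] {M : ℕ}
    (φ : Rec (G × Multiplicative ℤ) (Fin M) → ℚ) (N r : ℕ)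
    (X : Fin M → GLn (LaurentPolynomial (MonoidAlgebra ℤ G)) r) :
    TS k φ N (Finsupp.single ⟨r, X⟩ 1) = TX φ N fun i => cvt k r (X i) := by
  unfold TS
  rw [Finsupp.linearCombination_single, one_smul]

theorem map_bs {R S : Type} [Ring R] [Ring S] (f : R →+* S) {a b : ℕ}
    (A : Matrix (Fin a) (Fin a) R) (B : Matrix (Fin b) (Fin b) R) :
    (((Matrix.fromBlocks A 0 0 B).submatrix finSumFinEquiv.symm finSumFinEquiv.symm).map f) =
      (Matrix.fromBlocks (A.map f) 0 0 (B.map f)).submatrix finSumFinEquiv.symm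
        finSumFinEquiv.symm := by
  rw [← Matrix.submatrix_map, Matrix.fromBlocks_map, Matrix.map_zero _ (map_zero _),
    Matrix.map_zero _ (map_zero _)]

theorem cvt_bsum (k : Type) [Field k] {G : Type} [Group G] (a b : ℕ)
    (A : GLn (LaurentPolynomial (MonoidAlgebra ℤ G)) a)
    (B : GLn (LaurentPolynomial (MonoidAlgebra ℤ G)) b) :
    cvt k (a + b) (bsumHom (LaurentPolynomial (MonoidAlgebra ℤ G)) a b (A, B)) =
      rix (R := MonoidAlgebra k (G × Multiplicative ℤ)) finSumFinEquiv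
        (blk (cvt k a A) (cvt k b B)) := by
  apply Units.ext
  exact map_bs (lauZ k G) A.val B.val

end KIL

open KIL in
theorem t_KIL (hlau : S_LAU) : S_KIL := by
  intro k _ _ G _ M N η hη x hx
  obtain ⟨-, -, -, hpos, hneg, -⟩ := hlau k G
  refine Submodule.span_induction (p := fun x _ => TS k η N x = 0) ?_ (map_zero _)
    (fun x y _ _ hx hy => by rw [map_add, hx, hy, add_zero])
    (fun c x _ hx => by rw [map_smul, hx, smul_zero]) hx
  rintro x (((⟨r, g, X, rfl⟩ | ⟨a, b, A, B, rfl⟩) | ⟨r, Y, rfl⟩) | ⟨r, Y, rfl⟩)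
  · rw [map_sub, TS_single, TS_single]
    have h1 : (fun i => cvt k r (g * X i)) = fun i => cvt k r g * cvt k r (X i) := by
      funext i
      exact map_mul _ _ _
    rw [h1, t_TXinv k _ _ M N η hη.cj (cvt k r g) (fun i => cvt k r (X i)), sub_self]
  · rw [map_sub, map_sub, TS_single, TS_single, TS_single]
    have h1 : (fun i => cvt k (a + b)
        (bsumHom (LaurentPolynomial (MonoidAlgebra ℤ G)) a b (A i, B i))) =
        fun i => rix (R := MonoidAlgebra k (G × Multiplicative ℤ)) finSumFinEquiv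
          (blk (cvt k a (A i)) (cvt k b (B i))) := by
      funext i
      exact cvt_bsum k a b _ _
    rw [h1, t_TXrix k _ _ _ finSumFinEquiv M N η (fun i => blk (cvt k a (A i)) (cvt k b (B i))),
      t_TXblk k _ _ _ M N η]
    ring
  · rw [TS_single]
    refine t_ONE t_TXsup k _ (sg2 G) _ M N η _ hη (Or.inl ⟨?_, ?_⟩)
    · intro i a b γ hγ
      exact hpos ((Y i).val a b) γ.1 γ.2 hγ
    · intro i a b γ hγ
      exact hpos ((Y i)⁻¹.val a b) γ.1 γ.2 hγ
  · rw [TS_single]
    refine t_ONE t_TXsup k _ (sg2 G) _ M N η _ hη (Or.inr ⟨?_, ?_⟩)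
    · intro i a b γ hγ
      exact hneg ((Y i).val a b) γ.1 γ.2 hγ
    · intro i a b γ hγ
      exact hneg ((Y i)⁻¹.val a b) γ.1 γ.2 hγ

end Pool.Agent.FJA
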