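import Pool.Agent.AUK.FJA.St2

/-!
# Module LAU: from Laurent polynomials to the group algebra of `G × Z'`
-/

set_option autoImplicit false

open Matrix Pool.Agent.WhK Pool.Agent.Lib25

noncomputable section

namespace Pool.Agent.FJA

namespace LAU

/-- Induction over Laurent polynomials with coefficients in a monoid algebra. -/
theorem ind {R G : Type} [Ring R] [Group G] {P : LaurentPolynomial (MonoidAlgebra R G) → Prop}
    (h0 : P 0) (hadd : ∀ x y, P x → P y → P (x + y))
    (hs : ∀ (n : ℤ) (g : G) (c : R), P (AddMonoidAlgebra.single n (MonoidAlgebra.single g c)))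
    (x : LaurentPolynomial (MonoidAlgebra R G)) : P x := by
  induction x using AddMonoidAlgebra.induction_linear with
  | zero => exact h0
  | add x y hx hy => exact hadd x y hx hy
  | single n a =>
    induction a using MonoidAlgebra.induction_linear with
    | zero =>
      rw [AddMonoidAlgebra.single_zero]
      exact h0
    | add a b ha hb =>
      rw [AddMonoidAlgebra.single_add]
      exact hadd _ _ ha hb
    | single g c => exact hs n g c

theorem mapDomain_apply_single {k G G' : Type} [Semiring k] [Monoid G] [Monoid G'] (f : G →* G')
    (g : G) (c : k) : MonoidAlgebra.mapDomainRingHom k f (MonoidAlgebra.single g c) =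
      MonoidAlgebra.single (f g) c := by
  change MonoidAlgebra.mapDomain _ (MonoidAlgebra.single g c) = _
  rw [MonoidAlgebra.mapDomain_single]

theorem lau_single (k G : Type) [Field k] [Group G] (n : ℤ) (g : G) (c : k) :
    lau k G (AddMonoidAlgebra.single n (MonoidAlgebra.single g c)) =
      MonoidAlgebra.single (g, Multiplicative.ofAdd n) c := by
  have h : lau k G (AddMonoidAlgebra.single n (MonoidAlgebra.single g c)) =
      MonoidAlgebra.mapDomainRingHom k (MonoidHom.inl G (Multiplicative ℤ))
        (MonoidAlgebra.single g c) *
        MonoidAlgebra.single ((1 : G), Multiplicative.ofAdd n) (1 : k) :=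
    AddMonoidAlgebra.liftNC_single _ _ _ _
  rw [h, mapDomain_apply_single, MonoidAlgebra.single_mul_single, mul_one]
  congr 1
  ext
  · simp
  · simp

theorem lauZ_single (k G : Type) [Field k] [Group G] (n : ℤ) (g : G) (c : ℤ) :
    lauZ k G (AddMonoidAlgebra.single n (MonoidAlgebra.single g c)) =
      MonoidAlgebra.single (g, Multiplicative.ofAdd n) (c : k) := by
  unfold lauZ
  rw [RingHom.comp_apply, mapL_single, MonoidAlgebra.mapRingHom_single, lau_single]
  rfl

theorem coeff_single_eq {k M : Type} [Semiring k] {μ ν : M} (h : μ = ν) (c : k) :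
    (MonoidAlgebra.single μ c).coeff ν = c := by
  classical
  rw [MonoidAlgebra.coeff_single, Finsupp.single_apply, if_pos h]

theorem coeff_single_ne {k M : Type} [Semiring k] {μ ν : M} (h : μ ≠ ν) (c : k) :
    (MonoidAlgebra.single μ c).coeff ν = 0 := by
  classical
  rw [MonoidAlgebra.coeff_single, Finsupp.single_apply, if_neg h]

theorem coeffs {k : Type} [Field k] {G : Type} [Group G]
    (x : LaurentPolynomial (MonoidAlgebra k G)) (g : G) (a : Multiplicative ℤ) :
    (lau k G x).coeff (g, a) = (x.coeff (Multiplicative.toAdd a)).coeff g := by
  classical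
  induction x using ind with
  | h0 => simp
  | hadd x y hx hy =>
    rw [map_add, MonoidAlgebra.coeff_add, AddMonoidAlgebra.coeff_add, Finsupp.add_apply,
      Finsupp.add_apply, hx, hy, MonoidAlgebra.coeff_add, Finsupp.add_apply]
  | hs n h c =>
    rw [lau_single, AddMonoidAlgebra.coeff_single, Finsupp.single_apply]
    by_cases hn : n = Multiplicative.toAdd a
    · rw [if_pos hn]
      by_cases hg : h = g
      · rw [coeff_single_eq hg, coeff_single_eq]
        subst hg hn
        rfl
      · rw [coeff_single_ne hg, coeff_single_ne]
        intro e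
        exact hg (congrArg Prod.fst e)
    · rw [if_neg hn, coeff_single_ne]
      · rfl
      · intro e
        apply hn
        have h2 : Multiplicative.ofAdd n = a := congrArg Prod.snd e
        rw [← h2]
        rfl

/-- the coefficients with a given property of the exponent vanish -/
def Van {k G : Type} [Field k] [Group G] (Q : ℤ → Prop)
    (y : MonoidAlgebra k (G × Multiplicative ℤ)) : Prop :=
  ∀ (g : G) (a : Multiplicative ℤ), Q (Multiplicative.toAdd a) → y.coeff (g, a) = 0

theorem van_single {k : Type} [Field k] {G : Type} [Group G] {Q : ℤ → Prop} {n : ℤ}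
    (hn : ¬ Q n) (b : MonoidAlgebra ℤ G) : Van Q (lauZ k G (AddMonoidAlgebra.single n b)) := by
  intro g a ha
  induction b using MonoidAlgebra.induction_linear with
  | zero =>
    rw [AddMonoidAlgebra.single_zero, map_zero]
    rfl
  | add b b' hb hb' =>
    rw [AddMonoidAlgebra.single_add, map_add, MonoidAlgebra.coeff_add, Finsupp.add_apply, hb, hb',
      add_zero]
  | single h c =>
    rw [lauZ_single, coeff_single_ne]
    intro e
    apply hn
    have h2 : Multiplicative.ofAdd n = a := congrArg Prod.snd e
    rw [← h2] at ha
    exact ha

theorem van_pos {k : Type} [Field k] {G : Type} [Group G] (x : Polynomial (MonoidAlgebra ℤ G)) :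
    Van (fun n => n < 0) (lauZ k G (posIncl _ x)) := by
  induction x using Polynomial.induction_on' with
  | add x y hx hy =>
    intro g a ha
    rw [map_add, map_add, MonoidAlgebra.coeff_add, Finsupp.add_apply, hx g a ha, hy g a ha,
      add_zero]
  | monomial n b =>
    rw [posIncl_monomial]
    exact van_single (by omega) b

theorem van_neg {k : Type} [Field k] {G : Type} [Group G] (x : Polynomial (MonoidAlgebra ℤ G)) :
    Van (fun n => 0 < n) (lauZ k G (negIncl _ x)) := by
  induction x using Polynomial.induction_on' with
  | add x y hx hy =>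
    intro g a ha
    rw [map_add, map_add, MonoidAlgebra.coeff_add, Finsupp.add_apply, hx g a ha, hy g a ha,
      add_zero]
  | monomial n b =>
    unfold negIncl
    rw [RingHom.comp_apply, posIncl_monomial, flipT_single]
    exact van_single (by omega) b

end LAU

open LAU

theorem t_LAU : S_LAU := by
  intro k _ _ G _
  refine ⟨coeffs, ?_, ?_, ?_, ?_, ?_⟩
  · intro C _ φ x
    induction x using ind with
    | h0 => simp only [map_zero]
    | hadd x y hx hy => simp only [map_add, hx, hy]
    | hs n c z =>
      have h1 : gmap φ (AddMonoidAlgebra.single n (MonoidAlgebra.single c z)) =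
          AddMonoidAlgebra.single n (MonoidAlgebra.single (φ c) z) := by
        unfold gmap
        rw [mapL_single, mapDomain_apply_single]
      rw [h1, lauZ_single, lauZ_single, mapDomain_apply_single]
      rfl
  · intro z
    have h1 : (elt z : LaurentPolynomial (MonoidAlgebra ℤ G)) =
        AddMonoidAlgebra.single 0 (MonoidAlgebra.single z 1) := rfl
    rw [h1, lauZ_single, Int.cast_one]
    rfl
  · intro x g a h
    by_contra hc
    exact h (van_pos x g a (not_le.1 hc))
  · intro x g a h
    by_contra hc
    exact h (van_neg x g a (not_le.1 hc))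
  · intro k' _ _ f x
    induction x using ind with
    | h0 => simp only [map_zero]
    | hadd x y hx hy => simp only [map_add, hx, hy]
    | hs n c z => rw [lauZ_single, lauZ_single, MonoidAlgebra.mapRingHom_single, map_intCast]

theorem t_LAUint : S_LAUint := by
  intro q _ G _ x
  induction x using ind with
  | h0 =>
    intro μ
    rw [map_zero]
    simp
  | hadd x y hx hy =>
    intro μ
    rw [map_add, MonoidAlgebra.coeff_add, Finsupp.add_apply]
    exact (Padic.nonarchimedean _ _).trans (max_le (hx μ) (hy μ))
  | hs n g c =>
    intro μ
    rw [lauZ_single]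
    by_cases h : (g, Multiplicative.ofAdd n) = μ
    · rw [coeff_single_eq h]
      exact Padic.norm_int_le_one c
    · rw [coeff_single_ne h]
      simp

end Pool.Agent.FJA
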