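import Pool.Agent.AUK.FJA.Bridge
import Pool.Agent.AUK.FJA.P_FVX
import Pool.Agent.AUK.FJA.P_HTP
import Pool.Agent.AUK.FJA.P_KIL
import Pool.Agent.AUK.FJA.P_LAU
import Pool.Agent.AUK.FJA.St3
import Pool.Agent.AUK.FJA.St4

/-!
# Module T0M: the part with coefficients `K_0`
-/

set_option autoImplicit false

open Matrix Pool.Agent.WhK Pool.Agent.Lib25 CategoryTheory

noncomputable section

namespace Pool.Agent.FJA

namespace T0M

/-! ## The functional -/

section

variable {Γ : Type} [Group Γ] {M : ℕ}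

/-- The family of cochains which is `F` at `1` and `0` elsewhere. -/
def Ff (F : (Fin M → Γ) → ℚ) (a : Fin M → Γ) (y : Γ) : ℚ := by
  classical
  exact if y = 1 then F a else 0

theorem Ff_one (F : (Fin M → Γ) → ℚ) (a : Fin M → Γ) : Ff F a 1 = F a := if_pos rfl

theorem Ff_ne (F : (Fin M → Γ) → ℚ) (a : Fin M → Γ) {y : Γ} (h : y ≠ 1) : Ff F a y = 0 := if_neg h

theorem fst_pos {F : (Fin M → Γ) → ℚ} {μ : Rec Γ (Fin M)} (h : ∀ i, μ.lst i ≠ [])
    (hv : μ.val = 1) : fst (Ff F) μ = F fun i => (μ.lst i).headD 1 := by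
  have h1 : fst (Ff F) μ = Ff F (fun i => (μ.lst i).headD 1) μ.val := if_pos h
  rw [h1, hv, Ff_one]

theorem fst_nil {F : (Fin M → Γ) → ℚ} {μ : Rec Γ (Fin M)} (h : ¬ ∀ i, μ.lst i ≠ []) :
    fst (Ff F) μ = 0 := if_neg h

theorem fst_ne {F : (Fin M → Γ) → ℚ} {μ : Rec Γ (Fin M)} (hv : μ.val ≠ 1) :
    fst (Ff F) μ = 0 := by
  by_cases h : ∀ i, μ.lst i ≠ []
  · have h1 : fst (Ff F) μ = Ff F (fun i => (μ.lst i).headD 1) μ.val := if_pos h
    rw [h1, Ff_ne _ _ hv]
  · exact fst_nil h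

theorem null (σ : Γ →* Multiplicative ℤ) (F : (Fin M → Γ) → ℚ)
    (hinv : ∀ (γ : Γ) (a : Fin M → Γ), F (fun i => γ * a i) = F a)
    (hflat : ∀ a : Fin M → Γ, (∀ i j, σ (a i) = σ (a j)) → F a = 0) :
    NullFun σ (fst (Ff F)) where
  cj := by
    intro γ μ
    have e1 : ∀ i, (Rec.inc γ * μ).lst i = (μ.lst i).map (γ * ·) := fun i => rfl
    have e2 : ∀ i, (μ * Rec.inc γ).lst i = μ.lst i := by
      intro i
      rw [Rec.mul_lst, Rec.inc_lst, List.map_nil, List.append_nil]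
    by_cases h : ∀ i, μ.lst i ≠ []
    · have h1 : ∀ i, (Rec.inc γ * μ).lst i ≠ [] := by
        intro i hi
        rw [e1, List.map_eq_nil_iff] at hi
        exact h i hi
      have h2 : ∀ i, (μ * Rec.inc γ).lst i ≠ [] := by
        intro i
        rw [e2]
        exact h i
      by_cases hv : γ * μ.val = 1
      · have hv' : μ.val * γ = 1 := by
          rw [mul_eq_one_iff_eq_inv] at hv
          rw [hv, mul_inv_cancel]
        rw [fst_pos h1 (by rw [Rec.mul_val, Rec.inc_val]; exact hv),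
          fst_pos h2 (by rw [Rec.mul_val, Rec.inc_val]; exact hv')]
        have h3 : (fun i => ((Rec.inc γ * μ).lst i).headD 1) =
            fun i => γ * ((μ * Rec.inc γ).lst i).headD 1 := by
          funext i
          rw [e1, e2]
          obtain ⟨a, l, hl⟩ := List.exists_cons_of_ne_nil (h i)
          rw [hl]
          rfl
        rw [h3, hinv]
      · have hv' : μ.val * γ ≠ 1 := by
          intro h'
          apply hv
          rw [mul_eq_one_iff_eq_inv] at h'
          rw [h', mul_inv_cancel]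
        rw [fst_ne (by rw [Rec.mul_val, Rec.inc_val]; exact hv),
          fst_ne (by rw [Rec.mul_val, Rec.inc_val]; exact hv')]
    · rw [fst_nil, fst_nil]
      · intro h2
        exact h fun i hi => h2 i (by rw [e2]; exact hi)
      · intro h2
        exact h fun i hi => h2 i (by rw [e1, hi]; rfl)
  fin := by
    intro μ h
    by_cases hv : μ.val = 1
    · rw [hv]
      exact IsOfFinOrder.one
    · exact absurd (fst_ne hv) h
  flat := by
    intro μ hμ
    by_cases h : ∀ i, μ.lst i ≠ []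
    · by_cases hv : μ.val = 1
      · rw [fst_pos h hv]
        apply hflat
        intro i j
        apply hμ i j
        · obtain ⟨a, l, hl⟩ := List.exists_cons_of_ne_nil (h i)
          rw [hl]
          exact List.mem_cons_self
        · obtain ⟨a, l, hl⟩ := List.exists_cons_of_ne_nil (h j)
          rw [hl]
          exact List.mem_cons_self
      · exact fst_ne hv
    · exact fst_nil h

end

/-! ## The functional vanishes on boundaries -/

section

variable {Γ : Type} [Group Γ] {ι : Type} [Fintype ι] [DecidableEq ι] {M : ℕ}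

theorem TX_sum {J : Type} (s : Finset J) (c : J → ℚ) (φ : J → Rec Γ (Fin M) → ℚ) (N : ℕ)
    (X : Fin M → (Matrix ι ι (MonoidAlgebra ℚ Γ))ˣ) :
    TX (fun μ => ∑ i ∈ s, c i * φ i μ) N X = ∑ i ∈ s, c i * TX (φ i) N X := by
  classical
  induction s using Finset.induction_on with
  | empty =>
    simp only [Finset.sum_empty]
    have h1 := (t_TXlin ℚ Γ ι M N X).2 0 (fun _ => 0)
    simp only [mul_zero] at h1
    rw [h1]
    simp
  | insert a s ha ih =>
    simp only [Finset.sum_insert ha]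
    have h1 := (t_TXlin ℚ Γ ι M N X).1 (fun μ => c a * φ a μ) (fun μ => ∑ i ∈ s, c i * φ i μ)
    rw [h1, ih, (t_TXlin ℚ Γ ι M N X).2 (c a) (φ a)]
    rfl

theorem face_sum (F : (Fin M → Γ) → ℚ)
    (hcoc : ∀ a : Fin (M + 1) → Γ,
      ∑ i : Fin (M + 1), (-1 : ℚ) ^ (i : ℕ) * F (fun j => a (i.succAbove j)) = 0)
    (X : Fin (M + 1) → (Matrix ι ι (MonoidAlgebra ℚ Γ))ˣ) :
    ∑ i : Fin (M + 1), (-1 : ℚ) ^ (i : ℕ) * TX (fst (Ff F)) 1 (fun t => X (i.succAbove t)) = 0 := by
  have h1 : ∀ i : Fin (M + 1), TX (fst (Ff F)) 1 (fun t => X (i.succAbove t)) =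
      TX (fun μ => fst (Ff F) (Rec.res i.succAbove μ)) 1 X :=
    fun i => (t_TXfac ℚ Γ ι M 1 (fst (Ff F)) i X).symm
  simp only [h1]
  rw [← TX_sum Finset.univ (fun i : Fin (M + 1) => (-1 : ℚ) ^ (i : ℕ))
    (fun i μ => fst (Ff F) (Rec.res i.succAbove μ)) 1 X]
  have h2 : TX (fun μ : Rec Γ (Fin (M + 1)) => ∑ i : Fin (M + 1), (-1 : ℚ) ^ (i : ℕ) *
      fst (Ff F) (Rec.res i.succAbove μ)) 1 X = TX (fun _ => (0 : ℚ)) 1 X := by
    apply t_TXlen
    intro μ hμ
    have hne : ∀ i, μ.lst i ≠ [] := by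
      intro i hi
      have := hμ i
      rw [hi] at this
      exact absurd this (by simp)
    by_cases hv : μ.val = 1
    · have h3 : ∀ i : Fin (M + 1), fst (Ff F) (Rec.res i.succAbove μ) =
          F fun j => (μ.lst (i.succAbove j)).headD 1 :=
        fun i => fst_pos (fun j => hne _) hv
      simp only [h3]
      exact hcoc fun i => (μ.lst i).headD 1
    · have h3 : ∀ i : Fin (M + 1), fst (Ff F) (Rec.res i.succAbove μ) = 0 :=
        fun i => fst_ne hv
      simp only [h3, mul_zero, Finset.sum_const_zero]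
  rw [h2]
  have h3 := TX_sum (∅ : Finset ℕ) (fun _ => (0 : ℚ)) (fun _ (_ : Rec Γ (Fin (M + 1))) => (0 : ℚ)) 1 X
  simp only [Finset.sum_empty] at h3
  exact h3

theorem TF_bd (F : (Fin M → Γ) → ℚ)
    (hcoc : ∀ a : Fin (M + 1) → Γ,
      ∑ i : Fin (M + 1), (-1 : ℚ) ^ (i : ℕ) * F (fun j => a (i.succAbove j)) = 0)
    (c : (Fin (M + 1) → (Matrix ι ι (MonoidAlgebra ℚ Γ))ˣ) →₀ ℚ) :
    TF (fst (Ff F)) 1 (bd ℚ _ M c) = 0 := by
  induction c using Finsupp.induction_linear with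
  | zero => rw [map_zero, map_zero]
  | add x y hx hy => rw [map_add, map_add, hx, hy, add_zero]
  | single X q =>
    rw [bd_single, map_sum]
    have h1 : ∀ i : Fin (M + 1), TF (fst (Ff F)) 1 ((-1 : ℚ) ^ (i : ℕ) •
        Finsupp.single (fun j => X (i.succAbove j)) q) =
        q * ((-1 : ℚ) ^ (i : ℕ) * TX (fst (Ff F)) 1 (fun t => X (i.succAbove t))) := by
      intro i
      rw [map_smul, HTP.TF_single, smul_eq_mul, smul_eq_mul]
      ring
    simp only [h1]
    rw [← Finset.mul_sum, face_sum F hcoc X, mul_zero]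

end

section

variable {G : Type} [Group G] {M : ℕ}

theorem TS_single' (φ : Rec (G × Multiplicative ℤ) (Fin M) → ℚ) (N : ℕ)
    (x : Σ r : ℕ, (Fin M → GLn (LaurentPolynomial (MonoidAlgebra ℤ G)) r)) (q : ℚ) :
    TS ℚ φ N (Finsupp.single x q) = q * TX φ N fun i => cvt ℚ x.1 (x.2 i) := by
  unfold TS
  rw [Finsupp.linearCombination_single, smul_eq_mul]

theorem TS_bd (F : (Fin M → G × Multiplicative ℤ) → ℚ)
    (hcoc : ∀ a : Fin (M + 1) → G × Multiplicative ℤ,
      ∑ i : Fin (M + 1), (-1 : ℚ) ^ (i : ℕ) * F (fun j => a (i.succAbove j)) = 0)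
    (b : SCh (LaurentPolynomial (MonoidAlgebra ℤ G)) (M + 1)) :
    TS ℚ (fst (Ff F)) 1 (bdS _ M b) = 0 := by
  induction b using Finsupp.induction_linear with
  | zero => rw [map_zero, map_zero]
  | add x y hx hy => rw [map_add, map_add, hx, hy, add_zero]
  | single x q =>
    unfold bdS
    rw [Finsupp.linearCombination_single, map_smul, map_sum]
    simp only [TS_single']
    rw [face_sum F hcoc fun i => cvt ℚ x.1 (x.2 i), smul_zero]

end

/-! ## Matrices of size one -/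

section

variable {Γ : Type} [Group Γ] {M : ℕ}

/-- The monoid homomorphism to the matrices of size one. -/
def Dh (N : Type) [Monoid N] : N →* Matrix (Fin 1) (Fin 1) (MonoidAlgebra ℚ N) :=
  (Matrix.scalar (Fin 1) : MonoidAlgebra ℚ N →+* _).toMonoidHom.comp (MonoidAlgebra.of ℚ N)

theorem Dh_apply (N : Type) [Monoid N] (μ : N) :
    Dh N μ = Matrix.diagonal fun _ => MonoidAlgebra.single μ 1 := rfl

theorem jm_Dh (z : Γ) : jm ℚ (Fin M) (Dh Γ z) = Dh (Rec Γ (Fin M)) (Rec.inc z) := by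
  rw [Dh_apply, Dh_apply]
  change (Matrix.diagonal fun _ => MonoidAlgebra.single z (1 : ℚ)).map
    (MonoidAlgebra.mapDomainRingHom ℚ (Rec.inc (Γ := Γ) (V := Fin M))) = _
  rw [Matrix.diagonal_map (map_zero _)]
  congr 1
  funext _
  exact LAU.mapDomain_apply_single _ _ _

/-- the closed path to `z` with record `i` -/
def lp (z : Γ) (i : Fin M) : Rec Γ (Fin M) := Rec.inc z * Rec.om i * Rec.inc z⁻¹

theorem lp_val (z : Γ) (i : Fin M) : (lp z i).val = 1 := by
  simp [lp]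

theorem lp_lst (z : Γ) (i j : Fin M) : (lp z i).lst j = if j = i then [z] else [] := by
  unfold lp
  rw [Rec.mul_lst, Rec.mul_lst, Rec.inc_lst, Rec.inc_lst, Rec.om_lst]
  by_cases h : j = i
  · simp [h]
  · simp [h]

theorem prod_val (Z : Fin M → Γ) (L : List (Fin M)) : (L.map fun i => lp (Z i) i).prod.val = 1 := by
  induction L with
  | nil => rfl
  | cons a L ih => rw [List.map_cons, List.prod_cons, Rec.mul_val, ih, lp_val, mul_one]

theorem prod_lst (Z : Fin M → Γ) (L : List (Fin M)) (hL : L.Nodup) (j : Fin M) :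
    (L.map fun i => lp (Z i) i).prod.lst j = if j ∈ L then [Z j] else [] := by
  induction L with
  | nil => rfl
  | cons a L ih =>
    rw [List.nodup_cons] at hL
    rw [List.map_cons, List.prod_cons, Rec.mul_lst, ih hL.2, lp_val, lp_lst]
    by_cases h : j = a
    · subst h
      simp [hL.1]
    · by_cases h2 : j ∈ L
      · simp [h, h2]
      · simp [h, h2]

theorem UX_one (Z : Fin M → Γ) (X : Fin M → (Matrix (Fin 1) (Fin 1) (MonoidAlgebra ℚ Γ))ˣ)
    (hX : ∀ i, (X i).val = Dh Γ (Z i)) (hX' : ∀ i, ((X i)⁻¹).val = Dh Γ (Z i)⁻¹) :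
    UX X = Dh (Rec Γ (Fin M)) ((List.finRange M).map fun i => lp (Z i) i).prod := by
  unfold UX
  have h1 : ∀ i : Fin M, jm ℚ (Fin M) (X i : Matrix (Fin 1) (Fin 1) (MonoidAlgebra ℚ Γ)) *
      wm ℚ (Fin 1) i * jm ℚ (Fin M)
        ((X i)⁻¹ : (Matrix (Fin 1) (Fin 1) (MonoidAlgebra ℚ Γ))ˣ) =
      Dh (Rec Γ (Fin M)) (lp (Z i) i) := by
    intro i
    rw [hX, hX', jm_Dh, jm_Dh]
    have h2 : wm ℚ (Fin 1) i = Dh (Rec Γ (Fin M)) (Rec.om i) := rfl
    rw [h2, ← map_mul, ← map_mul]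
    rfl
  simp only [h1]
  rw [map_list_prod, List.map_map, List.ofFn_eq_map]
  rfl

theorem TX_one (F : (Fin M → Γ) → ℚ) (Z : Fin M → Γ)
    (X : Fin M → (Matrix (Fin 1) (Fin 1) (MonoidAlgebra ℚ Γ))ˣ)
    (hX : ∀ i, (X i).val = Dh Γ (Z i)) (hX' : ∀ i, ((X i)⁻¹).val = Dh Γ (Z i)⁻¹) :
    TX (fst (Ff F)) 1 X = F Z := by
  unfold TX
  rw [pow_one, UX_one Z X hX hX', Dh_apply, Matrix.trace_diagonal, Fin.sum_univ_one, lin_single,
    one_mul]
  have h1 : ∀ j, (((List.finRange M).map fun i => lp (Z i) i).prod).lst j = [Z j] := by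
    intro j
    rw [prod_lst Z _ (List.nodup_finRange M), if_pos (List.mem_finRange j)]
  rw [fst_pos (fun j => by rw [h1]; simp) (prod_val Z _)]
  simp only [h1]
  rfl

end

section

variable {G : Type} [Group G]

theorem lauZ_mon (z : G × Multiplicative ℤ) :
    lauZ ℚ G (mon z) = MonoidAlgebra.single z 1 := by
  have h1 : (mon z : LaurentPolynomial (MonoidAlgebra ℤ G)) =
      AddMonoidAlgebra.single (Multiplicative.toAdd z.2) (MonoidAlgebra.single z.1 1) := rfl
  rw [h1, LAU.lauZ_single, Int.cast_one]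
  rfl

theorem cvt_val (z : G × Multiplicative ℤ) :
    (cvt (G := G) ℚ 1 (gl1 mon z)).val = Dh (G × Multiplicative ℤ) z := by
  have h0 : (cvt (G := G) ℚ 1 (gl1 mon z)).val =
      (Matrix.diagonal fun _ : Fin 1 => (mon z : LaurentPolynomial (MonoidAlgebra ℤ G))).map
        (lauZ ℚ G) := rfl
  rw [h0, Matrix.diagonal_map (map_zero _), Dh_apply]
  congr 1
  funext _
  exact lauZ_mon z

theorem cvt_inv (z : G × Multiplicative ℤ) :
    ((cvt (G := G) ℚ 1 (gl1 mon z))⁻¹).val = Dh (G × Multiplicative ℤ) z⁻¹ := by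
  have h1 : (cvt (G := G) ℚ 1 (gl1 mon z))⁻¹ = cvt (G := G) ℚ 1 (gl1 mon z⁻¹) := by
    rw [map_inv, map_inv]
  rw [h1, cvt_val]

theorem TS_kinS {M : ℕ} (F : (Fin M → G × Multiplicative ℤ) → ℚ)
    (w : (Fin M → G × Multiplicative ℤ) →₀ ℚ) :
    TS ℚ (fst (Ff F)) 1 (kinS (LaurentPolynomial (MonoidAlgebra ℤ G)) M 1
      (hmap ℚ (gl1 mon) M w)) = pair F w := by
  induction w using Finsupp.induction_linear with
  | zero => simp only [map_zero]
  | add x y hx hy => simp only [map_add, hx, hy]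
  | single Z q =>
    rw [hmap_single, kinS_single, TS_single', pair_single]
    congr 1
    exact TX_one F Z _ (fun i => cvt_val (Z i)) (fun i => cvt_inv (Z i))

end

end T0M

open T0M in
theorem t_T0M (hbrg : S_BRG) (hkcb : S_KCB) : S_T0M := by
  intro ε v K hε G _ n J s q N p φ c hN hp hd hφ x hrel F hinv hcoc hflat
  choose z hz using fun j => exists_cl (k := ℚ) (c j)
  have hrel' : tau n G (cl ℚ (n + 1) _ x) + ∑ j ∈ s, q j • KB.mk n (MonoidAlgebra ℤ G)
      (ε (N j) (p j)).n (HQ.map (n + 1) (rhoC (ε (N j) (p j)) (φ j)) (cl ℚ (n + 1) _ (z j))) = 0 := by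
    simp only [hz]
    exact hrel
  have h1 := hbrg ε G n J s q N p φ hN hp hd hφ z x hrel'
  obtain ⟨y, ⟨b, rfl⟩, κ, hκ, hsum⟩ := Submodule.mem_sup.1 h1
  have hnull : NullFun (sg2 G) (fst (Ff F)) := null (sg2 G) F hinv hflat
  -- the terms of the data vanish
  have h2 : TS ℚ (fst (Ff F)) 1 ((mkDat J s q N p φ hN hp hd hφ z).ch
      (fun j => ε (N j) (p j))) = 0 := by
    unfold Dat.ch
    rw [map_sum]
    apply Finset.sum_eq_zero
    intro j _
    rw [map_smul]
    have h3 : TS ℚ (fst (Ff F)) 1 (kinS (LaurentPolynomial (MonoidAlgebra ℤ G)) (n + 2)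
        (ε (N j) (p j)).n (hmap ℚ (fun z => rhoC (ε (N j) (p j)) (φ j) z) (n + 2)
          (psi ℚ (n + 1) _ (ch ℚ (n + 1) _ (z j))))) = 0 := by
      rw [(hkcb ℚ G (n + 2)).2.2.2.2]
      have : NeZero (N j) := ⟨(hN j).ne'⟩
      have : Fact (p j).Prime := ⟨hp j⟩
      obtain ⟨d, X, hX, -⟩ := hε.loc (N j) (p j) (hd j)
      have h4 := (t_FVX t_LAU ℚ G (N j) (ε (N j) (p j)) (φ j) d X hX).1
      have h5 := t_HTP ℚ (Cyc (N j)) G (Cen (φ j (gen (N j)))) (φ j)
        (Cen (φ j (gen (N j)))).subtype (ε (N j) (p j)).n d X n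
        (psi ℚ (n + 1) _ (ch ℚ (n + 1) _ (z j))) (psi_ch_mem n (z j)) (fst (Ff F)) 1 hnull
      rw [TF_bd F hcoc] at h5
      have h6 : (fV ℚ (ε (N j) (p j)) (φ j)) = fun z : Cen (φ j (gen (N j))) =>
          (XG (φ j) X)⁻¹ * dgU ℚ d ((Cen (φ j (gen (N j)))).subtype z) * XG (φ j) X :=
        funext h4
      rw [h6]
      exact neg_eq_zero.1 h5.symm
    exact (congrArg (q j • ·) h3).trans (smul_zero _)
  have h7 := congrArg (TS ℚ (fst (Ff F)) 1) hsum
  rw [map_add, map_add, TS_bd F hcoc, t_KIL t_LAU ℚ G (n + 2) 1 _ hnull κ hκ, h2, TS_kinS] at h7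
  rw [add_zero, add_zero] at h7
  exact h7.symm

end Pool.Agent.FJA
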