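import Pool.Agent.AUK.FJA.P_ADP
import Pool.Agent.AUK.FJA.P_AVC
import Pool.Agent.AUK.FJA.P_BRG
import Pool.Agent.AUK.FJA.P_CUP
import Pool.Agent.AUK.FJA.P_DIF
import Pool.Agent.AUK.FJA.P_EVA
import Pool.Agent.AUK.FJA.P_EVS
import Pool.Agent.AUK.FJA.P_FAM
import Pool.Agent.AUK.FJA.P_FCA
import Pool.Agent.AUK.FJA.P_FCH
import Pool.Agent.AUK.FJA.P_FCW
import Pool.Agent.AUK.FJA.P_FIN
import Pool.Agent.AUK.FJA.P_FNA
import Pool.Agent.AUK.FJA.P_FNB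
import Pool.Agent.AUK.FJA.P_FNC
import Pool.Agent.AUK.FJA.P_GRP
import Pool.Agent.AUK.FJA.P_INT
import Pool.Agent.AUK.FJA.P_KCB
import Pool.Agent.AUK.FJA.P_MPB
import Pool.Agent.AUK.FJA.P_NDA
import Pool.Agent.AUK.FJA.P_NDB
import Pool.Agent.AUK.FJA.P_NDC
import Pool.Agent.AUK.FJA.P_NIB
import Pool.Agent.AUK.FJA.P_PAD
import Pool.Agent.AUK.FJA.P_PDK
import Pool.Agent.AUK.FJA.P_REA
import Pool.Agent.AUK.FJA.P_REL
import Pool.Agent.AUK.FJA.P_RLD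
import Pool.Agent.AUK.FJA.P_RLG
import Pool.Agent.AUK.FJA.P_RLP
import Pool.Agent.AUK.FJA.P_RST
import Pool.Agent.AUK.FJA.P_SEC
import Pool.Agent.AUK.FJA.P_T0M
import Pool.Agent.AUK.FJA.P_TXC

/-!
# The core theorems
-/

set_option autoImplicit false

open Pool.Agent.WhK Pool.Agent.Lib25

namespace Pool.Agent.FJA

theorem h_SCH : S_SCH.{0, 0, 0} := t_SCH t_TXlin t_TXfac t_TXlen t_MEX t_PRI

theorem h_PAD : S_PAD.{0, 0} := t_PAD t_GAU t_GAUint t_SEC h_SCH (t_EVS t_MEX) t_TXfst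

theorem h_KIL : S_KIL := t_KIL t_LAU

theorem h_FVX : S_FVX := t_FVX t_LAU

theorem h_EVA : S_EVA := t_EVA t_TXC

theorem h_DIF : S_DIF := t_DIF t_GRP t_HTP h_FVX t_CUP t_AVC h_EVA

theorem h_PDK : S_PDK := t_PDK h_PAD

theorem h_REA : S_REA := t_REA t_KCB h_KIL t_HTP h_FVX

theorem h_NIB : S_NIB := t_NIB t_LAUint

theorem h_MPB : S_MPB := t_MPB t_LAU

theorem h_RLP : S_RLP := t_RLP h_PDK h_REA h_NIB t_CUP

theorem h_RLD : S_RLD := t_RLD h_DIF t_KCB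

theorem h_RLG : S_RLG := t_RLG h_PDK h_REA h_NIB h_MPB t_INT t_CUP

theorem h_REL3 : S_REL3 := t_REL3 h_RLP h_RLD h_RLG h_MPB

theorem h_NDC : S_NDC := t_NDC (t_NDA t_LAU) t_NDB

theorem h_FCH : S_FCH := t_FCH (t_FCA t_FAM t_FCW) t_FCW

theorem h_FINC : S_FINC := t_FIN h_REL3 (t_FNB t_FNA) (t_FNC t_FNA)

theorem h_T0M : S_T0M := t_T0M t_BRG t_KCB

theorem h_ADP : S_ADP := t_ADP t_BRG t_RST h_FCH h_FINC

/-- The core theorem and the part with coefficients `K_0`, for one family of idempotents. -/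
theorem exists_eps : ∃ ε : ∀ N : ℕ, ℕ → IdemMat (LaurentPolynomial (MonoidAlgebra ℤ (Cyc N))),
    S_FIN ε ∧ S_T0 ε := by
  obtain ⟨ε, v, K, h⟩ := h_NDC
  exact ⟨ε, h_ADP ε v K h, h_T0M ε v K h⟩

end Pool.Agent.FJA
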