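import Pool.Agent.AUK.FJA.P_TXA
import Pool.Agent.AUK.FJA.P_TXD
import Pool.Agent.AUK.FJA.St5

/-!
# BND: the values of the marked functionals on boundaries
-/

set_option autoImplicit false

open Matrix Pool.Agent.WhK Pool.Agent.Lib25

noncomputable section

namespace Pool.Agent.FJA

namespace BND

theorem TX_zero {k : Type} [Field k] [CharZero k] {Γ : Type} [Group Γ] {ι : Type} [Fintype ι]
    [DecidableEq ι] {M : ℕ} (N : ℕ) (X : Fin M → (Matrix ι ι (MonoidAlgebra k Γ))ˣ) :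
    TX (fun _ : Rec Γ (Fin M) => (0 : ℚ)) N X = 0 := by
  have h := (t_TXlin k Γ ι M N X).2 0 (fun _ => 0)
  simpa using h

theorem TX_sum {k : Type} [Field k] [CharZero k] {Γ : Type} [Group Γ] {ι : Type} [Fintype ι]
    [DecidableEq ι] {M : ℕ} (N : ℕ) (X : Fin M → (Matrix ι ι (MonoidAlgebra k Γ))ˣ)
    {α : Type} (S : Finset α) (f : α → Rec Γ (Fin M) → ℚ) :
    TX (fun μ => ∑ i ∈ S, f i μ) N X = ∑ i ∈ S, TX (f i) N X := by
  classical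
  induction S using Finset.induction_on with
  | empty =>
    simp only [Finset.sum_empty]
    exact TX_zero N X
  | insert a S ha ih =>
    simp only [Finset.sum_insert ha]
    rw [(t_TXlin k Γ ι M N X).1 (f a) (fun μ => ∑ i ∈ S, f i μ), ih]

theorem TX_cobR {k : Type} [Field k] [CharZero k] {Γ : Type} [Group Γ] {ι : Type} [Fintype ι]
    [DecidableEq ι] {M : ℕ} (N : ℕ) (φ : Rec Γ (Fin M) → ℚ)
    (X : Fin (M + 1) → (Matrix ι ι (MonoidAlgebra k Γ))ˣ) :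
    TX (cobR φ) N X =
      ∑ i : Fin (M + 1), (((-1 : ℚ) ^ (i : ℕ) : ℚ) : k) * TX φ N (fun t => X (i.succAbove t)) := by
  have h : (cobR φ) = fun μ => ∑ i : Fin (M + 1), (-1 : ℚ) ^ (i : ℕ) *
      φ (Rec.res i.succAbove μ) := rfl
  rw [h, TX_sum N X Finset.univ
    (fun (i : Fin (M + 1)) (μ : Rec Γ (Fin (M + 1))) => (-1 : ℚ) ^ (i : ℕ) *
      φ (Rec.res i.succAbove μ))]
  refine Finset.sum_congr rfl fun i _ => ?_
  rw [(t_TXlin k Γ ι (M + 1) N X).2 ((-1 : ℚ) ^ (i : ℕ)) (fun μ => φ (Rec.res i.succAbove μ)),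
    t_TXfac k Γ ι M N φ i X]

theorem TK_bdK {k : Type} [Field k] [CharZero k] {Γ : Type} [Group Γ] {M : ℕ} (N : ℕ)
    (φ : Rec Γ (Fin M) → ℚ) (Bc : KCh k Γ (M + 1)) :
    TK k φ N (bdK k Γ M Bc) = ∑ x ∈ Bc.support, ((Bc x : ℚ) : k) * TX (cobR φ) N x.2 := by
  have h : bdK k Γ M Bc = ∑ x ∈ Bc.support, Bc x •
      (∑ i : Fin (M + 1), Finsupp.single (⟨x.1, fun t => x.2 (i.succAbove t)⟩ :
        Σ r : ℕ, (Fin M → (Matrix (Fin r) (Fin r) (MonoidAlgebra k Γ))ˣ))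
          ((-1 : ℚ) ^ (i : ℕ))) := rfl
  rw [h, map_sum]
  refine Finset.sum_congr rfl fun x _ => ?_
  rw [map_smul, map_sum, Rat.smul_def, TX_cobR]
  congr 1
  refine Finset.sum_congr rfl fun i _ => ?_
  unfold TK
  rw [Finsupp.linearCombination_single, Rat.smul_def]

theorem res_bal {Γ V V' : Type} [Group Γ] (f : V' → V) {μ : Rec Γ V} (h : μ ∈ Bal Γ V) :
    Rec.res f μ ∈ Bal Γ V' := by
  obtain ⟨n, hn⟩ := h
  exact ⟨n, fun i => hn (f i)⟩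

/-- the coboundary, restricted to the balanced records -/
def cut {Γ : Type} [Group Γ] {M : ℕ} (φ : Rec Γ (Fin M) → ℚ) (μ : Rec Γ (Fin (M + 1))) : ℚ := by
  classical
  exact if μ ∈ Bal Γ (Fin (M + 1)) then cobR φ μ else 0

theorem cut_pos {Γ : Type} [Group Γ] {M : ℕ} (φ : Rec Γ (Fin M) → ℚ) {μ : Rec Γ (Fin (M + 1))}
    (h : μ ∈ Bal Γ (Fin (M + 1))) : cut φ μ = cobR φ μ := if_pos h

theorem cut_neg {Γ : Type} [Group Γ] {M : ℕ} (φ : Rec Γ (Fin M) → ℚ) {μ : Rec Γ (Fin (M + 1))}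
    (h : μ ∉ Bal Γ (Fin (M + 1))) : cut φ μ = 0 := if_neg h

theorem cut_tr {Γ : Type} [Group Γ] {M : ℕ} (φ : Rec Γ (Fin M) → ℚ)
    (hφ : ∀ μ ∈ Bal Γ (Fin M), ∀ ν ∈ Bal Γ (Fin M), φ (μ * ν) = φ (ν * μ)) :
    ∀ μ ∈ Bal Γ (Fin (M + 1)), ∀ ν ∈ Bal Γ (Fin (M + 1)), cut φ (μ * ν) = cut φ (ν * μ) := by
  intro μ hμ ν hν
  rw [cut_pos φ (mul_mem hμ hν), cut_pos φ (mul_mem hν hμ)]
  unfold cobR
  refine Finset.sum_congr rfl fun i _ => ?_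
  rw [map_mul, map_mul, hφ _ (res_bal _ hμ) _ (res_bal _ hν)]

theorem psi_supp {Γ : Type} [Group Γ] {M : ℕ} (p k B : ℕ) (F : (Fin (M + 1) → Γ) → Γ → ℚ)
    (s : List Γ → Γ → (Γ →₀ ℚ)) (j : List Γ → Γ → ZMod (p ^ (k - B))) (μ : Rec Γ (Fin (M + 2)))
    (h : psiM p k B F s j μ ≠ 0) : IsOfFinOrder μ.val ∧ p ∣ orderOf μ.val := by
  by_contra hc
  apply h
  unfold psiM
  exact if_neg fun h' => hc h'.2

theorem cut_supp {Γ : Type} [Group Γ] {M : ℕ} (p : ℕ) (φ : Rec Γ (Fin M) → ℚ)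
    (hφ : ∀ μ, φ μ ≠ 0 → IsOfFinOrder μ.val ∧ p ∣ orderOf μ.val) :
    ∀ μ, cut φ μ ≠ 0 → IsOfFinOrder μ.val ∧ p ∣ orderOf μ.val := by
  intro μ h
  by_cases hb : μ ∈ Bal Γ (Fin (M + 1))
  · rw [cut_pos φ hb] at h
    unfold cobR at h
    obtain ⟨i, _, hi⟩ := Finset.exists_ne_zero_of_sum_ne_zero h
    exact hφ (Rec.res i.succAbove μ) fun h0 => hi (by rw [h0, mul_zero])
  · exact absurd (cut_neg φ hb) h

end BND

open BND

theorem t_BND (hdiv : S_DIV) (hpsa : S_PSA) (hpsb : S_PSB) (hpsc : S_PSC) : S_BND := by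
  intro Γ _ σ b hb p _ B hB M c hc F s hF hs Bc hBc
  obtain ⟨D, hD, hDe, hDp⟩ := (hpsb Γ σ p B M c F s hF hs).2 hc
  have hD0 : (0 : ℝ) < ‖(D : ℚ_[p])‖ := norm_pos_iff.mpr (by exact_mod_cast hD.ne')
  have hp0 : (0 : ℝ) < (p : ℝ) := by exact_mod_cast (Fact.out : p.Prime).pos
  refine ⟨(∑ x ∈ Bc.support, ‖((Bc x : ℚ) : ℚ_[p])‖) * (‖(D : ℚ_[p])‖⁻¹ * (p : ℝ) ^ (2 * B : ℤ)),
    fun k hk j hj => ?_⟩
  have key : ∀ x ∈ Bc.support, ‖TX (cobR (psiM p k B F s j)) (p ^ k) x.2‖ ≤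
      ‖(D : ℚ_[p])‖⁻¹ * (p : ℝ) ^ (2 * B : ℤ) * (p : ℝ) ^ (-(2 * k : ℤ)) := by
    intro x hx
    have h1 : TX (cobR (psiM p k B F s j)) (p ^ k) x.2 =
        TX (cut (psiM p k B F s j)) (p ^ k) x.2 := by
      refine t_TXlen ℚ_[p] Γ (Fin x.1) (M + 3) (p ^ k) _ _ x.2 fun μ hμ => ?_
      rw [cut_pos _ ⟨p ^ k, hμ⟩]
    have h2 := hdiv Γ b hb p B hB k hk (M + 3) (cut (psiM p k B F s j)) D (k - B) hD
      (cut_tr _ (hpsa Γ σ p k B M c F s j hF hs hj))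
      (cut_supp p _ (psi_supp p k B F s j))
      (by
        intro μ
        by_cases hm : μ ∈ Bal Γ (Fin (M + 3))
        · rw [cut_pos _ hm]
          exact hpsc Γ σ p B M c D F s hF hs hDe k j hj μ hm
        · refine ⟨0, ?_⟩
          rw [cut_neg _ hm]
          simp)
      (Fin x.1) x.2 (hBc x hx)
    rw [← h1, norm_mul] at h2
    have h3 : (p : ℝ) ^ (-(((k - B : ℕ) : ℤ) + k - B)) =
        (p : ℝ) ^ (2 * B : ℤ) * (p : ℝ) ^ (-(2 * k : ℤ)) := by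
      rw [← zpow_add₀ hp0.ne']
      congr 1
      omega
    rw [h3] at h2
    rw [mul_assoc, ← div_eq_inv_mul, le_div_iff₀' hD0]
    exact h2
  rw [TK_bdK]
  refine (norm_sum_le _ _).trans ?_
  rw [Finset.sum_mul, Finset.sum_mul]
  refine Finset.sum_le_sum fun x hx => ?_
  rw [norm_mul, mul_assoc]
  exact mul_le_mul_of_nonneg_left (key x hx) (norm_nonneg _)

end Pool.Agent.FJA
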