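import Pool.Agent.AUK.FJA.P_MEX
import Pool.Agent.AUK.FJA.P_TXA
import Pool.Agent.AUK.FJA.P_TXD
import Pool.Agent.AUK.FJA.St6

/-!
# Module EV0: the value of `psiM` on a simplex of the centraliser times units
-/

set_option autoImplicit false

open Matrix Pool.Agent.WhK Pool.Agent.Lib25

noncomputable section

namespace Pool.Agent.FJA

namespace EV0

/-- Functoriality of `glG`. -/
theorem glG_comp {k : Type} [Field k] {A B C : Type} [Group A] [Group B] [Group C] (g : B →* C)
    (f : A →* B) {ι : Type} [Fintype ι] [DecidableEq ι] (X : (Matrix ι ι (MonoidAlgebra k A))ˣ) :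
    glG (g.comp f) X = glG g (glG f X) := by
  apply Units.ext
  ext i j : 1
  change MonoidAlgebra.mapDomainRingHom k (g.comp f) (X.val i j) =
    MonoidAlgebra.mapDomainRingHom k g (MonoidAlgebra.mapDomainRingHom k f (X.val i j))
  rw [← RingHom.comp_apply, ← MonoidAlgebra.mapDomainRingHom_comp]

/-- `TX` is linear in the function. -/
theorem TX_sum {k : Type} [Field k] [CharZero k] {Γ : Type} [Group Γ] {ι : Type} [Fintype ι]
    [DecidableEq ι] {M : ℕ} (N : ℕ) (X : Fin M → (Matrix ι ι (MonoidAlgebra k Γ))ˣ) {J : Type}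
    (s : Finset J) (r : J → ℚ) (F : J → Rec Γ (Fin M) → ℚ) :
    TX (fun μ => ∑ c ∈ s, r c * F c μ) N X = ∑ c ∈ s, ((r c : ℚ) : k) * TX (F c) N X := by
  classical
  obtain ⟨hadd, hsmul⟩ := t_TXlin k Γ ι M N X
  induction s using Finset.induction_on with
  | empty =>
    simp only [Finset.sum_empty]
    have h := hsmul 0 (fun _ => 0)
    simp only [mul_zero, Rat.cast_zero, zero_mul] at h
    exact h
  | insert a s ha ih =>
    rw [Finset.sum_insert ha, ← ih, ← hsmul, ← hadd]
    congr 1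
    funext μ
    exact Finset.sum_insert ha

/-- The multilinear extension of a function which is constant on the supports. -/
theorem mex_const {Γ : Type} : ∀ {M : ℕ} (F : (Fin M → Γ) → ℚ) (c : Fin M → (Γ →₀ ℚ)) (r : ℚ),
    (∀ i, aug (c i) = 1) → (∀ x : Fin M → Γ, (∀ i, x i ∈ (c i).support) → F x = r) →
    mex F c = r := by
  intro M F c r hc hF
  rw [MEX.mex_def]
  have h1 : ∑ x ∈ Fintype.piFinset (fun i => (c i).support), (∏ i, c i (x i)) * F x =
      ∑ x ∈ Fintype.piFinset (fun i => (c i).support), (∏ i, c i (x i)) * r := by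
    refine Finset.sum_congr rfl fun x hx => ?_
    rw [hF x (Fintype.mem_piFinset.1 hx)]
  rw [h1, ← Finset.sum_mul, ← Finset.prod_univ_sum]
  have h2 : ∀ i, ∑ x ∈ (c i).support, c i x = 1 := fun i => hc i
  rw [Finset.prod_congr rfl fun i _ => h2 i, Finset.prod_const_one, one_mul]

section

variable {G : Type} [Group G] {N : ℕ} (φ : Cyc N →* G)

/-- The homomorphism `x ↦ (φ x, 1)`. -/
def ff : Cyc N →* G × Multiplicative ℤ := (MonoidHom.inl G (Multiplicative ℤ)).comp φ

theorem ff_apply (x : Cyc N) : ff φ x = (φ x, 1) := rfl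

theorem comm (z : Cen (φ (gen N))) (b : ℤ) (x : Cyc N) :
    Commute ((z : G), Multiplicative.ofAdd b) (ff φ x) := by
  rw [ff_apply]
  exact Prod.ext (commute_cyc φ z x).eq (mul_comm _ _)

theorem order_ff (c : Cyc N) : orderOf (ff φ c) = orderOf (φ c) := by
  rw [ff_apply, Prod.orderOf_mk, orderOf_one, Nat.lcm_one_right]

theorem fin_ff (c : Cyc N) : IsOfFinOrder (ff φ c) ↔ IsOfFinOrder (φ c) := by
  rw [← orderOf_pos_iff, ← orderOf_pos_iff, order_ff]

/-- The marking of the twisted list. -/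
theorem j_tw {p k B : ℕ} {j : List (G × Multiplicative ℤ) → G × Multiplicative ℤ →
      ZMod (p ^ (k - B))} (hj : Mrk (G × Multiplicative ℤ) p k B j) (z : Cen (φ (gen N))) (b : ℤ)
    (Y : List (Cyc N)) (c : Cyc N) :
    j (Y.map fun x => ((z : G), Multiplicative.ofAdd b) * ff φ x) (ff φ c) = rsJ φ j Y c := by
  have h := hj.cj ((z : G), Multiplicative.ofAdd b) (Y.map fun x => (φ x, 1)) (φ c, 1)
  rw [List.map_map] at h
  have h1 : ((z : G), Multiplicative.ofAdd b) * ((φ c, 1) : G × Multiplicative ℤ) *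
      ((z : G), Multiplicative.ofAdd b)⁻¹ = (φ c, 1) := by
    have h2 := (comm φ z b c).eq
    rw [ff_apply] at h2
    rw [h2, mul_inv_cancel_right]
  rw [h1] at h
  exact h

/-- The elements of the support of the section. -/
theorem supp_form {s : List (G × Multiplicative ℤ) → G × Multiplicative ℤ →
      (G × Multiplicative ℤ →₀ ℚ)} (hs : Sec s) (z : Cen (φ (gen N))) (b : ℤ)
    (Y : List (Cyc N)) (c : Cyc N) (hc : Subgroup.zpowers c = ⊤) (hfin : IsOfFinOrder (ff φ c))
    (a : G × Multiplicative ℤ)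
    (ha : a ∈ (s (Y.map fun x => ((z : G), Multiplicative.ofAdd b) * ff φ x) (ff φ c)).support) :
    ∃ t : ℤ, a = (φ c ^ t * (z : G), Multiplicative.ofAdd b) := by
  obtain ⟨t, a', ha', rfl⟩ := hs.supp _ _ hfin a ha
  obtain ⟨x, -, rfl⟩ := List.mem_map.1 ha'
  have hx : x ∈ Subgroup.zpowers c := by rw [hc]; exact Subgroup.mem_top x
  obtain ⟨e, rfl⟩ := hx
  refine ⟨t + e, ?_⟩
  have h2 : Commute (z : G) (φ c) := commute_cyc φ z c
  refine Prod.ext ?_ ?_
  · change (φ c) ^ t * ((z : G) * φ (c ^ e)) = φ c ^ (t + e) * (z : G)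
    rw [map_zpow, (h2.zpow_right e).eq, _root_.zpow_add, mul_assoc]
  · change (1 : Multiplicative ℤ) ^ t * (Multiplicative.ofAdd b * 1) = Multiplicative.ofAdd b
    rw [_root_.one_zpow, one_mul, mul_one]

/-- The value of `cup F` on the section. -/
theorem evs_val {m : ℕ} {F : (Fin (m + 1) → G) → G → ℚ} (hB : Basic F)
    {s : List (G × Multiplicative ℤ) → G × Multiplicative ℤ → (G × Multiplicative ℤ →₀ ℚ)}
    (hs : Sec s) (z : Fin (m + 3) → Cen (φ (gen N))) (b : Fin (m + 3) → ℤ)
    (μ : Rec (Cyc N) (Fin (m + 3))) (hne : ∀ i, μ.lst i ≠ [])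
    (hc : Subgroup.zpowers μ.val = ⊤) (hfin : IsOfFinOrder (φ μ.val)) :
    evs (cup F) s (Rec.res Fin.castSucc
      (twR (ff φ) (fun i => ((z i : G), Multiplicative.ofAdd (b i))) μ)) =
      F (fun i : Fin (m + 1) => (z (Fin.castAdd 2 i) : G)) (φ μ.val) *
        ((b (Fin.last (m + 1)).castSucc - b (Fin.last m).castSucc.castSucc : ℤ) : ℚ) := by
  have hfin' : IsOfFinOrder (ff φ μ.val) := (fin_ff φ _).2 hfin
  have hne' : ∀ i : Fin (m + 2), (Rec.res Fin.castSucc
      (twR (ff φ) (fun i => ((z i : G), Multiplicative.ofAdd (b i))) μ)).lst i ≠ [] := by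
    intro i h
    exact hne i.castSucc (List.map_eq_nil_iff.1 h)
  unfold evs
  rw [if_pos hne']
  refine mex_const _ _ _ (fun i => hs.aug _ _ hfin' (hne' i)) ?_
  intro a ha
  have hex : ∀ i : Fin (m + 2), ∃ t : ℤ,
      a i = (φ μ.val ^ t * (z i.castSucc : G), Multiplicative.ofAdd (b i.castSucc)) := fun i =>
    supp_form φ hs (z i.castSucc) (b i.castSucc) (μ.lst i.castSucc) μ.val hc hfin' (a i) (ha i)
  choose t ht using hex
  change (if (1 : Multiplicative ℤ) = 1 then
    F (fun i => (a i.castSucc).1) (φ μ.val) *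
      ((Multiplicative.toAdd (a (Fin.last (m + 1))).2 -
        Multiplicative.toAdd (a (Fin.last m).castSucc).2 : ℤ) : ℚ) else 0) = _
  rw [if_pos rfl, ht (Fin.last (m + 1)), ht (Fin.last m).castSucc]
  have h3 : (fun i : Fin (m + 1) => (a i.castSucc).1) =
      fun i : Fin (m + 1) => φ μ.val ^ t i.castSucc * (z (Fin.castAdd 2 i) : G) := by
    funext i
    rw [ht i.castSucc]
    rfl
  rw [h3, hB (fun i => t i.castSucc) (fun i => (z (Fin.castAdd 2 i) : G)) (φ μ.val)]
  rfl

/-- The value of `cup F` on the section vanishes outside of the support of `F`. -/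
theorem evs_zero {m : ℕ} {F : (Fin (m + 1) → G) → G → ℚ} {c : Cyc N}
    (h0 : ∀ a, F a (φ c) = 0)
    (s : List (G × Multiplicative ℤ) → G × Multiplicative ℤ → (G × Multiplicative ℤ →₀ ℚ))
    (ν : Rec (G × Multiplicative ℤ) (Fin (m + 2))) (hν : ν.val = ff φ c) :
    evs (cup F) s ν = 0 := by
  unfold evs
  split_ifs
  · refine MEX.vanish _ _ fun x _ => ?_
    rw [hν]
    unfold cup
    rw [ff_apply]
    simp only [h0, zero_mul, ite_self]
  · rfl

end

end EV0

open EV0

theorem t_EV0 (htwi : S_TWI) (htxr : S_TXR) : S_EV0 := by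
  classical
  intro G _ p _ k B m cc N _ φ _ S F hS hgen hF hB s hs j hj z b v
  set γ : Fin (m + 3) → G × Multiplicative ℤ := fun i => ((z i : G), Multiplicative.ofAdd (b i))
    with hγ
  have hcomm : ∀ (i : Fin (m + 3)) (x : Cyc N), Commute (γ i) (ff φ x) := fun i x =>
    comm φ (z i) (b i) x
  have h1 := htwi ℚ_[p] (Cyc N) (G × Multiplicative ℤ) (ff φ) (Fin 1) (m + 3) (p ^ k)
    (psiM p k B (cup F) s j) γ hcomm (fun i => sc (v i))
  have h2 : (fun i => sclU ℚ_[p] (Fin 1) ((z i : G), Multiplicative.ofAdd (b i)) *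
      glG (MonoidHom.inl G (Multiplicative ℤ)) (glG φ (sc (v i)))) =
      fun i => sclU ℚ_[p] (Fin 1) (γ i) * glG (ff φ) (sc (v i)) := by
    funext i
    rw [ff, glG_comp]
  rw [h2, h1]
  -- the map of labels
  set fv : Fin 2 → Fin (m + 3) := ![(Fin.last (m + 1)).castSucc, Fin.last (m + 2)] with hfv
  have hmono : StrictMono fv := by
    rw [Fin.strictMono_iff_lt_succ]
    intro i
    have hi : i = 0 := Subsingleton.elim _ _
    subst hi
    exact Fin.castSucc_lt_last _
  have hpk : 0 < p ^ k := pow_pos (Fact.out (p := p.Prime)).pos k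
  have h3 := t_TXlen ℚ_[p] (Cyc N) (Fin 1) (m + 3) (p ^ k)
    (fun μ => psiM p k B (cup F) s j (twR (ff φ) γ μ))
    (fun μ => ∑ c : Cyc N, (F (fun i : Fin (m + 1) => (z (Fin.castAdd 2 i) : G)) (φ c) *
        ((b (Fin.last (m + 1)).castSucc - b (Fin.last m).castSucc.castSucc : ℤ) : ℚ)) *
        lamM p k B (rsJ φ j) c (Rec.res fv μ)) (fun i => sc (v i)) ?_
  · rw [h3, TX_sum]
    refine Finset.sum_congr rfl fun c _ => ?_
    rw [htxr ℚ_[p] (Cyc N) (Fin 1) (m + 3) 2 (p ^ k) fv hmono (lamM p k B (rsJ φ j) c)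
      (fun i => sc (v i))]
    have h4 : (fun t => sc (v (fv t))) =
        ![sc (v (Fin.last (m + 1)).castSucc), sc (v (Fin.last (m + 2)))] := by
      funext t
      fin_cases t <;> rfl
    rw [h4]
    push_cast
    ring
  · intro μ hμ
    have hne : ∀ i, μ.lst i ≠ [] := by
      intro i h
      have := hμ i
      rw [h, List.length_nil] at this
      omega
    -- the right side
    have hR : ∑ c : Cyc N, (F (fun i : Fin (m + 1) => (z (Fin.castAdd 2 i) : G)) (φ c) *
        ((b (Fin.last (m + 1)).castSucc - b (Fin.last m).castSucc.castSucc : ℤ) : ℚ)) *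
        lamM p k B (rsJ φ j) c (Rec.res fv μ) =
        (F (fun i : Fin (m + 1) => (z (Fin.castAdd 2 i) : G)) (φ μ.val) *
        ((b (Fin.last (m + 1)).castSucc - b (Fin.last m).castSucc.castSucc : ℤ) : ℚ)) *
        (((rsJ φ j (μ.lst (Fin.last (m + 2))) μ.val -
          rsJ φ j (μ.lst (Fin.last (m + 1)).castSucc) μ.val).val : ℕ) : ℚ) := by
      rw [Finset.sum_eq_single μ.val]
      · congr 1
        unfold lamM
        rw [if_pos ⟨fun i => hμ (fv i), rfl⟩]
        rfl
      · intro c _ hc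
        have h5 : lamM p k B (rsJ φ j) c (Rec.res fv μ) = 0 := by
          unfold lamM
          rw [if_neg]
          rintro ⟨-, h6⟩
          exact hc h6.symm
        rw [h5, mul_zero]
      · intro h
        exact absurd (Finset.mem_univ _) h
    rw [hR]
    by_cases hSc : S (φ μ.val)
    · obtain ⟨hfin, hdvd⟩ := hS _ hSc
      have hcond : (∀ i, ((twR (ff φ) γ μ).lst i).length = p ^ k) ∧
          IsOfFinOrder (twR (ff φ) γ μ).val ∧ p ∣ orderOf (twR (ff φ) γ μ).val := by
        refine ⟨fun i => ?_, (fin_ff φ _).2 hfin, ?_⟩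
        · change ((μ.lst i).map _).length = _
          rw [List.length_map, hμ i]
        · change p ∣ orderOf (ff φ μ.val)
          rw [order_ff]
          exact hdvd
      have hval := evs_val φ hB hs.sec z b μ hne (hgen _ hSc) hfin
      unfold psiM
      rw [if_pos hcond, hval]
      congr 1
      have e1 : j ((twR (ff φ) γ μ).lst (Fin.last (m + 1 + 1))) (twR (ff φ) γ μ).val =
          rsJ φ j (μ.lst (Fin.last (m + 2))) μ.val := j_tw φ hj _ _ _ _
      have e2 : j ((twR (ff φ) γ μ).lst (Fin.last (m + 1)).castSucc) (twR (ff φ) γ μ).val =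
          rsJ φ j (μ.lst (Fin.last (m + 1)).castSucc) μ.val := j_tw φ hj _ _ _ _
      rw [e1, e2]
    · have h0 : ∀ a, F a (φ μ.val) = 0 := by
        intro a
        by_contra h
        exact hSc (hF.supp a _ h)
      rw [h0, zero_mul, zero_mul]
      unfold psiM
      split_ifs
      · rw [evs_zero φ (c := μ.val) h0 s _ rfl, zero_mul]
      · rfl

end Pool.Agent.FJA
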