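import Pool.Agent.AUK.FJA.P_LAU
import Pool.Agent.AUK.FJA.St6

/-!
# Module EV1: the value of `psiM` on the chain `E1`
-/

set_option autoImplicit false

open Matrix Pool.Agent.WhK Pool.Agent.Lib25

noncomputable section

namespace Pool.Agent.FJA

namespace EV1

/-! ### The entries -/

section Conv

variable (k : Type) [Field k] {G : Type} [Group G]

theorem cvt_elt (z : G) : cvt k 1 (gl1 (elt (G := G)) z) = sclU k (Fin 1) (z, Multiplicative.ofAdd 0) := by
  apply Units.ext
  change (Matrix.diagonal fun _ : Fin 1 => elt z).map (lauZ k G) =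
    Matrix.diagonal fun _ : Fin 1 => MonoidAlgebra.of k (G × Multiplicative ℤ)
      (z, Multiplicative.ofAdd 0)
  rw [Matrix.diagonal_map (map_zero _)]
  congr 1
  funext _
  have h1 : (elt z : LaurentPolynomial (MonoidAlgebra ℤ G)) =
      AddMonoidAlgebra.single 0 (MonoidAlgebra.single z 1) := rfl
  change lauZ k G (elt z) = MonoidAlgebra.single (z, Multiplicative.ofAdd 0) 1
  rw [h1, LAU.lauZ_single, Int.cast_one]

theorem cvt_sEl : cvt k 1 (sEl G) = sclU k (Fin 1) ((1 : G), Multiplicative.ofAdd 1) := by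
  apply Units.ext
  change (Matrix.diagonal fun _ : Fin 1 => mon ((1 : G), Multiplicative.ofAdd 1)).map (lauZ k G) =
    Matrix.diagonal fun _ : Fin 1 => MonoidAlgebra.of k (G × Multiplicative ℤ)
      ((1 : G), Multiplicative.ofAdd 1)
  rw [Matrix.diagonal_map (map_zero _)]
  congr 1
  funext _
  have h1 : (mon ((1 : G), Multiplicative.ofAdd 1) : LaurentPolynomial (MonoidAlgebra ℤ G)) =
      AddMonoidAlgebra.single 1 (MonoidAlgebra.single 1 1) := rfl
  change lauZ k G (mon ((1 : G), Multiplicative.ofAdd 1)) =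
    MonoidAlgebra.single ((1 : G), Multiplicative.ofAdd 1) 1
  rw [h1, LAU.lauZ_single, Int.cast_one]

theorem lauZ_iu {C : Type} [Group C] (φ : C →* G) (x : MonoidAlgebra ℤ C) :
    lauZ k G (iu φ x) = MonoidAlgebra.mapDomainRingHom k (MonoidHom.inl G (Multiplicative ℤ))
      (MonoidAlgebra.mapDomainRingHom k φ (MonoidAlgebra.mapRingHom C (Int.castRingHom k) x)) := by
  induction x using MonoidAlgebra.induction_linear with
  | zero => simp only [map_zero]
  | add x y hx hy => simp only [map_add, hx, hy]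
  | single c z =>
    have h1 : iu φ (MonoidAlgebra.single c z) =
        AddMonoidAlgebra.single 0 (MonoidAlgebra.single (φ c) z) := by
      change AddMonoidAlgebra.single 0 (MonoidAlgebra.mapDomainRingHom ℤ φ
        (MonoidAlgebra.single c z)) = _
      rw [LAU.mapDomain_apply_single]
    rw [h1, LAU.lauZ_single, MonoidAlgebra.mapRingHom_single, LAU.mapDomain_apply_single,
      LAU.mapDomain_apply_single]
    rfl

end Conv

theorem cvt_uEl (p : ℕ) [Fact p.Prime] {G : Type} [Group G] {C : Type} [Group C] (φ : C →* G)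
    (u : (MonoidAlgebra ℤ C)ˣ) :
    cvt ℚ_[p] 1 (uEl φ u) = glG (MonoidHom.inl G (Multiplicative ℤ)) (glG φ (sc (uZ p u))) := by
  apply Units.ext
  change (Matrix.diagonal fun _ : Fin 1 => iu φ (u : MonoidAlgebra ℤ C)).map (lauZ ℚ_[p] G) =
    ((Matrix.diagonal fun _ : Fin 1 => MonoidAlgebra.mapRingHom C (Int.castRingHom ℚ_[p])
      (u : MonoidAlgebra ℤ C)).map (MonoidAlgebra.mapDomainRingHom ℚ_[p] φ)).map
        (MonoidAlgebra.mapDomainRingHom ℚ_[p] (MonoidHom.inl G (Multiplicative ℤ)))
  rw [Matrix.diagonal_map (map_zero _), Matrix.diagonal_map (map_zero _),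
    Matrix.diagonal_map (map_zero _)]
  congr 1
  funext _
  exact lauZ_iu ℚ_[p] φ _

/-- the scalar matrices of the central elements commute with everything -/
theorem sclU_comm (k : Type) [Field k] {Γ : Type} [Group Γ] (ι : Type) [Fintype ι] [DecidableEq ι]
    {γ : Γ} (hγ : ∀ x, Commute γ x) (Y : (Matrix ι ι (MonoidAlgebra k Γ))ˣ) :
    Y * sclU k ι γ = sclU k ι γ * Y := by
  apply Units.ext
  change (Y : Matrix ι ι (MonoidAlgebra k Γ)) * Matrix.scalar ι (MonoidAlgebra.of k Γ γ) =
    Matrix.scalar ι (MonoidAlgebra.of k Γ γ) * (Y : Matrix ι ι (MonoidAlgebra k Γ))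
  exact ((Matrix.scalar_commute (n := ι) (MonoidAlgebra.of k Γ γ)
    (fun r => MonoidAlgebra.of_commute (fun x => hγ x) r)
    (Y : Matrix ι ι (MonoidAlgebra k Γ))).symm).eq

theorem central_t {G : Type} [Group G] (t : Multiplicative ℤ) (x : G × Multiplicative ℤ) :
    Commute ((1 : G), t) x := by
  refine Prod.ext ?_ ?_
  · change 1 * x.1 = x.1 * 1
    rw [one_mul, mul_one]
  · exact mul_comm _ _

/-! ### The vertices -/

/-- `b` is `0` or `1` -/
def bb (P : Prop) [Decidable P] : ℤ := if P then 0 else 1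

/-- `v` is `1` or `u` -/
def vv {A : Type} [One A] (u : A) (P : Prop) [Decidable P] : A := if P then 1 else u

section Vert

variable {G : Type} [Group G] (p : ℕ) [Fact p.Prime] {N : ℕ} (m : ℕ) (φ : Cyc N →* G)
  (u : (MonoidAlgebra ℤ (Cyc N))ˣ) (Z : Fin (m + 1) → Cen (φ (gen N)))

theorem vert (i : Fin (m + 1)) (i' : Fin (m + 2)) (l : Fin (m + 3)) :
    cvt ℚ_[p] 1 (mix id (fun x => x * sEl G)
      (mix (fun z : Cen (φ (gen N)) => gl1 elt (z : G))
        (fun z : Cen (φ (gen N)) => gl1 elt (z : G) * uEl φ u) Z i) i' l) =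
      sclU ℚ_[p] (Fin 1) ((Z (i.predAbove (i'.predAbove l)) : G),
        Multiplicative.ofAdd (bb (l ≤ i'.castSucc))) *
      glG (MonoidHom.inl G (Multiplicative ℤ))
        (glG φ (sc (vv (uZ p u) (i'.predAbove l ≤ i.castSucc)))) := by
  have hs : ∀ (z : G), sclU ℚ_[p] (Fin 1) (z, Multiplicative.ofAdd (0 : ℤ)) *
      sclU ℚ_[p] (Fin 1) ((1 : G), Multiplicative.ofAdd (1 : ℤ)) =
      sclU ℚ_[p] (Fin 1) (z, Multiplicative.ofAdd (1 : ℤ)) := by
    intro z
    rw [← map_mul]
    congr 1
    refine Prod.ext ?_ ?_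
    · change z * 1 = z
      rw [mul_one]
    · change Multiplicative.ofAdd (0 : ℤ) * Multiplicative.ofAdd (1 : ℤ) =
        Multiplicative.ofAdd (1 : ℤ)
      rw [← ofAdd_add, zero_add]
  have hc := sclU_comm ℚ_[p] (Fin 1) (central_t (G := G) (Multiplicative.ofAdd (1 : ℤ)))
  have hg : glG (MonoidHom.inl G (Multiplicative ℤ))
      (glG φ (sc (1 : (MonoidAlgebra ℚ_[p] (Cyc N))ˣ))) = 1 := by
    rw [map_one, map_one, map_one]
  unfold mix bb vv
  by_cases h1 : l ≤ i'.castSucc
  · rw [if_pos h1, if_pos h1, id]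
    by_cases h2 : i'.predAbove l ≤ i.castSucc
    · rw [if_pos h2, if_pos h2, hg, mul_one, cvt_elt]
    · rw [if_neg h2, if_neg h2, map_mul, cvt_elt, cvt_uEl]
  · rw [if_neg h1, if_neg h1]
    by_cases h2 : i'.predAbove l ≤ i.castSucc
    · rw [if_pos h2, if_pos h2, map_mul, hg, mul_one, cvt_elt, cvt_sEl, hs]
    · rw [if_neg h2, if_neg h2, map_mul, map_mul, cvt_elt, cvt_uEl, cvt_sEl, mul_assoc, hc,
        ← mul_assoc, hs]

end Vert

theorem pa_val {n : ℕ} (q : Fin n) (i : Fin (n + 1)) :
    ((q.predAbove i : Fin n) : ℕ) = if (q : ℕ) < i then (i : ℕ) - 1 else i := by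
  by_cases h : (q : ℕ) < i
  · rw [if_pos h, Fin.predAbove_of_castSucc_lt q i (by rw [Fin.lt_def]; exact h)]
    rfl
  · rw [if_neg h, Fin.predAbove_of_le_castSucc q i (by rw [Fin.le_def]; exact not_lt.1 h)]
    rfl

/-! ### Markings -/

theorem mrk {G : Type} [Group G] {p k B : ℕ} {C : Type} [Group C] (φ : C →* G)
    (hφ : Function.Injective φ)
    {j : List (G × Multiplicative ℤ) → G × Multiplicative ℤ → ZMod (p ^ (k - B))}
    (hj : Mrk (G × Multiplicative ℤ) p k B j) : Mrk C p k B (rsJ φ j) := by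
  let ψ : C →* G × Multiplicative ℤ := (MonoidHom.inl G (Multiplicative ℤ)).comp φ
  have hψ : Function.Injective ψ := by
    intro a b h
    exact hφ (congrArg Prod.fst h)
  have hr : ∀ Y c, rsJ φ j Y c = j (Y.map ψ) (ψ c) := fun _ _ => rfl
  constructor
  · intro γ Y y
    rw [hr, hr, ← hj.cj (ψ γ) (Y.map ψ) (ψ y)]
    congr 1
    · rw [List.map_map, List.map_map]
      congr 1
      funext x
      exact map_mul ψ γ x
    · rw [map_mul, map_mul, map_inv]
  · intro a Y y hl hy hp
    rw [hr, hr, List.map_append, List.map_cons, List.map_nil, map_mul, List.map_cons]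
    refine hj.rot (ψ a) (Y.map ψ) (ψ y) (by rwa [List.length_map]) (ψ.isOfFinOrder hy) ?_
    rwa [orderOf_injective ψ hψ y]

/-! ### Linearity -/

section Lin

variable {G : Type} [Group G] {N : ℕ} (m : ℕ) (φ : Cyc N →* G) (u : (MonoidAlgebra ℤ (Cyc N))ˣ)

theorem E1_zero : E1 m φ u 0 = 0 := by
  unfold E1
  rw [map_zero, map_zero, map_zero]

theorem E1_add (w w' : (Fin (m + 1) → Cen (φ (gen N))) →₀ ℚ) :
    E1 m φ u (w + w') = E1 m φ u w + E1 m φ u w' := by
  unfold E1
  rw [map_add, map_add, map_add]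

theorem E1_single (Z : Fin (m + 1) → Cen (φ (gen N))) (q : ℚ) :
    E1 m φ u (Finsupp.single Z q) =
      q • ∑ i : Fin (m + 1), (-1 : ℚ) ^ (i : ℕ) • ∑ i' : Fin (m + 2), (-1 : ℚ) ^ (i' : ℕ) •
        Finsupp.single (⟨1, mix id (fun x => x * sEl G)
          (mix (fun z : Cen (φ (gen N)) => gl1 elt (z : G))
            (fun z : Cen (φ (gen N)) => gl1 elt (z : G) * uEl φ u) Z i) i'⟩ :
              Σ r : ℕ, (Fin (m + 3) → GLn (LaurentPolynomial (MonoidAlgebra ℤ G)) r)) (1 : ℚ) := by
  have h1 : ∀ (V V' : Type) (f f' : V → V') (M : ℕ) (v : Fin M → V) (c : ℚ),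
      prism ℚ f f' M (Finsupp.single v c) =
        c • ∑ i : Fin M, (-1 : ℚ) ^ (i : ℕ) • Finsupp.single (mix f f' v i) (1 : ℚ) := by
    intro V V' f f' M v c
    unfold prism
    rw [Finsupp.linearCombination_single]
    congr 1
    refine Finset.sum_congr rfl fun i _ => ?_
    rw [Finsupp.smul_single, smul_eq_mul, mul_one]
  unfold E1
  rw [h1, map_smul, map_smul, map_sum, map_sum]
  congr 1
  refine Finset.sum_congr rfl fun i _ => ?_
  rw [map_smul, map_smul, h1, one_smul, map_sum]
  congr 1
  refine Finset.sum_congr rfl fun i' _ => ?_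
  rw [map_smul]
  congr 1
  unfold kinS
  rw [Finsupp.lmapDomain_apply, Finsupp.mapDomain_single]

end Lin

theorem evc_zero {G P : Type} (j : P → G) {m : ℕ} (F : (Fin m → G) → G → ℚ) (y : G) :
    evc j F 0 y = 0 := Finsupp.sum_zero_index

theorem evc_add {G P : Type} (j : P → G) {m : ℕ} (F : (Fin m → G) → G → ℚ)
    (w w' : (Fin m → P) →₀ ℚ) (y : G) : evc j F (w + w') y = evc j F w y + evc j F w' y := by
  classical
  unfold evc
  exact Finsupp.sum_add_index' (fun _ => zero_mul _) fun _ _ _ => add_mul _ _ _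

theorem evc_single {G P : Type} (j : P → G) {m : ℕ} (F : (Fin m → G) → G → ℚ)
    (Z : Fin m → P) (q : ℚ) (y : G) :
    evc j F (Finsupp.single Z q) y = q * F (fun i => j (Z i)) y := by
  unfold evc
  exact Finsupp.sum_single_index (zero_mul _)

end EV1

open EV1 in
/-- EV1: the value of `psiM` on the chain `E1`. -/
theorem t_EV1 (hev0 : S_EV0) (hlm0 : S_LM0) : S_EV1 := by
  classical
  intro G _ p _ k B m cc N _ φ hφ S F hS hgen hF hB s hs j hj u w
  have hM : Mrk (Cyc N) p k B (rsJ φ j) := mrk φ hφ hj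
  -- the value on a simplex
  have key : ∀ (Z : Fin (m + 1) → Cen (φ (gen N))) (i : Fin (m + 1)) (i' : Fin (m + 2)),
      TX (psiM p k B (cup F) s j) (p ^ k) (fun l : Fin (m + 3) => cvt ℚ_[p] 1
        (mix id (fun x => x * sEl G)
          (mix (fun z : Cen (φ (gen N)) => gl1 elt (z : G))
            (fun z : Cen (φ (gen N)) => gl1 elt (z : G) * uEl φ u) Z i) i' l)) =
      if i' = (Fin.last m).castSucc ∧ i = Fin.last m then
        ∑ c : Cyc N, (F (fun t => (Z t : G)) (φ c) : ℚ_[p]) *
          TX (lamM p k B (rsJ φ j) c) (p ^ k)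
            ![(1 : (Matrix (Fin 1) (Fin 1) (MonoidAlgebra ℚ_[p] (Cyc N)))ˣ), sc (uZ p u)]
      else 0 := by
    intro Z i i'
    have h1 : (fun l : Fin (m + 3) => cvt ℚ_[p] 1
        (mix id (fun x => x * sEl G)
          (mix (fun z : Cen (φ (gen N)) => gl1 elt (z : G))
            (fun z : Cen (φ (gen N)) => gl1 elt (z : G) * uEl φ u) Z i) i' l)) =
        fun l : Fin (m + 3) => sclU ℚ_[p] (Fin 1) ((Z (i.predAbove (i'.predAbove l)) : G),
          Multiplicative.ofAdd (bb (l ≤ i'.castSucc))) *
        glG (MonoidHom.inl G (Multiplicative ℤ))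
          (glG φ (sc (vv (uZ p u) (i'.predAbove l ≤ i.castSucc)))) := by
      funext l
      exact vert p m φ u Z i i' l
    rw [h1, hev0 G p k B m cc N φ hφ S F hS hgen hF hB s hs j hj
      (fun l => Z (i.predAbove (i'.predAbove l))) (fun l => bb (l ≤ i'.castSucc))
      (fun l => vv (uZ p u) (i'.predAbove l ≤ i.castSucc))]
    by_cases hi' : i' = (Fin.last m).castSucc
    · have hv' : (i' : ℕ) = m := by rw [hi']; rfl
      have hb1 : bb ((Fin.last (m + 1)).castSucc ≤ i'.castSucc) = 1 := by
        unfold bb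
        rw [if_neg]
        rw [Fin.le_def, Fin.val_castSucc, Fin.val_castSucc, Fin.val_last, hv']
        omega
      have hb2 : bb ((Fin.last m).castSucc.castSucc ≤ i'.castSucc) = 0 := by
        unfold bb
        rw [if_pos]
        rw [Fin.le_def, Fin.val_castSucc, Fin.val_castSucc, Fin.val_castSucc, Fin.val_last, hv']
      have hv2 : vv (uZ p u) (i'.predAbove (Fin.last (m + 2)) ≤ i.castSucc) = uZ p u := by
        unfold vv
        rw [if_neg]
        rw [Fin.le_def, pa_val, Fin.val_castSucc, Fin.val_last, hv']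
        have := i.2
        rw [if_pos (by omega)]
        omega
      by_cases hi : i = Fin.last m
      · have hv : (i : ℕ) = m := by rw [hi]; rfl
        rw [if_pos ⟨hi', hi⟩]
        have hv1 : vv (uZ p u) (i'.predAbove (Fin.last (m + 1)).castSucc ≤ i.castSucc) = 1 := by
          unfold vv
          rw [if_pos]
          rw [Fin.le_def, pa_val, Fin.val_castSucc, Fin.val_castSucc, Fin.val_last, hv', hv]
          rw [if_pos (by omega)]
          omega
        have hz : ∀ t : Fin (m + 1), i.predAbove (i'.predAbove (Fin.castAdd 2 t)) = t := by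
          intro t
          apply Fin.ext
          have ht := t.2
          have a1 : ((i'.predAbove (Fin.castAdd 2 t) : Fin (m + 2)) : ℕ) = t := by
            rw [pa_val, Fin.val_castAdd, hv', if_neg (by omega)]
          rw [pa_val, a1, hv, if_neg (by omega)]
        refine Finset.sum_congr rfl fun c _ => ?_
        simp only [hb1, hb2, hv1, hv2, hz, map_one, sub_zero, Int.cast_one, mul_one]
      · rw [if_neg fun h => hi h.2]
        have hv : (i : ℕ) < m := by
          have h2 := i.2
          rcases Nat.lt_or_ge (i : ℕ) m with h3 | h3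
          · exact h3
          · exact absurd (Fin.ext (by rw [Fin.val_last]; omega)) hi
        have hv1 : vv (uZ p u) (i'.predAbove (Fin.last (m + 1)).castSucc ≤ i.castSucc) =
            uZ p u := by
          unfold vv
          rw [if_neg]
          rw [Fin.le_def, pa_val, Fin.val_castSucc, Fin.val_castSucc, Fin.val_last, hv']
          rw [if_pos (by omega)]
          omega
        refine Finset.sum_eq_zero fun c _ => ?_
        simp only [hv1, hv2]
        by_cases hFc : F (fun t : Fin (m + 1) =>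
            (Z (i.predAbove (i'.predAbove (Fin.castAdd 2 t))) : G)) (φ c) = 0
        · rw [hFc, Rat.cast_zero, zero_mul, zero_mul]
        · have hc1 : c ≠ 1 := by
            rintro rfl
            have h3 := (hS _ (hF.supp _ _ hFc)).2
            rw [map_one, orderOf_one] at h3
            exact (Fact.out : p.Prime).one_lt.ne' (Nat.dvd_one.1 h3)
          obtain ⟨h4, h5⟩ := hlm0 ℚ_[p] (Cyc N) p k B (rsJ φ j) hM c (p ^ k)
          have h6 := h4 (sc (uZ p u)) 1 1
          rw [mul_one, h5 hc1] at h6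
          rw [h6, mul_zero]
    · rw [if_neg fun h => hi' h.1]
      have hv' : (i' : ℕ) ≠ m := by
        intro h
        exact hi' (Fin.ext h)
      have hlt := i'.2
      have hb : bb ((Fin.last (m + 1)).castSucc ≤ i'.castSucc) =
          bb ((Fin.last m).castSucc.castSucc ≤ i'.castSucc) := by
        unfold bb
        have e1 : ((Fin.last (m + 1)).castSucc ≤ i'.castSucc) ↔
            ((Fin.last m).castSucc.castSucc ≤ i'.castSucc) := by
          rw [Fin.le_def, Fin.le_def, Fin.val_castSucc, Fin.val_castSucc, Fin.val_castSucc,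
            Fin.val_castSucc, Fin.val_last, Fin.val_last]
          omega
        by_cases h7 : (Fin.last m).castSucc.castSucc ≤ i'.castSucc
        · rw [if_pos h7, if_pos (e1.2 h7)]
        · rw [if_neg h7, if_neg (fun h => h7 (e1.1 h))]
      refine Finset.sum_eq_zero fun c _ => ?_
      simp only [hb, sub_self, Int.cast_zero, mul_zero, zero_mul]
  induction w using Finsupp.induction_linear with
  | zero =>
    rw [E1_zero, map_zero]
    symm
    refine Finset.sum_eq_zero fun c _ => ?_
    rw [evc_zero, Rat.cast_zero, zero_mul]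
  | add w w' hw hw' =>
    rw [E1_add, map_add, hw, hw', ← Finset.sum_add_distrib]
    refine Finset.sum_congr rfl fun c _ => ?_
    rw [evc_add, Rat.cast_add, add_mul]
  | single Z q =>
    rw [E1_single, map_smul, map_sum, Finset.sum_eq_single (Fin.last m)]
    · rw [map_smul, map_sum, Finset.sum_eq_single (Fin.last m).castSucc]
      · have h8 := key Z (Fin.last m) (Fin.last m).castSucc
        rw [if_pos ⟨rfl, rfl⟩] at h8
        unfold TS
        rw [map_smul, Finsupp.linearCombination_single, one_smul]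
        refine Eq.trans (congrArg _ (congrArg _ (congrArg _ h8))) ?_
        rw [Fin.val_castSucc, smul_smul ((-1 : ℚ) ^ _), ← mul_pow, neg_one_mul, neg_neg, one_pow,
          one_smul, Rat.smul_def, Finset.mul_sum]
        refine Finset.sum_congr rfl fun c _ => ?_
        rw [evc_single, Rat.cast_mul, mul_assoc]
      · intro i' _ hi'
        have h8 := key Z (Fin.last m) i'
        rw [if_neg fun h => hi' h.1] at h8
        unfold TS
        rw [map_smul, Finsupp.linearCombination_single, one_smul]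
        refine Eq.trans (congrArg _ h8) (smul_zero _)
      · intro h
        exact absurd (Finset.mem_univ _) h
    · intro i _ hi
      rw [map_smul, map_sum, Finset.sum_eq_zero, smul_zero]
      intro i' _
      have h8 := key Z i i'
      rw [if_neg fun h => hi h.2] at h8
      unfold TS
      rw [map_smul, Finsupp.linearCombination_single, one_smul]
      refine Eq.trans (congrArg _ h8) (smul_zero _)
    · intro h
      exact absurd (Finset.mem_univ _) h

end Pool.Agent.FJA
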