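import Pool.Agent.AUK.FJA.P_TXA
import Pool.Agent.AUK.FJA.P_TXD
import Pool.Agent.AUK.FJA.St6

/-!
# Module LM0

The values of `lamM` on the simplices with two vertices, over a commutative group: left invariance,
and the vanishing on the simplex `![1, 1]`.
-/

set_option autoImplicit false

open Matrix

namespace Pool.Agent.FJA

namespace LM0

theorem lamM_eq {C : Type} [Group C] (p k B : ℕ) (j : List C → C → ZMod (p ^ (k - B))) (c : C)
    (μ ν : Rec C (Fin 2)) (hl : ∀ i, (μ.lst i).length = (ν.lst i).length) (hv : μ.val = ν.val)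
    (h0 : j (μ.lst 0) c = j (ν.lst 0) c) (h1 : j (μ.lst 1) c = j (ν.lst 1) c) :
    lamM p k B j c μ = lamM p k B j c ν := by
  have hiff : ((∀ i, (μ.lst i).length = p ^ k) ∧ μ.val = c) ↔
      ((∀ i, (ν.lst i).length = p ^ k) ∧ ν.val = c) := by
    simp only [hl, hv]
  unfold lamM
  by_cases h : (∀ i, (ν.lst i).length = p ^ k) ∧ ν.val = c
  · rw [if_pos h, if_pos (hiff.2 h), h0, h1]
  · rw [if_neg h, if_neg (fun h' => h (hiff.1 h'))]

theorem cjInv_lamM {C : Type} [CommGroup C] (p k B : ℕ) (j : List C → C → ZMod (p ^ (k - B)))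
    (hj : Mrk C p k B j) (c : C) : CjInv (lamM p k B j c) := by
  intro γ μ
  have hjc : ∀ Y : List C, j (Y.map (γ * ·)) c = j Y c := by
    intro Y
    have h := hj.cj γ Y c
    rwa [mul_comm γ c, mul_inv_cancel_right] at h
  have hL : ∀ i, (Rec.inc γ * μ).lst i = (μ.lst i).map (γ * ·) := by
    intro i
    rw [Rec.mul_lst, Rec.inc_lst, Rec.inc_val, List.nil_append]
  have hR : ∀ i, (μ * Rec.inc γ).lst i = μ.lst i := by
    intro i
    rw [Rec.mul_lst, Rec.inc_lst, List.map_nil, List.append_nil]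
  refine lamM_eq p k B j c _ _ (fun i => ?_) ?_ ?_ ?_
  · rw [hL, hR, List.length_map]
  · rw [Rec.mul_val, Rec.mul_val, Rec.inc_val, mul_comm]
  · rw [hL, hR, hjc]
  · rw [hL, hR, hjc]

/-- The submonoid of the paths with endpoint `1`. -/
def sub1 (C : Type) [Group C] (V : Type) : Submonoid (Rec C V) := MonoidHom.mker Rec.valHom

theorem mem_sub1 {C : Type} [Group C] {V : Type} {μ : Rec C V} : μ ∈ sub1 C V ↔ μ.val = 1 :=
  Iff.rfl

theorem coeff_one_fin {k C : Type} [Field k] [Group C] (a b : Fin 1) (γ : C)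
    (h : (((1 : (Matrix (Fin 1) (Fin 1) (MonoidAlgebra k C))ˣ) :
      Matrix (Fin 1) (Fin 1) (MonoidAlgebra k C)) a b).coeff γ ≠ 0) : γ = 1 := by
  classical
  by_contra hne
  apply h
  have hab : a = b := Subsingleton.elim _ _
  rw [Units.val_one, hab, Matrix.one_apply_eq, MonoidAlgebra.one_def, MonoidAlgebra.coeff_single,
    Finsupp.single_eq_of_ne hne]

end LM0

open LM0

theorem t_LM0 : S_LM0 := by
  intro k _ _ C _ p r B j hj c N
  constructor
  · intro g X Y
    have h := t_TXinv k C (Fin 1) 2 N (lamM p r B j c) (cjInv_lamM p r B j hj c) g ![X, Y]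
    rw [← h]
    congr 1
    funext i
    fin_cases i <;> rfl
  · intro hc
    have hX : ∀ i : Fin 2, (![(1 : (Matrix (Fin 1) (Fin 1) (MonoidAlgebra k C))ˣ), 1] :
        Fin 2 → (Matrix (Fin 1) (Fin 1) (MonoidAlgebra k C))ˣ) i = 1 := by
      intro i
      fin_cases i <;> rfl
    refine t_TXsup k C (Fin 1) 2 N (lamM p r B j c) _ (sub1 C (Fin 2)) (fun i => ?_) ?_ ?_ ?_
    · exact mem_sub1.2 rfl
    · intro i a b γ hγ
      rw [hX i] at hγ
      exact mem_sub1.2 (coeff_one_fin a b γ hγ)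
    · intro i a b γ hγ
      rw [hX i, inv_one] at hγ
      exact mem_sub1.2 (coeff_one_fin a b γ hγ)
    · intro μ hμ
      unfold lamM
      rw [if_neg]
      rintro ⟨-, h⟩
      exact hc (h.symm.trans (mem_sub1.1 hμ))

end Pool.Agent.FJA
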