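import Pool.Agent.AUK.FJA.P_TXA
import Pool.Agent.AUK.FJA.St6

/-!
# FJA, module TXR: restriction of the labels along a strictly monotone map
-/

set_option autoImplicit false

open Matrix Pool.Agent.WhK Pool.Agent.Lib25

noncomputable section

namespace Pool.Agent.FJA

namespace TXR

/-- the case of a map which is surjective -/
theorem eq_id {M : ℕ} (f : Fin M → Fin M) (hf : StrictMono f) : f = id := by
  rw [← hf.range_inj strictMono_id, Set.range_id, Set.range_eq_univ]
  exact Finite.surjective_of_injective hf.injective

end TXR

theorem t_TXR : S_TXR := by
  intro k _ _ Γ _ ι _ _ M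
  induction M with
  | zero =>
    intro M' N f hf φ X
    have hM : M' = 0 := by
      have := Fintype.card_le_of_injective f hf.injective
      simpa using this
    subst hM
    obtain rfl := TXR.eq_id f hf
    rfl
  | succ m ih =>
    intro M' N f hf φ X
    by_cases hs : Function.Surjective f
    · have hM : M' = m + 1 := by
        have := Fintype.card_of_bijective ⟨hf.injective, hs⟩
        simpa using this
      subst hM
      obtain rfl := TXR.eq_id f hf
      rfl
    · have hex : ∃ i, ∀ t, f t ≠ i := by
        by_contra hc
        push Not at hc
        exact hs hc
      obtain ⟨i, hi⟩ := hex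
      have hg : ∀ t, ∃ z, i.succAbove z = f t := fun t => Fin.exists_succAbove_eq (hi t)
      choose g hg using hg
      have hgm : StrictMono g := by
        intro a b hab
        rw [← (Fin.strictMono_succAbove i).lt_iff_lt, hg, hg]
        exact hf hab
      have hfg : f = fun t => i.succAbove (g t) := funext fun t => (hg t).symm
      rw [hfg]
      have h1 := t_TXfac k Γ ι m N (fun ν => φ (Rec.res g ν)) i X
      have h2 := ih M' N g hgm φ (fun t => X (i.succAbove t))
      exact h1.trans h2

end Pool.Agent.FJA
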