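import Pool.Agent.AUK.FJA.CoreAll
import Pool.Agent.AUK.FJA.P_BAS
import Pool.Agent.AUK.FJA.P_BND
import Pool.Agent.AUK.FJA.P_CON
import Pool.Agent.AUK.FJA.P_EV0
import Pool.Agent.AUK.FJA.P_EV1
import Pool.Agent.AUK.FJA.P_FST
import Pool.Agent.AUK.FJA.P_GAS
import Pool.Agent.AUK.FJA.P_GRA
import Pool.Agent.AUK.FJA.P_LIM
import Pool.Agent.AUK.FJA.P_LM0
import Pool.Agent.AUK.FJA.P_MRK
import Pool.Agent.AUK.FJA.P_PSB
import Pool.Agent.AUK.FJA.P_REB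
import Pool.Agent.AUK.FJA.P_TWI
import Pool.Agent.AUK.FJA.P_TXR

/-!
# The core theorems of phase 2
-/

set_option autoImplicit false

open Pool.Agent.WhK Pool.Agent.Lib25

namespace Pool.Agent.FJA

theorem h_DIV : S_DIV := t_DIV t_GAS

theorem h_REB : S_REB := t_REB t_KCB h_KIL t_HTP h_FVX

theorem h_EV0 : S_EV0 := t_EV0 t_TWI t_TXR

theorem h_EV1 : S_EV1 := t_EV1 h_EV0 t_LM0

theorem h_ADD : S_ADD := t_ADD h_DIV t_LM0

theorem h_BND : S_BND := t_BND h_DIV t_PSA t_PSB t_PSC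

theorem h_FST : S_FST := t_FST (t_GRA t_GAS)

theorem h_LIM : S_LIM := t_LIM h_ADD h_FST

/-- LAM. -/
theorem t_LAMx (hbnd : S_BND) (hreb : S_REB) (hnib : S_NIB) (hcup : S_CUP) (hpsb : S_PSB) :
    S_LAM := by
  intro G _ bG hb p _ B hB m c hc S F hS hF s hs D e v hloc E hE
  have hF' : Coch (sg2 G) (m + 1) (cup F) := (hcup G m F).2 S hS hF
  choose d X hX hq using hloc
  choose T hTN hTT _ using fun j => hq j p
  obtain ⟨y, hy, κ, hκ, hyk⟩ := Submodule.mem_sup.1 hE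
  obtain ⟨b, rfl⟩ := hy
  obtain ⟨C, hC⟩ := hbnd (G × Multiplicative ℤ) (sg2 G) bG (RLP.torBd hb) p B hB (m + 1) c hc
    (cup F) s hF' hs (BT ℚ_[p] D e b T) (hnib p G (m + 1) D e T b (fun j _ => hTN j))
  refine ⟨C, fun k hk j hj => ?_⟩
  have h1 := hC k hk j hj
  rw [hreb ℚ_[p] G (m + 1) D e d T hTT b κ E hκ hyk.symm (psiM p k B (cup F) s j) (p ^ k)
    ((hpsb (G × Multiplicative ℤ) (sg2 G) p B (m + 1) c (cup F) s hF' hs).1 k j hj)] at h1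
  exact h1

theorem h_LAM : S_LAM := t_LAMx h_BND h_REB h_NIB t_CUP t_PSB

/-- The conclusion of the functional side. -/
theorem s_con : S_CON := t_CON h_LAM h_EV1 h_LIM t_BAS t_MRK t_TWI

end Pool.Agent.FJA
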