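import Pool.Agent.AUK.FJA.St8

/-!
# AVS: the average over `Pt Y y` is an equivariant section, invariant under rotations
-/

set_option autoImplicit false

open Matrix Pool.Agent.WhK Pool.Agent.Lib25

noncomputable section

namespace Pool.Agent.FJA

namespace AVS

variable {Γ : Type} [Group Γ]

/-- A homomorphism to `ℤ` vanishes on the elements of finite order. -/
theorem hom_eq_one (σ : Γ →* Multiplicative ℤ) {y : Γ} (h : IsOfFinOrder y) : σ y = 1 := by
  rw [isOfFinOrder_iff_pow_eq_one] at h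
  obtain ⟨n, hn, h2⟩ := h
  have h3 : (σ y) ^ n = 1 := by
    rw [← map_pow, h2, map_one]
  have h4 : (n : ℤ) * Multiplicative.toAdd (σ y) = 0 := by
    have h5 := congrArg Multiplicative.toAdd h3
    rw [toAdd_pow, toAdd_one, nsmul_eq_mul] at h5
    exact h5
  rcases mul_eq_zero.1 h4 with h5 | h5
  · have h6 : n = 0 := by exact_mod_cast h5
    omega
  · apply Multiplicative.toAdd.injective
    rw [h5]
    rfl

/-- The set `Pt` of a translate. -/
theorem pt_smul {Pt : List Γ → Γ → Finset Γ} {dl : List Γ → Γ → Γ} (h : Pnt Pt dl)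
    (γ : Γ) (Y : List Γ) (y : Γ) (hY : Y ≠ []) (hy : IsOfFinOrder y) :
    Pt (Y.map (γ * ·)) (γ * y * γ⁻¹) = (Pt Y y).map (mulLeftEmbedding γ) := by
  ext z
  rw [Finset.mem_map]
  constructor
  · intro hz
    refine ⟨γ⁻¹ * z, ?_, by simp⟩
    rw [← h.inv γ Y y hY hy, mul_inv_cancel_left]
    exact hz
  · rintro ⟨x, hx, rfl⟩
    exact (h.inv γ Y y hY hy x).2 hx

theorem avS_nil {Pt : List Γ → Γ → Finset Γ} {dl : List Γ → Γ → Γ} (h : Pnt Pt dl) (y : Γ) :
    avS Pt [] y = 0 := by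
  rw [avS, h.nil, Finset.sum_empty]

theorem avS_smul {Pt : List Γ → Γ → Finset Γ} {dl : List Γ → Γ → Γ} (h : Pnt Pt dl)
    (γ : Γ) (Y : List Γ) (y : Γ) (hy : IsOfFinOrder y) :
    avS Pt (Y.map (γ * ·)) (γ * y * γ⁻¹) = (avS Pt Y y).mapDomain (γ * ·) := by
  by_cases hY : Y = []
  · subst hY
    rw [List.map_nil, avS_nil h, avS_nil h, Finsupp.mapDomain_zero]
  · rw [avS, pt_smul h γ Y y hY hy, Finset.sum_map, Finset.card_map, avS,
      Finsupp.mapDomain_finset_sum]
    refine Finset.sum_congr rfl fun x _ => ?_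
    rw [Finsupp.mapDomain_single, mulLeftEmbedding_apply]

theorem aug_avS {Pt : List Γ → Γ → Finset Γ} {dl : List Γ → Γ → Γ} (h : Pnt Pt dl)
    (Y : List Γ) (y : Γ) (hy : IsOfFinOrder y) (hY : Y ≠ []) : aug (avS Pt Y y) = 1 := by
  have hn : ((Pt Y y).card : ℚ) ≠ 0 := by
    exact_mod_cast (Finset.card_pos.2 (h.ne Y y hY hy)).ne'
  have h1 : ∀ s : Finset Γ, aug (∑ x ∈ s, Finsupp.single x (1 / ((Pt Y y).card : ℚ))) =
      ∑ x ∈ s, (1 / ((Pt Y y).card : ℚ)) := by
    intro s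
    rw [aug, ← Finsupp.sum_finset_sum_index]
    · exact Finset.sum_congr rfl fun x _ => Finsupp.sum_single_index rfl
    · intro _; rfl
    · intro _ _ _; rfl
  rw [avS, h1, Finset.sum_const, nsmul_eq_mul, mul_one_div_cancel hn]

theorem supp_avS {Pt : List Γ → Γ → Finset Γ} (Y : List Γ) (y : Γ) :
    ∀ x ∈ (avS Pt Y y).support, x ∈ Pt Y y := by
  classical
  intro x hx
  by_contra hn
  rw [Finsupp.mem_support_iff] at hx
  apply hx
  rw [avS, Finsupp.finset_sum_apply]
  refine Finset.sum_eq_zero fun z hz => ?_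
  rw [Finsupp.single_apply, if_neg]
  rintro rfl
  exact hn hz

end AVS

open AVS in
theorem t_AVS : S_AVS := by
  intro Γ _ Pt dl h
  refine ⟨⟨?_, ?_, ?_⟩, ?_, ?_⟩
  · intro γ Y y hy
    exact avS_smul h γ Y y hy
  · intro Y y hy hY
    exact aug_avS h Y y hy hY
  · intro Y y hy x hx
    by_cases hY : Y = []
    · subst hY
      rw [avS_nil h, Finsupp.support_zero] at hx
      exact absurd hx (Finset.notMem_empty x)
    · exact h.supp Y y hY hy x (supp_avS Y y x hx)
  · intro a Y y hy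
    have h1 := h.rot (a :: Y) y (List.cons_ne_nil a Y) hy
    have h2 : rotL y (a :: Y) = Y ++ [y * a] := rfl
    rw [h2] at h1
    rw [avS, avS, h1]
  · intro σ Y y hY hy x hx x' hx'
    obtain ⟨t, rfl⟩ := h.trans Y y hY hy x hx x' hx'
    rw [map_mul, map_pow, hom_eq_one σ (h.fin Y y hY hy), one_pow, one_mul]

end Pool.Agent.FJA
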