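import Pool.Agent.AUK.FJA.P_GAS
import Pool.Agent.AUK.FJA.St8

/-!
# One step of the Gauss congruence for a function on the paths of a submonoid
-/

set_option autoImplicit false

open Matrix Pool.Agent.WhK Pool.Agent.Lib25

noncomputable section

namespace Pool.Agent.FJA

namespace Step7

/-- The restriction of a function to the paths in `S` with lists of length `N`. -/
def rstr {Γ : Type} [Group Γ] {M : ℕ} (S : Submonoid (Rec Γ (Fin M))) (N : ℕ)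
    (φ : Rec Γ (Fin M) → ℚ) (μ : Rec Γ (Fin M)) : ℚ := by
  classical
  exact if μ ∈ S ∧ ∀ i, (μ.lst i).length = N then φ μ else 0

theorem rstr_pos {Γ : Type} [Group Γ] {M : ℕ} {S : Submonoid (Rec Γ (Fin M))} {N : ℕ}
    {φ : Rec Γ (Fin M) → ℚ} {μ : Rec Γ (Fin M)} (h : μ ∈ S) (h' : ∀ i, (μ.lst i).length = N) :
    rstr S N φ μ = φ μ := if_pos ⟨h, h'⟩

theorem rstr_neg {Γ : Type} [Group Γ] {M : ℕ} {S : Submonoid (Rec Γ (Fin M))} {N : ℕ}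
    {φ : Rec Γ (Fin M) → ℚ} {μ : Rec Γ (Fin M)} (h : ¬ (μ ∈ S ∧ ∀ i, (μ.lst i).length = N)) :
    rstr S N φ μ = 0 := if_neg h

theorem len_pow {Γ : Type} [Group Γ] {M : ℕ} (μ : Rec Γ (Fin M)) (i : Fin M) (e : ℕ) :
    ((μ ^ e).lst i).length = e * (μ.lst i).length := by
  induction e with
  | zero => simp
  | succ e ih =>
    rw [pow_succ, Rec.mul_lst, List.length_append, List.length_map, ih]
    ring

/-- One step of the Gauss congruence. -/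
theorem step (hsup : S_SUP) {Γ : Type} [Group Γ] {M : ℕ} {ℓ : ℕ} [Fact ℓ.Prime]
    (S : Submonoid (Rec Γ (Fin M))) (k : ℕ) (φ : Rec Γ (Fin M) → ℚ)
    (htr : ∀ μ ∈ S, ∀ ν ∈ S, φ (μ * ν) = φ (ν * μ))
    (hint : ∀ μ ∈ S, (∀ i, (μ.lst i).length = ℓ ^ (k + 1)) → ∃ z : ℤ, φ μ = z)
    {ι : Type} [Fintype ι] [DecidableEq ι] (X : Fin M → (Matrix ι ι (MonoidAlgebra ℚ_[ℓ] Γ))ˣ)
    (hX : ∀ i, NIU (X i)) (hS : ∀ a b μ, (UX X a b).coeff μ ≠ 0 → μ ∈ S) :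
    ‖TX φ (ℓ ^ (k + 1)) X - TX (fun μ => φ (μ ^ ℓ)) (ℓ ^ k) X‖ ≤ (ℓ : ℝ) ^ (-(k + 1 : ℤ)) := by
  have h1 := t_GAS ℓ (Rec Γ (Fin M)) S ι (rstr S (ℓ ^ (k + 1)) φ) 1
    (by
      intro μ hμ ν hν
      by_cases h : ∀ i, ((μ * ν).lst i).length = ℓ ^ (k + 1)
      · have h' : ∀ i, ((ν * μ).lst i).length = ℓ ^ (k + 1) := by
          intro i
          rw [← h i]
          simp [add_comm]
        rw [rstr_pos (S.mul_mem hμ hν) h, rstr_pos (S.mul_mem hν hμ) h']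
        exact htr μ hμ ν hν
      · have h' : ¬ ∀ i, ((ν * μ).lst i).length = ℓ ^ (k + 1) := by
          intro h2
          apply h
          intro i
          rw [← h2 i]
          simp [add_comm]
        rw [rstr_neg fun h2 => h h2.2, rstr_neg fun h2 => h' h2.2])
    one_pos
    (by
      intro μ
      by_cases h : μ ∈ S ∧ ∀ i, (μ.lst i).length = ℓ ^ (k + 1)
      · obtain ⟨z, hz⟩ := hint μ h.1 h.2
        exact ⟨z, by rw [rstr_pos h.1 h.2, hz]; simp⟩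
      · exact ⟨0, by rw [rstr_neg h]; simp⟩)
    (UX X) (t_GAUint ℓ Γ ι M X hX) hS k
  have h2 : TX φ (ℓ ^ (k + 1)) X = TX (rstr S (ℓ ^ (k + 1)) φ) (ℓ ^ (k + 1)) X :=
    hsup.2.2 ℚ_[ℓ] Γ ι M (ℓ ^ (k + 1)) X S _ _ hS fun μ hμ hl => (rstr_pos hμ hl).symm
  have h3 : TX (fun μ => φ (μ ^ ℓ)) (ℓ ^ k) X =
      TX (fun μ => rstr S (ℓ ^ (k + 1)) φ (μ ^ ℓ)) (ℓ ^ k) X :=
    hsup.2.2 ℚ_[ℓ] Γ ι M (ℓ ^ k) X S _ _ hS fun μ hμ hl =>
      (rstr_pos (S.pow_mem hμ ℓ) fun i => by rw [len_pow, hl i, pow_succ']).symm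
  rw [h2, h3]
  unfold TX
  rw [Nat.cast_one, one_mul] at h1
  exact h1

/-- The submonoid generated by the supports of the matrices of a chain. -/
theorem exists_sub (hsup : S_SUP) {Γ : Type} [Group Γ] {M : ℕ} {k : Type} [Field k] [CharZero k]
    (B : KCh k Γ M) : ∃ (S : Submonoid (Rec Γ (Fin M))) (L : Finset Γ), S ≤ Bal Γ (Fin M) ∧
      (∀ μ ∈ S, (∀ i, μ.lst i ≠ []) → ∀ i, Inc L (μ.lst i) μ.val) ∧
      ∀ x ∈ B.support, ∀ a b μ, (UX x.2 a b).coeff μ ≠ 0 → μ ∈ S := by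
  classical
  choose T hT1 hT2 using fun x : (Σ r : ℕ, (Fin M → (Matrix (Fin r) (Fin r) (MonoidAlgebra k Γ))ˣ)) =>
    hsup.2.1 k Γ (Fin x.1) M x.2
  obtain ⟨L, hL⟩ := hsup.1 Γ M (B.support.biUnion T) (by
    intro t ht i
    obtain ⟨x, _, hx⟩ := Finset.mem_biUnion.1 ht
    exact hT1 x t hx i)
  refine ⟨Submonoid.closure ((B.support.biUnion T : Finset (Rec Γ (Fin M))) : Set (Rec Γ (Fin M))),
    L, fun μ hμ => (hL μ hμ).1, fun μ hμ => (hL μ hμ).2, fun x hx a b μ hμ => ?_⟩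
  exact Submonoid.subset_closure (Finset.mem_coe.2 (Finset.mem_biUnion.2 ⟨x, hx, hT2 x a b μ hμ⟩))

end Step7

end Pool.Agent.FJA
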