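import Pool.Agent.AUK.FJA.P_BND
import Pool.Agent.AUK.FJA.St9
import Pool.Agent.AUK.FJA.Step7

/-!
# BNN: the values of the marked functionals on boundaries, without a bound on the torsion
-/

set_option autoImplicit false

open Matrix Pool.Agent.WhK Pool.Agent.Lib25

noncomputable section

namespace Pool.Agent.FJA

namespace BNN

theorem psi_zero1 {Γ : Type} [Group Γ] {M : ℕ} (p k r : ℕ) (F : (Fin (M + 1) → Γ) → Γ → ℚ)
    (s : List Γ → Γ → (Γ →₀ ℚ)) (j : List Γ → Γ → ZMod (p ^ r)) (μ : Rec Γ (Fin (M + 2)))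
    (h : ¬ p ∣ orderOf μ.val) : psiN p k r F s j μ = 0 := by
  unfold psiN
  exact if_neg fun h' => h h'.2.2.1

theorem psi_zero2 {Γ : Type} [Group Γ] {M : ℕ} (p k r : ℕ) (F : (Fin (M + 1) → Γ) → Γ → ℚ)
    (s : List Γ → Γ → (Γ →₀ ℚ)) (j : List Γ → Γ → ZMod (p ^ r)) (μ : Rec Γ (Fin (M + 2)))
    (h : ∀ a, F a μ.val = 0) : psiN p k r F s j μ = 0 := by
  have h4 : evs F s (Rec.res Fin.castSucc μ) = 0 := by
    have hc : ∀ a, F a (Rec.res (Fin.castSucc : Fin (M + 1) → Fin (M + 2)) μ).val = 0 := h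
    unfold evs
    split_ifs
    all_goals first
      | rfl
      | (unfold mex
         refine Finset.sum_eq_zero fun x _ => ?_
         simp only [hc, mul_zero])
  unfold psiN
  split_ifs
  · rw [h4, zero_mul]
  · rfl

theorem cobR_pow {Γ : Type} [Group Γ] {M : ℕ} (L : Rec Γ (Fin M) → ℚ) (e : ℕ)
    (μ : Rec Γ (Fin (M + 1))) : cobR L (μ ^ e) = cobR (fun μ => L (μ ^ e)) μ := by
  unfold cobR
  refine Finset.sum_congr rfl fun i _ => ?_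
  rw [map_pow]

end BNN

open BNN Step7

theorem t_BNN (hper : S_PER) (hsup : S_SUP) (hpsn : S_PSN) (hpcn : S_PCN) : S_BNN := by
  intro Γ _ σ p _ N1 M hN1 F s hF hFs hs hrot D hD hDe Bc hBc
  have hp : p.Prime := Fact.out
  have hD0 : (0 : ℝ) < ‖(D : ℚ_[p])‖ := norm_pos_iff.mpr (by exact_mod_cast hD.ne')
  have hp0 : (0 : ℝ) < (p : ℝ) := by exact_mod_cast hp.pos
  obtain ⟨S, L1, hSB, hInc, hSx⟩ := exists_sub hsup Bc
  refine ⟨(∑ x ∈ Bc.support, ‖((Bc x : ℚ) : ℚ_[p])‖) * ‖(D : ℚ_[p])‖⁻¹, fun r => ?_⟩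
  obtain ⟨k0, hk0, hgood⟩ := hper Γ p N1 hN1 L1 r
  refine ⟨k0 + 1, fun k hk => ⟨by omega, fun j hj => ?_⟩⟩
  obtain ⟨k', rfl⟩ : ∃ k', k = k' + 1 := ⟨k - 1, by omega⟩
  rw [Nat.add_sub_cancel]
  set ψ : Rec Γ (Fin (M + 2)) → ℚ := psiN p (k' + 1) r F s j with hψ
  have hprq : ((p : ℚ) ^ r) ≠ 0 := pow_ne_zero _ (by exact_mod_cast hp.ne_zero)
  have hDq : (D : ℚ) ≠ 0 := by exact_mod_cast hD.ne'
  set φ : Rec Γ (Fin (M + 3)) → ℚ := fun μ => ((D : ℚ) / (p : ℚ) ^ r) * cobR ψ μ with hφ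
  have hψtr : ∀ μ ∈ Bal Γ (Fin (M + 2)), ∀ ν ∈ Bal Γ (Fin (M + 2)), ψ (μ * ν) = ψ (ν * μ) :=
    hpsn Γ σ p (k' + 1) r M F s j hF hs hrot hj
  have hφtr : ∀ μ ∈ S, ∀ ν ∈ S, φ (μ * ν) = φ (ν * μ) := by
    intro μ hμ ν hν
    have h1 : cobR ψ (μ * ν) = cobR ψ (ν * μ) := by
      unfold cobR
      refine Finset.sum_congr rfl fun i _ => ?_
      rw [map_mul, map_mul, hψtr _ (BND.res_bal _ (hSB hμ)) _ (BND.res_bal _ (hSB hν))]
    simp only [hφ, h1]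
  have hφint : ∀ μ ∈ S, (∀ i, (μ.lst i).length = p ^ (k' + 1)) → ∃ z : ℤ, φ μ = z := by
    intro μ hμ hl
    have hne : ∀ i, μ.lst i ≠ [] := by
      intro i h
      have h1 := hl i
      rw [h] at h1
      have h2 : 0 < p ^ (k' + 1) := pow_pos hp.pos _
      simp only [List.length_nil] at h1
      omega
    have hzero : (∀ i : Fin (M + 3), ψ (Rec.res i.succAbove μ) = 0) → ∃ z : ℤ, φ μ = z := by
      intro h
      refine ⟨0, ?_⟩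
      have h5 : cobR ψ μ = 0 := by
        unfold cobR
        refine Finset.sum_eq_zero fun i _ => ?_
        rw [h i, mul_zero]
      simp only [hφ, h5, mul_zero, Int.cast_zero]
    by_cases hy : μ.val ^ N1 = 1
    · by_cases hy2 : p ∣ orderOf μ.val
      · obtain ⟨z, hz⟩ := hpcn Γ σ p (k' + 1) r M D F s hF hs hDe j hj μ (hSB hμ) (fun i =>
          (hgood (k' + 1) (by omega) (μ.lst i) μ.val (hl i) hy (hInc μ hμ hne i)).2 hy2)
        refine ⟨z, ?_⟩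
        simp only [hφ]
        rw [div_mul_eq_mul_div, hz, mul_div_cancel_left₀ _ hprq]
      · exact hzero fun i => psi_zero1 p (k' + 1) r F s j _ hy2
    · refine hzero fun i => psi_zero2 p (k' + 1) r F s j _ fun a => ?_
      by_contra h
      exact hy (hFs a μ.val h)
  have hstep : ∀ x ∈ Bc.support,
      ‖TX φ (p ^ (k' + 1)) x.2 - TX (fun μ => φ (μ ^ p)) (p ^ k') x.2‖ ≤
        (p : ℝ) ^ (-(k' + 1 : ℤ)) := fun x hx =>
    step hsup S k' φ hφtr hφint x.2 (hBc x hx) (hSx x hx)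
  have key : ∀ x ∈ Bc.support, ‖TX (cobR ψ) (p ^ (k' + 1)) x.2 -
      TX (cobR (fun μ => ψ (μ ^ p))) (p ^ k') x.2‖ ≤
      ‖(D : ℚ_[p])‖⁻¹ * (p : ℝ) ^ (-(((k' + 1 : ℕ) : ℤ) + r)) := by
    intro x hx
    have h1 := hstep x hx
    have h2 : TX φ (p ^ (k' + 1)) x.2 =
        (((D : ℚ) / (p : ℚ) ^ r : ℚ) : ℚ_[p]) * TX (cobR ψ) (p ^ (k' + 1)) x.2 := by
      rw [hφ, (t_TXlin ℚ_[p] Γ (Fin x.1) (M + 3) (p ^ (k' + 1)) x.2).2 ((D : ℚ) / (p : ℚ) ^ r)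
        (fun μ => cobR ψ μ)]
    have h3 : TX (fun μ => φ (μ ^ p)) (p ^ k') x.2 =
        (((D : ℚ) / (p : ℚ) ^ r : ℚ) : ℚ_[p]) * TX (cobR (fun μ => ψ (μ ^ p))) (p ^ k') x.2 := by
      have h4 : (fun μ : Rec Γ (Fin (M + 3)) => φ (μ ^ p)) = fun μ =>
          ((D : ℚ) / (p : ℚ) ^ r) * cobR (fun μ => ψ (μ ^ p)) μ := by
        funext μ
        simp only [hφ]
        rw [BNN.cobR_pow]
      rw [h4, (t_TXlin ℚ_[p] Γ (Fin x.1) (M + 3) (p ^ k') x.2).2 ((D : ℚ) / (p : ℚ) ^ r)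
        (fun μ => cobR (fun μ => ψ (μ ^ p)) μ)]
    rw [h2, h3, ← mul_sub, norm_mul] at h1
    have h5 : ‖(((D : ℚ) / (p : ℚ) ^ r : ℚ) : ℚ_[p])‖ = ‖(D : ℚ_[p])‖ * (p : ℝ) ^ (r : ℤ) := by
      push_cast
      rw [norm_div, norm_pow, Padic.norm_p, zpow_natCast, inv_pow, div_inv_eq_mul]
    rw [h5] at h1
    have h6 : (p : ℝ) ^ (-(((k' + 1 : ℕ) : ℤ) + r)) =
        (p : ℝ) ^ (-(k' + 1 : ℤ)) * ((p : ℝ) ^ (r : ℤ))⁻¹ := by
      rw [← _root_.zpow_neg, ← zpow_add₀ hp0.ne']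
      congr 1
      push_cast
      ring
    have h7 : (0 : ℝ) < (p : ℝ) ^ (r : ℤ) := zpow_pos hp0 _
    rw [h6, ← mul_assoc, ← div_eq_mul_inv, le_div_iff₀ h7, ← div_eq_inv_mul, le_div_iff₀' hD0]
    calc _ = ‖(D : ℚ_[p])‖ * (p : ℝ) ^ (r : ℤ) * ‖TX (cobR ψ) (p ^ (k' + 1)) x.2 -
          TX (cobR (fun μ => ψ (μ ^ p))) (p ^ k') x.2‖ := by ring
      _ ≤ _ := h1
  rw [BND.TK_bdK, BND.TK_bdK, ← Finset.sum_sub_distrib]
  refine (norm_sum_le _ _).trans ?_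
  rw [Finset.sum_mul, Finset.sum_mul]
  refine Finset.sum_le_sum fun x hx => ?_
  rw [← mul_sub, norm_mul, mul_assoc]
  exact mul_le_mul_of_nonneg_left (key x hx) (norm_nonneg _)

end Pool.Agent.FJA
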