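import Pool.Agent.AUK.FJA.St8

/-!
# CY3: the third cohomology of a cyclic group, equivariantly
-/

set_option autoImplicit false

noncomputable section

namespace Pool.Agent.FJA

namespace CY3

open Finset

section lin

variable {Γ : Type} (f : Γ → Γ → Γ → Γ → ℚ) (A : ℕ → Γ)

/-- the sums of the `u` -/
def Nu (t : ℕ) (b0 b1 : Γ) : ℚ := ∑ s ∈ range t, f (A (s + 1)) (A s) b0 b1

def vv (m : ℕ) (b0 b1 : Γ) : ℚ := (m : ℚ)⁻¹ * ∑ t ∈ range m, Nu f A t b0 b1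

def xx (m : ℕ) (k : Γ → ℤ) (b0 b1 : Γ) : ℚ :=
  vv f A m b0 b1 - (m : ℚ)⁻¹ * (k b1 * Nu f A m (A 0) b1 - k b0 * Nu f A m (A 0) b0)

theorem Nu_succ (t : ℕ) (b0 b1 : Γ) :
    Nu f A (t + 1) b0 b1 = Nu f A t b0 b1 + f (A (t + 1)) (A t) b0 b1 := sum_range_succ _ _

theorem Nu_zero (b0 b1 : Γ) : Nu f A 0 b0 b1 = 0 := sum_range_zero _

/-- the cocycle identity -/
def Coc : Prop := ∀ b0 b1 b2 b3 b4, f b1 b2 b3 b4 - f b0 b2 b3 b4 + f b0 b1 b3 b4 -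
  f b0 b1 b2 b4 + f b0 b1 b2 b3 = 0

variable {f} {A}

theorem Nu_d (hc : Coc f) (t : ℕ) (b0 b1 b2 : Γ) :
    Nu f A t b1 b2 - Nu f A t b0 b2 + Nu f A t b0 b1 = f (A t) b0 b1 b2 - f (A 0) b0 b1 b2 := by
  induction t with
  | zero => rw [Nu_zero, Nu_zero, Nu_zero]; ring
  | succ t ih =>
    rw [Nu_succ, Nu_succ, Nu_succ]
    have h := hc (A (t + 1)) (A t) b0 b1 b2
    linarith

theorem vv_d (hc : Coc f) {m : ℕ} (hm : 0 < m) (b0 b1 b2 : Γ) :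
    vv f A m b1 b2 - vv f A m b0 b2 + vv f A m b0 b1 =
      (m : ℚ)⁻¹ * ∑ t ∈ range m, f (A t) b0 b1 b2 - f (A 0) b0 b1 b2 := by
  have h0 : (m : ℚ) ≠ 0 := by
    have : (0 : ℚ) < m := by exact_mod_cast hm
    exact this.ne'
  have h1 : ∑ t ∈ range m, Nu f A t b1 b2 - ∑ t ∈ range m, Nu f A t b0 b2 +
      ∑ t ∈ range m, Nu f A t b0 b1 =
      ∑ t ∈ range m, f (A t) b0 b1 b2 - m * f (A 0) b0 b1 b2 := by
    rw [← sum_sub_distrib, ← sum_add_distrib, sum_congr rfl fun t _ => Nu_d hc t b0 b1 b2,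
      sum_sub_distrib, sum_const, card_range, nsmul_eq_mul]
  unfold vv
  have h2 : (m : ℚ)⁻¹ * ∑ t ∈ range m, Nu f A t b1 b2 - (m : ℚ)⁻¹ * ∑ t ∈ range m, Nu f A t b0 b2 +
      (m : ℚ)⁻¹ * ∑ t ∈ range m, Nu f A t b0 b1 = (m : ℚ)⁻¹ *
      (∑ t ∈ range m, Nu f A t b1 b2 - ∑ t ∈ range m, Nu f A t b0 b2 +
        ∑ t ∈ range m, Nu f A t b0 b1) := by ring
  rw [h2, h1, mul_sub, ← mul_assoc, inv_mul_cancel₀ h0, one_mul]

theorem xx_d (hc : Coc f) {m : ℕ} (hm : 0 < m) (k : Γ → ℤ) (b0 b1 b2 : Γ) :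
    xx f A m k b1 b2 - xx f A m k b0 b2 + xx f A m k b0 b1 =
      (m : ℚ)⁻¹ * ∑ t ∈ range m, f (A t) b0 b1 b2 - f (A 0) b0 b1 b2 := by
  rw [← vv_d hc hm b0 b1 b2]
  unfold xx
  ring

section per

variable {m : ℕ} (hp : ∀ s, A (s + m) = A s)

include hp

theorem Nu_shift (b0 b1 : Γ) : Nu f (fun s => A (s + 1)) m b0 b1 = Nu f A m b0 b1 := by
  have h1 := sum_range_succ' (fun s => f (A (s + 1)) (A s) b0 b1) m
  have h2 := sum_range_succ (fun s => f (A (s + 1)) (A s) b0 b1) m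
  have h3 : f (A (m + 1)) (A m) b0 b1 = f (A (0 + 1)) (A 0) b0 b1 := by
    have e1 := hp 1
    have e2 := hp 0
    rw [add_comm] at e1
    rw [zero_add] at e2
    rw [e1, e2]
  rw [h2, h3] at h1
  exact (add_right_cancel h1).symm

omit hp in
theorem vv_shift (hm : 0 < m) (b0 b1 : Γ) : vv f (fun s => A (s + 1)) m b0 b1 =
    vv f A m b0 b1 + (m : ℚ)⁻¹ * Nu f A m b0 b1 - f (A 1) (A 0) b0 b1 := by
  have h0 : (m : ℚ) ≠ 0 := by
    have : (0 : ℚ) < m := by exact_mod_cast hm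
    exact this.ne'
  have h1 : ∀ t, Nu f (fun s => A (s + 1)) t b0 b1 =
      Nu f A t b0 b1 + (f (A (t + 1)) (A t) b0 b1 - f (A 1) (A 0) b0 b1) := by
    intro t
    induction t with
    | zero => rw [Nu_zero, Nu_zero]; ring
    | succ t ih =>
      rw [Nu_succ, Nu_succ, ih]
      ring
  have h2 : ∑ t ∈ range m, Nu f (fun s => A (s + 1)) t b0 b1 =
      ∑ t ∈ range m, Nu f A t b0 b1 + (Nu f A m b0 b1 - m * f (A 1) (A 0) b0 b1) := by
    rw [sum_congr rfl fun t _ => h1 t, sum_add_distrib, sum_sub_distrib, sum_const, card_range,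
      nsmul_eq_mul]
    rfl
  unfold vv
  rw [h2]
  field_simp
  ring

variable (hc : Coc f)

include hc

theorem Nu_coc (b0 b1 b2 : Γ) : Nu f A m b1 b2 - Nu f A m b0 b2 + Nu f A m b0 b1 = 0 := by
  have h1 := hp 0
  rw [zero_add] at h1
  rw [Nu_d hc, h1, sub_self]

theorem Nu_self (b : Γ) : Nu f A m b b = 0 := by
  have h := Nu_coc hp hc b b b
  linarith

variable [Group Γ] {δ : Γ} (hδ : ∀ b0 b1 b2 b3, f (δ * b0) (δ * b1) (δ * b2) (δ * b3) = f b0 b1 b2 b3)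
  (hA : ∀ s, A (s + 1) = δ * A s)

include hδ hA

omit hc in
theorem Nu_inv (b0 b1 : Γ) : Nu f A m (δ * b0) (δ * b1) = Nu f A m b0 b1 := by
  rw [← Nu_shift hp (δ * b0) (δ * b1)]
  unfold Nu
  refine sum_congr rfl fun s _ => ?_
  change f (A (s + 1 + 1)) (A (s + 1)) (δ * b0) (δ * b1) = _
  rw [hA (s + 1), hA s, hδ, ← hA s]

theorem Nu_step (hm : 0 < m) : Nu f A m (A 0) (A 1) = 0 := by
  have h0 : (m : ℚ) ≠ 0 := by
    have : (0 : ℚ) < m := by exact_mod_cast hm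
    exact this.ne'
  have h1 : ∀ t, Nu f A m (A t) (A (t + 1)) = Nu f A m (A 0) (A 1) := by
    intro t
    induction t with
    | zero => rfl
    | succ t ih =>
      rw [← ih, hA (t + 1), hA t, Nu_inv hp hδ hA, ← hA t]
  have h2 : ∀ t : ℕ, Nu f A m (A 0) (A t) = t * Nu f A m (A 0) (A 1) := by
    intro t
    induction t with
    | zero => rw [Nu_self hp hc]; push_cast; ring
    | succ t ih =>
      have h3 := Nu_coc hp hc (A 0) (A t) (A (t + 1))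
      rw [h1 t, ih] at h3
      push_cast
      linarith
  have h3 := h2 m
  have h4 := hp 0
  rw [zero_add] at h4
  rw [h4, Nu_self hp hc] at h3
  exact ((mul_eq_zero.1 h3.symm).resolve_left h0)

theorem Nu_base (hm : 0 < m) (b : Γ) : Nu f A m (A 1) b = Nu f A m (A 0) b := by
  have h3 := Nu_coc hp hc (A 0) (A 1) b
  rw [Nu_step hp hc hδ hA hm] at h3
  linarith

/-- the difference is an integer -/
theorem xx_shift (hm : 0 < m) (hi : ∀ b0 b1 b2 b3, ∃ z : ℤ, f b0 b1 b2 b3 = z)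
    (k k' : Γ → ℤ) (hk : ∀ b, ∃ z : ℤ, k' b = k b + 1 + m * z) (b0 b1 : Γ) :
    ∃ z : ℤ, xx f (fun s => A (s + 1)) m k' b0 b1 - xx f A m k b0 b1 = z := by
  have h0 : (m : ℚ) ≠ 0 := by
    have : (0 : ℚ) < m := by exact_mod_cast hm
    exact this.ne'
  have hN : ∀ b b', ∃ z : ℤ, Nu f A m b b' = z := by
    intro b b'
    choose z hz using fun s => hi (A (s + 1)) (A s) b b'
    refine ⟨∑ s ∈ range m, z s, ?_⟩
    unfold Nu
    push_cast
    exact sum_congr rfl fun s _ => hz s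
  obtain ⟨z0, h0'⟩ := hk b0
  obtain ⟨z1, h1'⟩ := hk b1
  obtain ⟨w0, hw0⟩ := hN (A 0) b0
  obtain ⟨w1, hw1⟩ := hN (A 0) b1
  obtain ⟨u, hu⟩ := hi (A 1) (A 0) b0 b1
  refine ⟨-u - (z1 * w1 - z0 * w0), ?_⟩
  unfold xx
  rw [vv_shift hm, Nu_shift hp, Nu_shift hp, Nu_base hp hc hδ hA hm, Nu_base hp hc hδ hA hm,
    hw0, hw1, hu, h0', h1']
  have h5 := Nu_coc hp hc (A 0) b0 b1
  rw [hw0, hw1] at h5
  have h6 : Nu f A m b0 b1 = w1 - w0 := by linarith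
  rw [h6]
  push_cast
  field_simp
  ring

end per

end lin

/-! ### a cyclic orbit -/

section orb

variable {Γ : Type} [Group Γ]

/-- the sequence -/
def sq (δ a : Γ) (s : ℕ) : Γ := δ ^ s * a

theorem sq_zero (δ a : Γ) : sq δ a 0 = a := by
  unfold sq
  rw [pow_zero, one_mul]

theorem sq_succ (δ a : Γ) (s : ℕ) : sq δ a (s + 1) = δ * sq δ a s := by
  unfold sq
  rw [pow_succ', mul_assoc]

theorem sq_mul (δ a : Γ) : sq δ (δ * a) = fun s => sq δ a (s + 1) := by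
  funext s
  unfold sq
  rw [pow_succ, mul_assoc]

theorem sq_per (δ a : Γ) (s : ℕ) : sq δ a (s + orderOf δ) = sq δ a s := by
  unfold sq
  rw [pow_add, pow_orderOf_eq_one, mul_one]

/-- the cochain -/
def cc (f : Γ → Γ → Γ → Γ → ℚ) (P : Finset Γ) (δ : Γ) (m : ℕ) (k : Γ → Γ → ℤ)
    (b0 b1 b2 : Γ) : ℚ :=
  (m : ℚ)⁻¹ * ∑ a ∈ P, (f a b0 b1 b2 - (Int.fract (xx f (sq δ a) m (k a) b1 b2) -
    Int.fract (xx f (sq δ a) m (k a) b0 b2) + Int.fract (xx f (sq δ a) m (k a) b0 b1)))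

/-- the data -/
structure Dt (f : Γ → Γ → Γ → Γ → ℚ) (P : Finset Γ) (δ : Γ) (k : Γ → Γ → ℤ) : Prop where
  coc : Coc f
  int : ∀ b0 b1 b2 b3, ∃ z : ℤ, f b0 b1 b2 b3 = z
  inv : ∀ b0 b1 b2 b3, f (δ * b0) (δ * b1) (δ * b2) (δ * b3) = f b0 b1 b2 b3
  pos : 0 < orderOf δ
  card : P.card = orderOf δ
  orb : ∀ x ∈ P, δ * x ∈ P
  trans : ∀ x ∈ P, ∀ x' ∈ P, ∃ t : ℕ, x' = δ ^ t * x
  kk : ∀ a ∈ P, ∀ b, ∃ z : ℤ, k (δ * a) b = k a b + 1 + orderOf δ * z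

variable {f : Γ → Γ → Γ → Γ → ℚ} {P : Finset Γ} {δ : Γ} {k : Γ → Γ → ℤ}

theorem Dt.fr (h : Dt f P δ k) {a : Γ} (ha : a ∈ P) (b0 b1 : Γ) :
    Int.fract (xx f (sq δ (δ * a)) (orderOf δ) (k (δ * a)) b0 b1) =
      Int.fract (xx f (sq δ a) (orderOf δ) (k a) b0 b1) := by
  rw [Int.fract_eq_fract, sq_mul]
  exact xx_shift (sq_per δ a) h.coc h.inv (sq_succ δ a) h.pos h.int (k a) (k (δ * a))
    (h.kk a ha) b0 b1

theorem Dt.mem (h : Dt f P δ k) {a : Γ} (ha : a ∈ P) (t : ℕ) : δ ^ t * a ∈ P := by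
  induction t with
  | zero => rwa [pow_zero, one_mul]
  | succ t ih =>
    rw [pow_succ', mul_assoc]
    exact h.orb _ ih

theorem Dt.fr' (h : Dt f P δ k) {a a' : Γ} (ha : a ∈ P) (ha' : a' ∈ P) (b0 b1 : Γ) :
    Int.fract (xx f (sq δ a') (orderOf δ) (k a') b0 b1) =
      Int.fract (xx f (sq δ a) (orderOf δ) (k a) b0 b1) := by
  obtain ⟨t, rfl⟩ := h.trans a ha a' ha'
  clear ha'
  induction t with
  | zero => rw [pow_zero, one_mul]
  | succ t ih =>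
    rw [pow_succ', mul_assoc, h.fr (h.mem ha t), ih]

theorem Dt.sum (h : Dt f P δ k) {a : Γ} (ha : a ∈ P) (g : Γ → ℚ) :
    ∑ x ∈ P, g x = ∑ t ∈ range (orderOf δ), g (sq δ a t) := by
  classical
  have hinj : Set.InjOn (sq δ a) (range (orderOf δ)) := by
    intro s hs t ht hst
    have h1 : δ ^ s = δ ^ t := mul_right_cancel hst
    refine pow_injOn_Iio_orderOf ?_ ?_ h1
    · exact Finset.mem_range.1 hs
    · exact Finset.mem_range.1 ht
  have h1 : P = (range (orderOf δ)).image (sq δ a) := by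
    symm
    apply Finset.eq_of_subset_of_card_le
    · intro x hx
      obtain ⟨t, _, rfl⟩ := Finset.mem_image.1 hx
      exact h.mem ha t
    · rw [Finset.card_image_of_injOn hinj, card_range, h.card]
  rw [h1, Finset.sum_image hinj]

theorem Dt.cc_eq (h : Dt f P δ k) {a : Γ} (ha : a ∈ P) (b0 b1 b2 : Γ) :
    cc f P δ (orderOf δ) k b0 b1 b2 =
      ((orderOf δ : ℕ) : ℚ)⁻¹ * ∑ x ∈ P, f x b0 b1 b2 -
        (Int.fract (xx f (sq δ a) (orderOf δ) (k a) b1 b2) -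
          Int.fract (xx f (sq δ a) (orderOf δ) (k a) b0 b2) +
          Int.fract (xx f (sq δ a) (orderOf δ) (k a) b0 b1)) := by
  have h0 : ((orderOf δ : ℕ) : ℚ) ≠ 0 := by
    have : (0 : ℚ) < (orderOf δ : ℕ) := by exact_mod_cast h.pos
    exact this.ne'
  unfold cc
  rw [Finset.sum_congr rfl fun x hx => by
    rw [h.fr' ha hx b1 b2, h.fr' ha hx b0 b2, h.fr' ha hx b0 b1], sum_sub_distrib, sum_const,
    h.card, nsmul_eq_mul, mul_sub, ← mul_assoc, inv_mul_cancel₀ h0, one_mul]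

theorem Dt.cc_int (h : Dt f P δ k) (hne : P.Nonempty) (b0 b1 b2 : Γ) :
    ∃ z : ℤ, cc f P δ (orderOf δ) k b0 b1 b2 = z := by
  obtain ⟨a, ha⟩ := hne
  obtain ⟨z, hz⟩ := h.int a b0 b1 b2
  refine ⟨z + (⌊xx f (sq δ a) (orderOf δ) (k a) b1 b2⌋ -
    ⌊xx f (sq δ a) (orderOf δ) (k a) b0 b2⌋ + ⌊xx f (sq δ a) (orderOf δ) (k a) b0 b1⌋), ?_⟩
  have h1 := xx_d (A := sq δ a) h.coc h.pos (k a) b0 b1 b2
  rw [sq_zero] at h1
  rw [h.cc_eq ha, h.sum ha fun x => f x b0 b1 b2]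
  unfold Int.fract
  push_cast
  linarith

theorem Dt.cc_d (h : Dt f P δ k) (hne : P.Nonempty) (b0 b1 b2 b3 : Γ) :
    f b0 b1 b2 b3 = cc f P δ (orderOf δ) k b1 b2 b3 - cc f P δ (orderOf δ) k b0 b2 b3 +
      cc f P δ (orderOf δ) k b0 b1 b3 - cc f P δ (orderOf δ) k b0 b1 b2 := by
  have h0 : ((orderOf δ : ℕ) : ℚ) ≠ 0 := by
    have : (0 : ℚ) < (orderOf δ : ℕ) := by exact_mod_cast h.pos
    exact this.ne'
  obtain ⟨a, ha⟩ := hne
  rw [h.cc_eq ha, h.cc_eq ha, h.cc_eq ha, h.cc_eq ha]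
  have h1 : ∑ x ∈ P, f x b1 b2 b3 - ∑ x ∈ P, f x b0 b2 b3 + ∑ x ∈ P, f x b0 b1 b3 -
      ∑ x ∈ P, f x b0 b1 b2 = (orderOf δ : ℕ) * f b0 b1 b2 b3 := by
    rw [← sum_sub_distrib, ← sum_add_distrib, ← sum_sub_distrib,
      sum_congr rfl (g := fun _ => f b0 b1 b2 b3) (fun x _ => ?_), sum_const, h.card,
      nsmul_eq_mul]
    have h2 := h.coc x b0 b1 b2 b3
    linarith
  have h2 : f b0 b1 b2 b3 = ((orderOf δ : ℕ) : ℚ)⁻¹ * (∑ x ∈ P, f x b1 b2 b3 -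
      ∑ x ∈ P, f x b0 b2 b3 + ∑ x ∈ P, f x b0 b1 b3 - ∑ x ∈ P, f x b0 b1 b2) := by
    rw [h1, ← mul_assoc, inv_mul_cancel₀ h0, one_mul]
  rw [h2]
  ring

end orb

/-! ### equivariance -/

section eqv

variable {Γ : Type} [Group Γ]

theorem xx_eqv (f f' : Γ → Γ → Γ → Γ → ℚ) (A A' : ℕ → Γ) (m : ℕ) (k k' : Γ → ℤ) (γ : Γ)
    (hf : ∀ b0 b1 b2 b3, f' (γ * b0) (γ * b1) (γ * b2) (γ * b3) = f b0 b1 b2 b3)
    (hA : ∀ s, A' s = γ * A s) (hk : ∀ b, k' (γ * b) = k b) (b0 b1 : Γ) :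
    xx f' A' m k' (γ * b0) (γ * b1) = xx f A m k b0 b1 := by
  have h1 : ∀ t b b', Nu f' A' t (γ * b) (γ * b') = Nu f A t b b' := by
    intro t b b'
    unfold Nu
    refine sum_congr rfl fun s _ => ?_
    rw [hA, hA, hf]
  unfold xx vv
  rw [hA 0, h1, h1, hk, hk, sum_congr rfl fun t _ => h1 t b0 b1]

theorem cc_eqv (f f' : Γ → Γ → Γ → Γ → ℚ) (P P' : Finset Γ) (δ δ' : Γ) (m : ℕ)
    (k k' : Γ → Γ → ℤ) (γ : Γ)
    (hf : ∀ b0 b1 b2 b3, f' (γ * b0) (γ * b1) (γ * b2) (γ * b3) = f b0 b1 b2 b3)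
    (hP : ∀ x, γ * x ∈ P' ↔ x ∈ P) (hδ : δ' = γ * δ * γ⁻¹)
    (hk : ∀ a ∈ P, ∀ b, k' (γ * a) (γ * b) = k a b) (b0 b1 b2 : Γ) :
    cc f' P' δ' m k' (γ * b0) (γ * b1) (γ * b2) = cc f P δ m k b0 b1 b2 := by
  classical
  have hP' : P' = P.image (γ * ·) := by
    ext x
    rw [Finset.mem_image]
    constructor
    · intro hx
      refine ⟨γ⁻¹ * x, (hP _).1 (by rwa [mul_inv_cancel_left]), mul_inv_cancel_left _ _⟩
    · rintro ⟨z, hz, rfl⟩
      exact (hP z).2 hz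
  have hs : ∀ a s, sq δ' (γ * a) s = γ * sq δ a s := by
    intro a s
    unfold sq
    rw [hδ, conj_pow]
    group
  unfold cc
  rw [hP', Finset.sum_image fun x _ z _ h => mul_left_cancel h]
  congr 1
  refine sum_congr rfl fun a ha => ?_
  have hx : ∀ b b', xx f' (sq δ' (γ * a)) m (k' (γ * a)) (γ * b) (γ * b') =
      xx f (sq δ a) m (k a) b b' := fun b b' =>
    xx_eqv f f' (sq δ a) (sq δ' (γ * a)) m (k a) (k' (γ * a)) γ hf (hs a) (hk a ha) b b'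
  rw [hf, hx, hx, hx]

theorem cc_zero (f : Γ → Γ → Γ → Γ → ℚ) (hf : ∀ b0 b1 b2 b3, f b0 b1 b2 b3 = 0) (P : Finset Γ)
    (δ : Γ) (m : ℕ) (k : Γ → Γ → ℤ) (b0 b1 b2 : Γ) : cc f P δ m k b0 b1 b2 = 0 := by
  have h1 : ∀ A t b b', Nu f A t b b' = 0 := fun A t b b' => sum_eq_zero fun s _ => hf _ _ _ _
  have h2 : ∀ A m (k : Γ → ℤ) b b', xx f A m k b b' = 0 := by
    intro A m k b b'
    unfold xx vv
    rw [sum_eq_zero fun t _ => h1 A t b b', h1, h1]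
    ring
  unfold cc
  rw [sum_eq_zero, mul_zero]
  intro a _
  rw [hf, h2, h2, h2, Int.fract_zero]
  ring

end eqv

/-- the function of four variables -/
def ff {Γ : Type} (D : ℕ) (F : (Fin 4 → Γ) → Γ → ℚ) (y : Γ) (b0 b1 b2 b3 : Γ) : ℚ :=
  (D : ℚ) * F ![b0, b1, b2, b3] y

end CY3

open CY3 in
theorem t_CY3 (hkap : S_KAP) : S_CY3 := by
  intro Γ _ Pt dl hP S F hS hF
  obtain ⟨kp, hkp⟩ := hkap Γ Pt dl hP
  obtain ⟨D, hD, hden⟩ := hF.den
  have hD0 : (D : ℚ) ≠ 0 := by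
    have : (0 : ℚ) < D := by exact_mod_cast hD
    exact this.ne'
  refine ⟨D, fun Y y b => (D : ℚ)⁻¹ * cc (ff D F y) (Pt Y y) (dl Y y) (orderOf (dl Y y))
    (kp Y y) (b 0) (b 1) (b 2), hD, ?_⟩
  intro Y y hY hy
  have hinv : ∀ (γ : Γ) (z b0 b1 b2 b3 : Γ), ff D F (γ * z * γ⁻¹) (γ * b0) (γ * b1) (γ * b2)
      (γ * b3) = ff D F z b0 b1 b2 b3 := by
    intro γ z b0 b1 b2 b3
    unfold ff
    rw [← hF.inv γ ![b0, b1, b2, b3] z]
    congr 2
    funext i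
    fin_cases i <;> rfl
  have hdt : Dt (ff D F y) (Pt Y y) (dl Y y) (kp Y y) := by
    refine ⟨?_, ?_, ?_, ?_, hP.card Y y hY hy, hP.orb Y y hY hy, hP.trans Y y hY hy, ?_⟩
    · intro b0 b1 b2 b3 b4
      have h1 := hF.coc ![b0, b1, b2, b3, b4] y
      have e0 : (fun j => ![b0, b1, b2, b3, b4] ((0 : Fin 5).succAbove j)) =
          ![b1, b2, b3, b4] := by funext j; fin_cases j <;> rfl
      have e1 : (fun j => ![b0, b1, b2, b3, b4] ((1 : Fin 5).succAbove j)) =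
          ![b0, b2, b3, b4] := by funext j; fin_cases j <;> rfl
      have e2 : (fun j => ![b0, b1, b2, b3, b4] ((2 : Fin 5).succAbove j)) =
          ![b0, b1, b3, b4] := by funext j; fin_cases j <;> rfl
      have e3 : (fun j => ![b0, b1, b2, b3, b4] ((3 : Fin 5).succAbove j)) =
          ![b0, b1, b2, b4] := by funext j; fin_cases j <;> rfl
      have e4 : (fun j => ![b0, b1, b2, b3, b4] ((4 : Fin 5).succAbove j)) =
          ![b0, b1, b2, b3] := by funext j; fin_cases j <;> rfl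
      rw [Fin.sum_univ_five, e0, e1, e2, e3, e4] at h1
      have h2 : F ![b1, b2, b3, b4] y - F ![b0, b2, b3, b4] y + F ![b0, b1, b3, b4] y -
          F ![b0, b1, b2, b4] y + F ![b0, b1, b2, b3] y = 0 := by
        rw [← h1]
        have v0 : ((0 : Fin 5) : ℕ) = 0 := rfl
        have v1 : ((1 : Fin 5) : ℕ) = 1 := rfl
        have v2 : ((2 : Fin 5) : ℕ) = 2 := rfl
        have v3 : ((3 : Fin 5) : ℕ) = 3 := rfl
        have v4 : ((4 : Fin 5) : ℕ) = 4 := rfl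
        rw [v0, v1, v2, v3, v4]
        ring
      unfold ff
      linear_combination (D : ℚ) * h2
    · intro b0 b1 b2 b3
      exact hden _ y
    · intro b0 b1 b2 b3
      obtain ⟨e, he⟩ := hP.stb Y y hY hy
      have h1 := hinv (dl Y y) y b0 b1 b2 b3
      rwa [he.1, mul_inv_cancel_right] at h1
    · exact (hP.fin Y y hY hy).orderOf_pos
    · intro a ha b
      exact (hkp Y y hY hy a ha b).2.2.1
  have hne : (Pt Y y).Nonempty := hP.ne Y y hY hy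
  refine ⟨?_, ?_, ?_, ?_, ?_⟩
  · intro b
    obtain ⟨z, hz⟩ := hdt.cc_int hne (b 0) (b 1) (b 2)
    refine ⟨z, ?_⟩
    rw [← mul_assoc, mul_inv_cancel₀ hD0, one_mul, hz]
  · intro γ b
    simp only
    congr 1
    have ho : orderOf (dl (Y.map (γ * ·)) (γ * y * γ⁻¹)) = orderOf (dl Y y) := by
      rw [hP.dinv γ Y y hY hy]
      exact (MulAut.conj γ).orderOf_eq (dl Y y)
    rw [ho]
    exact cc_eqv (ff D F y) (ff D F (γ * y * γ⁻¹)) (Pt Y y) _ (dl Y y) _ (orderOf (dl Y y))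
      (kp Y y) _ γ (hinv γ y) (hP.inv γ Y y hY hy) (hP.dinv γ Y y hY hy)
      (fun a ha b => (hkp Y y hY hy a ha b).1 γ) (b 0) (b 1) (b 2)
  · intro b
    simp only
    congr 1
    rw [hP.rot Y y hY hy, hP.drot Y y hY hy]
    have h1 := cc_eqv (ff D F y) (ff D F y) (Pt Y y) (Pt Y y) (dl Y y) (dl Y y)
      (orderOf (dl Y y)) (kp Y y) (kp (rotL y Y) y) 1
      (fun b0 b1 b2 b3 => by rw [one_mul, one_mul, one_mul, one_mul])
      (fun x => by rw [one_mul]) (by rw [one_mul, inv_one, mul_one])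
      (fun a ha b => by
        rw [one_mul, one_mul]
        exact (hkp Y y hY hy a ha b).2.1) (b 0) (b 1) (b 2)
    rwa [one_mul, one_mul, one_mul] at h1
  · intro b
    have h1 := hdt.cc_d hne (b 0) (b 1) (b 2) (b 3)
    have h2 : ff D F y (b 0) (b 1) (b 2) (b 3) = (D : ℚ) * F b y := by
      unfold ff
      congr 2
      funext i
      fin_cases i <;> rfl
    rw [h2] at h1
    rw [Fin.sum_univ_four]
    have v0 : ((0 : Fin 4) : ℕ) = 0 := rfl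
    have v1 : ((1 : Fin 4) : ℕ) = 1 := rfl
    have v2 : ((2 : Fin 4) : ℕ) = 2 := rfl
    have v3 : ((3 : Fin 4) : ℕ) = 3 := rfl
    have a00 : (0 : Fin 4).succAbove (0 : Fin 3) = 1 := rfl
    have a01 : (0 : Fin 4).succAbove (1 : Fin 3) = 2 := rfl
    have a02 : (0 : Fin 4).succAbove (2 : Fin 3) = 3 := rfl
    have a10 : (1 : Fin 4).succAbove (0 : Fin 3) = 0 := rfl
    have a11 : (1 : Fin 4).succAbove (1 : Fin 3) = 2 := rfl
    have a12 : (1 : Fin 4).succAbove (2 : Fin 3) = 3 := rfl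
    have a20 : (2 : Fin 4).succAbove (0 : Fin 3) = 0 := rfl
    have a21 : (2 : Fin 4).succAbove (1 : Fin 3) = 1 := rfl
    have a22 : (2 : Fin 4).succAbove (2 : Fin 3) = 3 := rfl
    have a30 : (3 : Fin 4).succAbove (0 : Fin 3) = 0 := rfl
    have a31 : (3 : Fin 4).succAbove (1 : Fin 3) = 1 := rfl
    have a32 : (3 : Fin 4).succAbove (2 : Fin 3) = 2 := rfl
    simp only
    rw [v0, v1, v2, v3, a00, a01, a02, a10, a11, a12, a20, a21, a22, a30, a31, a32]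
    have h3 : F b y = (D : ℚ)⁻¹ * ((D : ℚ) * F b y) := by
      rw [← mul_assoc, inv_mul_cancel₀ hD0, one_mul]
    rw [h3, h1]
    ring
  · intro h b
    have h1 : ∀ b0 b1 b2 b3, ff D F y b0 b1 b2 b3 = 0 := by
      intro b0 b1 b2 b3
      unfold ff
      rw [h, mul_zero]
    simp only
    rw [cc_zero _ h1, mul_zero]

end Pool.Agent.FJA
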