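import Pool.Agent.AUK.FJA.P_MEX
import Pool.Agent.AUK.FJA.St8

/-!
# DNA: in the degrees `0` and `1` there are no denominators
-/

set_option autoImplicit false

open Matrix Pool.Agent.WhK Pool.Agent.Lib25 CategoryTheory

noncomputable section

namespace Pool.Agent.FJA

namespace DNA

/-- The multilinear extension of a function which is constant on the supports. -/
theorem mex_const {Γ : Type} {M : ℕ} (F : (Fin M → Γ) → ℚ) (c : Fin M → (Γ →₀ ℚ)) (r : ℚ)
    (hc : ∀ i, aug (c i) = 1) (hF : ∀ x : Fin M → Γ, (∀ i, x i ∈ (c i).support) → F x = r) :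
    mex F c = r := by
  rw [MEX.mex_def]
  have h1 : ∑ x ∈ Fintype.piFinset (fun i => (c i).support), (∏ i, c i (x i)) * F x =
      ∑ x ∈ Fintype.piFinset (fun i => (c i).support), (∏ i, c i (x i)) * r := by
    refine Finset.sum_congr rfl fun x hx => ?_
    rw [hF x (Fintype.mem_piFinset.1 hx)]
  rw [h1, ← Finset.sum_mul, ← Finset.prod_univ_sum]
  have h2 : ∀ i, ∑ x ∈ (c i).support, c i x = 1 := fun i => hc i
  rw [Finset.prod_congr rfl fun i _ => h2 i, Finset.prod_const_one, one_mul]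

/-- The support of the average. -/
theorem supp_avS {Γ : Type} (Pt : List Γ → Γ → Finset Γ) (Y : List Γ) (y : Γ) (x : Γ)
    (hx : x ∈ (avS Pt Y y).support) : x ∈ Pt Y y := by
  classical
  unfold avS at hx
  obtain ⟨i, hi, hxi⟩ := Finset.mem_biUnion.1 (Finsupp.support_finsetSum hx)
  have h := Finsupp.support_single_subset hxi
  rw [Finset.mem_singleton] at h
  rw [h]
  exact hi

section

variable {Γ : Type} [Group Γ]

/-- Degree zero: the function is constant. -/
theorem zero_deg (S : Γ → Prop) (F : (Fin (0 + 1) → Γ) → Γ → ℚ) (hF : GCoch 0 S F) (y : Γ)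
    (a b : Fin (0 + 1) → Γ) : F a y = F b y := by
  have h := hF.coc ![b 0, a 0] y
  rw [Fin.sum_univ_two] at h
  have e0 : (fun j : Fin (0 + 1) => (![b 0, a 0] : Fin (0 + 2) → Γ) ((0 : Fin 2).succAbove j)) =
      a := by
    funext j
    fin_cases j
    rfl
  have e1 : (fun j : Fin (0 + 1) => (![b 0, a 0] : Fin (0 + 2) → Γ) ((1 : Fin 2).succAbove j)) =
      b := by
    funext j
    fin_cases j
    rfl
  rw [e0, e1] at h
  simp only [Fin.val_zero, Fin.val_one, pow_zero, pow_one] at h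
  linarith

/-- Degree one: the cocycle identity. -/
theorem coc_one (S : Γ → Prop) (F : (Fin (1 + 1) → Γ) → Γ → ℚ) (hF : GCoch 1 S F) (y : Γ)
    (b0 b1 b2 : Γ) : F ![b0, b1] y + F ![b1, b2] y = F ![b0, b2] y := by
  have h := hF.coc ![b0, b1, b2] y
  rw [Fin.sum_univ_three] at h
  have e0 : (fun j : Fin (1 + 1) => (![b0, b1, b2] : Fin (1 + 2) → Γ)
      ((0 : Fin 3).succAbove j)) = ![b1, b2] := by
    funext j
    fin_cases j <;> rfl
  have e1 : (fun j : Fin (1 + 1) => (![b0, b1, b2] : Fin (1 + 2) → Γ)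
      ((1 : Fin 3).succAbove j)) = ![b0, b2] := by
    funext j
    fin_cases j <;> rfl
  have e2 : (fun j : Fin (1 + 1) => (![b0, b1, b2] : Fin (1 + 2) → Γ)
      ((2 : Fin 3).succAbove j)) = ![b0, b1] := by
    funext j
    fin_cases j <;> rfl
  rw [e0, e1, e2] at h
  have v2 : ((2 : Fin 3) : ℕ) = 2 := rfl
  have v1 : ((1 : Fin 3) : ℕ) = 1 := rfl
  have v0 : ((0 : Fin 3) : ℕ) = 0 := rfl
  simp only [v0, v1, v2, pow_zero, pow_one] at h
  have e3 : (-1 : ℚ) ^ 2 = 1 := by norm_num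
  rw [e3] at h
  linarith

/-- The two-element invariance. -/
theorem inv_one (S : Γ → Prop) (F : (Fin (1 + 1) → Γ) → Γ → ℚ) (hF : GCoch 1 S F) (y γ : Γ)
    (hγ : Commute γ y) (b0 b1 : Γ) : F ![γ * b0, γ * b1] y = F ![b0, b1] y := by
  have h := hF.inv γ ![b0, b1] y
  have e : γ * y * γ⁻¹ = y := by rw [hγ.eq, mul_inv_cancel_right]
  have e0 : (fun i => γ * (![b0, b1] : Fin (1 + 1) → Γ) i) = ![γ * b0, γ * b1] := by
    funext j
    fin_cases j <;> rfl
  rw [e, e0] at h
  exact h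

/-- Elements of finite order do not contribute. -/
theorem fin_zero (S : Γ → Prop) (F : (Fin (1 + 1) → Γ) → Γ → ℚ) (hF : GCoch 1 S F) (y δ : Γ)
    (hδ : Commute δ y) (hfin : IsOfFinOrder δ) (a : Γ) : F ![δ * a, a] y = 0 := by
  have key : ∀ t : ℕ, F ![δ ^ t * a, a] y = (t : ℚ) * F ![δ * a, a] y := by
    intro t
    induction t with
    | zero =>
      have h := coc_one S F hF y a a a
      rw [pow_zero, one_mul, Nat.cast_zero, zero_mul]
      linarith
    | succ t ih =>
      have h := coc_one S F hF y (δ ^ (t + 1) * a) (δ ^ t * a) a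
      have h2 := inv_one S F hF y (δ ^ t) (hδ.pow_left t) (δ * a) a
      rw [← mul_assoc, ← pow_succ] at h2
      rw [← h, h2, ih]
      push_cast
      ring
  have h0 := key (orderOf δ)
  rw [pow_orderOf_eq_one, one_mul] at h0
  have h := coc_one S F hF y a a a
  have h1 : F ![a, a] y = 0 := by linarith
  rw [h1] at h0
  rcases mul_eq_zero.1 h0.symm with h2 | h2
  · have := hfin.orderOf_pos
    rw [Nat.cast_eq_zero] at h2
    omega
  · exact h2

/-- Degree one: left multiplications by elements of finite order of the centraliser. -/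
theorem one_deg (S : Γ → Prop) (F : (Fin (1 + 1) → Γ) → Γ → ℚ) (hF : GCoch 1 S F) (y δ ε : Γ)
    (hδ : Commute δ y) (hfin : IsOfFinOrder δ) (hε : Commute ε y) (hfin' : IsOfFinOrder ε)
    (a b : Γ) : F ![δ * a, ε * b] y = F ![a, b] y := by
  have h1 := coc_one S F hF y (δ * a) a (ε * b)
  have h2 := coc_one S F hF y a (ε * b) b
  rw [fin_zero S F hF y δ hδ hfin a] at h1
  rw [fin_zero S F hF y ε hε hfin' b] at h2
  linarith

omit [Group Γ] in
theorem eta_two (a : Fin (1 + 1) → Γ) : a = ![a 0, a 1] := by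
  funext j
  fin_cases j <;> rfl

end

end DNA

open DNA

theorem t_DNA (havs : S_AVS) : S_DNA := by
  intro m hm Γ _ Pt dl hP S F _ hF
  obtain ⟨D, hD, hden⟩ := hF.den
  obtain ⟨hsec, -, -⟩ := havs Γ Pt dl hP
  refine ⟨D, hD, fun Y y hY hy => ?_⟩
  -- the values agree
  have key : ∀ a b : Fin (m + 1) → Γ, (∀ i, a i ∈ Pt (Y i) y) → (∀ i, b i ∈ Pt (Y i) y) →
      F a y = F b y := by
    intro a b ha hb
    have hex : ∀ i, ∃ δ : Γ, Commute δ y ∧ IsOfFinOrder δ ∧ a i = δ * b i := by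
      intro i
      obtain ⟨t, ht⟩ := hP.trans (Y i) y (hY i) hy (b i) (hb i) (a i) (ha i)
      obtain ⟨e, he⟩ := hP.stb (Y i) y (hY i) hy
      have hc : Commute (dl (Y i) y) y := he.1
      exact ⟨dl (Y i) y ^ t, hc.pow_left t, (hP.fin (Y i) y (hY i) hy).pow, ht⟩
    rcases Nat.lt_or_ge m 1 with h | h
    · have hm0 : m = 0 := by omega
      subst hm0
      exact zero_deg S F hF y a b
    · have hm1 : m = 1 := by omega
      subst hm1
      obtain ⟨δ, hδ, hδf, h0⟩ := hex 0
      obtain ⟨ε, hε, hεf, h1⟩ := hex 1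
      rw [eta_two a, eta_two b, h0, h1]
      exact one_deg S F hF y δ ε hδ hδf hε hεf (b 0) (b 1)
  have val : ∀ a : Fin (m + 1) → Γ, (∀ i, a i ∈ Pt (Y i) y) → mA Pt F Y y = F a y := by
    intro a ha
    refine mex_const _ _ _ (fun i => hsec.aug _ _ hy (hY i)) ?_
    intro x hx
    exact key x a (fun i => supp_avS Pt (Y i) y (x i) (hx i)) ha
  refine ⟨?_, val⟩
  choose a ha using fun i => hP.ne (Y i) y (hY i) hy
  obtain ⟨z, hz⟩ := hden a y
  exact ⟨z, by rw [val a ha, hz]⟩

end Pool.Agent.FJA
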