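import Pool.Agent.AUK.FJA.P_MEX
import Pool.Agent.AUK.FJA.St8

/-!
# DNB: reduction of denominators in degree two
-/

set_option autoImplicit false

noncomputable section

namespace Pool.Agent.FJA

namespace DNB

section Alg

variable {Γ : Type}

/-- The average. -/
def avg (P : Finset Γ) (h : Γ → ℚ) : ℚ := (∑ a ∈ P, h a) / (P.card : ℚ)

theorem avg_comb (P : Finset Γ) (h1 h2 h3 : Γ → ℚ) :
    avg P h1 - avg P h2 + avg P h3 = avg P fun a => h1 a - h2 a + h3 a := by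
  unfold avg
  rw [Finset.sum_add_distrib, Finset.sum_sub_distrib]
  ring

theorem avg_sub (P : Finset Γ) (h1 h2 : Γ → ℚ) :
    avg P h1 - avg P h2 = avg P fun a => h1 a - h2 a := by
  unfold avg
  rw [Finset.sum_sub_distrib]
  ring

theorem avg_const {P : Finset Γ} (hP : P.Nonempty) (c : ℚ) : avg P (fun _ => c) = c := by
  unfold avg
  have h : (P.card : ℚ) ≠ 0 := by exact_mod_cast hP.card_pos.ne'
  rw [Finset.sum_const, nsmul_eq_mul, mul_comm, mul_div_assoc, div_self h, mul_one]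

theorem avg_int {P : Finset Γ} {D mm : ℕ} (hP : P.Nonempty) (hd : P.card ∣ mm) (h : Γ → ℚ)
    (hi : ∀ a, ∃ z : ℤ, (D : ℚ) * h a = z) : ∃ z : ℤ, (D : ℚ) * ((mm : ℚ) * avg P h) = z := by
  obtain ⟨k, rfl⟩ := hd
  choose z hz using hi
  refine ⟨k * ∑ a ∈ P, z a, ?_⟩
  have h0 : (P.card : ℚ) ≠ 0 := by exact_mod_cast hP.card_pos.ne'
  have h1 : (D : ℚ) * ∑ a ∈ P, h a = ∑ a ∈ P, (z a : ℚ) := by
    rw [Finset.mul_sum]
    exact Finset.sum_congr rfl fun a _ => hz a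
  unfold avg
  push_cast
  rw [← h1]
  field_simp

/-- The cochain `c01`. -/
def c01 (mm : ℕ) (Fy : (Fin 3 → Γ) → ℚ) (P : Finset Γ) (b0 b1 : Γ) : ℚ :=
  (mm : ℚ) * avg P fun a => Fy ![a, b0, b1]

/-- The cochain `e11`. -/
def e11 (mm : ℕ) (Fy : (Fin 3 → Γ) → ℚ) (P0 P1 : Finset Γ) (b0 b1 : Γ) : ℚ :=
  c01 mm Fy P1 b0 b1 - c01 mm Fy P0 b0 b1

/-- The cochain `c10` before rounding. -/
def g10 (mm : ℕ) (Fy : (Fin 3 → Γ) → ℚ) (P0 P1 : Finset Γ) (b : Γ) : ℚ :=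
  avg P0 fun a => e11 mm Fy P0 P1 a b

/-- The cochain `c10`. -/
def c10 (D mm : ℕ) (Fy : (Fin 3 → Γ) → ℚ) (P0 P1 : Finset Γ) (b : Γ) : ℚ :=
  ((⌊(D : ℚ) * g10 mm Fy P0 P1 b⌋ : ℤ) : ℚ) / D

/-- The function whose averages are `L`. -/
def ll (D mm : ℕ) (Fy : (Fin 3 → Γ) → ℚ) (P : Fin 2 → Finset Γ) (b : Fin 2 → Γ) : ℚ :=
  (c01 mm Fy (P 0) (b 0) (b 1) + c10 D mm Fy (P 0) (P 1) (b 1)) / mm

/-- The conditions on the cochain. -/
structure Oc (D : ℕ) (Fy : (Fin 3 → Γ) → ℚ) : Prop where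
  int : ∀ b, ∃ z : ℤ, (D : ℚ) * Fy b = z
  coc : ∀ b0 b1 b2 b3, Fy ![b1, b2, b3] - Fy ![b0, b2, b3] + Fy ![b0, b1, b3] -
    Fy ![b0, b1, b2] = 0

/-- The conditions on a vertex. -/
structure Ok (mm : ℕ) (P : Finset Γ) : Prop where
  ne : P.Nonempty
  dvd : P.card ∣ mm

variable {D mm : ℕ} {Fy : (Fin 3 → Γ) → ℚ} {P0 P1 P2 : Finset Γ}

theorem c01_d (hF : Oc D Fy) (h0 : Ok mm P0) (b0 b1 b2 : Γ) :
    c01 mm Fy P0 b1 b2 - c01 mm Fy P0 b0 b2 + c01 mm Fy P0 b0 b1 = mm * Fy ![b0, b1, b2] := by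
  unfold c01
  rw [← mul_sub, ← mul_add, avg_comb]
  congr 1
  refine Eq.trans ?_ (avg_const h0.ne _)
  congr 1
  funext a
  have e0 := hF.coc a b0 b1 b2
  linarith

theorem e11_d (hF : Oc D Fy) (h0 : Ok mm P0) (h1 : Ok mm P1) (b0 b1 b2 : Γ) :
    e11 mm Fy P0 P1 b1 b2 - e11 mm Fy P0 P1 b0 b2 + e11 mm Fy P0 P1 b0 b1 = 0 := by
  unfold e11
  have e1 := c01_d hF h1 b0 b1 b2
  have e2 := c01_d hF h0 b0 b1 b2
  linear_combination e1 - e2

theorem g10_d (hF : Oc D Fy) (h0 : Ok mm P0) (h1 : Ok mm P1) (b0 b1 : Γ) :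
    g10 mm Fy P0 P1 b1 - g10 mm Fy P0 P1 b0 = e11 mm Fy P0 P1 b0 b1 := by
  unfold g10
  rw [avg_sub]
  refine Eq.trans ?_ (avg_const h0.ne _)
  congr 1
  funext a
  have e := e11_d hF h0 h1 a b0 b1
  linarith

theorem c01_int (hF : Oc D Fy) (h0 : Ok mm P0) (b0 b1 : Γ) :
    ∃ z : ℤ, (D : ℚ) * c01 mm Fy P0 b0 b1 = z :=
  avg_int h0.ne h0.dvd _ fun _ => hF.int _

theorem e11_int (hF : Oc D Fy) (h0 : Ok mm P0) (h1 : Ok mm P1) (b0 b1 : Γ) :
    ∃ z : ℤ, (D : ℚ) * e11 mm Fy P0 P1 b0 b1 = z := by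
  obtain ⟨z1, hz1⟩ := c01_int hF h1 b0 b1
  obtain ⟨z2, hz2⟩ := c01_int hF h0 b0 b1
  refine ⟨z1 - z2, ?_⟩
  unfold e11
  rw [mul_sub, hz1, hz2]
  push_cast
  rfl

theorem c10_d (hF : Oc D Fy) (hD : 0 < D) (h0 : Ok mm P0) (h1 : Ok mm P1) (b0 b1 : Γ) :
    c10 D mm Fy P0 P1 b1 - c10 D mm Fy P0 P1 b0 = e11 mm Fy P0 P1 b0 b1 := by
  obtain ⟨z, hz⟩ := e11_int hF h0 h1 b0 b1
  have hg := g10_d hF h0 h1 b0 b1
  have hD' : (D : ℚ) ≠ 0 := by exact_mod_cast hD.ne'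
  have h3 : (D : ℚ) * g10 mm Fy P0 P1 b1 = (D : ℚ) * g10 mm Fy P0 P1 b0 + (z : ℤ) := by
    rw [← hz, ← hg]
    ring
  unfold c10
  rw [h3, Int.floor_add_intCast]
  push_cast
  rw [← hz]
  field_simp
  ring

theorem phi_const (hF : Oc D Fy) (hD : 0 < D) (h0 : Ok mm P0) (h1 : Ok mm P1) (h2 : Ok mm P2)
    (b0 b1 : Γ) :
    c10 D mm Fy P1 P2 b1 - c10 D mm Fy P0 P2 b1 + c10 D mm Fy P0 P1 b1 =
    c10 D mm Fy P1 P2 b0 - c10 D mm Fy P0 P2 b0 + c10 D mm Fy P0 P1 b0 := by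
  have e1 := c10_d hF hD h1 h2 b0 b1
  have e2 := c10_d hF hD h0 h2 b0 b1
  have e3 := c10_d hF hD h0 h1 b0 b1
  unfold e11 at e1 e2 e3
  linear_combination e1 - e2 + e3

theorem core [Inhabited Γ] (hF : Oc D Fy) (hD : 0 < D) (hm : 0 < mm) (P : Fin 3 → Finset Γ)
    (h : ∀ i, Ok mm (P i)) :
    ∃ z : ℤ, ∀ a : Fin 3 → Γ, ((D * mm : ℕ) : ℚ) * (Fy a - ∑ i : Fin 3, (-1 : ℚ) ^ (i : ℕ) *
      ll D mm Fy (fun j => P (i.succAbove j)) (fun j => a (i.succAbove j))) = z := by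
  have hD' : (D : ℚ) ≠ 0 := by exact_mod_cast hD.ne'
  have hm' : (mm : ℚ) ≠ 0 := by exact_mod_cast hm.ne'
  refine ⟨-(⌊(D : ℚ) * g10 mm Fy (P 1) (P 2) default⌋ -
    ⌊(D : ℚ) * g10 mm Fy (P 0) (P 2) default⌋ + ⌊(D : ℚ) * g10 mm Fy (P 0) (P 1) default⌋),
    fun a => ?_⟩
  have ha : a = ![a 0, a 1, a 2] := by
    funext j
    fin_cases j <;> rfl
  have t0 : ll D mm Fy (fun j => P ((0 : Fin 3).succAbove j))
      (fun j => a ((0 : Fin 3).succAbove j)) =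
      (c01 mm Fy (P 1) (a 1) (a 2) + c10 D mm Fy (P 1) (P 2) (a 2)) / mm := rfl
  have t1 : ll D mm Fy (fun j => P ((1 : Fin 3).succAbove j))
      (fun j => a ((1 : Fin 3).succAbove j)) =
      (c01 mm Fy (P 0) (a 0) (a 2) + c10 D mm Fy (P 0) (P 2) (a 2)) / mm := rfl
  have t2 : ll D mm Fy (fun j => P ((2 : Fin 3).succAbove j))
      (fun j => a ((2 : Fin 3).succAbove j)) =
      (c01 mm Fy (P 0) (a 0) (a 1) + c10 D mm Fy (P 0) (P 1) (a 1)) / mm := rfl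
  have d1 := c01_d hF (h 0) (a 0) (a 1) (a 2)
  rw [← ha] at d1
  rw [Fin.sum_univ_three, t0, t1, t2]
  have d2 := c10_d hF hD (h 0) (h 1) (a 1) (a 2)
  have d3 := phi_const hF hD (h 0) (h 1) (h 2) default (a 2)
  have d4 : (D : ℚ) * (c10 D mm Fy (P 1) (P 2) default - c10 D mm Fy (P 0) (P 2) default +
      c10 D mm Fy (P 0) (P 1) default) =
      ((⌊(D : ℚ) * g10 mm Fy (P 1) (P 2) default⌋ -
        ⌊(D : ℚ) * g10 mm Fy (P 0) (P 2) default⌋ +
        ⌊(D : ℚ) * g10 mm Fy (P 0) (P 1) default⌋ : ℤ) : ℚ) := by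
    unfold c10
    push_cast
    field_simp
  rw [Int.cast_neg, ← d4, ← d3]
  unfold e11 at d2
  have p0 : (-1 : ℚ) ^ ((0 : Fin 3) : ℕ) = 1 := by norm_num
  have p1 : (-1 : ℚ) ^ ((1 : Fin 3) : ℕ) = -1 := by norm_num
  have p2 : (-1 : ℚ) ^ ((2 : Fin 3) : ℕ) = 1 := by
    have e : ((2 : Fin 3) : ℕ) = 2 := rfl
    rw [e]
    norm_num
  rw [p0, p1, p2]
  have key : (mm : ℚ) * Fy a = (c01 mm Fy (P 1) (a 1) (a 2) + c10 D mm Fy (P 1) (P 2) (a 2)) -
      (c01 mm Fy (P 0) (a 0) (a 2) + c10 D mm Fy (P 0) (P 2) (a 2)) +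
      (c01 mm Fy (P 0) (a 0) (a 1) + c10 D mm Fy (P 0) (P 1) (a 1)) -
      (c10 D mm Fy (P 1) (P 2) (a 2) - c10 D mm Fy (P 0) (P 2) (a 2) +
        c10 D mm Fy (P 0) (P 1) (a 2)) := by
    linear_combination -d1 + d2
  push_cast
  field_simp
  linear_combination key

theorem ll_zero (P : Fin 2 → Finset Γ) (h : ∀ b, Fy b = 0) (b : Fin 2 → Γ) :
    ll D mm Fy P b = 0 := by
  have hc : ∀ (Q : Finset Γ) (b0 b1 : Γ), c01 mm Fy Q b0 b1 = 0 := by
    intro Q b0 b1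
    unfold c01 avg
    simp [h]
  unfold ll c10 g10 e11 avg
  simp [hc]

theorem ll_move (g : Γ → Γ) (Fy' : (Fin 3 → Γ) → ℚ) (P P' : Fin 2 → Finset Γ)
    (h1 : ∀ i (f : Γ → ℚ), avg (P' i) f = avg (P i) fun a => f (g a))
    (h2 : ∀ b, Fy' (fun j => g (b j)) = Fy b) (b : Fin 2 → Γ) :
    ll D mm Fy' P' (fun j => g (b j)) = ll D mm Fy P b := by
  have h3 : ∀ (b0 b1 b2 : Γ), Fy' ![g b0, g b1, g b2] = Fy ![b0, b1, b2] := by
    intro b0 b1 b2
    have e : (![g b0, g b1, g b2] : Fin 3 → Γ) = fun j => g (![b0, b1, b2] j) := by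
      funext j
      fin_cases j <;> rfl
    rw [e, h2]
  have hc : ∀ i (b0 b1 : Γ), c01 mm Fy' (P' i) (g b0) (g b1) = c01 mm Fy (P i) b0 b1 := by
    intro i b0 b1
    unfold c01
    rw [h1]
    simp only [h3]
  unfold ll c10 g10 e11
  simp only [h1, hc]

end Alg

section Lists

variable {Γ : Type} [Group Γ]

theorem rotL_map (γ y : Γ) (Y : List Γ) :
    rotL (γ * y * γ⁻¹) (Y.map (γ * ·)) = (rotL y Y).map (γ * ·) := by
  cases Y with
  | nil => rfl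
  | cons a Y =>
    simp only [List.map_cons, rotL, List.map_append, List.map_nil]
    congr 2
    group

theorem rotL_iter_map (γ y : Γ) (e : ℕ) (Y : List Γ) :
    (rotL (γ * y * γ⁻¹))^[e] (Y.map (γ * ·)) = ((rotL y)^[e] Y).map (γ * ·) := by
  induction e generalizing Y with
  | zero => rfl
  | succ e ih => rw [Function.iterate_succ_apply, Function.iterate_succ_apply, rotL_map, ih]

theorem stb_map (γ : Γ) {Y : List Γ} {y δ : Γ} {e : ℕ} (h : Stb Y y δ e) :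
    Stb (Y.map (γ * ·)) (γ * y * γ⁻¹) (γ * δ * γ⁻¹) e := by
  refine ⟨?_, ?_⟩
  · have h1 := h.1
    calc γ * δ * γ⁻¹ * (γ * y * γ⁻¹) = γ * (δ * y) * γ⁻¹ := by group
      _ = γ * (y * δ) * γ⁻¹ := by rw [h1]
      _ = γ * y * γ⁻¹ * (γ * δ * γ⁻¹) := by group
  · rw [rotL_iter_map]
    conv_rhs => rw [← h.2]
    rw [List.map_map, List.map_map]
    congr 1
    funext x
    simp only [Function.comp_apply]
    group

theorem good_map (m : ℕ) (γ : Γ) (Y : List Γ) (y : Γ) :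
    Good m (Y.map (γ * ·)) (γ * y * γ⁻¹) ↔ Good m Y y := by
  constructor
  · intro h δ e hs
    have h1 := h _ e (stb_map γ hs)
    rw [conj_pow] at h1
    have h2 : γ * δ ^ m * γ⁻¹ = γ * 1 * γ⁻¹ := by rw [h1]; group
    exact mul_left_cancel (mul_right_cancel h2)
  · intro h δ e hs
    have h0 := stb_map γ⁻¹ hs
    have e1 : (Y.map (γ * ·)).map (γ⁻¹ * ·) = Y := by
      rw [List.map_map]
      have : ((γ⁻¹ * ·) ∘ (γ * ·) : Γ → Γ) = id := by
        funext x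
        simp
      rw [this, List.map_id]
    have e2 : γ⁻¹ * (γ * y * γ⁻¹) * γ⁻¹⁻¹ = y := by group
    rw [e1, e2] at h0
    have h1 := h _ e h0
    rw [conj_pow] at h1
    have h2 : γ⁻¹ * δ ^ m * γ⁻¹⁻¹ = γ⁻¹ * 1 * γ⁻¹⁻¹ := by rw [h1]; group
    exact mul_left_cancel (mul_right_cancel h2)

theorem rotL_comm {y δ : Γ} (h : δ * y = y * δ) (Y : List Γ) :
    (rotL y Y).map (δ * ·) = rotL y (Y.map (δ * ·)) := by
  cases Y with
  | nil => rfl
  | cons a Y =>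
    simp only [List.map_cons, rotL, List.map_append, List.map_nil]
    rw [← mul_assoc, h, mul_assoc]

theorem rotL_inj (y : Γ) : Function.Injective (rotL y) := by
  intro Y Y' h
  cases Y with
  | nil =>
    cases Y' with
    | nil => rfl
    | cons b Y' =>
      exfalso
      simp [rotL] at h
  | cons a Y =>
    cases Y' with
    | nil =>
      exfalso
      simp [rotL] at h
    | cons b Y' =>
      simp only [rotL] at h
      obtain ⟨h1, h2⟩ := List.append_inj' h rfl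
      have h3 : y * a = y * b := by simpa using h2
      rw [h1, mul_left_cancel h3]

theorem stb_rot {Y : List Γ} {y δ : Γ} {e : ℕ} : Stb (rotL y Y) y δ e ↔ Stb Y y δ e := by
  unfold Stb
  refine and_congr_right fun h => ?_
  rw [← Function.iterate_succ_apply, Function.iterate_succ_apply', rotL_comm h]
  exact (rotL_inj y).eq_iff

theorem good_rot (m : ℕ) (Y : List Γ) (y : Γ) : Good m (rotL y Y) y ↔ Good m Y y := by
  unfold Good
  simp only [stb_rot]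

theorem fin_conj (γ y : Γ) : IsOfFinOrder (γ * y * γ⁻¹) ↔ IsOfFinOrder y := by
  constructor
  · intro h
    have h1 := (MulAut.conj γ⁻¹).toMonoidHom.isOfFinOrder h
    have h2 : (MulAut.conj γ⁻¹).toMonoidHom (γ * y * γ⁻¹) = y := by
      change γ⁻¹ * (γ * y * γ⁻¹) * γ⁻¹⁻¹ = y
      group
    rwa [h2] at h1
  · intro h
    exact (MulAut.conj γ).toMonoidHom.isOfFinOrder h

variable {Pt : List Γ → Γ → Finset Γ} {dl : List Γ → Γ → Γ}

theorem pt_map (hP : Pnt Pt dl) (γ : Γ) (Y : List Γ) (y : Γ) (hY : Y ≠ []) (hy : IsOfFinOrder y) :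
    Pt (Y.map (γ * ·)) (γ * y * γ⁻¹) = (Pt Y y).map (mulLeftEmbedding γ) := by
  ext x
  rw [Finset.mem_map]
  constructor
  · intro hx
    refine ⟨γ⁻¹ * x, ?_, by simp⟩
    rw [← hP.inv γ Y y hY hy, mul_inv_cancel_left]
    exact hx
  · rintro ⟨x, hx, rfl⟩
    exact (hP.inv γ Y y hY hy x).2 hx

theorem avg_map (hP : Pnt Pt dl) (γ : Γ) (Y : List Γ) (y : Γ) (hY : Y ≠ []) (hy : IsOfFinOrder y)
    (f : Γ → ℚ) : avg (Pt (Y.map (γ * ·)) (γ * y * γ⁻¹)) f = avg (Pt Y y) fun a => f (γ * a) := by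
  rw [pt_map hP γ Y y hY hy]
  unfold avg
  rw [Finset.sum_map, Finset.card_map]
  rfl

theorem card_dvd (hP : Pnt Pt dl) {mm : ℕ} {Y : List Γ} {y : Γ} (hY : Y ≠ [])
    (hy : IsOfFinOrder y) (hg : Good mm Y y) : (Pt Y y).card ∣ mm := by
  obtain ⟨e, he⟩ := hP.stb Y y hY hy
  rw [hP.card Y y hY hy]
  exact orderOf_dvd_of_pow_eq_one (hg _ e he)

end Lists

end DNB

open DNB in
theorem t_DNB (havs : S_AVS) : S_DNB := by
  classical
  intro Γ _ Pt dl hP S F hS hF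
  obtain ⟨hsec, -, -⟩ := havs Γ Pt dl hP
  obtain ⟨D, hD, hden⟩ := hF.den
  refine ⟨D, hD, fun mm hmm => ?_⟩
  let L : (Fin 2 → List Γ) → Γ → ℚ := fun Y y =>
    if (∀ i, Y i ≠ []) ∧ IsOfFinOrder y ∧ ∀ i, Good mm (Y i) y then
      mex (ll D mm (fun a => F a y) fun i => Pt (Y i) y) fun i => avS Pt (Y i) y else 0
  have hL : ∀ Y y, (∀ i, Y i ≠ []) → IsOfFinOrder y → (∀ i, Good mm (Y i) y) →
      L Y y = mex (ll D mm (fun a => F a y) fun i => Pt (Y i) y) fun i => avS Pt (Y i) y :=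
    fun Y y h1 h2 h3 => if_pos ⟨h1, h2, h3⟩
  have hL0 : ∀ Y y, ¬ ((∀ i, Y i ≠ []) ∧ IsOfFinOrder y ∧ ∀ i, Good mm (Y i) y) → L Y y = 0 :=
    fun Y y h => if_neg h
  refine ⟨L, ?_, ?_, ?_, ?_⟩
  · intro γ Y y
    have hiff : ((∀ i, (Y i).map (γ * ·) ≠ []) ∧ IsOfFinOrder (γ * y * γ⁻¹) ∧
        ∀ i, Good mm ((Y i).map (γ * ·)) (γ * y * γ⁻¹)) ↔
        ((∀ i, Y i ≠ []) ∧ IsOfFinOrder y ∧ ∀ i, Good mm (Y i) y) := by
      rw [fin_conj]
      simp only [good_map, ne_eq, List.map_eq_nil_iff]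
    by_cases hc : (∀ i, Y i ≠ []) ∧ IsOfFinOrder y ∧ ∀ i, Good mm (Y i) y
    · obtain ⟨h1, h2, h3⟩ := hc
      obtain ⟨h1', h2', h3'⟩ := hiff.2 ⟨h1, h2, h3⟩
      rw [hL _ _ h1' h2' h3', hL _ _ h1 h2 h3]
      have e1 : (fun i => avS Pt ((Y i).map (γ * ·)) (γ * y * γ⁻¹)) =
          fun i => (avS Pt (Y i) y).mapDomain (γ * ·) := by
        funext i
        exact hsec.inv γ (Y i) y h2
      rw [e1, MEX.change _ _ _ (mul_right_injective γ)]
      congr 1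
      funext b
      refine ll_move (γ * ·) _ _ _ ?_ ?_ b
      · intro i f
        exact avg_map hP γ (Y i) y (h1 i) h2 f
      · intro b
        exact hF.inv γ b y
    · rw [hL0 _ _ hc, hL0 _ _ fun h => hc (hiff.1 h)]
  · intro Y y h1 h2
    have hne : ∀ i, rotL y (Y i) ≠ [] := by
      intro i h
      exact h1 i (rotL_inj y h)
    by_cases hc : ∀ i, Good mm (Y i) y
    · rw [hL _ _ hne h2 fun i => (good_rot mm (Y i) y).2 (hc i), hL _ _ h1 h2 hc]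
      have e1 : (fun i => avS Pt (rotL y (Y i)) y) = fun i => avS Pt (Y i) y := by
        funext i
        unfold avS
        rw [hP.rot (Y i) y (h1 i) h2]
      have e2 : (fun i => Pt (rotL y (Y i)) y) = fun i => Pt (Y i) y := by
        funext i
        exact hP.rot (Y i) y (h1 i) h2
      rw [e1, e2]
    · rw [hL0 _ _ fun h => hc h.2.2, hL0 _ _ fun h => hc fun i => (good_rot mm (Y i) y).1 (h.2.2 i)]
  · intro Y y h
    by_cases hc : (∀ i, Y i ≠ []) ∧ IsOfFinOrder y ∧ ∀ i, Good mm (Y i) y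
    · refine ⟨hc.1, ?_⟩
      by_contra hno
      push Not at hno
      apply h
      rw [hL _ _ hc.1 hc.2.1 hc.2.2]
      refine MEX.vanish _ _ fun x _ => ?_
      exact ll_zero _ hno x
    · exact absurd (hL0 _ _ hc) h
  · intro Y y h1 h2 h3
    have hok : ∀ i, Ok mm (Pt (Y i) y) := fun i =>
      ⟨hP.ne (Y i) y (h1 i) h2, card_dvd hP (h1 i) h2 (h3 i)⟩
    have hoc : Oc D (fun a => F a y) := by
      refine ⟨fun b => hden b y, ?_⟩
      intro b0 b1 b2 b3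
      have h4 := hF.coc ![b0, b1, b2, b3] y
      rw [Fin.sum_univ_four] at h4
      have s0 : (fun j => ![b0, b1, b2, b3] ((0 : Fin 4).succAbove j)) = ![b1, b2, b3] := by
        funext j
        fin_cases j <;> rfl
      have s1 : (fun j => ![b0, b1, b2, b3] ((1 : Fin 4).succAbove j)) = ![b0, b2, b3] := by
        funext j
        fin_cases j <;> rfl
      have s2 : (fun j => ![b0, b1, b2, b3] ((2 : Fin 4).succAbove j)) = ![b0, b1, b3] := by
        funext j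
        fin_cases j <;> rfl
      have s3 : (fun j => ![b0, b1, b2, b3] ((3 : Fin 4).succAbove j)) = ![b0, b1, b2] := by
        funext j
        fin_cases j <;> rfl
      rw [s0, s1, s2, s3] at h4
      have e3 : ((3 : Fin 4) : ℕ) = 3 := rfl
      rw [e3] at h4
      norm_num at h4
      change F ![b1, b2, b3] y - F ![b0, b2, b3] y + F ![b0, b1, b3] y - F ![b0, b1, b2] y = 0
      linarith
    let _ : Inhabited Γ := ⟨1⟩
    obtain ⟨z, hz⟩ := core (Fy := fun a => F a y) hoc hD hmm (fun i => Pt (Y i) y) hok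
    refine ⟨z, ?_⟩
    set c : Fin 3 → (Γ →₀ ℚ) := fun i => avS Pt (Y i) y with hcdef
    have haug : ∀ i, aug (c i) = 1 := fun i => hsec.aug (Y i) y h2 (h1 i)
    have hLi : ∀ i : Fin 3, L (fun j => Y (i.succAbove j)) y =
        mex (fun a => ll D mm (fun a => F a y) (fun j => Pt (Y (i.succAbove j)) y)
          fun j => a (i.succAbove j)) c := by
      intro i
      rw [hL _ _ (fun j => h1 _) h2 (fun j => h3 _)]
      exact (MEX.delete (ll D mm (fun a => F a y) fun j => Pt (Y (i.succAbove j)) y) c i haug).symm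
    have hmain : mA Pt F Y y = mex (fun a => F a y) c := rfl
    rw [hmain, Finset.sum_congr rfl fun i _ => by rw [hLi i]]
    rw [← MEX.linear (Fin 3) Finset.univ (fun i => (-1 : ℚ) ^ (i : ℕ))
      (fun i a => ll D mm (fun a => F a y) (fun j => Pt (Y (i.succAbove j)) y)
        fun j => a (i.succAbove j)) c]
    rw [MEX.mex_def, MEX.mex_def, ← Finset.sum_sub_distrib, Finset.mul_sum]
    have h5 : ∀ a ∈ Fintype.piFinset fun i => (c i).support,
        ((D * mm : ℕ) : ℚ) * ((∏ i, c i (a i)) * F a y - (∏ i, c i (a i)) *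
          ∑ i : Fin 3, (-1 : ℚ) ^ (i : ℕ) *
            ll D mm (fun a => F a y) (fun j => Pt (Y (i.succAbove j)) y)
              fun j => a (i.succAbove j)) =
        (∏ i, c i (a i)) * z := by
      intro a _
      rw [← hz a]
      ring
    rw [Finset.sum_congr rfl h5, ← Finset.sum_mul, ← Finset.prod_univ_sum]
    have h6 : ∀ i, ∑ x ∈ (c i).support, c i x = 1 := fun i => haug i
    rw [Finset.prod_congr rfl fun i _ => h6 i, Finset.prod_const_one, one_mul]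

end Pool.Agent.FJA
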