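import Pool.Agent.AUK.FJA.P_EV0
import Pool.Agent.AUK.FJA.P_TWI
import Pool.Agent.AUK.FJA.P_TXR
import Pool.Agent.AUK.FJA.St9

/-!
# Module EVN: the value of `psiN` on a simplex of the centraliser times units
-/

set_option autoImplicit false

open Matrix Pool.Agent.WhK Pool.Agent.Lib25

noncomputable section

namespace Pool.Agent.FJA

namespace EVN

open EV0

variable {G : Type} [Group G] {N : ℕ} (φ : Cyc N →* G)

/-- The marking of the twisted list. -/
theorem j_tw {p k r : ℕ} {j : List (G × Multiplicative ℤ) → G × Multiplicative ℤ → ZMod (p ^ r)}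
    (hj : MrkG (G × Multiplicative ℤ) p k r j) (z : Cen (φ (gen N))) (b : ℤ)
    (Y : List (Cyc N)) (c : Cyc N) :
    j (Y.map fun x => ((z : G), Multiplicative.ofAdd b) * ff φ x) (ff φ c) = rsJ φ j Y c := by
  have h := hj.cj ((z : G), Multiplicative.ofAdd b) (Y.map fun x => (φ x, 1)) (φ c, 1)
  rw [List.map_map] at h
  have h1 : ((z : G), Multiplicative.ofAdd b) * ((φ c, 1) : G × Multiplicative ℤ) *
      ((z : G), Multiplicative.ofAdd b)⁻¹ = (φ c, 1) := by
    have h2 := (comm φ z b c).eq
    rw [ff_apply] at h2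
    rw [h2, mul_inv_cancel_right]
  rw [h1] at h
  exact h

theorem ff_inj (hφ : Function.Injective φ) : Function.Injective (ff φ) := by
  intro x y h
  rw [ff_apply, ff_apply] at h
  exact hφ (Prod.ext_iff.1 h).1

end EVN

open EV0

theorem t_EVN (hrsn : S_RSN) : S_EVN := by
  classical
  intro G _ p _ k B r m cc _ φ hφ hcB hrB S F hS hgen hF hB s hs hrot j hj z b v
  set γ : Fin (m + 3) → G × Multiplicative ℤ := fun i => ((z i : G), Multiplicative.ofAdd (b i))
    with hγ
  have hcomm : ∀ (i : Fin (m + 3)) (x : Cyc cc), Commute (γ i) (ff φ x) := fun i x =>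
    comm φ (z i) (b i) x
  have h1 := t_TWI ℚ_[p] (Cyc cc) (G × Multiplicative ℤ) (ff φ) (Fin 1) (m + 3) (p ^ k)
    (psiN p k r (cup F) s j) γ hcomm (fun i => sc (v i))
  have h2 : (fun i => sclU ℚ_[p] (Fin 1) ((z i : G), Multiplicative.ofAdd (b i)) *
      glG (MonoidHom.inl G (Multiplicative ℤ)) (glG φ (sc (v i)))) =
      fun i => sclU ℚ_[p] (Fin 1) (γ i) * glG (ff φ) (sc (v i)) := by
    funext i
    rw [ff, glG_comp]
  rw [h2, h1]
  -- the map of labels
  set fv : Fin 2 → Fin (m + 3) := ![(Fin.last (m + 1)).castSucc, Fin.last (m + 2)] with hfv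
  have hmono : StrictMono fv := by
    rw [Fin.strictMono_iff_lt_succ]
    intro i
    have hi : i = 0 := Subsingleton.elim _ _
    subst hi
    exact Fin.castSucc_lt_last _
  have hpk : 0 < p ^ k := pow_pos (Fact.out (p := p.Prime)).pos k
  have h3 := t_TXlen ℚ_[p] (Cyc cc) (Fin 1) (m + 3) (p ^ k)
    (fun μ => psiN p k r (cup F) s j (twR (ff φ) γ μ))
    (fun μ => ∑ c : Cyc cc, (F (fun i : Fin (m + 1) => (z (Fin.castAdd 2 i) : G)) (φ c) *
        ((b (Fin.last (m + 1)).castSucc - b (Fin.last m).castSucc.castSucc : ℤ) : ℚ)) *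
        lamN p k r (rsJ φ j) c (Rec.res fv μ)) (fun i => sc (v i)) ?_
  · rw [h3, TX_sum]
    refine Finset.sum_congr rfl fun c _ => ?_
    rw [t_TXR ℚ_[p] (Cyc cc) (Fin 1) (m + 3) 2 (p ^ k) fv hmono (lamN p k r (rsJ φ j) c)
      (fun i => sc (v i))]
    have h4 : (fun t => sc (v (fv t))) =
        ![sc (v (Fin.last (m + 1)).castSucc), sc (v (Fin.last (m + 2)))] := by
      funext t
      fin_cases t <;> rfl
    rw [h4]
    push_cast
    ring
  · intro μ hμ
    have hne : ∀ i, μ.lst i ≠ [] := by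
      intro i h
      have := hμ i
      rw [h, List.length_nil] at this
      omega
    -- the right side
    have hR : ∑ c : Cyc cc, (F (fun i : Fin (m + 1) => (z (Fin.castAdd 2 i) : G)) (φ c) *
        ((b (Fin.last (m + 1)).castSucc - b (Fin.last m).castSucc.castSucc : ℤ) : ℚ)) *
        lamN p k r (rsJ φ j) c (Rec.res fv μ) =
        (F (fun i : Fin (m + 1) => (z (Fin.castAdd 2 i) : G)) (φ μ.val) *
        ((b (Fin.last (m + 1)).castSucc - b (Fin.last m).castSucc.castSucc : ℤ) : ℚ)) *
        (((rsJ φ j (μ.lst (Fin.last (m + 2))) μ.val -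
          rsJ φ j (μ.lst (Fin.last (m + 1)).castSucc) μ.val).val : ℕ) : ℚ) := by
      rw [Finset.sum_eq_single μ.val]
      · congr 1
        unfold lamN
        rw [if_pos ⟨fun i => hμ (fv i), rfl⟩]
        rfl
      · intro c _ hc
        have h5 : lamN p k r (rsJ φ j) c (Rec.res fv μ) = 0 := by
          unfold lamN
          rw [if_neg]
          rintro ⟨-, h6⟩
          exact hc h6.symm
        rw [h5, mul_zero]
      · intro h
        exact absurd (Finset.mem_univ _) h
    rw [hR]
    by_cases hSc : S (φ μ.val)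
    · obtain ⟨hfin, hdvd⟩ := hS _ hSc
      have hord : orderOf μ.val = orderOf (φ μ.val) := (orderOf_injective φ hφ μ.val).symm
      have hcond : (∀ i, ((twR (ff φ) γ μ).lst i).length = p ^ k) ∧
          IsOfFinOrder (twR (ff φ) γ μ).val ∧ p ∣ orderOf (twR (ff φ) γ μ).val ∧
          ∀ i, GoodP (p ^ r) ((twR (ff φ) γ μ).lst i) (twR (ff φ) γ μ).val := by
        refine ⟨fun i => ?_, (fin_ff φ _).2 hfin, ?_, fun i => ?_⟩
        · change ((μ.lst i).map _).length = _
          rw [List.length_map, hμ i]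
        · change p ∣ orderOf (ff φ μ.val)
          rw [order_ff]
          exact hdvd
        · exact hrsn.1 (G × Multiplicative ℤ) cc p B k r hcB hrB (ff φ) (EVN.ff_inj φ hφ) (γ i)
            (hcomm i) (μ.lst i) μ.val (hμ i) (by rw [hord]; exact hdvd)
      have hval := evs_val φ hB hs z b μ hne (hgen _ hSc) hfin
      unfold psiN
      rw [if_pos hcond, hval]
      congr 1
      have e1 : j ((twR (ff φ) γ μ).lst (Fin.last (m + 1 + 1))) (twR (ff φ) γ μ).val =
          rsJ φ j (μ.lst (Fin.last (m + 2))) μ.val := EVN.j_tw φ hj _ _ _ _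
      have e2 : j ((twR (ff φ) γ μ).lst (Fin.last (m + 1)).castSucc) (twR (ff φ) γ μ).val =
          rsJ φ j (μ.lst (Fin.last (m + 1)).castSucc) μ.val := EVN.j_tw φ hj _ _ _ _
      rw [e1, e2]
    · have h0 : ∀ a, F a (φ μ.val) = 0 := by
        intro a
        by_contra h
        exact hSc (hF.supp a _ h)
      rw [h0, zero_mul, zero_mul]
      unfold psiN
      split_ifs
      · rw [evs_zero φ (c := μ.val) h0 s _ rfl, zero_mul]
      · rfl

end Pool.Agent.FJA
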