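import Pool.Agent.AUK.FJA.P_EV1
import Pool.Agent.AUK.FJA.P_LM0
import Pool.Agent.AUK.FJA.St9

/-!
# Module EWN: LM0 for `lamN` and EV1 for `psiN`
-/

set_option autoImplicit false

open Matrix Pool.Agent.WhK Pool.Agent.Lib25

noncomputable section

namespace Pool.Agent.FJA

namespace EWN

theorem lamN_eq {C : Type} [Group C] (p k r : ℕ) (j : List C → C → ZMod (p ^ r)) (c : C)
    (μ ν : Rec C (Fin 2)) (hl : ∀ i, (μ.lst i).length = (ν.lst i).length) (hv : μ.val = ν.val)
    (h0 : j (μ.lst 0) c = j (ν.lst 0) c) (h1 : j (μ.lst 1) c = j (ν.lst 1) c) :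
    lamN p k r j c μ = lamN p k r j c ν := by
  have hiff : ((∀ i, (μ.lst i).length = p ^ k) ∧ μ.val = c) ↔
      ((∀ i, (ν.lst i).length = p ^ k) ∧ ν.val = c) := by
    simp only [hl, hv]
  unfold lamN
  by_cases h : (∀ i, (ν.lst i).length = p ^ k) ∧ ν.val = c
  · rw [if_pos h, if_pos (hiff.2 h), h0, h1]
  · rw [if_neg h, if_neg (fun h' => h (hiff.1 h'))]

theorem cjInv_lamN {C : Type} [CommGroup C] (p k r : ℕ) (j : List C → C → ZMod (p ^ r))
    (hj : MrkR C p k r j) (c : C) : CjInv (lamN p k r j c) := by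
  intro γ μ
  have hjc : ∀ Y : List C, j (Y.map (γ * ·)) c = j Y c := by
    intro Y
    have h := hj.cj γ Y c
    rwa [mul_comm γ c, mul_inv_cancel_right] at h
  have hL : ∀ i, (Rec.inc γ * μ).lst i = (μ.lst i).map (γ * ·) := by
    intro i
    rw [Rec.mul_lst, Rec.inc_lst, Rec.inc_val, List.nil_append]
  have hR : ∀ i, (μ * Rec.inc γ).lst i = μ.lst i := by
    intro i
    rw [Rec.mul_lst, Rec.inc_lst, List.map_nil, List.append_nil]
  refine lamN_eq p k r j c _ _ (fun i => ?_) ?_ ?_ ?_
  · rw [hL, hR, List.length_map]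
  · rw [Rec.mul_val, Rec.mul_val, Rec.inc_val, mul_comm]
  · rw [hL, hR, hjc]
  · rw [hL, hR, hjc]

/-- LM0 for `lamN`. -/
theorem part1 (k : Type) [Field k] [CharZero k] (C : Type) [CommGroup C] (p κ r : ℕ)
    (j : List C → C → ZMod (p ^ r)) (hj : MrkR C p κ r j) (c : C) (N : ℕ) :
    (∀ g X Y : (Matrix (Fin 1) (Fin 1) (MonoidAlgebra k C))ˣ,
      TX (lamN p κ r j c) N ![g * X, g * Y] = TX (lamN p κ r j c) N ![X, Y]) ∧
    (c ≠ 1 → TX (lamN p κ r j c) N
      ![(1 : (Matrix (Fin 1) (Fin 1) (MonoidAlgebra k C))ˣ), 1] = 0) := by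
  constructor
  · intro g X Y
    have h := t_TXinv k C (Fin 1) 2 N (lamN p κ r j c) (cjInv_lamN p κ r j hj c) g ![X, Y]
    rw [← h]
    congr 1
    funext i
    fin_cases i <;> rfl
  · intro hc
    have hX : ∀ i : Fin 2, (![(1 : (Matrix (Fin 1) (Fin 1) (MonoidAlgebra k C))ˣ), 1] :
        Fin 2 → (Matrix (Fin 1) (Fin 1) (MonoidAlgebra k C))ˣ) i = 1 := by
      intro i
      fin_cases i <;> rfl
    refine t_TXsup k C (Fin 1) 2 N (lamN p κ r j c) _ (LM0.sub1 C (Fin 2)) (fun i => ?_) ?_ ?_ ?_
    · exact LM0.mem_sub1.2 rfl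
    · intro i a b γ hγ
      rw [hX i] at hγ
      exact LM0.mem_sub1.2 (LM0.coeff_one_fin a b γ hγ)
    · intro i a b γ hγ
      rw [hX i, inv_one] at hγ
      exact LM0.mem_sub1.2 (LM0.coeff_one_fin a b γ hγ)
    · intro μ hμ
      unfold lamN
      rw [if_neg]
      rintro ⟨-, h⟩
      exact hc (h.symm.trans (LM0.mem_sub1.1 hμ))

end EWN

open EWN EV1 in
/-- EWN: LM0 for `lamN` and EV1 for `psiN`. -/
theorem t_EWN (hevn : S_EVN) (hrsn : S_RSN) : S_EWN := by
  classical
  refine ⟨?_, ?_⟩
  · intro k _ _ C _ p κ r j hj c N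
    exact part1 k C p κ r j hj c N
  intro G _ p _ k B r m N _ φ hφ hNB hrB S F hS hgen hF hB s hs hrot j hj u w
  have hM : MrkR (Cyc N) p k r (rsJ φ j) := hrsn.2 G N p B k r hNB hrB φ hφ j hj
  -- the value on a simplex
  have key : ∀ (Z : Fin (m + 1) → Cen (φ (gen N))) (i : Fin (m + 1)) (i' : Fin (m + 2)),
      TX (psiN p k r (cup F) s j) (p ^ k) (fun l : Fin (m + 3) => cvt ℚ_[p] 1
        (mix id (fun x => x * sEl G)
          (mix (fun z : Cen (φ (gen N)) => gl1 elt (z : G))
            (fun z : Cen (φ (gen N)) => gl1 elt (z : G) * uEl φ u) Z i) i' l)) =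
      if i' = (Fin.last m).castSucc ∧ i = Fin.last m then
        ∑ c : Cyc N, (F (fun t => (Z t : G)) (φ c) : ℚ_[p]) *
          TX (lamN p k r (rsJ φ j) c) (p ^ k)
            ![(1 : (Matrix (Fin 1) (Fin 1) (MonoidAlgebra ℚ_[p] (Cyc N)))ˣ), sc (uZ p u)]
      else 0 := by
    intro Z i i'
    have h1 : (fun l : Fin (m + 3) => cvt ℚ_[p] 1
        (mix id (fun x => x * sEl G)
          (mix (fun z : Cen (φ (gen N)) => gl1 elt (z : G))
            (fun z : Cen (φ (gen N)) => gl1 elt (z : G) * uEl φ u) Z i) i' l)) =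
        fun l : Fin (m + 3) => sclU ℚ_[p] (Fin 1) ((Z (i.predAbove (i'.predAbove l)) : G),
          Multiplicative.ofAdd (bb (l ≤ i'.castSucc))) *
        glG (MonoidHom.inl G (Multiplicative ℤ))
          (glG φ (sc (vv (uZ p u) (i'.predAbove l ≤ i.castSucc)))) := by
      funext l
      exact vert p m φ u Z i i' l
    rw [h1, hevn G p k B r m N φ hφ hNB hrB S F hS hgen hF hB s hs hrot j hj
      (fun l => Z (i.predAbove (i'.predAbove l))) (fun l => bb (l ≤ i'.castSucc))
      (fun l => vv (uZ p u) (i'.predAbove l ≤ i.castSucc))]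
    by_cases hi' : i' = (Fin.last m).castSucc
    · have hv' : (i' : ℕ) = m := by rw [hi']; rfl
      have hb1 : bb ((Fin.last (m + 1)).castSucc ≤ i'.castSucc) = 1 := by
        unfold bb
        rw [if_neg]
        rw [Fin.le_def, Fin.val_castSucc, Fin.val_castSucc, Fin.val_last, hv']
        omega
      have hb2 : bb ((Fin.last m).castSucc.castSucc ≤ i'.castSucc) = 0 := by
        unfold bb
        rw [if_pos]
        rw [Fin.le_def, Fin.val_castSucc, Fin.val_castSucc, Fin.val_castSucc, Fin.val_last, hv']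
      have hv2 : vv (uZ p u) (i'.predAbove (Fin.last (m + 2)) ≤ i.castSucc) = uZ p u := by
        unfold vv
        rw [if_neg]
        rw [Fin.le_def, pa_val, Fin.val_castSucc, Fin.val_last, hv']
        have := i.2
        rw [if_pos (by omega)]
        omega
      by_cases hi : i = Fin.last m
      · have hv : (i : ℕ) = m := by rw [hi]; rfl
        rw [if_pos ⟨hi', hi⟩]
        have hv1 : vv (uZ p u) (i'.predAbove (Fin.last (m + 1)).castSucc ≤ i.castSucc) = 1 := by
          unfold vv
          rw [if_pos]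
          rw [Fin.le_def, pa_val, Fin.val_castSucc, Fin.val_castSucc, Fin.val_last, hv', hv]
          rw [if_pos (by omega)]
          omega
        have hz : ∀ t : Fin (m + 1), i.predAbove (i'.predAbove (Fin.castAdd 2 t)) = t := by
          intro t
          apply Fin.ext
          have ht := t.2
          have a1 : ((i'.predAbove (Fin.castAdd 2 t) : Fin (m + 2)) : ℕ) = t := by
            rw [pa_val, Fin.val_castAdd, hv', if_neg (by omega)]
          rw [pa_val, a1, hv, if_neg (by omega)]
        refine Finset.sum_congr rfl fun c _ => ?_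
        simp only [hb1, hb2, hv1, hv2, hz, map_one, sub_zero, Int.cast_one, mul_one]
      · rw [if_neg fun h => hi h.2]
        have hv : (i : ℕ) < m := by
          have h2 := i.2
          rcases Nat.lt_or_ge (i : ℕ) m with h3 | h3
          · exact h3
          · exact absurd (Fin.ext (by rw [Fin.val_last]; omega)) hi
        have hv1 : vv (uZ p u) (i'.predAbove (Fin.last (m + 1)).castSucc ≤ i.castSucc) =
            uZ p u := by
          unfold vv
          rw [if_neg]
          rw [Fin.le_def, pa_val, Fin.val_castSucc, Fin.val_castSucc, Fin.val_last, hv']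
          rw [if_pos (by omega)]
          omega
        refine Finset.sum_eq_zero fun c _ => ?_
        simp only [hv1, hv2]
        by_cases hFc : F (fun t : Fin (m + 1) =>
            (Z (i.predAbove (i'.predAbove (Fin.castAdd 2 t))) : G)) (φ c) = 0
        · rw [hFc, Rat.cast_zero, zero_mul, zero_mul]
        · have hc1 : c ≠ 1 := by
            rintro rfl
            have h3 := (hS _ (hF.supp _ _ hFc)).2
            rw [map_one, orderOf_one] at h3
            exact (Fact.out : p.Prime).one_lt.ne' (Nat.dvd_one.1 h3)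
          obtain ⟨h4, h5⟩ := part1 ℚ_[p] (Cyc N) p k r (rsJ φ j) hM c (p ^ k)
          have h6 := h4 (sc (uZ p u)) 1 1
          rw [mul_one, h5 hc1] at h6
          rw [h6, mul_zero]
    · rw [if_neg fun h => hi' h.1]
      have hv' : (i' : ℕ) ≠ m := by
        intro h
        exact hi' (Fin.ext h)
      have hlt := i'.2
      have hb : bb ((Fin.last (m + 1)).castSucc ≤ i'.castSucc) =
          bb ((Fin.last m).castSucc.castSucc ≤ i'.castSucc) := by
        unfold bb
        have e1 : ((Fin.last (m + 1)).castSucc ≤ i'.castSucc) ↔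
            ((Fin.last m).castSucc.castSucc ≤ i'.castSucc) := by
          rw [Fin.le_def, Fin.le_def, Fin.val_castSucc, Fin.val_castSucc, Fin.val_castSucc,
            Fin.val_castSucc, Fin.val_last, Fin.val_last]
          omega
        by_cases h7 : (Fin.last m).castSucc.castSucc ≤ i'.castSucc
        · rw [if_pos h7, if_pos (e1.2 h7)]
        · rw [if_neg h7, if_neg (fun h => h7 (e1.1 h))]
      refine Finset.sum_eq_zero fun c _ => ?_
      simp only [hb, sub_self, Int.cast_zero, mul_zero, zero_mul]
  induction w using Finsupp.induction_linear with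
  | zero =>
    rw [E1_zero, map_zero]
    symm
    refine Finset.sum_eq_zero fun c _ => ?_
    rw [evc_zero, Rat.cast_zero, zero_mul]
  | add w w' hw hw' =>
    rw [E1_add, map_add, hw, hw', ← Finset.sum_add_distrib]
    refine Finset.sum_congr rfl fun c _ => ?_
    rw [evc_add, Rat.cast_add, add_mul]
  | single Z q =>
    rw [E1_single, map_smul, map_sum, Finset.sum_eq_single (Fin.last m)]
    · rw [map_smul, map_sum, Finset.sum_eq_single (Fin.last m).castSucc]
      · have h8 := key Z (Fin.last m) (Fin.last m).castSucc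
        rw [if_pos ⟨rfl, rfl⟩] at h8
        unfold TS
        rw [map_smul, Finsupp.linearCombination_single, one_smul]
        refine Eq.trans (congrArg _ (congrArg _ (congrArg _ h8))) ?_
        rw [Fin.val_castSucc, smul_smul ((-1 : ℚ) ^ _), ← mul_pow, neg_one_mul, neg_neg, one_pow,
          one_smul, Rat.smul_def, Finset.mul_sum]
        refine Finset.sum_congr rfl fun c _ => ?_
        rw [evc_single, Rat.cast_mul, mul_assoc]
      · intro i' _ hi'
        have h8 := key Z (Fin.last m) i'
        rw [if_neg fun h => hi' h.1] at h8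
        unfold TS
        rw [map_smul, Finsupp.linearCombination_single, one_smul]
        refine Eq.trans (congrArg _ h8) (smul_zero _)
      · intro h
        exact absurd (Finset.mem_univ _) h
    · intro i _ hi
      rw [map_smul, map_sum, Finset.sum_eq_zero, smul_zero]
      intro i' _
      have h8 := key Z i i'
      rw [if_neg fun h => hi h.2] at h8
      unfold TS
      rw [map_smul, Finsupp.linearCombination_single, one_smul]
      refine Eq.trans (congrArg _ h8) (smul_zero _)
    · intro h
      exact absurd (Finset.mem_univ _) h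

end Pool.Agent.FJA
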