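import Pool.Agent.AUK.FJA.St8

/-!
# FJA: the module KAP

The alignment of the orbits of a vertex: a quadruple `(Y, y, a, b)` is compared with the
representative of its class.
-/

set_option autoImplicit false

noncomputable section

namespace Pool.Agent.FJA

namespace KAP

variable {Γ : Type} [Group Γ]

lemma rot_map (γ y : Γ) (Y : List Γ) :
    rotL (γ * y * γ⁻¹) (Y.map (γ * ·)) = (rotL y Y).map (γ * ·) := by
  cases Y with
  | nil => rfl
  | cons a Y => simp [rotL, mul_assoc]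

lemma iter_map (γ y : Γ) (Y : List Γ) (e : ℕ) :
    (rotL (γ * y * γ⁻¹))^[e] (Y.map (γ * ·)) = ((rotL y)^[e] Y).map (γ * ·) := by
  induction e with
  | zero => rfl
  | succ e ih => rw [Function.iterate_succ_apply', Function.iterate_succ_apply', ih, rot_map]

lemma iter_map' {γ y y' : Γ} (h : y' = γ * y * γ⁻¹) (Y : List Γ) (e : ℕ) :
    (rotL y')^[e] (Y.map (γ * ·)) = ((rotL y)^[e] Y).map (γ * ·) := by
  rw [h]; exact iter_map γ y Y e

lemma rot_app (y : Γ) (X : List Γ) : ∀ Z : List Γ,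
    (rotL y)^[X.length] (X ++ Z) = Z ++ X.map (y * ·) := by
  induction X with
  | nil => intro Z; simp
  | cons a X ih =>
    intro Z
    rw [List.length_cons, Function.iterate_succ_apply]
    change (rotL y)^[X.length] ((X ++ Z) ++ [y * a]) = _
    rw [List.append_assoc, ih]
    simp

lemma rot_len (y : Γ) (Y : List Γ) : (rotL y)^[Y.length] Y = Y.map (y * ·) := by
  have := rot_app y Y []
  simpa using this

lemma rot_mul (y : Γ) (Y : List Γ) (k : ℕ) :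
    (rotL y)^[k * Y.length] Y = Y.map (y ^ k * ·) := by
  induction k with
  | zero => simp
  | succ k ih =>
    rw [Nat.succ_mul, Function.iterate_add_apply, rot_len,
      iter_map' (γ := y) (y := y) (by group), ih, List.map_map]
    congr 1
    funext x
    simp [pow_succ', mul_assoc]

lemma rot_ne {y : Γ} {Y : List Γ} (h : Y ≠ []) : rotL y Y ≠ [] := by
  cases Y with
  | nil => exact absurd rfl h
  | cons a Y => simp [rotL]

lemma iter_ne {y : Γ} {Y : List Γ} (h : Y ≠ []) (e : ℕ) : (rotL y)^[e] Y ≠ [] := by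
  induction e with
  | zero => exact h
  | succ e ih => rw [Function.iterate_succ_apply']; exact rot_ne ih

/-- Some multiple of a period is the identity. -/
lemma exists_id {y : Γ} (hy : IsOfFinOrder y) {Y : List Γ} (hY : Y ≠ []) (e : ℕ) :
    ∃ e' : ℕ, (rotL y)^[e' + e] Y = Y ∧ (rotL y)^[e + e'] Y = Y := by
  have hn : 0 < Y.length := List.length_pos_iff.mpr hY
  have ho : 0 < orderOf y := hy.orderOf_pos
  have h1 : e ≤ (e * orderOf y) * Y.length := by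
    calc e = e * 1 * 1 := by simp
      _ ≤ (e * orderOf y) * Y.length :=
        Nat.mul_le_mul (Nat.mul_le_mul le_rfl ho) hn
  have h2 : (rotL y)^[(e * orderOf y) * Y.length] Y = Y := by
    rw [rot_mul, mul_comm e, pow_mul, pow_orderOf_eq_one, one_pow]
    simp
  refine ⟨(e * orderOf y) * Y.length - e, ?_, ?_⟩
  · rw [Nat.sub_add_cancel h1]; exact h2
  · rw [Nat.add_sub_cancel' h1]; exact h2

variable {Pt : List Γ → Γ → Finset Γ} {dl : List Γ → Γ → Γ}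

lemma dl_iter (h : Pnt Pt dl) {Y : List Γ} {y : Γ} (hY : Y ≠ []) (hy : IsOfFinOrder y)
    (e : ℕ) : dl ((rotL y)^[e] Y) y = dl Y y := by
  induction e with
  | zero => rfl
  | succ e ih => rw [Function.iterate_succ_apply', h.drot _ _ (iter_ne hY e) hy, ih]

/-- The relation between quadruples. -/
def Dt (dl : List Γ → Γ → Γ) (q q' : List Γ × Γ × Γ × Γ) (γ : Γ) (e : ℕ) (i j : ℤ) : Prop :=
  q'.1 = ((rotL q.2.1)^[e] q.1).map (γ * ·) ∧ q'.2.1 = γ * q.2.1 * γ⁻¹ ∧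
    q'.2.2.1 = γ * dl q.1 q.2.1 ^ i * q.2.2.1 ∧ q'.2.2.2 = γ * dl q.1 q.2.1 ^ j * q.2.2.2

lemma fin_conj {y : Γ} (hy : IsOfFinOrder y) (γ : Γ) : IsOfFinOrder (γ * y * γ⁻¹) := by
  have e2 : orderOf (γ * y * γ⁻¹) = orderOf y := by
    have := (MulAut.conj γ).orderOf_eq y
    simpa using this
  rw [← orderOf_pos_iff, e2]
  exact hy.orderOf_pos

lemma conj_zpow' (γ δ : Γ) (i : ℤ) : (γ * δ * γ⁻¹) ^ i = γ * δ ^ i * γ⁻¹ := conj_zpow

/-- `dl` of a related quadruple. -/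
lemma dl_dt (h : Pnt Pt dl) {q q' : List Γ × Γ × Γ × Γ} {γ : Γ} {e : ℕ} {i j : ℤ}
    (hY : q.1 ≠ []) (hy : IsOfFinOrder q.2.1) (hd : Dt dl q q' γ e i j) :
    dl q'.1 q'.2.1 = γ * dl q.1 q.2.1 * γ⁻¹ := by
  rw [hd.1, hd.2.1, h.dinv γ _ _ (iter_ne hY e) hy, dl_iter h hY hy]

lemma dt_refl (q : List Γ × Γ × Γ × Γ) : Dt dl q q 1 0 0 0 := by
  refine ⟨by simp, by simp, by simp, by simp⟩

lemma dt_trans (h : Pnt Pt dl) {q q' q'' : List Γ × Γ × Γ × Γ} {γ γ' : Γ} {e e' : ℕ}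
    {i j i' j' : ℤ} (hY : q.1 ≠ []) (hy : IsOfFinOrder q.2.1) (hd : Dt dl q q' γ e i j)
    (hd' : Dt dl q' q'' γ' e' i' j') : Dt dl q q'' (γ' * γ) (e' + e) (i' + i) (j' + j) := by
  have hdl := dl_dt h hY hy hd
  obtain ⟨a1, a2, a3, a4⟩ := hd
  obtain ⟨b1, b2, b3, b4⟩ := hd'
  rw [hdl, conj_zpow'] at b3 b4
  refine ⟨?_, ?_, ?_, ?_⟩
  · rw [b1, a1, iter_map' a2, List.map_map, Function.iterate_add_apply]
    congr 1
    funext x
    simp [mul_assoc]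
  · rw [b2, a2]; group
  · rw [b3, a3, zpow_add]; group
  · rw [b4, a4, zpow_add]; group

lemma dt_symm (h : Pnt Pt dl) {q q' : List Γ × Γ × Γ × Γ} {γ : Γ} {e : ℕ}
    {i j : ℤ} (hY : q.1 ≠ []) (hy : IsOfFinOrder q.2.1) (hd : Dt dl q q' γ e i j) :
    ∃ e' : ℕ, Dt dl q' q γ⁻¹ e' (-i) (-j) := by
  have hdl := dl_dt h hY hy hd
  obtain ⟨a1, a2, a3, a4⟩ := hd
  obtain ⟨e', he', -⟩ := exists_id hy hY e
  refine ⟨e', ?_, ?_, ?_, ?_⟩
  · rw [a1, iter_map' a2, ← Function.iterate_add_apply, he', List.map_map]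
    have : ((γ⁻¹ * ·) ∘ (γ * ·) : Γ → Γ) = id := by funext x; simp
    rw [this, List.map_id]
  · rw [a2]; group
  · rw [hdl, conj_zpow', a3]; group
  · rw [hdl, conj_zpow', a4]; group

/-- Uniqueness modulo the order. -/
lemma dt_uniq (h : Pnt Pt dl) {q q' : List Γ × Γ × Γ × Γ} {γ γ' : Γ} {e e' : ℕ}
    {i j i' j' : ℤ} (hY : q.1 ≠ []) (hy : IsOfFinOrder q.2.1) (hd : Dt dl q q' γ e i j)
    (hd' : Dt dl q q' γ' e' i' j') :
    (orderOf (dl q.1 q.2.1) : ℤ) ∣ (i' - j') - (i - j) := by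
  obtain ⟨a1, a2, a3, a4⟩ := hd
  obtain ⟨b1, b2, b3, b4⟩ := hd'
  set δ := dl q.1 q.2.1 with hδ
  set η := γ⁻¹ * γ' with hη
  have hyη : η * q.2.1 * η⁻¹ = q.2.1 := by
    have h1 : γ * q.2.1 * γ⁻¹ = γ' * q.2.1 * γ'⁻¹ := a2.symm.trans b2
    calc η * q.2.1 * η⁻¹ = γ⁻¹ * (γ' * q.2.1 * γ'⁻¹) * γ := by rw [hη]; group
      _ = γ⁻¹ * (γ * q.2.1 * γ⁻¹) * γ := by rw [h1]
      _ = q.2.1 := by group
  have hl : (rotL q.2.1)^[e] q.1 = ((rotL q.2.1)^[e'] q.1).map (η * ·) := by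
    have h1 := a1.symm.trans b1
    have h2 := congrArg (List.map (γ⁻¹ * ·)) h1
    rw [List.map_map, List.map_map] at h2
    have e1 : ((γ⁻¹ * ·) ∘ (γ * ·) : Γ → Γ) = id := by funext x; simp
    have e2 : ((γ⁻¹ * ·) ∘ (γ' * ·) : Γ → Γ) = (η * ·) := by funext x; simp [hη, mul_assoc]
    rw [e1, e2, List.map_id] at h2
    exact h2
  obtain ⟨N, hN, -⟩ := exists_id hy hY e
  have hst : Stb q.1 q.2.1 η (N + e') := by
    refine ⟨?_, ?_⟩
    · calc η * q.2.1 = (η * q.2.1 * η⁻¹) * η := by group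
        _ = q.2.1 * η := by rw [hyη]
    · have h3 := congrArg (rotL q.2.1)^[N] hl
      rw [← Function.iterate_add_apply, hN, iter_map' hyη.symm,
        ← Function.iterate_add_apply] at h3
      exact h3.symm
  obtain ⟨t, ht⟩ := h.gen _ _ hY hy η _ hst
  rw [← hδ] at ht
  have hγ : γ' = γ * δ ^ (t : ℤ) := by
    rw [zpow_natCast, ← ht, hη]; group
  have c1 : δ ^ i = δ ^ ((t : ℤ) + i') := by
    have h1 := a3.symm.trans b3
    rw [hγ] at h1
    have h2 := mul_right_cancel h1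
    rw [mul_assoc] at h2
    rw [zpow_add]
    exact mul_left_cancel h2
  have c2 : δ ^ j = δ ^ ((t : ℤ) + j') := by
    have h1 := a4.symm.trans b4
    rw [hγ] at h1
    have h2 := mul_right_cancel h1
    rw [mul_assoc] at h2
    rw [zpow_add]
    exact mul_left_cancel h2
  have d1 : (orderOf δ : ℤ) ∣ (i - (t + i')) := by
    rw [orderOf_dvd_iff_zpow_eq_one, zpow_sub, c1, mul_inv_cancel]
  have d2 : (orderOf δ : ℤ) ∣ (j - (t + j')) := by
    rw [orderOf_dvd_iff_zpow_eq_one, zpow_sub, c2, mul_inv_cancel]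
  have d3 := dvd_sub d2 d1
  have e3 : (j - (t + j')) - (i - (t + i')) = (i' - j') - (i - j) := by ring
  rwa [e3] at d3

/-- Valid quadruples. -/
def Vd (Pt : List Γ → Γ → Finset Γ) (q : List Γ × Γ × Γ × Γ) : Prop :=
  q.1 ≠ [] ∧ IsOfFinOrder q.2.1 ∧ q.2.2.1 ∈ Pt q.1 q.2.1

/-- The setoid of the valid quadruples. -/
def st (h : Pnt Pt dl) : Setoid {q : List Γ × Γ × Γ × Γ // Vd Pt q} where
  r q q' := ∃ (γ : Γ) (e : ℕ) (i j : ℤ), Dt dl q.1 q'.1 γ e i j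
  iseqv := by
    refine ⟨fun q => ⟨1, 0, 0, 0, dt_refl _⟩, ?_, ?_⟩
    · rintro q q' ⟨γ, e, i, j, hd⟩
      obtain ⟨e', he'⟩ := dt_symm h q.2.1 q.2.2.1 hd
      exact ⟨_, _, _, _, he'⟩
    · rintro q q' q'' ⟨γ, e, i, j, hd⟩ ⟨γ', e', i', j', hd'⟩
      exact ⟨_, _, _, _, dt_trans h q.2.1 q.2.2.1 hd hd'⟩

/-- The representative. -/
def rp (h : Pnt Pt dl) (q : {q : List Γ × Γ × Γ × Γ // Vd Pt q}) :
    {q : List Γ × Γ × Γ × Γ // Vd Pt q} :=
  (Quotient.mk (st h) q).out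

lemma rp_rel (h : Pnt Pt dl) (q : {q : List Γ × Γ × Γ × Γ // Vd Pt q}) :
    ∃ (γ : Γ) (e : ℕ) (i j : ℤ), Dt dl (rp h q).1 q.1 γ e i j := by
  have := Quotient.mk_out (s := st h) q
  exact this

lemma rp_eq (h : Pnt Pt dl) {q q' : {q : List Γ × Γ × Γ × Γ // Vd Pt q}} {γ : Γ} {e : ℕ}
    {i j : ℤ} (hd : Dt dl q.1 q'.1 γ e i j) : rp h q = rp h q' := by
  unfold rp
  have : (Quotient.mk (st h) q) = Quotient.mk (st h) q' := Quotient.sound ⟨_, _, _, _, hd⟩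
  rw [this]

open Classical in
/-- The alignment. -/
def kq (h : Pnt Pt dl) (q : List Γ × Γ × Γ × Γ) : ℤ :=
  if hq : Vd Pt q then
    ((rp_rel h ⟨q, hq⟩).choose_spec.choose_spec.choose -
      (rp_rel h ⟨q, hq⟩).choose_spec.choose_spec.choose_spec.choose) %
      (orderOf (dl (rp h ⟨q, hq⟩).1.1 (rp h ⟨q, hq⟩).1.2.1) : ℤ)
  else 0

lemma kq_spec (h : Pnt Pt dl) {q : List Γ × Γ × Γ × Γ} (hq : Vd Pt q) {γ : Γ} {e : ℕ}
    {i j : ℤ} (hd : Dt dl (rp h ⟨q, hq⟩).1 q γ e i j) :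
    kq h q = (i - j) % (orderOf (dl (rp h ⟨q, hq⟩).1.1 (rp h ⟨q, hq⟩).1.2.1) : ℤ) := by
  unfold kq
  rw [dif_pos hq]
  have h1 := (rp_rel h ⟨q, hq⟩).choose_spec.choose_spec.choose_spec.choose_spec
  have h2 := dt_uniq h (rp h ⟨q, hq⟩).2.1 (rp h ⟨q, hq⟩).2.2.1 hd h1
  exact Int.emod_eq_emod_iff_emod_sub_eq_zero.mpr (Int.emod_eq_zero_of_dvd h2)

end KAP

open KAP in
/-- MODULE KAP -/
theorem t_KAP : S_KAP := by
  intro Γ _ Pt dl h
  refine ⟨fun Y y a b => kq h (Y, y, a, b), ?_⟩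
  intro Y y hY hy a ha b
  have hq : Vd Pt (Y, y, a, b) := ⟨hY, hy, ha⟩
  obtain ⟨γ0, e0, i0, j0, hd0⟩ := rp_rel h ⟨(Y, y, a, b), hq⟩
  have hk := kq_spec h hq hd0
  have hrY := (rp h ⟨(Y, y, a, b), hq⟩).2.1
  have hry := (rp h ⟨(Y, y, a, b), hq⟩).2.2.1
  have hdl : dl Y y = γ0 * dl (rp h ⟨(Y, y, a, b), hq⟩).1.1 (rp h ⟨(Y, y, a, b), hq⟩).1.2.1
      * γ0⁻¹ := dl_dt h hrY hry hd0
  have hord : orderOf (dl Y y) =
      orderOf (dl (rp h ⟨(Y, y, a, b), hq⟩).1.1 (rp h ⟨(Y, y, a, b), hq⟩).1.2.1) := by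
    rw [hdl]
    have := (MulAut.conj γ0).orderOf_eq
      (dl (rp h ⟨(Y, y, a, b), hq⟩).1.1 (rp h ⟨(Y, y, a, b), hq⟩).1.2.1)
    simpa using this
  -- the general step
  have step : ∀ (q' : List Γ × Γ × Γ × Γ) (hq' : Vd Pt q') (γ : Γ) (e : ℕ) (i j : ℤ),
      Dt dl (Y, y, a, b) q' γ e i j →
      kq h q' = ((i + i0) - (j + j0)) % (orderOf (dl Y y) : ℤ) := by
    intro q' hq' γ e i j hd
    have hr : rp h ⟨(Y, y, a, b), hq⟩ = rp h ⟨q', hq'⟩ := rp_eq h hd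
    have h1 := dt_trans h hrY hry hd0 hd
    have h2 : Dt dl (rp h ⟨q', hq'⟩).1 q' (γ * γ0) (e + e0) (i + i0) (j + j0) := by
      rw [← hr]; exact h1
    rw [kq_spec h hq' h2, ← hr, hord]
  have hk' : kq h (Y, y, a, b) = (i0 - j0) % (orderOf (dl Y y) : ℤ) := by
    rw [hk, hord]
  refine ⟨?_, ?_, ?_, ?_⟩
  · intro γ
    have hv : Vd Pt (Y.map (γ * ·), γ * y * γ⁻¹, γ * a, γ * b) :=
      ⟨by simpa using hY, fin_conj hy γ, (h.inv γ Y y hY hy a).mpr ha⟩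
    have := step _ hv γ 0 0 0 ⟨rfl, rfl, by simp, by simp⟩
    change kq h _ = kq h _
    rw [this, hk']; simp
  · have hv : Vd Pt (rotL y Y, y, a, b) :=
      ⟨rot_ne hY, hy, by
        have := h.rot Y y hY hy
        change a ∈ Pt (rotL y Y) y
        rw [this]; exact ha⟩
    have := step _ hv 1 1 0 0 ⟨by simp, by simp, by simp, by simp⟩
    change kq h _ = kq h _
    rw [this, hk']; simp
  · have hv : Vd Pt (Y, y, dl Y y * a, b) := ⟨hY, hy, h.orb Y y hY hy a ha⟩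
    have h1 := step _ hv 1 0 1 0 ⟨by simp, by simp, by simp, by simp⟩
    have h2 : ∃ z : ℤ, kq h (Y, y, dl Y y * a, b) = kq h (Y, y, a, b) + 1 +
        orderOf (dl Y y) * z := by
      rw [h1, hk']
      have e1 := Int.emod_add_mul_ediv ((1 + i0) - (0 + j0)) (orderOf (dl Y y) : ℤ)
      have e2 := Int.emod_add_mul_ediv (i0 - j0) (orderOf (dl Y y) : ℤ)
      refine ⟨(i0 - j0) / (orderOf (dl Y y) : ℤ) -
        ((1 + i0) - (0 + j0)) / (orderOf (dl Y y) : ℤ), ?_⟩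
      rw [mul_sub]
      linarith
    exact h2
  · have hv : Vd Pt (Y, y, a, dl Y y * b) := ⟨hY, hy, ha⟩
    have h1 := step _ hv 1 0 0 1 ⟨by simp, by simp, by simp, by simp⟩
    have h2 : ∃ z : ℤ, kq h (Y, y, a, dl Y y * b) = kq h (Y, y, a, b) - 1 +
        orderOf (dl Y y) * z := by
      rw [h1, hk']
      have e1 := Int.emod_add_mul_ediv ((0 + i0) - (1 + j0)) (orderOf (dl Y y) : ℤ)
      have e2 := Int.emod_add_mul_ediv (i0 - j0) (orderOf (dl Y y) : ℤ)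
      refine ⟨(i0 - j0) / (orderOf (dl Y y) : ℤ) -
        ((0 + i0) - (1 + j0)) / (orderOf (dl Y y) : ℤ), ?_⟩
      rw [mul_sub]
      linarith
    exact h2

end Pool.Agent.FJA
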