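import Pool.Agent.AUK.FJA.P_PNT
import Pool.Agent.AUK.FJA.St9

/-!
# FJA: the module MRN

The marking of a pair, all of whose periods are divisible by `p ^ r`, is the shift between its sequence
(see `P_SEC.lean`) and the representative of the class of this sequence.
-/

set_option autoImplicit false

noncomputable section

namespace Pool.Agent.FJA

namespace MRN

open SEC

variable {Γ : Type} [Group Γ]

lemma goodP_iff {d : ℕ} {Y : List Γ} (hY : Y ≠ []) (y : Γ) :
    GoodP d Y y ↔ ∀ (δ : Γ) (e : ℤ), PNT.St (sq Y y) δ e → (d : ℤ) ∣ e := by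
  constructor
  · intro h δ e he
    rcases le_total 0 e with h0 | h0
    · have h1 : ((e.toNat : ℕ) : ℤ) = e := Int.toNat_of_nonneg h0
      have h2 := h δ e.toNat ((PNT.stb_iff hY y δ _).2 (by rw [h1]; exact he))
      rw [← h1]
      exact Int.natCast_dvd_natCast.2 h2
    · have h1 : (((-e).toNat : ℕ) : ℤ) = -e := Int.toNat_of_nonneg (by omega)
      have h2 := h δ⁻¹ (-e).toNat ((PNT.stb_iff hY y _ _).2 (by rw [h1]; exact PNT.st_inv he))
      have h3 : (d : ℤ) ∣ -e := by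
        rw [← h1]
        exact Int.natCast_dvd_natCast.2 h2
      exact (dvd_neg).1 h3
  · intro h δ e he
    exact Int.natCast_dvd_natCast.1 (h δ e ((PNT.stb_iff hY y δ e).1 he))

lemma goodP_conj {d : ℕ} {Y : List Γ} (hY : Y ≠ []) (γ y : Γ) :
    GoodP d (Y.map (γ * ·)) (γ * y * γ⁻¹) ↔ GoodP d Y y := by
  have hY' : Y.map (γ * ·) ≠ [] := by simpa using hY
  rw [goodP_iff hY', goodP_iff hY]
  constructor
  · intro h δ e he
    refine h (γ * δ * γ⁻¹) e fun a => ?_
    rw [sq_conj hY, sq_conj hY, he a]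
    group
  · intro h δ e he
    refine h (γ⁻¹ * δ * γ) e fun a => ?_
    have h1 := he a
    rw [sq_conj hY, sq_conj hY] at h1
    rw [mul_assoc, mul_assoc, ← h1, inv_mul_cancel_left]

lemma goodP_rot {d : ℕ} {Y : List Γ} (hY : Y ≠ []) (y : Γ) (h : GoodP d Y y) :
    GoodP d (rotL y Y) y := by
  rw [goodP_iff hY] at h
  rw [goodP_iff (PNT.rotL_ne hY y)]
  intro δ e he
  refine h δ e fun a => ?_
  have h1 := he (a - 1)
  rw [PNT.sq_rotL hY, PNT.sq_rotL hY, sub_add_cancel,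
    show a - 1 + e + 1 = a + e by ring] at h1
  exact h1

/-- the domain of the marking -/
def Dom (p k r : ℕ) (Y : List Γ) (y : Γ) : Prop :=
  Y.length = p ^ k ∧ IsOfFinOrder y ∧ p ∣ orderOf y ∧ GoodP (p ^ r) Y y

lemma dom_ne {p : ℕ} (hp : p.Prime) {k r : ℕ} {Y : List Γ} {y : Γ} (hD : Dom p k r Y y) :
    Y ≠ [] := by
  rintro rfl
  have := hD.1
  rw [List.length_nil] at this
  exact (pow_pos hp.pos k).ne this

open Classical in
/-- the marking -/
def mrk (p k r : ℕ) (Y : List Γ) (y : Γ) : ZMod (p ^ r) :=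
  if Dom p k r Y y then (((rep_spec (sq Y y)).choose_spec.choose : ℤ) : ZMod (p ^ r)) else 0

lemma mrk_eq {p : ℕ} (hp : p.Prime) {k r : ℕ} {Y : List Γ} {y : Γ} (hD : Dom p k r Y y) {γ : Γ}
    {m : ℤ} (h : ∀ n, sq Y y n = γ * rep (sq Y y) (n + m)) :
    mrk p k r Y y = (m : ZMod (p ^ r)) := by
  classical
  rw [mrk, if_pos hD]
  obtain ⟨m', hm'⟩ : ∃ m', m' = (rep_spec (sq Y y)).choose_spec.choose := ⟨_, rfl⟩
  have h' := (rep_spec (sq Y y)).choose_spec.choose_spec
  rw [← hm'] at h' ⊢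
  obtain ⟨γ', hγ'⟩ : ∃ γ', γ' = (rep_spec (sq Y y)).choose := ⟨_, rfl⟩
  rw [← hγ'] at h'
  have h1 : PNT.St (sq Y y) (γ * γ'⁻¹) (m - m') := by
    intro n
    rw [h n, h' (n + (m - m')), show n + (m - m') + m' = n + m by ring]
    group
  have h2 := (goodP_iff (dom_ne hp hD) y).1 hD.2.2.2 _ _ h1
  have h3 := (ZMod.intCast_zmod_eq_zero_iff_dvd (m - m') (p ^ r)).2 h2
  rw [Int.cast_sub, sub_eq_zero] at h3
  exact h3.symm

lemma rep_congr {A B : ℤ → Γ} (δ : Γ) (l : ℤ) (h : ∀ n, B n = δ * A (n + l)) : rep B = rep A := by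
  unfold rep
  have : (Quotient.mk rel B) = Quotient.mk rel A := Quotient.sound (s := rel) ⟨δ, l, h⟩
  rw [this]

end MRN

open MRN SEC in
/-- MODULE MRN -/
theorem t_MRN : S_MRN := by
  classical
  intro Γ _ p hp k r
  refine ⟨mrk p k r, ?_, ?_⟩
  · intro γ Y y
    by_cases hY : Y = []
    · subst hY
      have hn : ∀ z : Γ, ¬ Dom p k r ([] : List Γ) z := fun z hD => dom_ne hp.out hD rfl
      rw [List.map_nil, mrk, mrk, if_neg (hn _), if_neg (hn _)]
    have hiff : Dom p k r (Y.map (γ * ·)) (γ * y * γ⁻¹) ↔ Dom p k r Y y := by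
      have e2 : orderOf (γ * y * γ⁻¹) = orderOf y := by
        have := (MulAut.conj γ).orderOf_eq y
        simpa using this
      have e1 : IsOfFinOrder (γ * y * γ⁻¹) ↔ IsOfFinOrder y := by
        rw [← orderOf_pos_iff, ← orderOf_pos_iff, e2]
      unfold Dom
      rw [List.length_map, e1, e2, goodP_conj hY]
    by_cases hD : Dom p k r Y y
    · obtain ⟨δ, m, h⟩ := rep_spec (sq Y y)
      rw [mrk_eq hp.out hD h]
      have hc := sq_conj hY γ y
      have hr : rep (sq (Y.map (γ * ·)) (γ * y * γ⁻¹)) = rep (sq Y y) :=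
        rep_congr γ 0 fun n => by rw [hc, add_zero]
      refine mrk_eq hp.out (hiff.2 hD) (γ := γ * δ) (m := m) fun n => ?_
      rw [hc, hr, h n, mul_assoc]
    · rw [mrk, mrk, if_neg hD, if_neg (fun h => hD (hiff.1 h))]
  · intro Y y hl hf hpo hg
    have hD2 : Dom p k r Y y := ⟨hl, hf, hpo, hg⟩
    have hY : Y ≠ [] := dom_ne hp.out hD2
    have hD1 : Dom p k r (rotL y Y) y :=
      ⟨by rw [PNT.rotL_length, hl], hf, hpo, goodP_rot hY y hg⟩
    obtain ⟨δ, m, h⟩ := rep_spec (sq Y y)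
    rw [mrk_eq hp.out hD2 h]
    have hc := PNT.sq_rotL hY y
    have hr : rep (sq (rotL y Y) y) = rep (sq Y y) :=
      rep_congr 1 1 fun n => by rw [hc, one_mul]
    have h1 := mrk_eq hp.out hD1 (γ := δ) (m := m + 1) fun n => by
      rw [hc, hr, h (n + 1)]
      congr 2
      ring
    rw [h1]
    push_cast
    rfl

end Pool.Agent.FJA
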