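import Pool.Agent.AUK.FJA.P_BND
import Pool.Agent.AUK.FJA.P_CUP
import Pool.Agent.AUK.FJA.P_EVS
import Pool.Agent.AUK.FJA.P_MEX
import Pool.Agent.AUK.FJA.P_PAD
import Pool.Agent.AUK.FJA.P_PDK
import Pool.Agent.AUK.FJA.P_PRI
import Pool.Agent.AUK.FJA.P_SCH
import Pool.Agent.AUK.FJA.Step7

/-!
# PDG: the `ℓ`-adic theorem without a bound on the torsion
-/

set_option autoImplicit false

open Matrix Pool.Agent.WhK Pool.Agent.Lib25

noncomputable section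

namespace Pool.Agent.FJA

namespace PDG

open Step7

theorem snd_pow_eq_one {y : Multiplicative ℤ} {n : ℕ} (hn : 0 < n) (h : y ^ n = 1) : y = 1 := by
  have h4 : (n : ℤ) * Multiplicative.toAdd y = 0 := by
    have h5 := congrArg Multiplicative.toAdd h
    rw [toAdd_pow, toAdd_one, nsmul_eq_mul] at h5
    exact h5
  rcases mul_eq_zero.1 h4 with h5 | h5
  · have h6 : n = 0 := by exact_mod_cast h5
    omega
  · apply Multiplicative.toAdd.injective
    rw [h5]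
    rfl

/-- A null function composed with a power is a null function. -/
theorem null_pow {G : Type} [Group G] {M : ℕ} {L : Rec (G × Multiplicative ℤ) (Fin M) → ℚ}
    (hL : NullFun (sg2 G) L) {e : ℕ} (he : 0 < e) : NullFun (sg2 G) (fun μ => L (μ ^ e)) where
  cj := by
    intro γ μ
    obtain ⟨e, rfl⟩ : ∃ e', e = e' + 1 := ⟨e - 1, by omega⟩
    have h1 : (Rec.inc γ * μ) ^ (e + 1) = Rec.inc γ * (μ * (Rec.inc γ * μ) ^ e) := by
      rw [pow_succ', mul_assoc]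
    have h2 : (μ * Rec.inc γ) ^ (e + 1) = μ * (Rec.inc γ * μ) ^ e * Rec.inc γ := by
      rw [pow_succ, ← mul_pow_mul, ← mul_assoc]
    change L ((Rec.inc γ * μ) ^ (e + 1)) = L ((μ * Rec.inc γ) ^ (e + 1))
    rw [h1, h2]
    exact hL.cj γ _
  fin := by
    intro μ h
    have h1 := hL.fin _ h
    have h2 : (μ ^ e).val = μ.val ^ e := map_pow Rec.valHom μ e
    rw [h2] at h1
    rcases isOfFinOrder_pow.mp h1 with h3 | h3
    · exact h3
    · omega
  flat := by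
    intro μ hμ
    by_contra h
    have h1 := hL.fin _ h
    have h2 : (μ ^ e).val = μ.val ^ e := map_pow Rec.valHom μ e
    rw [h2] at h1
    have h3 : IsOfFinOrder μ.val := by
      rcases isOfFinOrder_pow.mp h1 with h3 | h3
      · exact h3
      · omega
    have h4 : sg2 G μ.val = 1 := by
      obtain ⟨n, hn, h5⟩ := (isOfFinOrder_iff_pow_eq_one).1 h3
      refine snd_pow_eq_one hn ?_
      rw [← map_pow, h5, map_one]
    apply h
    refine hL.flat _ ?_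
    have h6 : ∀ (e : ℕ) (i : Fin M) (a : G × Multiplicative ℤ), a ∈ (μ ^ e).lst i →
        ∃ b ∈ μ.lst i, sg2 G a = sg2 G b := by
      intro e
      induction e with
      | zero =>
        intro i a ha
        simp at ha
      | succ e ih =>
        intro i a ha
        rw [pow_succ, Rec.mul_lst, List.mem_append, List.mem_map] at ha
        rcases ha with ha | ⟨b, hb, rfl⟩
        · exact ih i a ha
        · refine ⟨b, hb, ?_⟩
          have h7 : (μ ^ e).val = μ.val ^ e := map_pow Rec.valHom μ e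
          rw [map_mul, h7, map_pow, h4, one_pow, one_mul]
    intro i j a b ha hb
    obtain ⟨a', ha', h8⟩ := h6 e i a ha
    obtain ⟨b', hb', h9⟩ := h6 e j b hb
    rw [h8, h9]
    exact hμ i j a' b' ha' hb'


/-- The family `F (· ; y ^ e)`. -/
theorem powF_cup {G : Type} [Group G] {m : ℕ} (F : (Fin (m + 1) → G) → G → ℚ) {e : ℕ}
    (he : 0 < e) : powF e (cup F) = cup (powF e F) := by
  funext a y
  unfold powF cup
  have h1 : (y ^ e).2 = 1 ↔ y.2 = 1 := by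
    constructor
    · intro h
      exact snd_pow_eq_one he (by rw [← h]; rfl)
    · intro h
      rw [Prod.pow_snd, h, one_pow]
  by_cases h : y.2 = 1
  · rw [if_pos h, if_pos (h1.2 h)]
    rfl
  · rw [if_neg h, if_neg fun h2 => h (h1.1 h2)]

/-- The family `F (· ; y ^ e)` is a family of cocycles. -/
theorem gcoch_pow {G : Type} [Group G] {m : ℕ} {n0 : ℕ} {F : (Fin (m + 1) → G) → G → ℚ}
    (hF : GCoch m (fun y => y ^ n0 = 1) F) (e : ℕ) :
    GCoch m (fun y => y ^ (e * n0) = 1) (powF e F) where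
  inv γ a y := by
    have h := hF.inv γ a (y ^ e)
    unfold powF
    rw [conj_pow]
    exact h
  coc a y := hF.coc a (y ^ e)
  supp a y h := by
    have h1 := hF.supp a (y ^ e) h
    change (y ^ e) ^ n0 = 1 at h1
    change y ^ (e * n0) = 1
    rw [pow_mul]
    exact h1
  den := by
    obtain ⟨D, hD, h⟩ := hF.den
    exact ⟨D, hD, fun a y => h a (y ^ e)⟩

theorem TK_lin {k : Type} [Field k] [CharZero k] {Γ : Type} [Group Γ] {M : ℕ} (c : ℚ)
    (φ ψ : Rec Γ (Fin M) → ℚ) (N : ℕ) (B : KCh k Γ M) :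
    TK k (fun μ => c * (φ μ - ψ μ)) N B = (c : k) * (TK k φ N B - TK k ψ N B) := by
  rw [PDK.TK_apply, PDK.TK_apply, PDK.TK_apply, ← Finset.sum_sub_distrib, Finset.mul_sum]
  refine Finset.sum_congr rfl fun x _ => ?_
  have h1 : (fun μ : Rec Γ (Fin M) => c * (φ μ - ψ μ)) = fun μ => c * (φ μ + (-1) * ψ μ) := by
    funext μ
    ring
  rw [h1, (t_TXlin k Γ (Fin x.1) M N x.2).2 c (fun μ => φ μ + (-1) * ψ μ),
    (t_TXlin k Γ (Fin x.1) M N x.2).1 φ (fun μ => (-1) * ψ μ),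
    (t_TXlin k Γ (Fin x.1) M N x.2).2 (-1) ψ]
  push_cast
  ring

theorem TK_cobR {k : Type} [Field k] [CharZero k] {Γ : Type} [Group Γ] {M : ℕ}
    (φ : Rec Γ (Fin M) → ℚ) (N : ℕ) (B : KCh k Γ (M + 1)) :
    TK k (cobR φ) N B = TK k φ N (bdK k Γ M B) := by
  rw [BND.TK_bdK, PDK.TK_apply]

theorem cobR_pow {Γ : Type} [Group Γ] {M : ℕ} (L : Rec Γ (Fin M) → ℚ) (e : ℕ)
    (μ : Rec Γ (Fin (M + 1))) : cobR L (μ ^ e) = cobR (fun μ => L (μ ^ e)) μ := by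
  unfold cobR
  refine Finset.sum_congr rfl fun i _ => ?_
  rw [map_pow]

/-- One step. -/
theorem one (hpnt : S_PNT) (havs : S_AVS) (hper : S_PER) (hsup : S_SUP) {n : ℕ}
    (hcul : CULP (n + 1)) {G : Type} [Group G] {n0 : ℕ} (hn0 : 0 < n0) {ℓ : ℕ} [Fact ℓ.Prime]
    {F : (Fin (n + 2) → G) → G → ℚ} (hF : GCoch (n + 1) (fun y => y ^ n0 = 1) F)
    (B : KCh ℚ_[ℓ] (G × Multiplicative ℤ) (n + 3)) (hB : ∀ x ∈ B.support, ∀ i, NIU (x.2 i))
    (hnull : ∀ η : Rec (G × Multiplicative ℤ) (Fin (n + 2)) → ℚ, NullFun (sg2 G) η → ∀ N : ℕ,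
      0 < N → TK ℚ_[ℓ] η N (bdK _ _ (n + 2) B) = 0) :
    TK ℚ_[ℓ] (fst (cup F)) 1 B = TK ℚ_[ℓ] (fst (powF ℓ (cup F))) 1 B := by
  classical
  have hprime : ℓ.Prime := Fact.out
  have hS : ∀ y : G, y ^ n0 = 1 → IsOfFinOrder y := fun y hy =>
    isOfFinOrder_iff_pow_eq_one.2 ⟨n0, hn0, hy⟩
  have hFc : Coch (sg2 G) (n + 2) (cup F) := (t_CUP G (n + 1) F).2 _ hS hF
  obtain ⟨Pt, dl, hP⟩ := hpnt (G × Multiplicative ℤ)
  obtain ⟨hs, hrot, -⟩ := havs (G × Multiplicative ℤ) Pt dl hP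
  obtain ⟨D, hD, hcul⟩ := hcul G Pt dl hP (fun y => y ^ n0 = 1) F hS hF
  have hmex := t_MEX.{0}
  have hevs := t_EVS.{0} hmex
  have hsch := t_SCH.{0, 0, 0} t_TXlin t_TXfac t_TXlen hmex t_PRI
  obtain ⟨e1, -, e3, e4, e5, -, -⟩ := hevs (G × Multiplicative ℤ) (sg2 G) (n + 2) (cup F) (avS Pt)
    hFc hs
  have htr : IsTr (evs (cup F) (avS Pt)) := e1 hrot
  obtain ⟨S, L1, hSB, hInc, hSx⟩ := exists_sub hsup B
  obtain ⟨A, hA⟩ : ∃ A, A = TK ℚ_[ℓ] (fst (cup F)) 1 B := ⟨_, rfl⟩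
  obtain ⟨A', hA'⟩ : ∃ A', A' = TK ℚ_[ℓ] (fst (powF ℓ (cup F))) 1 B := ⟨_, rfl⟩
  have hnull' : ∀ η : Rec (G × Multiplicative ℤ) (Fin (n + 2)) → ℚ, NullFun (sg2 G) η →
      ∀ N : ℕ, 0 < N → ∑ x ∈ B.support, ((B x : ℚ) : ℚ_[ℓ]) * ∑ i : Fin (n + 2 + 1),
        (-1 : ℚ_[ℓ]) ^ (i : ℕ) * TX η N (fun t => x.2 (i.succAbove t)) = 0 := by
    intro η hη N hN
    have h := hnull η hη N hN
    rw [PDK.TK_bdK] at h
    exact h
  have a1 : ∀ N : ℕ, 0 < N → TK ℚ_[ℓ] (evs (cup F) (avS Pt)) N B = A := by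
    intro N hN
    rw [hA, PDK.TK_apply, PDK.TK_apply]
    exact PAD.sum_evs (J := Σ r : ℕ, (Fin (n + 3) → (Matrix (Fin r) (Fin r)
      (MonoidAlgebra ℚ_[ℓ] (G × Multiplicative ℤ)))ˣ)) (r := fun x => x.1) (X := fun x => x.2)
      hsch hevs t_TXfst hnull' hFc hs N hN
  have a2 : ∀ N : ℕ, 0 < N →
      TK ℚ_[ℓ] (fun μ => evs (cup F) (avS Pt) (μ ^ ℓ)) N B = A' := by
    intro N hN
    have h6 : (fun μ => evs (cup F) (avS Pt) (μ ^ ℓ)) =
        evs (powF ℓ (cup F)) (fun Y y => avS Pt (powL ℓ Y y) (y ^ ℓ)) := by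
      funext μ
      exact e4 _ hprime.pos μ
    rw [h6, hA', PDK.TK_apply, PDK.TK_apply]
    exact PAD.sum_evs (J := Σ r : ℕ, (Fin (n + 3) → (Matrix (Fin r) (Fin r)
      (MonoidAlgebra ℚ_[ℓ] (G × Multiplicative ℤ)))ˣ)) (r := fun x => x.1) (X := fun x => x.2)
      hsch hevs t_TXfst hnull' (e3 _ hprime.pos) (e5 _ hprime.pos) N hN
  rw [← hA, ← hA']
  have hDn0 : (0 : ℝ) < ‖((D * n0 : ℕ) : ℚ_[ℓ])‖ := norm_pos_iff.mpr (by
    exact_mod_cast (Nat.mul_pos hD hn0).ne')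
  have hℓ0 : (0 : ℝ) < (ℓ : ℝ) := by exact_mod_cast hprime.pos
  have hbound : ∀ i0 : ℕ, ‖((D * n0 : ℕ) : ℚ_[ℓ])‖ * ‖A - A'‖ ≤
      (∑ x ∈ B.support, ‖((B x : ℚ) : ℚ_[ℓ])‖) * (ℓ : ℝ) ^ (-(i0 : ℤ)) := by
    intro i0
    obtain ⟨k0, hk0, hgood⟩ := hper (G × Multiplicative ℤ) ℓ n0 hn0 L1 i0
    obtain ⟨mm, hmm⟩ : ∃ mm, mm = n0 * ℓ ^ (k0 + 1 - i0) := ⟨_, rfl⟩
    obtain ⟨L, hLn, hLt, hLs, hLi⟩ := hcul mm (by
      rw [hmm]
      exact Nat.mul_pos hn0 (pow_pos hprime.pos _))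
    obtain ⟨φ, hφ⟩ : ∃ φ : Rec (G × Multiplicative ℤ) (Fin (n + 3)) → ℚ, φ = fun μ =>
      ((D * mm : ℕ) : ℚ) * (evs (cup F) (avS Pt) μ - cobR L μ) := ⟨_, rfl⟩
    have hφtr : ∀ μ ∈ S, ∀ ν ∈ S, φ (μ * ν) = φ (ν * μ) := by
      intro μ hμ ν hν
      rw [hφ]
      simp only
      have h1 : cobR L (μ * ν) = cobR L (ν * μ) := by
        unfold cobR
        refine Finset.sum_congr rfl fun i _ => ?_
        rw [map_mul, map_mul, hLt _ (BND.res_bal _ (hSB hμ)) _ (BND.res_bal _ (hSB hν))]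
      rw [htr μ ν, h1]
    have hφint : ∀ μ ∈ S, (∀ i, (μ.lst i).length = ℓ ^ (k0 + 1)) → ∃ z : ℤ, φ μ = z := by
      intro μ hμ hl
      have hne : ∀ i, μ.lst i ≠ [] := by
        intro i h
        have h1 := hl i
        rw [h] at h1
        have h2 : 0 < ℓ ^ (k0 + 1) := pow_pos hprime.pos _
        simp only [List.length_nil] at h1
        omega
      rw [hφ]
      by_cases hy : μ.val ^ n0 = 1
      · refine hLi μ hne fun i => ?_
        rw [hmm]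
        exact (hgood (k0 + 1) (by omega) (μ.lst i) μ.val (hl i) hy (hInc μ hμ hne i)).1
      · have hc : ∀ a, cup F a μ.val = 0 := by
          intro a
          by_contra h
          apply hy
          unfold cup at h
          split_ifs at h with h2
          · have h3 := hF.supp (fun i => (a i.castSucc).1) μ.val.1 fun h4 => h (by rw [h4, zero_mul])
            apply Prod.ext
            · exact h3
            · rw [Prod.pow_snd, h2, one_pow]
              rfl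
          · exact absurd rfl h
        have h4 : evs (cup F) (avS Pt) μ = 0 := by
          unfold evs
          split_ifs
          all_goals first
            | rfl
            | (unfold mex
               refine Finset.sum_eq_zero fun x _ => ?_
               simp only [hc, mul_zero])
        have h5 : cobR L μ = 0 := by
          unfold cobR
          refine Finset.sum_eq_zero fun i _ => ?_
          have h6 : L (Rec.res i.succAbove μ) = 0 := by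
            by_contra h7
            obtain ⟨a, ha⟩ := hLs _ h7
            exact ha (hc a)
          rw [h6, mul_zero]
        refine ⟨0, ?_⟩
        simp only
        rw [h4, h5]
        simp
    have hstep : ∀ x ∈ B.support,
        ‖TX φ (ℓ ^ (k0 + 1)) x.2 - TX (fun μ => φ (μ ^ ℓ)) (ℓ ^ k0) x.2‖ ≤
          (ℓ : ℝ) ^ (-(k0 + 1 : ℤ)) := fun x hx =>
      step hsup S k0 φ hφtr hφint x.2 (hB x hx) (hSx x hx)
    have hφ1 : TK ℚ_[ℓ] φ (ℓ ^ (k0 + 1)) B = ((D * mm : ℕ) : ℚ_[ℓ]) * A := by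
      rw [hφ, TK_lin, TK_cobR, hnull L hLn _ (pow_pos hprime.pos _), a1 _ (pow_pos hprime.pos _),
        sub_zero]
      push_cast
      ring
    have hφ2 : TK ℚ_[ℓ] (fun μ => φ (μ ^ ℓ)) (ℓ ^ k0) B = ((D * mm : ℕ) : ℚ_[ℓ]) * A' := by
      have h1 : (fun μ : Rec (G × Multiplicative ℤ) (Fin (n + 3)) => φ (μ ^ ℓ)) = fun μ =>
          ((D * mm : ℕ) : ℚ) * (evs (cup F) (avS Pt) (μ ^ ℓ) - cobR (fun μ => L (μ ^ ℓ)) μ) := by
        funext μ
        rw [hφ]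
        simp only
        rw [cobR_pow]
      rw [h1, TK_lin, TK_cobR, hnull _ (null_pow hLn hprime.pos) _ (pow_pos hprime.pos _),
        a2 _ (pow_pos hprime.pos _), sub_zero]
      push_cast
      ring
    have h9 : ‖((D * mm : ℕ) : ℚ_[ℓ]) * (A - A')‖ ≤
        (∑ x ∈ B.support, ‖((B x : ℚ) : ℚ_[ℓ])‖) * (ℓ : ℝ) ^ (-(k0 + 1 : ℤ)) := by
      rw [mul_sub, ← hφ1, ← hφ2, PDK.TK_apply, PDK.TK_apply, ← Finset.sum_sub_distrib,
        Finset.sum_mul]
      refine (norm_sum_le _ _).trans (Finset.sum_le_sum fun x hx => ?_)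
      rw [← mul_sub, norm_mul]
      exact mul_le_mul_of_nonneg_left (hstep x hx) (norm_nonneg _)
    have h10 : ((D * mm : ℕ) : ℚ_[ℓ]) * (A - A') =
        ((D * n0 : ℕ) : ℚ_[ℓ]) * (ℓ : ℚ_[ℓ]) ^ (k0 + 1 - i0) * (A - A') := by
      rw [hmm]
      push_cast
      ring
    rw [h10, norm_mul, norm_mul, norm_pow, Padic.norm_p] at h9
    have h11 : (ℓ : ℝ) ^ (k0 + 1 - i0) * ((ℓ : ℝ)⁻¹) ^ (k0 + 1 - i0) = 1 := by
      rw [← mul_pow, mul_inv_cancel₀ hℓ0.ne', one_pow]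
    have h12 : (ℓ : ℝ) ^ (k0 + 1 - i0) * (ℓ : ℝ) ^ (-(k0 + 1 : ℤ)) = (ℓ : ℝ) ^ (-(i0 : ℤ)) := by
      rw [← zpow_natCast, ← zpow_add₀ hℓ0.ne']
      congr 1
      omega
    calc ‖((D * n0 : ℕ) : ℚ_[ℓ])‖ * ‖A - A'‖ = (ℓ : ℝ) ^ (k0 + 1 - i0) *
          (‖((D * n0 : ℕ) : ℚ_[ℓ])‖ * ((ℓ : ℝ)⁻¹) ^ (k0 + 1 - i0) * ‖A - A'‖) := by
          linear_combination (-(‖((D * n0 : ℕ) : ℚ_[ℓ])‖ * ‖A - A'‖)) * h11
      _ ≤ (ℓ : ℝ) ^ (k0 + 1 - i0) *
          ((∑ x ∈ B.support, ‖((B x : ℚ) : ℚ_[ℓ])‖) * (ℓ : ℝ) ^ (-(k0 + 1 : ℤ))) :=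
          mul_le_mul_of_nonneg_left h9 (by positivity)
      _ = _ := by rw [← h12]; ring
  have hℓ1 : (1 : ℝ) < ℓ := by exact_mod_cast hprime.one_lt
  have hlim : Filter.Tendsto (fun i0 : ℕ => (∑ x ∈ B.support, ‖((B x : ℚ) : ℚ_[ℓ])‖) *
      (ℓ : ℝ) ^ (-(i0 : ℤ))) Filter.atTop (nhds 0) := by
    have h9 : Filter.Tendsto (fun n : ℕ => ((ℓ : ℝ)⁻¹) ^ n) Filter.atTop (nhds 0) :=
      tendsto_pow_atTop_nhds_zero_of_lt_one (by positivity) (inv_lt_one_of_one_lt₀ hℓ1)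
    have h10 := h9.const_mul (∑ x ∈ B.support, ‖((B x : ℚ) : ℚ_[ℓ])‖)
    rw [mul_zero] at h10
    refine h10.congr fun n => ?_
    congr 1
    rw [inv_pow, _root_.zpow_neg, zpow_natCast]
  have h11 : ‖((D * n0 : ℕ) : ℚ_[ℓ])‖ * ‖A - A'‖ ≤ 0 := ge_of_tendsto' hlim hbound
  have h12 : ‖A - A'‖ ≤ 0 := by
    by_contra h
    rw [not_le] at h
    have := mul_pos hDn0 h
    linarith
  exact sub_eq_zero.mp (norm_le_zero_iff.mp h12)

theorem powF_powF {Γ : Type} [Group Γ] {m : ℕ} (a b : ℕ) (F : (Fin m → Γ) → Γ → ℚ) :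
    powF a (powF b F) = powF (a * b) F := by
  funext c y
  unfold powF
  rw [← pow_mul]

end PDG

open PDG in
theorem t_PDG (hpnt : S_PNT) (havs : S_AVS) (hper : S_PER) (hsup : S_SUP) : S_PDG := by
  intro n hcul G _ n0 hn0 ℓ _ F hF B hB hnull e
  have hprime : ℓ.Prime := Fact.out
  induction e with
  | zero =>
    have h1 : powF (ℓ ^ 0) (cup F) = cup F := by
      funext a y
      unfold powF
      rw [pow_zero, pow_one]
    rw [h1]
  | succ e ih =>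
    rw [ih]
    have hp : 0 < ℓ ^ e := pow_pos hprime.pos _
    have h1 := one hpnt havs hper hsup hcul (Nat.mul_pos hp hn0) (gcoch_pow hF (ℓ ^ e)) B hB hnull
    rw [← powF_cup F hp, powF_powF] at h1
    rw [h1, pow_succ']

end Pool.Agent.FJA
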