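import Pool.Agent.AUK.FJA.P_PSA
import Pool.Agent.AUK.FJA.St9

/-!
# Module PSN: `psiN` is a trace function on the balanced records
-/

set_option autoImplicit false

namespace Pool.Agent.FJA

namespace PSN

variable {Γ : Type} [Group Γ]

theorem rotL_inj (y : Γ) : Function.Injective (rotL y) := by
  intro Y Z h
  cases Y with
  | nil =>
    cases Z with
    | nil => rfl
    | cons b Z =>
      exfalso
      have : ([] : List Γ) = Z ++ [y * b] := h
      have h2 := congrArg List.length this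
      simp at h2
  | cons a Y =>
    cases Z with
    | nil =>
      exfalso
      have : Y ++ [y * a] = ([] : List Γ) := h
      have h2 := congrArg List.length this
      simp at h2
    | cons b Z =>
      have h1 : Y ++ [y * a] = Z ++ [y * b] := h
      obtain ⟨h2, h3⟩ := List.append_inj' h1 rfl
      have h4 : y * a = y * b := by simpa using h3
      rw [h2, mul_left_cancel h4]

theorem rotL_map (y δ : Γ) (h : δ * y = y * δ) (Y : List Γ) :
    (rotL y Y).map (δ * ·) = rotL y (Y.map (δ * ·)) := by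
  cases Y with
  | nil => rfl
  | cons a Y =>
    change (Y ++ [y * a]).map (δ * ·) = Y.map (δ * ·) ++ [y * (δ * a)]
    rw [List.map_append, List.map_singleton, ← mul_assoc, h, mul_assoc]

theorem rotL_conj (y γ : Γ) (Y : List Γ) :
    rotL (γ * y * γ⁻¹) (Y.map (γ * ·)) = (rotL y Y).map (γ * ·) := by
  cases Y with
  | nil => rfl
  | cons a Y =>
    change Y.map (γ * ·) ++ [γ * y * γ⁻¹ * (γ * a)] = (Y ++ [y * a]).map (γ * ·)
    rw [List.map_append, List.map_singleton]
    congr 2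
    group

theorem iter_conj (y γ : Γ) (Y : List Γ) (e : ℕ) :
    (rotL (γ * y * γ⁻¹))^[e] (Y.map (γ * ·)) = ((rotL y)^[e] Y).map (γ * ·) := by
  induction e generalizing Y with
  | zero => rfl
  | succ e ih => rw [Function.iterate_succ_apply, Function.iterate_succ_apply, rotL_conj, ih]

theorem stb_rot {Y : List Γ} {y δ : Γ} {e : ℕ} (h : Stb (rotL y Y) y δ e) : Stb Y y δ e := by
  refine ⟨h.1, rotL_inj y ?_⟩
  have h2 := h.2
  rw [← Function.iterate_succ_apply, Function.iterate_succ_apply', rotL_map y δ h.1] at h2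
  exact h2

theorem goodP_rot {d : ℕ} {Y : List Γ} {y : Γ} (h : GoodP d Y y) : GoodP d (rotL y Y) y :=
  fun δ e hs => h δ e (stb_rot hs)

theorem goodP_rot_iter {d : ℕ} {Y : List Γ} {y : Γ} (h : GoodP d Y y) (n : ℕ) :
    GoodP d ((rotL y)^[n] Y) y := by
  induction n with
  | zero => exact h
  | succ n ih => rw [Function.iterate_succ_apply']; exact goodP_rot ih

theorem map_inv_map (γ : Γ) (Y : List Γ) : (Y.map (γ * ·)).map (γ⁻¹ * ·) = Y := by
  rw [List.map_map]
  have : ((fun x => γ⁻¹ * x) ∘ fun x => γ * x) = id := by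
    funext x
    simp
  rw [this, List.map_id]

theorem goodP_conj {d : ℕ} {Y : List Γ} {y : Γ} (γ : Γ)
    (h : GoodP d (Y.map (γ * ·)) (γ * y * γ⁻¹)) : GoodP d Y y := by
  intro δ e hs
  apply h (γ * δ * γ⁻¹) e
  refine ⟨?_, ?_⟩
  · calc γ * δ * γ⁻¹ * (γ * y * γ⁻¹) = γ * (δ * y) * γ⁻¹ := by group
      _ = γ * (y * δ) * γ⁻¹ := by rw [hs.1]
      _ = _ := by group
  · rw [iter_conj, List.map_map]
    have : ((fun x => γ * δ * γ⁻¹ * x) ∘ fun x => γ * x) = (fun x => γ * x) ∘ fun x => δ * x := by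
      funext x
      simp only [Function.comp]
      group
    rw [this, ← List.map_map, hs.2]

theorem rotL_iter_append (y : Γ) (Y Z : List Γ) :
    (rotL y)^[Y.length] (Y ++ Z) = Z ++ Y.map (y * ·) := by
  induction Y generalizing Z with
  | nil => simp
  | cons a Y ih =>
    rw [List.length_cons, Function.iterate_succ_apply]
    change (rotL y)^[Y.length] ((Y ++ Z) ++ [y * a]) = _
    rw [List.append_assoc, ih]
    simp

/-- the marking of a rotated list -/
theorem rot_mark {p k r : ℕ} {j : List Γ → Γ → ZMod (p ^ r)} (hj : MrkG Γ p k r j) {y : Γ}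
    (hy : IsOfFinOrder y) (hp : p ∣ orderOf y) (Y Z : List Γ)
    (hl : Y.length + Z.length = p ^ k) (hg : GoodP (p ^ r) (Y ++ Z) y) :
    j (Z ++ Y.map (y * ·)) y = j (Y ++ Z) y + (Y.length : ZMod (p ^ r)) := by
  induction Y generalizing Z with
  | nil => simp
  | cons a Y ih =>
    have h1 : Z ++ (a :: Y).map (y * ·) = (Z ++ [y * a]) ++ Y.map (y * ·) := by simp
    have h2 : Y ++ (Z ++ [y * a]) = (Y ++ Z) ++ [y * a] := by rw [List.append_assoc]
    have h3 : Y.length + (Z ++ [y * a]).length = p ^ k := by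
      rw [← hl, List.length_append, List.length_singleton, List.length_cons]
      ring
    have h5 : rotL y (a :: Y ++ Z) = Y ++ (Z ++ [y * a]) := by
      rw [h2]
      rfl
    have h4 : (a :: Y ++ Z).length = p ^ k := by
      rw [← hl, List.length_append]
    have h6 : GoodP (p ^ r) (Y ++ (Z ++ [y * a])) y := by
      rw [← h5]
      exact goodP_rot hg
    have h7 := hj.rot (a :: Y ++ Z) y h4 hy hp hg
    rw [h5] at h7
    rw [h1, ih _ h3 h6, h7, List.length_cons]
    push_cast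
    ring

theorem mul_lst_conj {V : Type} (μ ν : Rec Γ V) (i : V) :
    ((ν * μ).lst i).map (μ.val * ·) =
      (rotL (μ * ν).val)^[(μ.lst i).length] ((μ * ν).lst i) := by
  rw [Rec.mul_lst, Rec.mul_lst, rotL_iter_append, List.map_append, List.map_map, Rec.mul_val]
  congr 2
  funext x
  exact (mul_assoc _ _ _).symm

theorem good_symm {V : Type} {d : ℕ} {μ ν : Rec Γ V}
    (h : ∀ i, GoodP d ((μ * ν).lst i) (μ * ν).val) (i : V) :
    GoodP d ((ν * μ).lst i) (ν * μ).val := by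
  apply goodP_conj μ.val
  have h1 : μ.val * (ν * μ).val * μ.val⁻¹ = (μ * ν).val := by
    rw [Rec.mul_val, Rec.mul_val]
    group
  rw [h1, mul_lst_conj]
  exact goodP_rot_iter (h i) _

theorem mark_mul {V : Type} {p k r : ℕ} {j : List Γ → Γ → ZMod (p ^ r)}
    (hj : MrkG Γ p k r j) {μ ν : Rec Γ V} (hl : ∀ i, ((μ * ν).lst i).length = p ^ k)
    (hy : IsOfFinOrder (μ * ν).val) (hp : p ∣ orderOf (μ * ν).val)
    (hg : ∀ i, GoodP (p ^ r) ((μ * ν).lst i) (μ * ν).val) (i : V) :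
    j ((ν * μ).lst i) (ν * μ).val =
      j ((μ * ν).lst i) (μ * ν).val + ((μ.lst i).length : ZMod (p ^ r)) := by
  have h1 := hj.cj μ.val ((ν * μ).lst i) (ν * μ).val
  have h0 : μ.val * (ν * μ).val * μ.val⁻¹ = (μ * ν).val := by
    rw [Rec.mul_val, Rec.mul_val]
    group
  have hgi := hg i
  have hli := hl i
  rw [h0, mul_lst_conj, Rec.mul_lst, rotL_iter_append] at h1
  rw [Rec.mul_lst] at hgi hli
  have h3 := rot_mark hj hy hp (μ.lst i) ((ν.lst i).map (μ.val * ·)) (by
    rw [List.length_append] at hli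
    exact hli) hgi
  rw [← h1, h3, ← Rec.mul_lst]

theorem half {M p k r : ℕ} {σ : Γ →* Multiplicative ℤ}
    {F : (Fin (M + 1) → Γ) → Γ → ℚ} {s : List Γ → Γ → (Γ →₀ ℚ)}
    {j : List Γ → Γ → ZMod (p ^ r)} (hF : Coch σ M F) (hs : Sec s) (hr : RotS s)
    (hj : MrkG Γ p k r j) {μ ν : Rec Γ (Fin (M + 2))} (hμ : μ ∈ Bal Γ (Fin (M + 2)))
    (hl : ∀ i, ((μ * ν).lst i).length = p ^ k)
    (hy : IsOfFinOrder (μ * ν).val) (hp : p ∣ orderOf (μ * ν).val)
    (hg : ∀ i, GoodP (p ^ r) ((μ * ν).lst i) (μ * ν).val) :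
    psiN p k r F s j (μ * ν) = psiN p k r F s j (ν * μ) := by
  obtain ⟨n, hn⟩ := hμ
  have htr := (t_EVS t_MEX Γ σ M F s hF hs).1 hr
  unfold psiN
  rw [if_pos ⟨hl, hy, hp, hg⟩, if_pos ⟨PSA.len_symm hl, PSA.fin_symm hy,
    (PSA.order_symm μ ν).symm ▸ hp, good_symm hg⟩]
  have h1 : evs F s (Rec.res Fin.castSucc (μ * ν)) = evs F s (Rec.res Fin.castSucc (ν * μ)) := by
    rw [map_mul, map_mul]
    exact htr _ _
  rw [h1, mark_mul hj hl hy hp hg, mark_mul hj hl hy hp hg, hn, hn, add_sub_add_right_eq_sub]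

end PSN

theorem t_PSN : S_PSN := by
  intro Γ _ σ p k r M F s j hF hs hr hj μ hμ ν hν
  by_cases h : (∀ i, ((μ * ν).lst i).length = p ^ k) ∧ IsOfFinOrder (μ * ν).val ∧
      p ∣ orderOf (μ * ν).val ∧ ∀ i, GoodP (p ^ r) ((μ * ν).lst i) (μ * ν).val
  · exact PSN.half hF hs hr hj hμ h.1 h.2.1 h.2.2.1 h.2.2.2
  · have h' : ¬ ((∀ i, ((ν * μ).lst i).length = p ^ k) ∧ IsOfFinOrder (ν * μ).val ∧
        p ∣ orderOf (ν * μ).val ∧ ∀ i, GoodP (p ^ r) ((ν * μ).lst i) (ν * μ).val) := by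
      rintro ⟨h1, h2, h3, h4⟩
      exact h ⟨PSA.len_symm h1, PSA.fin_symm h2, (PSA.order_symm ν μ).symm ▸ h3,
        PSN.good_symm h4⟩
    unfold psiN
    rw [if_neg h, if_neg h']

end Pool.Agent.FJA
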