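import Pool.Agent.AUK.FJA.P_EVS
import Pool.Agent.AUK.FJA.P_MEX
import Pool.Agent.AUK.FJA.P_SCH
import Pool.Agent.AUK.FJA.St9

/-!
# PTN: `psiN` is a null function, also composed with powers
-/

set_option autoImplicit false

noncomputable section

namespace Pool.Agent.FJA

namespace PTN

variable {Γ : Type} [Group Γ]

/-- the condition in the definition of `psiN` -/
def Cond {V : Type} (p k r : ℕ) (μ : Rec Γ V) : Prop :=
  (∀ i, (μ.lst i).length = p ^ k) ∧ IsOfFinOrder μ.val ∧ p ∣ orderOf μ.val ∧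
    ∀ i, GoodP (p ^ r) (μ.lst i) μ.val

theorem psi_pos {M : ℕ} (p k r : ℕ) (F : (Fin (M + 1) → Γ) → Γ → ℚ)
    (s : List Γ → Γ → (Γ →₀ ℚ)) (j : List Γ → Γ → ZMod (p ^ r)) (μ : Rec Γ (Fin (M + 2)))
    (h : Cond p k r μ) : psiN p k r F s j μ = evs F s (Rec.res Fin.castSucc μ) *
      (((j (μ.lst (Fin.last (M + 1))) μ.val - j (μ.lst (Fin.last M).castSucc) μ.val).val : ℕ) :
        ℚ) := by
  unfold psiN
  exact if_pos h

theorem psi_neg {M : ℕ} (p k r : ℕ) (F : (Fin (M + 1) → Γ) → Γ → ℚ)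
    (s : List Γ → Γ → (Γ →₀ ℚ)) (j : List Γ → Γ → ZMod (p ^ r)) (μ : Rec Γ (Fin (M + 2)))
    (h : ¬ Cond p k r μ) : psiN p k r F s j μ = 0 := by
  unfold psiN
  exact if_neg h

theorem order_conj (γ y : Γ) : orderOf (γ * y * γ⁻¹) = orderOf y :=
  orderOf_injective (MulAut.conj γ).toMonoidHom (MulAut.conj γ).injective y

theorem rotL_map (γ y : Γ) (Y : List Γ) :
    rotL (γ * y * γ⁻¹) (Y.map (γ * ·)) = (rotL y Y).map (γ * ·) := by
  cases Y with
  | nil => rfl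
  | cons a Y =>
    simp only [List.map_cons, rotL, List.map_append, List.map_nil]
    congr 2
    group

theorem iter_map (γ y : Γ) (Y : List Γ) (e : ℕ) :
    (rotL (γ * y * γ⁻¹))^[e] (Y.map (γ * ·)) = ((rotL y)^[e] Y).map (γ * ·) := by
  induction e with
  | zero => rfl
  | succ e ih => rw [Function.iterate_succ_apply', ih, rotL_map, Function.iterate_succ_apply']

theorem map_map_inv (γ : Γ) (Y : List Γ) : (Y.map (γ * ·)).map (γ⁻¹ * ·) = Y := by
  rw [List.map_map]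
  have : ((γ⁻¹ * ·) ∘ (γ * ·) : Γ → Γ) = id := by
    funext a
    simp
  rw [this, List.map_id]

theorem goodP_map {d : ℕ} (γ y : Γ) (Y : List Γ) (h : GoodP d Y y) :
    GoodP d (Y.map (γ * ·)) (γ * y * γ⁻¹) := by
  intro δ e hst
  obtain ⟨h1, h2⟩ := hst
  refine h (γ⁻¹ * δ * γ) e ⟨?_, ?_⟩
  · calc γ⁻¹ * δ * γ * y = γ⁻¹ * (δ * (γ * y * γ⁻¹)) * γ := by group
      _ = γ⁻¹ * ((γ * y * γ⁻¹) * δ) * γ := by rw [h1]
      _ = y * (γ⁻¹ * δ * γ) := by group
  · rw [iter_map] at h2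
    have h3 := congrArg (List.map (γ⁻¹ * ·)) h2
    rw [map_map_inv, List.map_map, List.map_map] at h3
    rw [← h3]
    congr 1
    · congr 1
      funext a
      simp only [Function.comp_apply]
      group
    · rw [h3]

theorem goodP_iff {d : ℕ} (γ y : Γ) (Y : List Γ) :
    GoodP d (Y.map (γ * ·)) (γ * y * γ⁻¹) ↔ GoodP d Y y := by
  refine ⟨fun h => ?_, goodP_map γ y Y⟩
  have h1 := goodP_map γ⁻¹ _ _ h
  rw [map_map_inv] at h1
  have h2 : γ⁻¹ * (γ * y * γ⁻¹) * γ⁻¹⁻¹ = y := by group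
  rwa [h2] at h1

theorem evs_cj {σ : Γ →* Multiplicative ℤ} {M : ℕ} {F : (Fin (M + 1) → Γ) → Γ → ℚ}
    {s : List Γ → Γ → (Γ →₀ ℚ)} (hF : Coch σ M F) (hs : Sec s) (γ : Γ)
    (ν : Rec Γ (Fin (M + 1))) (hν : IsOfFinOrder (ν.val * γ)) :
    evs F s (Rec.inc γ * ν) = evs F s (ν * Rec.inc γ) := by
  have hl1 : ∀ i, (Rec.inc γ * ν).lst i = (ν.lst i).map (γ * ·) := by
    intro i
    simp
  have hl2 : ∀ i, (ν * Rec.inc γ).lst i = ν.lst i := by
    intro i
    simp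
  have hv1 : (Rec.inc γ * ν).val = γ * (ν.val * γ) * γ⁻¹ := by
    simp [mul_assoc]
  have hv2 : (ν * Rec.inc γ).val = ν.val * γ := by simp
  by_cases h : ∀ i, ν.lst i ≠ []
  · rw [EVS.evs_pos F s (ν * Rec.inc γ) (fun i => by rw [hl2]; exact h i),
      EVS.evs_pos F s (Rec.inc γ * ν) (fun i => by
        rw [hl1, ne_eq, List.map_eq_nil_iff]; exact h i)]
    have h1 : (fun i => s ((Rec.inc γ * ν).lst i) (Rec.inc γ * ν).val) =
        fun i => (s (ν.lst i) (ν.val * γ)).mapDomain (γ * ·) := by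
      funext i
      rw [hl1, hv1]
      exact hs.inv γ _ _ hν
    have h2 : (fun i => s ((ν * Rec.inc γ).lst i) (ν * Rec.inc γ).val) =
        fun i => s (ν.lst i) (ν.val * γ) := by
      funext i
      rw [hl2, hv2]
    rw [h1, h2, (t_MEX Γ (M + 1)).2.2.2.2.1 _ _ (γ * ·) (mul_right_injective γ)]
    congr 1
    funext x
    rw [hv1, hv2]
    exact hF.inv γ x _
  · rw [EVS.evs_neg F s (ν * Rec.inc γ) (fun h' => h fun i => by rw [← hl2]; exact h' i),
      EVS.evs_neg F s (Rec.inc γ * ν) (fun h' => h fun i => by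
        have := h' i
        rw [hl1, ne_eq, List.map_eq_nil_iff] at this
        exact this)]

theorem evs_flat {σ : Γ →* Multiplicative ℤ} {M : ℕ} {F : (Fin (M + 1) → Γ) → Γ → ℚ}
    {s : List Γ → Γ → (Γ →₀ ℚ)} (hF : Coch σ M F) (hs : Sec s) (ν : Rec Γ (Fin (M + 1)))
    (hν : IsOfFinOrder ν.val) (hfl : Flat σ ν) : evs F s ν = 0 := by
  by_cases hc : ∀ i, ν.lst i ≠ []
  · rw [EVS.evs_pos F s _ hc]
    refine (t_MEX Γ (M + 1)).2.2.2.2.2 _ _ fun x hx => ?_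
    apply hF.flat
    have hσ : σ ν.val = 1 := SCH.sigma_one hν
    have hm : ∀ i, ∃ a ∈ ν.lst i, σ (x i) = σ a := by
      intro i
      obtain ⟨t, a, ha, hba⟩ := hs.supp _ _ hν (x i) (hx i)
      exact ⟨a, ha, by rw [hba, map_mul, map_zpow, hσ, _root_.one_zpow, one_mul]⟩
    intro i i'
    obtain ⟨a, ha, h1⟩ := hm i
    obtain ⟨a', ha', h2⟩ := hm i'
    rw [h1, h2]
    exact hfl i i' a a' ha ha'
  · exact EVS.evs_neg F s _ hc

theorem cjInv {σ : Γ →* Multiplicative ℤ} {p M : ℕ} {F : (Fin (M + 1) → Γ) → Γ → ℚ}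
    {s : List Γ → Γ → (Γ →₀ ℚ)} (hF : Coch σ M F) (hs : Sec s) (k r : ℕ)
    (j : List Γ → Γ → ZMod (p ^ r)) (hj : MrkG Γ p k r j) :
    CjInv (psiN p k r F s j) := by
  intro γ μ
  have hl1 : ∀ i, (Rec.inc γ * μ).lst i = (μ.lst i).map (γ * ·) := by
    intro i
    simp
  have hl2 : ∀ i, (μ * Rec.inc γ).lst i = μ.lst i := by
    intro i
    simp
  have hv1 : (Rec.inc γ * μ).val = γ * (μ.val * γ) * γ⁻¹ := by
    simp [mul_assoc]
  have hv2 : (μ * Rec.inc γ).val = μ.val * γ := by simp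
  have hiff : Cond p k r (Rec.inc γ * μ) ↔ Cond p k r (μ * Rec.inc γ) := by
    unfold Cond
    rw [hv1, hv2, SCH.conj_fin, order_conj]
    simp only [hl1, hl2, List.length_map, goodP_iff]
  by_cases h : Cond p k r (μ * Rec.inc γ)
  · have hy : IsOfFinOrder (μ.val * γ) := by
      have := h.2.1
      rwa [hv2] at this
    rw [psi_pos _ _ _ _ _ _ _ h, psi_pos _ _ _ _ _ _ _ (hiff.2 h), map_mul, map_mul,
      Rec.res_inc, evs_cj hF hs γ _ hy]
    simp only [hl1, hl2, hv1, hv2, hj.cj]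
  · rw [psi_neg _ _ _ _ _ _ _ h, psi_neg _ _ _ _ _ _ _ (mt hiff.1 h)]

theorem pow_left {A : Type} [Monoid A] (a b : A) (e : ℕ) :
    (a * b) ^ (e + 1) = a * ((b * a) ^ e * b) := by
  induction e with
  | zero => simp
  | succ e ih =>
    rw [pow_succ, ih, pow_succ (b * a)]
    simp only [mul_assoc]

end PTN

open PTN in
/-- PTN -/
theorem t_PTN : S_PTN := by
  intro Γ _ σ p k r M F s j hF hs hj e he
  obtain ⟨e, rfl⟩ : ∃ e', e = e' + 1 := ⟨e - 1, by omega⟩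
  have hfin : ∀ μ : Rec Γ (Fin (M + 2)), IsOfFinOrder (μ ^ (e + 1)).val → IsOfFinOrder μ.val := by
    intro μ h
    rw [EVS.pow_val] at h
    exact h.of_pow (by omega)
  refine ⟨?_, ?_, ?_⟩
  · intro γ μ
    show psiN p k r F s j ((Rec.inc γ * μ) ^ (e + 1)) = psiN p k r F s j ((μ * Rec.inc γ) ^ (e + 1))
    have h1 := pow_left (Rec.inc γ) μ e
    have h2 : (μ * Rec.inc γ) ^ (e + 1) = ((μ * Rec.inc γ) ^ e * μ) * Rec.inc γ := by
      rw [pow_succ, mul_assoc]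
    rw [h1, h2]
    exact cjInv hF hs k r j hj γ _
  · intro μ h
    by_contra hf
    exact h (psi_neg _ _ _ _ _ _ _ fun h' => hf (hfin μ h'.2.1))
  · intro μ hfl
    show psiN p k r F s j (μ ^ (e + 1)) = 0
    by_cases h : Cond p k r (μ ^ (e + 1))
    · have hσ : σ μ.val = 1 := SCH.sigma_one (hfin μ h.2.1)
      rw [psi_pos _ _ _ _ _ _ _ h, evs_flat hF hs (Rec.res Fin.castSucc (μ ^ (e + 1))) h.2.1,
        zero_mul]
      intro i i' a a' ha ha'
      rw [Rec.res_lst, EVS.pow_lst] at ha ha'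
      obtain ⟨t, b, hb, rfl⟩ := EVS.mem_powL _ _ _ _ ha
      obtain ⟨t', b', hb', rfl⟩ := EVS.mem_powL _ _ _ _ ha'
      rw [map_mul, map_mul, map_pow, map_pow, hσ, _root_.one_pow, _root_.one_pow, one_mul, one_mul]
      exact hfl _ _ b b' hb hb'
    · exact psi_neg _ _ _ _ _ _ _ h

end Pool.Agent.FJA
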