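import Pool.Agent.AUK.FJA.CoreAll
import Pool.Agent.AUK.FJA.St8

/-!
# RPB: the value on `BT` over `ℚ_p` of a family supported on the elements of order `n0`, `p ∣ n0`,
with the theorem `Pdg G n` instead of a bound on the torsion
-/

set_option autoImplicit false

open Matrix Pool.Agent.WhK Pool.Agent.Lib25

noncomputable section

namespace Pool.Agent.FJA

namespace RPB

/-- The family `powF (p ^ E) (cup F)` vanishes at the elements of small order. -/
theorem powF_zero {G : Type} [Group G] {n n0 : ℕ} (hn0 : 0 < n0)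
    {p : ℕ} (hp : p.Prime) (hd : p ∣ n0) {E : ℕ}
    (F : (Fin (n + 2) → G) → G → ℚ) (hF : GCoch (n + 1) (fun y => orderOf y = n0) F)
    (a : Fin (n + 3) → G × Multiplicative ℤ) (y : G × Multiplicative ℤ)
    (hE : orderOf y < p ^ E) :
    powF (p ^ E) (cup F) a y = 0 := by
  unfold powF cup
  split_ifs with h1
  · by_contra h2
    have h3 : F (fun i => (a i.castSucc).1) (y ^ p ^ E).1 ≠ 0 := fun h => h2 (by rw [h, zero_mul])
    have h4 : orderOf (y ^ p ^ E).1 = n0 := hF.supp _ _ h3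
    have h4' : IsOfFinOrder (y ^ p ^ E).1 := by
      rw [← orderOf_pos_iff, h4]
      exact hn0
    have h5' : IsOfFinOrder (y ^ p ^ E) := by
      rw [isOfFinOrder_iff_pow_eq_one] at h4' ⊢
      obtain ⟨m, hm, h5⟩ := h4'
      refine ⟨m, hm, Prod.ext ?_ ?_⟩
      · rw [Prod.pow_fst, h5]
        rfl
      · rw [Prod.pow_snd, h1, one_pow]
        rfl
    have h6' : IsOfFinOrder y := h5'.of_pow (pow_ne_zero _ hp.ne_zero)
    rw [Prod.pow_fst] at h4
    have h5 : IsOfFinOrder (y.1 ^ p ^ E) := by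
      rw [← orderOf_pos_iff, h4]
      exact hn0
    have h6 : IsOfFinOrder y.1 := h5.of_pow (pow_ne_zero _ hp.ne_zero)
    have h7 : orderOf y.1 ≤ orderOf y := by
      apply Nat.le_of_dvd h6'.orderOf_pos
      apply orderOf_dvd_of_pow_eq_one
      rw [← Prod.pow_fst, pow_orderOf_eq_one]
      rfl
    refine RLP.not_dvd h6 hp (lt_of_le_of_lt h7 hE) ?_
    rw [h4]
    exact hd
  · rfl

theorem gcoch {G : Type} [Group G] {n n0 : ℕ} {F : (Fin (n + 2) → G) → G → ℚ}
    (hF : GCoch (n + 1) (fun y => orderOf y = n0) F) :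
    GCoch (n + 1) (fun y => y ^ n0 = 1) F where
  inv := hF.inv
  coc := hF.coc
  supp := fun a y h => by
    have h1 : orderOf y = n0 := hF.supp a y h
    change y ^ n0 = 1
    rw [← h1, pow_orderOf_eq_one]
  den := hF.den

theorem fst_congr {Γ : Type} [Group Γ] {M : ℕ} {F : (Fin M → Γ) → Γ → ℚ} {μ : Rec Γ (Fin M)}
    (h : ∀ a, F a μ.val = 0) : fst F μ = 0 := by
  unfold fst
  split_ifs
  · exact h _
  · rfl

end RPB

theorem t_RPB (hsup : S_SUP) : S_RPB := by
  intro G _ n n0 hn0 hpdg p hpp hp D e d T hT hTN b κ hκ hch F hF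
  obtain ⟨-, hsupb, -⟩ := hsup
  set B := BT ℚ_[p] D e b T with hB
  have hsb : ∀ x : (Σ r : ℕ, (Fin (n + 3) → (Matrix (Fin r) (Fin r)
      (MonoidAlgebra ℚ_[p] (G × Multiplicative ℤ)))ˣ)),
      ∃ m : ℕ, ∀ a b μ, (UX x.2 a b).coeff μ ≠ 0 → orderOf μ.val ≤ m := by
    intro x
    obtain ⟨Tx, -, hTx⟩ := hsupb ℚ_[p] (G × Multiplicative ℤ) (Fin x.1) (n + 3) x.2
    refine ⟨Tx.sup fun μ => orderOf μ.val, fun a b μ hμ => ?_⟩
    exact Finset.le_sup (f := fun μ : Rec (G × Multiplicative ℤ) (Fin (n + 3)) => orderOf μ.val)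
      (hTx a b μ hμ)
  choose m hm using hsb
  obtain ⟨E, hE⟩ : ∃ E, B.support.sup m < p ^ E :=
    ⟨B.support.sup m, Nat.lt_pow_self hpp.out.one_lt⟩
  have h1 := hpdg n0 hn0 p F (RPB.gcoch hF) B (h_NIB p G n D e T b (fun j _ => hTN j))
    (fun η hη N _ => h_REA ℚ_[p] G n D e d T hT b κ hκ hch η N hη) E
  rw [h1]
  unfold TK
  rw [Finsupp.linearCombination_apply]
  refine Finset.sum_eq_zero fun x hx => ?_
  have h2 : TX (fst (powF (p ^ E) (cup F))) 1 x.2 = 0 := by
    unfold TX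
    rw [pow_one]
    refine TXD.lin_zero (T := {μ | orderOf μ.val ≤ m x}) ?_ ?_
    · exact TXD.sp_trace fun a b μ hμ => hm x a b μ hμ
    · intro μ hμ
      refine RPB.fst_congr fun a => ?_
      refine RPB.powF_zero hn0 hpp.out hp F hF a μ.val ?_
      exact lt_of_le_of_lt (le_trans hμ (Finset.le_sup (f := m) hx)) hE
  change B x • TX (fst (powF (p ^ E) (cup F))) 1 x.2 = 0
  rw [h2, smul_zero]

end Pool.Agent.FJA
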