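import Pool.Agent.AUK.FJA.P_ADB
import Pool.Agent.AUK.FJA.P_AVS
import Pool.Agent.AUK.FJA.P_BNN
import Pool.Agent.AUK.FJA.P_CNN
import Pool.Agent.AUK.FJA.P_CY3
import Pool.Agent.AUK.FJA.P_DNA
import Pool.Agent.AUK.FJA.P_DNB
import Pool.Agent.AUK.FJA.P_DNC
import Pool.Agent.AUK.FJA.P_EPN
import Pool.Agent.AUK.FJA.P_EVN
import Pool.Agent.AUK.FJA.P_EWN
import Pool.Agent.AUK.FJA.P_FSN
import Pool.Agent.AUK.FJA.P_KAP
import Pool.Agent.AUK.FJA.P_LIN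
import Pool.Agent.AUK.FJA.P_LMN
import Pool.Agent.AUK.FJA.P_MRN
import Pool.Agent.AUK.FJA.P_PCN
import Pool.Agent.AUK.FJA.P_PDG
import Pool.Agent.AUK.FJA.P_PDT
import Pool.Agent.AUK.FJA.P_PER
import Pool.Agent.AUK.FJA.P_PSN
import Pool.Agent.AUK.FJA.P_PTN
import Pool.Agent.AUK.FJA.P_RGB
import Pool.Agent.AUK.FJA.P_RLB
import Pool.Agent.AUK.FJA.P_RPB
import Pool.Agent.AUK.FJA.P_SUP

/-!
# Phase 3: the theorems of the modules, composed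
-/

set_option autoImplicit false

noncomputable section

namespace Pool.Agent.FJA

theorem h_AVS : S_AVS := t_AVS
theorem h_DNA : S_DNA := t_DNA h_AVS
theorem h_CY3 : S_CY3 := t_CY3 t_KAP

/-- The degrees `0` and `1`. -/
theorem dnp_of_dna (h : S_DNA) (m : ℕ) (hm : m ≤ 1) : DNP m := by
  intro Γ _ Pt dl hP S F hS hF
  obtain ⟨D, hD, h1⟩ := h m hm Γ Pt dl hP S F hS hF
  refine ⟨D, hD, fun mm _ => ⟨fun _ _ => 0, ⟨fun _ _ _ => rfl, fun _ _ _ _ => rfl,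
    fun _ _ h0 => absurd rfl h0, ?_⟩⟩⟩
  intro Y y hY hy _
  obtain ⟨z, hz⟩ := (h1 Y y hY hy).1
  refine ⟨mm * z, ?_⟩
  simp only [mul_zero, Finset.sum_const_zero, sub_zero]
  push_cast
  rw [← hz]
  ring

/-- The reduction of the denominators in the degrees `m ≤ 3`. -/
theorem h_DNP (m : ℕ) (hm : m ≤ 3) : DNP m := by
  rcases Nat.lt_or_ge m 2 with h | h
  · exact dnp_of_dna h_DNA m (by omega)
  · rcases Nat.lt_or_ge m 3 with h' | h'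
    · obtain rfl : m = 2 := by omega
      exact t_DNB h_AVS
    · obtain rfl : m = 3 := by omega
      exact t_DNC h_CY3 h_AVS

theorem h_CUL (m : ℕ) (hm : 1 ≤ m) (hm3 : m ≤ 3) : CULP m := t_CUL h_AVS m hm (h_DNP m hm3)

/-- The `ℓ`-adic theorem in the degrees `n ≤ 2`, for all groups. -/
theorem h_PDG (n : ℕ) (hn : n ≤ 2) (G : Type) [Group G] : Pdg G n :=
  t_PDG t_PNT h_AVS t_PER t_SUP n (h_CUL (n + 1) (by omega) (by omega)) G

theorem h_PDT : S_PDT := t_PDT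
theorem h_RLB : S_RLB := t_RLB (t_RPB t_SUP) (t_RGB t_SUP)
theorem h_ADB : S_ADB := t_ADB h_RLB

theorem h_BNN : S_BNN := t_BNN t_PER t_SUP t_PSN t_PCN
theorem h_LMN : S_LMN := t_LMN h_BNN t_PTN h_DNA h_AVS
theorem h_EVN : S_EVN := t_EVN t_RSN
theorem h_EWN : S_EWN := t_EWN h_EVN t_RSN
theorem h_LIN : S_LIN := t_LIN (t_ADN h_EWN) t_FSN
theorem h_CNN : S_CNN := t_CNN h_LMN h_EWN t_EPN h_LIN t_MRN t_PNT h_AVS t_RSN

end Pool.Agent.FJA
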