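import Pool.Agent.AUK.FJA.P_BND
import Pool.Agent.AUK.FJA.St10
import Pool.Agent.AUK.FJA.Step7

/-!
# BNQ: the values on boundaries, in norm form
-/

set_option autoImplicit false

open Matrix Pool.Agent.WhK Pool.Agent.Lib25

noncomputable section

namespace Pool.Agent.FJA

namespace BNQ

theorem cobR_pow {Γ : Type} [Group Γ] {M : ℕ} (L : Rec Γ (Fin M) → ℚ) (e : ℕ)
    (μ : Rec Γ (Fin (M + 1))) : cobR L (μ ^ e) = cobR (fun μ => L (μ ^ e)) μ := by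
  unfold cobR
  refine Finset.sum_congr rfl fun i _ => ?_
  rw [map_pow]

/-- The support of `psiN`. -/
theorem psi_supp {Γ : Type} [Group Γ] {M : ℕ} (p k r : ℕ) (F : (Fin (M + 1) → Γ) → Γ → ℚ)
    (s : List Γ → Γ → (Γ →₀ ℚ)) (j : List Γ → Γ → ZMod (p ^ r)) (μ : Rec Γ (Fin (M + 2)))
    (h : psiN p k r F s j μ ≠ 0) : p ∣ orderOf μ.val ∧ ∃ a, F a μ.val ≠ 0 := by
  classical
  by_cases hc : (∀ i, (μ.lst i).length = p ^ k) ∧ IsOfFinOrder μ.val ∧ p ∣ orderOf μ.val ∧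
      ∀ i, GoodP (p ^ r) (μ.lst i) μ.val
  · refine ⟨hc.2.2.1, ?_⟩
    by_contra hF
    push Not at hF
    apply h
    have h0 : evs F s (Rec.res Fin.castSucc μ) = 0 := by
      unfold evs
      split_ifs
      all_goals first
        | rfl
        | (unfold mex
           refine Finset.sum_eq_zero fun x _ => ?_
           simp only [Rec.res_val, hF, mul_zero])
    unfold psiN
    rw [if_pos hc, h0, zero_mul]
  · exact absurd (by unfold psiN; exact if_neg hc) h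

/-- The linearity of `TX`. -/
theorem TX_smul {k : Type} [Field k] [CharZero k] {Γ : Type} [Group Γ] {ι : Type} [Fintype ι]
    [DecidableEq ι] {M : ℕ} (N : ℕ) (X : Fin M → (Matrix ι ι (MonoidAlgebra k Γ))ˣ) (c : ℚ)
    (φ ψ : Rec Γ (Fin M) → ℚ) (h : ∀ μ, ψ μ = c * φ μ) : TX ψ N X = (c : k) * TX φ N X := by
  have h1 : ψ = fun μ => c * φ μ := funext h
  rw [h1]
  exact (t_TXlin k Γ ι M N X).2 c φ

end BNQ

open BNQ Step7

theorem t_BNQ (hgaq : S_GAQ) (hper : S_PER) (hsup : S_SUP) (hpsn : S_PSN) (hpcq : S_PCQ) :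
    S_BNQ := by
  classical
  intro Γ _ σ p _ N1 M c hN1 F s hF hFs hs hrot hev Bc hBc
  have hprime : p.Prime := Fact.out
  have hp0 : (0 : ℝ) < (p : ℝ) := by exact_mod_cast hprime.pos
  have hpq : (p : ℚ) ≠ 0 := by exact_mod_cast hprime.pos.ne'
  obtain ⟨S, L1, hSB, hInc, hSx⟩ := exists_sub hsup Bc
  refine ⟨(∑ x ∈ Bc.support, ‖((Bc x : ℚ) : ℚ_[p])‖) * (p : ℝ) ^ (c : ℤ), fun r => ?_⟩
  obtain ⟨k0, hk0, hgood⟩ := hper Γ p N1 hN1 L1 r
  refine ⟨k0 + 1, fun k hk => ⟨by omega, fun j hj => ?_⟩⟩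
  obtain ⟨k', rfl⟩ : ∃ k', k = k' + 1 := ⟨k - 1, by omega⟩
  obtain ⟨ψ, hψ⟩ : ∃ ψ, ψ = psiN p (k' + 1) r F s j := ⟨_, rfl⟩
  obtain ⟨φ, hφ⟩ : ∃ φ : Rec Γ (Fin (M + 3)) → ℚ, φ = fun μ => cobR ψ μ / (p : ℚ) ^ r :=
    ⟨_, rfl⟩
  have hφψ : ∀ μ, cobR ψ μ = (p : ℚ) ^ r * φ μ := by
    intro μ
    rw [hφ]
    field_simp
  have hφtr : ∀ μ ∈ S, ∀ ν ∈ S, φ (μ * ν) = φ (ν * μ) := by
    intro μ hμ ν hν
    have h1 : cobR ψ (μ * ν) = cobR ψ (ν * μ) := by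
      unfold cobR
      refine Finset.sum_congr rfl fun i _ => ?_
      rw [map_mul, map_mul, hψ, hpsn Γ σ p (k' + 1) r M F s j hF hs hrot hj _
        (BND.res_bal _ (hSB hμ)) _ (BND.res_bal _ (hSB hν))]
    rw [hφ]
    simp only
    rw [h1]
  have hφn : ∀ μ ∈ S, (∀ i, (μ.lst i).length = p ^ (k' + 1)) →
      ‖((φ μ : ℚ) : ℚ_[p])‖ ≤ (p : ℝ) ^ c := by
    intro μ hμ hl
    have hne : ∀ i, μ.lst i ≠ [] := by
      intro i h
      have h1 := hl i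
      rw [h] at h1
      have h2 : 0 < p ^ (k' + 1) := pow_pos hprime.pos _
      simp only [List.length_nil] at h1
      omega
    by_cases h0 : cobR ψ μ = 0
    · have h1 : φ μ = 0 := by
        rw [hφ]
        simp only
        rw [h0, zero_div]
      rw [h1]
      simp only [Rat.cast_zero, norm_zero]
      positivity
    · have h1 : ∃ i : Fin (M + 3), ψ (Rec.res i.succAbove μ) ≠ 0 := by
        unfold cobR at h0
        obtain ⟨i, _, hi⟩ := Finset.exists_ne_zero_of_sum_ne_zero h0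
        exact ⟨i, fun h2 => hi (by rw [h2, mul_zero])⟩
      obtain ⟨i, hi⟩ := h1
      rw [hψ] at hi
      obtain ⟨hpo, a, ha⟩ := psi_supp p (k' + 1) r F s j _ hi
      have hy : μ.val ^ N1 = 1 := hFs a _ ha
      have hgo : ∀ i, GoodP (p ^ r) (μ.lst i) μ.val := fun i =>
        (hgood (k' + 1) (by omega) (μ.lst i) μ.val (hl i) hy (hInc μ hμ hne i)).2 hpo
      have h2 := hpcq Γ σ p (k' + 1) r M c F s hF hs hev j hj μ (hSB hμ) hgo
      rw [← hψ, hφψ] at h2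
      push_cast at h2
      rw [norm_mul, norm_pow, Padic.norm_p, zpow_sub₀ hp0.ne', zpow_natCast, zpow_natCast,
        inv_pow, ← div_eq_inv_mul] at h2
      exact (div_le_div_iff_of_pos_right (pow_pos hp0 r)).1 h2
  have hstep : ∀ x ∈ Bc.support,
      ‖TX φ (p ^ (k' + 1)) x.2 - TX (fun μ => φ (μ ^ p)) (p ^ k') x.2‖ ≤
        (p : ℝ) ^ ((c : ℤ) - (k' + 1 : ℤ)) := fun x hx =>
    hgaq Γ (M + 3) p S k' c φ hφtr hφn (Fin x.1) x.2 (hBc x hx) (hSx x hx)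
  have e1 : ∀ x : (Σ r : ℕ, (Fin (M + 3) → (Matrix (Fin r) (Fin r) (MonoidAlgebra ℚ_[p] Γ))ˣ)),
      TX (cobR ψ) (p ^ (k' + 1)) x.2 = ((p : ℚ_[p]) ^ r) * TX φ (p ^ (k' + 1)) x.2 := by
    intro x
    have := TX_smul (k := ℚ_[p]) (p ^ (k' + 1)) x.2 ((p : ℚ) ^ r) φ (cobR ψ) hφψ
    rw [this]
    push_cast
    rfl
  have e2 : ∀ x : (Σ r : ℕ, (Fin (M + 3) → (Matrix (Fin r) (Fin r) (MonoidAlgebra ℚ_[p] Γ))ˣ)),
      TX (cobR (fun μ => ψ (μ ^ p))) (p ^ k') x.2 =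
        ((p : ℚ_[p]) ^ r) * TX (fun μ => φ (μ ^ p)) (p ^ k') x.2 := by
    intro x
    have := TX_smul (k := ℚ_[p]) (p ^ k') x.2 ((p : ℚ) ^ r) (fun μ => φ (μ ^ p))
      (cobR (fun μ => ψ (μ ^ p))) (fun μ => by rw [← cobR_pow, hφψ])
    rw [this]
    push_cast
    rfl
  have e3 : k' + 1 - 1 = k' := by omega
  rw [← hψ, e3, BND.TK_bdK, BND.TK_bdK, ← Finset.sum_sub_distrib]
  refine (norm_sum_le _ _).trans ?_
  rw [Finset.sum_mul, Finset.sum_mul]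
  refine Finset.sum_le_sum fun x hx => ?_
  rw [← mul_sub, norm_mul, e1, e2, ← mul_sub, norm_mul, norm_pow, Padic.norm_p, mul_assoc]
  refine mul_le_mul_of_nonneg_left ?_ (norm_nonneg _)
  calc ((p : ℝ)⁻¹) ^ r * ‖TX φ (p ^ (k' + 1)) x.2 - TX (fun μ => φ (μ ^ p)) (p ^ k') x.2‖
      ≤ ((p : ℝ)⁻¹) ^ r * (p : ℝ) ^ ((c : ℤ) - (k' + 1 : ℤ)) :=
        mul_le_mul_of_nonneg_left (hstep x hx) (by positivity)
    _ = (p : ℝ) ^ (c : ℤ) * (p : ℝ) ^ (-((k' + 1 : ℕ) + r : ℤ)) := by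
        rw [inv_pow, ← zpow_natCast, ← _root_.zpow_neg, ← zpow_add₀ hp0.ne', ← zpow_add₀ hp0.ne']
        congr 1
        push_cast
        ring

end Pool.Agent.FJA
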