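import Pool.Agent.AUK.FJA.P_CUL
import Pool.Agent.AUK.FJA.St10

/-!
# Module EVQ: the averages have bounded `p`-adic norm
-/

set_option autoImplicit false

noncomputable section

open Pool.Agent.WhK Pool.Agent.Lib25

namespace Pool.Agent.FJA

namespace EVQ

section

variable (p : ℕ) [Fact p.Prime]

theorem inv_norm_lt {N c : ℕ} (hN : ¬ p ^ c ∣ N) : ‖(N : ℚ_[p])‖⁻¹ ≤ (p : ℝ) ^ c := by
  have hp : (0 : ℝ) < p := by exact_mod_cast (Fact.out : p.Prime).pos
  have h1 : ¬ ‖((N : ℤ) : ℚ_[p])‖ ≤ (p : ℝ) ^ (-c : ℤ) := by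
    rw [Padic.norm_int_le_pow_iff_dvd]
    intro h
    apply hN
    exact_mod_cast h
  rw [Int.cast_natCast, not_le, zpow_neg, zpow_natCast] at h1
  have h2 : (0 : ℝ) < (p : ℝ) ^ c := by positivity
  have h3 : 0 < ‖(N : ℚ_[p])‖ := lt_trans (by positivity) h1
  rw [inv_le_comm₀ h3 h2]
  exact h1.le

theorem norm_int_le (z : ℤ) : ‖((z : ℚ) : ℚ_[p])‖ ≤ 1 := by
  have h : ((z : ℚ) : ℚ_[p]) = ((z : ℤ) : ℚ_[p]) := by push_cast; rfl
  rw [h]
  exact Padic.norm_int_le_one z

/-- A rational number with the denominator `D`. -/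
theorem norm_den {D : ℕ} (hD : 0 < D) {x : ℚ} (hx : ∃ z : ℤ, (D : ℚ) * x = z) :
    ‖((x : ℚ) : ℚ_[p])‖ ≤ (p : ℝ) ^ D := by
  obtain ⟨z, hz⟩ := hx
  have hp1 : 1 < p := (Fact.out : p.Prime).one_lt
  have h1 : ¬ p ^ D ∣ D := by
    intro h
    have h2 := Nat.le_of_dvd hD h
    have h3 : D < p ^ D := Nat.lt_pow_self hp1
    omega
  have h2 := inv_norm_lt p h1
  have hD0 : (D : ℚ) ≠ 0 := by exact_mod_cast hD.ne'
  have hx : x = (D : ℚ)⁻¹ * z := by
    rw [← hz]
    field_simp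
  rw [hx, Rat.cast_mul, norm_mul, Rat.cast_inv, norm_inv, Rat.cast_natCast]
  calc ‖(D : ℚ_[p])‖⁻¹ * ‖((z : ℚ) : ℚ_[p])‖ ≤ (p : ℝ) ^ D * 1 :=
        mul_le_mul h2 (norm_int_le p z) (norm_nonneg _) (by positivity)
    _ = (p : ℝ) ^ D := mul_one _

end

section

variable {Γ : Type} [Group Γ]

theorem avS_apply (Pt : List Γ → Γ → Finset Γ) (Y : List Γ) (y x : Γ) :
    avS Pt Y y x = 0 ∨ avS Pt Y y x = 1 / ((Pt Y y).card : ℚ) := by
  classical
  unfold avS
  rw [Finsupp.finsetSum_apply]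
  by_cases hx : x ∈ Pt Y y
  · right
    rw [Finset.sum_eq_single x]
    · rw [Finsupp.single_eq_same]
    · intro z _ hz
      exact Finsupp.single_eq_of_ne (Ne.symm hz)
    · intro h
      exact absurd hx h
  · left
    refine Finset.sum_eq_zero fun z hz => ?_
    rw [Finsupp.single_apply, if_neg]
    rintro rfl
    exact hx hz

theorem norm_avS (p : ℕ) [Fact p.Prime] {c : ℕ} {Pt : List Γ → Γ → Finset Γ} {dl : List Γ → Γ → Γ}
    (hP : Pnt Pt dl) (hc : ∀ γ : Γ, IsOfFinOrder γ → ¬ p ^ c ∣ orderOf γ) (Y : List Γ) (y x : Γ)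
    (hY : Y ≠ []) (hy : IsOfFinOrder y) : ‖((avS Pt Y y x : ℚ) : ℚ_[p])‖ ≤ (p : ℝ) ^ c := by
  have hp : (0 : ℝ) < p := by exact_mod_cast (Fact.out : p.Prime).pos
  rcases avS_apply Pt Y y x with h | h
  · rw [h, Rat.cast_zero, norm_zero]
    positivity
  · rw [h, one_div, Rat.cast_inv, norm_inv, Rat.cast_natCast, hP.card Y y hY hy]
    exact inv_norm_lt p (hc _ (hP.fin Y y hY hy))

end

end EVQ

open EVQ in
theorem t_EVQ (havs : S_AVS) : S_EVQ := by
  intro G _ m S F hS hF p _ htor Pt dl hP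
  have _ := havs
  obtain ⟨c, hc⟩ := htor
  obtain ⟨D, hD, hden⟩ := hF.den
  have hp : (0 : ℝ) < p := by exact_mod_cast (Fact.out : p.Prime).pos
  have hp1 : (1 : ℝ) ≤ p := by exact_mod_cast (Fact.out : p.Prime).one_lt.le
  have hc' : ∀ γ : G × Multiplicative ℤ, IsOfFinOrder γ → ¬ p ^ c ∣ orderOf γ := by
    intro γ hγ
    have h1 : orderOf γ = orderOf γ.1 := by
      rw [Prod.orderOf, CUL.snd_one hγ, orderOf_one, Nat.lcm_one_right]
    rw [h1]
    exact hc γ.1 ((MonoidHom.fst G (Multiplicative ℤ)).isOfFinOrder hγ)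
  refine ⟨c * (m + 2) + D, fun μ => ?_⟩
  have hpos : (0 : ℝ) ≤ (p : ℝ) ^ (c * (m + 2) + D) := by positivity
  unfold evs
  split_ifs with hne
  · by_cases hy : IsOfFinOrder μ.val
    · rw [MEX.mex_def, Rat.cast_sum]
      refine IsUltrametricDist.norm_sum_le_of_forall_le_of_nonneg hpos fun x _ => ?_
      rw [Rat.cast_mul, norm_mul, pow_add, Rat.cast_prod, norm_prod]
      refine mul_le_mul ?_ ?_ (norm_nonneg _) (by positivity)
      · calc ∏ i, ‖((avS Pt (μ.lst i) μ.val (x i) : ℚ) : ℚ_[p])‖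
            ≤ ∏ _i : Fin (m + 2), (p : ℝ) ^ c :=
              Finset.prod_le_prod (fun i _ => norm_nonneg _) fun i _ =>
                norm_avS p hP hc' _ _ _ (hne i) hy
          _ = (p : ℝ) ^ (c * (m + 2)) := by
              rw [Finset.prod_const, Finset.card_univ, Fintype.card_fin, pow_mul]
      · refine norm_den p hD ?_
        unfold cup
        split_ifs
        · obtain ⟨z, hz⟩ := hden (fun i => (x i.castSucc).1) μ.val.1
          refine ⟨z * (Multiplicative.toAdd (x (Fin.last (m + 1))).2 -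
            Multiplicative.toAdd (x (Fin.last m).castSucc).2), ?_⟩
          rw [← mul_assoc, hz]
          push_cast
          rfl
        · exact ⟨0, by simp⟩
    · have h3 : mex (fun a => cup F a μ.val) (fun i => avS Pt (μ.lst i) μ.val) = 0 := by
        refine MEX.vanish _ _ fun x _ => ?_
        unfold cup
        split_ifs with h4
        · have h5 : F (fun i => (x i.castSucc).1) μ.val.1 = 0 := by
            by_contra h6
            exact hy (CUL.fin_pair _ (hS _ (hF.supp _ _ h6)) h4)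
          rw [h5, zero_mul]
        · rfl
      rw [h3, Rat.cast_zero, norm_zero]
      exact hpos
  · rw [Rat.cast_zero, norm_zero]
    exact hpos

end Pool.Agent.FJA
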