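import Pool.Agent.AUK.FJA.P_SUP
import Pool.Agent.AUK.FJA.St10
import Pool.Agent.AUK.FJA.Step7

/-!
# GAQ: one step of the Gauss congruence, for a function with bounded `ℓ`-adic norm
-/

set_option autoImplicit false

open Matrix Pool.Agent.WhK Pool.Agent.Lib25

noncomputable section

namespace Pool.Agent.FJA

namespace GAQ

/-- Approximation of a rational number by rational numbers with a power of `ℓ` as denominator. -/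
theorem approx (ℓ : ℕ) [Fact ℓ.Prime] (c k : ℕ) (x : ℚ) (hx : ‖((x : ℚ) : ℚ_[ℓ])‖ ≤ (ℓ : ℝ) ^ c) :
    ∃ y : ℚ, (∃ z : ℤ, ((ℓ ^ c : ℕ) : ℚ) * y = z) ∧
      ‖((x : ℚ) : ℚ_[ℓ]) - ((y : ℚ) : ℚ_[ℓ])‖ ≤ (ℓ : ℝ) ^ (-(k + 1 : ℤ)) := by
  have hℓ : (0 : ℝ) < ℓ := by exact_mod_cast (Fact.out : ℓ.Prime).pos
  have hℓq : ((ℓ : ℕ) : ℚ) ≠ 0 := by exact_mod_cast (Fact.out : ℓ.Prime).ne_zero
  have hℓp : ((ℓ : ℕ) : ℚ_[ℓ]) ≠ 0 := by exact_mod_cast (Fact.out : ℓ.Prime).ne_zero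
  have h1 : ‖((ℓ : ℕ) : ℚ_[ℓ]) ^ c * ((x : ℚ) : ℚ_[ℓ])‖ ≤ 1 := by
    rw [norm_mul, norm_pow, Padic.norm_p, inv_pow]
    rw [inv_mul_le_iff₀ (by positivity), mul_one]
    exact hx
  obtain ⟨a, ha⟩ : ∃ a : ℤ_[ℓ], (a : ℚ_[ℓ]) = ((ℓ : ℕ) : ℚ_[ℓ]) ^ c * ((x : ℚ) : ℚ_[ℓ]) :=
    ⟨⟨_, h1⟩, rfl⟩
  have h2 : ‖a - ((a.appr (k + 1 + c) : ℕ) : ℤ_[ℓ])‖ ≤ (ℓ : ℝ) ^ (-((k + 1 + c : ℕ) : ℤ)) :=
    (PadicInt.norm_le_pow_iff_mem_span_pow _ _).2 (PadicInt.appr_spec _ _)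
  refine ⟨((a.appr (k + 1 + c) : ℕ) : ℚ) / (ℓ : ℚ) ^ c, ⟨(a.appr (k + 1 + c) : ℕ), ?_⟩, ?_⟩
  · push_cast
    field_simp
  · have h3 : ((x : ℚ) : ℚ_[ℓ]) - ((((a.appr (k + 1 + c) : ℕ) : ℚ) / (ℓ : ℚ) ^ c : ℚ) : ℚ_[ℓ]) =
        (((ℓ : ℕ) : ℚ_[ℓ]) ^ c)⁻¹ * ((a - ((a.appr (k + 1 + c) : ℕ) : ℤ_[ℓ]) : ℤ_[ℓ]) : ℚ_[ℓ]) := by
      rw [PadicInt.coe_sub, ha, PadicInt.coe_natCast]
      push_cast
      field_simp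
    rw [h3, norm_mul, norm_inv, norm_pow, Padic.norm_p, inv_pow, inv_inv,
      PadicInt.padic_norm_e_of_padicInt]
    refine (mul_le_mul_of_nonneg_left h2 (by positivity)).trans (le_of_eq ?_)
    rw [← zpow_natCast, ← zpow_add₀ hℓ.ne']
    congr 1
    push_cast
    ring

theorem nim_pow {ℓ : ℕ} [Fact ℓ.Prime] {M : Type*} [Monoid M] {ι : Type*} [Fintype ι]
    [DecidableEq ι] {U : Matrix ι ι (MonoidAlgebra ℚ_[ℓ] M)} (hU : NIM U) (n : ℕ) :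
    NIM (U ^ n) := by
  induction n with
  | zero => rw [pow_zero]; exact GAU.nim_one
  | succ n ih => rw [pow_succ]; exact GAU.nim_mul ih hU

theorem ni_trace {ℓ : ℕ} [Fact ℓ.Prime] {M : Type*} [Monoid M] {ι : Type*} [Fintype ι]
    {U : Matrix ι ι (MonoidAlgebra ℚ_[ℓ] M)} (hU : NIM U) : NI (Matrix.trace U) := by
  rw [GAU.ni_iff, Matrix.trace]
  exact Subring.sum_mem _ fun i _ => (GAU.ni_iff _).1 (hU i i)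

/-- The values of two functions which are close on an integral element. -/
theorem lin_diff {ℓ : ℕ} [Fact ℓ.Prime] {M : Type*} {φ ψ : M → ℚ} {x : MonoidAlgebra ℚ_[ℓ] M}
    (hx : NI x) {ε : ℝ} (hε : 0 ≤ ε) (h : ∀ μ, ‖((φ μ : ℚ) : ℚ_[ℓ]) - ((ψ μ : ℚ) : ℚ_[ℓ])‖ ≤ ε) :
    ‖lin ℚ_[ℓ] φ x - lin ℚ_[ℓ] ψ x‖ ≤ ε := by
  rw [lin_apply, lin_apply, Finsupp.sum, Finsupp.sum, ← Finset.sum_sub_distrib]
  refine IsUltrametricDist.norm_sum_le_of_forall_le_of_nonneg hε fun μ _ => ?_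
  rw [← mul_sub, norm_mul]
  calc _ ≤ 1 * ε := mul_le_mul (hx μ) (h μ) (norm_nonneg _) zero_le_one
    _ = ε := one_mul _

end GAQ

open GAQ in
/-- GAQ: one step of the Gauss congruence, for a function with bounded `ℓ`-adic norm. -/
theorem t_GAQ : S_GAQ := by
  intro Γ _ M ℓ _ S k c φ htr hnorm ι _ _ X hX hS
  have hsup := t_SUP
  have hℓ : (0 : ℝ) < ℓ := by exact_mod_cast (Fact.out : ℓ.Prime).pos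
  have hℓ1 : (1 : ℝ) ≤ ℓ := by exact_mod_cast (Fact.out : ℓ.Prime).one_le
  have hU := t_GAUint ℓ Γ ι M X hX
  obtain ⟨φ1, hφ1⟩ : ∃ φ1 : Rec Γ (Fin M) → ℚ, φ1 = Step7.rstr S (ℓ ^ (k + 1)) φ := ⟨_, rfl⟩
  have hn1 : ∀ μ, ‖((φ1 μ : ℚ) : ℚ_[ℓ])‖ ≤ (ℓ : ℝ) ^ c := by
    intro μ
    rw [hφ1]
    by_cases h : μ ∈ S ∧ ∀ i, (μ.lst i).length = ℓ ^ (k + 1)
    · rw [Step7.rstr_pos h.1 h.2]
      exact hnorm μ h.1 h.2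
    · rw [Step7.rstr_neg h]
      simp only [Rat.cast_zero, norm_zero]
      positivity
  have htr1 : ∀ μ ∈ S, ∀ ν ∈ S, φ1 (μ * ν) = φ1 (ν * μ) := by
    intro μ hμ ν hν
    rw [hφ1]
    by_cases h : ∀ i, ((μ * ν).lst i).length = ℓ ^ (k + 1)
    · have h' : ∀ i, ((ν * μ).lst i).length = ℓ ^ (k + 1) := by
        intro i
        rw [← h i]
        simp [add_comm]
      rw [Step7.rstr_pos (S.mul_mem hμ hν) h, Step7.rstr_pos (S.mul_mem hν hμ) h']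
      exact htr μ hμ ν hν
    · have h' : ¬ ∀ i, ((ν * μ).lst i).length = ℓ ^ (k + 1) := by
        intro h2
        apply h
        intro i
        rw [← h2 i]
        simp [add_comm]
      rw [Step7.rstr_neg fun h2 => h h2.2, Step7.rstr_neg fun h2 => h' h2.2]
  have key : ∀ x : ℚ, ∃ y : ℚ, ‖((x : ℚ) : ℚ_[ℓ])‖ ≤ (ℓ : ℝ) ^ c →
      (∃ z : ℤ, ((ℓ ^ c : ℕ) : ℚ) * y = z) ∧
      ‖((x : ℚ) : ℚ_[ℓ]) - ((y : ℚ) : ℚ_[ℓ])‖ ≤ (ℓ : ℝ) ^ (-(k + 1 : ℤ)) := by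
    intro x
    by_cases hx : ‖((x : ℚ) : ℚ_[ℓ])‖ ≤ (ℓ : ℝ) ^ c
    · obtain ⟨y, hy⟩ := approx ℓ c k x hx
      exact ⟨y, fun _ => hy⟩
    · exact ⟨0, fun h => absurd h hx⟩
  choose g hg using key
  have h1 := t_GAS ℓ (Rec Γ (Fin M)) S ι (fun μ => g (φ1 μ)) (ℓ ^ c)
    (fun μ hμ ν hν => by rw [htr1 μ hμ ν hν]) (pow_pos (Fact.out : ℓ.Prime).pos c)
    (fun μ => (hg (φ1 μ) (hn1 μ)).1) (UX X) hU hS k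
  have h2 : TX φ (ℓ ^ (k + 1)) X = TX φ1 (ℓ ^ (k + 1)) X := by
    rw [hφ1]
    exact hsup.2.2 ℚ_[ℓ] Γ ι M (ℓ ^ (k + 1)) X S _ _ hS fun μ hμ hl =>
      (Step7.rstr_pos hμ hl).symm
  have h3 : TX (fun μ => φ (μ ^ ℓ)) (ℓ ^ k) X = TX (fun μ => φ1 (μ ^ ℓ)) (ℓ ^ k) X := by
    rw [hφ1]
    exact hsup.2.2 ℚ_[ℓ] Γ ι M (ℓ ^ k) X S _ _ hS fun μ hμ hl =>
      (Step7.rstr_pos (S.pow_mem hμ ℓ) fun i => by rw [Step7.len_pow, hl i, pow_succ']).symm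
  have hε : (0 : ℝ) ≤ (ℓ : ℝ) ^ (-(k + 1 : ℤ)) := by positivity
  have hle : (ℓ : ℝ) ^ (-(k + 1 : ℤ)) ≤ (ℓ : ℝ) ^ ((c : ℤ) - (k + 1 : ℤ)) :=
    zpow_le_zpow_right₀ hℓ1 (by omega)
  have h4 : ‖TX φ1 (ℓ ^ (k + 1)) X - TX (fun μ => g (φ1 μ)) (ℓ ^ (k + 1)) X‖ ≤
      (ℓ : ℝ) ^ ((c : ℤ) - (k + 1 : ℤ)) :=
    (lin_diff (ni_trace (nim_pow hU _)) hε fun μ => (hg (φ1 μ) (hn1 μ)).2).trans hle
  have h5 : ‖TX (fun μ => g (φ1 (μ ^ ℓ))) (ℓ ^ k) X - TX (fun μ => φ1 (μ ^ ℓ)) (ℓ ^ k) X‖ ≤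
      (ℓ : ℝ) ^ ((c : ℤ) - (k + 1 : ℤ)) := by
    rw [norm_sub_rev]
    exact (lin_diff (ni_trace (nim_pow hU _)) hε
      fun μ => (hg (φ1 (μ ^ ℓ)) (hn1 (μ ^ ℓ))).2).trans hle
  have h6 : ‖TX (fun μ => g (φ1 μ)) (ℓ ^ (k + 1)) X - TX (fun μ => g (φ1 (μ ^ ℓ))) (ℓ ^ k) X‖ ≤
      (ℓ : ℝ) ^ ((c : ℤ) - (k + 1 : ℤ)) := by
    have e : ‖(((ℓ ^ c : ℕ) : ℚ_[ℓ]))‖ = ((ℓ : ℝ) ^ c)⁻¹ := by
      push_cast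
      rw [norm_pow, Padic.norm_p, inv_pow]
    rw [norm_mul, e, inv_mul_le_iff₀ (by positivity)] at h1
    refine h1.trans (le_of_eq ?_)
    rw [← zpow_natCast, ← zpow_add₀ hℓ.ne']
    congr 1
  rw [h2, h3]
  have e : TX φ1 (ℓ ^ (k + 1)) X - TX (fun μ => φ1 (μ ^ ℓ)) (ℓ ^ k) X =
      (TX φ1 (ℓ ^ (k + 1)) X - TX (fun μ => g (φ1 μ)) (ℓ ^ (k + 1)) X) +
      ((TX (fun μ => g (φ1 μ)) (ℓ ^ (k + 1)) X - TX (fun μ => g (φ1 (μ ^ ℓ))) (ℓ ^ k) X) +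
      (TX (fun μ => g (φ1 (μ ^ ℓ))) (ℓ ^ k) X - TX (fun μ => φ1 (μ ^ ℓ)) (ℓ ^ k) X)) := by ring
  rw [e]
  refine (IsUltrametricDist.norm_add_le_max _ _).trans (max_le h4 ?_)
  exact (IsUltrametricDist.norm_add_le_max _ _).trans (max_le h6 h5)

end Pool.Agent.FJA
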