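import Pool.Agent.AUK.FJA.P_PCN
import Pool.Agent.AUK.FJA.St10

/-!
# Module PCQ: the coboundary of `psiN`, in norm form
-/

set_option autoImplicit false

open Matrix

noncomputable section

namespace Pool.Agent.FJA

namespace PCQ

/-- the norm of a value times `p ^ r` times an integer -/
theorem norm_le (p : ℕ) [hp : Fact p.Prime] (M r c : ℕ) (a : ℚ) (q : ℤ)
    (ha : ‖((a : ℚ) : ℚ_[p])‖ ≤ (p : ℝ) ^ c) :
    ‖(((-1 : ℚ) ^ M * a * (((p ^ r : ℕ) : ℚ) * q) : ℚ) : ℚ_[p])‖ ≤ (p : ℝ) ^ ((c : ℤ) - r) := by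
  have hp0 : (0 : ℝ) < p := by exact_mod_cast hp.out.pos
  push_cast
  rw [norm_mul, norm_mul, norm_mul, norm_pow, norm_neg, norm_one, one_pow, one_mul, norm_pow,
    Padic.norm_p]
  have h1 : ‖(q : ℚ_[p])‖ ≤ 1 := Padic.norm_int_le_one q
  have h2 : (0 : ℝ) ≤ ((p : ℝ)⁻¹) ^ r := by positivity
  calc ‖((a : ℚ) : ℚ_[p])‖ * (((p : ℝ)⁻¹) ^ r * ‖(q : ℚ_[p])‖)
      ≤ (p : ℝ) ^ c * (((p : ℝ)⁻¹) ^ r * 1) := by
        apply mul_le_mul ha _ (by positivity) (by positivity)
        exact mul_le_mul_of_nonneg_left h1 h2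
    _ = (p : ℝ) ^ ((c : ℤ) - r) := by
        rw [mul_one, zpow_sub₀ hp0.ne', zpow_natCast, zpow_natCast, inv_pow, div_eq_mul_inv]

end PCQ

open PCN in
theorem t_PCQ : S_PCQ := by
  classical
  intro Γ _ σ p hp k r M c F s hF hs hD j _ μ hμ hgood
  have hp0 : (0 : ℝ) < p := by exact_mod_cast hp.out.pos
  obtain ⟨n, hn⟩ := hμ
  by_cases hP : (∀ i, (μ.lst i).length = p ^ k) ∧ IsOfFinOrder μ.val ∧ p ∣ orderOf μ.val
  swap
  · have h0 : cobR (psiN p k r F s j) μ = 0 := by
      unfold cobR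
      refine Finset.sum_eq_zero fun i _ => ?_
      rw [psi_neg, mul_zero]
      rintro ⟨h1, h2, h3, _⟩
      apply hP
      refine ⟨fun l => ?_, h2, h3⟩
      have h4 := h1 0
      rw [Rec.res_lst, hn] at h4
      rw [hn, h4]
    rw [h0, Rat.cast_zero, norm_zero]
    positivity
  · obtain ⟨hlen, hfin, hdvd⟩ := hP
    have hpos : 0 < p ^ k := pow_pos hp.out.pos k
    have hne : ∀ i, μ.lst i ≠ [] := by
      intro i h
      have := hlen i
      rw [h, List.length_nil] at this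
      omega
    set ρ : Rec Γ (Fin (M + 2)) := Rec.res Fin.castSucc μ with hρ
    set α : Fin (M + 2) → ℚ := fun i => evs F s (Rec.res i.succAbove ρ) with hα
    -- the cocycle identity
    have hcoc : ∑ i : Fin (M + 2), (-1 : ℚ) ^ (i : ℕ) * α i = 0 := by
      have h1 := SCH.closed (t_MEX) hF μ.val (fun i => s (ρ.lst i) μ.val)
        (fun i => hs.aug _ _ hfin (hne _))
      rw [← h1]
      refine Finset.sum_congr rfl fun i _ => ?_
      congr 1
      rw [hα]
      exact EVS.evs_pos F s _ (fun l => hne _)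
    have hterm : ∀ i : Fin (M + 3), psiN p k r F s j (Rec.res i.succAbove μ) =
        evs F s (Rec.res Fin.castSucc (Rec.res i.succAbove μ)) *
        (((j (μ.lst (i.succAbove (Fin.last (M + 1)))) μ.val -
          j (μ.lst (i.succAbove (Fin.last M).castSucc)) μ.val).val : ℕ) : ℚ) := by
      intro i
      exact psi_pos p k r F s j _ ⟨fun l => hlen _, hfin, hdvd, fun l => hgood _⟩
    have hres : ∀ i : Fin (M + 2), Rec.res Fin.castSucc (Rec.res (i.castSucc).succAbove μ) =
        Rec.res i.succAbove ρ := by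
      intro i
      apply Rec.ext
      · funext l
        simp only [Rec.res_lst, hρ]
        rw [sA_castSucc]
      · rfl
    have hres' : Rec.res Fin.castSucc (Rec.res (Fin.last (M + 2)).succAbove μ) =
        Rec.res (Fin.last (M + 1)).succAbove ρ := by
      apply Rec.ext
      · funext l
        simp only [Rec.res_lst, hρ]
        rw [sA_last, sA_last]
      · rfl
    set Y0 := j (μ.lst (Fin.last M).castSucc.castSucc) μ.val with hY0
    set Y1 := j (μ.lst (Fin.last (M + 1)).castSucc) μ.val with hY1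
    set Y2 := j (μ.lst (Fin.last (M + 2))) μ.val with hY2
    have e1 : ∀ i : Fin (M + 1), psiN p k r F s j
        (Rec.res (i.castSucc.castSucc).succAbove μ) =
        α i.castSucc * (((Y2 - Y1).val : ℕ) : ℚ) := by
      intro i
      rw [hterm, hres, sA_castSucc_last, sA_castSucc, sA_castSucc_last]
    have e2 : psiN p k r F s j (Rec.res ((Fin.last (M + 1)).castSucc).succAbove μ) =
        α (Fin.last (M + 1)) * (((Y2 - Y0).val : ℕ) : ℚ) := by
      rw [hterm, hres, sA_castSucc_last, sA_castSucc, sA_last]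
    have e3 : psiN p k r F s j (Rec.res (Fin.last (M + 2)).succAbove μ) =
        α (Fin.last (M + 1)) * (((Y1 - Y0).val : ℕ) : ℚ) := by
      rw [hterm, hres', sA_last, sA_last]
    have hcob : cobR (psiN p k r F s j) μ =
        (∑ i : Fin (M + 1), (-1 : ℚ) ^ (i : ℕ) * α i.castSucc) * (((Y2 - Y1).val : ℕ) : ℚ) +
        (-1 : ℚ) ^ (M + 1) * (α (Fin.last (M + 1)) * (((Y2 - Y0).val : ℕ) : ℚ)) +
        (-1 : ℚ) ^ (M + 2) * (α (Fin.last (M + 1)) * (((Y1 - Y0).val : ℕ) : ℚ)) := by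
      unfold cobR
      rw [Fin.sum_univ_castSucc, Fin.sum_univ_castSucc, e2, e3, Finset.sum_mul]
      simp only [e1, Fin.val_castSucc, Fin.val_last]
      congr 2
      refine Finset.sum_congr rfl fun i _ => ?_
      ring
    rw [Fin.sum_univ_castSucc] at hcoc
    simp only [Fin.val_castSucc, Fin.val_last] at hcoc
    have : NeZero (p ^ r) := ⟨(pow_pos hp.out.pos _).ne'⟩
    obtain ⟨q, hq⟩ := carry (Y1 - Y0) (Y2 - Y1)
    have hsum : Y2 - Y1 + (Y1 - Y0) = Y2 - Y0 := by ring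
    rw [hsum] at hq
    have h5 : ∑ i : Fin (M + 1), (-1 : ℚ) ^ (i : ℕ) * α i.castSucc =
        (-1 : ℚ) ^ M * α (Fin.last (M + 1)) := by
      have h6 : (-1 : ℚ) ^ (M + 1) = - (-1 : ℚ) ^ M := by ring
      rw [h6] at hcoc
      linarith
    have h7 : cobR (psiN p k r F s j) μ =
        (-1 : ℚ) ^ M * α (Fin.last (M + 1)) * (((p ^ r : ℕ) : ℚ) * q) := by
      rw [hcob, h5, ← hq]
      ring
    rw [h7]
    exact PCQ.norm_le p M r c _ q (hD (Rec.res (Fin.last (M + 1)).succAbove ρ))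

end Pool.Agent.FJA
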