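import Pool.Agent.AUK.FJA.P_PDG
import Pool.Agent.AUK.FJA.St10

/-!
# PDQ: the `ℓ`-adic theorem if the `p`-torsion is bounded for every prime `p`
-/

set_option autoImplicit false

open Matrix Pool.Agent.WhK Pool.Agent.Lib25

noncomputable section

namespace Pool.Agent.FJA

namespace PDQ

open Step7 PDG

/-- One step. -/
theorem one (hgaq : S_GAQ) (hevq : S_EVQ) (hpnt : S_PNT) (havs : S_AVS) (hsup : S_SUP) {n : ℕ}
    {G : Type} [Group G] {n0 : ℕ} (hn0 : 0 < n0) {ℓ : ℕ} [Fact ℓ.Prime] (htor : TorP G ℓ)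
    {F : (Fin (n + 2) → G) → G → ℚ} (hF : GCoch (n + 1) (fun y => y ^ n0 = 1) F)
    (B : KCh ℚ_[ℓ] (G × Multiplicative ℤ) (n + 3)) (hB : ∀ x ∈ B.support, ∀ i, NIU (x.2 i))
    (hnull : ∀ η : Rec (G × Multiplicative ℤ) (Fin (n + 2)) → ℚ, NullFun (sg2 G) η → ∀ N : ℕ,
      0 < N → TK ℚ_[ℓ] η N (bdK _ _ (n + 2) B) = 0) :
    TK ℚ_[ℓ] (fst (cup F)) 1 B = TK ℚ_[ℓ] (fst (powF ℓ (cup F))) 1 B := by
  classical
  have hprime : ℓ.Prime := Fact.out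
  have hS : ∀ y : G, y ^ n0 = 1 → IsOfFinOrder y := fun y hy =>
    isOfFinOrder_iff_pow_eq_one.2 ⟨n0, hn0, hy⟩
  have hFc : Coch (sg2 G) (n + 2) (cup F) := (t_CUP G (n + 1) F).2 _ hS hF
  obtain ⟨Pt, dl, hP⟩ := hpnt (G × Multiplicative ℤ)
  obtain ⟨hs, hrot, -⟩ := havs (G × Multiplicative ℤ) Pt dl hP
  obtain ⟨c, hc⟩ := hevq G (n + 1) (fun y => y ^ n0 = 1) F hS hF ℓ htor Pt dl hP
  have hmex := t_MEX.{0}
  have hevs := t_EVS.{0} hmex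
  have hsch := t_SCH.{0, 0, 0} t_TXlin t_TXfac t_TXlen hmex t_PRI
  obtain ⟨e1, -, e3, e4, e5, -, -⟩ := hevs (G × Multiplicative ℤ) (sg2 G) (n + 2) (cup F) (avS Pt)
    hFc hs
  have htr : IsTr (evs (cup F) (avS Pt)) := e1 hrot
  obtain ⟨S, L1, hSB, hInc, hSx⟩ := exists_sub hsup B
  obtain ⟨A, hA⟩ : ∃ A, A = TK ℚ_[ℓ] (fst (cup F)) 1 B := ⟨_, rfl⟩
  obtain ⟨A', hA'⟩ : ∃ A', A' = TK ℚ_[ℓ] (fst (powF ℓ (cup F))) 1 B := ⟨_, rfl⟩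
  have hnull' : ∀ η : Rec (G × Multiplicative ℤ) (Fin (n + 2)) → ℚ, NullFun (sg2 G) η →
      ∀ N : ℕ, 0 < N → ∑ x ∈ B.support, ((B x : ℚ) : ℚ_[ℓ]) * ∑ i : Fin (n + 2 + 1),
        (-1 : ℚ_[ℓ]) ^ (i : ℕ) * TX η N (fun t => x.2 (i.succAbove t)) = 0 := by
    intro η hη N hN
    have h := hnull η hη N hN
    rw [PDK.TK_bdK] at h
    exact h
  have a1 : ∀ N : ℕ, 0 < N → TK ℚ_[ℓ] (evs (cup F) (avS Pt)) N B = A := by
    intro N hN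
    rw [hA, PDK.TK_apply, PDK.TK_apply]
    exact PAD.sum_evs (J := Σ r : ℕ, (Fin (n + 3) → (Matrix (Fin r) (Fin r)
      (MonoidAlgebra ℚ_[ℓ] (G × Multiplicative ℤ)))ˣ)) (r := fun x => x.1) (X := fun x => x.2)
      hsch hevs t_TXfst hnull' hFc hs N hN
  have a2 : ∀ N : ℕ, 0 < N →
      TK ℚ_[ℓ] (fun μ => evs (cup F) (avS Pt) (μ ^ ℓ)) N B = A' := by
    intro N hN
    have h6 : (fun μ => evs (cup F) (avS Pt) (μ ^ ℓ)) =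
        evs (powF ℓ (cup F)) (fun Y y => avS Pt (powL ℓ Y y) (y ^ ℓ)) := by
      funext μ
      exact e4 _ hprime.pos μ
    rw [h6, hA', PDK.TK_apply, PDK.TK_apply]
    exact PAD.sum_evs (J := Σ r : ℕ, (Fin (n + 3) → (Matrix (Fin r) (Fin r)
      (MonoidAlgebra ℚ_[ℓ] (G × Multiplicative ℤ)))ˣ)) (r := fun x => x.1) (X := fun x => x.2)
      hsch hevs t_TXfst hnull' (e3 _ hprime.pos) (e5 _ hprime.pos) N hN
  rw [← hA, ← hA']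
  have hℓ0 : (0 : ℝ) < (ℓ : ℝ) := by exact_mod_cast hprime.pos
  have hbound : ∀ k : ℕ, ‖A - A'‖ ≤
      (∑ x ∈ B.support, ‖((B x : ℚ) : ℚ_[ℓ])‖) * ((ℓ : ℝ) ^ ((c : ℤ) - 1) * ((ℓ : ℝ)⁻¹) ^ k) := by
    intro k
    have hstep : ∀ x ∈ B.support,
        ‖TX (evs (cup F) (avS Pt)) (ℓ ^ (k + 1)) x.2 -
          TX (fun μ => evs (cup F) (avS Pt) (μ ^ ℓ)) (ℓ ^ k) x.2‖ ≤
          (ℓ : ℝ) ^ ((c : ℤ) - (k + 1 : ℤ)) := fun x hx =>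
      hgaq (G × Multiplicative ℤ) (n + 3) ℓ S k c (evs (cup F) (avS Pt))
        (fun μ _ ν _ => htr μ ν) (fun μ _ _ => hc μ) (Fin x.1) x.2 (hB x hx) (hSx x hx)
    have h10 : (ℓ : ℝ) ^ ((c : ℤ) - (k + 1 : ℤ)) = (ℓ : ℝ) ^ ((c : ℤ) - 1) * ((ℓ : ℝ)⁻¹) ^ k := by
      rw [inv_pow, ← zpow_natCast, ← _root_.zpow_neg, ← zpow_add₀ hℓ0.ne']
      congr 1
      ring
    rw [← a1 (ℓ ^ (k + 1)) (pow_pos hprime.pos _), ← a2 (ℓ ^ k) (pow_pos hprime.pos _),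
      PDK.TK_apply, PDK.TK_apply, ← Finset.sum_sub_distrib, ← h10, Finset.sum_mul]
    refine (norm_sum_le _ _).trans (Finset.sum_le_sum fun x hx => ?_)
    rw [← mul_sub, norm_mul]
    exact mul_le_mul_of_nonneg_left (hstep x hx) (norm_nonneg _)
  have hℓ1 : (1 : ℝ) < ℓ := by exact_mod_cast hprime.one_lt
  have hlim : Filter.Tendsto (fun k : ℕ => (∑ x ∈ B.support, ‖((B x : ℚ) : ℚ_[ℓ])‖) *
      ((ℓ : ℝ) ^ ((c : ℤ) - 1) * ((ℓ : ℝ)⁻¹) ^ k)) Filter.atTop (nhds 0) := by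
    have h9 : Filter.Tendsto (fun n : ℕ => ((ℓ : ℝ)⁻¹) ^ n) Filter.atTop (nhds 0) :=
      tendsto_pow_atTop_nhds_zero_of_lt_one (by positivity) (inv_lt_one_of_one_lt₀ hℓ1)
    have h10 := (h9.const_mul ((ℓ : ℝ) ^ ((c : ℤ) - 1))).const_mul
      (∑ x ∈ B.support, ‖((B x : ℚ) : ℚ_[ℓ])‖)
    rw [mul_zero, mul_zero] at h10
    exact h10
  have h12 : ‖A - A'‖ ≤ 0 := ge_of_tendsto' hlim hbound
  exact sub_eq_zero.mp (norm_le_zero_iff.mp h12)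

end PDQ

open PDG PDQ in
theorem t_PDQ (hgaq : S_GAQ) (hevq : S_EVQ) (hpnt : S_PNT) (havs : S_AVS) (hsup : S_SUP) :
    S_PDQ := by
  intro G _ htor n n0 hn0 ℓ _ F hF B hB hnull e
  have hprime : ℓ.Prime := Fact.out
  induction e with
  | zero =>
    have h1 : powF (ℓ ^ 0) (cup F) = cup F := by
      funext a y
      unfold powF
      rw [pow_zero, pow_one]
    rw [h1]
  | succ e ih =>
    rw [ih]
    have hp : 0 < ℓ ^ e := pow_pos hprime.pos _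
    have h1 := PDQ.one hgaq hevq hpnt havs hsup (Nat.mul_pos hp hn0) (htor ℓ hprime)
      (gcoch_pow hF (ℓ ^ e)) B hB hnull
    rw [← powF_cup F hp, powF_powF] at h1
    rw [h1, pow_succ']

end Pool.Agent.FJA
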