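import Pool.Agent.AUK.FJA.Asm
import Pool.Agent.AUK.H2.Aver2D

/-!
# The averaged classes
-/

set_option autoImplicit false
set_option linter.unusedSectionVars false

open Matrix Pool.Agent.WhK Pool.Agent.Lib25 CategoryTheory

noncomputable section

namespace Pool.Agent.FJA

/-- The averaged classes. -/
def kapA (ε0 : ∀ N : ℕ, ℕ → IdemMat (LaurentPolynomial (MonoidAlgebra ℤ (Cyc N)))) (N p : ℕ) :
    KNegOne (MonoidAlgebra ℤ (Cyc N)) :=
  if hN : 0 < N then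
    (haveI : NeZero N := ⟨hN.ne'⟩
     H2.ak3 (Tw N) (fun q => KNegOne.of (ε0 N q)) p)
  else 0

theorem kapA_eq (ε0 : ∀ N : ℕ, ℕ → IdemMat (LaurentPolynomial (MonoidAlgebra ℤ (Cyc N))))
    (N p : ℕ) [NeZero N] : kapA ε0 N p = H2.ak3 (Tw N) (fun q => KNegOne.of (ε0 N q)) p :=
  dif_pos (Nat.pos_of_ne_zero (NeZero.ne N))

end Pool.Agent.FJA
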