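import Pool.Agent.AUK.FJA.Avg
import Pool.Agent.AUK.FJA.St8

/-!
# The core theorem for the pairs `(G, n)` with `Pdg G n`
-/

set_option autoImplicit false
set_option linter.unusedSectionVars false

open Matrix Pool.Agent.WhK Pool.Agent.Lib25 CategoryTheory

noncomputable section

namespace Pool.Agent.FJA

/-- The core theorem for the pairs `(G, n)` with `Pdg G n`. -/
def S_FNP (ε0 : ∀ N : ℕ, ℕ → IdemMat (LaurentPolynomial (MonoidAlgebra ℤ (Cyc N)))) : Prop :=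
  ∀ (G : Type) [Group G] (n : ℕ), Pdg G n →
    ∀ (L : ∀ (_ : ℕ) (h : G), HQ (n + 1) (Cen h) →ₗ[ℚ] ℚ), AdmL n G L →
    ∀ (J : Type) (s : Finset J) (q : J → ℚ) (N p : J → ℕ) (φ : ∀ j, Cyc (N j) →* G)
      (c : ∀ j, HQ (n + 1) (Cen (φ j (gen (N j))))),
    (∀ j, 0 < N j) → (∀ j, (p j).Prime) → (∀ j, p j ∣ N j) → (∀ j, Function.Injective (φ j)) →
    ∑ j ∈ s, q j • KB.mk n (MonoidAlgebra ℤ G) (ε0 (N j) (p j)).n
      (HQ.map (n + 1) (rhoC (ε0 (N j) (p j)) (φ j)) (c j)) = 0 →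
    ∑ j ∈ s, q j * L (p j) (φ j (gen (N j))) (c j) = 0

theorem fnp_of_adb (hADB : S_ADB)
    (ε0 : ∀ N : ℕ, ℕ → IdemMat (LaurentPolynomial (MonoidAlgebra ℤ (Cyc N))))
    (v : ∀ (N : ℕ) (_ : ℕ) (q : ℕ), [Fact q.Prime] → Cyc N → ℚ_[q]) (K : ℕ → ℕ)
    (hND : NodeD ε0 v K) : S_FNP ε0 := hADB ε0 v K hND

theorem exists_FP {ε0 : ∀ N : ℕ, ℕ → IdemMat (LaurentPolynomial (MonoidAlgebra ℤ (Cyc N)))}
    {n : ℕ} {G : Type} [Group G] (hFIN : S_FNP ε0) (hP : Pdg G n)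
    {L : ∀ (_ : ℕ) (h : G), HQ (n + 1) (Cen h) →ₗ[ℚ] ℚ} (hL : AdmL n G L) :
    ∃ F : KB n (MonoidAlgebra ℤ G) →ₗ[ℚ] ℚ, ∀ j : Ix n G,
      F (rawV ε0 n G j) = L j.p (j.φ (gen j.N)) j.c := by
  apply exists_fun
  intro q hq
  exact hFIN G n hP L hL (Ix n G) q.support q (fun j => j.N) (fun j => j.p) (fun j => j.φ)
    (fun j => j.c) (fun j => j.hN) (fun j => j.hp) (fun j => j.hpN) (fun j => j.hφ) hq

end Pool.Agent.FJA
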