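import Pool.Agent.AUK.FJA.St0

/-!
# Module UCT: integral cocycles

If the homology of a group with integral coefficients is finitely generated in some positive degree
then a positive multiple of every linear functional on the rational homology of this degree is
represented by an integral cocycle.
-/

set_option autoImplicit false

open Matrix Pool.Agent.WhK Pool.Agent.Lib25 CategoryTheory

noncomputable section

namespace Pool.Agent.FJA

namespace UCT

universe a b

/-- A linear functional which vanishes on the kernel of a linear map factors through it. -/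
theorem exists_factor {A : Type a} {B : Type b} [AddCommGroup A] [AddCommGroup B] [Module ℚ A]
    [Module ℚ B] (φ : A →ₗ[ℚ] B) (ψ : A →ₗ[ℚ] ℚ) (h : ∀ x, φ x = 0 → ψ x = 0) :
    ∃ μ : B →ₗ[ℚ] ℚ, ∀ x, μ (φ x) = ψ x := by
  have hk : LinearMap.ker φ ≤ LinearMap.ker ψ := fun x hx => h x hx
  obtain ⟨μ, hμ⟩ := LinearMap.exists_extend
    (((LinearMap.ker φ).liftQ ψ hk).comp φ.quotKerEquivRange.symm.toLinearMap)
  refine ⟨μ, fun x => ?_⟩
  have h1 := LinearMap.congr_fun hμ ⟨φ x, LinearMap.mem_range_self φ x⟩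
  have h2 : φ.quotKerEquivRange.symm ⟨φ x, LinearMap.mem_range_self φ x⟩ =
      (LinearMap.ker φ).mkQ x := φ.quotKerEquivRange_symm_apply_image x _
  refine Eq.trans h1 ?_
  change (LinearMap.ker φ).liftQ ψ hk (φ.quotKerEquivRange.symm _) = ψ x
  rw [h2]
  rfl

section

variable {P : Type} [Group P]

theorem dd {k : Type} [CommRing k] (m : ℕ) (y : IC k (m + 2) P) :
    dI k m P (dI k (m + 1) P y) = 0 := by
  have h1 := congrArg (fun f => f.hom y)
    (groupHomology.inhomogeneousChains.d_comp_d (n := m) (A := Tk k P))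
  have h2 : dI0 k m P (dI0 k (m + 1) P y) = 0 := h1
  rw [dI0_eq, dI0_eq] at h2
  exact h2

theorem pair_eq {V : Type} {m : ℕ} (μ : ((Fin m → V) →₀ ℚ) →ₗ[ℚ] ℚ) (w : (Fin m → V) →₀ ℚ) :
    pair (fun g => μ (Finsupp.single g 1)) w = μ w := by
  induction w using Finsupp.induction_linear with
  | zero => rw [map_zero, map_zero]
  | add x y hx hy => rw [map_add, map_add, hx, hy]
  | single X q =>
    rw [pair_single, ← smul_eq_mul, ← map_smul, Finsupp.smul_single, smul_eq_mul, mul_one]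

/-- The first step. -/
theorem step1 (m : ℕ) (lam : Hk ℚ (m + 1) P →ₗ[ℚ] ℚ) :
    ∃ μ : IC ℚ (m + 1) P →ₗ[ℚ] ℚ, (∀ x : ZC ℚ (m + 1) P,
      μ (ch ℚ (m + 1) P x) = lam (cl ℚ (m + 1) P x)) ∧
      ∀ y : IC ℚ (m + 2) P, μ (dI ℚ (m + 1) P y) = 0 := by
  obtain ⟨μ, hμ⟩ := exists_factor (ch ℚ (m + 1) P) (lam.comp (cl ℚ (m + 1) P)) (by
    intro x hx
    have h1 : cl ℚ (m + 1) P x = 0 := by
      rw [cl_eq_zero_iff]
      exact ⟨0, by rw [map_zero]; exact hx⟩
    rw [LinearMap.comp_apply, h1, map_zero])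
  refine ⟨μ, hμ, ?_⟩
  intro y
  obtain ⟨x, hx⟩ := exists_ch (dI ℚ (m + 1) P y) (dd m y)
  have h1 : cl ℚ (m + 1) P x = 0 := by
    rw [cl_eq_zero_iff]
    exact ⟨y, hx⟩
  rw [← hx, hμ, LinearMap.comp_apply, h1, map_zero]

/-- The base change of chains. -/
def bc (m : ℕ) (P : Type) : IC ℤ m P →+ IC ℚ m P :=
  Finsupp.mapRange.addMonoidHom (Int.castAddHom ℚ)

omit [Group P] in
theorem bc_single (m : ℕ) (g : Fin m → P) (n : ℤ) :
    bc m P (Finsupp.single g n) = Finsupp.single g (n : ℚ) := by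
  unfold bc
  rw [Finsupp.mapRange.addMonoidHom_apply, Finsupp.mapRange_single]
  rfl

omit [Group P] in
theorem bc_smul (m : ℕ) (n : ℤ) (z : IC ℤ m P) :
    bc m P (n • z) = (n : ℚ) • bc m P z := by
  rw [map_zsmul, Int.cast_smul_eq_zsmul]

theorem bc_dI (m : ℕ) (z : IC ℤ (m + 1) P) :
    bc m P (dI ℤ m P z) = dI ℚ m P (bc (m + 1) P z) := by
  induction z using Finsupp.induction_linear with
  | zero => simp only [map_zero]
  | add x y hx hy => simp only [map_add, hx, hy]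
  | single g n =>
    rw [dI_single, bc_single, dI_single, map_add, bc_single, map_sum]
    congr 1
    refine Finset.sum_congr rfl fun j _ => ?_
    rw [bc_smul, bc_single]
    push_cast
    rfl

/-- The second step: finite generation bounds the denominators. -/
theorem step2 (m : ℕ) (hfg : Module.Finite ℤ (Hk ℤ (m + 1) P)) (μ : IC ℚ (m + 1) P →ₗ[ℚ] ℚ)
    (hμ : ∀ y : IC ℚ (m + 2) P, μ (dI ℚ (m + 1) P y) = 0) :
    ∃ D : ℕ, 0 < D ∧ ∀ z : ZC ℤ (m + 1) P,
      ∃ n : ℤ, (D : ℚ) * μ (bc (m + 1) P (ch ℤ (m + 1) P z)) = n := by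
  obtain ⟨S, hS⟩ := hfg.fg_top
  choose s hs using fun c : Hk ℤ (m + 1) P => exists_cl c
  let E : ZC ℤ (m + 1) P → ℚ := fun z => μ (bc (m + 1) P (ch ℤ (m + 1) P z))
  have hE0 : E 0 = 0 := by
    change μ (bc (m + 1) P (ch ℤ (m + 1) P 0)) = 0
    rw [map_zero, map_zero, map_zero]
  have hEadd : ∀ x y, E (x + y) = E x + E y := by
    intro x y
    change μ (bc (m + 1) P (ch ℤ (m + 1) P (x + y))) = _
    rw [map_add, map_add, map_add]
  have hEsmul : ∀ (n : ℤ) x, E (n • x) = n * E x := by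
    intro n x
    change μ (bc (m + 1) P (ch ℤ (m + 1) P (n • x))) = _
    rw [map_zsmul, bc_smul, map_smul, smul_eq_mul]
  have hden : ∃ D : ℕ, 0 < D ∧ ∀ y ∈ S, ∃ n : ℤ, (D : ℚ) * E (s y) = n := by
    refine ⟨∏ y ∈ S, (E (s y)).den, Finset.prod_pos fun t _ => Rat.den_pos _, ?_⟩
    intro t ht
    obtain ⟨d, hd⟩ := Finset.dvd_prod_of_mem (fun t => (E (s t)).den) ht
    refine ⟨d * (E (s t)).num, ?_⟩
    rw [hd]
    push_cast
    have h1 := Rat.mul_den_eq_num (E (s t))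
    linear_combination (d : ℚ) * h1
  obtain ⟨D, hD, hden⟩ := hden
  refine ⟨D, hD, ?_⟩
  have key : ∀ c : Hk ℤ (m + 1) P, ∃ z, cl ℤ (m + 1) P z = c ∧ ∃ n : ℤ, (D : ℚ) * E z = n := by
    intro c
    have hc : c ∈ Submodule.span ℤ (S : Set (Hk ℤ (m + 1) P)) := by
      rw [hS]
      exact Submodule.mem_top
    induction hc using Submodule.span_induction with
    | mem x hx => exact ⟨s x, hs x, hden x hx⟩
    | zero => exact ⟨0, map_zero _, 0, by rw [hE0, mul_zero, Int.cast_zero]⟩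
    | add x y _ _ hx hy =>
      obtain ⟨c, hc, n, hn⟩ := hx
      obtain ⟨c', hc', n', hn'⟩ := hy
      refine ⟨c + c', by rw [map_add, hc, hc'], n + n', ?_⟩
      rw [hEadd, mul_add, hn, hn', Int.cast_add]
    | smul r x _ hx =>
      obtain ⟨c, hc, n, hn⟩ := hx
      refine ⟨r • c, by rw [map_zsmul, hc]; exact (int_smul_eq_zsmul _ r x).symm, r * n, ?_⟩
      rw [hEsmul, Int.cast_mul, ← hn]
      ring
  intro z
  obtain ⟨z', hz', n, hn⟩ := key (cl ℤ (m + 1) P z)
  refine ⟨n, ?_⟩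
  have h1 : cl ℤ (m + 1) P (z' - z) = 0 := by
    rw [map_sub, hz', sub_self]
  obtain ⟨y, hy⟩ := (cl_eq_zero_iff _).1 h1
  have h2 : E z' = E z := by
    have h3 : μ (bc (m + 1) P (ch ℤ (m + 1) P (z' - z))) = 0 := by
      rw [hy, bc_dI, hμ]
    rw [map_sub, map_sub, map_sub, sub_eq_zero] at h3
    exact h3
  rw [← hn, h2]

/-- The third step. -/
theorem step3 (m : ℕ) (μ : IC ℚ (m + 1) P →ₗ[ℚ] ℚ)
    (hint : ∀ z : IC ℤ (m + 1) P, dI ℤ m P z = 0 → ∃ n : ℤ, μ (bc (m + 1) P z) = n) :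
    ∃ (θ : (Fin m → P) → ℚ) (f : (Fin (m + 1) → P) → ℤ), ∀ g : Fin (m + 1) → P,
      (f g : ℚ) = μ (Finsupp.single g 1) - pair θ (dI ℚ m P (Finsupp.single g 1)) := by
  let q : ℚ →+ AddCircle (1 : ℚ) := QuotientAddGroup.mk' _
  have hq : ∀ x, q x = 0 ↔ ∃ m : ℤ, x = m := by
    intro x
    change ((x : AddCircle (1 : ℚ)) = 0) ↔ _
    rw [AddCircle.coe_eq_zero_iff]
    constructor
    · rintro ⟨m, hm⟩
      exact ⟨m, by rw [← hm]; simp⟩
    · rintro ⟨m, hm⟩
      exact ⟨m, by rw [hm]; simp⟩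
  have hqs : Function.Surjective q := QuotientAddGroup.mk'_surjective _
  let ev : IC ℤ (m + 1) P →+ ℚ := μ.toAddMonoidHom.comp (bc (m + 1) P)
  have hev : ∀ z, ev z = μ (bc (m + 1) P z) := fun z => rfl
  let ψ : IC ℤ (m + 1) P →+ AddCircle (1 : ℚ) := q.comp ev
  let d : IC ℤ (m + 1) P →+ IC ℤ m P := (dI ℤ m P).toAddMonoidHom
  have hψ : d.ker ≤ ψ.ker := by
    intro z hz
    rw [AddMonoidHom.mem_ker] at hz ⊢
    exact (hq _).2 (hint z hz)
  obtain ⟨χ, hχ⟩ := (Module.Baer.of_divisible (AddCircle (1 : ℚ))).extension_property_addMonoidHom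
    (QuotientAddGroup.kerLift d) (QuotientAddGroup.kerLift_injective _)
    (QuotientAddGroup.lift d.ker ψ hψ)
  have hχ' : ∀ z, χ (dI ℤ m P z) = q (ev z) := fun z =>
    DFunLike.congr_fun hχ (QuotientAddGroup.mk z)
  choose θ hθ using fun x : Fin m → P => hqs (χ (Finsupp.single x 1))
  have hpair : ∀ z : IC ℤ m P, q (pair θ (bc m P z)) = χ z := by
    intro z
    induction z using Finsupp.induction_linear with
    | zero => simp only [map_zero]
    | add x y hx hy => simp only [map_add, hx, hy]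
    | single g n =>
      rw [bc_single, pair_single]
      have h1 : (n : ℚ) * θ g = n • θ g := (zsmul_eq_mul _ _).symm
      have h2 : (Finsupp.single g n : IC ℤ m P) = n • Finsupp.single g 1 := by
        rw [Finsupp.smul_single, smul_eq_mul, mul_one]
      rw [h1, map_zsmul, hθ, h2, map_zsmul]
  have h1 : ∀ g : Fin (m + 1) → P, ∃ n : ℤ,
      μ (Finsupp.single g 1) - pair θ (dI ℚ m P (Finsupp.single g 1)) = n := by
    intro g
    rw [← hq, map_sub, sub_eq_zero]
    have h2 : (Finsupp.single g (1 : ℚ) : IC ℚ (m + 1) P) = bc (m + 1) P (Finsupp.single g 1) := by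
      rw [bc_single, Int.cast_one]
    rw [h2, ← bc_dI, hpair, hχ', hev]
  choose f hf using h1
  exact ⟨θ, f, fun g => (hf g).symm⟩

end

end UCT

theorem t_UCT : S_UCT := by
  intro P _ m hfg lam
  obtain ⟨μ, hμ, hμd⟩ := UCT.step1 m lam
  obtain ⟨D, hD, hint⟩ := UCT.step2 m hfg μ hμd
  obtain ⟨θ, f, hf⟩ := UCT.step3 m ((D : ℚ) • μ) (by
    intro z hz
    obtain ⟨x, rfl⟩ := exists_ch z hz
    exact hint x)
  have key : ∀ w : IC ℚ (m + 1) P, pair (fun g => (f g : ℚ)) w =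
      D * μ w - pair θ (dI ℚ m P w) := by
    intro w
    have h1 : (fun g => (f g : ℚ)) = fun g =>
        ((D : ℚ) • μ - (pair θ).comp (dI ℚ m P)) (Finsupp.single g 1) := by
      funext g
      rw [hf g]
      rfl
    rw [h1, UCT.pair_eq]
    rfl
  refine ⟨D, f, hD, fun y => ?_, fun x => ?_⟩
  · rw [key, hμd, mul_zero, zero_sub, UCT.dd, map_zero, neg_zero]
  · rw [key, hμ, d_ch, map_zero, sub_zero]

end Pool.Agent.FJA
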