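import Pool.Agent.AUK.FJA.AvgD
import Pool.Agent.AUK.FJA.Core5

/-!
# Phase 2, algebra: statements of the modules

`Src1 m G` and the symbols `sym1 h c u` (SDefsD.lean, Rel1.lean), the data `Sy1 m G`, `val1`, `ev1`, `ZRel`,
`LowN`, `plog` (Core5.lean).
-/

set_option autoImplicit false

open Matrix Pool.Agent.WhK Pool.Agent.Lib25 CategoryTheory

noncomputable section

namespace Pool.Agent.FJA

/-! ## Modules TPR, CRS, CRA, AS1: the map with coefficients `K_1` -/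

/-- TPR: the double prism.

Proof.  Write `x = v0 :: v` (`Fin.cons`), and `cone a` for the linear map `X ↦ a :: X` (`Finsupp.lmapDomain`).
(i) `bd (cone a X) = X - cone a (bd X)` for chains `X` of tuples of length `≥ 1`, and `bd (cone a X) = X` for
length `0` (sum over `Fin.succAbove`, `Fin.sum_univ_succ`, `bd_single`).
(ii) `prism f f' (v0 :: v) = cone (f v0) (hmap f' (v0 :: v)) - cone (f v0) (prism f f' v)`: the mixed tuple
with index `0` is `f v0 :: f' (v0 :: v)`, the one with index `i + 1` is `f v0 :: mix f f' v i`.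
(iii) Define `T` on the basis by recursion on the length: `T 0 = 0`,
`T (m+1) (v0 :: v) = cone (f v0) (prism f' f'' (m+1) (v0 :: v) + T m v)` (with `v0 = x 0`, `v = Fin.tail x`).
The first identity by induction on `m`, for basis elements `x = v0 :: v`.  Abbreviate `P = prism f f'`,
`P' = prism f' f''`, `P'' = prism f f''`, `K = cone (f v0)`.  By (i), S_PRI and the induction hypothesis for `v`
(if `m = 0` then `T v = 0`, and `P v = P' v = P'' v = 0`):
`bd T x = P' x - K (bd P' x) + T v - K (bd T v)`, `bd P' x = f'' x - f' x - P' (bd x)`,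
`bd T v = P v + P' v - P'' v + T (bd v)`, and `bd x = v - cone v0 (bd v)`, so `P' (bd x) = P' v - P' (cone v0 (bd v))`
and `T (bd x) = T v - T (cone v0 (bd v)) = T v - K (P' (cone v0 (bd v))) - K (T (bd v))` (linearity, (iii)).  With
`P x = K (f' x) - K (P v)`, `P'' x = K (f'' x) - K (P'' v)` both sides are equal (for `m = 0`: `bd x = v`).
Equivariance: by induction from (iii), S_BD for `prism`, and `g' ∘ (a :: X) = g' a :: g' ∘ X`. -/
def S_TPR : Prop := ∀ (V V' : Type) (f f' f'' : V → V'),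
    ∃ T : ∀ m : ℕ, ((Fin m → V) →₀ ℚ) →ₗ[ℚ] ((Fin (m + 2) → V') →₀ ℚ),
      (∀ (m : ℕ) (c : (Fin (m + 1) → V) →₀ ℚ), bd ℚ V' (m + 2) (T (m + 1) c) =
        prism ℚ f f' (m + 1) c + prism ℚ f' f'' (m + 1) c - prism ℚ f f'' (m + 1) c +
          T m (bd ℚ V m c)) ∧
      (∀ (g : V → V) (g' : V' → V'), (∀ v, f (g v) = g' (f v)) → (∀ v, f' (g v) = g' (f' v)) →
        (∀ v, f'' (g v) = g' (f'' v)) → ∀ (m : ℕ) (c : (Fin m → V) →₀ ℚ),
        T m (hmap ℚ g m c) = hmap ℚ g' (m + 2) (T m c)) ∧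
      ∀ c : (Fin 0 → V) →₀ ℚ, T 0 c = 0

/-- CRS (uses PRI, BD): the product with an element `g` which commutes with the image of `f`.

Proof.  (a) On `single a q`: `Fin.partialProd (Fin.insertNth i g (f ∘ a)) = mix f (f · * g) (Fin.partialProd a) i`:
at `j ≤ i` both are `f (a_0 … a_(j-1))`, at `j > i` both are `f (a_0 … a_(j-2)) * g`, as `g` commutes with
`f (a_l)` (induction on `j`, `Fin.partialProd_succ`); signs and coefficients are the same.
(b) Let `f' z = f z * g = g * f z`.  `prism f f'` maps `hdeg P` to `hdeg Q` (as in `prism_hdeg`, Hom.lean: by S_BD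
with `g := (γ * ·)`, `g' := (f γ * ·)`), so `phi` of it vanishes (`phi_hdeg`); `phi (hmap f' w) = phi (hmap f w)`
(`hmap f' w = hmap (g * ·) (hmap f w)`, `hmap_sub_mem`).  So for `y : IC (m+1) P`, `w = psi y`, by (a),
`phi_psi`, `phi_bd`, S_PRI and `psi_d`:
`dI (insL (m+1) g (IC.map f y)) = phi (bd (prism f f' w)) = - phi (prism f f' (bd w)) =
- phi (prism f f' (psi (dI y))) = - insL m g (IC.map f (dI y))`.  (*)
For `m = 0` and `y : IC 0 P`: `dI (insL 0 g (IC.map f y)) = 0` in the same way (`prism` of chains of length `0` is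
`0`).  Hence for a cycle `z` the chain `insL m g (IC.map f (ch z))` is a cycle (`d_ch`, `exists_ch`), `= ch (Z z)`,
and if `cl z = 0`, `ch z = dI y`, then `ch (Z z) = - dI (..)`, `cl (Z z) = 0` (`cl_eq_zero_iff`).  Put
`X c = cl (Z z)` for a chosen `z` with `cl z = c` (`exists_cl`); `X` is linear and `X (cl z) = cl (Z z)`, because
`insL` and `IC.map` are linear: use `cl_eq_zero_iff` for `Z z1 + Z z2 - Z z3` etc. -/
def S_CRS : Prop := ∀ (P Q : Type) [Group P] [Group Q] (f : P →* Q) (g : Q),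
    (∀ z, g * f z = f z * g) → ∀ m : ℕ,
    (∀ x : IC ℚ m P, psi ℚ (m + 1) Q (insL m g (IC.map ℚ m f x)) =
      prism ℚ f (fun z => f z * g) (m + 1) (psi ℚ m P x)) ∧
    ∃ X : Hk ℚ m P →ₗ[ℚ] Hk ℚ (m + 1) Q, ∀ z : ZC ℚ m P, ∃ z' : ZC ℚ (m + 1) Q,
      ch ℚ (m + 1) Q z' = insL m g (IC.map ℚ m f (ch ℚ m P z)) ∧
      X (cl ℚ m P z) = cl ℚ (m + 1) Q z'

/-- CRA (uses TPR, CRS, BD): additivity in `g`.

Proof.  Let `w = psi (ch z)`, `f1 z = f z * g`, `f2 z = f z * (g * g')`, and `T` from TPR for `f, f1, f2`.  By CRS (a)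
and `phi_psi`: `phi (prism f f1 w) = insL g`, `phi (prism f f2 w) = insL (g g')`.  And
`prism f1 f2 w = hmap (g * ·) (prism f (f · * g') w)` (as `f1 z = g * f z`, `f2 z = g * (f z * g')`; definition of
`prism` and `mix` on basis elements), so `phi (prism f1 f2 w) = insL g'` (`hmap_sub_mem`, `phi_hdeg`).
`phi (T (bd w)) = 0`: for `m = 0` by `T 0 = 0` (`bd w` is a chain of tuples of length `0`), for `m ≥ 1` because
`bd w ∈ hdeg P` (`psi_ch_mem`) and `T` maps `hdeg P` to `hdeg Q` (equivariance with `(γ * ·)`, `(f γ * ·)`,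
`hmap_sub_mem`), `phi_hdeg`.
So `dI (phi (T w)) = phi (bd (T w)) = insL g + insL g' - insL (g g')` (`phi_bd`). -/
def S_CRA : Prop := ∀ (P Q : Type) [Group P] [Group Q] (f : P →* Q) (g g' : Q),
    (∀ z, g * f z = f z * g) → (∀ z, g' * f z = f z * g') → ∀ (m : ℕ) (z : ZC ℚ m P),
    ∃ y : IC ℚ (m + 2) Q,
      insL m g (IC.map ℚ m f (ch ℚ m P z)) + insL m g' (IC.map ℚ m f (ch ℚ m P z)) -
        insL m (g * g') (IC.map ℚ m f (ch ℚ m P z)) = dI ℚ (m + 1) Q y

/-- AS1 (uses CRS, CRA, PRI, BD): the map `A`.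

Proof.  `S = ℤ[G][t,t⁻¹]`, `Q = GL_1(S)`.  For `h` and `u ∈ UnS h` (`Adm1 h u`): `f = uL G ∘ gU G ∘ (subtype) :
Cen h →* Q` commutes with `uL G u` (the elements of `Cen h` commute with the elements of `⟨h⟩`, so with the
elements of `ℤ[⟨h⟩]`; induction on the element of the group algebra), and `tL G` is central in `Q`: `1 × 1`
matrices, `t` is central in `S`.  Let `X1` be the map of CRS for `f`, `uL G u` and `X2` the one for `id : Q → Q` and
`tL G` (`IC.map id = id`), and `V h u = KB.mk (m+1) _ 1 ∘ X2 ∘ X1 : HQ m (Cen h) → KB`, `V h u = 0` if not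
`Adm1 h u`.  `chU u x` is `insL (m+1) (tL G) (insL m (uL G u) (IC.map f x))` (`IC.map` is `Finsupp.mapDomain`).
The linear extension of `(h, c, u) ↦ V h u c` to `Sym1 m G →₀ ℚ` (`Finsupp.linearCombination`) vanishes on the
relations (compare `exists_A` in Asm.lean):
* `invalid`, `add`, `smul`: clear.
* `mul`: CRA for `f`, `uL G u`, `uL G v`: `X1^(uv) = X1^u + X1^v` (`cl_eq_zero_iff`), apply `X2`.
* `conj`: `h' = x h x⁻¹`, `κ = cHom x`, `u' = x u x⁻¹` (`Adm1 h u ↔ Adm1 h' u'`).  With `X = uL G (gU G x)`: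
  `f' (κ z) = X f(z) X⁻¹`, `uL G u' = X (uL G u) X⁻¹`, `tL G = X (tL G) X⁻¹`, and
  `insL m (F g) (IC.map F y) = IC.map F (insL m g y)` for a map `F`; so the chain of `(h', κ_* z, u')` is
  `IC.map (conj X)` of the chain of `(h, z, u)`, and `Hk.map (conj X) = id` (`Hk.map_conj`, Hom.lean; the degree is
  `m + 2`).
* `res`: the chains are the same, as `IC.map (cHom 1 ..)` followed by `f` is `f` (`1 * z * 1⁻¹ = z`).
`A` is the induced map on `Src1 m G = (Sym1 m G →₀ ℚ) ⧸ RelT m G` (`Submodule.liftQ`). -/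
def S_AS1 : Prop := ∀ (m : ℕ) (G : Type) [Group G],
    ∃ A : Src1 m G →ₗ[ℚ] KB (m + 1) (MonoidAlgebra ℤ G), IsA1 A

/-! ## Module BRF: from the relation to chains -/

/-- BRF (uses CRS): a relation in `KB (m + 1) ℤ[G]` gives a relation between chains.

Proof: apply the linear map `bridge (MonoidAlgebra ℤ G) (m + 1)` (Bridge.lean, see P_BRG.lean) to the relation.
`tau (m+1) G (cl x)` gives `mkQ (kinS 1 (hmap (gl1 mon) (psi (ch x))))`, where `a = cl x` (`exists_cl`).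
`V = ∑ q_j rawV j`, `q : Ix (m+1) G →₀ ℚ` (`Finsupp.mem_span_range_iff_exists_finsupp`): choose `z j` with
`cl (z j) = j.c`, `D0 = mkDat (Ix (m+1) G) q.support q (·.N) (·.p) (·.φ) ..`; `bridge_mk` gives `mkQ (D0.ch ..)`.
`A1 (val1 D) = ∑ r_s A1 (s.val)`, and with `Adm1` (`uG φ u ∈ UnS (φ gen)`: `φ` factors through the subgroup
`zpowers (φ gen)`; `φ gen` has finite order) and `IsA1`: `A1 s.val = KB.mk (m+1) _ 1 (cl z')`,
`ch z' = chU (uG φ u) (ch s.z)`, so `bridge` of it is `mkQ (kinS 1 (psi (ch z')))` (`bridge_mk` with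
`ρ = MonoidHom.id`, `Hk.map_id`).  Finally `kinS 1 (psi (chU (uG φ u) (ch s.z))) = E1 m s.φ s.u s.w = s.chn`: by
CRS (a) for `id : GL_1 → GL_1`, `tL G = sEl G` and for `f = gl1 elt`, `g = uL G (uG φ u) = uEl φ u` (equality of
`1 × 1` matrices, `gl1 elt z = uL G (gU G z)`), both commutation conditions as in AS1.  The sum is zero, so the
sum of the chains is in `BK` (`Submodule.Quotient.mk_eq_zero`). -/
def S_BRF : Prop := ∀ (ε0 : ∀ N : ℕ, ℕ → IdemMat (LaurentPolynomial (MonoidAlgebra ℤ (Cyc N))))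
    (m : ℕ) (G : Type) [Group G] (A1 : Src1 m G →ₗ[ℚ] KB (m + 1) (MonoidAlgebra ℤ G)), IsA1 A1 →
    ∀ (a : HQ (m + 2) (G × Multiplicative ℤ)) (V : KB (m + 1) (MonoidAlgebra ℤ G)),
    V ∈ Submodule.span ℚ (Set.range (rawV ε0 (m + 1) G)) → ∀ D : Sy1 m G →₀ ℚ,
    tau (m + 1) G a + V + A1 (val1 m G D) = 0 →
    ∃ (D0 : Dat G (m + 1)) (w0 : (Fin (m + 3) → G × Multiplicative ℤ) →₀ ℚ),
      D0.ch (fun j => ε0 (D0.N j) (D0.p j)) +
        (kinS (LaurentPolynomial (MonoidAlgebra ℤ G)) (m + 3) 1 (hmap ℚ (gl1 mon) (m + 3) w0) +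
          chn1 m G D) ∈
        LinearMap.range (bdS (LaurentPolynomial (MonoidAlgebra ℤ G)) (m + 3)) ⊔
          Kil (MonoidAlgebra ℤ G) (m + 3)

/-! ## Modules PLA, PLB, PLC, NRM, KER: the `p`-adic logarithm of units -/

/-- PLA: binomial estimates in a commutative ring.

Proof: for all `n` and `y` there is `w` with `(1 + y)^n = 1 + n y + y^2 w` (induction on `n`).  Induction on `b`:
`b = 0`: `z = 0`.  Step: `(1 + p^e x)^(p^b) = 1 + p^(b+e) t`, `t = x + p^(e-1) z`.  For `k = b + e ≥ 1` and the prime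
`p` one has `(1 + p^k t)^p = 1 + p^(k+1) t + p^(2k) w`, which follows from the first remark (`y = p^k t`).  So the
next power is `1 + p^(b+1+e) x + p^(b+1+e+e-1) z + p^(2b+2e) w` and `2b + 2e ≥ b + 1 + 2e - 1`. -/
def S_PLA : Prop := ∀ (R : Type) [CommRing R] (p : ℕ) (e : ℕ), 1 ≤ e → ∀ (x : R) (b : ℕ),
    ∃ z : R, (1 + (p : R) ^ e * x) ^ p ^ b =
      1 + (p : R) ^ (b + e) * x + (p : R) ^ (b + 2 * e - 1) * z

/-- PLB (uses PLA): the logarithm exists and is independent of the exponent `E`, with an estimate.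

Proof.  `C` is finite and commutative, `R = ℤ[C]`.  If `(p : ℤ)^e` divides all the coefficients of `y` then
`y = (p : R)^e * x` for some `x` (`Finsupp`/`MonoidAlgebra.ofCoeff` of the quotients), and conversely
`(p : R)^e * x` has coefficients `p^e * x_c`.
(1) `E = pE p C > 0`: the ring `F_p[C]` is finite, so its group of units is finite; the image of `u` under
`MonoidAlgebra.mapRingHom C (Int.castRingHom (ZMod p))` is a unit, its `E`-th power is `1` (`pow_card_eq_one'`),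
so all the coefficients of `u^E - 1` are divisible by `p`.
(2) Let `E > 0`, `1 ≤ e` and `p^e` divide `u^E - 1`; `t_b = (u^(E p^b) - 1)_c / (E p^b)`.  PLA:
`(u^(E p^b) - 1)_c = p^b (u^E - 1)_c + p^(b+2e-1) z_c`, so `‖E t_b - (u^E - 1)_c‖ ≤ p^(-(2e-1))` (`E t_b =
(..)_c / p^b`).  Also `p^(b+e)` divides `u^(E p^b) - 1`; so the same for `E p^b`, `e + b`:
`‖E p^b t_(b+b') - (u^(E p^b) - 1)_c‖ ≤ p^(-(2e+2b-1))`, i.e. `‖t_(b+b') - t_b‖ ≤ ‖E‖⁻¹ p^(-(2e+b-1))`: Cauchy,
hence convergent (`cauchySeq_tendsto_of_complete`) to some `L(E)_c`, and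
`‖E L(E)_c - (u^E - 1)_c‖ ≤ p^(-(2e-1))` (`le_of_tendsto`).
(3) `L(E) = L(E E')` for `E' > 0`, if `p` divides `u^E - 1`: `u^(E p^b) = 1 + y`, `y = p^(b+1) x`;
`(1 + y)^E' = 1 + E' y + y^2 w`, so `t_b(E E') - t_b(E) = p^(2b+2) (x^2 w)_c / (E E' p^b) → 0`.  By symmetry
`L(E) = L(E E') = L(E')`.
(4) `plog p u c = L(pE p C)_c` (`Filter.Tendsto.limUnder_eq`; `plogS` is `t_b`, `Units.val_pow_eq_pow_val`).  This
gives the three claims. -/
def S_PLB : Prop := ∀ (p : ℕ) [Fact p.Prime] (C : Type) [CommGroup C] [Finite C]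
    (u : (MonoidAlgebra ℤ C)ˣ),
    IsPlog p (u : MonoidAlgebra ℤ C) (plog p u) ∧
    (∀ l : C → ℚ_[p], IsPlog p (u : MonoidAlgebra ℤ C) l → l = plog p u) ∧
    ∀ E e : ℕ, 0 < E → 1 ≤ e → (∀ c : C, (p : ℤ) ^ e ∣ ((u : MonoidAlgebra ℤ C) ^ E - 1).coeff c) →
      ∀ c : C, ‖(E : ℚ_[p]) * plog p u c - ((((u : MonoidAlgebra ℤ C) ^ E - 1).coeff c : ℤ) : ℚ_[p])‖ ≤
        (p : ℝ) ^ (-(2 * e - 1 : ℤ))

/-- PLC (uses PLB, PLA): properties of the logarithm.

Proof.  (a) With the common exponent `E = pE p C` (PLB (1): `p` divides `u^E - 1`, `v^E - 1` and so `(u v)^E - 1`):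
`(uv)^n - 1 = (u^n - 1) + (v^n - 1) + (u^n - 1)(v^n - 1)`, `n = E p^b`, and the last term is divisible by
`p^(2b+2)` (PLA with `e = 1`), so divided by `E p^b` it tends to zero.  Uniqueness (PLB).
(b) `plog p (u⁻¹)`, `plog p (u^k)`, `plog p 1 = 0`: from (a), by induction.
(c) For `ψ : C →* C'` injective the coefficients of `mapDomain ψ x` at `ψ c` and at `c' ∉ range ψ` are `x_c` and `0`
(`Finsupp.mapDomain_apply`, `Finsupp.mapDomain_notin_range`), so `IsPlog p (uG ψ u) l` for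
`l (ψ c) = plog p u c`, `l c' = 0` outside of the range.  Uniqueness.
(d) Suppose `plog p u = 0`, let `E = pE p C * p`; `p^2` divides `y = u^E - 1` (PLA with `b = 1`).  Claim: `p^e`
divides `y` for all `e ≥ 2`; then `y = 0` (an integer divisible by all `p^e` is zero), `u^E = 1`.  Induction: if
`p^e` divides `y`, PLB gives `‖y_c‖ ≤ p^(-(2e-1))`, so `p^(2e-1)` divides `y_c`
(`padicNormE.norm_int_le_pow_iff_dvd` or `Padic.norm_int_le_pow_iff_dvd`), and `2e - 1 ≥ e + 1`. -/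
def S_PLC : Prop := ∀ (p : ℕ) [Fact p.Prime] (C : Type) [CommGroup C] [Finite C],
    (∀ (u v : (MonoidAlgebra ℤ C)ˣ) (c : C), plog p (u * v) c = plog p u c + plog p v c) ∧
    (∀ c : C, plog p (1 : (MonoidAlgebra ℤ C)ˣ) c = 0) ∧
    (∀ (u : (MonoidAlgebra ℤ C)ˣ) (c : C), plog p u⁻¹ c = - plog p u c) ∧
    (∀ (u : (MonoidAlgebra ℤ C)ˣ) (k : ℕ) (c : C), plog p (u ^ k) c = k * plog p u c) ∧
    (∀ (C' : Type) [CommGroup C'] [Finite C'] (ψ : C →* C'), Function.Injective ψ →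
      ∀ u : (MonoidAlgebra ℤ C)ˣ, (∀ c : C, plog p (uG ψ u) (ψ c) = plog p u c) ∧
        ∀ c' : C', c' ∉ Set.range ψ → plog p (uG ψ u) c' = 0) ∧
    (∀ u : (MonoidAlgebra ℤ C)ˣ, (∀ c : C, plog p u c = 0) → ∃ K : ℕ, 0 < K ∧ u ^ K = 1)

/-- NRM (uses PLB, PLC): the norm to the group ring of a subgroup.

Proof.  `D = zpowers d`, `A = ℤ[C]`, `B = ℤ[D]` (commutative rings), `Q = C ⧸ D` (finite), `s : Q → C` the section
`Quotient.out`.  The representation `M : A →ₐ[ℤ] Matrix Q Q B` (`MonoidAlgebra.lift`) with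
`M (c) i j = single (s_i⁻¹ c s_j) 1` if `s_i⁻¹ c s_j ∈ D` (equivalently `i = c • j`) and `0` otherwise: it is
multiplicative on `C`: `(M c * M c') i j` has only the term `k = c' • j` (for it `s_k⁻¹ c' s_j ∈ D`), which is
`single (s_i⁻¹ c s_k * s_k⁻¹ c' s_j) 1` if `s_i⁻¹ c s_k ∈ D`, and then (only then) `s_i⁻¹ c c' s_j ∈ D`.
Trace: `tr (M c) = κ • c` if `c ∈ D`, `0` otherwise, `κ = card Q > 0`: `s_i⁻¹ c s_i = c` (commutative).  So
`(tr (M x))_d = κ x_d` for `d ∈ D`.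
`w0 = det (M v)` is a unit of `B` (`Units.map`), and `w = ` its image in `A` (`∈ UnS d`).  Let `E = pE p C`,
`n = E p^b`: `v^n = 1 + p^(b+1) x` (PLB (1), PLA, or from the definition of `IsPlog`...), so
`w0^n = det (1 + p^(b+1) M x) = 1 + p^(b+1) tr (M x) + p^(2b+2) (..)` (`Matrix.det_one_add_smul`), and
`(w0^n - 1)_d / n = κ (v^n - 1)_d / n + p^(2b+2) (..)_d / (E p^b) → κ plog p v d`.  For `c ∉ D` the coefficients of
`w^n - 1` at `c` vanish.  So `IsPlog p w l` with the `l` of the statement; uniqueness (PLB). -/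
def S_NRM : Prop := ∀ (p : ℕ) [Fact p.Prime] (C : Type) [CommGroup C] [Finite C] (d : C)
    (v : (MonoidAlgebra ℤ C)ˣ), ∃ (w : (MonoidAlgebra ℤ C)ˣ) (κ : ℕ), w ∈ UnS d ∧ 0 < κ ∧
      (∀ c ∈ Subgroup.zpowers d, plog p w c = κ * plog p v c) ∧
      ∀ c ∉ Subgroup.zpowers d, plog p w c = 0

/-- KER (uses PLC, NRM): units whose logarithm is supported on smaller subgroups.

Proof.  Claim, by `Finset.induction_on S`: for every `v` there are `K, K' > 0` and `w : C → units` with `w d ∈ UnS d`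
for all `d ∈ S` such that `v' = v^K * ∏ d ∈ S, w d` satisfies `plog v' c = 0` if `c ∈ zpowers d` for some `d ∈ S` and
`plog v' c = K' plog v c` otherwise.  Step `insert d S`: NRM for `v'` and `d` gives `w0 ∈ UnS d`, `κ > 0`; then
`v'' = v'^κ * w0⁻¹ = v^(K κ) * (∏ (w d')^κ) * w0⁻¹` has `plog v'' c = κ plog v' c - κ plog v' c = 0` on `zpowers d` and
`κ plog v' c` outside (PLC).  Under the hypothesis of the lemma `plog v' = 0` everywhere, so `v'^K'' = 1` (PLC):
`v^(K K'') = ∏ d ∈ S, ((w d)^K'')⁻¹`, and `UnS d` is a subgroup. -/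
def S_KER : Prop := ∀ (p : ℕ) [Fact p.Prime] (C : Type) [CommGroup C] [Finite C] (S : Finset C)
    (v : (MonoidAlgebra ℤ C)ˣ), (∀ c : C, (∀ d ∈ S, c ∉ Subgroup.zpowers d) → plog p v c = 0) →
    ∃ (K : ℕ) (w : C → (MonoidAlgebra ℤ C)ˣ), 0 < K ∧ (∀ d ∈ S, w d ∈ UnS d) ∧
      v ^ K = ∏ d ∈ S, w d

/-! ## Modules EXT, TTH -/

/-- EXT: extension of a homomorphism.

Proof: `g` factors through `f`: if `∑ q_i f(a_i) = 0` then `∑ q_i g(a_i) = 0` (`q : A →₀ ℚ`; multiply by a common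
denominator `n > 0` of the `q_i`, `n q_i = n_i`: `0 = ∑ n_i f(a_i) = f (∏ a_i^(n_i))` with integers `n_i`, so
`0 = g (∏ a_i^(n_i)) = ∑ n_i g(a_i) = n ∑ q_i g(a_i)`; `f` and `g` are homomorphisms `A → V`, `A → ℚ`, also for
inverses).  Now `exists_fun` (Avg.lean) for `a := f`, `b := g`. -/
def S_EXT : Prop := ∀ (A V : Type) [CommGroup A] [AddCommGroup V] [Module ℚ V] (f : A → V)
    (g : A → ℚ), (∀ a b, f (a * b) = f a + f b) → (∀ a b, g (a * b) = g a + g b) →
    (∀ a, f a = 0 → g a = 0) → ∃ T : V →ₗ[ℚ] ℚ, ∀ a, T (f a) = g a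

/-- TTH (uses KER, PLC, EXT): a functional which vanishes on the symbols of smaller order factors through the
logarithms at the generators.

Proof: EXT for `A = (MonoidAlgebra ℤ (Cyc N))ˣ`, `f v c = if zpowers c = ⊤ then plog p v c else 0`,
`g v = Λ (sym1 (φ gen) e (uG φ v))`.  Both are additive: PLC, and `sym1_mul` (Rel1.lean; `Adm1 (φ gen) (uG φ v)`:
`φ gen` has finite order, and `φ` factors through `zpowers (φ gen)`, see also BRF).  If `f v = 0`: KER with `S` the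
set of the elements `d` of `Cyc N` with `zpowers d ≠ ⊤` (if `c ∉ zpowers d` for all `d ∈ S` then `c ∉ S`, so
`plog p v c = f v c = 0`): `v^K = ∏ d ∈ S, w d`, `w d ∈ UnS d`.  So `K g(v) = ∑ g(w d)`, and `g (w d) = 0`:
`uG φ (w d) ∈ UnS (φ d)` (`φ` maps `zpowers d` to `zpowers (φ d)`), so `Adm1 (φ d) (uG φ (w d))`, and
`sym1_res` gives `sym1 (φ gen) e (uG φ (w d)) = sym1 (φ d) (..) (uG φ (w d))` (`φ d ∈ zpowers (φ gen)`), which is in
`LowN m G N` because `φ d` has order `orderOf d < N` (`φ` injective, `orderOf_injective`; `card (Cyc N) = N`,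
`orderOf d = N` would imply `zpowers d = ⊤`). -/
def S_TTH : Prop := ∀ (m : ℕ) (G : Type) [Group G] (N : ℕ) [NeZero N] (p : ℕ) [Fact p.Prime]
    (φ : Cyc N →* G), Function.Injective φ → ∀ (e : HQ m (Cen (φ (gen N))))
    (Λ : Src1 m G →ₗ[ℚ] ℚ), (∀ y ∈ LowN m G N, Λ y = 0) → by
      classical
      exact ∃ T : (Cyc N → ℚ_[p]) →ₗ[ℚ] ℚ, ∀ v : (MonoidAlgebra ℤ (Cyc N))ˣ,
        T (fun c => if Subgroup.zpowers c = ⊤ then plog p v c else 0) =
          Λ (sym1 (φ (gen N)) e (uG φ v))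

/-! ## Modules UCZ, FAV: families of cocycles from functionals -/

/-- UCZ (uses UCT): universal coefficients, including degree `0`.

Proof: for `m = m' + 1` this is `S_UCT` (`DenG` unfolds to its conclusion).  For `m = 0`: `Fin 0 → P` has one
element `default`; let `z1 : ZC ℚ 0 P` be the cycle with `ch z1 = single default 1` (every chain of degree `0` is
a cycle; e.g. take any `c ≠ 0`...: existence: the map `ch ℚ 0 P` is surjective, see `exists_ch` and its proof, or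
`HomologicalComplex.iCycles` is an isomorphism in degree `0`; compare `exists_ch` in Chain.lean).
`lam (cl z1) = a / D`, `a` an integer, `D > 0`.  Put `f = fun _ => a`.  For `y : IC ℚ 1 P`: `pair f (dI y) = 0`
because `dI (single g q) = single default q - single default q = 0` (`dI_single`, `Fin.contractNth` into
`Fin 0 → P`, a subsingleton).  For `x : ZC ℚ 0 P`: `ch x = single default q = ch (q • z1)`, so `cl x = q • cl z1`
(`cl_congr`), `D * lam (cl x) = q * a = pair f (ch x)`. -/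
def S_UCZ : Prop := (∀ (P : Type) [Group P] (z : IC ℚ 0 P), ∃ x, ch ℚ 0 P x = z) ∧
    ∀ (P : Type) [Group P] (m : ℕ), Module.Finite ℤ (Hk ℤ m P) →
      ∀ lam : Hk ℚ m P →ₗ[ℚ] ℚ, DenG m lam

/-- FAV (uses FCA, UCZ): the family of cocycles of a functional.

Proof.  Degree `m + 1`: FCA (`DenL m lam` is `DenG (m + 1) lam`) gives `F`.  Let `P, j, x, κ, z` be as in the
statement and `y = x⁻¹ * t * x`.  `j z` commutes with `y` for all `z : P` (as `κ z ∈ Cen t`), so `j` defines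
`ι : P →* Cen (x⁻¹ * t * x⁻¹⁻¹)`.  With `(z', ..)` from `Hk.map_cl ι z` and `psi_map`:
`evc j F (psi (ch z)) y = evc (subtype) F (psi (ch z')) y` (`evc` of an `hmap` is `evc` of the composite map),
which by FCA for `x⁻¹` is `lam (Hk.map (cHom x⁻¹⁻¹ H) (cl z')) = lam (Hk.map κ (cl z))`
(`Hk.map_comp`; the composite homomorphism is `κ`).
Degree `0`: let `z1` be the cycle of `Cen t` with `ch z1 = single default 1` (UCZ), `r = lam (cl z1)`;
`F a y = r` if `y = x * t * x⁻¹` for some `x`, `0` otherwise.  It is a `GCoch 0`: `coc` is `r - r = 0`, `den`: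
`D * r = pair f (ch z1)` is an integer by `DenG`.  Value: `ch z = single default q`, `evc j F (psi (ch z)) y =
q * r`, and `Hk.map κ (cl z) = q • cl z1` (`Hk.map_cl`, `cl_congr`). -/
def S_FAV : Prop := ∀ (G : Type) [Group G] (m : ℕ) (t : G) (lam : Hk ℚ m (Cen t) →ₗ[ℚ] ℚ),
    DenG m lam → ∃ F : (Fin (m + 1) → G) → G → ℚ, GCoch m (fun y => ∃ x : G, y = x * t * x⁻¹) F ∧
      ∀ (P : Type) [Group P] (j : P →* G) (x : G) (κ : P →* Cen t),
        (∀ z, (κ z : G) = x * j z * x⁻¹) → ∀ z : ZC ℚ m P,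
        evc j F (psi ℚ m P (ch ℚ m P z)) (x⁻¹ * t * x) = lam (Hk.map ℚ m κ (cl ℚ m P z))

/-! ## Modules TPA, TPB, TPD, TPC: the symbols with a fixed `φ` -/

/-- TPA: conjugation by an element of the normaliser of `⟨t⟩`, `t = φ (gen N)`.

Proof: `sym1_conj` (Rel1.lean) with `h = t`: `sym1 t C (uG φ v) = sym1 (x t x⁻¹) (HQ.map (cHom x (cHom_conj x t)) C)
(gU x * uG φ v * (gU x)⁻¹)`.  The unit: `gU x * uG φ v * (gU x)⁻¹ = uG ((MulAut.conj x).toMonoidHom.comp φ) v`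
(`Units.ext`, induction on the element of `ℤ[Cyc N]`), and `(MulAut.conj x).toMonoidHom.comp φ =
φ.comp (powMonoidHom a)` (`cyc_ext`), so it is `uG φ (uG (powMonoidHom a) v)`.  Prove for a general `h'` with
`h' = x * t * x⁻¹` (so that one can substitute) that the symbol is `sym1 h' (HQ.map (κ') C) u'` with
`κ' : Cen t →* Cen h'`, `z ↦ x z x⁻¹`, and take `h' = t ^ a ∈ zpowers t`.  Finally `sym1_res` with `h = t`,
`h' = t ^ a` and the class `HQ.map (cHom x Hx) C`: `sym1 (t^a) (HQ.map (cHom 1 ..) (HQ.map (cHom x Hx) C)) u' =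
sym1 t (HQ.map (cHom x Hx) C) u'`, with `Adm1 (t^a) u'` (from `Adm1 t (uG φ v)` by conjugation; or because
`t ^ a = x t x⁻¹` generates `zpowers t`), and the composite of the two homomorphisms is `κ'`. -/
def S_TPA : Prop := ∀ (m : ℕ) (G : Type) [Group G] (N : ℕ) [NeZero N] (φ : Cyc N →* G),
    Function.Injective φ → ∀ (C : HQ m (Cen (φ (gen N)))) (v : (MonoidAlgebra ℤ (Cyc N))ˣ) (a : ℕ)
    (x : G), x * φ (gen N) * x⁻¹ = φ (gen N) ^ a →
    ∀ Hx : ∀ z ∈ Cen (φ (gen N)), x * z * x⁻¹ ∈ Cen (φ (gen N)),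
    sym1 (φ (gen N)) (HQ.map m (cHom x Hx) C) (uG φ (uG (powMonoidHom a) v)) =
      sym1 (φ (gen N)) C (uG φ v)

/-- TPB (uses FAV): the evaluation for the conjugates of `φ c`, `c` a generator.

Proof: `t = φ (gen N)`, `t' = φ c`; `Cen t = Cen t'` as sets (`c` is a power of `gen N` and conversely).  FAV for
`t'` and `lam' = lam ∘ Hk.map (cHom 1 (cHom_pow t' ..)) : Hk m (Cen t') → Hk m (Cen t) → ℚ`, which satisfies `DenG`:
pull back the integral cocycle `f` of `lam` (`f' g = f (κ ∘ g)`; `pair f' y = pair f (IC.map κ y)`, `IC.map` commutes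
with `dI` (see `Hk.map_cl`, or prove it from `dI_single`), `Hk.map_cl`).  For `x` with `x * φ c' * x⁻¹ = φ c` one has
`φ c' = x⁻¹ * t' * x` and for `P = Cen t`, `j = subtype`, `κ z = x z x⁻¹ ∈ Cen t'` (by `Hx`):
`evc .. (φ c') = lam' (Hk.map κ (cl z)) = lam (Hk.map (cHom x Hx) (cl z))` (`Hk.map_comp`). -/
def S_TPB : Prop := ∀ (m : ℕ) (G : Type) [Group G] (N : ℕ) [NeZero N] (φ : Cyc N →* G),
    Function.Injective φ → ∀ (lam : Hk ℚ m (Cen (φ (gen N))) →ₗ[ℚ] ℚ), DenG m lam →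
    ∀ c : Cyc N, Subgroup.zpowers c = ⊤ →
    ∃ F : (Fin (m + 1) → G) → G → ℚ, GCoch m (fun y => ∃ x : G, y = x * φ c * x⁻¹) F ∧
      ∀ (z : ZC ℚ m (Cen (φ (gen N)))) (c' : Cyc N) (x : G), x * φ c' * x⁻¹ = φ c →
      ∀ Hx : ∀ z ∈ Cen (φ (gen N)), x * z * x⁻¹ ∈ Cen (φ (gen N)),
        evc (fun z : Cen (φ (gen N)) => (z : G)) F (psi ℚ m _ (ch ℚ m _ z)) (φ c') =
          lam (Hk.map ℚ m (cHom x Hx) (cl ℚ m _ z))

/-- TPD (uses TPB, PLC): the evaluation of the hypothesis.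

Proof.  `t = φ (gen N)`.  TPB for `lam` and `c` gives `F`, which satisfies the condition of the hypothesis `(H)`
(`y' = x * φ c * x⁻¹` has order `N`: `orderOf_conj`, `orderOf_injective`, and `x⁻¹ y' x = φ c ∈ zpowers t`; `GCoch` is
monotone in `S`).  So `∑_k r_k ∑_c' evc F (psi (ch (z k))) (φ c') * plog p (v k) c' = 0`.  It remains to see that for
every `k` the sum over `c'` is the sum over `w ∈ W` of `lam (κ_w C_k) * plog p (σ_w (v k)) c`, `C_k = cl (z k)`,
`σ_w = uG (powMonoidHom w.val)`.  The `c'` with `evc F .. (φ c') ≠ 0` satisfy `φ c' = x * φ c * x⁻¹` for some `x`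
(`GCoch.supp`: some value `F a (φ c') ≠ 0`, otherwise `evc` is `0`), so they have order `N` and are generators,
`c = c' ^ w.val` for a unit `w` (`exists_unit_of_zpowers`, used in Asm.lean), and then `w ∈ W`: with `x' = x⁻¹`,
`x' * φ c' * x'⁻¹ = φ c = (φ c') ^ w.val`, and `t` is a power of `φ c'`, so `x' * t * x'⁻¹ = t ^ w.val`.  Conversely for
`w ∈ W` let `c' = c ^ (w⁻¹).val`, so `c' ^ w.val = c` (`pow_val_mul`, `cyc_pow`); as `φ c'` is a power of `t`,
`X w * φ c' * (X w)⁻¹ = (φ c') ^ w.val = φ c`, and TPB with `x = X w` (`cHom x Hx = κ w`) gives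
`evc F .. (φ c') = lam (Hk.map (κ w) C_k)`.  Different `w` give different `c'`.  And
`plog p (σ_w v) c = plog p v c'` (PLC for the injective homomorphism `powMonoidHom w.val : Cyc N →* Cyc N`, see
`inj_pw` in Avg.lean).  `Finset.sum_bij` or `Finset.sum_subset` and `Finset.sum_image`. -/
def S_TPD : Prop := ∀ (m : ℕ) (G : Type) [Group G] (N : ℕ) [NeZero N] (p : ℕ) [Fact p.Prime]
    (φ : Cyc N →* G), Function.Injective φ →
    ∀ (K : Type) (s : Finset K) (r : K → ℚ) (z : K → ZC ℚ m (Cen (φ (gen N))))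
      (v : K → (MonoidAlgebra ℤ (Cyc N))ˣ),
    (∀ F : (Fin (m + 1) → G) → G → ℚ,
      GCoch m (fun y => orderOf y = N ∧ ∃ x : G, x * y * x⁻¹ ∈ Subgroup.zpowers (φ (gen N))) F →
      ∑ k ∈ s, (r k : ℚ_[p]) * ∑ c : Cyc N,
        ((evc (fun z : Cen (φ (gen N)) => (z : G)) F (psi ℚ m _ (ch ℚ m _ (z k))) (φ c) : ℚ) : ℚ_[p]) *
          plog p (v k) c = 0) →
    ∀ (W : Finset (ZMod N)ˣ) (X : (ZMod N)ˣ → G)
      (κ : (ZMod N)ˣ → (Cen (φ (gen N)) →* Cen (φ (gen N)))),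
    (∀ w : (ZMod N)ˣ, (∃ x : G, x * φ (gen N) * x⁻¹ = φ (gen N) ^ (w : ZMod N).val) → w ∈ W) →
    (∀ w ∈ W, X w * φ (gen N) * (X w)⁻¹ = φ (gen N) ^ (w : ZMod N).val) →
    (∀ w ∈ W, ∀ z, (κ w z : G) = X w * z * (X w)⁻¹) →
    ∀ lam : Hk ℚ m (Cen (φ (gen N))) →ₗ[ℚ] ℚ, DenG m lam → ∀ c : Cyc N, Subgroup.zpowers c = ⊤ →
    ∑ k ∈ s, (r k : ℚ_[p]) * ∑ w ∈ W, ((lam (Hk.map ℚ m (κ w) (cl ℚ m _ (z k))) : ℚ) : ℚ_[p]) *
      plog p (uG (powMonoidHom (w : ZMod N).val) (v k)) c = 0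

/-- TPC (uses TTH, TPA, TPD): the symbols `[φ gen, cl (z k), φ (v k)]` with a fixed `φ`.

Proof.  `t = φ (gen N)`, `y = ∑ r_k sym1 t C_k (uG φ v_k)`, `C_k = cl (z k)`.  If `y ∉ LowN` there is a linear
`Λ : Src1 m G → ℚ` which vanishes on `LowN m G N` with `Λ y ≠ 0` (`Submodule.exists_le_ker_of_notMem`, used in
FinB.lean).  We show `Λ y = 0`.
Let `W = {w : (ZMod N)ˣ | ∃ x, x * t * x⁻¹ = t ^ (w : ZMod N).val}` (a finite set, classical), choose `X w` for
`w ∈ W`, and let `κ w z = X w * z * (X w)⁻¹` (if `z` commutes with `t` then `x z x⁻¹` commutes with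
`x t x⁻¹ = t^w`, and `t` is a power of `t^w` as `w` is a unit: `Hx`), `κ w = 1` for `w ∉ W`; `κ w = cHom (X w) Hx`.
`σ_w = uG (powMonoidHom (w : ZMod N).val)`.
(1) TPA: `Λ (sym1 t C (uG φ v)) = Λ (sym1 t (κ_w C) (uG φ (σ_w v)))` for `w ∈ W`; so
`|W| Λ y = ∑_k ∑_(w ∈ W) r_k Λ (sym1 t (κ_w C_k) (uG φ (σ_w v_k)))`, and `1 ∈ W`, `|W| > 0`.
(2) Let `e_l` (`l ∈ I`) be a basis of `HQ m (Cen t)` (`Module.Basis.ofVectorSpace`), `a_l` the coordinates, `T_l` from
TTH for `e_l`, `P v c = if zpowers c = ⊤ then plog p v c else 0`.  As `sym1` is linear in the class (`sym1L`),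
`Λ (sym1 t C (uG φ v)) = ∑_l a_l(C) * T_l (P v)` (sum over a finite set `L` of indices which contains the
supports of all the `repr (κ_w C_k)`, `k ∈ s`, `w ∈ W`: `Finset.biUnion`, `Finsupp.sum_of_support_subset`).
(3) So `|W| Λ y = ∑_(l ∈ L) T_l (∑_k ∑_w (r_k * a_l (κ_w C_k)) • P (σ_w v_k))`, and it is enough that for every `l`
and `c` the value of the argument at `c` is `0`.  It is if `c` is not a generator, and for a generator `c` it is TPD
with `lam = a_l`. -/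
def S_TPC : Prop := ∀ (m : ℕ) (G : Type) [Group G] (N : ℕ) [NeZero N] (p : ℕ) [Fact p.Prime]
    (φ : Cyc N →* G), Function.Injective φ →
    (∀ lam : Hk ℚ m (Cen (φ (gen N))) →ₗ[ℚ] ℚ, DenG m lam) →
    ∀ (K : Type) (s : Finset K) (r : K → ℚ) (z : K → ZC ℚ m (Cen (φ (gen N))))
      (v : K → (MonoidAlgebra ℤ (Cyc N))ˣ),
    (∀ F : (Fin (m + 1) → G) → G → ℚ,
      GCoch m (fun y => orderOf y = N ∧ ∃ x : G, x * y * x⁻¹ ∈ Subgroup.zpowers (φ (gen N))) F →
      ∑ k ∈ s, (r k : ℚ_[p]) * ∑ c : Cyc N,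
        ((evc (fun z : Cen (φ (gen N)) => (z : G)) F (psi ℚ m _ (ch ℚ m _ (z k))) (φ c) : ℚ) : ℚ_[p]) *
          plog p (v k) c = 0) →
    ∑ k ∈ s, r k • sym1 (φ (gen N)) (cl ℚ m _ (z k)) (uG φ (v k)) ∈ LowN m G N

/-! ## Modules REP, STP, IND -/

/-- REP: representatives of the conjugacy classes of cyclic subgroups of order `N`, and every symbol of order
`≤ N` comes from the data `Sy1`.

Proof.  (a) On the elements of order `N` the relation `h ~ h'` iff `∃ x, x * h * x⁻¹ ∈ zpowers h'` is an equivalence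
relation (the orders are equal, so `x h x⁻¹` generates `zpowers h'`); `T` = the image of a choice of representatives
(`Quotient.out` for the setoid on `{h // orderOf h = N}`).
(b) Let `Adm1 h u`, `N' = orderOf h > 0`; `exists_cyc` (Asm.lean) gives `φ : Cyc N' →* G`, `φ gen = h`, injective
(see FinB.lean); `subst h`; `u ∈ UnS h`: `u` comes from a unit of `ℤ[zpowers h]`, and `Cyc N' ≃* zpowers (φ gen)`
via `φ` (`MulEquiv` from an injective homomorphism onto its range), so `u = uG φ u'`; `c = cl z` (`exists_cl`).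
(c) If `orderOf h = N`: take `t ∈ T` and `x` with `x * h * x⁻¹ ∈ zpowers t`.  `sym1_conj`: replace `h` by
`h' = x * h * x⁻¹` of order `N`, so `zpowers h' = zpowers t`.  Then `sym1 h' c' u' = sym1 t c'' u'` by `sym1_res` with
`c'' = HQ.map (cHom 1 ..) c' ∈ HQ m (Cen t)` (`t ∈ zpowers h'`), `HQ.map (cHom 1 ..) c'' = c'` (`HQ.map_comp`, the
composite is the identity), `UnS h' = UnS t` (`unS_mono`).  Then (b) for `t`. -/
def S_REP : Prop := ∀ (m : ℕ) (G : Type) [Group G] (N : ℕ), 0 < N → ∃ T : Set G,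
    (∀ t ∈ T, orderOf t = N) ∧
    (∀ t ∈ T, ∀ t' ∈ T, ∀ x : G, x * t * x⁻¹ ∈ Subgroup.zpowers t' → t = t') ∧
    ∀ (h : G) (c : HQ m (Cen h)) (u : (MonoidAlgebra ℤ G)ˣ), Adm1 h u → orderOf h ≤ N →
      ∃ s : Sy1 m G, s.val = sym1 h c u ∧ orderOf (s.φ (gen s.N)) = s.N ∧
        (s.N < N ∨ (s.N = N ∧ s.φ (gen s.N) ∈ T))

/-- STP (uses REP, TPC): the induction step.

Proof.  `T` from REP for `N`, `A = {s : Sy1 m G | orderOf (s.φ gen) = s.N ∧ (s.N < N ∨ (s.N = N ∧ s.φ gen ∈ T))}`.  By REP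
`y ∈ LowN m G (N+1) ≤ span (Sy1.val '' A)`, so there is `D : Sy1 m G →₀ ℚ` supported in `A` with `val1 D = y`
(`Finsupp.mem_span_image_iff_linearCombination`).  For `t ∈ T` let `D_t` be the restriction of `D` to the `s` with
`s.N = N` and `s.φ gen = t` (`Finsupp.filter`).  Then `D = D.filter (s.N < N) + ∑_(t ∈ T') D_t`, `T'` the finite set
of the `s.φ gen`, `s ∈ D.support` with `s.N = N`; `val1 (D.filter (s.N < N)) ∈ LowN m G N`: every `s.val` with
`s.N < N` is in `LowN` (`Adm1 (φ gen) (uG φ u)`, see TTH/BRF).  So it is enough that `val1 D_t ∈ LowN m G N` for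
`t ∈ T'`.  Fix `s0 ∈ D.support` with `s0.N = N`, `s0.φ gen = t`; let `φ = s0.φ` (after `subst`/`obtain` for `s0.N = N`).
Every `s ∈ D_t.support` has `s.N = N` and `s.φ = φ` (`cyc_ext`); write `D_t` in the form of TPC: `K = Sy1 m G`,
`s = D_t.support`, `r = D_t`, and `z`, `v` by cases (for `s.N = N` and `s.φ = φ` cast; to avoid casts: prove that for
all `s` with `s.N = N`, `s.φ gen = t` there are `z : ZC ℚ m (Cen (φ (gen N)))`, `v : (MonoidAlgebra ℤ (Cyc N))ˣ` with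
`s.val = sym1 (φ (gen N)) (cl z) (uG φ v)` and `∀ p F, s.ev p F = ∑ c, evc .. (psi (ch z)) (φ c) * plog p v c` (destructure
`s`, `subst`), and choose).  The hypothesis of TPC for `F : GCoch m (fun y => orderOf y = N ∧ ∃ x, x * y * x⁻¹ ∈ zpowers t)`:
`ZRel y` for `D`, `N1 = N`, gives `ev1 p F D = 0`, and `s.ev p F = 0` for `s ∈ A` not in the `t`-part: if `s.N < N` then
`φ_s c` has order `≤ s.N < N` (it divides `s.N`); if `s.N = N` and `s.φ gen = t' ≠ t`, `t' ∈ T`: if `evc F .. (φ_s c) ≠ 0`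
then some `F a (φ_s c) ≠ 0`, `orderOf (φ_s c) = N` so `φ_s c` generates `zpowers t'`, and `x * φ_s c * x⁻¹ ∈ zpowers t`
gives `x * t' * x⁻¹ ∈ zpowers t`, `t' = t`.  So `ev1 p F D_t = 0`, which is the hypothesis.  `DenG`: by the hypothesis,
as `t` has finite order `N > 1`, `t ≠ 1`.  `p` = a prime divisor of `N`. -/
def S_STP : Prop := ∀ (m : ℕ) (G : Type) [Group G],
    (∀ h : G, IsOfFinOrder h → h ≠ 1 → ∀ lam : Hk ℚ m (Cen h) →ₗ[ℚ] ℚ, DenG m lam) →
    ∀ N : ℕ, 1 < N → ∀ y ∈ LowN m G (N + 1), ZRel y → y ∈ LowN m G N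

/-- IND (uses STP): the conclusion.

Proof.  By `exists_rep1` (Rel1.lean) `y ∈ LowN m G N` for some `N ≥ 2` (invalid symbols are `0`, the others have
`orderOf h < N` for `N` larger than all the orders; `LowN` is monotone in `N`).  By STP, descending, `y ∈ LowN m G 2`.
`LowN m G 2 = ⊥`: if `Adm1 h u` and `orderOf h < 2` then `h = 1` (`orderOf h ≠ 0`), and `u` comes from a unit of
`ℤ[zpowers 1]`, the group ring of the trivial group, which is isomorphic to `ℤ` (coefficient at `1`): its units are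
`±1`, so `u^2 = 1` and `2 • sym1 1 c u = sym1 1 c (u^2) = 0` (`sym1_pow`, `sym1_one`). -/
def S_IND : Prop := ∀ (m : ℕ) (G : Type) [Group G],
    (∀ h : G, IsOfFinOrder h → h ≠ 1 → ∀ lam : Hk ℚ m (Cen h) →ₗ[ℚ] ℚ, DenG m lam) →
    ∀ y : Src1 m G, ZRel y → y = 0

end Pool.Agent.FJA
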