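import Pool.Agent.AUK.FJA.SDefsD

/-!
# Classes which are not detected by integral cohomology
-/

set_option autoImplicit false

open Pool.Agent.Lib25

noncomputable section

namespace Pool.Agent.FJA

/-- A linear functional on `H_m(P; ℚ)` is integral if it has integral values on the classes of the
cycles with integral coefficients, i.e. if it comes from a homomorphism `H_m(P; ℤ) → ℤ`. -/
def IsInt (m : ℕ) (P : Type) [Group P] (f : HQ m P →ₗ[ℚ] ℚ) : Prop :=
  ∀ z : ZQ m P, (∀ g, ∃ k : ℤ, hch m P z g = k) → ∃ k : ℤ, f (hcl m P z) = k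

/-- The class `c` is undetected: all integral functionals vanish on it. -/
def Und (m : ℕ) (P : Type) [Group P] (c : HQ m P) : Prop :=
  ∀ f : HQ m P →ₗ[ℚ] ℚ, IsInt m P f → f c = 0

/-- The subspace of `SrcN n G` spanned by the symbols `[p, h, c]` with `h ≠ 1` of finite order and
`c` undetected. -/
def UndN (n : ℕ) (G : Type) [Group G] : Submodule ℚ (SrcN n G) :=
  Submodule.span ℚ {x | ∃ (p : ℕ) (h : G) (c : HQ (n + 1) (Cen h)),
    IsOfFinOrder h ∧ h ≠ 1 ∧ Und (n + 1) (Cen h) c ∧ x = symN p h c}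

/-- The subspace of `Src1 m G` spanned by the symbols `[h, c, u]` with `h ≠ 1` of finite order and
`c` undetected. -/
def Und1 (m : ℕ) (G : Type) [Group G] : Submodule ℚ (Src1 m G) :=
  Submodule.span ℚ {y | ∃ (h : G) (c : HQ m (Cen h)) (u : (MonoidAlgebra ℤ G)ˣ),
    IsOfFinOrder h ∧ h ≠ 1 ∧ Und m (Cen h) c ∧ y = sym1 h c u}

end Pool.Agent.FJA
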