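import Pool.Agent.AUK.FJA.Rel1
import Pool.Agent.AUK.FJA.St7

/-!
# Module IND: the conclusion of the induction on the order
-/

set_option autoImplicit false
set_option linter.unusedSectionVars false

open Matrix Pool.Agent.WhK Pool.Agent.Lib25 CategoryTheory

noncomputable section

namespace Pool.Agent.FJA.IND

variable {m : ℕ} {G : Type} [Group G]

/-- Every element lies in some `LowN`. -/
theorem exists_lowN (y : Src1 m G) : ∃ N : ℕ, 2 ≤ N ∧ y ∈ LowN m G N := by
  obtain ⟨x, hx⟩ := exists_rep1 y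
  refine ⟨(∑ s ∈ x.support, orderOf s.h) + 2, Nat.le_add_left _ _, ?_⟩
  rw [hx]
  refine Submodule.sum_mem _ fun s hs => Submodule.smul_mem _ _ ?_
  by_cases ha : Adm1 s.h s.u
  · refine Submodule.subset_span ⟨s.h, s.c, s.u, ha, ?_, rfl⟩
    have h1 : orderOf s.h ≤ ∑ s ∈ x.support, orderOf s.h :=
      Finset.single_le_sum (f := fun s : Sym1 m G => orderOf s.h) (fun _ _ => Nat.zero_le _) hs
    omega
  · rw [sym1_invalid _ _ _ ha]
    exact Submodule.zero_mem _

/-- The square of a unit of the integral group ring of the trivial group is `1`. -/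
theorem unit_sq {H : Type} [Group H] [Subsingleton H] (v : (MonoidAlgebra ℤ H)ˣ) : v ^ 2 = 1 := by
  have key : ∀ x : MonoidAlgebra ℤ H, ∃ a : ℤ, x = algebraMap ℤ (MonoidAlgebra ℤ H) a := by
    intro x
    induction x using MonoidAlgebra.induction_linear with
    | zero => exact ⟨0, (map_zero _).symm⟩
    | add x y hx hy =>
      obtain ⟨a, rfl⟩ := hx
      obtain ⟨b, rfl⟩ := hy
      exact ⟨a + b, (map_add _ _ _).symm⟩
    | single g c =>
      refine ⟨c, ?_⟩
      rw [Subsingleton.elim g 1]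
      rfl
  obtain ⟨a, ha⟩ := key v.val
  let φ : MonoidAlgebra ℤ H →+* ℤ := (MonoidAlgebra.lift ℤ ℤ H (1 : H →* ℤ)).toRingHom
  have hu : IsUnit a := by
    have h1 : IsUnit (φ v.val) := v.isUnit.map φ
    rw [ha] at h1
    have h2 : φ (algebraMap ℤ (MonoidAlgebra ℤ H) a) = a := by
      have h3 := eq_intCast (φ.comp (algebraMap ℤ (MonoidAlgebra ℤ H))) a
      rwa [RingHom.comp_apply, Int.cast_id] at h3
    rwa [h2] at h1
  have h3 : a ^ 2 = 1 := by
    rcases Int.isUnit_iff.1 hu with h | h <;> simp [h]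
  apply Units.ext
  rw [Units.val_pow_eq_pow_val, ha, ← map_pow, h3, map_one, Units.val_one]

theorem low2 : LowN m G 2 = ⊥ := by
  rw [LowN, Submodule.span_eq_bot]
  rintro x ⟨h, c, u, ha, ho, rfl⟩
  have h0 : 0 < orderOf h := ha.1.orderOf_pos
  have h1 : orderOf h = 1 := by omega
  rw [orderOf_eq_one_iff] at h1
  subst h1
  obtain ⟨v, hv⟩ := ha.2
  have : Subsingleton (Subgroup.zpowers (1 : G)) := by
    rw [Subgroup.zpowers_one_eq_bot]
    infer_instance
  have h2 : v ^ 2 = 1 := unit_sq v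
  have h3 := sym1_pow 1 c u ha 2
  rw [← hv, ← map_pow, h2, map_one, sym1_one, hv] at h3
  exact (smul_eq_zero.1 h3.symm).resolve_left (by norm_num)

end Pool.Agent.FJA.IND

namespace Pool.Agent.FJA

theorem t_IND (hstp : S_STP) : S_IND := by
  intro m G _ hden y hy
  obtain ⟨N, hN, hyN⟩ := IND.exists_lowN y
  have key : ∀ k : ℕ, y ∈ LowN m G (k + 2) → y ∈ LowN m G 2 := by
    intro k
    induction k with
    | zero => exact id
    | succ k ih =>
      intro h
      exact ih (hstp m G hden (k + 2) (by omega) y h hy)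
  have h2 : y ∈ LowN m G 2 := by
    obtain ⟨k, rfl⟩ := Nat.exists_eq_add_of_le' hN
    exact key k hyN
  rw [IND.low2] at h2
  exact (Submodule.mem_bot ℚ).1 h2

end Pool.Agent.FJA
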