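import Pool.Agent.AUK.FJA.Asm
import Pool.Agent.AUK.FJA.Rel1
import Pool.Agent.AUK.FJA.St7

/-!
# Module REP: representatives and the data of symbols
-/

set_option autoImplicit false

open Matrix Pool.Agent.WhK Pool.Agent.Lib25 CategoryTheory

noncomputable section

namespace Pool.Agent.FJA

namespace REP

variable {G : Type} [Group G]

/-- Elements of the same finite order. -/
theorem zpowers_eq {h h' : G} (hh : h ∈ Subgroup.zpowers h') (ho : orderOf h = orderOf h')
    (hpos : 0 < orderOf h') : h' ∈ Subgroup.zpowers h := by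
  have hle : Subgroup.zpowers h ≤ Subgroup.zpowers h' := Subgroup.zpowers_le.2 hh
  have hfin : Finite (Subgroup.zpowers h') := by
    apply Nat.finite_of_card_ne_zero
    rw [Nat.card_zpowers]
    exact hpos.ne'
  have he : Subgroup.zpowers h = Subgroup.zpowers h' := by
    apply Subgroup.eq_of_le_of_card_ge hle
    rw [Nat.card_zpowers, Nat.card_zpowers, ho]
  rw [he]
  exact Subgroup.mem_zpowers h'

theorem conj_mem {x y z : G} (h : y ∈ Subgroup.zpowers z) :
    x * y * x⁻¹ ∈ Subgroup.zpowers (x * z * x⁻¹) := by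
  obtain ⟨k, rfl⟩ := h
  refine ⟨k, ?_⟩
  exact conj_zpow

theorem orderOf_conj (x h : G) : orderOf (x * h * x⁻¹) = orderOf h := by
  have h1 := orderOf_injective (MulAut.conj x).toMonoidHom (MulAut.conj x).injective h
  exact h1

/-- The relation between the elements of order `N`. -/
def st (N : ℕ) (hN : 0 < N) : Setoid {h : G // orderOf h = N} where
  r h h' := ∃ x : G, x * h.1 * x⁻¹ ∈ Subgroup.zpowers h'.1
  iseqv := by
    refine ⟨fun h => ⟨1, ?_⟩, ?_, ?_⟩
    · rw [one_mul, inv_one, mul_one]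
      exact Subgroup.mem_zpowers _
    · rintro ⟨h, ho⟩ ⟨h', ho'⟩ ⟨x, hx⟩
      refine ⟨x⁻¹, ?_⟩
      have h1 := zpowers_eq hx (by rw [orderOf_conj, ho, ho']) (by rw [ho']; exact hN)
      have h2 := conj_mem (x := x⁻¹) h1
      have h3 : x⁻¹ * (x * h * x⁻¹) * x⁻¹⁻¹ = h := by group
      rw [h3] at h2
      exact h2
    · rintro ⟨h, ho⟩ ⟨h', ho'⟩ ⟨h'', ho''⟩ ⟨x, hx⟩ ⟨y, hy⟩
      refine ⟨y * x, ?_⟩
      have h2 := conj_mem (x := y) hx
      have h3 : y * (x * h * x⁻¹) * y⁻¹ = y * x * h * (y * x)⁻¹ := by group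
      rw [h3] at h2
      exact Subgroup.zpowers_le.2 hy h2

theorem uG_comp {A B C : Type} [Group A] [Group B] [Group C] (f : A →* B) (g : B →* C)
    (u : (MonoidAlgebra ℤ A)ˣ) : uG g (uG f u) = uG (g.comp f) u := by
  apply Units.ext
  change MonoidAlgebra.mapDomain _ (MonoidAlgebra.mapDomain _ u.val) =
    MonoidAlgebra.mapDomain _ u.val
  have h1 : ∀ w : MonoidAlgebra ℤ A, MonoidAlgebra.mapDomain g (MonoidAlgebra.mapDomain f w) =
      MonoidAlgebra.mapDomain (g.comp f) w := by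
    intro w
    induction w using MonoidAlgebra.induction_linear with
    | zero => simp
    | add x y hx hy => rw [MonoidAlgebra.mapDomain_add, MonoidAlgebra.mapDomain_add, hx, hy,
        MonoidAlgebra.mapDomain_add]
    | single g c => rw [MonoidAlgebra.mapDomain_single, MonoidAlgebra.mapDomain_single,
        MonoidAlgebra.mapDomain_single]; rfl
  exact h1 _

theorem unS_iff {h : G} {u : (MonoidAlgebra ℤ G)ˣ} :
    u ∈ UnS h ↔ ∃ v, uG (Subgroup.zpowers h).subtype v = u := Iff.rfl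

/-- Conjugation on units. -/
theorem uG_conj (x : G) (u : (MonoidAlgebra ℤ G)ˣ) :
    uG (MulAut.conj x).toMonoidHom u = gU G x * u * (gU G x)⁻¹ := by
  rw [eq_mul_inv_iff_mul_eq]
  apply Units.ext
  change MonoidAlgebra.mapDomain _ u.val * MonoidAlgebra.of ℤ G x =
    MonoidAlgebra.of ℤ G x * u.val
  have h1 : ∀ w : MonoidAlgebra ℤ G,
      MonoidAlgebra.mapDomain (MulAut.conj x).toMonoidHom w * MonoidAlgebra.of ℤ G x =
      MonoidAlgebra.of ℤ G x * w := by
    intro w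
    induction w using MonoidAlgebra.induction_linear with
    | zero => simp
    | add y z hy hz => rw [MonoidAlgebra.mapDomain_add, add_mul, mul_add, hy, hz]
    | single g c =>
      rw [MonoidAlgebra.mapDomain_single, MonoidAlgebra.of_apply,
        MonoidAlgebra.single_mul_single, MonoidAlgebra.single_mul_single]
      simp [MulAut.conj_apply]
  exact h1 _

theorem adm_conj {h : G} {u : (MonoidAlgebra ℤ G)ˣ} (hv : Adm1 h u) (x : G) :
    Adm1 (x * h * x⁻¹) (gU G x * u * (gU G x)⁻¹) := by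
  obtain ⟨hf, hu⟩ := hv
  refine ⟨?_, ?_⟩
  · rw [← orderOf_pos_iff, orderOf_conj, orderOf_pos_iff]
    exact hf
  · obtain ⟨v, rfl⟩ := unS_iff.1 hu
    let κ : Subgroup.zpowers h →* Subgroup.zpowers (x * h * x⁻¹) :=
      ((MulAut.conj x).toMonoidHom.comp (Subgroup.zpowers h).subtype).codRestrict _
        fun y => conj_mem y.2
    refine unS_iff.2 ⟨uG κ v, ?_⟩
    rw [← uG_conj, uG_comp, uG_comp]
    rfl

/-- The data of a symbol. -/
theorem exists_sy (m : ℕ) (h : G) (c : HQ m (Cen h)) (u : (MonoidAlgebra ℤ G)ˣ)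
    (hv : Adm1 h u) : ∃ s : Sy1 m G, s.val = sym1 h c u ∧ s.φ (gen s.N) = h ∧ s.N = orderOf h := by
  obtain ⟨hf, hu⟩ := hv
  obtain ⟨N, hNe, φ, hφ, hN, hinj⟩ : ∃ (N : ℕ) (_ : NeZero N) (φ : Cyc N →* G),
      φ (gen N) = h ∧ N = orderOf h ∧ Function.Injective φ := by
    have hpos : 0 < orderOf h := orderOf_pos_iff.2 hf
    have hNe : NeZero (orderOf h) := ⟨hpos.ne'⟩
    obtain ⟨φ, hφ⟩ := exists_cyc (N := orderOf h) h (pow_orderOf_eq_one h)
    refine ⟨orderOf h, hNe, φ, hφ, rfl, ?_⟩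
    intro a b hab
    have h1 : φ (a * b⁻¹) = 1 := by rw [map_mul, map_inv, hab, mul_inv_cancel]
    have h2 := cyc_eq_pow (a * b⁻¹)
    rw [h2, map_pow, hφ] at h1
    have h3 := orderOf_dvd_of_pow_eq_one h1
    have h4 := Nat.eq_zero_of_dvd_of_lt h3 (ZMod.val_lt _)
    rw [h4, pow_zero] at h2
    exact mul_inv_eq_one.1 h2
  subst hφ
  obtain ⟨z, rfl⟩ := exists_cl (k := ℚ) c
  obtain ⟨v, rfl⟩ := unS_iff.1 hu
  have hmem : ∀ y : Subgroup.zpowers (φ (gen N)), ∃ a : Cyc N, φ a = y := by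
    rintro ⟨y, k, rfl⟩
    exact ⟨gen N ^ k, map_zpow φ _ _⟩
  choose ψ hψ using hmem
  let ψ' : Subgroup.zpowers (φ (gen N)) →* Cyc N :=
    { toFun := ψ
      map_one' := by
        apply hinj
        rw [hψ, map_one]
        rfl
      map_mul' := by
        intro a b
        apply hinj
        rw [hψ, map_mul, hψ, hψ]
        rfl }
  have hψ' : φ.comp ψ' = (Subgroup.zpowers (φ (gen N))).subtype := by
    refine MonoidHom.ext fun a => ?_
    exact hψ a
  refine ⟨⟨N, hNe, φ, hinj, uG ψ' v, z⟩, ?_, rfl, hN⟩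
  change sym1 (φ (gen N)) (cl ℚ m _ z) (uG φ (uG ψ' v)) = _
  rw [uG_comp, hψ']

end REP

open REP in
theorem t_REP : S_REP := by
  intro m G _ N hN
  let S : Setoid {h : G // orderOf h = N} := st N hN
  refine ⟨Set.range fun q : Quotient S => (q.out).1, ?_, ?_, ?_⟩
  · rintro _ ⟨q, rfl⟩
    exact q.out.2
  · rintro _ ⟨q, rfl⟩ _ ⟨q', rfl⟩ x hx
    have h1 : q.out ≈ q'.out := ⟨x, hx⟩
    have h2 : q = q' := by
      rw [← Quotient.out_eq q, ← Quotient.out_eq q']
      exact Quotient.sound h1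
    rw [h2]
  · intro h c u hv ho
    rcases ho.lt_or_eq with hlt | heq
    · obtain ⟨s, h1, h2, h3⟩ := exists_sy m h c u hv
      refine ⟨s, h1, by rw [h2, h3], Or.inl (by rw [h3]; exact hlt)⟩
    · obtain ⟨q, hq⟩ : ∃ q : Quotient S, q = Quotient.mk S ⟨h, heq⟩ := ⟨_, rfl⟩
      obtain ⟨x, hx⟩ : ∃ x : G, x * h * x⁻¹ ∈ Subgroup.zpowers (q.out).1 := by
        have h1 : (⟨h, heq⟩ : {h : G // orderOf h = N}) ≈ q.out := by
          apply Quotient.exact
          rw [Quotient.out_eq, hq]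
        exact h1
      obtain ⟨t, ht⟩ : ∃ t, t = (q.out).1 := ⟨_, rfl⟩
      have hto : orderOf t = N := by rw [ht]; exact q.out.2
      rw [← ht] at hx
      have htx : t ∈ Subgroup.zpowers (x * h * x⁻¹) :=
        zpowers_eq hx (by rw [orderOf_conj, heq, hto]) (by rw [hto]; exact hN)
      have hv' := REP.adm_conj hv x
      have hvt : Adm1 t (gU G x * u * (gU G x)⁻¹) :=
        ⟨orderOf_pos_iff.1 (by rw [hto]; exact hN), unS_mono hx hv'.2⟩
      have e1 := sym1_conj h x c u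
      have e2 := sym1_res (x * h * x⁻¹) t htx (HQ.map m (cHom x (cHom_conj x h)) c)
        (gU G x * u * (gU G x)⁻¹) hv'.1 hvt
      obtain ⟨s, h1, h2, h3⟩ := exists_sy m t _ _ hvt
      refine ⟨s, h1.trans (e2.trans e1), by rw [h2, h3], Or.inr ⟨by rw [h3, hto], ?_⟩⟩
      rw [h2, ht]
      exact ⟨q, rfl⟩

end Pool.Agent.FJA

end
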