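import Pool.Agent.AUK.FJA.FinA
import Pool.Agent.AUK.FJA.P_TPB

/-!
# SEP: the integral functionals on `Src n G`

If all the families of functionals of `AdmL` vanish on an element of `Src n G` then this element is in
the span of the symbols `[p, h, c]` with undetected `c`.
-/

set_option autoImplicit false
set_option linter.unusedSectionVars false

open Matrix Pool.Agent.WhK Pool.Agent.Lib25 CategoryTheory

noncomputable section

namespace Pool.Agent.FJA

/-- The classes on which all the integral functionals vanish. -/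
def UdG (m : ℕ) (P : Type) [Group P] : Submodule ℚ (Hk ℚ m P) where
  carrier := {c | ∀ lam : Hk ℚ m P →ₗ[ℚ] ℚ, DenG m lam → lam c = 0}
  add_mem' := fun ha hb lam h => by rw [map_add, ha lam h, hb lam h, add_zero]
  zero_mem' := fun lam _ => map_zero lam
  smul_mem' := fun q c hc lam h => by rw [map_smul, hc lam h, smul_zero]

/-- The span of the symbols with undetected classes. -/
def UdSrc (n : ℕ) (G : Type) [Group G] : Submodule ℚ (Src n G) :=
  Submodule.span ℚ {x | ∃ (p : ℕ) (h : G) (c : HQ (n + 1) (Cen h)), Adm p h ∧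
    c ∈ UdG (n + 1) (Cen h) ∧ x = sym p h c}

namespace SEP

/-! ### Functionals with `DenG` -/

section Den

variable {P : Type} [Group P] {m : ℕ}

theorem pair_zero (y : IC ℚ m P) : pair (fun _ => (0 : ℚ)) y = 0 := by
  unfold pair
  rw [Finsupp.linearCombination_apply]
  simp

theorem pair_lin (a b : ℚ) (f g : (Fin m → P) → ℚ) (y : IC ℚ m P) :
    pair (fun x => a * f x + b * g x) y = a * pair f y + b * pair g y := by
  induction y using Finsupp.induction_linear with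
  | zero => simp only [map_zero, mul_zero, add_zero]
  | add x y hx hy => simp only [map_add, hx, hy]; ring
  | single X q => rw [pair_single, pair_single, pair_single]; ring

theorem den_zero : DenG m (0 : Hk ℚ m P →ₗ[ℚ] ℚ) := by
  refine ⟨1, fun _ => 0, one_pos, fun y => ?_, fun x => ?_⟩
  · simp only [Int.cast_zero]
    exact pair_zero _
  · simp only [Int.cast_zero]
    rw [LinearMap.zero_apply, mul_zero]
    exact (pair_zero _).symm

theorem den_add {lam mu : Hk ℚ m P →ₗ[ℚ] ℚ} (h1 : DenG m lam) (h2 : DenG m mu) :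
    DenG m (lam + mu) := by
  obtain ⟨D, f, hD, h3, h4⟩ := h1
  obtain ⟨E, g, hE, h5, h6⟩ := h2
  refine ⟨D * E, fun x => E * f x + D * g x, Nat.mul_pos hD hE, fun y => ?_, fun x => ?_⟩
  · have h7 := pair_lin (E : ℚ) (D : ℚ) (fun x => (f x : ℚ)) (fun x => (g x : ℚ)) (dI ℚ m P y)
    push_cast
    rw [h7, h3, h5]
    ring
  · have h7 := pair_lin (E : ℚ) (D : ℚ) (fun x => (f x : ℚ)) (fun x => (g x : ℚ)) (ch ℚ m P x)
    push_cast
    rw [h7, ← h4, ← h6, LinearMap.add_apply]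
    ring

theorem den_smul (q : ℚ) {lam : Hk ℚ m P →ₗ[ℚ] ℚ} (h1 : DenG m lam) : DenG m (q • lam) := by
  obtain ⟨D, f, hD, h3, h4⟩ := h1
  refine ⟨D * q.den, fun x => q.num * f x, Nat.mul_pos hD q.den_pos, fun y => ?_, fun x => ?_⟩
  · have h7 := pair_lin (q.num : ℚ) 0 (fun x => (f x : ℚ)) (fun x => (f x : ℚ)) (dI ℚ m P y)
    simp only [zero_mul, add_zero] at h7
    push_cast
    rw [h7, h3, mul_zero]
  · have h7 := pair_lin (q.num : ℚ) 0 (fun x => (f x : ℚ)) (fun x => (f x : ℚ)) (ch ℚ m P x)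
    simp only [zero_mul, add_zero] at h7
    push_cast
    rw [h7, ← h4, LinearMap.smul_apply, smul_eq_mul]
    have h8 := Rat.den_mul_eq_num q
    rw [← h8]
    ring

theorem den_sum {ι : Type*} (s : Finset ι) (f : ι → (Hk ℚ m P →ₗ[ℚ] ℚ))
    (h : ∀ i ∈ s, DenG m (f i)) : DenG m (∑ i ∈ s, f i) := by
  classical
  induction s using Finset.induction_on with
  | empty => rw [Finset.sum_empty]; exact den_zero
  | insert a s ha ih =>
    rw [Finset.sum_insert ha]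
    exact den_add (h a (Finset.mem_insert_self a s))
      (ih fun i hi => h i (Finset.mem_insert_of_mem hi))

end Den

/-! ### Linear algebra -/

theorem la {V T : Type*} [AddCommGroup V] [Module ℚ V] (I : Set (V →ₗ[ℚ] ℚ)) (U : Submodule ℚ V)
    (hU : ∀ v, (∀ f ∈ I, f v = 0) → v ∈ U) (s : Finset T) (S : T → (V →ₗ[ℚ] ℚ))
    (hS : ∀ t, ∀ u ∈ U, S t u = 0) (v : T → V)
    (h : ∀ f ∈ I, ∀ e : V, ∑ t ∈ s, f (v t) * S t e = 0) : ∑ t ∈ s, S t (v t) = 0 := by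
  classical
  have hw : ∀ e : V, U.mkQ (∑ t ∈ s, S t e • v t) = 0 := by
    intro e
    rw [Submodule.mkQ_apply, Submodule.Quotient.mk_eq_zero]
    apply hU
    intro f hf
    rw [map_sum, ← h f hf e]
    refine Finset.sum_congr rfl fun t _ => ?_
    rw [map_smul, smul_eq_mul, mul_comm]
  let b := Module.Basis.ofVectorSpace ℚ (V ⧸ U)
  let L := s.biUnion fun t => (b.repr (U.mkQ (v t))).support
  have hlift : ∀ l, ∃ e : V, U.mkQ e = b l := fun l => U.mkQ_surjective (b l)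
  choose e he using hlift
  have h1 : ∀ t ∈ s, S t (v t) = ∑ l ∈ L, b.coord l (U.mkQ (v t)) * S t (e l) := by
    intro t ht
    have h2 : U.mkQ (v t) = ∑ l ∈ L, b.coord l (U.mkQ (v t)) • b l := by
      conv_lhs => rw [← b.linearCombination_repr (U.mkQ (v t)), Finsupp.linearCombination_apply]
      refine Finsupp.sum_of_support_subset _ ?_ _ fun i _ => zero_smul _ _
      intro i hi
      exact Finset.mem_biUnion.2 ⟨t, ht, hi⟩
    let St : (V ⧸ U) →ₗ[ℚ] ℚ := U.liftQ (S t) (fun u hu => hS t u hu)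
    have h3 : ∀ x, St (U.mkQ x) = S t x := fun x => Submodule.liftQ_apply _ _ _
    rw [← h3, h2, map_sum]
    refine Finset.sum_congr rfl fun l _ => ?_
    rw [map_smul, smul_eq_mul, ← he, h3]
    congr 2
  have h4 : ∀ l ∈ L, ∑ t ∈ s, b.coord l (U.mkQ (v t)) * S t (e l) = 0 := by
    intro l _
    have h5 := congrArg (b.coord l) (hw (e l))
    rw [map_zero, map_sum, map_sum] at h5
    rw [← h5]
    refine Finset.sum_congr rfl fun t _ => ?_
    rw [map_smul, map_smul, smul_eq_mul, mul_comm]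
  rw [Finset.sum_congr rfl h1, Finset.sum_comm]
  exact Finset.sum_eq_zero h4

/-! ### Transport -/

variable {G : Type} [Group G] {m n : ℕ}

/-- `x * h * x⁻¹` generates the group generated by `h0`. -/
def Gd (h0 h x : G) : Prop := Subgroup.zpowers (x * h * x⁻¹) = Subgroup.zpowers h0

theorem mem_cen_of {g g' z : G} (h : g' ∈ Subgroup.zpowers g) (hz : z ∈ Cen g) : z ∈ Cen g' := by
  obtain ⟨k, rfl⟩ := h
  rw [Subgroup.mem_centralizer_singleton_iff] at hz ⊢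
  exact (Commute.zpow_right (show Commute z g from hz) k)

theorem Gd.fwd {h0 h x : G} (H : Gd h0 h x) : ∀ z ∈ Cen h, x * z * x⁻¹ ∈ Cen h0 := by
  intro z hz
  refine mem_cen_of (g := x * h * x⁻¹) ?_ (cHom_conj x h z hz)
  rw [H]
  exact Subgroup.mem_zpowers _

theorem Gd.bwd {h0 h x : G} (H : Gd h0 h x) : ∀ z ∈ Cen h0, x⁻¹ * z * x⁻¹⁻¹ ∈ Cen h := by
  intro z hz
  have h1 : z ∈ Cen (x * h * x⁻¹) := by
    refine mem_cen_of ?_ hz
    rw [← H]
    exact Subgroup.mem_zpowers _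
  have h2 := cHom_conj x⁻¹ (x * h * x⁻¹) z h1
  have h3 : x⁻¹ * (x * h * x⁻¹) * x⁻¹⁻¹ = h := by group
  rwa [h3] at h2

theorem cHom_comp {x y h h' h'' : G} (H : ∀ z ∈ Cen h, x * z * x⁻¹ ∈ Cen h')
    (H' : ∀ z ∈ Cen h', y * z * y⁻¹ ∈ Cen h'') (H'' : ∀ z ∈ Cen h, (y * x) * z * (y * x)⁻¹ ∈ Cen h'') :
    (cHom y H').comp (cHom x H) = cHom (y * x) H'' := by
  ext z
  simp [cHom, mul_assoc]

theorem cMap_comp {x y z h h' h'' : G} (H : ∀ z ∈ Cen h, x * z * x⁻¹ ∈ Cen h')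
    (H' : ∀ z ∈ Cen h', y * z * y⁻¹ ∈ Cen h'') (hz : y * x = z)
    (H'' : ∀ w ∈ Cen h, z * w * z⁻¹ ∈ Cen h'') (c : HQ m (Cen h)) :
    HQ.map m (cHom y H') (HQ.map m (cHom x H) c) = HQ.map m (cHom z H'') c := by
  subst hz
  rw [← HQ.map_comp, cHom_comp H H' H'']

theorem inner (hPRI : S_PRI.{0, 0, 0}) (hBD : S_BD.{0, 0, 0}) {h x : G} (hx : x ∈ Cen h)
    (H : ∀ z ∈ Cen h, x * z * x⁻¹ ∈ Cen h) (c : HQ (m + 1) (Cen h)) :
    HQ.map (m + 1) (cHom x H) c = c := by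
  have h1 : cHom x H = (MulAut.conj (⟨x, hx⟩ : Cen h)).toMonoidHom := by
    ext z
    rfl
  rw [h1]
  exact Hk.map_conj hPRI hBD m _ c

theorem map_one' {h : G} (H : ∀ z ∈ Cen h, 1 * z * 1⁻¹ ∈ Cen h) (c : HQ m (Cen h)) :
    HQ.map m (cHom 1 H) c = c := by
  have h1 : cHom 1 H = MonoidHom.id (Cen h) := by
    ext z
    simp [cHom]
  rw [h1]
  exact Hk.map_id m c

/-- Independence of the conjugating element, first part. -/
theorem fwd_eq (hPRI : S_PRI.{0, 0, 0}) (hBD : S_BD.{0, 0, 0}) {h0 h x y : G}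
    (hxy : x * h * x⁻¹ = y * h * y⁻¹) (H : Gd h0 h x) (H' : Gd h0 h y)
    (c : HQ (m + 1) (Cen h)) :
    HQ.map (m + 1) (cHom x H.fwd) c = HQ.map (m + 1) (cHom y H'.fwd) c := by
  have hz : y * x⁻¹ ∈ Cen h0 := by
    refine mem_cen_of (g := x * h * x⁻¹) ?_ ?_
    · rw [H]
      exact Subgroup.mem_zpowers _
    · rw [Subgroup.mem_centralizer_singleton_iff]
      calc y * x⁻¹ * (x * h * x⁻¹) = y * h * y⁻¹ * (y * x⁻¹) := by group
        _ = x * h * x⁻¹ * (y * x⁻¹) := by rw [hxy]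
  have H2 : ∀ z ∈ Cen h0, y * x⁻¹ * z * (y * x⁻¹)⁻¹ ∈ Cen h0 := fun z hz' =>
    Subgroup.mul_mem _ (Subgroup.mul_mem _ hz hz') (Subgroup.inv_mem _ hz)
  rw [← inner hPRI hBD hz H2 (HQ.map (m + 1) (cHom x H.fwd) c)]
  exact cMap_comp H.fwd H2 (by group) H'.fwd c

/-- Independence of the conjugating element, second part. -/
theorem bwd_eq (hPRI : S_PRI.{0, 0, 0}) (hBD : S_BD.{0, 0, 0}) {h0 h x y : G}
    (hxy : x * h * x⁻¹ = y * h * y⁻¹) (H : Gd h0 h x) (H' : Gd h0 h y)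
    (c : HQ (m + 1) (Cen h0)) :
    HQ.map (m + 1) (cHom x⁻¹ H.bwd) c = HQ.map (m + 1) (cHom y⁻¹ H'.bwd) c := by
  have hz : x * y⁻¹ ∈ Cen h0 := by
    refine mem_cen_of (g := x * h * x⁻¹) ?_ ?_
    · rw [H]
      exact Subgroup.mem_zpowers _
    · rw [Subgroup.mem_centralizer_singleton_iff]
      calc x * y⁻¹ * (x * h * x⁻¹) = x * y⁻¹ * (y * h * y⁻¹) := by rw [hxy]
        _ = x * h * x⁻¹ * (x * y⁻¹) := by group
  have H2 : ∀ z ∈ Cen h0, x * y⁻¹ * z * (x * y⁻¹)⁻¹ ∈ Cen h0 := fun z hz' =>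
    Subgroup.mul_mem _ (Subgroup.mul_mem _ hz hz') (Subgroup.inv_mem _ hz)
  have h1 := inner hPRI hBD hz H2 c
  conv_lhs => rw [← h1]
  exact cMap_comp H2 H.bwd (by group) H'.bwd c

open scoped Classical in
/-- The functional `c ↦ lam (κ_x c) * S (κ_x⁻¹ e)` for `x * h * x⁻¹ = g`. -/
def tvL {h0 : G} (lam : HQ m (Cen h0) →ₗ[ℚ] ℚ) (e : HQ m (Cen h0)) {h : G}
    (S : HQ m (Cen h) →ₗ[ℚ] ℚ) (g : G) : HQ m (Cen h) →ₗ[ℚ] ℚ :=
  if H : ∃ x, x * h * x⁻¹ = g ∧ Gd h0 h x then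
    S (HQ.map m (cHom H.choose⁻¹ H.choose_spec.2.bwd) e) •
      (lam ∘ₗ HQ.map m (cHom H.choose H.choose_spec.2.fwd)) else 0

theorem tvL_eq (hPRI : S_PRI.{0, 0, 0}) (hBD : S_BD.{0, 0, 0}) {h0 : G}
    (lam : HQ (m + 1) (Cen h0) →ₗ[ℚ] ℚ) (e : HQ (m + 1) (Cen h0)) {h : G}
    (S : HQ (m + 1) (Cen h) →ₗ[ℚ] ℚ) {g x : G} (hx : x * h * x⁻¹ = g) (H : Gd h0 h x)
    (c : HQ (m + 1) (Cen h)) :
    tvL lam e S g c = lam (HQ.map (m + 1) (cHom x H.fwd) c) *
      S (HQ.map (m + 1) (cHom x⁻¹ H.bwd) e) := by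
  have H1 : ∃ x, x * h * x⁻¹ = g ∧ Gd h0 h x := ⟨x, hx, H⟩
  unfold tvL
  rw [dif_pos H1, LinearMap.smul_apply, LinearMap.comp_apply, smul_eq_mul,
    fwd_eq hPRI hBD (H1.choose_spec.1.trans hx.symm) H1.choose_spec.2 H,
    bwd_eq hPRI hBD (H1.choose_spec.1.trans hx.symm) H1.choose_spec.2 H, mul_comm]

theorem tvL_zero {h0 : G} (lam : HQ m (Cen h0) →ₗ[ℚ] ℚ) (e : HQ m (Cen h0)) {h : G}
    (S : HQ m (Cen h) →ₗ[ℚ] ℚ) {g : G} (H : ¬ ∃ x, x * h * x⁻¹ = g ∧ Gd h0 h x) :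
    tvL lam e S g = 0 := dif_neg H

theorem tvL_S_zero {h0 : G} (lam : HQ m (Cen h0) →ₗ[ℚ] ℚ) (e : HQ m (Cen h0)) {h : G} (g : G) :
    tvL lam e (0 : HQ m (Cen h) →ₗ[ℚ] ℚ) g = 0 := by
  unfold tvL
  split_ifs with H
  · rw [LinearMap.zero_apply, zero_smul]
  · rfl

theorem tvL_den {h0 : G} {lam : HQ m (Cen h0) →ₗ[ℚ] ℚ} (hlam : DenG m lam)
    (e : HQ m (Cen h0)) {h : G} (S : HQ m (Cen h) →ₗ[ℚ] ℚ) (g : G) : DenG m (tvL lam e S g) := by
  unfold tvL
  split_ifs with H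
  · exact den_smul _ (TPB.denG_comp _ hlam)
  · exact den_zero

/-- Conjugation. -/
theorem tvL_conj (hPRI : S_PRI.{0, 0, 0}) (hBD : S_BD.{0, 0, 0}) {h0 : G}
    (lam : HQ (m + 1) (Cen h0) →ₗ[ℚ] ℚ) (e : HQ (m + 1) (Cen h0)) {h : G} (y : G)
    (S : HQ (m + 1) (Cen h) →ₗ[ℚ] ℚ) (S' : HQ (m + 1) (Cen (y * h * y⁻¹)) →ₗ[ℚ] ℚ)
    (hS : ∀ v, S' (HQ.map (m + 1) (cHom y (cHom_conj y h)) v) = S v) (g : G)
    (c : HQ (m + 1) (Cen h)) :
    tvL lam e S' g (HQ.map (m + 1) (cHom y (cHom_conj y h)) c) = tvL lam e S g c := by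
  by_cases H : ∃ x, x * (y * h * y⁻¹) * x⁻¹ = g ∧ Gd h0 (y * h * y⁻¹) x
  · obtain ⟨x, hx, H⟩ := H
    have e1 : x * y * h * (x * y)⁻¹ = x * (y * h * y⁻¹) * x⁻¹ := by group
    have H' : Gd h0 h (x * y) := by
      unfold Gd
      rw [e1]
      exact H
    rw [tvL_eq hPRI hBD lam e S' hx H, tvL_eq hPRI hBD lam e S (e1.trans hx) H',
      cMap_comp (cHom_conj y h) H.fwd rfl H'.fwd c, ← hS,
      cMap_comp H'.bwd (cHom_conj y h) (by group) H.bwd e]
  · rw [tvL_zero lam e S' H, tvL_zero lam e S, LinearMap.zero_apply, LinearMap.zero_apply]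
    rintro ⟨x, hx, H'⟩
    have e1 : x * y⁻¹ * (y * h * y⁻¹) * (x * y⁻¹)⁻¹ = x * h * x⁻¹ := by group
    exact H ⟨x * y⁻¹, e1.trans hx, by unfold Gd; rw [e1]; exact H'⟩

/-- The finite set of the generators of the group generated by `h0`. -/
def T0 (h0 : G) (hfin : IsOfFinOrder h0) : Finset G :=
  (show Set.Finite {g : G | Subgroup.zpowers g = Subgroup.zpowers h0} from by
    have h1 : Finite (Subgroup.zpowers h0) := finite_zpowers.2 hfin
    refine Set.Finite.subset (Set.toFinite (Subgroup.zpowers h0 : Set G)) ?_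
    intro g hg
    have hg' : Subgroup.zpowers g = Subgroup.zpowers h0 := hg
    rw [SetLike.mem_coe, ← hg']
    exact Subgroup.mem_zpowers g).toFinset

theorem mem_T0 {h0 : G} {hfin : IsOfFinOrder h0} {g : G} :
    g ∈ T0 h0 hfin ↔ Subgroup.zpowers g = Subgroup.zpowers h0 := by
  unfold T0
  rw [Set.Finite.mem_toFinset]
  rfl

/-- Data for the passage to another generator. -/
theorem pow_data {h0 h h' : G} (hfin : IsOfFinOrder h0)
    (hz : Subgroup.zpowers h = Subgroup.zpowers h') (hord : orderOf h = orderOf h0) :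
    ∃ k l : ℕ, h' = h ^ k ∧ h = h' ^ l ∧
      ∀ g : G, Subgroup.zpowers g = Subgroup.zpowers h0 → (g ^ k) ^ l = g ∧ (g ^ l) ^ k = g ∧
        Subgroup.zpowers (g ^ k) = Subgroup.zpowers h0 ∧
        Subgroup.zpowers (g ^ l) = Subgroup.zpowers h0 := by
  have hpos : 0 < orderOf h0 := orderOf_pos_iff.2 hfin
  have hfh : IsOfFinOrder h := by rw [← orderOf_pos_iff, hord]; exact hpos
  have hord' : orderOf h' = orderOf h := by
    rw [← Nat.card_zpowers, ← hz, Nat.card_zpowers]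
  have hfh' : IsOfFinOrder h' := by rw [← orderOf_pos_iff, hord', hord]; exact hpos
  have h1 : h' ∈ Subgroup.zpowers h := by rw [hz]; exact Subgroup.mem_zpowers _
  have h2 : h ∈ Subgroup.zpowers h' := by rw [← hz]; exact Subgroup.mem_zpowers _
  obtain ⟨k, hk⟩ := (hfh.mem_powers_iff_mem_zpowers.2 h1)
  obtain ⟨l, hl⟩ := (hfh'.mem_powers_iff_mem_zpowers.2 h2)
  refine ⟨k, l, hk.symm, hl.symm, ?_⟩
  have h3 : h ^ (k * l) = h := by
    rw [pow_mul]
    change (h ^ k) ^ l = h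
    rw [show h ^ k = h' from hk]
    exact hl
  have h4 : k * l ≡ 1 [MOD orderOf h0] := by
    rw [← hord, ← pow_eq_pow_iff_modEq, h3, pow_one]
  intro g hg
  have hog : orderOf g = orderOf h0 := by
    rw [← Nat.card_zpowers, hg, Nat.card_zpowers]
  have h5 : g ^ (k * l) = g := by
    rw [← hog, ← pow_eq_pow_iff_modEq, pow_one] at h4
    exact h4
  have h6 : (g ^ k) ^ l = g := by rw [← pow_mul]; exact h5
  have h7 : (g ^ l) ^ k = g := by rw [← pow_mul, mul_comm]; exact h5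
  refine ⟨h6, h7, ?_, ?_⟩
  · rw [← hg]
    apply le_antisymm
    · rw [Subgroup.zpowers_le]
      exact Subgroup.pow_mem _ (Subgroup.mem_zpowers _) _
    · rw [Subgroup.zpowers_le]
      have h8 : (g ^ k) ^ l ∈ Subgroup.zpowers (g ^ k) :=
        Subgroup.pow_mem _ (Subgroup.mem_zpowers _) _
      rwa [h6] at h8
  · rw [← hg]
    apply le_antisymm
    · rw [Subgroup.zpowers_le]
      exact Subgroup.pow_mem _ (Subgroup.mem_zpowers _) _
    · rw [Subgroup.zpowers_le]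
      have h8 : (g ^ l) ^ k ∈ Subgroup.zpowers (g ^ l) :=
        Subgroup.pow_mem _ (Subgroup.mem_zpowers _) _
      rwa [h7] at h8

theorem conj_pow' (x h : G) (k : ℕ) : x * h ^ k * x⁻¹ = (x * h * x⁻¹) ^ k :=
  (conj_pow (a := x) (b := h) (i := k)).symm

/-- Passage to another generator. -/
theorem tvL_pow (hPRI : S_PRI.{0, 0, 0}) (hBD : S_BD.{0, 0, 0}) {h0 : G}
    (lam : HQ (m + 1) (Cen h0) →ₗ[ℚ] ℚ) (e : HQ (m + 1) (Cen h0)) {h h' : G}
    (hh : h' ∈ Subgroup.zpowers h) (S' : HQ (m + 1) (Cen h') →ₗ[ℚ] ℚ) {k l : ℕ}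
    (hk : h' = h ^ k) (hl : h = h' ^ l) {g : G}
    (hg : (g ^ k) ^ l = g) (hg0 : Subgroup.zpowers g = Subgroup.zpowers h0)
    (hg1 : Subgroup.zpowers (g ^ k) = Subgroup.zpowers h0)
    (c : HQ (m + 1) (Cen h)) :
    tvL lam e S' (g ^ k) (HQ.map (m + 1) (cHom 1 (cHom_pow h hh)) c) =
      tvL lam e (S' ∘ₗ HQ.map (m + 1) (cHom 1 (cHom_pow h hh))) g c := by
  have hiff : ∀ x : G, x * h * x⁻¹ = g ↔ x * h' * x⁻¹ = g ^ k := by
    intro x
    constructor
    · intro hx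
      rw [hk, conj_pow', hx]
    · intro hx
      rw [hl, conj_pow', hx, hg]
  by_cases H : ∃ x, x * h * x⁻¹ = g ∧ Gd h0 h x
  · obtain ⟨x, hx, H⟩ := H
    have H' : Gd h0 h' x := by
      unfold Gd
      rw [(hiff x).1 hx]
      exact hg1
    rw [tvL_eq hPRI hBD lam e S' ((hiff x).1 hx) H', tvL_eq hPRI hBD lam e _ hx H,
      cMap_comp (cHom_pow h hh) H'.fwd (mul_one x) H.fwd c, LinearMap.comp_apply,
      cMap_comp H.bwd (cHom_pow h hh) (one_mul _) H'.bwd e]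
  · rw [tvL_zero lam e _ H, tvL_zero lam e S', LinearMap.zero_apply, LinearMap.zero_apply]
    rintro ⟨x, hx, H'⟩
    refine H ⟨x, (hiff x).2 hx, ?_⟩
    unfold Gd
    rw [(hiff x).2 hx]
    exact hg0

/-- If the orders are different then the functionals vanish. -/
theorem tvL_ord {h0 : G} (lam : HQ m (Cen h0) →ₗ[ℚ] ℚ) (e : HQ m (Cen h0)) {h : G}
    (S : HQ m (Cen h) →ₗ[ℚ] ℚ) (g : G) (hord : orderOf h ≠ orderOf h0) : tvL lam e S g = 0 := by
  apply tvL_zero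
  rintro ⟨x, hx, H⟩
  apply hord
  rw [← orderOf_conj x h, ← Nat.card_zpowers, H, Nat.card_zpowers]

/-- The sum over the generators, and another generator. -/
theorem sum_tvL (hPRI : S_PRI.{0, 0, 0}) (hBD : S_BD.{0, 0, 0}) {h0 : G} (hfin : IsOfFinOrder h0)
    (lam : HQ (m + 1) (Cen h0) →ₗ[ℚ] ℚ) (e : HQ (m + 1) (Cen h0)) {h h' : G}
    (hh : h' ∈ Subgroup.zpowers h) (hz : h ∈ Subgroup.zpowers h')
    (S' : HQ (m + 1) (Cen h') →ₗ[ℚ] ℚ) (c : HQ (m + 1) (Cen h)) :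
    ∑ g ∈ T0 h0 hfin, tvL lam e S' g (HQ.map (m + 1) (cHom 1 (cHom_pow h hh)) c) =
      ∑ g ∈ T0 h0 hfin, tvL lam e (S' ∘ₗ HQ.map (m + 1) (cHom 1 (cHom_pow h hh))) g c := by
  have hzz : Subgroup.zpowers h = Subgroup.zpowers h' := by
    apply le_antisymm
    · rwa [Subgroup.zpowers_le]
    · rwa [Subgroup.zpowers_le]
  have hord' : orderOf h' = orderOf h := by
    rw [← Nat.card_zpowers, ← hzz, Nat.card_zpowers]
  by_cases hord : orderOf h = orderOf h0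
  · obtain ⟨k, l, hk, hl, H⟩ := pow_data hfin hzz hord
    symm
    refine Finset.sum_nbij' (fun g => g ^ k) (fun g => g ^ l) ?_ ?_ ?_ ?_ ?_
    · intro g hg
      rw [mem_T0] at hg ⊢
      exact (H g hg).2.2.1
    · intro g hg
      rw [mem_T0] at hg ⊢
      exact (H g hg).2.2.2
    · intro g hg
      rw [mem_T0] at hg
      exact (H g hg).1
    · intro g hg
      rw [mem_T0] at hg
      exact (H g hg).2.1
    · intro g hg
      rw [mem_T0] at hg
      obtain ⟨h1, -, h3, -⟩ := H g hg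
      exact (tvL_pow hPRI hBD lam e hh S' hk hl h1 hg h3 c).symm
  · rw [Finset.sum_eq_zero fun g _ => by
        rw [tvL_ord lam e S' g (by rwa [hord']), LinearMap.zero_apply],
      Finset.sum_eq_zero fun g _ => by rw [tvL_ord lam e _ g hord, LinearMap.zero_apply]]

open scoped Classical in
/-- The number of the generators which are conjugate to `h`. -/
def nC (h0 : G) (hfin : IsOfFinOrder h0) (h : G) : ℕ :=
  ((T0 h0 hfin).filter fun g => ∃ x, x * h * x⁻¹ = g).card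

theorem nC_conj (h0 : G) (hfin : IsOfFinOrder h0) (h y : G) :
    nC h0 hfin (y * h * y⁻¹) = nC h0 hfin h := by
  classical
  unfold nC
  congr 1
  refine Finset.filter_congr fun g _ => ?_
  constructor
  · rintro ⟨x, hx⟩
    exact ⟨x * y, by rw [← hx]; group⟩
  · rintro ⟨x, hx⟩
    exact ⟨x * y⁻¹, by rw [← hx]; group⟩

theorem nC_pow (h0 : G) (hfin : IsOfFinOrder h0) {h h' : G}
    (hh : h' ∈ Subgroup.zpowers h) (hz : h ∈ Subgroup.zpowers h') :
    nC h0 hfin h' = nC h0 hfin h := by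
  classical
  have hzz : Subgroup.zpowers h = Subgroup.zpowers h' := by
    apply le_antisymm
    · rwa [Subgroup.zpowers_le]
    · rwa [Subgroup.zpowers_le]
  have hord' : orderOf h' = orderOf h := by
    rw [← Nat.card_zpowers, ← hzz, Nat.card_zpowers]
  have hne : ∀ h1 : G, orderOf h1 ≠ orderOf h0 → nC h0 hfin h1 = 0 := by
    intro h1 hord
    unfold nC
    rw [Finset.card_eq_zero, Finset.filter_eq_empty_iff]
    rintro g hg ⟨x, hx⟩
    apply hord
    rw [mem_T0] at hg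
    rw [← orderOf_conj x h1, hx, ← Nat.card_zpowers, hg, Nat.card_zpowers]
  by_cases hord : orderOf h = orderOf h0
  · obtain ⟨k, l, hk, hl, H⟩ := pow_data hfin hzz hord
    unfold nC
    symm
    refine Finset.card_nbij' (fun g => g ^ k) (fun g => g ^ l) ?_ ?_ ?_ ?_
    · intro g hg
      obtain ⟨h1, x, hx⟩ := Finset.mem_filter.1 hg
      rw [mem_T0] at h1
      refine Finset.mem_filter.2 ⟨?_, x, ?_⟩
      · rw [mem_T0]
        exact (H g h1).2.2.1
      · rw [hk, conj_pow', hx]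
    · intro g hg
      obtain ⟨h1, x, hx⟩ := Finset.mem_filter.1 hg
      rw [mem_T0] at h1
      refine Finset.mem_filter.2 ⟨?_, x, ?_⟩
      · rw [mem_T0]
        exact (H g h1).2.2.2
      · rw [hl, conj_pow', hx]
    · intro g hg
      obtain ⟨h1, -⟩ := Finset.mem_filter.1 hg
      rw [mem_T0] at h1
      exact (H g h1).1
    · intro g hg
      obtain ⟨h1, -⟩ := Finset.mem_filter.1 hg
      rw [mem_T0] at h1
      exact (H g h1).2.1
  · rw [hne h hord, hne h' (by rwa [hord'])]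

/-- The family of functionals defined by `Λ`, `lam` and `e`. -/
def LL {h0 : G} (hfin : IsOfFinOrder h0) (lam : HQ (n + 1) (Cen h0) →ₗ[ℚ] ℚ)
    (e : HQ (n + 1) (Cen h0)) (Λ : Src n G →ₗ[ℚ] ℚ) (p : ℕ) (h : G) :
    HQ (n + 1) (Cen h) →ₗ[ℚ] ℚ :=
  ((nC h0 hfin h : ℚ)⁻¹) • ∑ g ∈ T0 h0 hfin, tvL lam e (Λ ∘ₗ symL n G p h) g

theorem LL_apply {h0 : G} (hfin : IsOfFinOrder h0) (lam : HQ (n + 1) (Cen h0) →ₗ[ℚ] ℚ)
    (e : HQ (n + 1) (Cen h0)) (Λ : Src n G →ₗ[ℚ] ℚ) (p : ℕ) (h : G) (c : HQ (n + 1) (Cen h)) :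
    LL hfin lam e Λ p h c =
      (nC h0 hfin h : ℚ)⁻¹ * ∑ g ∈ T0 h0 hfin, tvL lam e (Λ ∘ₗ symL n G p h) g c := by
  unfold LL
  rw [LinearMap.smul_apply, smul_eq_mul, LinearMap.sum_apply]

theorem LL_ord {h0 : G} (hfin : IsOfFinOrder h0) (lam : HQ (n + 1) (Cen h0) →ₗ[ℚ] ℚ)
    (e : HQ (n + 1) (Cen h0)) (Λ : Src n G →ₗ[ℚ] ℚ) (p : ℕ) (h : G)
    (hord : orderOf h ≠ orderOf h0) : LL hfin lam e Λ p h = 0 := by
  unfold LL
  rw [Finset.sum_eq_zero fun g _ => tvL_ord lam e _ g hord, smul_zero]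

theorem LL_sum (hPRI : S_PRI.{0, 0, 0}) (hBD : S_BD.{0, 0, 0}) {h0 : G}
    (hfin : IsOfFinOrder h0) (lam : HQ (n + 1) (Cen h0) →ₗ[ℚ] ℚ)
    (e : HQ (n + 1) (Cen h0)) (Λ : Src n G →ₗ[ℚ] ℚ) (p : ℕ) {h h' : G}
    (hh : h' ∈ Subgroup.zpowers h) (hz : h ∈ Subgroup.zpowers h') (c : HQ (n + 1) (Cen h)) :
    LL hfin lam e Λ p h' (HQ.map (n + 1) (cHom 1 (cHom_pow h hh)) c) =
      (nC h0 hfin h : ℚ)⁻¹ * ∑ g ∈ T0 h0 hfin, tvL lam e
        ((Λ ∘ₗ symL n G p h') ∘ₗ HQ.map (n + 1) (cHom 1 (cHom_pow h hh))) g c := by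
  rw [LL_apply, nC_pow h0 hfin hh hz, sum_tvL hPRI hBD hfin lam e hh hz]

theorem admL_LL (hPRI : S_PRI.{0, 0, 0}) (hBD : S_BD.{0, 0, 0}) {h0 : G}
    (hfin : IsOfFinOrder h0) {lam : HQ (n + 1) (Cen h0) →ₗ[ℚ] ℚ} (hlam : DenG (n + 1) lam)
    (e : HQ (n + 1) (Cen h0)) (Λ : Src n G →ₗ[ℚ] ℚ) : AdmL n G (LL hfin lam e Λ) := by
  refine ⟨?_, ?_, ?_, ?_, ?_⟩
  · intro p h hv
    have h1 : symL n G p h = 0 := LinearMap.ext fun c => sym_invalid p h c hv
    unfold LL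
    rw [h1, LinearMap.comp_zero, Finset.sum_eq_zero fun g _ => tvL_S_zero lam e g, smul_zero]
  · intro p h
    exact den_smul _ (den_sum _ _ fun g _ => tvL_den hlam e _ g)
  · intro p h x c
    rw [LL_apply, LL_apply, nC_conj]
    congr 1
    refine Finset.sum_congr rfl fun g _ => ?_
    refine tvL_conj hPRI hBD lam e x _ _ (fun v => ?_) g c
    change Λ (sym p (x * h * x⁻¹) _) = Λ (sym p h v)
    rw [sym_conj]
  · intro p h h' hh j k c hv hz hp
    rw [LL_sum hPRI hBD hfin lam e Λ p hh hz, LL_apply]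
    congr 1
    refine Finset.sum_congr rfl fun g _ => ?_
    congr 2
    refine LinearMap.ext fun v => ?_
    change Λ (sym p h' _) = Λ (sym p h v)
    rw [sym_frob p h h' hh j k v hv hz hp]
  · intro h c hfinh
    have h1 : ∀ p ∈ (orderOf h).primeFactors,
        ∀ a ∈ (Finset.range (orderOf h)).filter (fun a => a.Coprime (orderOf h)),
        LL hfin lam e Λ p (h ^ a) (HQ.map (n + 1) (cHom 1 (cHom_pow h (Subgroup.pow_mem _
          (Subgroup.mem_zpowers h) a))) c) =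
        (nC h0 hfin h : ℚ)⁻¹ * ∑ g ∈ T0 h0 hfin, tvL lam e ((Λ ∘ₗ symL n G p (h ^ a)) ∘ₗ
          HQ.map (n + 1) (cHom 1 (cHom_pow h (Subgroup.pow_mem _
            (Subgroup.mem_zpowers h) a)))) g c := by
      intro p _ a ha
      obtain ⟨b, hb⟩ := exists_pow_eq_self_of_coprime (Finset.mem_filter.1 ha).2
      have h2 : (h ^ a) ^ b ∈ Subgroup.zpowers (h ^ a) :=
        Subgroup.pow_mem _ (Subgroup.mem_zpowers _) _
      rw [hb] at h2
      exact LL_sum hPRI hBD hfin lam e Λ p (Subgroup.pow_mem _ (Subgroup.mem_zpowers h) a) h2 c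
    rw [Finset.sum_congr rfl fun p hp => Finset.sum_congr rfl fun a ha => h1 p hp a ha]
    simp only [← Finset.mul_sum]
    rw [Finset.sum_congr rfl fun p _ => Finset.sum_comm, Finset.sum_comm,
      Finset.sum_eq_zero, mul_zero]
    intro g _
    by_cases H : ∃ x, x * h * x⁻¹ = g ∧ Gd h0 h x
    · obtain ⟨x, hx, H⟩ := H
      simp only [tvL_eq hPRI hBD lam e _ hx H]
      simp only [← Finset.mul_sum]
      have h2 := congrArg Λ (sym_sum h (HQ.map (n + 1) (cHom x⁻¹ H.bwd) e) hfinh)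
      rw [map_zero, map_sum] at h2
      simp only [map_sum] at h2
      simp only [LinearMap.comp_apply]
      change _ * (∑ p ∈ (orderOf h).primeFactors,
        ∑ a ∈ (Finset.range (orderOf h)).filter (fun a => a.Coprime (orderOf h)),
          Λ (sym p (h ^ a) _)) = 0
      rw [h2, mul_zero]
    · refine Finset.sum_eq_zero fun p _ => Finset.sum_eq_zero fun a _ => ?_
      rw [tvL_zero lam e _ H, LinearMap.zero_apply]

theorem UdG_map {P Q : Type} [Group P] [Group Q] (κ : P →* Q) {c : HQ m P} (hc : c ∈ UdG m P) :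
    HQ.map m κ c ∈ UdG m Q := by
  intro lam hlam
  exact hc (lam ∘ₗ Hk.map ℚ m κ) (TPB.denG_comp κ hlam)

/-- The conjugacy class of the group generated by `h`. -/
def czS (h : G) : Set (Subgroup G) := {K | ∃ x : G, K = Subgroup.zpowers (x * h * x⁻¹)}

theorem Gd_of_czSS {h0 h : G} (H : czS h = czS h0) : ∃ x, Gd h0 h x := by
  have h1 : Subgroup.zpowers h0 ∈ czS h0 := ⟨1, by rw [one_mul, inv_one, mul_one]⟩
  rw [← H] at h1
  obtain ⟨x, hx⟩ := h1
  exact ⟨x, hx.symm⟩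

theorem zpowers_conj {g g' : G} (h : Subgroup.zpowers g = Subgroup.zpowers g') (y : G) :
    Subgroup.zpowers (y * g * y⁻¹) = Subgroup.zpowers (y * g' * y⁻¹) := by
  have h1 : ∀ a : G, Subgroup.zpowers (y * a * y⁻¹) =
      (Subgroup.zpowers a).map (MulAut.conj y).toMonoidHom := by
    intro a
    rw [MonoidHom.map_zpowers]
    rfl
  rw [h1, h1, h]

theorem czS_of_Gd {h0 h x : G} (H : Gd h0 h x) : czS h = czS h0 := by
  ext K
  constructor
  · rintro ⟨y, rfl⟩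
    refine ⟨y * x⁻¹, ?_⟩
    have h1 := zpowers_conj H (y * x⁻¹)
    rw [← h1]
    congr 1
    group
  · rintro ⟨y, rfl⟩
    refine ⟨y * x, ?_⟩
    have h1 := zpowers_conj H y
    rw [← h1]
    congr 1
    group

end SEP

open SEP

/-- The integral functionals detect everything modulo the symbols with undetected classes. -/
theorem t_SEP (hPRI : S_PRI.{0, 0, 0}) (hBD : S_BD.{0, 0, 0}) {n : ℕ} {G : Type} [Group G]
    (x : Src n G) (y : Sym n G →₀ ℚ) (hy : x = ∑ s ∈ y.support, y s • sym s.p s.h s.c)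
    (hx : ∀ (N0 : ℕ) (L : ∀ (_ : ℕ) (h : G), HQ (n + 1) (Cen h) →ₗ[ℚ] ℚ), AdmL n G L →
      (∀ p h, orderOf h ≠ N0 → L p h = 0) → ∑ s ∈ y.support, y s * L s.p s.h s.c = 0) :
    x ∈ UdSrc n G := by
  classical
  by_contra hne
  obtain ⟨Λ, h1, h2⟩ := Submodule.exists_le_ker_of_notMem hne
  apply h1
  have hU : ∀ (p : ℕ) (h : G) (c : HQ (n + 1) (Cen h)), c ∈ UdG (n + 1) (Cen h) →
      Λ (sym p h c) = 0 := by
    intro p h c hc
    by_cases hv : Adm p h
    · exact h2 (Submodule.subset_span ⟨p, h, c, hv, hc, rfl⟩)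
    · rw [sym_invalid p h c hv, map_zero]
  have hΛ : Λ x = ∑ s ∈ y.support, y s * Λ (sym s.p s.h s.c) := by
    rw [hy, map_sum]
    exact Finset.sum_congr rfl fun s _ => by rw [map_smul, smul_eq_mul]
  rw [hΛ, ← Finset.sum_filter_add_sum_filter_not y.support (fun s => Adm s.p s.h)]
  have h3 : ∑ s ∈ y.support.filter (fun s => ¬ Adm s.p s.h), y s * Λ (sym s.p s.h s.c) = 0 := by
    refine Finset.sum_eq_zero fun s hs => ?_
    rw [sym_invalid s.p s.h s.c (Finset.mem_filter.1 hs).2, map_zero, mul_zero]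
  rw [h3, add_zero, ← Finset.sum_fiberwise_of_maps_to
    (t := (y.support.filter (fun s => Adm s.p s.h)).image (fun s : Sym n G => czS s.h))
    (g := fun s : Sym n G => czS s.h) (fun s hs => Finset.mem_image_of_mem _ hs)]
  apply Finset.sum_eq_zero
  intro C hC
  obtain ⟨s0, hs0, rfl⟩ := Finset.mem_image.1 hC
  have hfin : IsOfFinOrder s0.h := (Finset.mem_filter.1 hs0).2.2.1
  set A := (y.support.filter (fun s => Adm s.p s.h)).filter (fun s => czS s.h = czS s0.h) with hA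
  -- the data for the linear algebra
  let S : Sym n G × G → (HQ (n + 1) (Cen s0.h) →ₗ[ℚ] ℚ) := fun t =>
    if H : ∃ x, x * t.1.h * x⁻¹ = t.2 ∧ Gd s0.h t.1.h x then
      (y t.1 * (nC s0.h hfin t.1.h : ℚ)⁻¹) • ((Λ ∘ₗ symL n G t.1.p t.1.h) ∘ₗ
        HQ.map (n + 1) (cHom H.choose⁻¹ H.choose_spec.2.bwd)) else 0
  let v : Sym n G × G → HQ (n + 1) (Cen s0.h) := fun t =>
    if H : ∃ x, x * t.1.h * x⁻¹ = t.2 ∧ Gd s0.h t.1.h x then
      HQ.map (n + 1) (cHom H.choose H.choose_spec.2.fwd) t.1.c else 0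
  have hSv : ∀ (f : HQ (n + 1) (Cen s0.h) →ₗ[ℚ] ℚ) (e : HQ (n + 1) (Cen s0.h)) (t : Sym n G × G),
      f (v t) * S t e = y t.1 * ((nC s0.h hfin t.1.h : ℚ)⁻¹ *
        tvL f e (Λ ∘ₗ symL n G t.1.p t.1.h) t.2 t.1.c) := by
    intro f e t
    by_cases H : ∃ x, x * t.1.h * x⁻¹ = t.2 ∧ Gd s0.h t.1.h x
    · have e1 : S t = (y t.1 * (nC s0.h hfin t.1.h : ℚ)⁻¹) • ((Λ ∘ₗ symL n G t.1.p t.1.h) ∘ₗ
          HQ.map (n + 1) (cHom H.choose⁻¹ H.choose_spec.2.bwd)) := dif_pos H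
      have e2 : v t = HQ.map (n + 1) (cHom H.choose H.choose_spec.2.fwd) t.1.c := dif_pos H
      rw [e1, e2, tvL_eq hPRI hBD f e _ H.choose_spec.1 H.choose_spec.2, LinearMap.smul_apply,
        smul_eq_mul, LinearMap.comp_apply]
      ring
    · have e1 : S t = 0 := dif_neg H
      rw [e1, tvL_zero f e _ H, LinearMap.zero_apply, LinearMap.zero_apply]
      ring
  have hSU : ∀ t, ∀ u ∈ UdG (n + 1) (Cen s0.h), S t u = 0 := by
    intro t u hu
    by_cases H : ∃ x, x * t.1.h * x⁻¹ = t.2 ∧ Gd s0.h t.1.h x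
    · have e1 : S t = (y t.1 * (nC s0.h hfin t.1.h : ℚ)⁻¹) • ((Λ ∘ₗ symL n G t.1.p t.1.h) ∘ₗ
          HQ.map (n + 1) (cHom H.choose⁻¹ H.choose_spec.2.bwd)) := dif_pos H
      rw [e1, LinearMap.smul_apply, LinearMap.comp_apply]
      change _ • Λ (sym t.1.p t.1.h _) = 0
      rw [hU _ _ _ (UdG_map _ hu), smul_zero]
    · have e1 : S t = 0 := dif_neg H
      rw [e1, LinearMap.zero_apply]
  have hlin : ∀ f ∈ {f : HQ (n + 1) (Cen s0.h) →ₗ[ℚ] ℚ | DenG (n + 1) f},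
      ∀ e : HQ (n + 1) (Cen s0.h), ∑ t ∈ A ×ˢ T0 s0.h hfin, f (v t) * S t e = 0 := by
    intro f hf e
    have h4 := hx (orderOf s0.h) (LL hfin f e Λ) (admL_LL hPRI hBD hfin hf e Λ)
      (fun p h hord => LL_ord hfin f e Λ p h hord)
    rw [Finset.sum_product]
    have h5 : ∀ s ∈ A, ∑ g ∈ T0 s0.h hfin, f (v (s, g)) * S (s, g) e =
        y s * LL hfin f e Λ s.p s.h s.c := by
      intro s _
      rw [LL_apply, Finset.mul_sum, Finset.mul_sum]
      exact Finset.sum_congr rfl fun g _ => hSv f e (s, g)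
    rw [Finset.sum_congr rfl h5, ← h4]
    refine Finset.sum_subset ?_ ?_
    · intro s hs
      exact (Finset.mem_filter.1 (Finset.mem_filter.1 hs).1).1
    · intro s hs hsA
      have h6 : LL hfin f e Λ s.p s.h s.c = 0 := by
        by_cases hv : Adm s.p s.h
        · have h7 : czS s.h ≠ czS s0.h := fun h8 =>
            hsA (Finset.mem_filter.2 ⟨Finset.mem_filter.2 ⟨hs, hv⟩, h8⟩)
          rw [LL_apply, Finset.sum_eq_zero, mul_zero]
          intro g _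
          rw [tvL_zero f e, LinearMap.zero_apply]
          rintro ⟨x, -, H⟩
          exact h7 (czS_of_Gd H)
        · rw [(admL_LL hPRI hBD hfin hf e Λ).zero s.p s.h hv, LinearMap.zero_apply]
      rw [h6, mul_zero]
  have h8 := la {f : HQ (n + 1) (Cen s0.h) →ₗ[ℚ] ℚ | DenG (n + 1) f} (UdG (n + 1) (Cen s0.h))
    (fun c hc => hc) (A ×ˢ T0 s0.h hfin) S hSU v hlin
  rw [Finset.sum_product] at h8
  rw [← h8]
  refine Finset.sum_congr rfl fun s hs => ?_
  obtain ⟨x, hxG⟩ := Gd_of_czSS (Finset.mem_filter.1 hs).2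
  have h9 : ∀ g ∈ T0 s0.h hfin, S (s, g) (v (s, g)) =
      if (∃ x, x * s.h * x⁻¹ = g) then
        y s * (nC s0.h hfin s.h : ℚ)⁻¹ * Λ (sym s.p s.h s.c) else 0 := by
    intro g hg
    by_cases H : ∃ x, x * s.h * x⁻¹ = g ∧ Gd s0.h s.h x
    · have e1 : S (s, g) = (y s * (nC s0.h hfin s.h : ℚ)⁻¹) • ((Λ ∘ₗ symL n G s.p s.h) ∘ₗ
          HQ.map (n + 1) (cHom H.choose⁻¹ H.choose_spec.2.bwd)) := dif_pos H
      have e2 : v (s, g) = HQ.map (n + 1) (cHom H.choose H.choose_spec.2.fwd) s.c := dif_pos H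
      rw [e1, e2, if_pos ⟨H.choose, H.choose_spec.1⟩, LinearMap.smul_apply, smul_eq_mul,
        LinearMap.comp_apply]
      congr 1
      change Λ (sym s.p s.h _) = _
      have H1 : ∀ z ∈ Cen s.h, 1 * z * 1⁻¹ ∈ Cen s.h := by
        intro z hz
        simpa using hz
      rw [cMap_comp H.choose_spec.2.fwd H.choose_spec.2.bwd (inv_mul_cancel _) H1, map_one']
    · have e1 : S (s, g) = 0 := dif_neg H
      rw [e1, LinearMap.zero_apply, if_neg]
      rintro ⟨x, hx⟩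
      refine H ⟨x, hx, ?_⟩
      unfold Gd
      rw [hx]
      exact mem_T0.1 hg
  rw [Finset.sum_congr rfl h9, ← Finset.sum_filter, Finset.sum_const, nsmul_eq_mul]
  have h10 : (nC s0.h hfin s.h : ℚ) ≠ 0 := by
    rw [Nat.cast_ne_zero]
    refine (Finset.card_pos.2 ⟨x * s.h * x⁻¹, Finset.mem_filter.2 ⟨mem_T0.2 hxG, x, rfl⟩⟩).ne'
  change _ = (nC s0.h hfin s.h : ℚ) * _
  field_simp

end Pool.Agent.FJA
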