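import Pool.Agent.AUK.FJA.Asm
import Pool.Agent.AUK.FJA.St7

/-!
# STP: the induction step
-/

set_option autoImplicit false

open Matrix Pool.Agent.WhK Pool.Agent.Lib25 CategoryTheory

noncomputable section

namespace Pool.Agent.FJA

namespace STP

variable {m : ℕ} {G : Type} [Group G]

theorem mem_zp {N : ℕ} [NeZero N] (φ : Cyc N →* G) (c : Cyc N) :
    φ c ∈ Subgroup.zpowers (φ (gen N)) := by
  rw [cyc_eq_pow c, map_pow]
  exact Subgroup.npow_mem_zpowers _ _

theorem fin_gen {N : ℕ} [NeZero N] (φ : Cyc N →* G) : IsOfFinOrder (φ (gen N)) := by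
  rw [isOfFinOrder_iff_pow_eq_one]
  exact ⟨N, Nat.pos_of_ne_zero (NeZero.ne N), by rw [← map_pow, cyc_pow, map_one]⟩

/-- The symbols of the data are admissible. -/
theorem adm_uG {N : ℕ} [NeZero N] (φ : Cyc N →* G) (u : (MonoidAlgebra ℤ (Cyc N))ˣ) :
    Adm1 (φ (gen N)) (uG φ u) := by
  refine ⟨fin_gen φ, ?_⟩
  let ψ : Cyc N →* Subgroup.zpowers (φ (gen N)) :=
    φ.codRestrict (Subgroup.zpowers (φ (gen N))) (mem_zp φ)
  refine ⟨uG ψ u, ?_⟩
  apply Units.ext
  change MonoidAlgebra.mapDomain _ (MonoidAlgebra.mapDomain _ u.val) =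
    MonoidAlgebra.mapDomain _ u.val
  have h1 : ∀ w : MonoidAlgebra ℤ (Cyc N),
      MonoidAlgebra.mapDomain (Subgroup.zpowers (φ (gen N))).subtype
        (MonoidAlgebra.mapDomain ψ w) = MonoidAlgebra.mapDomain φ w := by
    intro w
    induction w using MonoidAlgebra.induction_linear with
    | zero => simp
    | add x y hx hy => rw [MonoidAlgebra.mapDomain_add, MonoidAlgebra.mapDomain_add, hx, hy,
        MonoidAlgebra.mapDomain_add]
    | single g c => rw [MonoidAlgebra.mapDomain_single, MonoidAlgebra.mapDomain_single,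
        MonoidAlgebra.mapDomain_single]; rfl
  exact h1 _

theorem val_mem (s : Sy1 m G) {N : ℕ} (h1 : orderOf (s.φ (gen s.N)) = s.N) (h2 : s.N < N) :
    s.val ∈ LowN m G N :=
  Submodule.subset_span ⟨_, _, _, adm_uG s.φ s.u, by rw [h1]; exact h2, rfl⟩

theorem ev_zero (s : Sy1 m G) (p : ℕ) [Fact p.Prime] (F : (Fin (m + 1) → G) → G → ℚ)
    (h : ∀ (c : Cyc s.N) (a : Fin (m + 1) → G), F a (s.φ c) = 0) : s.ev p F = 0 := by
  refine Finset.sum_eq_zero fun c _ => ?_
  have h1 : evc (fun z : Cen (s.φ (gen s.N)) => (z : G)) F s.w (s.φ c) = 0 := by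
    unfold evc
    refine Finset.sum_eq_zero fun z _ => ?_
    change s.w z * F (fun i => (z i : G)) (s.φ c) = 0
    rw [h, mul_zero]
  rw [h1, Rat.cast_zero, zero_mul]

theorem exists_phi (s : Sy1 m G) {N : ℕ} (hN : s.N = N) :
    ∃ φ : Cyc N →* G, Function.Injective φ ∧ φ (gen N) = s.φ (gen s.N) := by
  subst hN
  exact ⟨s.φ, s.inj, rfl⟩

theorem exists_zv {N : ℕ} [NeZero N] (φ : Cyc N →* G) (s : Sy1 m G) (hN : s.N = N)
    (h : s.φ (gen s.N) = φ (gen N)) :
    ∃ (z : ZC ℚ m (Cen (φ (gen N)))) (v : (MonoidAlgebra ℤ (Cyc N))ˣ),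
      s.val = sym1 (φ (gen N)) (cl ℚ m _ z) (uG φ v) ∧
      ∀ (p : ℕ) [Fact p.Prime] (F : (Fin (m + 1) → G) → G → ℚ),
        s.ev p F = ∑ c : Cyc N,
          ((evc (fun z : Cen (φ (gen N)) => (z : G)) F (psi ℚ m _ (ch ℚ m _ z)) (φ c) : ℚ) :
            ℚ_[p]) * plog p v c := by
  obtain ⟨N', pos, φ', inj, u, z⟩ := s
  change N' = N at hN
  subst hN
  have h1 : φ' = φ := cyc_ext h
  subst h1
  exact ⟨z, u, rfl, fun _ _ _ => rfl⟩

end STP

open STP in
theorem t_STP : S_REP → S_TPC → S_STP := by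
  classical
  intro hREP hTPC m G _ hDen N hN1 y hy hZ
  have hN0 : 0 < N := by omega
  have : NeZero N := ⟨hN0.ne'⟩
  obtain ⟨T, hT1, hT2, hT3⟩ := hREP m G N hN0
  let A : Set (Sy1 m G) := {s | orderOf (s.φ (gen s.N)) = s.N ∧
    (s.N < N ∨ (s.N = N ∧ s.φ (gen s.N) ∈ T))}
  have hy' : y ∈ Submodule.span ℚ (Sy1.val '' A) := by
    refine (Submodule.span_le.2 ?_) hy
    rintro x ⟨h, c, u, hadm, hord, rfl⟩
    obtain ⟨s, hs1, hs2, hs3⟩ := hT3 h c u hadm (Nat.lt_succ_iff.1 hord)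
    exact Submodule.subset_span ⟨s, ⟨hs2, hs3⟩, hs1⟩
  obtain ⟨D, hDA, hD⟩ := (Finsupp.mem_span_image_iff_linearCombination ℚ).1 hy'
  have hDA' : ∀ s ∈ D.support, s ∈ A := fun s hs => (Finsupp.mem_supported _ _).1 hDA hs
  have hval : y = ∑ s ∈ D.support, D s • s.val := by
    rw [← hD, Finsupp.linearCombination_apply]
    rfl
  have hle : ∀ s ∈ D.support, s.N ≤ N := by
    intro s hs
    rcases (hDA' s hs).2 with h | h
    · exact h.le
    · exact h.1.le
  rw [hval, ← Finset.sum_filter_add_sum_filter_not D.support (fun s => s.N = N)]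
  refine Submodule.add_mem _ ?_ ?_
  · rw [← Finset.sum_fiberwise_of_maps_to
      (t := (D.support.filter (fun s => s.N = N)).image (fun s => s.φ (gen s.N)))
      (g := fun s => s.φ (gen s.N)) (fun s hs => Finset.mem_image_of_mem _ hs)]
    refine Submodule.sum_mem _ fun t ht => ?_
    obtain ⟨s0, hs0, hs0t⟩ := Finset.mem_image.1 ht
    obtain ⟨hs0D, hs0N⟩ := Finset.mem_filter.1 hs0
    change s0.φ (gen s0.N) = t at hs0t
    have htT : t ∈ T := by
      rcases (hDA' s0 hs0D).2 with h | h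
      · exact absurd hs0N h.ne
      · rw [← hs0t]; exact h.2
    obtain ⟨φ, hφ, hφt⟩ := exists_phi s0 hs0N
    rw [hs0t] at hφt
    obtain ⟨p, hp, hpN⟩ := Nat.exists_prime_and_dvd hN1.ne'
    have : Fact p.Prime := ⟨hp⟩
    set S : Finset (Sy1 m G) :=
      (D.support.filter (fun s => s.N = N)).filter (fun s => s.φ (gen s.N) = t) with hS
    have hSm : ∀ s ∈ S, s ∈ D.support ∧ s.N = N ∧ s.φ (gen s.N) = φ (gen N) := by
      intro s hs
      rw [hS, Finset.mem_filter, Finset.mem_filter] at hs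
      exact ⟨hs.1.1, hs.1.2, by rw [hφt]; exact hs.2⟩
    have hzv : ∀ s : Sy1 m G, ∃ (z : ZC ℚ m (Cen (φ (gen N)))) (v : (MonoidAlgebra ℤ (Cyc N))ˣ),
        s.N = N → s.φ (gen s.N) = φ (gen N) →
        (s.val = sym1 (φ (gen N)) (cl ℚ m _ z) (uG φ v) ∧
        ∀ (p : ℕ) [Fact p.Prime] (F : (Fin (m + 1) → G) → G → ℚ),
          s.ev p F = ∑ c : Cyc N,
            ((evc (fun z : Cen (φ (gen N)) => (z : G)) F (psi ℚ m _ (ch ℚ m _ z)) (φ c) : ℚ) :
              ℚ_[p]) * plog p v c) := by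
      intro s
      by_cases h : s.N = N ∧ s.φ (gen s.N) = φ (gen N)
      · obtain ⟨z, v, h1, h2⟩ := exists_zv φ s h.1 h.2
        exact ⟨z, v, fun _ _ => ⟨h1, h2⟩⟩
      · exact ⟨0, 1, fun h1 h2 => absurd ⟨h1, h2⟩ h⟩
    choose z v hzv using hzv
    have hord : orderOf (φ (gen N)) = N := by rw [hφt]; exact hT1 t htT
    have key := hTPC m G N p φ hφ (hDen (φ (gen N)) (fin_gen φ) (by
      intro h1
      rw [h1, orderOf_one] at hord
      omega)) (Sy1 m G) S (fun s => D s) z v (by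
      intro F hF
      have hF' : GCoch m (fun y => orderOf y = N) F :=
        ⟨hF.inv, hF.coc, fun a y h => (hF.supp a y h).1, hF.den⟩
      have h0 := hZ D hD N hN0 hle p hpN F hF'
      have h1 : ev1 p F D = ∑ s ∈ D.support, ((D s : ℚ) : ℚ_[p]) * s.ev p F := by
        unfold ev1
        rw [Finsupp.linearCombination_apply]
        refine Finset.sum_congr rfl fun s _ => ?_
        exact Rat.smul_def _ _
      have h2 : ∑ s ∈ S, ((D s : ℚ) : ℚ_[p]) * s.ev p F =
          ∑ s ∈ D.support, ((D s : ℚ) : ℚ_[p]) * s.ev p F := by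
        refine Finset.sum_subset (fun s hs => (hSm s hs).1) fun s hs hsS => ?_
        rw [ev_zero s p F, mul_zero]
        intro c a
        by_contra hne
        obtain ⟨ho, x, hx⟩ := hF.supp a _ hne
        have hmem : s.φ c ∈ Subgroup.zpowers (s.φ (gen s.N)) := mem_zp s.φ c
        have hdvd := orderOf_dvd_of_mem_zpowers hmem
        obtain ⟨hA1, hA2⟩ := hDA' s hs
        rw [ho, hA1] at hdvd
        rcases hA2 with h | ⟨h, hsT⟩
        · exact absurd (Nat.le_of_dvd (Nat.pos_of_ne_zero (NeZero.ne s.N)) hdvd) (by omega)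
        · have hfin : Finite (Subgroup.zpowers (s.φ (gen s.N))) :=
            finite_zpowers.2 (fin_gen s.φ)
          have heq : Subgroup.zpowers (s.φ c) = Subgroup.zpowers (s.φ (gen s.N)) := by
            refine Subgroup.eq_of_le_of_card_ge (Subgroup.zpowers_le.2 hmem) ?_
            rw [Nat.card_zpowers, Nat.card_zpowers, ho, hA1, h]
          have hg : s.φ (gen s.N) ∈ Subgroup.zpowers (s.φ c) := by
            rw [heq]; exact Subgroup.mem_zpowers _
          obtain ⟨k, hk⟩ := Subgroup.mem_zpowers_iff.1 hg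
          have hx2 : x * s.φ (gen s.N) * x⁻¹ ∈ Subgroup.zpowers t := by
            rw [← hk, ← conj_zpow, ← hφt]
            exact Subgroup.zpow_mem _ hx k
          have := hT2 _ hsT t htT x hx2
          apply hsS
          rw [hS, Finset.mem_filter, Finset.mem_filter]
          exact ⟨⟨hs, h⟩, this⟩
      rw [← h1, h0] at h2
      rw [← h2]
      refine Finset.sum_congr rfl fun s hs => ?_
      rw [(hzv s (hSm s hs).2.1 (hSm s hs).2.2).2 p F])
    have h3 : ∑ s ∈ S, D s • s.val =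
        ∑ k ∈ S, D k • sym1 (φ (gen N)) (cl ℚ m _ (z k)) (uG φ (v k)) :=
      Finset.sum_congr rfl fun s hs => by rw [← (hzv s (hSm s hs).2.1 (hSm s hs).2.2).1]
    rw [h3]
    exact key
  · refine Submodule.sum_mem _ fun s hs => ?_
    obtain ⟨hsD, hsN⟩ := Finset.mem_filter.1 hs
    refine Submodule.smul_mem _ _ (val_mem s (hDA' s hsD).1 ?_)
    have := hle s hsD
    omega

end Pool.Agent.FJA
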