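import Pool.Agent.AUK.FJA.P_CKX
import Pool.Agent.AUK.FJA.P_IDK

/-!
# The part with coefficients `K_1`
-/

set_option autoImplicit false
set_option linter.unusedSectionVars false

open Matrix Pool.Agent.WhK Pool.Agent.Lib25 CategoryTheory

noncomputable section

namespace Pool.Agent.FJA

/-- The conclusion for the part with coefficients `K_1`: `y` is a combination of symbols with undetected
classes. -/
theorem t_Y3 (hCKX : S_CKX) (hBRF : S_BRF) (hPLB : S_PLB)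
    (hREP : S_REP) (hTTH : S_TTH) (hTPA : S_TPA) (hTPD : S_TPD)
    (ε0 : ∀ N : ℕ, ℕ → IdemMat (LaurentPolynomial (MonoidAlgebra ℤ (Cyc N))))
    (v : ∀ (N : ℕ) (_ : ℕ) (q : ℕ), [Fact q.Prime] → Cyc N → ℚ_[q]) (K : ℕ → ℕ)
    (hND : NodeD ε0 v K) (m : ℕ) (G : Type) [Group G]
    (hLM : ∀ (p : ℕ) [Fact p.Prime], LMh G p m)
    (A1 : Src1 m G →ₗ[ℚ] KB (m + 1) (MonoidAlgebra ℤ G)) (hA1 : IsA1 A1)
    (a : HQ (m + 2) (G × Multiplicative ℤ)) (V : KB (m + 1) (MonoidAlgebra ℤ G))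
    (hV : V ∈ Submodule.span ℚ (Set.range (rawV ε0 (m + 1) G))) (y : Src1 m G)
    (hrel : tau (m + 1) G a + V + A1 y = 0) : y ∈ UdSrc1 m G := by
  classical
  refine t_INDk hREP hTTH hTPA hTPD m G y ?_
  intro D hD N1 hN1 hle p _ hp F hF
  obtain ⟨D0, w0, hmem⟩ := hBRF ε0 m G A1 hA1 a V hV D (by rw [hD]; exact hrel)
  have hch : chn1 m G D = ∑ i : {s // s ∈ D.support}, D i.1 • E1 m i.1.φ i.1.u i.1.w := by
    have h1 : chn1 m G D = ∑ s ∈ D.support, D s • s.chn := rfl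
    rw [h1, ← Finset.sum_coe_sort]
    rfl
  have hev : ev1 p F D = ∑ i : {s // s ∈ D.support}, ((D i.1 : ℚ) : ℚ_[p]) *
      ∑ c : Cyc i.1.N, ((evc (fun z : Cen (i.1.φ (gen i.1.N)) => (z : G)) F i.1.w (i.1.φ c) : ℚ) :
        ℚ_[p]) * plog p i.1.u c := by
    have h1 : ev1 p F D = ∑ s ∈ D.support, D s • s.ev p F := rfl
    rw [h1, ← Finset.sum_coe_sort]
    refine Finset.sum_congr rfl fun i _ => ?_
    rw [Algebra.smul_def, eq_ratCast]
    rfl
  rw [hch] at hmem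
  rw [hev]
  have hNe : ∀ i : {s // s ∈ D.support}, NeZero i.1.N := fun i => i.1.pos
  have hw : ∀ i : {s // s ∈ D.support}, i.1.w ∈ cyc ℚ (Cen (i.1.φ (gen i.1.N))) m := fun i => by
    cases m with
    | zero => exact Submodule.mem_top
    | succ m => exact psi_ch_mem m i.1.z
  exact hCKX G p m N1 (hLM p) hN1 hp (fun y => orderOf y = N1) F (fun _ h => h) hF D0
      (fun j => ε0 (D0.N j) (D0.p j)) (fun j q _ => v (D0.N j) (D0.p j) q)
      (fun j => hND.loc (D0.N j) (D0.p j) (D0.dvd j)) w0 {s // s ∈ D.support} Finset.univ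
      (fun i => D i.1) (fun i => i.1.N) (fun i => i.1.φ) (fun i => i.1.u) (fun i => plog p i.1.u)
      (fun i => i.1.w) (fun i => (hle i.1 i.2).imp id fun h => IDK.evu i.1.φ i.1.z h)
      (fun i => i.1.inj) (fun i => (hPLB p (Cyc i.1.N) i.1.u).1) hw hmem

end Pool.Agent.FJA
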