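import Pool.Agent.FJA.Chains
import Pool.Agent.AUK.FJA.Core

/-!
# Statements of the modules, block 1: the trace method for simplices of invertible matrices

Notation of the comments: `Γ` a group, `k` a field of characteristic zero, `K[Γ]` the group algebra,
`U = UX X`, `tr` the trace of matrices, `j = jm k V` the ring homomorphism
`Mat(k[Γ]) → Mat(k[Rec Γ V])`, `ω_i = wm k ι i`.
-/

set_option autoImplicit false

open Matrix

namespace Pool.Agent.FJA

universe u w x

/-! ## Module TXA -/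

/-- TXA (a): `TX` is additive and homogeneous in the function `φ`.
(`lin k (φ + φ') = lin k φ + lin k φ'` because `((φ μ + φ' μ : ℚ) : k)` is the sum.) -/
def S_TXlin : Prop := ∀ (k : Type w) [Field k] [CharZero k] (Γ : Type u) [Group Γ] (ι : Type x)
    [Fintype ι] [DecidableEq ι] (M N : ℕ) (X : Fin M → (Matrix ι ι (MonoidAlgebra k Γ))ˣ),
    (∀ φ φ' : Rec Γ (Fin M) → ℚ, TX (fun μ => φ μ + φ' μ) N X = TX φ N X + TX φ' N X) ∧
    (∀ (c : ℚ) (φ : Rec Γ (Fin M) → ℚ), TX (fun μ => c * φ μ) N X = (c : k) * TX φ N X)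

/-- TXA (b): left invariance.  If `φ` is invariant under conjugation by `Γ`, then
`TX φ N (g X) = TX φ N X`.

Proof: `UX (g X) = j g * UX X * j g⁻¹` (the factors `j(g X_i) ω_i j(X_i⁻¹ g⁻¹) =
j g (j X_i ω_i j X_i⁻¹) j g⁻¹` multiply up, also for `M = 0`).  So `(UX (gX))^N = j g U^N j g⁻¹`, and
`lin φ (tr (j g * Z)) = lin φ (tr (Z * j g))` for every matrix `Z` over `k[Rec]`: both sides are
bilinear in `g` and `Z`, and for `g` a matrix unit times `γ ∈ Γ`, `Z` a matrix unit times `μ` this is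
the hypothesis `φ (inc γ * μ) = φ (μ * inc γ)` (write the trace of the product as
`∑ a b, g a b * Z b a` and expand the coefficients; all commutations are needed only for `inc γ`). -/
def S_TXinv : Prop := ∀ (k : Type w) [Field k] [CharZero k] (Γ : Type u) [Group Γ] (ι : Type x)
    [Fintype ι] [DecidableEq ι] (M N : ℕ) (φ : Rec Γ (Fin M) → ℚ), CjInv φ →
    ∀ (g : (Matrix ι ι (MonoidAlgebra k Γ))ˣ) (X : Fin M → (Matrix ι ι (MonoidAlgebra k Γ))ˣ),
    TX φ N (fun i => g * X i) = TX φ N X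

/-- TXA (c): faces.  `TX (φ ∘ Rec.res (i.succAbove)) N X = TX φ N (X ∘ i.succAbove)`.

Proof: the monoid homomorphism `Rec.res i.succAbove` induces a ring homomorphism of the matrices
over `k[Rec Γ (Fin (M+1))]` to the matrices over `k[Rec Γ (Fin M)]`, which sends `j A` to `j A`, `ω_i` to
`1` (`Rec.res_om_of_ne`) and `ω_(i.succAbove t)` to `ω_t` (`Rec.res_om`), hence `UX X` to the ordered
product in which the factor `i` is `j X_i j X_i⁻¹ = 1`: this is `UX (X ∘ i.succAbove)`.  For the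
ordered product one needs: `(List.ofFn f).prod = (List.ofFn (f ∘ i.succAbove)).prod` if `f i = 1`
(induction on `M` with `List.ofFn_succ`, cases `i = 0` and `i = i'.succ`, `Fin.succ_succAbove_succ`).
Finally `lin (φ ∘ θ) x = lin φ (mapDomain θ x)`. -/
def S_TXfac : Prop := ∀ (k : Type w) [Field k] [CharZero k] (Γ : Type u) [Group Γ] (ι : Type x)
    [Fintype ι] [DecidableEq ι] (M N : ℕ) (φ : Rec Γ (Fin M) → ℚ) (i : Fin (M + 1))
    (X : Fin (M + 1) → (Matrix ι ι (MonoidAlgebra k Γ))ˣ),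
    TX (fun μ => φ (Rec.res i.succAbove μ)) N X = TX φ N (fun t => X (i.succAbove t))

/-! ## Module TXB -/

/-- TXB (a): block sums.

Proof: `UX (A ⊕ B) = fromBlocks (UX A) 0 0 (UX B)` since `j` of a block diagonal matrix is block
diagonal, `ω_i` is block diagonal, and products of block diagonal matrices are block diagonal
(`Matrix.fromBlocks_multiply`; also for the empty product); the same for the `N`-th power; the trace
of a block diagonal matrix is the sum of the traces. -/
def S_TXblk : Prop := ∀ (k : Type w) [Field k] [CharZero k] (Γ : Type u) [Group Γ] (ι ι' : Type x)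
    [Fintype ι] [DecidableEq ι] [Fintype ι'] [DecidableEq ι'] (M N : ℕ) (φ : Rec Γ (Fin M) → ℚ)
    (A : Fin M → (Matrix ι ι (MonoidAlgebra k Γ))ˣ) (B : Fin M → (Matrix ι' ι' (MonoidAlgebra k Γ))ˣ),
    TX φ N (fun i => blk (A i) (B i)) = TX φ N A + TX φ N B

/-- TXB (b): reindexing.  Proof: `UX (rix e X) = (UX X).submatrix e.symm e.symm`, powers and traces
are compatible with reindexing (`Matrix.reindexAlgEquiv` or `submatrix_mul_equiv`). -/
def S_TXrix : Prop := ∀ (k : Type w) [Field k] [CharZero k] (Γ : Type u) [Group Γ] (ι ι' : Type x)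
    [Fintype ι] [DecidableEq ι] [Fintype ι'] [DecidableEq ι'] (e : ι ≃ ι') (M N : ℕ)
    (φ : Rec Γ (Fin M) → ℚ) (X : Fin M → (Matrix ι ι (MonoidAlgebra k Γ))ˣ),
    TX φ N (fun i => rix e (X i)) = TX φ N X

/-- TXB (c): base change along a homomorphism `f` of fields of characteristic zero.
Proof: `UX` and the trace commute with the base change of the coefficients
(`MonoidAlgebra.mapRingHom`), `lin k' φ (mapRingHom f x) = f (lin k φ x)`, as `f ((q : ℚ) : k) = q`
(`map_ratCast`). -/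
def S_TXmap : Prop := ∀ (k k' : Type w) [Field k] [CharZero k] [Field k'] [CharZero k'] (f : k →+* k')
    (Γ : Type u) [Group Γ] (ι : Type x) [Fintype ι] [DecidableEq ι] (M N : ℕ)
    (φ : Rec Γ (Fin M) → ℚ) (X : Fin M → (Matrix ι ι (MonoidAlgebra k Γ))ˣ),
    TX φ N (fun i => Units.map ((MonoidAlgebra.mapRingHom Γ f).mapMatrix :
      Matrix ι ι (MonoidAlgebra k Γ) →+* Matrix ι ι (MonoidAlgebra k' Γ)).toMonoidHom (X i)) =
      f (TX φ N X)

/-! ## Module TXD -/

/-- TXD (a): only recorded paths whose lists have length `N` matter.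

Proof: the coefficients of the entries of `UX X` are supported in the paths whose lists have length
one (the `i`-th factor is supported in the paths with `lst i` of length one and the other lists
empty; the lengths of the lists are additive), hence those of `(UX X)^N` in the paths whose lists
have length `N`. -/
def S_TXlen : Prop := ∀ (k : Type w) [Field k] [CharZero k] (Γ : Type u) [Group Γ] (ι : Type x)
    [Fintype ι] [DecidableEq ι] (M N : ℕ) (φ φ' : Rec Γ (Fin M) → ℚ)
    (X : Fin M → (Matrix ι ι (MonoidAlgebra k Γ))ˣ),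
    (∀ μ : Rec Γ (Fin M), (∀ i, (μ.lst i).length = N) → φ μ = φ' μ) → TX φ N X = TX φ' N X

/-- TXD (b): the first visit.  If `φ (μ * ν)` only depends on `μ` and on `ν.val` when all the lists of
`μ` are nonempty, then `TX φ N X = TX φ 1 X` for `N ≥ 1`.

Proof: `N = n + 1`, `U^N = U * U^n`.  The entries of `U` are supported in the paths with nonempty
lists (see TXD (a)), so `lin φ (tr (U * Z)) = lin φ (tr (U * j(val Z)))`, where `val` is induced by
`Rec.valHom` and `j` by `Rec.inc` (bilinearity).  And `val (U) = ∏ X_i X_i⁻¹ = 1`, so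
`val (U^n) = 1`. -/
def S_TXfst : Prop := ∀ (k : Type w) [Field k] [CharZero k] (Γ : Type u) [Group Γ] (ι : Type x)
    [Fintype ι] [DecidableEq ι] (M N : ℕ) (φ : Rec Γ (Fin M) → ℚ)
    (X : Fin M → (Matrix ι ι (MonoidAlgebra k Γ))ˣ), 0 < N →
    (∀ μ ν : Rec Γ (Fin M), (∀ i, μ.lst i ≠ []) → φ (μ * ν) = φ (μ * Rec.inc ν.val)) →
    TX φ N X = TX φ 1 X

/-- TXD (c): supports.  If the coefficients of the entries of the `X i` and of their inverses are
supported in the `γ` with `inc γ ∈ S`, `S` a submonoid which contains all `om i`, and `φ` vanishes on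
`S`, then `TX φ N X = 0`.  Proof: the elements of `k[Rec]` with coefficients supported in `S` form a
subring, so all entries of `U^N` and its trace are supported in `S`. -/
def S_TXsup : Prop := ∀ (k : Type w) [Field k] [CharZero k] (Γ : Type u) [Group Γ] (ι : Type x)
    [Fintype ι] [DecidableEq ι] (M N : ℕ) (φ : Rec Γ (Fin M) → ℚ)
    (X : Fin M → (Matrix ι ι (MonoidAlgebra k Γ))ˣ) (S : Submonoid (Rec Γ (Fin M))),
    (∀ i, Rec.om i ∈ S) →
    (∀ i a b γ, ((X i : Matrix ι ι (MonoidAlgebra k Γ)) a b).coeff γ ≠ 0 → Rec.inc γ ∈ S) →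
    (∀ i a b γ, (((X i)⁻¹ : (Matrix ι ι (MonoidAlgebra k Γ))ˣ).val a b).coeff γ ≠ 0 →
      Rec.inc γ ∈ S) →
    (∀ μ ∈ S, φ μ = 0) → TX φ N X = 0

/-! ## Module GAU -/

/-- GAU: the Gauss congruence for the traces of the powers of a matrix over `ℤ_ℓ[M]`, `M` a monoid
(here over `ℚ_ℓ[M]`, with integral coefficients), for a trace function `φ : M → ℚ` with bounded
denominators: `φ (tr U^(ℓ^(n+1))) ≡ (φ ∘ ψ) (tr U^(ℓ^n))` modulo `ℓ^(n+1) / D`, where `ψ μ = μ^ℓ`.

Proof: `gauss` in `Pool/Agent/Lib_helper25/H2/Gauss.lean` (read it first): let `S` be the finite set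
of all `μ` which occur in the entries of `U` and `J = ι × S` (a Fintype),
`cf (a, μ) (b, ν) = (U a b).coeff μ ∈ ℤ_ℓ` and `T w = D * φ (μ_0 * μ_1 * ⋯ * μ_(N-1)) ∈ ℤ` for
`w = ((a_t, μ_t))_(t ∈ ZMod N)`, `N = ℓ^(n+1)`: `T` is invariant under rotation because `φ` is a trace
function.  Then `lin φ (tr U^N) * D = ∑_w (∏_t cf (w t) (w (t+1))) * T w`, and for the periodic word
`w = v ∘ cas` the product of the `μ`'s is `(μ_0 ⋯ μ_(ℓ^n - 1))^ℓ`. -/
def S_GAU : Prop := ∀ (ℓ : ℕ) [Fact ℓ.Prime] (M : Type u) [Monoid M] (ι : Type x) [Fintype ι]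
    [DecidableEq ι] (φ : M → ℚ) (D : ℕ), IsTr φ → 0 < D → (∀ μ, ∃ z : ℤ, (D : ℚ) * φ μ = z) →
    ∀ (U : Matrix ι ι (MonoidAlgebra ℚ_[ℓ] M)), NIM U → ∀ n : ℕ,
    ‖(D : ℚ_[ℓ]) * (lin ℚ_[ℓ] φ (Matrix.trace (U ^ ℓ ^ (n + 1))) -
      lin ℚ_[ℓ] (fun μ => φ (μ ^ ℓ)) (Matrix.trace (U ^ ℓ ^ n)))‖ ≤ (ℓ : ℝ) ^ (-(n + 1 : ℤ))

/-- GAU (b): integrality of `UX X`.  Proof: the elements with integral coefficients form a subring
of `ℚ_ℓ[M]`. -/
def S_GAUint : Prop := ∀ (ℓ : ℕ) [Fact ℓ.Prime] (Γ : Type u) [Group Γ] (ι : Type x) [Fintype ι]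
    [DecidableEq ι] (M : ℕ) (X : Fin M → (Matrix ι ι (MonoidAlgebra ℚ_[ℓ] Γ))ˣ),
    (∀ i, NIU (X i)) → NIM (UX X)

/-! ## Module SEC -/

/-- SEC: a rotation invariant section with bounded denominators exists if the torsion is bounded.

Proof.  Let `P` be the set of pairs `(Y, y)`, `Y` a nonempty list, `y ∈ Γ` of finite order.  `Γ` acts
on `P` by `γ (Y, y) = (γ Y, γ y γ⁻¹)`, and `rot (a :: Y, y) = (Y ++ [y a], y)` commutes with this
action.  If `Y` has length `N` then `rot^N (Y, y) = (y Y, y) = y (Y, y)`; so some power of `rot` fixes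
`(Y, y)` (`y` has finite order), `rot` is bijective and `(Y, y) ~ (Y', y')` iff
`(Y', y') = γ rot^r (Y, y)` for some `γ` and `r ∈ ℕ` is an equivalence relation.  Choose a
representative `q` of every class and put, for `(Y, y)` in the class of `q = (Y_q, y_q)`,
`S (Y, y) = { γ head(Y_q) : γ rot^r q = (Y, y) for some r ∈ ℕ }`.
* `S (γ (Y, y)) = γ S (Y, y)`, `S (rot (Y, y)) = S (Y, y)`: clear.
* Every element of `S (Y, y)` is of the form `y^t a` with `a ∈ Y`: `rot^r (Y_q)` contains an element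
  `y_q^m head(Y_q)` (`m ∈ ℕ`), so `Y ∋ a = γ y_q^m head (Y_q) = y^m γ head(Y_q)`.  In particular `S (Y, y)`
  is finite, and it is nonempty.
* `S (Y, y)` has at most `b` elements: let `x, x'` be in it, from `(γ, r)` and `(γ', r')`; then
  `x' = γ' γ⁻¹ x` and `δ = γ' γ⁻¹` satisfies `δ rot^e (Y, y) = (Y, y)` for an integer `e` (or a
  natural number `e`, as a power of `rot` fixes the pair).  The group
  `H = { δ : δ rot^e (Y, y) = (Y, y) for some e ∈ ℕ }` is cyclic: the set of the `e ∈ ℤ` which occur is a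
  subgroup `d ℤ` of `ℤ`, `d` occurs with some `δ_0`, and `δ` with exponent `e = d m` equals `δ_0^m`,
  as `δ_0^(-m) δ` fixes `(Y, y)` and `Γ` acts freely on the nonempty lists.  `δ_0` has finite
  order: `δ_0^N rot^(d N) (Y,y) = (Y,y)` means `δ_0^N y^d = 1` (`δ_0` commutes with `y`).  So
  `S (Y, y) = H x` has at most `orderOf δ_0 ≤ b` elements.
Put `s Y y = (1 / |S|) ∑_(x ∈ S (Y, y)) x` for `Y` nonempty and `y` of finite order, `0` otherwise.
(Any other construction with the same properties is welcome.) -/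
def S_SEC : Prop := ∀ (Γ : Type u) [Group Γ] (b : ℕ), TorBd Γ b →
    ∃ s : List Γ → Γ → (Γ →₀ ℚ), Sec s ∧
      (∀ (a : Γ) (Y : List Γ) (y : Γ), IsOfFinOrder y → s (Y ++ [y * a]) y = s (a :: Y) y) ∧
      ∀ (Y : List Γ) (y x : Γ), ∃ z : ℤ, (b.factorial : ℚ) * s Y y x = z

/-! ## Module MEX -/

/-- MEX: properties of the multilinear extension.
(a) on basis elements; (b) deleting a variable: if `aug (c i) = 1` for all `i` then the extension of
`F (x ∘ i.succAbove)` at `c` is the extension of `F` at `c ∘ i.succAbove`; (c) linearity in `F` for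
finite sums; (d) denominators; (e) change of variables `γ * ·` (or any injective map `g`); (f) zero if
`F` vanishes on the product of the supports.
Proof of (b): `x ∈ piFinset` corresponds to `(x i, x ∘ i.succAbove)` (`Fin.insertNthEquiv`,
`Fin.consPiProd`, or `Fintype.sum` over all functions into a finite set); the product splits
(`Fin.prod_univ_succAbove`), the sum over `x i` is `aug (c i) = 1`.  It may help to show first that
`mex F c = ∑ x ∈ Fintype.piFinset (fun _ => T), (∏ i, c i (x i)) * F x` for every finite set `T` which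
contains all the supports. -/
def S_MEX : Prop := ∀ (Γ : Type u) (M : ℕ),
    (∀ (F : (Fin M → Γ) → ℚ) (x : Fin M → Γ), mex F (fun i => Finsupp.single (x i) 1) = F x) ∧
    (∀ (F : (Fin M → Γ) → ℚ) (c : Fin (M + 1) → (Γ →₀ ℚ)) (i : Fin (M + 1)),
      (∀ j, aug (c j) = 1) →
      mex (fun x => F (fun j => x (i.succAbove j))) c = mex F (fun j => c (i.succAbove j))) ∧
    (∀ (J : Type) (s : Finset J) (r : J → ℚ) (F : J → (Fin M → Γ) → ℚ) (c : Fin M → (Γ →₀ ℚ)),
      mex (fun x => ∑ j ∈ s, r j * F j x) c = ∑ j ∈ s, r j * mex (F j) c) ∧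
    (∀ (F : (Fin M → Γ) → ℚ) (c : Fin M → (Γ →₀ ℚ)) (D b : ℕ),
      (∀ x, ∃ z : ℤ, (D : ℚ) * F x = z) → (∀ i x, ∃ z : ℤ, (b : ℚ) * c i x = z) →
      ∃ z : ℤ, ((D * b ^ M : ℕ) : ℚ) * mex F c = z) ∧
    (∀ (F : (Fin M → Γ) → ℚ) (c : Fin M → (Γ →₀ ℚ)) (g : Γ → Γ), Function.Injective g →
      mex F (fun i => (c i).mapDomain g) = mex (fun x => F (fun i => g (x i))) c) ∧
    (∀ (F : (Fin M → Γ) → ℚ) (c : Fin M → (Γ →₀ ℚ)),
      (∀ x : Fin M → Γ, (∀ i, x i ∈ (c i).support) → F x = 0) → mex F c = 0)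

/-! ## Module PRI -/

/-- PRI: the prism identity `∂ P = f'_* - f_* - P ∂`, for all `m` (the complex is augmented, so there is
no exception for `m = 0`).

Proof: for `v : Fin (m + 1) → V` put `mix_i = mix f f' v i : Fin (m + 2) → V'`, `0 ≤ i ≤ m`.  Deleting
the entry `l` from `mix_i` gives: for `l < i` it is `mix f f' (v without v_l) (i - 1)`; for `l > i + 1`
it is `mix f f' (v without v_(l-1)) i`; for `l = i` it is
`h_i = (f v_0, …, f v_(i-1), f' v_i, …, f' v_m)`; for `l = i + 1` it is `h_(i+1)`.  The terms `l = i` and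
`l = i + 1` have the signs `+` and `-` and telescope to `h_0 - h_(m+1) = f' v - f v`; the others give
`- P ∂ v`.
Hint: it may be easier to prove first the version for lists: `∂ (x :: l) = l - x · ∂ l`, `∂ [] = 0`,
`P (v :: l) = f v · (f' v · (f'_* l)) - f v · P l`, `P [] = 0` (`x ·` = putting `x` in front), where the
identity is a three line induction, and to transport it with `List.ofFn`. -/
def S_PRI : Prop := ∀ (k : Type w) [CommRing k] (V : Type u) (V' : Type x) (f f' : V → V') (m : ℕ)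
    (c : (Fin (m + 1) → V) →₀ k),
    bd k V' (m + 1) (prism k f f' (m + 1) c) =
      hmap k f' (m + 1) c - hmap k f (m + 1) c - prism k f f' m (bd k V m c)

/-- PRI (b): `∂ ∂ = 0`, `∂` and the prism operators commute with left translations and with the maps
induced by maps of the vertices. -/
def S_BD : Prop := ∀ (k : Type w) [CommRing k] (V : Type u) (m : ℕ),
    (∀ c : (Fin (m + 2) → V) →₀ k, bd k V m (bd k V (m + 1) c) = 0) ∧
    (∀ (V' : Type x) (f : V → V') (c : (Fin (m + 1) → V) →₀ k),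
      bd k V' m (hmap k f (m + 1) c) = hmap k f m (bd k V m c)) ∧
    (∀ (V' : Type x) (f f' : V → V') (g : V → V) (g' : V' → V') (c : (Fin m → V) →₀ k),
      (∀ v, f (g v) = g' (f v)) → (∀ v, f' (g v) = g' (f' v)) →
      prism k f f' m (hmap k g m c) = hmap k g' (m + 1) (prism k f f' m c))

/-! ## Module SCH (uses TXlin, TXfac, TXlen, MEX, PRI) -/

/-- SCH: change of the section.  For a cocycle family `F` and a section `s`, the `N`-fold functionals
of `evs F s` and of `fst F` differ by the coboundary of a null functional.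

Proof.  Fix `y`.  `C = mex (F · y)` is a function on tuples of elements of `V' = (Γ →₀ ℚ)`; for tuples
`c : Fin (M + 2) → V'` with `aug (c i) = 1` one has `∑ (-1)^i C (c ∘ i.succAbove) = 0` (MEX (b), (c) and
`Coch.coc`).  Let `V = V' × V'` and `f = Prod.snd`, `f' = Prod.fst`.  For `v : Fin (M+1) → V` with all
augmentations one apply the linear extension of `C` to the identity PRI for the basis element `v`: as
`C ∂ = 0` on `prism v`, one gets
`C (f' ∘ v) - C (f ∘ v) = ∑_i (-1)^i E (v ∘ i.succAbove)`, where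
`E (v) = ∑_(j : Fin M) (-1)^j C (mix f f' v j)`, `v : Fin M → V`.
Take `v_i = (s (μ.lst i) y, δ (head (μ.lst i)))`, `y = μ.val`: `evs F s μ - fst F μ =
∑_i (-1)^i η (Rec.res i.succAbove μ)` for all `μ` with nonempty lists and `y` of finite order, where
`η (μ) = E (…)` if all lists of `μ : Rec Γ (Fin M)` are nonempty and `μ.val` has finite order, and
`η μ = 0` otherwise.  If `y` has infinite order both sides are zero (`Coch.fin`).  Now TXlin, TXfac,
and TXlen (`N ≥ 1`, so that the lists are nonempty).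
`η` is a null function: invariance under conjugation from `Sec.inv`, `Coch.inv`, MEX (e) (note
`inc γ * μ * inc γ⁻¹` has the lists `γ * ·` of the lists of `μ` and the value `γ μ.val γ⁻¹`); on a flat
`μ` all the `x i` in the supports have the same image under `σ` (`Sec.supp`, and `σ y = 1` since
`Multiplicative ℤ` has no torsion), so `F` vanishes (`Coch.flat`), MEX (f). -/
def S_SCH : Prop := ∀ (Γ : Type u) [Group Γ] (σ : Γ →* Multiplicative ℤ) (M : ℕ)
    (F : (Fin (M + 1) → Γ) → Γ → ℚ) (s : List Γ → Γ → (Γ →₀ ℚ)), Coch σ M F → Sec s →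
    ∃ η : Rec Γ (Fin M) → ℚ, NullFun σ η ∧
      ∀ (k : Type w) [Field k] [CharZero k] (ι : Type x) [Fintype ι] [DecidableEq ι] (N : ℕ),
        0 < N → ∀ X : Fin (M + 1) → (Matrix ι ι (MonoidAlgebra k Γ))ˣ,
        TX (evs F s) N X - TX (fst F) N X =
          ∑ i : Fin (M + 1), (-1 : k) ^ (i : ℕ) * TX η N (fun t => X (i.succAbove t))

/-! ## Module EVS -/

/-- EVS: properties of `evs` and `powF`.
(a) if the section `s` is invariant under rotations then `evs F s` is a trace function.  Proof: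
`μ ν` and `ν μ`: the lists are `Y ++ μ.val Y'` and `Y' ++ ν.val Y` with `Y = μ.lst i`,
`Y' = ν.lst i`, the values `y = μ.val ν.val` and `y' = ν.val μ.val = μ.val⁻¹ y μ.val`.  Conjugating the
second one with `μ.val` (`Sec.inv`, `Coch.inv`, MEX (e)) it becomes
`(μ.val Y' ++ y Y, y)`, which is a rotation of `(Y ++ μ.val Y', y)`, letter by letter.
(b) bounded denominators;
(c) `powF e F` is a family of cocycles for `e ≥ 1`;
(d) `evs F s (μ ^ e) = evs (powF e F) s' μ` for `e ≥ 1`, with the section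
`s' Y y = s (powL e Y y) (y ^ e)`: the lists of `μ ^ e` are `powL e (μ.lst i) μ.val`.
(e) `s'` is a section.
(f) the function `fst F` satisfies the hypothesis of TXfst and is invariant under conjugation. -/
def S_EVS : Prop := ∀ (Γ : Type u) [Group Γ] (σ : Γ →* Multiplicative ℤ) (M : ℕ)
    (F : (Fin (M + 1) → Γ) → Γ → ℚ) (s : List Γ → Γ → (Γ →₀ ℚ)), Coch σ M F → Sec s →
    ((∀ (a : Γ) (Y : List Γ) (y : Γ), IsOfFinOrder y → s (Y ++ [y * a]) y = s (a :: Y) y) →
      IsTr (evs F s)) ∧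
    (∀ b : ℕ, (∀ (Y : List Γ) (y x : Γ), ∃ z : ℤ, (b : ℚ) * s Y y x = z) →
      ∃ D : ℕ, 0 < b → 0 < D ∧ ∀ μ, ∃ z : ℤ, (D : ℚ) * evs F s μ = z) ∧
    (∀ e : ℕ, 0 < e → Coch σ M (powF e F)) ∧
    (∀ e : ℕ, 0 < e → ∀ μ : Rec Γ (Fin (M + 1)),
      evs F s (μ ^ e) = evs (powF e F) (fun Y y => s (powL e Y y) (y ^ e)) μ) ∧
    (∀ e : ℕ, 0 < e → Sec (fun Y y => s (powL e Y y) (y ^ e))) ∧
    (∀ μ ν : Rec Γ (Fin (M + 1)), (∀ i, μ.lst i ≠ []) →
      fst F (μ * ν) = fst F (μ * Rec.inc ν.val)) ∧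
    CjInv (fst F)

/-! ## Module PAD (uses GAU, GAUint, SEC, SCH, EVS, TXfst) -/

/-- PAD: the main `ℓ`-adic theorem.  Let `B = ∑ c_j X_j` be a formal `ℚ_ℓ`-linear combination of
simplices of invertible matrices over `ℚ_ℓ[Γ]` which are integral together with their inverses,
such that all null functionals vanish on the boundary of `B`.  Then for every family `F` of cocycles
and every `e`, the functionals of `F` and of `F (· ; y ^ (ℓ ^ e))` agree on `B`.

Proof.  Let `s` be the section of SEC, `φ = evs F s`, `D` a common denominator of its values, `E` the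
linear functional.  For `N ≥ 1`: `∑ c_j TX (fst F) 1 X_j = ∑ c_j TX (fst F) N X_j` (TXfst, EVS (f))
`= ∑ c_j TX φ N X_j` (SCH and the hypothesis on `B`).  With `N = ℓ^(n+e)` and GAU, GAUint applied
`e` times (to the trace functions `μ ↦ φ (μ^(ℓ^i))`, `i < e`, again trace functions with denominator
`D`): `D * ∑ c_j TX φ N X_j` and `D * ∑ c_j TX (φ ∘ (· ^ (ℓ^e))) (ℓ^n) X_j` differ by an element of norm
at most `(max |c_j|) ℓ^(-(n+1))`.  By EVS (d), (e), (c), SCH for `powF (ℓ^e) F` and the section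
`s'`, and TXfst, `∑ c_j TX (φ ∘ (· ^ (ℓ^e))) (ℓ^n) X_j = ∑ c_j TX (fst (powF (ℓ^e) F)) 1 X_j`.
So the two numbers of the theorem differ by an element of norm at most `C ℓ^(-n)` for every `n`
(`C` independent of `n`), hence are equal. -/
def S_PAD : Prop := ∀ (Γ : Type u) [Group Γ] (σ : Γ →* Multiplicative ℤ) (b : ℕ), TorBd Γ b →
    ∀ (ℓ : ℕ) [Fact ℓ.Prime] (M : ℕ) (F : (Fin (M + 1) → Γ) → Γ → ℚ), Coch σ M F →
    ∀ (J : Type x) (S : Finset J) (c : J → ℚ_[ℓ]) (r : J → ℕ)
      (X : ∀ j, Fin (M + 1) → (Matrix (Fin (r j)) (Fin (r j)) (MonoidAlgebra ℚ_[ℓ] Γ))ˣ),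
    (∀ j ∈ S, ∀ i, NIU (X j i)) →
    (∀ η : Rec Γ (Fin M) → ℚ, NullFun σ η → ∀ N : ℕ, 0 < N →
      ∑ j ∈ S, c j * ∑ i : Fin (M + 1), (-1 : ℚ_[ℓ]) ^ (i : ℕ) *
        TX η N (fun t => X j (i.succAbove t)) = 0) →
    ∀ e : ℕ, ∑ j ∈ S, c j * TX (fst F) 1 (X j) = ∑ j ∈ S, c j * TX (fst (powF (ℓ ^ e) F)) 1 (X j)

/-! ## Module ONE (uses TXsup) -/

/-- ONE: null functionals vanish on one sided simplices.
Let all coefficients of the `X i` and of their inverses be supported in the `γ` with `σ γ ≥ 1`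
(i.e. nonnegative exponent), or all of them in the `γ` with `σ γ ≤ 1`.  Then `TX η N X = 0` for every
null function `η`.

Proof for `≥`: `S` = the paths `μ` with `1 ≤ σ a ≤ σ μ.val` for all recorded positions `a` and
`1 ≤ σ μ.val`: a submonoid which contains `om i` and `inc γ` for `σ γ ≥ 1`.  If `η μ ≠ 0` for some
`μ ∈ S` then `μ.val` has finite order, `σ μ.val = 1`, all `σ a = 1`, so `μ` is flat and `η μ = 0`.
(`Multiplicative ℤ` is an ordered commutative group; elements of finite order are trivial.) -/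
def S_ONE : Prop := ∀ (k : Type w) [Field k] [CharZero k] (Γ : Type u) [Group Γ]
    (σ : Γ →* Multiplicative ℤ) (ι : Type x) [Fintype ι] [DecidableEq ι] (M N : ℕ)
    (η : Rec Γ (Fin M) → ℚ) (X : Fin M → (Matrix ι ι (MonoidAlgebra k Γ))ˣ), NullFun σ η →
    ((∀ i a b γ, ((X i : Matrix ι ι (MonoidAlgebra k Γ)) a b).coeff γ ≠ 0 →
        0 ≤ Multiplicative.toAdd (σ γ)) ∧
      (∀ i a b γ, (((X i)⁻¹ : (Matrix ι ι (MonoidAlgebra k Γ))ˣ).val a b).coeff γ ≠ 0 →
        0 ≤ Multiplicative.toAdd (σ γ)) ∨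
     (∀ i a b γ, ((X i : Matrix ι ι (MonoidAlgebra k Γ)) a b).coeff γ ≠ 0 →
        Multiplicative.toAdd (σ γ) ≤ 0) ∧
      (∀ i a b γ, (((X i)⁻¹ : (Matrix ι ι (MonoidAlgebra k Γ))ˣ).val a b).coeff γ ≠ 0 →
        Multiplicative.toAdd (σ γ) ≤ 0)) →
    TX η N X = 0

end Pool.Agent.FJA
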