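import Pool.Agent.AUK.FJA.Chain
import Pool.Agent.AUK.FJA.St1

/-!
# The maps induced on the homology of groups

Functoriality, the trivial homomorphism, inner automorphisms.
-/

set_option autoImplicit false
set_option linter.unusedSectionVars false

open Matrix Pool.Agent.WhK Pool.Agent.Lib25 CategoryTheory

noncomputable section

namespace Pool.Agent.FJA

section

variable {k : Type} [CommRing k] {P Q T : Type} [Group P] [Group Q] [Group T]

theorem cl_congr {m : ℕ} {x y : ZC k m P} (h : ch k m P x = ch k m P y) :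
    cl k m P x = cl k m P y := by
  have h1 : cl k m P (x - y) = 0 := by
    rw [cl_eq_zero_iff]
    exact ⟨0, by rw [map_sub, h, sub_self, map_zero]⟩
  rw [map_sub, sub_eq_zero] at h1
  exact h1

theorem IC.map_map (m : ℕ) (f : P → Q) (g : Q → T) (z : IC k m P) :
    IC.map k m g (IC.map k m f z) = IC.map k m (g ∘ f) z := by
  induction z using Finsupp.induction_linear with
  | zero => simp only [map_zero]
  | add f g hf hg => simp only [map_add, hf, hg]
  | single x q => rw [IC.map_single, IC.map_single, IC.map_single]; rfl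

theorem IC.map_id (m : ℕ) (z : IC k m P) : IC.map k m (id : P → P) z = z := by
  induction z using Finsupp.induction_linear with
  | zero => simp only [map_zero]
  | add f g hf hg => simp only [map_add, hf, hg]
  | single x q => rw [IC.map_single]; rfl

theorem Hk.map_comp (m : ℕ) (f : P →* Q) (g : Q →* T) (c : Hk k m P) :
    Hk.map k m (g.comp f) c = Hk.map k m g (Hk.map k m f c) := by
  obtain ⟨x, rfl⟩ := exists_cl c
  obtain ⟨y, h1, h2⟩ := Hk.map_cl f x
  obtain ⟨z, h3, h4⟩ := Hk.map_cl g y
  obtain ⟨z', h5, h6⟩ := Hk.map_cl (g.comp f) x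
  rw [h1, h3, h5]
  apply cl_congr
  rw [h6, h4, h2, IC.map_map]
  rfl

theorem Hk.map_id (m : ℕ) (c : Hk k m P) : Hk.map k m (MonoidHom.id P) c = c := by
  obtain ⟨x, rfl⟩ := exists_cl c
  obtain ⟨y, h1, h2⟩ := Hk.map_cl (MonoidHom.id P) x
  rw [h1]
  apply cl_congr
  rw [h2]
  exact IC.map_id m _

theorem Hk.map_one (m : ℕ) (c : Hk k (m + 1) P) : Hk.map k (m + 1) (1 : P →* Q) c = 0 := by
  have h1 : (1 : P →* Q) = (1 : Unit →* Q).comp (1 : P →* Unit) := rfl
  rw [h1, Hk.map_comp]
  have h2 := isZero_groupHomology_succ_of_subsingleton (Tk k Unit) m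
  have h3 : Subsingleton (Hk k (m + 1) Unit) := ModuleCat.subsingleton_of_isZero h2
  rw [Subsingleton.elim (Hk.map k (m + 1) (1 : P →* Unit) c) 0, map_zero]

theorem hmap_sub_mem (m : ℕ) (g : P) (w : HCh k P m) :
    hmap k (g * ·) (m + 1) w - w ∈ hdeg k P m := by
  induction w using Finsupp.induction_linear with
  | zero => rw [map_zero, sub_zero]; exact Submodule.zero_mem _
  | add x y hx hy =>
    rw [map_add, add_sub_add_comm]
    exact Submodule.add_mem _ hx hy
  | single X q =>
    have h1 : hmap k (g * ·) (m + 1) (Finsupp.single X q) =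
        Finsupp.single (fun i => g * X i) q := Finsupp.mapDomain_single
    rw [h1]
    exact hdeg_mem m g X q

theorem hmap_hmap {V V' V'' : Type} (m : ℕ) (f : V → V') (g : V' → V'') (w : (Fin m → V) →₀ k) :
    hmap k g m (hmap k f m w) = hmap k (g ∘ f) m w := by
  induction w using Finsupp.induction_linear with
  | zero => simp only [map_zero]
  | add x y hx hy => simp only [map_add, hx, hy]
  | single X q =>
    unfold hmap
    simp only [Finsupp.lmapDomain_apply, Finsupp.mapDomain_single]
    rfl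

theorem prism_hdeg (hBD : S_BD.{0, 0, 0}) (m : ℕ) (g : P) {w : HCh k P m} (hw : w ∈ hdeg k P m) :
    prism k id (· * g) (m + 1) w ∈ hdeg k P (m + 1) := by
  have h1 : hdeg k P m ≤ (hdeg k P (m + 1)).comap (prism k id (· * g) (m + 1)) := by
    unfold hdeg
    rw [Submodule.span_le]
    rintro x ⟨γ, X, rfl⟩
    change prism k id (· * g) (m + 1) _ ∈ hdeg k P (m + 1)
    have h2 := (hBD k P (m + 1)).2.2 P id (· * g) (γ * ·) (γ * ·) (Finsupp.single X 1)
      (fun v => rfl) (fun v => by simp only [mul_assoc])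
    have h3 : hmap k (γ * ·) (m + 1) (Finsupp.single X 1) =
        Finsupp.single (fun i => γ * X i) 1 := Finsupp.mapDomain_single
    rw [h3] at h2
    rw [map_sub, h2]
    exact hmap_sub_mem (m + 1) γ _
  exact h1 hw

/-- Inner automorphisms act trivially on the homology. -/
theorem Hk.map_conj (hPRI : S_PRI.{0, 0, 0}) (hBD : S_BD.{0, 0, 0}) (m : ℕ) (g : P)
    (c : Hk k (m + 1) P) :
    Hk.map k (m + 1) (MulAut.conj g).toMonoidHom c = c := by
  obtain ⟨x, rfl⟩ := exists_cl c
  obtain ⟨y, h1, h2⟩ := Hk.map_cl (MulAut.conj g).toMonoidHom x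
  rw [h1, ← sub_eq_zero, ← map_sub]
  apply cl_eq_zero_of_bnd
  rw [map_sub, map_sub, h2, psi_map]
  set w := psi k (m + 1) P (ch k (m + 1) P x) with hw
  have hcyc : bd k P (m + 1) w ∈ hdeg k P m := psi_ch_mem m x
  have h3 : hmap k (MulAut.conj g).toMonoidHom (m + 1 + 1) w =
      hmap k (g * ·) (m + 2) (hmap k (· * g⁻¹) (m + 2) w) := by
    rw [hmap_hmap]
    congr 1
    congr 1
    funext z
    change g * z * g⁻¹ = g * (z * g⁻¹)
    rw [mul_assoc]
  have h4 := hPRI k P P id (· * g⁻¹) (m + 1) w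
  have h5 : hmap k (id : P → P) (m + 1 + 1) w = w := by
    unfold hmap
    exact Finsupp.mapDomain_id
  rw [h5] at h4
  have h6 : hmap k (g * ·) (m + 2) (hmap k (· * g⁻¹) (m + 2) w) - w =
      (hmap k (g * ·) (m + 2) (hmap k (· * g⁻¹) (m + 2) w) - hmap k (· * g⁻¹) (m + 2) w +
        prism k id (· * g⁻¹) (m + 1) (bd k P (m + 1) w)) +
      bd k P (m + 2) (prism k id (· * g⁻¹) (m + 2) w) := by
    rw [h4]
    abel
  rw [h3, h6]
  exact Submodule.add_mem_sup (Submodule.add_mem _ (hmap_sub_mem _ _ _)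
    (prism_hdeg hBD m _ hcyc)) (LinearMap.mem_range_self _ _)

end

end Pool.Agent.FJA
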