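import Pool.Agent.AUK.FJA.Prod

/-!
# Naturality of the product map
-/

set_option autoImplicit false
set_option linter.unusedSectionVars false

open Matrix Pool.Agent.WhK Pool.Agent.Lib25 CategoryTheory

noncomputable section

namespace Pool.Agent.FJA

section Idem

variable {A : Type} [Ring A]

theorem KNegOne.of_add (e f : IdemMat (LaurentPolynomial A)) :
    KNegOne.of (e.add f) = KNegOne.of e + KNegOne.of f := by
  have h1 : K0.of (e.add f) = K0.of e + K0.of f := by
    unfold K0.of
    rw [IdemClass.mk_add]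
    exact map_add (Algebra.GrothendieckAddGroup.of (M := IdemClass (LaurentPolynomial A))) _ _
  unfold KNegOne.of
  rw [h1]
  exact map_add (QuotientAddGroup.mk' (extImage A)) _ _

theorem KNegOne.of_congr {e f : IdemMat (LaurentPolynomial A)} (h : MvN e.mat f.mat) :
    KNegOne.of e = KNegOne.of f := by
  unfold KNegOne.of K0.of
  congr 2
  exact Quotient.sound h

/-- The identity matrix. -/
def oneI (R : Type) [Ring R] (r : ℕ) : IdemMat R := ⟨r, 1, one_mul 1⟩

theorem KNegOne.of_one (r : ℕ) : KNegOne.of (oneI (LaurentPolynomial A) r) = 0 := by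
  have h1 : oneI (LaurentPolynomial A) r = (oneI (Polynomial A) r).map (posIncl A) := by
    unfold oneI IdemMat.map
    congr 1
    exact (Matrix.map_one (posIncl A) (map_zero _) (map_one _)).symm
  rw [h1]
  unfold KNegOne.of
  rw [← K0.map_of]
  exact (QuotientAddGroup.eq_zero_iff _).2 (AddSubgroup.mem_sup_left ⟨_, rfl⟩)

/-- The complementary idempotent. -/
def compl {R : Type} [Ring R] (e : IdemMat R) : IdemMat R :=
  ⟨e.n, 1 - e.mat, by rw [mul_sub, mul_one, sub_mul, one_mul, e.idem, sub_self, sub_zero]⟩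

theorem KNegOne.of_compl (e : IdemMat (LaurentPolynomial A)) :
    KNegOne.of (compl e) = - KNegOne.of e := by
  rw [eq_neg_iff_add_eq_zero, ← KNegOne.of_add, ← KNegOne.of_one e.n]
  apply KNegOne.of_congr
  have h1 : MvN (Matrix.fromBlocks (1 - e.mat) 0 0 e.mat)
      (1 : Matrix (Fin e.n) (Fin e.n) (LaurentPolynomial A)) := by
    have e1 : (1 - e.mat) * e.mat = 0 := by rw [sub_mul, one_mul, e.idem, sub_self]
    have e2 : e.mat * (1 - e.mat) = 0 := by rw [mul_sub, mul_one, e.idem, sub_self]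
    have e3 : (1 - e.mat) * (1 - e.mat) = 1 - e.mat := by
      rw [mul_sub, mul_one, e1, sub_zero]
    refine ⟨Matrix.fromRows (1 - e.mat) e.mat, Matrix.fromCols (1 - e.mat) e.mat, ?_, ?_⟩
    · rw [Matrix.fromRows_mul_fromCols, e1, e2, e3, e.idem]
    · rw [Matrix.fromCols_mul_fromRows, e3, e.idem, sub_add_cancel]
  exact (IdemMat.add_equiv_blocks (compl e) e).symm.trans (IdemMat.add (compl e) e).idem
    (one_mul 1) h1

/-- Every element of `K_{-1}` is the class of an idempotent matrix. -/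
theorem KNegOne.exists_of (x : KNegOne A) : ∃ e, KNegOne.of e = x := by
  obtain ⟨y, rfl⟩ := QuotientAddGroup.mk'_surjective (extImage A) x
  obtain ⟨e, f, rfl⟩ := K0.exists_sub y
  refine ⟨e.add (compl f), ?_⟩
  rw [KNegOne.of_add, KNegOne.of_compl, ← sub_eq_add_neg]
  exact (map_sub (QuotientAddGroup.mk' (extImage A)) _ _).symm

theorem KNegOne.map_of {A' : Type} [Ring A'] (α : A →+* A') (e : IdemMat (LaurentPolynomial A)) :
    KNegOne.map α (KNegOne.of e) = KNegOne.of (e.map (mapL α)) := by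
  unfold KNegOne.of
  rw [← K0.map_of]
  rfl

theorem mapL_mapL {B D : Type} [Ring B] [Ring D] (f : A →+* B) (g : B →+* D)
    (x : LaurentPolynomial A) : mapL g (mapL f x) = mapL (g.comp f) x := by
  induction x using AddMonoidAlgebra.induction_linear with
  | zero => simp only [map_zero]
  | add x y hx hy => simp only [map_add, hx, hy]
  | single n a => rw [mapL_single, mapL_single, mapL_single]; rfl

theorem KNegOne.map_map {B D : Type} [Ring B] [Ring D] (f : A →+* B) (g : B →+* D)
    (x : KNegOne A) : KNegOne.map g (KNegOne.map f x) = KNegOne.map (g.comp f) x := by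
  obtain ⟨e, rfl⟩ := KNegOne.exists_of x
  rw [KNegOne.map_of, KNegOne.map_of, KNegOne.map_of]
  congr 1
  unfold IdemMat.map
  congr 1
  ext1 i j
  exact mapL_mapL f g _

end Idem

section Nat

variable {A A' A'' : Type} [Ring A] [Ring A'] [Ring A''] {P Q : Type} [Group P] [Group Q]
  (hPRI : S_PRI.{0, 0, 0}) (hBD : S_BD.{0, 0, 0}) (n : ℕ)

theorem cu_comp (u : P →* A) (f : Q →* P) (z : Q) : cu (u.comp f) z = cu u (f z) := rfl

theorem rhoG_comp (γ : A' →+* A) (u : P →* A) (hu : Comm γ u) (f : Q →* P)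
    (hu' : Comm γ (u.comp f)) (e : IdemMat (LaurentPolynomial A')) :
    rhoG (mapL γ) (cu (u.comp f)) (comm_cu hu') e =
      (rhoG (mapL γ) (cu u) (comm_cu hu) e).comp f := by
  refine MonoidHom.ext fun z => ?_
  apply Units.ext
  rw [MonoidHom.comp_apply]
  refine (rhoG_val _ _ _ _ _).trans ?_
  refine Eq.trans ?_ (rhoG_val _ _ _ _ _).symm
  rw [cu_comp]

theorem prodKN_comp (γ : A' →+* A) (u : P →* A) (hu : Comm γ u) (f : Q →* P)
    (hu' : Comm γ (u.comp f)) (κ : KNegOne A') (c : HQ (n + 1) Q) :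
    prodKN hPRI hBD n γ (u.comp f) hu' κ c =
      prodKN hPRI hBD n γ u hu κ (HQ.map (n + 1) f c) := by
  obtain ⟨e, rfl⟩ := KNegOne.exists_of κ
  rw [prodKN_of, prodKN_of, rhoG_comp γ u hu f hu' e, HQ.map_comp]

theorem prodKN_map (γ : A' →+* A) (u : P →* A) (hu : Comm γ u) (α : A'' →+* A')
    (hu' : Comm (γ.comp α) u) (κ : KNegOne A'') (c : HQ (n + 1) P) :
    prodKN hPRI hBD n (γ.comp α) u hu' κ c =
      prodKN hPRI hBD n γ u hu (KNegOne.map α κ) c := by
  obtain ⟨e, rfl⟩ := KNegOne.exists_of κ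
  have h1 : rhoG (mapL (γ.comp α)) (cu u) (comm_cu hu') e =
      rhoG (mapL γ) (cu u) (comm_cu hu) (e.map (mapL α)) := by
    refine MonoidHom.ext fun z => ?_
    apply Units.ext
    change rhoMat (e.mat.map (mapL (γ.comp α))) (cu u z) =
      rhoMat ((e.mat.map (mapL α)).map (mapL γ)) (cu u z)
    congr 1
    ext1 i j
    exact (mapL_mapL α γ _).symm
  have h2 : HQ.map (n + 1) (rhoG (mapL (γ.comp α)) (cu u) (comm_cu hu') e) c =
      HQ.map (n + 1) (rhoG (mapL γ) (cu u) (comm_cu hu) (e.map (mapL α))) c :=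
    congrArg (fun ρ : P →* GLn (LaurentPolynomial A) e.n => HQ.map (n + 1) ρ c) h1
  rw [KNegOne.map_of, prodKN_of, prodKN_of]
  exact congrArg (KB.mk n A e.n) h2

/-- A scalar matrix. -/
def scal (x : Aˣ) (r : ℕ) : GLn A r where
  val := Matrix.diagonal fun _ => (x : A)
  inv := Matrix.diagonal fun _ => ((x⁻¹ : Aˣ) : A)
  val_inv := by
    rw [Matrix.diagonal_mul_diagonal]
    simp
  inv_val := by
    rw [Matrix.diagonal_mul_diagonal]
    simp

theorem mapL_conj (γ γ' : A' →+* A) (x : Aˣ) (h : ∀ a, γ' a = x * γ a * (x⁻¹ : Aˣ))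
    (f : LaurentPolynomial A') :
    mapL γ' f = cst A x * mapL γ f * cst A ((x⁻¹ : Aˣ) : A) := by
  induction f using AddMonoidAlgebra.induction_linear with
  | zero => simp only [map_zero, mul_zero, zero_mul]
  | add f g hf hg => simp only [map_add, hf, hg, mul_add, add_mul]
  | single n a =>
    rw [mapL_single, mapL_single, cst_apply, cst_apply, AddMonoidAlgebra.single_mul_single,
      AddMonoidAlgebra.single_mul_single, zero_add, add_zero, h]

theorem prodKN_conj (γ γ' : A' →+* A) (u u' : P →* A) (hu : Comm γ u) (hu' : Comm γ' u')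
    (x : Aˣ) (h : ∀ a, γ' a = x * γ a * (x⁻¹ : Aˣ)) (h' : ∀ z, u' z = x * u z * (x⁻¹ : Aˣ))
    (κ : KNegOne A') (c : HQ (n + 1) P) :
    prodKN hPRI hBD n γ' u' hu' κ c = prodKN hPRI hBD n γ u hu κ c := by
  obtain ⟨e, rfl⟩ := KNegOne.exists_of κ
  rw [prodKN_of, prodKN_of]
  let D : GLn (LaurentPolynomial A) e.n := scal (Units.map (cst A : A →* LaurentPolynomial A) x) e.n
  have h1 : rhoG (mapL γ') (cu u') (comm_cu hu') e =
      (MulAut.conj D).toMonoidHom.comp (rhoG (mapL γ) (cu u) (comm_cu hu) e) := by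
    refine MonoidHom.ext fun z => ?_
    apply Units.ext
    have e1 : ∀ (M : Matrix (Fin e.n) (Fin e.n) (LaurentPolynomial A)) (i j : Fin e.n),
        (D.val * M * D.inv) i j = cst A x * M i j * cst A ((x⁻¹ : Aˣ) : A) := by
      intro M i j
      have e2 : D.val = Matrix.diagonal fun _ => cst A x := rfl
      have e3 : D.inv = Matrix.diagonal fun _ => cst A ((x⁻¹ : Aˣ) : A) := rfl
      rw [e2, e3, Matrix.mul_diagonal, Matrix.diagonal_mul]
    change rhoMat (e.mat.map (mapL γ')) (cst A (u' z)) =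
      D.val * rhoMat (e.mat.map (mapL γ)) (cst A (u z)) * D.inv
    have hxx : cst A x * cst A ((x⁻¹ : Aˣ) : A) = 1 := by
      rw [← map_mul, Units.mul_inv, map_one]
    have hxx' : cst A ((x⁻¹ : Aˣ) : A) * cst A x = 1 := by
      rw [← map_mul, Units.inv_mul, map_one]
    ext1 i j
    rw [e1]
    unfold rhoMat
    simp only [Matrix.add_apply, Matrix.smul_apply, Matrix.sub_apply, Matrix.map_apply,
      smul_eq_mul, mapL_conj γ γ' x h, h', map_mul]
    rw [mul_add, add_mul, mul_sub, sub_mul]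
    congr 1
    · have h5 : cst A x * cst A (u z) * cst A ((x⁻¹ : Aˣ) : A) *
          (cst A x * mapL γ (e.mat i j) * cst A ((x⁻¹ : Aˣ) : A)) =
          cst A x * cst A (u z) * (cst A ((x⁻¹ : Aˣ) : A) * cst A x) *
            mapL γ (e.mat i j) * cst A ((x⁻¹ : Aˣ) : A) := by
        simp only [mul_assoc]
      rw [h5, hxx', mul_one]
      simp only [mul_assoc]
    · congr 1
      by_cases hij : i = j
      · subst hij
        rw [Matrix.one_apply_eq, mul_one, hxx]
      · rw [Matrix.one_apply_ne hij, mul_zero, zero_mul]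
  have h2 := LinearMap.congr_fun (Th_conj hPRI hBD n (rhoG (mapL γ) (cu u) (comm_cu hu) e) D) c
  rw [← h1] at h2
  exact congrArg (KQ.im (n + 1) (posIncl A) ⊔ KQ.im (n + 1) (negIncl A)).mkQ h2

end Nat

end Pool.Agent.FJA
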