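import Pool.Agent.AUK.FJA.P_EVS
import Pool.Agent.AUK.FJA.P_MEX
import Pool.Agent.AUK.FJA.St5

/-!
# Module PSA: `psiM` is a trace function on the balanced records
-/

set_option autoImplicit false

namespace Pool.Agent.FJA

namespace PSA

variable {Γ : Type} [Group Γ]

/-- the marking of a rotated list -/
theorem rot_mark {p k B : ℕ} {j : List Γ → Γ → ZMod (p ^ (k - B))} (hj : Mrk Γ p k B j) {y : Γ}
    (hy : IsOfFinOrder y) (hp : p ∣ orderOf y) (Y Z : List Γ)
    (hl : Y.length + Z.length = p ^ k) :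
    j (Z ++ Y.map (y * ·)) y = j (Y ++ Z) y + (Y.length : ZMod (p ^ (k - B))) := by
  induction Y generalizing Z with
  | nil => simp
  | cons a Y ih =>
    have h1 : Z ++ (a :: Y).map (y * ·) = (Z ++ [y * a]) ++ Y.map (y * ·) := by simp
    have h2 : Y ++ (Z ++ [y * a]) = (Y ++ Z) ++ [y * a] := by rw [List.append_assoc]
    have h3 : Y.length + (Z ++ [y * a]).length = p ^ k := by
      rw [← hl, List.length_append, List.length_singleton, List.length_cons]
      ring
    have h4 : (Y ++ Z).length + 1 = p ^ k := by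
      rw [← hl, List.length_append, List.length_cons]
      ring
    rw [h1, ih _ h3, h2, hj.rot a (Y ++ Z) y h4 hy hp, List.length_cons, List.cons_append]
    push_cast
    ring

theorem conj_val {V : Type} (μ ν : Rec Γ V) :
    μ.val * (ν.val * μ.val) * μ.val⁻¹ = μ.val * ν.val := by group

theorem fin_symm {V : Type} {μ ν : Rec Γ V} (h : IsOfFinOrder (μ * ν).val) :
    IsOfFinOrder (ν * μ).val := by
  have e1 : (ν * μ).val = μ.val⁻¹ * (μ.val * ν.val) * (μ.val⁻¹)⁻¹ := by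
    rw [Rec.mul_val]
    group
  rw [e1]
  exact (MulAut.conj (μ.val⁻¹)).toMonoidHom.isOfFinOrder h

theorem order_symm {V : Type} (μ ν : Rec Γ V) :
    orderOf (ν * μ).val = orderOf (μ * ν).val := by
  have e1 : (ν * μ).val = MulAut.conj (μ.val⁻¹) ((μ * ν).val) := by
    rw [Rec.mul_val, Rec.mul_val, MulAut.conj_apply]
    group
  rw [e1]
  exact orderOf_injective (MulAut.conj (μ.val⁻¹)).toMonoidHom
    (MulAut.conj (μ.val⁻¹)).injective _

theorem len_symm {V : Type} {N : ℕ} {μ ν : Rec Γ V} (h : ∀ i, ((μ * ν).lst i).length = N) (i : V) :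
    ((ν * μ).lst i).length = N := by
  rw [← h i]
  simp only [Rec.mul_lst, List.length_append, List.length_map]
  ring

theorem mark_mul {V : Type} {p k B : ℕ} {j : List Γ → Γ → ZMod (p ^ (k - B))}
    (hj : Mrk Γ p k B j) {μ ν : Rec Γ V} (hl : ∀ i, ((μ * ν).lst i).length = p ^ k)
    (hy : IsOfFinOrder (μ * ν).val) (hp : p ∣ orderOf (μ * ν).val) (i : V) :
    j ((ν * μ).lst i) (ν * μ).val =
      j ((μ * ν).lst i) (μ * ν).val + ((μ.lst i).length : ZMod (p ^ (k - B))) := by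
  have h1 := hj.cj μ.val ((ν * μ).lst i) (ν * μ).val
  rw [Rec.mul_val, conj_val, Rec.mul_lst, List.map_append, List.map_map] at h1
  have h2 : (fun x => μ.val * x) ∘ (fun x => ν.val * x) = fun x => (μ.val * ν.val) * x := by
    funext x
    exact (mul_assoc _ _ _).symm
  rw [h2] at h1
  have h3 := rot_mark hj hy hp (μ.lst i) ((ν.lst i).map (μ.val * ·)) (by
    have := hl i
    rw [Rec.mul_lst, List.length_append] at this
    exact this)
  rw [Rec.mul_val, Rec.mul_val, Rec.mul_lst, Rec.mul_lst, ← h1]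
  exact h3

theorem half {M c p k B : ℕ} {σ : Γ →* Multiplicative ℤ}
    {F : (Fin (M + 1) → Γ) → Γ → ℚ} {s : List Γ → Γ → (Γ →₀ ℚ)}
    {j : List Γ → Γ → ZMod (p ^ (k - B))} (hF : Coch σ M F) (hs : SecR c s)
    (hj : Mrk Γ p k B j) {μ ν : Rec Γ (Fin (M + 2))} (hμ : μ ∈ Bal Γ (Fin (M + 2)))
    (hl : ∀ i, ((μ * ν).lst i).length = p ^ k)
    (hy : IsOfFinOrder (μ * ν).val) (hp : p ∣ orderOf (μ * ν).val) :
    psiM p k B F s j (μ * ν) = psiM p k B F s j (ν * μ) := by
  obtain ⟨n, hn⟩ := hμ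
  have htr := (t_EVS t_MEX Γ σ M F s hF hs.sec).1 hs.rot
  unfold psiM
  rw [if_pos ⟨hl, hy, hp⟩, if_pos ⟨len_symm hl, fin_symm hy, (order_symm μ ν).symm ▸ hp⟩]
  have h1 : evs F s (Rec.res Fin.castSucc (μ * ν)) = evs F s (Rec.res Fin.castSucc (ν * μ)) := by
    rw [map_mul, map_mul]
    exact htr _ _
  rw [h1, mark_mul hj hl hy hp, mark_mul hj hl hy hp, hn, hn, add_sub_add_right_eq_sub]

end PSA

theorem t_PSA : S_PSA := by
  intro Γ _ σ p k B M c F s j hF hs hj μ hμ ν hν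
  by_cases h : (∀ i, ((μ * ν).lst i).length = p ^ k) ∧ IsOfFinOrder (μ * ν).val ∧
      p ∣ orderOf (μ * ν).val
  · exact PSA.half hF hs hj hμ h.1 h.2.1 h.2.2
  · have h' : ¬ ((∀ i, ((ν * μ).lst i).length = p ^ k) ∧ IsOfFinOrder (ν * μ).val ∧
        p ∣ orderOf (ν * μ).val) := by
      rintro ⟨h1, h2, h3⟩
      exact h ⟨PSA.len_symm h1, PSA.fin_symm h2, (PSA.order_symm ν μ).symm ▸ h3⟩
    unfold psiM
    rw [if_neg h, if_neg h']

end Pool.Agent.FJA
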