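import Pool.Agent.AUK.FJA.P_GAU
import Pool.Agent.AUK.FJA.P_PSA
import Pool.Agent.AUK.FJA.P_PSC
import Pool.Agent.AUK.FJA.P_TXA
import Pool.Agent.AUK.FJA.P_TXD
import Pool.Agent.AUK.FJA.St6

/-!
# Module ADD: the functional is additive up to `p ^ (2k - 2B)`
-/

set_option autoImplicit false

open Matrix

noncomputable section

namespace Pool.Agent.FJA

namespace ADD

section lam

variable {C : Type} [CommGroup C]

theorem lam_pos (p k B : ℕ) (j : List C → C → ZMod (p ^ (k - B))) (c : C) (μ : Rec C (Fin 2))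
    (h : (∀ i, (μ.lst i).length = p ^ k) ∧ μ.val = c) :
    lamM p k B j c μ = (((j (μ.lst 1) c - j (μ.lst 0) c).val : ℕ) : ℚ) := by
  unfold lamM
  exact if_pos h

theorem lam_neg (p k B : ℕ) (j : List C → C → ZMod (p ^ (k - B))) (c : C) (μ : Rec C (Fin 2))
    (h : ¬ ((∀ i, (μ.lst i).length = p ^ k) ∧ μ.val = c)) :
    lamM p k B j c μ = 0 := by
  unfold lamM
  exact if_neg h

theorem lam_half {p k B : ℕ} {j : List C → C → ZMod (p ^ (k - B))} (hj : Mrk C p k B j) {c : C}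
    (hc : IsOfFinOrder c) (hp : p ∣ orderOf c) {μ ν : Rec C (Fin 2)} (hμ : μ ∈ Bal C (Fin 2))
    (hl : ∀ i, ((μ * ν).lst i).length = p ^ k) (hv : (μ * ν).val = c) :
    lamM p k B j c (μ * ν) = lamM p k B j c (ν * μ) := by
  obtain ⟨n, hn⟩ := hμ
  have hv' : (ν * μ).val = c := by
    rw [← hv, Rec.mul_val, Rec.mul_val, mul_comm]
  rw [lam_pos _ _ _ _ _ _ ⟨hl, hv⟩, lam_pos _ _ _ _ _ _ ⟨PSA.len_symm hl, hv'⟩]
  have h : ∀ i, j ((ν * μ).lst i) c = j ((μ * ν).lst i) c + (n : ZMod (p ^ (k - B))) := by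
    intro i
    have h1 := PSA.mark_mul hj hl (by rw [hv]; exact hc) (by rw [hv]; exact hp) i
    rw [hn, hv, hv'] at h1
    exact h1
  rw [h, h, add_sub_add_right_eq_sub]

theorem lam_tr {p k B : ℕ} {j : List C → C → ZMod (p ^ (k - B))} (hj : Mrk C p k B j) {c : C}
    (hc : IsOfFinOrder c) (hp : p ∣ orderOf c) {μ ν : Rec C (Fin 2)} (hμ : μ ∈ Bal C (Fin 2)) :
    lamM p k B j c (μ * ν) = lamM p k B j c (ν * μ) := by
  by_cases h : (∀ i, ((μ * ν).lst i).length = p ^ k) ∧ (μ * ν).val = c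
  · exact lam_half hj hc hp hμ h.1 h.2
  · have h' : ¬ ((∀ i, ((ν * μ).lst i).length = p ^ k) ∧ (ν * μ).val = c) := by
      rintro ⟨h1, h2⟩
      refine h ⟨PSA.len_symm h1, ?_⟩
      rw [← h2, Rec.mul_val, Rec.mul_val, mul_comm]
    rw [lam_neg _ _ _ _ _ _ h, lam_neg _ _ _ _ _ _ h']

theorem res_bal {μ : Rec C (Fin 3)} (hμ : μ ∈ Bal C (Fin 3)) (i : Fin 3) :
    Rec.res i.succAbove μ ∈ Bal C (Fin 2) := by
  obtain ⟨n, hn⟩ := hμ
  exact ⟨n, fun l => hn _⟩

theorem cob_tr {p k B : ℕ} {j : List C → C → ZMod (p ^ (k - B))} (hj : Mrk C p k B j) {c : C}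
    (hc : IsOfFinOrder c) (hp : p ∣ orderOf c) {μ ν : Rec C (Fin 3)} (hμ : μ ∈ Bal C (Fin 3)) :
    cobR (lamM p k B j c) (μ * ν) = cobR (lamM p k B j c) (ν * μ) := by
  unfold cobR
  refine Finset.sum_congr rfl fun i _ => ?_
  rw [map_mul, map_mul, lam_tr hj hc hp (res_bal hμ i)]

theorem cob_supp {p k B : ℕ} {j : List C → C → ZMod (p ^ (k - B))} {c : C}
    {μ : Rec C (Fin 3)} (h : cobR (lamM p k B j c) μ ≠ 0) : μ.val = c := by
  by_contra hv
  apply h
  unfold cobR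
  refine Finset.sum_eq_zero fun i _ => ?_
  rw [lam_neg, mul_zero]
  exact fun h => hv h.2

theorem cob_val {p k B : ℕ} [hp : Fact p.Prime] (j : List C → C → ZMod (p ^ (k - B))) (c : C)
    {μ : Rec C (Fin 3)} (hμ : μ ∈ Bal C (Fin 3)) :
    ∃ z : ℤ, cobR (lamM p k B j c) μ = (p : ℚ) ^ (k - B) * z := by
  obtain ⟨n, hn⟩ := hμ
  by_cases hP : (∀ i, (μ.lst i).length = p ^ k) ∧ μ.val = c
  swap
  · refine ⟨0, ?_⟩
    have h0 : cobR (lamM p k B j c) μ = 0 := by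
      unfold cobR
      refine Finset.sum_eq_zero fun i _ => ?_
      rw [lam_neg, mul_zero]
      rintro ⟨h1, h2⟩
      apply hP
      refine ⟨fun l => ?_, h2⟩
      have h4 := h1 0
      rw [Rec.res_lst, hn] at h4
      rw [hn, h4]
    rw [h0]
    simp
  · obtain ⟨hlen, hv⟩ := hP
    have : NeZero (p ^ (k - B)) := ⟨(pow_pos hp.out.pos _).ne'⟩
    obtain ⟨q, hq⟩ := PSC.carry (j (μ.lst 1) c - j (μ.lst 0) c) (j (μ.lst 2) c - j (μ.lst 1) c)
    have hsum : j (μ.lst 2) c - j (μ.lst 1) c + (j (μ.lst 1) c - j (μ.lst 0) c) =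
        j (μ.lst 2) c - j (μ.lst 0) c := by ring
    rw [hsum] at hq
    refine ⟨q, ?_⟩
    have hterm : ∀ i : Fin 3, lamM p k B j c (Rec.res i.succAbove μ) =
        (((j (μ.lst (i.succAbove 1)) c - j (μ.lst (i.succAbove 0)) c).val : ℕ) : ℚ) := fun i =>
      lam_pos p k B j c _ ⟨fun l => hlen _, hv⟩
    have f01 : (0 : Fin 3).succAbove 1 = 2 := rfl
    have f00 : (0 : Fin 3).succAbove 0 = 1 := rfl
    have f11 : (1 : Fin 3).succAbove 1 = 2 := rfl
    have f10 : (1 : Fin 3).succAbove 0 = 0 := rfl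
    have f21 : (2 : Fin 3).succAbove 1 = 1 := rfl
    have f20 : (2 : Fin 3).succAbove 0 = 0 := rfl
    unfold cobR
    rw [Fin.sum_univ_three, hterm, hterm, hterm, f01, f00, f11, f10, f21, f20]
    have e : (p : ℚ) ^ (k - B) = ((p ^ (k - B) : ℕ) : ℚ) := by push_cast; rfl
    rw [e, ← hq]
    simp only [Fin.val_zero, Fin.val_one, Fin.val_two, pow_zero, pow_one]
    ring

end lam

theorem niu_sc {p : ℕ} [Fact p.Prime] {M : Type} [Monoid M] {v : (MonoidAlgebra ℚ_[p] M)ˣ}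
    (h : NI (v : MonoidAlgebra ℚ_[p] M))
    (h' : NI ((v⁻¹ : (MonoidAlgebra ℚ_[p] M)ˣ) : MonoidAlgebra ℚ_[p] M)) : NIU (sc v) := by
  have h1 : ∀ w : (MonoidAlgebra ℚ_[p] M)ˣ, NI (w : MonoidAlgebra ℚ_[p] M) →
      NIM (sc w : Matrix (Fin 1) (Fin 1) (MonoidAlgebra ℚ_[p] M)) := by
    intro w hw a b
    have e : (sc w : Matrix (Fin 1) (Fin 1) (MonoidAlgebra ℚ_[p] M)) a b =
        (w : MonoidAlgebra ℚ_[p] M) := by
      have hab : a = b := Subsingleton.elim a b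
      subst hab
      change Matrix.scalar (Fin 1) (w : MonoidAlgebra ℚ_[p] M) a a = _
      rw [Matrix.scalar_apply, Matrix.diagonal_apply_eq]
    rw [e]
    exact hw
  refine ⟨h1 v h, ?_⟩
  rw [← map_inv]
  exact h1 v⁻¹ h'

theorem ni_mul {p : ℕ} [Fact p.Prime] {M : Type} [Monoid M] {x y : MonoidAlgebra ℚ_[p] M}
    (hx : NI x) (hy : NI y) : NI (x * y) := by
  rw [GAU.ni_iff] at hx hy ⊢
  exact Subring.mul_mem _ hx hy

theorem niu_one {p : ℕ} [Fact p.Prime] {M : Type} [Monoid M] :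
    NIU (1 : (Matrix (Fin 1) (Fin 1) (MonoidAlgebra ℚ_[p] M))ˣ) := by
  refine ⟨?_, ?_⟩
  · rw [Units.val_one]
    exact GAU.nim_one
  · rw [inv_one, Units.val_one]
    exact GAU.nim_one

end ADD

open ADD in
theorem t_ADD (hdiv : S_DIV) (hlm0 : S_LM0) : S_ADD := by
  classical
  intro C _ b hb p _ B hB k hk j hj c hc hpc v v' hv hvi hv' hvi'
  obtain ⟨X, hX⟩ : ∃ X : Fin 3 → (Matrix (Fin 1) (Fin 1) (MonoidAlgebra ℚ_[p] C))ˣ,
    X = ![1, sc v, sc (v * v')] := ⟨_, rfl⟩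
  obtain ⟨φ, hφ⟩ : ∃ φ : Rec C (Fin 3) → ℚ,
    φ = fun μ => if μ ∈ Bal C (Fin 3) then cobR (lamM p k B j c) μ else 0 := ⟨_, rfl⟩
  have e1 : TX φ (p ^ k) X = TX (cobR (lamM p k B j c)) (p ^ k) X := by
    refine t_TXlen _ _ _ _ _ _ _ _ fun μ hμ => ?_
    rw [hφ]
    exact if_pos ⟨p ^ k, hμ⟩
  have e2 : (cobR (lamM p k B j c) : Rec C (Fin 3) → ℚ) = fun μ =>
      (lamM p k B j c (Rec.res (Fin.succAbove (0 : Fin 3)) μ) +
        (-1) * lamM p k B j c (Rec.res (Fin.succAbove (1 : Fin 3)) μ)) +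
      lamM p k B j c (Rec.res (Fin.succAbove (2 : Fin 3)) μ) := by
    funext μ
    unfold cobR
    rw [Fin.sum_univ_three]
    simp only [Fin.val_zero, Fin.val_one, Fin.val_two, pow_zero, pow_one]
    ring
  have hlin := t_TXlin ℚ_[p] C (Fin 1) 3 (p ^ k) X
  have x0 : (fun t => X ((0 : Fin 3).succAbove t)) = ![sc v, sc (v * v')] := by
    rw [hX]
    funext t
    fin_cases t <;> rfl
  have x1 : (fun t => X ((1 : Fin 3).succAbove t)) = ![1, sc (v * v')] := by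
    rw [hX]
    funext t
    fin_cases t <;> rfl
  have x2 : (fun t => X ((2 : Fin 3).succAbove t)) = ![1, sc v] := by
    rw [hX]
    funext t
    fin_cases t <;> rfl
  have f0 := t_TXfac ℚ_[p] C (Fin 1) 2 (p ^ k) (lamM p k B j c) 0 X
  have f1 := t_TXfac ℚ_[p] C (Fin 1) 2 (p ^ k) (lamM p k B j c) 1 X
  have f2 := t_TXfac ℚ_[p] C (Fin 1) 2 (p ^ k) (lamM p k B j c) 2 X
  rw [x0] at f0
  rw [x1] at f1
  rw [x2] at f2
  have g0 : TX (lamM p k B j c) (p ^ k) ![sc v, sc (v * v')] =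
      TX (lamM p k B j c) (p ^ k) ![1, sc v'] := by
    have h := (hlm0 ℚ_[p] C p k B j hj c (p ^ k)).1 (sc v) 1 (sc v')
    rw [mul_one, ← map_mul] at h
    exact h
  have e3 : TX φ (p ^ k) X = TX (lamM p k B j c) (p ^ k) ![1, sc v'] -
      TX (lamM p k B j c) (p ^ k) ![1, sc (v * v')] +
      TX (lamM p k B j c) (p ^ k) ![1, sc v] := by
    rw [e1, e2, hlin.1, hlin.1, hlin.2, f0, f1, f2, g0]
    push_cast
    ring
  have hd := hdiv C b hb p B hB k hk 3 φ 1 (k - B) one_pos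
    (by
      intro μ hμ ν hν
      rw [hφ]
      change (if μ * ν ∈ Bal C (Fin 3) then _ else _) = (if ν * μ ∈ Bal C (Fin 3) then _ else _)
      rw [if_pos (mul_mem hμ hν), if_pos (mul_mem hν hμ)]
      exact cob_tr hj hc hpc hμ)
    (by
      intro μ hμ
      rw [hφ] at hμ
      by_cases h : μ ∈ Bal C (Fin 3)
      · have h1 : cobR (lamM p k B j c) μ ≠ 0 := by
          intro h2
          apply hμ
          change (if μ ∈ Bal C (Fin 3) then _ else _) = _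
          rw [if_pos h, h2]
        rw [cob_supp h1]
        exact ⟨hc, hpc⟩
      · exact absurd (if_neg h) hμ)
    (by
      intro μ
      by_cases h : μ ∈ Bal C (Fin 3)
      · obtain ⟨z, hz⟩ := cob_val j c h
        refine ⟨z, ?_⟩
        rw [Nat.cast_one, one_mul, ← hz, hφ]
        exact if_pos h
      · refine ⟨0, ?_⟩
        have h0 : φ μ = 0 := by
          rw [hφ]
          exact if_neg h
        rw [h0]
        simp)
    (Fin 1) X
    (by
      intro i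
      rw [hX]
      fin_cases i
      · exact niu_one
      · exact niu_sc hv hvi
      · refine niu_sc ?_ ?_
        · rw [Units.val_mul]
          exact ni_mul hv hv'
        · rw [_root_.mul_inv_rev, Units.val_mul]
          exact ni_mul hvi' hvi)
  rw [Nat.cast_one, one_mul, e3] at hd
  have e4 : TX (lamM p k B j c) (p ^ k) ![1, sc (v * v')] -
      TX (lamM p k B j c) (p ^ k) ![1, sc v] - TX (lamM p k B j c) (p ^ k) ![1, sc v'] =
      -(TX (lamM p k B j c) (p ^ k) ![1, sc v'] -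
      TX (lamM p k B j c) (p ^ k) ![1, sc (v * v')] +
      TX (lamM p k B j c) (p ^ k) ![1, sc v]) := by ring
  rw [e4, norm_neg]
  have e5 : (-(((k - B : ℕ) : ℤ) + k - B) : ℤ) = -(2 * k - 2 * B : ℤ) := by
    rw [Nat.cast_sub hk]
    ring
  rw [e5] at hd
  exact hd

end Pool.Agent.FJA
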