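import Pool.Agent.AUK.FJA.St3
import Pool.Agent.AUK.FJA.St4

/-!
# Module ADP: the core theorem in the form of `StF.lean`
-/

set_option autoImplicit false

open Matrix Pool.Agent.WhK Pool.Agent.Lib25 CategoryTheory

noncomputable section

namespace Pool.Agent.FJA

theorem ADP.finOrder {N : ℕ} (hN : 0 < N) {G : Type} [Group G] (φ : Cyc N →* G) (x : Cyc N) :
    IsOfFinOrder (φ x) := by
  have : NeZero N := ⟨hN.ne'⟩
  have : Finite (Cyc N) := Finite.of_equiv (ZMod N) Multiplicative.ofAdd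
  exact MonoidHom.isOfFinOrder φ (isOfFinOrder_of_finite x)

/-- The core theorem in the form of `StF.lean`. -/
theorem t_ADP (hbrg : S_BRG) (hrst : S_RST) (hfch : S_FCH) (hfin : S_FINC) : S_ADP := by
  intro ε v K hNode G _ bG hTor n L hAdmL J s q N p φ c hN hp hd hφ hrel
  classical
  have hz : ∀ j, ∃ x : ZC ℚ (n + 1) (Cen (φ j (gen (N j)))), cl ℚ (n + 1) _ x = c j :=
    fun j => exists_cl (k := ℚ) (c j)
  choose z hz using hz
  have h0 := hbrg ε G n J s q N p φ hN hp hd hφ z 0 (by
    rw [map_zero, map_zero, zero_add, ← hrel]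
    refine Finset.sum_congr rfl fun j _ => ?_
    rw [hz j])
  rw [map_zero, map_zero, map_zero, map_zero, zero_add] at h0
  obtain ⟨T, Lam, hTT, hFamL, hDen, hLam⟩ :=
    hrst G n L hAdmL (s.image fun j => φ j (gen (N j))) (by
      intro t ht
      obtain ⟨j, _, rfl⟩ := Finset.mem_image.1 ht
      exact ADP.finOrder (hN j) (φ j) _)
  obtain ⟨L', hFam, hL'⟩ := hfch G n T Lam hFamL hDen
  have h1 := hfin ε v K hNode G bG hTor n (mkDat J s q N p φ hN hp hd hφ z) h0 L' hFam
  refine Eq.trans ?_ h1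
  refine Finset.sum_congr rfl fun j hj => ?_
  have h2 := hL' (p j) (φ j (gen (N j))) (hp j) (z j)
  have h3 := hLam (p j) (φ j (gen (N j))) (Finset.mem_image_of_mem _ hj)
  rw [hz j, h3] at h2
  exact congrArg (fun t => q j * t) h2.symm

end Pool.Agent.FJA
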