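import Pool.Agent.AUK.FJA.Asm
import Pool.Agent.AUK.FJA.Rel1
import Pool.Agent.AUK.FJA.St7

/-!
# AS1: the map `A` with coefficients `K_1`
-/

set_option autoImplicit false

open Matrix Pool.Agent.WhK Pool.Agent.Lib25 CategoryTheory

noncomputable section

namespace Pool.Agent.FJA

namespace AS1

/-- The group `GL_1(ℤ[G][t,t⁻¹])`. -/
abbrev GQ (G : Type) [Group G] : Type := GLn (LaurentPolynomial (MonoidAlgebra ℤ G)) 1

/-! ## The shuffle product -/

theorem insL_single (m : ℕ) {Q : Type} (g : Q) (a : Fin m → Q) (r : ℚ) :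
    insL m g (Finsupp.single a r) = ∑ i : Fin (m + 1),
      Finsupp.single (Fin.insertNth (α := fun _ => Q) i g a) ((-1 : ℚ) ^ (i : ℕ) * r) := by
  unfold insL
  refine Finsupp.sum_single_index ?_
  refine Finset.sum_eq_zero fun i _ => ?_
  rw [mul_zero, Finsupp.single_zero]

theorem insL_zero (m : ℕ) {Q : Type} (g : Q) : insL m g (0 : (Fin m → Q) →₀ ℚ) = 0 := by
  unfold insL
  exact Finsupp.sum_zero_index

theorem insL_add (m : ℕ) {Q : Type} (g : Q) (x y : (Fin m → Q) →₀ ℚ) :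
    insL m g (x + y) = insL m g x + insL m g y := by
  classical
  unfold insL
  refine Finsupp.sum_add_index' ?_ ?_
  · intro a
    refine Finset.sum_eq_zero fun i _ => ?_
    rw [mul_zero, Finsupp.single_zero]
  · intro a r s
    rw [← Finset.sum_add_distrib]
    refine Finset.sum_congr rfl fun i _ => ?_
    rw [mul_add, Finsupp.single_add]

theorem comp_insertNth {m : ℕ} {V V' : Type} (F : V → V') (i : Fin (m + 1)) (g : V)
    (a : Fin m → V) : F ∘ Fin.insertNth (α := fun _ => V) i g a =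
      Fin.insertNth (α := fun _ => V') i (F g) (F ∘ a) := by
  funext j
  refine Fin.succAboveCases i ?_ (fun l => ?_) j
  · simp
  · simp

theorem map_insL (m : ℕ) {V V' : Type} [Group V] [Group V'] (F : V → V') (g : V)
    (y : IC ℚ m V) :
    IC.map ℚ (m + 1) F (insL m g y) = insL m (F g) (IC.map ℚ m F y) := by
  induction y using Finsupp.induction_linear with
  | zero => rw [insL_zero, map_zero, map_zero, insL_zero]
  | add x y hx hy => rw [insL_add, map_add, map_add, insL_add, hx, hy]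
  | single a r =>
    rw [insL_single, map_sum, IC.map_single, insL_single]
    refine Finset.sum_congr rfl fun i _ => ?_
    rw [IC.map_single, comp_insertNth]

/-! ## Commutation -/

theorem cen_zpow {G : Type} [Group G] {h z a : G} (hz : z ∈ Cen h)
    (ha : a ∈ Subgroup.zpowers h) : Commute z a := by
  obtain ⟨k, rfl⟩ := ha
  rw [Subgroup.mem_centralizer_singleton_iff] at hz
  exact Commute.zpow_right (show Commute z h from hz) k

theorem comm_unS {G : Type} [Group G] {h : G} {u : (MonoidAlgebra ℤ G)ˣ} (hu : u ∈ UnS h)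
    {z : G} (hz : z ∈ Cen h) : Commute u (gU G z) := by
  obtain ⟨v, rfl⟩ := hu
  apply Units.ext
  change MonoidAlgebra.mapDomainRingHom ℤ (Subgroup.zpowers h).subtype v.val *
      MonoidAlgebra.of ℤ G z =
    MonoidAlgebra.of ℤ G z * MonoidAlgebra.mapDomainRingHom ℤ (Subgroup.zpowers h).subtype v.val
  have key : ∀ w : MonoidAlgebra ℤ (Subgroup.zpowers h),
      MonoidAlgebra.mapDomainRingHom ℤ (Subgroup.zpowers h).subtype w * MonoidAlgebra.of ℤ G z =
      MonoidAlgebra.of ℤ G z * MonoidAlgebra.mapDomainRingHom ℤ (Subgroup.zpowers h).subtype w := by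
    intro w
    induction w using MonoidAlgebra.induction_on with
    | of c =>
      rw [gr_of]
      have h1 : Commute z ((Subgroup.zpowers h).subtype c) := cen_zpow hz c.2
      exact ((h1.map (MonoidAlgebra.of ℤ G)).eq).symm
    | add x y hx hy => rw [map_add, add_mul, mul_add, hx, hy]
    | smul r x hx => rw [map_zsmul, smul_mul_assoc, mul_smul_comm, hx]
  exact key v.val

theorem tL_comm {G : Type} [Group G] (X : GQ G) : tL G * X = X * tL G := by
  apply Units.ext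
  have h1 : (tL G).val = Matrix.diagonal fun _ => (LaurentPolynomial.T 1 :
      LaurentPolynomial (MonoidAlgebra ℤ G)) := by
    change (Matrix.diagonal fun _ => AddMonoidAlgebra.single (1 : ℤ) (MonoidAlgebra.of ℤ G 1)) = _
    rw [map_one]
    rfl
  change (tL G).val * X.val = X.val * (tL G).val
  rw [h1]
  refine Matrix.ext fun i j => ?_
  rw [Matrix.diagonal_mul, Matrix.mul_diagonal]
  exact (LaurentPolynomial.commute_T 1 (X.val i j)).eq

/-- The homomorphism from the centraliser of `h` to `GL_1(ℤ[G][t,t⁻¹])`. -/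
def fC {G : Type} [Group G] (h : G) : Cen h →* GQ G :=
  (uL G).comp ((gU G).comp (Cen h).subtype)

theorem fC_comm {G : Type} [Group G] {h : G} {u : (MonoidAlgebra ℤ G)ˣ} (hu : u ∈ UnS h)
    (z : Cen h) : uL G u * fC h z = fC h z * uL G u := by
  have h1 := (comm_unS hu z.2).map (uL G)
  exact h1.eq

theorem chU_eq {m : ℕ} {G : Type} [Group G] {h : G} (u : (MonoidAlgebra ℤ G)ˣ)
    (x : IC ℚ m (Cen h)) :
    chU u x = insL (m + 1) (tL G) (insL m (uL G u) (IC.map ℚ m (fC h) x)) := rfl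

/-! ## Admissible symbols -/

theorem unS_conj {G : Type} [Group G] (x h : G) {u : (MonoidAlgebra ℤ G)ˣ} (hu : u ∈ UnS h) :
    gU G x * u * (gU G x)⁻¹ ∈ UnS (x * h * x⁻¹) := by
  obtain ⟨v, rfl⟩ := hu
  have hmem : ∀ a : Subgroup.zpowers h, x * a * x⁻¹ ∈ Subgroup.zpowers (x * h * x⁻¹) := by
    rintro ⟨_, k, rfl⟩
    refine ⟨k, ?_⟩
    change (x * h * x⁻¹) ^ k = x * h ^ k * x⁻¹
    exact conj_zpow
  let κ : Subgroup.zpowers h →* Subgroup.zpowers (x * h * x⁻¹) :=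
    { toFun := fun a => ⟨x * a * x⁻¹, hmem a⟩
      map_one' := by
        apply Subtype.ext
        simp
      map_mul' := fun a b => by
        apply Subtype.ext
        simp [mul_assoc] }
  refine ⟨Units.map (MonoidAlgebra.mapDomainRingHom ℤ κ :
    MonoidAlgebra ℤ (Subgroup.zpowers h) →* MonoidAlgebra ℤ (Subgroup.zpowers (x * h * x⁻¹))) v, ?_⟩
  apply Units.ext
  change gr (Subgroup.zpowers (x * h * x⁻¹)).subtype (gr κ v.val) =
    MonoidAlgebra.of ℤ G x * gr (Subgroup.zpowers h).subtype v.val * MonoidAlgebra.of ℤ G x⁻¹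
  have key : ∀ w : MonoidAlgebra ℤ (Subgroup.zpowers h),
      gr (Subgroup.zpowers (x * h * x⁻¹)).subtype (gr κ w) =
      MonoidAlgebra.of ℤ G x * gr (Subgroup.zpowers h).subtype w * MonoidAlgebra.of ℤ G x⁻¹ := by
    intro w
    induction w using MonoidAlgebra.induction_on with
    | of c => rw [gr_of, gr_of, gr_of, ← map_mul, ← map_mul]; rfl
    | add a b ha hb => rw [map_add, map_add, map_add, mul_add, add_mul, ha, hb]
    | smul r a ha => rw [map_zsmul, map_zsmul, map_zsmul, mul_smul_comm, smul_mul_assoc, ha]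
  exact key v.val

theorem adm1_conj {G : Type} [Group G] (x : G) {h : G} {u : (MonoidAlgebra ℤ G)ˣ}
    (H : Adm1 h u) : Adm1 (x * h * x⁻¹) (gU G x * u * (gU G x)⁻¹) := by
  refine ⟨?_, unS_conj x h H.2⟩
  rw [← orderOf_pos_iff, orderOf_conj, orderOf_pos_iff]
  exact H.1

theorem adm1_conj_iff {G : Type} [Group G] (x : G) {h : G} {u : (MonoidAlgebra ℤ G)ˣ} :
    Adm1 (x * h * x⁻¹) (gU G x * u * (gU G x)⁻¹) ↔ Adm1 h u := by
  refine ⟨fun H => ?_, adm1_conj x⟩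
  have h1 := adm1_conj x⁻¹ H
  have h2 : x⁻¹ * (x * h * x⁻¹) * x⁻¹⁻¹ = h := by group
  have h3 : gU G x⁻¹ * (gU G x * u * (gU G x)⁻¹) * (gU G x⁻¹)⁻¹ = u := by
    rw [map_inv]
    group
  rwa [h2, h3] at h1

/-! ## The chains of related symbols -/

theorem chU_conj {m : ℕ} {G : Type} [Group G] (h x : G) (u : (MonoidAlgebra ℤ G)ˣ)
    (c : IC ℚ m (Cen h)) :
    chU (gU G x * u * (gU G x)⁻¹) (IC.map ℚ m (cHom x (cHom_conj x h)) c) =
      IC.map ℚ (m + 2) (MulAut.conj (uL G (gU G x))).toMonoidHom (chU u c) := by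
  rw [chU_eq, chU_eq, map_insL, map_insL, IC.map_map, IC.map_map]
  have h1 : (MulAut.conj (uL G (gU G x))).toMonoidHom (tL G) = tL G := by
    change uL G (gU G x) * tL G * (uL G (gU G x))⁻¹ = tL G
    rw [← tL_comm, mul_inv_cancel_right]
  have h2 : (MulAut.conj (uL G (gU G x))).toMonoidHom (uL G u) =
      uL G (gU G x * u * (gU G x)⁻¹) := by
    change uL G (gU G x) * uL G u * (uL G (gU G x))⁻¹ = _
    rw [map_mul, map_mul, map_inv]
  have h3 : (fC (x * h * x⁻¹) : Cen (x * h * x⁻¹) → GQ G) ∘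
      (cHom x (cHom_conj x h) : Cen h → Cen (x * h * x⁻¹)) =
      ((MulAut.conj (uL G (gU G x))).toMonoidHom : GQ G → GQ G) ∘ (fC h : Cen h → GQ G) := by
    funext z
    change uL G (gU G (x * z * x⁻¹)) = uL G (gU G x) * uL G (gU G z) * (uL G (gU G x))⁻¹
    rw [map_mul, map_mul, map_mul, map_mul, map_inv, map_inv]
  rw [h1, h2, h3]

theorem chU_res {m : ℕ} {G : Type} [Group G] {h h' : G} (hh : h' ∈ Subgroup.zpowers h)
    (u : (MonoidAlgebra ℤ G)ˣ) (c : IC ℚ m (Cen h)) :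
    chU u (IC.map ℚ m (cHom 1 (cHom_pow h hh)) c) = chU u c := by
  rw [chU_eq, chU_eq, IC.map_map]
  have h3 : (fC h' : Cen h' → GQ G) ∘ (cHom 1 (cHom_pow h hh) : Cen h → Cen h') =
      (fC h : Cen h → GQ G) := by
    funext z
    change uL G (gU G (1 * z * 1⁻¹)) = uL G (gU G z)
    rw [one_mul, inv_one, mul_one]
  rw [h3]

/-! ## The map -/

section

variable (hCRS : S_CRS) (hCRA : S_CRA) (m : ℕ) {G : Type} [Group G]

include hCRS hCRA in
/-- The maps `X1`. -/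
theorem exists_X1 : ∃ X : ∀ (h : G) (_ : (MonoidAlgebra ℤ G)ˣ),
    HQ m (Cen h) →ₗ[ℚ] HQ (m + 1) (GQ G),
    (∀ h u, ¬ Adm1 h u → X h u = 0) ∧
    (∀ h u, Adm1 h u → ∀ z : ZC ℚ m (Cen h), ∃ z' : ZC ℚ (m + 1) (GQ G),
      ch ℚ (m + 1) (GQ G) z' = insL m (uL G u) (IC.map ℚ m (fC h) (ch ℚ m (Cen h) z)) ∧
      X h u (cl ℚ m (Cen h) z) = cl ℚ (m + 1) (GQ G) z') ∧
    ∀ h u v, Adm1 h u → Adm1 h v → ∀ c, X h (u * v) c = X h u c + X h v c := by
  classical
  have key : ∀ (h : G) (u : (MonoidAlgebra ℤ G)ˣ), ∃ X : HQ m (Cen h) →ₗ[ℚ] HQ (m + 1) (GQ G),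
      (¬ Adm1 h u → X = 0) ∧ (Adm1 h u → ∀ z : ZC ℚ m (Cen h), ∃ z' : ZC ℚ (m + 1) (GQ G),
      ch ℚ (m + 1) (GQ G) z' = insL m (uL G u) (IC.map ℚ m (fC h) (ch ℚ m (Cen h) z)) ∧
      X (cl ℚ m (Cen h) z) = cl ℚ (m + 1) (GQ G) z') := by
    intro h u
    by_cases hv : Adm1 h u
    swap
    · exact ⟨0, fun _ => rfl, fun h => absurd h hv⟩
    · obtain ⟨-, X, hX⟩ := hCRS (Cen h) (GQ G) (fC h) (uL G u) (fC_comm hv.2) m
      exact ⟨X, fun h => absurd hv h, fun _ => hX⟩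
  choose X hX using key
  refine ⟨X, fun h u => (hX h u).1, fun h u => (hX h u).2, ?_⟩
  intro h u v hu hv c
  obtain ⟨z, rfl⟩ := exists_cl c
  obtain ⟨w1, h1, h1'⟩ := (hX h (u * v)).2 (hu.mul hv) z
  obtain ⟨w2, h2, h2'⟩ := (hX h u).2 hu z
  obtain ⟨w3, h3, h3'⟩ := (hX h v).2 hv z
  obtain ⟨y, hy⟩ := hCRA (Cen h) (GQ G) (fC h) (uL G u) (uL G v) (fC_comm hu.2) (fC_comm hv.2) m z
  rw [h1', h2', h3']
  have h4 : cl ℚ (m + 1) (GQ G) (w2 + w3 - w1) = 0 := by
    rw [cl_eq_zero_iff]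
    refine ⟨y, ?_⟩
    rw [map_sub, map_add, h1, h2, h3, map_mul]
    exact hy
  rw [map_sub, map_add, sub_eq_zero] at h4
  exact h4.symm

end

end AS1

open AS1 in
theorem t_AS1 (hCRS : S_CRS) (hCRA : S_CRA) (hPRI : S_PRI.{0, 0, 0}) (hBD : S_BD.{0, 0, 0}) :
    S_AS1 := by
  classical
  intro m G _
  obtain ⟨X1, hX0, hX1, hXm⟩ := exists_X1 hCRS hCRA m (G := G)
  obtain ⟨-, X2, hX2⟩ := hCRS (GQ G) (GQ G) (MonoidHom.id (GQ G)) (tL G)
    (fun z => tL_comm z) (m + 1)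
  let W : HQ (m + 1) (GQ G) →ₗ[ℚ] KB (m + 1) (MonoidAlgebra ℤ G) :=
    KB.mk (m + 1) (MonoidAlgebra ℤ G) 1 ∘ₗ X2
  have hW : ∀ w : ZC ℚ (m + 1) (GQ G), ∃ z' : ZC ℚ (m + 2) (GQ G),
      ch ℚ (m + 2) (GQ G) z' = insL (m + 1) (tL G) (ch ℚ (m + 1) (GQ G) w) ∧
      W (cl ℚ (m + 1) (GQ G) w) = KB.mk (m + 1) (MonoidAlgebra ℤ G) 1 (cl ℚ (m + 2) (GQ G) z') := by
    intro w
    obtain ⟨z', h1, h2⟩ := hX2 w
    refine ⟨z', ?_, ?_⟩
    · rw [h1]
      exact congrArg (insL (m + 1) (tL G)) (IC.map_id (m + 1) (ch ℚ (m + 1) (GQ G) w))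
    · exact congrArg (KB.mk (m + 1) (MonoidAlgebra ℤ G) 1) h2
  have hV : ∀ (h : G) (u : (MonoidAlgebra ℤ G)ˣ) (z : ZC ℚ m (Cen h)), Adm1 h u →
      ∃ z' : ZC ℚ (m + 2) (GQ G), ch ℚ (m + 2) (GQ G) z' = chU u (ch ℚ m (Cen h) z) ∧
      W (X1 h u (cl ℚ m (Cen h) z)) =
        KB.mk (m + 1) (MonoidAlgebra ℤ G) 1 (cl ℚ (m + 2) (GQ G) z') := by
    intro h u z hu
    obtain ⟨w, h1, h2⟩ := hX1 h u hu z
    obtain ⟨z', h3, h4⟩ := hW w
    refine ⟨z', ?_, ?_⟩
    · rw [h3, h1, chU_eq]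
    · rw [h2, h4]
  let A0 : (Sym1 m G →₀ ℚ) →ₗ[ℚ] KB (m + 1) (MonoidAlgebra ℤ G) :=
    Finsupp.linearCombination ℚ (fun s => W (X1 s.h s.u s.c))
  have hA0 : ∀ h c u, A0 (sg1 h c u) = W (X1 h u c) := by
    intro h c u
    unfold sg1
    exact (Finsupp.linearCombination_single ℚ _ _).trans (one_smul _ _)
  have hrel : ∀ x, Rel1 m G x → A0 x = 0 := by
    intro x hx
    cases hx with
    | invalid h c u hv =>
      rw [hA0, hX0 h u hv, LinearMap.zero_apply, map_zero]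
    | add h c c' u => rw [map_sub, map_sub, hA0, hA0, hA0, map_add, map_add]; abel
    | smul h q c u => rw [map_sub, map_smul, hA0, hA0, map_smul, map_smul, sub_self]
    | mul h c u v hu hv =>
      rw [map_sub, map_sub, hA0, hA0, hA0, hXm h u v hu hv, map_add]
      abel
    | conj h x c u =>
      rw [map_sub, hA0, hA0, sub_eq_zero]
      by_cases hv : Adm1 h u
      swap
      · rw [hX0 h u hv, hX0 _ _ (fun H => hv ((adm1_conj_iff x).1 H))]
        rfl
      · obtain ⟨z, rfl⟩ := exists_cl c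
        obtain ⟨y, h1, h2⟩ := Hk.map_cl (cHom x (cHom_conj x h)) z
        obtain ⟨z1, h3, h4⟩ := hV _ _ y (adm1_conj x hv)
        obtain ⟨z2, h5, h6⟩ := hV h u z hv
        rw [HQ_map_eq, h1, h4, h6]
        congr 1
        obtain ⟨y2, h7, h8⟩ := Hk.map_cl (MulAut.conj (uL G (gU G x))).toMonoidHom z2
        rw [← Hk.map_conj hPRI hBD (m + 1) (uL G (gU G x)) (cl ℚ (m + 2) (GQ G) z2)]
        refine Eq.trans ?_ h7.symm
        apply cl_congr
        rw [h3, h8, h5, h2, chU_conj]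
    | res h h' hh c u hf hv =>
      rw [map_sub, hA0, hA0, sub_eq_zero]
      have hv' : Adm1 h u := ⟨hf, unS_mono hh hv.2⟩
      obtain ⟨z, rfl⟩ := exists_cl c
      obtain ⟨y, h1, h2⟩ := Hk.map_cl (cHom 1 (cHom_pow h hh)) z
      obtain ⟨z1, h3, h4⟩ := hV _ _ y hv
      obtain ⟨z2, h5, h6⟩ := hV h u z hv'
      rw [HQ_map_eq, h1, h4, h6]
      congr 1
      apply cl_congr
      rw [h3, h5, h2, chU_res hh]
  have hle : RelT m G ≤ LinearMap.ker A0 := by
    unfold RelT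
    rw [Submodule.span_le]
    intro x hx
    exact hrel x hx
  let A : Src1 m G →ₗ[ℚ] KB (m + 1) (MonoidAlgebra ℤ G) := (RelT m G).liftQ A0 hle
  refine ⟨A, fun h u z hu => ?_⟩
  obtain ⟨z', h1, h2⟩ := hV h u z hu
  refine ⟨z', h1, ?_⟩
  rw [← h2, ← hA0 h (cl ℚ m (Cen h) z) u]
  rfl

end Pool.Agent.FJA
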