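import Pool.Agent.AUK.FJA.P_EPN
import Pool.Agent.AUK.FJA.P_EVN
import Pool.Agent.AUK.FJA.P_EWN
import Pool.Agent.AUK.FJA.P_PTN

/-!
# EVK: evaluation of `psiN (μ ^ e)` on the chains of the units, without conditions on the order

`F` is a family of cocycles which is invariant under the translations of its arguments by elements of the
image of `φ`, at the endpoints in the image of `φ`.
-/

set_option autoImplicit false

open Matrix Pool.Agent.WhK Pool.Agent.Lib25

noncomputable section

namespace Pool.Agent.FJA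

/-- `F` is invariant under the translations by elements of the image of `φ`. -/
def CBas {G : Type} [Group G] {m N : ℕ} (φ : Cyc N →* G) (F : (Fin (m + 1) → G) → G → ℚ) : Prop :=
  ∀ (c : Cyc N) (x : Fin (m + 1) → Cyc N) (z : Fin (m + 1) → Cen (φ (gen N))),
    F (fun i => φ (x i) * (z i : G)) (φ c) = F (fun i => (z i : G)) (φ c)

namespace EVK

open EV0

variable {G : Type} [Group G] {N : ℕ} (φ : Cyc N →* G)

/-- In the degrees `0` and `1` the invariance is automatic. -/
theorem cbas_zero {S : G → Prop} {F : (Fin (0 + 1) → G) → G → ℚ} (hF : GCoch 0 S F) :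
    CBas φ F := by
  intro c x z
  have h1 := hF.coc (fun i : Fin 2 => if i = 0 then (z 0 : G) else φ (x 0) * (z 0 : G)) (φ c)
  rw [Fin.sum_univ_two] at h1
  have e1 : (fun j : Fin (0 + 1) => (fun i : Fin 2 => if i = 0 then (z 0 : G) else
      φ (x 0) * (z 0 : G)) ((0 : Fin 2).succAbove j)) = fun i => φ (x i) * (z i : G) := by
    funext j
    fin_cases j
    rfl
  have e2 : (fun j : Fin (0 + 1) => (fun i : Fin 2 => if i = 0 then (z 0 : G) else
      φ (x 0) * (z 0 : G)) ((1 : Fin 2).succAbove j)) = fun i => (z i : G) := by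
    funext j
    fin_cases j
    rfl
  rw [e1, e2] at h1
  simp only [Fin.val_zero, pow_zero, one_mul, Fin.val_one, pow_one, neg_mul] at h1
  linarith

theorem cyc_pow' (x : Cyc N) : x ^ N = 1 := by
  apply Multiplicative.toAdd.injective
  rw [toAdd_pow, toAdd_one, nsmul_eq_mul, ZMod.natCast_self, zero_mul]

theorem cbas_one [NeZero N] {S : G → Prop} {F : (Fin (1 + 1) → G) → G → ℚ} (hF : GCoch 1 S F) :
    CBas φ F := by
  intro c x z
  -- the cocycle identity
  have hc : ∀ a b d : G, F ![b, d] (φ c) - F ![a, d] (φ c) + F ![a, b] (φ c) = 0 := by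
    intro a b d
    have h1 := hF.coc ![a, b, d] (φ c)
    rw [Fin.sum_univ_three] at h1
    have e0 : (fun j : Fin (1 + 1) => (![a, b, d] : Fin 3 → G) ((0 : Fin 3).succAbove j)) =
        ![b, d] := by
      funext j; fin_cases j <;> rfl
    have e1 : (fun j : Fin (1 + 1) => (![a, b, d] : Fin 3 → G) ((1 : Fin 3).succAbove j)) =
        ![a, d] := by
      funext j; fin_cases j <;> rfl
    have e2 : (fun j : Fin (1 + 1) => (![a, b, d] : Fin 3 → G) ((2 : Fin 3).succAbove j)) =
        ![a, b] := by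
      funext j; fin_cases j <;> rfl
    rw [e0, e1, e2] at h1
    simpa [sub_eq_add_neg] using h1
  have h0 : ∀ a : G, F ![a, a] (φ c) = 0 := by
    intro a
    have := hc a a a
    linarith
  have hi : ∀ (y : Cyc N) (a b : G), F ![φ y * a, φ y * b] (φ c) = F ![a, b] (φ c) := by
    intro y a b
    have h1 := hF.inv (φ y) ![a, b] (φ c)
    have e1 : (fun i : Fin (1 + 1) => φ y * (![a, b] : Fin 2 → G) i) = ![φ y * a, φ y * b] := by
      funext j; fin_cases j <;> rfl
    have e2 : φ y * φ c * (φ y)⁻¹ = φ c := by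
      rw [← map_mul, mul_comm y c, map_mul, mul_inv_cancel_right]
    rw [e1, e2] at h1
    exact h1
  have hn : ∀ (y : Cyc N) (a : G) (n : ℕ), F ![a, φ (y ^ n) * a] (φ c) =
      n * F ![a, φ y * a] (φ c) := by
    intro y a n
    induction n with
    | zero => rw [pow_zero, map_one, one_mul, h0, Nat.cast_zero, zero_mul]
    | succ n ih =>
      have h1 := hc a (φ y * a) (φ (y ^ (n + 1)) * a)
      have h2 : F ![φ y * a, φ (y ^ (n + 1)) * a] (φ c) = F ![a, φ (y ^ n) * a] (φ c) := by
        rw [pow_succ', map_mul, mul_assoc, hi]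
      rw [h2, ih] at h1
      push_cast
      linarith
  have hz : ∀ (y : Cyc N) (a : G), F ![a, φ y * a] (φ c) = 0 := by
    intro y a
    have h1 := hn y a N
    rw [cyc_pow', map_one, one_mul, h0] at h1
    exact (mul_eq_zero.1 h1.symm).resolve_left (Nat.cast_ne_zero.2 (NeZero.ne N))
  have e1 : (fun i : Fin (1 + 1) => φ (x i) * (z i : G)) =
      ![φ (x 0) * (z 0 : G), φ (x 1) * (z 1 : G)] := by
    funext j; fin_cases j <;> rfl
  have e2 : (fun i : Fin (1 + 1) => (z i : G)) = ![(z 0 : G), (z 1 : G)] := by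
    funext j; fin_cases j <;> rfl
  rw [e1, e2]
  have h1 := hc (z 0 : G) (φ (x 0) * (z 0 : G)) (φ (x 1) * (z 1 : G))
  have h2 := hc (z 0 : G) (z 1 : G) (φ (x 1) * (z 1 : G))
  have h3 := hz (x 0) (z 0 : G)
  have h4 := hz (x 1) (z 1 : G)
  linarith

theorem cbas_low [NeZero N] {m : ℕ} (hm : m ≤ 1) {S : G → Prop}
    {F : (Fin (m + 1) → G) → G → ℚ} (hF : GCoch m S F) : CBas φ F := by
  rcases Nat.le_one_iff_eq_zero_or_eq_one.1 hm with rfl | rfl
  · exact cbas_zero φ hF
  · exact cbas_one φ hF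

/-- The elements of the support of the section. -/
theorem supp_form {s : List (G × Multiplicative ℤ) → G × Multiplicative ℤ →
      (G × Multiplicative ℤ →₀ ℚ)} (hs : Sec s) (z : Cen (φ (gen N))) (b : ℤ)
    (Y : List (Cyc N)) (c : Cyc N) (hfin : IsOfFinOrder (ff φ c))
    (a : G × Multiplicative ℤ)
    (ha : a ∈ (s (Y.map fun x => ((z : G), Multiplicative.ofAdd b) * ff φ x) (ff φ c)).support) :
    ∃ x : Cyc N, a = (φ x * (z : G), Multiplicative.ofAdd b) := by
  obtain ⟨t, a', ha', rfl⟩ := hs.supp _ _ hfin a ha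
  obtain ⟨x, -, rfl⟩ := List.mem_map.1 ha'
  refine ⟨c ^ t * x, ?_⟩
  have h2 : Commute (z : G) (φ x) := commute_cyc φ z x
  refine Prod.ext ?_ ?_
  · change (φ c) ^ t * ((z : G) * φ x) = φ (c ^ t * x) * (z : G)
    rw [map_mul, map_zpow, h2.eq, mul_assoc]
  · change (1 : Multiplicative ℤ) ^ t * (Multiplicative.ofAdd b * 1) = Multiplicative.ofAdd b
    rw [_root_.one_zpow, one_mul, mul_one]

/-- The value of `cup F` on the section. -/
theorem evs_val {m : ℕ} {F : (Fin (m + 1) → G) → G → ℚ} (hB : CBas φ F)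
    {s : List (G × Multiplicative ℤ) → G × Multiplicative ℤ → (G × Multiplicative ℤ →₀ ℚ)}
    (hs : Sec s) (z : Fin (m + 3) → Cen (φ (gen N))) (b : Fin (m + 3) → ℤ)
    (μ : Rec (Cyc N) (Fin (m + 3))) (hne : ∀ i, μ.lst i ≠ [])
    (hfin : IsOfFinOrder (φ μ.val)) :
    evs (cup F) s (Rec.res Fin.castSucc
      (twR (ff φ) (fun i => ((z i : G), Multiplicative.ofAdd (b i))) μ)) =
      F (fun i : Fin (m + 1) => (z (Fin.castAdd 2 i) : G)) (φ μ.val) *
        ((b (Fin.last (m + 1)).castSucc - b (Fin.last m).castSucc.castSucc : ℤ) : ℚ) := by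
  have hfin' : IsOfFinOrder (ff φ μ.val) := (fin_ff φ _).2 hfin
  have hne' : ∀ i : Fin (m + 2), (Rec.res Fin.castSucc
      (twR (ff φ) (fun i => ((z i : G), Multiplicative.ofAdd (b i))) μ)).lst i ≠ [] := by
    intro i h
    exact hne i.castSucc (List.map_eq_nil_iff.1 h)
  unfold evs
  rw [if_pos hne']
  refine mex_const _ _ _ (fun i => hs.aug _ _ hfin' (hne' i)) ?_
  intro a ha
  have hex : ∀ i : Fin (m + 2), ∃ x : Cyc N,
      a i = (φ x * (z i.castSucc : G), Multiplicative.ofAdd (b i.castSucc)) := fun i =>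
    supp_form φ hs (z i.castSucc) (b i.castSucc) (μ.lst i.castSucc) μ.val hfin' (a i) (ha i)
  choose t ht using hex
  change (if (1 : Multiplicative ℤ) = 1 then
    F (fun i => (a i.castSucc).1) (φ μ.val) *
      ((Multiplicative.toAdd (a (Fin.last (m + 1))).2 -
        Multiplicative.toAdd (a (Fin.last m).castSucc).2 : ℤ) : ℚ) else 0) = _
  rw [if_pos rfl, ht (Fin.last (m + 1)), ht (Fin.last m).castSucc]
  have h3 : (fun i : Fin (m + 1) => (a i.castSucc).1) =
      fun i : Fin (m + 1) => φ (t i.castSucc) * (z (Fin.castAdd 2 i) : G) := by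
    funext i
    rw [ht i.castSucc]
    rfl
  rw [h3, hB μ.val (fun i => t i.castSucc) (fun i => z (Fin.castAdd 2 i))]
  rfl

theorem pow_length {V : Type} {Γ : Type} [Group Γ] (μ : Rec Γ V) (e : ℕ) (i : V) :
    ((μ ^ e).lst i).length = e * (μ.lst i).length := by
  induction e with
  | zero => rw [pow_zero, Rec.one_lst, List.length_nil, Nat.zero_mul]
  | succ e ih =>
    rw [pow_succ, Rec.mul_lst, List.length_append, List.length_map, ih, Nat.succ_mul]

/-- `lamN` composed with a power -/
def lmE {C : Type} [Group C] (p k r : ℕ) (j : List C → C → ZMod (p ^ r)) (c : C) (e : ℕ)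
    (ν : Rec C (Fin 2)) : ℚ := lamN p k r j c (ν ^ e)

/-- The value of `psiN (μ ^ e)` on a simplex. -/
theorem evk (hrsn : S_RSN) (p : ℕ) [Fact p.Prime] (k B r m : ℕ) [NeZero N]
    (hφ : Function.Injective φ) (hcB : N < p ^ B) (hrB : r + B ≤ k)
    (S : G → Prop) (F : (Fin (m + 1) → G) → G → ℚ)
    (hS : ∀ y, S y → IsOfFinOrder y ∧ p ∣ orderOf y) (hF : GCoch m S F) (hB : CBas φ F)
    (s : List (G × Multiplicative ℤ) → G × Multiplicative ℤ → (G × Multiplicative ℤ →₀ ℚ))
    (hs : Sec s)
    (j : List (G × Multiplicative ℤ) → G × Multiplicative ℤ → ZMod (p ^ r))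
    (hj : MrkG (G × Multiplicative ℤ) p k r j) (e K : ℕ) (heK : e * K = p ^ k)
    (z : Fin (m + 3) → Cen (φ (gen N))) (b : Fin (m + 3) → ℤ)
    (v : Fin (m + 3) → (MonoidAlgebra ℚ_[p] (Cyc N))ˣ) :
    TX (EPN.psE p k r (cup F) s j e) K (fun i => sclU ℚ_[p] (Fin 1) ((z i : G),
        Multiplicative.ofAdd (b i)) * glG (MonoidHom.inl G (Multiplicative ℤ))
          (glG φ (sc (v i)))) =
      ∑ c : Cyc N, (F (fun i : Fin (m + 1) => (z (Fin.castAdd 2 i) : G)) (φ c) : ℚ_[p]) *
        ((b (Fin.last (m + 1)).castSucc - b (Fin.last m).castSucc.castSucc : ℤ) : ℚ_[p]) *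
        TX (lmE p k r (rsJ φ j) c e) K
          ![sc (v (Fin.last (m + 1)).castSucc), sc (v (Fin.last (m + 2)))] := by
  classical
  set γ : Fin (m + 3) → G × Multiplicative ℤ := fun i => ((z i : G), Multiplicative.ofAdd (b i))
    with hγ
  have hcomm : ∀ (i : Fin (m + 3)) (x : Cyc N), Commute (γ i) (ff φ x) := fun i x =>
    comm φ (z i) (b i) x
  have htw : ∀ μ : Rec (Cyc N) (Fin (m + 3)), (twR (ff φ) γ μ) ^ e = twR (ff φ) γ (μ ^ e) :=
    fun μ => (map_pow (TWI.twH (ff φ) γ hcomm) μ e).symm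
  have h1 := t_TWI ℚ_[p] (Cyc N) (G × Multiplicative ℤ) (ff φ) (Fin 1) (m + 3) K
    (EPN.psE p k r (cup F) s j e) γ hcomm (fun i => sc (v i))
  have h2 : (fun i => sclU ℚ_[p] (Fin 1) ((z i : G), Multiplicative.ofAdd (b i)) *
      glG (MonoidHom.inl G (Multiplicative ℤ)) (glG φ (sc (v i)))) =
      fun i => sclU ℚ_[p] (Fin 1) (γ i) * glG (ff φ) (sc (v i)) := by
    funext i
    rw [ff, glG_comp]
  rw [h2, h1]
  -- the map of labels
  set fv : Fin 2 → Fin (m + 3) := ![(Fin.last (m + 1)).castSucc, Fin.last (m + 2)] with hfv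
  have hmono : StrictMono fv := by
    rw [Fin.strictMono_iff_lt_succ]
    intro i
    have hi : i = 0 := Subsingleton.elim _ _
    subst hi
    exact Fin.castSucc_lt_last _
  have hpk : 0 < p ^ k := pow_pos (Fact.out (p := p.Prime)).pos k
  have h3 := t_TXlen ℚ_[p] (Cyc N) (Fin 1) (m + 3) K
    (fun μ => EPN.psE p k r (cup F) s j e (twR (ff φ) γ μ))
    (fun μ => ∑ c : Cyc N, (F (fun i : Fin (m + 1) => (z (Fin.castAdd 2 i) : G)) (φ c) *
        ((b (Fin.last (m + 1)).castSucc - b (Fin.last m).castSucc.castSucc : ℤ) : ℚ)) *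
        (lmE p k r (rsJ φ j) c e) (Rec.res fv μ)) (fun i => sc (v i)) ?_
  · rw [h3, TX_sum]
    refine Finset.sum_congr rfl fun c _ => ?_
    rw [t_TXR ℚ_[p] (Cyc N) (Fin 1) (m + 3) 2 K fv hmono
      (lmE p k r (rsJ φ j) c e) (fun i => sc (v i))]
    have h4 : (fun t => sc (v (fv t))) =
        ![sc (v (Fin.last (m + 1)).castSucc), sc (v (Fin.last (m + 2)))] := by
      funext t
      fin_cases t <;> rfl
    rw [h4]
    push_cast
    ring
  · intro μ' hμ'
    have hres : (Rec.res fv μ') ^ e = Rec.res fv (μ' ^ e) := (map_pow (Rec.res fv) μ' e).symm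
    unfold EPN.psE lmE
    rw [htw μ', hres]
    have hμ : ∀ i, ((μ' ^ e).lst i).length = p ^ k := by
      intro i
      rw [pow_length, hμ' i, heK]
    generalize μ' ^ e = μ at hμ ⊢
    have hne : ∀ i, μ.lst i ≠ [] := by
      intro i h
      have := hμ i
      rw [h, List.length_nil] at this
      omega
    -- the right side
    have hR : ∑ c : Cyc N, (F (fun i : Fin (m + 1) => (z (Fin.castAdd 2 i) : G)) (φ c) *
        ((b (Fin.last (m + 1)).castSucc - b (Fin.last m).castSucc.castSucc : ℤ) : ℚ)) *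
        lamN p k r (rsJ φ j) c (Rec.res fv μ) =
        (F (fun i : Fin (m + 1) => (z (Fin.castAdd 2 i) : G)) (φ μ.val) *
        ((b (Fin.last (m + 1)).castSucc - b (Fin.last m).castSucc.castSucc : ℤ) : ℚ)) *
        (((rsJ φ j (μ.lst (Fin.last (m + 2))) μ.val -
          rsJ φ j (μ.lst (Fin.last (m + 1)).castSucc) μ.val).val : ℕ) : ℚ) := by
      rw [Finset.sum_eq_single μ.val]
      · congr 1
        unfold lamN
        rw [if_pos ⟨fun i => hμ (fv i), rfl⟩]
        rfl
      · intro c _ hc
        have h5 : lamN p k r (rsJ φ j) c (Rec.res fv μ) = 0 := by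
          unfold lamN
          rw [if_neg]
          rintro ⟨-, h6⟩
          exact hc h6.symm
        rw [h5, mul_zero]
      · intro h
        exact absurd (Finset.mem_univ _) h
    rw [hR]
    by_cases hSc : S (φ μ.val)
    · obtain ⟨hfin, hdvd⟩ := hS _ hSc
      have hord : orderOf μ.val = orderOf (φ μ.val) := (orderOf_injective φ hφ μ.val).symm
      have hcond : (∀ i, ((twR (ff φ) γ μ).lst i).length = p ^ k) ∧
          IsOfFinOrder (twR (ff φ) γ μ).val ∧ p ∣ orderOf (twR (ff φ) γ μ).val ∧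
          ∀ i, GoodP (p ^ r) ((twR (ff φ) γ μ).lst i) (twR (ff φ) γ μ).val := by
        refine ⟨fun i => ?_, (fin_ff φ _).2 hfin, ?_, fun i => ?_⟩
        · change ((μ.lst i).map _).length = _
          rw [List.length_map, hμ i]
        · change p ∣ orderOf (ff φ μ.val)
          rw [order_ff]
          exact hdvd
        · exact hrsn.1 (G × Multiplicative ℤ) N p B k r hcB hrB (ff φ) (EVN.ff_inj φ hφ) (γ i)
            (hcomm i) (μ.lst i) μ.val (hμ i) (by rw [hord]; exact hdvd)
      have hval := evs_val φ hB hs z b μ hne hfin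
      unfold psiN
      rw [if_pos hcond, hval]
      congr 1
      have e1 : j ((twR (ff φ) γ μ).lst (Fin.last (m + 1 + 1))) (twR (ff φ) γ μ).val =
          rsJ φ j (μ.lst (Fin.last (m + 2))) μ.val := EVN.j_tw φ hj _ _ _ _
      have e2 : j ((twR (ff φ) γ μ).lst (Fin.last (m + 1)).castSucc) (twR (ff φ) γ μ).val =
          rsJ φ j (μ.lst (Fin.last (m + 1)).castSucc) μ.val := EVN.j_tw φ hj _ _ _ _
      rw [e1, e2]
    · have h0 : ∀ a, F a (φ μ.val) = 0 := by
        intro a
        by_contra h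
        exact hSc (hF.supp a _ h)
      rw [h0, zero_mul, zero_mul]
      unfold psiN
      split_ifs
      · rw [evs_zero φ (c := μ.val) h0 s _ rfl, zero_mul]
      · rfl

/-- LM0 for `ν ↦ lamN (ν ^ e)`. -/
theorem part1e (k : Type) [Field k] [CharZero k] (C : Type) [CommGroup C] (p κ r : ℕ)
    (j : List C → C → ZMod (p ^ r)) (hj : MrkR C p κ r j) (c : C) (e N : ℕ) (he : 0 < e) :
    (∀ g X Y : (Matrix (Fin 1) (Fin 1) (MonoidAlgebra k C))ˣ,
      TX (lmE p κ r j c e) N ![g * X, g * Y] =
        TX (lmE p κ r j c e) N ![X, Y]) ∧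
    (c ≠ 1 → TX (lmE p κ r j c e) N
      ![(1 : (Matrix (Fin 1) (Fin 1) (MonoidAlgebra k C))ˣ), 1] = 0) := by
  have hcj : CjInv (lmE p κ r j c e) := by
    obtain ⟨e, rfl⟩ : ∃ e', e = e' + 1 := ⟨e - 1, by omega⟩
    intro γ μ
    change lamN p κ r j c ((Rec.inc γ * μ) ^ (e + 1)) = lamN p κ r j c ((μ * Rec.inc γ) ^ (e + 1))
    have h1 := PTN.pow_left (Rec.inc γ) μ e
    have h2 : (μ * Rec.inc γ) ^ (e + 1) = ((μ * Rec.inc γ) ^ e * μ) * Rec.inc γ := by
      rw [pow_succ, mul_assoc]
    rw [h1, h2]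
    exact EWN.cjInv_lamN p κ r j hj c γ _
  constructor
  · intro g X Y
    have h := t_TXinv k C (Fin 1) 2 N (lmE p κ r j c e) hcj g ![X, Y]
    rw [← h]
    congr 1
    funext i
    fin_cases i <;> rfl
  · intro hc
    have hX : ∀ i : Fin 2, (![(1 : (Matrix (Fin 1) (Fin 1) (MonoidAlgebra k C))ˣ), 1] :
        Fin 2 → (Matrix (Fin 1) (Fin 1) (MonoidAlgebra k C))ˣ) i = 1 := by
      intro i
      fin_cases i <;> rfl
    refine t_TXsup k C (Fin 1) 2 N (lmE p κ r j c e) _ (LM0.sub1 C (Fin 2))
      (fun i => ?_) ?_ ?_ ?_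
    · exact LM0.mem_sub1.2 rfl
    · intro i a b γ hγ
      rw [hX i] at hγ
      exact LM0.mem_sub1.2 (LM0.coeff_one_fin a b γ hγ)
    · intro i a b γ hγ
      rw [hX i, inv_one] at hγ
      exact LM0.mem_sub1.2 (LM0.coeff_one_fin a b γ hγ)
    · intro μ hμ
      change lamN p κ r j c (μ ^ e) = 0
      unfold lamN
      rw [if_neg]
      rintro ⟨-, h⟩
      rw [EVS.pow_val, LM0.mem_sub1.1 hμ, one_pow] at h
      exact hc h.symm

open EV1 in
/-- The value of `psiN (μ ^ e)` on the chain of a unit. -/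
theorem ewk (hrsn : S_RSN) (p : ℕ) [Fact p.Prime] (k B r m : ℕ) [NeZero N]
    (hφ : Function.Injective φ) (hNB : N < p ^ B) (hrB : r + B ≤ k)
    (S : G → Prop) (F : (Fin (m + 1) → G) → G → ℚ)
    (hS : ∀ y, S y → IsOfFinOrder y ∧ p ∣ orderOf y) (hF : GCoch m S F) (hB : CBas φ F)
    (s : List (G × Multiplicative ℤ) → G × Multiplicative ℤ → (G × Multiplicative ℤ →₀ ℚ))
    (hs : Sec s)
    (j : List (G × Multiplicative ℤ) → G × Multiplicative ℤ → ZMod (p ^ r))
    (hj : MrkG (G × Multiplicative ℤ) p k r j) (e K : ℕ) (he : 0 < e) (heK : e * K = p ^ k)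
    (u : (MonoidAlgebra ℤ (Cyc N))ˣ) (w : (Fin (m + 1) → Cen (φ (gen N))) →₀ ℚ) :
    TS ℚ_[p] (EPN.psE p k r (cup F) s j e) K (E1 m φ u w) =
      ∑ c : Cyc N, ((evc (fun z : Cen (φ (gen N)) => (z : G)) F w (φ c) : ℚ) : ℚ_[p]) *
        TX (lmE p k r (rsJ φ j) c e) K ![1, sc (uZ p u)] := by
  classical
  have hM : MrkR (Cyc N) p k r (rsJ φ j) := hrsn.2 G N p B k r hNB hrB φ hφ j hj
  -- the value on a simplex
  have key : ∀ (Z : Fin (m + 1) → Cen (φ (gen N))) (i : Fin (m + 1)) (i' : Fin (m + 2)),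
      TX (EPN.psE p k r (cup F) s j e) K (fun l : Fin (m + 3) => cvt ℚ_[p] 1
        (mix id (fun x => x * sEl G)
          (mix (fun z : Cen (φ (gen N)) => gl1 elt (z : G))
            (fun z : Cen (φ (gen N)) => gl1 elt (z : G) * uEl φ u) Z i) i' l)) =
      if i' = (Fin.last m).castSucc ∧ i = Fin.last m then
        ∑ c : Cyc N, (F (fun t => (Z t : G)) (φ c) : ℚ_[p]) *
          TX (lmE p k r (rsJ φ j) c e) K
            ![(1 : (Matrix (Fin 1) (Fin 1) (MonoidAlgebra ℚ_[p] (Cyc N)))ˣ), sc (uZ p u)]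
      else 0 := by
    intro Z i i'
    have h1 : (fun l : Fin (m + 3) => cvt ℚ_[p] 1
        (mix id (fun x => x * sEl G)
          (mix (fun z : Cen (φ (gen N)) => gl1 elt (z : G))
            (fun z : Cen (φ (gen N)) => gl1 elt (z : G) * uEl φ u) Z i) i' l)) =
        fun l : Fin (m + 3) => sclU ℚ_[p] (Fin 1) ((Z (i.predAbove (i'.predAbove l)) : G),
          Multiplicative.ofAdd (bb (l ≤ i'.castSucc))) *
        glG (MonoidHom.inl G (Multiplicative ℤ))
          (glG φ (sc (vv (uZ p u) (i'.predAbove l ≤ i.castSucc)))) := by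
      funext l
      exact vert p m φ u Z i i' l
    rw [h1, evk φ hrsn p k B r m hφ hNB hrB S F hS hF hB s hs j hj e K heK
      (fun l => Z (i.predAbove (i'.predAbove l))) (fun l => bb (l ≤ i'.castSucc))
      (fun l => vv (uZ p u) (i'.predAbove l ≤ i.castSucc))]
    by_cases hi' : i' = (Fin.last m).castSucc
    · have hv' : (i' : ℕ) = m := by rw [hi']; rfl
      have hb1 : bb ((Fin.last (m + 1)).castSucc ≤ i'.castSucc) = 1 := by
        unfold bb
        rw [if_neg]
        rw [Fin.le_def, Fin.val_castSucc, Fin.val_castSucc, Fin.val_last, hv']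
        omega
      have hb2 : bb ((Fin.last m).castSucc.castSucc ≤ i'.castSucc) = 0 := by
        unfold bb
        rw [if_pos]
        rw [Fin.le_def, Fin.val_castSucc, Fin.val_castSucc, Fin.val_castSucc, Fin.val_last, hv']
      have hv2 : vv (uZ p u) (i'.predAbove (Fin.last (m + 2)) ≤ i.castSucc) = uZ p u := by
        unfold vv
        rw [if_neg]
        rw [Fin.le_def, pa_val, Fin.val_castSucc, Fin.val_last, hv']
        have := i.2
        rw [if_pos (by omega)]
        omega
      by_cases hi : i = Fin.last m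
      · have hv : (i : ℕ) = m := by rw [hi]; rfl
        rw [if_pos ⟨hi', hi⟩]
        have hv1 : vv (uZ p u) (i'.predAbove (Fin.last (m + 1)).castSucc ≤ i.castSucc) = 1 := by
          unfold vv
          rw [if_pos]
          rw [Fin.le_def, pa_val, Fin.val_castSucc, Fin.val_castSucc, Fin.val_last, hv', hv]
          rw [if_pos (by omega)]
          omega
        have hz : ∀ t : Fin (m + 1), i.predAbove (i'.predAbove (Fin.castAdd 2 t)) = t := by
          intro t
          apply Fin.ext
          have ht := t.2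
          have a1 : ((i'.predAbove (Fin.castAdd 2 t) : Fin (m + 2)) : ℕ) = t := by
            rw [pa_val, Fin.val_castAdd, hv', if_neg (by omega)]
          rw [pa_val, a1, hv, if_neg (by omega)]
        refine Finset.sum_congr rfl fun c _ => ?_
        simp only [hb1, hb2, hv1, hv2, hz, map_one, sub_zero, Int.cast_one, mul_one]
      · rw [if_neg fun h => hi h.2]
        have hv : (i : ℕ) < m := by
          have h2 := i.2
          rcases Nat.lt_or_ge (i : ℕ) m with h3 | h3
          · exact h3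
          · exact absurd (Fin.ext (by rw [Fin.val_last]; omega)) hi
        have hv1 : vv (uZ p u) (i'.predAbove (Fin.last (m + 1)).castSucc ≤ i.castSucc) =
            uZ p u := by
          unfold vv
          rw [if_neg]
          rw [Fin.le_def, pa_val, Fin.val_castSucc, Fin.val_castSucc, Fin.val_last, hv']
          rw [if_pos (by omega)]
          omega
        refine Finset.sum_eq_zero fun c _ => ?_
        simp only [hv1, hv2]
        by_cases hFc : F (fun t : Fin (m + 1) =>
            (Z (i.predAbove (i'.predAbove (Fin.castAdd 2 t))) : G)) (φ c) = 0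
        · rw [hFc, Rat.cast_zero, zero_mul, zero_mul]
        · have hc1 : c ≠ 1 := by
            rintro rfl
            have h3 := (hS _ (hF.supp _ _ hFc)).2
            rw [map_one, orderOf_one] at h3
            exact (Fact.out : p.Prime).one_lt.ne' (Nat.dvd_one.1 h3)
          obtain ⟨h4, h5⟩ := part1e ℚ_[p] (Cyc N) p k r (rsJ φ j) hM c e K he
          have h6 := h4 (sc (uZ p u)) 1 1
          rw [mul_one, h5 hc1] at h6
          rw [h6, mul_zero]
    · rw [if_neg fun h => hi' h.1]
      have hv' : (i' : ℕ) ≠ m := by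
        intro h
        exact hi' (Fin.ext h)
      have hlt := i'.2
      have hb : bb ((Fin.last (m + 1)).castSucc ≤ i'.castSucc) =
          bb ((Fin.last m).castSucc.castSucc ≤ i'.castSucc) := by
        unfold bb
        have e1 : ((Fin.last (m + 1)).castSucc ≤ i'.castSucc) ↔
            ((Fin.last m).castSucc.castSucc ≤ i'.castSucc) := by
          rw [Fin.le_def, Fin.le_def, Fin.val_castSucc, Fin.val_castSucc, Fin.val_castSucc,
            Fin.val_castSucc, Fin.val_last, Fin.val_last]
          omega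
        by_cases h7 : (Fin.last m).castSucc.castSucc ≤ i'.castSucc
        · rw [if_pos h7, if_pos (e1.2 h7)]
        · rw [if_neg h7, if_neg (fun h => h7 (e1.1 h))]
      refine Finset.sum_eq_zero fun c _ => ?_
      simp only [hb, sub_self, Int.cast_zero, mul_zero, zero_mul]
  induction w using Finsupp.induction_linear with
  | zero =>
    rw [E1_zero, map_zero]
    symm
    refine Finset.sum_eq_zero fun c _ => ?_
    rw [evc_zero, Rat.cast_zero, zero_mul]
  | add w w' hw hw' =>
    rw [E1_add, map_add, hw, hw', ← Finset.sum_add_distrib]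
    refine Finset.sum_congr rfl fun c _ => ?_
    rw [evc_add, Rat.cast_add, add_mul]
  | single Z q =>
    rw [E1_single, map_smul, map_sum, Finset.sum_eq_single (Fin.last m)]
    · rw [map_smul, map_sum, Finset.sum_eq_single (Fin.last m).castSucc]
      · have h8 := key Z (Fin.last m) (Fin.last m).castSucc
        rw [if_pos ⟨rfl, rfl⟩] at h8
        unfold TS
        rw [map_smul, Finsupp.linearCombination_single, one_smul]
        refine Eq.trans (congrArg _ (congrArg _ (congrArg _ h8))) ?_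
        rw [Fin.val_castSucc, smul_smul ((-1 : ℚ) ^ _), ← mul_pow, neg_one_mul, neg_neg, one_pow,
          one_smul, Rat.smul_def, Finset.mul_sum]
        refine Finset.sum_congr rfl fun c _ => ?_
        rw [evc_single, Rat.cast_mul, mul_assoc]
      · intro i' _ hi'
        have h8 := key Z (Fin.last m) i'
        rw [if_neg fun h => hi' h.1] at h8
        unfold TS
        rw [map_smul, Finsupp.linearCombination_single, one_smul]
        refine Eq.trans (congrArg _ h8) (smul_zero _)
      · intro h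
        exact absurd (Finset.mem_univ _) h
    · intro i _ hi
      rw [map_smul, map_sum, Finset.sum_eq_zero, smul_zero]
      intro i' _
      have h8 := key Z i i'
      rw [if_neg fun h => hi h.2] at h8
      unfold TS
      rw [map_smul, Finsupp.linearCombination_single, one_smul]
      refine Eq.trans (congrArg _ h8) (smul_zero _)
    · intro h
      exact absurd (Finset.mem_univ _) h

end EVK

end Pool.Agent.FJA
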