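import Pool.Agent.AUK.FJA.Hom
import Pool.Agent.AUK.FJA.St7

/-!
# CRA: additivity of the product
-/

set_option autoImplicit false

open Matrix Pool.Agent.WhK Pool.Agent.Lib25 CategoryTheory

noncomputable section

namespace Pool.Agent.FJA

namespace CRA

theorem prism_mul {P Q : Type} [Group P] [Group Q] (f : P →* Q) (g g' : Q)
    (hg : ∀ z, g * f z = f z * g) (m : ℕ) (c : (Fin m → P) →₀ ℚ) :
    prism ℚ (fun z => f z * g) (fun z => f z * (g * g')) m c =
      hmap ℚ (g * ·) (m + 1) (prism ℚ f (fun z => f z * g') m c) := by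
  induction c using Finsupp.induction_linear with
  | zero => simp only [map_zero]
  | add x y hx hy => simp only [map_add, hx, hy]
  | single X q =>
    unfold prism hmap
    rw [Finsupp.linearCombination_single, Finsupp.linearCombination_single, map_smul, map_sum]
    congr 1
    refine Finset.sum_congr rfl fun i _ => ?_
    rw [Finsupp.lmapDomain_apply, Finsupp.mapDomain_single]
    congr 1
    funext j
    unfold mix
    split_ifs
    · exact (hg _).symm
    · change f _ * (g * g') = g * (f _ * g')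
      rw [← mul_assoc, ← mul_assoc, hg]

theorem T_hdeg {P Q : Type} [Group P] [Group Q] (f : P →* Q) (f1 f2 : P → Q)
    (h1 : ∀ γ v, f1 (γ * v) = f γ * f1 v) (h2 : ∀ γ v, f2 (γ * v) = f γ * f2 v)
    (T : ∀ m : ℕ, ((Fin m → P) →₀ ℚ) →ₗ[ℚ] ((Fin (m + 2) → Q) →₀ ℚ))
    (hT : ∀ (g : P → P) (g' : Q → Q), (∀ v, f (g v) = g' (f v)) → (∀ v, f1 (g v) = g' (f1 v)) →
        (∀ v, f2 (g v) = g' (f2 v)) → ∀ (m : ℕ) (c : (Fin m → P) →₀ ℚ),
        T m (hmap ℚ g m c) = hmap ℚ g' (m + 2) (T m c))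
    (m : ℕ) {w : HCh ℚ P m} (hw : w ∈ hdeg ℚ P m) : T (m + 1) w ∈ hdeg ℚ Q (m + 2) := by
  have h3 : hdeg ℚ P m ≤ (hdeg ℚ Q (m + 2)).comap (T (m + 1)) := by
    unfold hdeg
    rw [Submodule.span_le]
    rintro x ⟨γ, X, rfl⟩
    change T (m + 1) _ ∈ hdeg ℚ Q (m + 2)
    have h4 := hT (γ * ·) (f γ * ·) (fun v => map_mul f γ v) (h1 γ) (h2 γ) (m + 1)
      (Finsupp.single X 1)
    have h5 : hmap ℚ (γ * ·) (m + 1) (Finsupp.single X 1) =
        Finsupp.single (fun i => γ * X i) 1 := Finsupp.mapDomain_single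
    rw [h5] at h4
    rw [map_sub, h4]
    exact hmap_sub_mem (m + 2) (f γ) _
  exact h3 hw

end CRA

theorem t_CRA : S_TPR → S_CRS → S_BD.{0, 0, 0} → S_CRA := by
  intro hT hC _ P Q _ _ f g g' hg hg' m z
  obtain ⟨T, hTb, hTe, hT0⟩ := hT P Q f (fun z => f z * g) (fun z => f z * (g * g'))
  have hgg : ∀ z, g * g' * f z = f z * (g * g') := fun z => by
    rw [mul_assoc, hg', ← mul_assoc, hg, mul_assoc]
  have a1 := (hC P Q f g hg m).1 (ch ℚ m P z)
  have a2 := (hC P Q f g' hg' m).1 (ch ℚ m P z)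
  have a3 := (hC P Q f (g * g') hgg m).1 (ch ℚ m P z)
  have b1 := congrArg (phi ℚ (m + 1) Q) a1
  have b2 := congrArg (phi ℚ (m + 1) Q) a2
  have b3 := congrArg (phi ℚ (m + 1) Q) a3
  rw [phi_psi] at b1 b2 b3
  refine ⟨phi ℚ (m + 2) Q (T (m + 1) (psi ℚ m P (ch ℚ m P z))), ?_⟩
  rw [← phi_bd, hTb]
  have c1 : phi ℚ (m + 1) Q (T m (bd ℚ P m (psi ℚ m P (ch ℚ m P z)))) = 0 := by
    cases m with
    | zero => rw [hT0, map_zero]
    | succ m =>
      refine phi_hdeg (m + 2) (CRA.T_hdeg f (fun z => f z * g) (fun z => f z * (g * g')) ?_ ?_ T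
        hTe m ?_)
      · intro γ v
        change f (γ * v) * g = f γ * (f v * g)
        rw [map_mul, mul_assoc]
      · intro γ v
        change f (γ * v) * (g * g') = f γ * (f v * (g * g'))
        rw [map_mul, mul_assoc]
      · exact psi_ch_mem m z
  have c2 : phi ℚ (m + 1) Q (prism ℚ (fun z => f z * g) (fun z => f z * (g * g')) (m + 1)
      (psi ℚ m P (ch ℚ m P z))) = phi ℚ (m + 1) Q (prism ℚ f (fun z => f z * g') (m + 1)
      (psi ℚ m P (ch ℚ m P z))) := by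
    rw [CRA.prism_mul f g g' hg, ← sub_eq_zero, ← map_sub]
    exact phi_hdeg (m + 1) (hmap_sub_mem (m + 1) g _)
  rw [map_add, map_sub, map_add, c1, c2, ← b1, ← b2, ← b3, add_zero]

end Pool.Agent.FJA
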