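import Pool.Agent.AUK.FJA.St9

/-!
# Module RSN: the restriction of a marking to a finite cyclic subgroup
-/

set_option autoImplicit false

open Matrix Pool.Agent.WhK Pool.Agent.Lib25

noncomputable section

namespace Pool.Agent.FJA

namespace RSN

variable {Γ : Type} [Group Γ]

theorem rot_map (y δ : Γ) (h : δ * y = y * δ) (Y : List Γ) :
    rotL y (Y.map (δ * ·)) = (rotL y Y).map (δ * ·) := by
  cases Y with
  | nil => rfl
  | cons a Y =>
    simp only [rotL, List.map_cons, List.map_append, List.map_nil]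
    rw [← mul_assoc, ← mul_assoc, h]

theorem rot_iter_map (y δ : Γ) (h : δ * y = y * δ) (e : ℕ) (Y : List Γ) :
    (rotL y)^[e] (Y.map (δ * ·)) = ((rotL y)^[e] Y).map (δ * ·) := by
  induction e generalizing Y with
  | zero => rfl
  | succ e ih => rw [Function.iterate_succ_apply, Function.iterate_succ_apply, rot_map y δ h, ih]

theorem rot_append (y : Γ) (A B : List Γ) :
    (rotL y)^[A.length] (A ++ B) = B ++ A.map (y * ·) := by
  induction A generalizing B with
  | nil => simp
  | cons a A ih =>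
    rw [List.length_cons, Function.iterate_succ_apply]
    have h : rotL y (a :: A ++ B) = A ++ (B ++ [y * a]) := by
      simp [rotL]
    rw [h, ih]
    simp

theorem rot_full (y : Γ) (Y : List Γ) : (rotL y)^[Y.length] Y = Y.map (y * ·) := by
  have h := rot_append y Y []
  simpa using h

theorem rot_mul (y δ : Γ) (h : δ * y = y * δ) (e : ℕ) (Y : List Γ)
    (h1 : (rotL y)^[e] Y = Y.map (δ * ·)) (m : ℕ) :
    (rotL y)^[m * e] Y = Y.map (δ ^ m * ·) := by
  induction m with
  | zero => simp
  | succ m ih =>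
    have h2 : δ ^ m * y = y * δ ^ m := (Commute.pow_left (show Commute δ y from h) m)
    rw [show (m + 1) * e = e + m * e by ring, Function.iterate_add_apply, ih,
      rot_iter_map y _ h2, h1, List.map_map]
    apply List.map_congr_left
    intro x _
    simp only [Function.comp, pow_succ, mul_assoc]

theorem rot_hom {C : Type} [Group C] (F : C → Γ) (c : C) (y : Γ)
    (hF : ∀ x, F (c * x) = y * F x) (Y : List C) :
    rotL y (Y.map F) = (rotL c Y).map F := by
  cases Y with
  | nil => rfl
  | cons a Y => simp [rotL, hF]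

theorem rot_iter_hom {C : Type} [Group C] (F : C → Γ) (c : C) (y : Γ)
    (hF : ∀ x, F (c * x) = y * F x) (e : ℕ) (Y : List C) :
    (rotL y)^[e] (Y.map F) = ((rotL c)^[e] Y).map F := by
  induction e generalizing Y with
  | zero => rfl
  | succ e ih =>
    rw [Function.iterate_succ_apply, Function.iterate_succ_apply, rot_hom F c y hF, ih]

theorem rot_length (y : Γ) (e : ℕ) (Y : List Γ) : ((rotL y)^[e] Y).length = Y.length := by
  induction e generalizing Y with
  | zero => rfl
  | succ e ih =>
    rw [Function.iterate_succ_apply, ih]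
    cases Y with
    | nil => rfl
    | cons a Y => simp [rotL]

/-- The order of `x ^ (p ^ E)` is prime to `p` if `p ^ E` is larger than the order of `x`. -/
theorem not_dvd {x : Γ} (hx : IsOfFinOrder x) {p E : ℕ} (hp : p.Prime)
    (hE : orderOf x < p ^ E) : ¬ p ∣ orderOf (x ^ p ^ E) := by
  obtain ⟨a, m, hm, h1⟩ := Nat.exists_eq_pow_mul_and_not_dvd hx.orderOf_pos.ne' p hp.ne_one
  have hm0 : 0 < m := by
    rcases Nat.eq_zero_or_pos m with h | h
    · exact absurd (h ▸ dvd_zero p) hm
    · exact h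
  have h2 : p ^ a ≤ orderOf x := by
    rw [h1]
    exact Nat.le_mul_of_pos_right _ hm0
  have h3 : a ≤ E := by
    by_contra h4
    have h5 : p ^ E ≤ p ^ a := Nat.pow_le_pow_right hp.pos (by omega)
    omega
  have h4 : orderOf (x ^ p ^ E) ∣ m := by
    apply orderOf_dvd_of_pow_eq_one
    rw [← pow_mul]
    apply orderOf_dvd_iff_pow_eq_one.1
    rw [h1]
    exact Nat.mul_dvd_mul_right (pow_dvd_pow p h3) m
  exact fun h5 => hm (h5.trans h4)

/-- The statement in the cyclic group. -/
theorem cyc {N p : ℕ} [NeZero N] (hp : p.Prime) {B k r : ℕ} (hN : N < p ^ B) (hk : r + B ≤ k)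
    (Y : List (Cyc N)) (c d : Cyc N) (e : ℕ) (hY : Y.length = p ^ k) (hc : p ∣ orderOf c)
    (h : Stb Y c d e) : p ^ r ∣ e := by
  rcases Nat.eq_zero_or_pos e with he | he
  · rw [he]
    exact dvd_zero _
  by_contra hne
  obtain ⟨i, u, hu, hiu⟩ := Nat.exists_eq_pow_mul_and_not_dvd he.ne' p hp.ne_one
  have hi : i < r := by
    by_contra hi
    apply hne
    rw [hiu]
    exact Dvd.dvd.mul_right (pow_dvd_pow p (by omega)) u
  have hcomm : ∀ a b : Cyc N, a * b = b * a := fun a b => mul_comm a b
  -- the rotation by `e`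
  have h1 : (rotL c)^[e] Y = Y.map (d⁻¹ * ·) := by
    have h2 := h.2
    conv_rhs => rw [← h2]
    rw [List.map_map]
    have h3 : ((fun x => d⁻¹ * x) ∘ fun x => d * x) = (id : Cyc N → Cyc N) := by
      funext x
      simp
    rw [h3, List.map_id]
  have h2 := rot_mul c d⁻¹ (hcomm _ _) e Y h1 (p ^ (k - i))
  have h3 := rot_mul c c rfl Y.length Y (rot_full c Y) u
  have h4 : p ^ (k - i) * e = u * Y.length := by
    rw [hY, hiu]
    calc p ^ (k - i) * (p ^ i * u) = (p ^ (k - i) * p ^ i) * u := by ring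
      _ = p ^ k * u := by rw [← pow_add, show k - i + i = k by omega]
      _ = u * p ^ k := by ring
  rw [h4, h3] at h2
  have hpos : 0 < Y.length := by
    rw [hY]
    exact pow_pos hp.pos k
  have h5 : c ^ u = d⁻¹ ^ p ^ (k - i) := by
    obtain ⟨a, Y', rfl⟩ : ∃ a Y', Y = a :: Y' := by
      cases Y with
      | nil => simp at hpos
      | cons a Y' => exact ⟨a, Y', rfl⟩
    rw [List.map_cons, List.map_cons] at h2
    have h6 := (List.cons.inj h2).1
    exact mul_right_cancel h6
  have h6 : p ∣ orderOf (c ^ u) := by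
    have h7 : c ^ (u * orderOf (c ^ u)) = 1 := by
      rw [pow_mul, pow_orderOf_eq_one]
    have h8 := orderOf_dvd_of_pow_eq_one h7
    rcases (hp.dvd_mul).1 (hc.trans h8) with h9 | h9
    · exact absurd h9 hu
    · exact h9
  rw [h5] at h6
  refine not_dvd (isOfFinOrder_of_finite _) hp ?_ h6
  have h7 : orderOf d⁻¹ ≤ N := by
    have h8 : orderOf d⁻¹ ∣ Nat.card (Cyc N) := orderOf_dvd_natCard _
    have h9 : Nat.card (Cyc N) = N := by
      rw [Nat.card_congr (Multiplicative.toAdd : Cyc N ≃ ZMod N)]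
      exact Nat.card_zmod N
    rw [h9] at h8
    exact Nat.le_of_dvd (Nat.pos_of_ne_zero (NeZero.ne N)) h8
  exact lt_of_le_of_lt h7 (lt_of_lt_of_le hN (Nat.pow_le_pow_right hp.pos (by omega)))

theorem goodP (Γ : Type) [Group Γ] (N p : ℕ) [NeZero N] [Fact p.Prime] (B k r : ℕ)
    (hN : N < p ^ B) (hk : r + B ≤ k) (f : Cyc N →* Γ) (hf : Function.Injective f)
    (z : Γ) (hz : ∀ x, Commute z (f x)) (Y : List (Cyc N)) (c : Cyc N) (hY : Y.length = p ^ k)
    (hc : p ∣ orderOf c) : GoodP (p ^ r) (Y.map fun x => z * f x) (f c) := by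
  intro δ e hS
  have hp : p.Prime := Fact.out
  have h1 := hS.2
  rw [rot_iter_hom (fun x => z * f x) c (f c) (fun x => by
    rw [map_mul, ← mul_assoc, (hz c).eq, mul_assoc]) e Y] at h1
  have hlen := rot_length c e Y
  have hpos : 0 < Y.length := by
    rw [hY]
    exact pow_pos hp.pos k
  obtain ⟨a, Y', hYa⟩ : ∃ a Y', Y = a :: Y' := by
    cases Y with
    | nil => simp at hpos
    | cons a Y' => exact ⟨a, Y', rfl⟩
  obtain ⟨b, Z', hZb⟩ : ∃ b Z', (rotL c)^[e] Y = b :: Z' := by
    cases hZ : (rotL c)^[e] Y with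
    | nil =>
      rw [hZ] at hlen
      simp at hlen
      omega
    | cons b Z' => exact ⟨b, Z', rfl⟩
  have h2 : δ * (z * f b) = z * f a := by
    rw [hZb, hYa, List.map_cons, List.map_cons, List.map_cons] at h1
    exact (List.cons.inj h1).1
  have h3 : δ = f (a * b⁻¹) := by
    have h4 : δ = z * f a * (z * f b)⁻¹ := eq_mul_inv_of_mul_eq h2
    have h5 : z * (f b)⁻¹ = (f b)⁻¹ * z := ((hz b).inv_right).eq
    rw [h4, map_mul, map_inv, _root_.mul_inv_rev, (hz a).eq]
    calc f a * z * ((f b)⁻¹ * z⁻¹) = f a * (z * (f b)⁻¹) * z⁻¹ := by group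
      _ = f a * (f b)⁻¹ := by rw [h5]; group
  subst h3
  have h5 : ((rotL c)^[e] Y).map ((a * b⁻¹) * ·) = Y := by
    have hinj : Function.Injective (fun x => z * f x) := by
      intro x x' hx
      exact hf (mul_left_cancel hx)
    apply List.map_injective_iff.2 hinj
    rw [List.map_map]
    rw [List.map_map] at h1
    rw [← h1]
    apply List.map_congr_left
    intro x _
    simp only [Function.comp]
    rw [map_mul, ← mul_assoc, ← mul_assoc, (hz _).eq]
  exact cyc hp hN hk Y c (a * b⁻¹) e hY hc ⟨mul_comm _ _, h5⟩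

end RSN

theorem t_RSN : S_RSN := by
  refine ⟨fun Γ _ N p _ _ B k r hN hk f hf z hz Y c hY hc =>
    RSN.goodP Γ N p B k r hN hk f hf z hz Y c hY hc, ?_⟩
  intro G _ N p _ _ B k r hN hk φ hφ j hj
  have hp : p.Prime := Fact.out
  set f : Cyc N →* G × Multiplicative ℤ := φ.prod 1 with hfdef
  have hfx : ∀ x, f x = (φ x, 1) := fun x => rfl
  have hf : Function.Injective f := by
    intro x x' h
    exact hφ (congrArg Prod.fst h)
  refine ⟨?_, ?_⟩
  · intro γ Y y
    unfold rsJ
    have h1 : (Y.map (γ * ·)).map (fun x => ((φ x, 1) : G × Multiplicative ℤ)) =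
        (Y.map fun x => ((φ x, 1) : G × Multiplicative ℤ)).map (((φ γ, 1) : G × Multiplicative ℤ) * ·) := by
      rw [List.map_map, List.map_map]
      apply List.map_congr_left
      intro x _
      simp
    have h2 : ((φ (γ * y * γ⁻¹), 1) : G × Multiplicative ℤ) = (φ γ, 1) * (φ y, 1) * (φ γ, 1)⁻¹ := by
      apply Prod.ext
      · simp only [map_mul, map_inv, Prod.fst_mul, Prod.fst_inv]
      · simp
    rw [h1, h2]
    exact hj.cj _ _ _
  · intro Y y hY hy hd
    unfold rsJ
    have h1 : (rotL y Y).map (fun x => ((φ x, 1) : G × Multiplicative ℤ)) =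
        rotL ((φ y, 1) : G × Multiplicative ℤ) (Y.map fun x => ((φ x, 1) : G × Multiplicative ℤ)) := by
      rw [RSN.rot_hom (fun x => ((φ x, 1) : G × Multiplicative ℤ)) y (φ y, 1)]
      intro x
      simp
    rw [h1]
    have hord : orderOf (f y) = orderOf y := orderOf_injective f hf y
    refine hj.rot _ _ (by rw [List.length_map, hY]) ?_ ?_ ?_
    · have h2 : IsOfFinOrder (f y) := f.isOfFinOrder hy
      exact h2
    · have h2 : p ∣ orderOf (f y) := by
        rw [hord]
        exact hd
      exact h2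
    · have h2 := RSN.goodP (G × Multiplicative ℤ) N p B k r hN hk f hf 1
        (fun x => Commute.one_left _) Y y hY hd
      simp only [one_mul] at h2
      exact h2

end Pool.Agent.FJA
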