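import Pool.Agent.AUK.FJA.P_MEX
import Pool.Agent.AUK.FJA.P_RSN
import Pool.Agent.AUK.FJA.St8

/-!
# Module CUL: the reduction of the denominators for `cup F`
-/

set_option autoImplicit false

noncomputable section

open Pool.Agent.WhK Pool.Agent.Lib25

namespace Pool.Agent.FJA

namespace CUL

section

variable {G : Type} [Group G]

/-- The family `F` on `G × Z'`. -/
def Fh {m : ℕ} (F : (Fin (m + 1) → G) → G → ℚ) (a : Fin (m + 1) → G × Multiplicative ℤ)
    (y : G × Multiplicative ℤ) : ℚ :=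
  if y.2 = 1 then F (fun i => (a i).1) y.1 else 0

theorem fin_pair (y : G × Multiplicative ℤ) (h1 : IsOfFinOrder y.1) (h2 : y.2 = 1) :
    IsOfFinOrder y := by
  obtain ⟨a, b⟩ := y
  simp only at h1 h2
  subst h2
  exact (MonoidHom.inl G (Multiplicative ℤ)).isOfFinOrder h1

theorem snd_one {y : G × Multiplicative ℤ} (h : IsOfFinOrder y) : y.2 = 1 := by
  have h1 := (MonoidHom.snd G (Multiplicative ℤ)).isOfFinOrder h
  have h2 : IsOfFinOrder y.2 := h1
  by_contra hne
  obtain ⟨n, hn, hp⟩ := isOfFinOrder_iff_pow_eq_one.1 h2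
  apply hne
  have h3 : (n : ℤ) * Multiplicative.toAdd y.2 = 0 := by
    have h4 := congrArg Multiplicative.toAdd hp
    rw [toAdd_pow, toAdd_one, nsmul_eq_mul] at h4
    exact h4
  have h5 : Multiplicative.toAdd y.2 = 0 := by
    rcases mul_eq_zero.1 h3 with h6 | h6
    · omega
    · exact h6
  exact h5

theorem conj_snd (γ y : G × Multiplicative ℤ) : (γ * y * γ⁻¹).2 = y.2 := by
  change γ.2 * y.2 * γ.2⁻¹ = y.2
  rw [mul_comm γ.2, mul_inv_cancel_right]

theorem coch {m : ℕ} {S : G → Prop} {F : (Fin (m + 1) → G) → G → ℚ} (hF : GCoch m S F) :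
    GCoch m (fun y : G × Multiplicative ℤ => S y.1 ∧ y.2 = 1) (Fh F) := by
  refine ⟨?_, ?_, ?_, ?_⟩
  · intro γ a y
    unfold Fh
    rw [conj_snd]
    split_ifs with h
    · exact hF.inv γ.1 (fun i => (a i).1) y.1
    · rfl
  · intro a y
    unfold Fh
    by_cases h : y.2 = 1
    · simp only [if_pos h]
      exact hF.coc (fun i => (a i).1) y.1
    · simp only [if_neg h, mul_zero, Finset.sum_const_zero]
  · intro a y h
    unfold Fh at h
    split_ifs at h with h1
    · exact ⟨hF.supp _ _ h, h1⟩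
    · exact absurd rfl h
  · obtain ⟨D, hD, h⟩ := hF.den
    refine ⟨D, hD, fun a y => ?_⟩
    unfold Fh
    split_ifs
    · exact h _ _
    · exact ⟨0, by simp⟩

end

section

variable {G : Type} [Group G]
  (Pt : List (G × Multiplicative ℤ) → G × Multiplicative ℤ → Finset (G × Multiplicative ℤ))

/-- The second component of the elements of `Pt Y y`. -/
def tTau (Y : List (G × Multiplicative ℤ)) (y : G × Multiplicative ℤ) : ℤ := by
  classical
  exact if h : (Pt Y y).Nonempty then Multiplicative.toAdd (h.choose).2 else 0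

variable {Pt}

theorem tTau_eq {dl : List (G × Multiplicative ℤ) → G × Multiplicative ℤ → G × Multiplicative ℤ}
    (hP : Pnt Pt dl) (havs : S_AVS) {Y : List (G × Multiplicative ℤ)} {y : G × Multiplicative ℤ}
    (hY : Y ≠ []) (hy : IsOfFinOrder y) {x : G × Multiplicative ℤ} (hx : x ∈ Pt Y y) :
    Multiplicative.toAdd x.2 = tTau Pt Y y := by
  have h : (Pt Y y).Nonempty := ⟨x, hx⟩
  unfold tTau
  rw [dif_pos h]
  have h1 := (havs _ Pt dl hP).2.2 (MonoidHom.snd G (Multiplicative ℤ)) Y y hY hy x hx _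
    h.choose_spec
  exact congrArg Multiplicative.toAdd h1

theorem tTau_inv {dl : List (G × Multiplicative ℤ) → G × Multiplicative ℤ → G × Multiplicative ℤ}
    (hP : Pnt Pt dl) (havs : S_AVS) {Y : List (G × Multiplicative ℤ)} {y : G × Multiplicative ℤ}
    (hY : Y ≠ []) (hy : IsOfFinOrder y) (γ : G × Multiplicative ℤ) :
    tTau Pt (Y.map (γ * ·)) (γ * y * γ⁻¹) = Multiplicative.toAdd γ.2 + tTau Pt Y y := by
  obtain ⟨x, hx⟩ := hP.ne Y y hY hy
  have h1 := (hP.inv γ Y y hY hy x).2 hx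
  have hy' : IsOfFinOrder (γ * y * γ⁻¹) := (MulAut.conj γ).toMonoidHom.isOfFinOrder hy
  have hY' : Y.map (γ * ·) ≠ [] := fun h => hY (List.map_eq_nil_iff.1 h)
  rw [← tTau_eq hP havs hY' hy' h1, ← tTau_eq hP havs hY hy hx]
  rfl

theorem tTau_rot {dl : List (G × Multiplicative ℤ) → G × Multiplicative ℤ → G × Multiplicative ℤ}
    (hP : Pnt Pt dl) {Y : List (G × Multiplicative ℤ)} {y : G × Multiplicative ℤ}
    (hY : Y ≠ []) (hy : IsOfFinOrder y) : tTau Pt (rotL y Y) y = tTau Pt Y y := by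
  unfold tTau
  rw [hP.rot Y y hY hy]

theorem tTau_mem {dl : List (G × Multiplicative ℤ) → G × Multiplicative ℤ → G × Multiplicative ℤ}
    (hP : Pnt Pt dl) (havs : S_AVS) {Y : List (G × Multiplicative ℤ)} {y : G × Multiplicative ℤ}
    (hY : Y ≠ []) (hy : IsOfFinOrder y) : ∃ a ∈ Y, tTau Pt Y y = Multiplicative.toAdd a.2 := by
  obtain ⟨x, hx⟩ := hP.ne Y y hY hy
  obtain ⟨t, a, ha, rfl⟩ := hP.supp Y y hY hy x hx
  refine ⟨a, ha, ?_⟩
  rw [← tTau_eq hP havs hY hy hx]
  have h1 : (y ^ t * a).2 = a.2 := by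
    change y.2 ^ t * a.2 = a.2
    rw [snd_one hy, _root_.one_zpow, one_mul]
  rw [h1]

end

section

variable {Γ : Type} [Group Γ]

theorem rotL_ne {y : Γ} {Y : List Γ} : rotL y Y ≠ [] ↔ Y ≠ [] := by
  cases Y with
  | nil => simp [rotL]
  | cons a Y => simp [rotL]

theorem rotL_iter (y : Γ) : ∀ (Y Z : List Γ), (rotL y)^[Y.length] (Y ++ Z) = Z ++ Y.map (y * ·) := by
  intro Y
  induction Y with
  | nil =>
    intro Z
    simp
  | cons a Y ih =>
    intro Z
    rw [List.length_cons, Function.iterate_succ_apply, List.cons_append]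
    have h1 : rotL y (a :: (Y ++ Z)) = Y ++ (Z ++ [y * a]) := by
      rw [rotL, List.append_assoc]
    rw [h1, ih]
    simp

theorem avS_mem {Pt : List Γ → Γ → Finset Γ} {Y : List Γ} {y x : Γ}
    (h : x ∈ (avS Pt Y y).support) : x ∈ Pt Y y := by
  classical
  by_contra hx
  apply Finsupp.mem_support_iff.1 h
  unfold avS
  rw [Finsupp.finset_sum_apply]
  refine Finset.sum_eq_zero fun z hz => ?_
  rw [Finsupp.single_apply, if_neg]
  rintro rfl
  exact hx hz

/-- A function of the lists and of the value, invariant under conjugation and rotations, is a trace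
on the balanced records. -/
theorem trace_bal {V : Type} (LL : (V → List Γ) → Γ → ℚ)
    (hinv : ∀ (γ : Γ) (Y : V → List Γ) (y : Γ),
      LL (fun i => (Y i).map (γ * ·)) (γ * y * γ⁻¹) = LL Y y)
    (hrot : ∀ (Y : V → List Γ) (y : Γ), LL (fun i => rotL y (Y i)) y = LL Y y)
    (μ ν : Rec Γ V) (hμ : μ ∈ Bal Γ V) :
    LL (μ * ν).lst (μ * ν).val = LL (ν * μ).lst (ν * μ).val := by
  obtain ⟨n, hn⟩ := hμ
  have hit : ∀ (k : ℕ) (Y : V → List Γ) (y : Γ), LL (fun i => (rotL y)^[k] (Y i)) y = LL Y y := by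
    intro k
    induction k with
    | zero => intro Y y; rfl
    | succ k ih =>
      intro Y y
      have h1 : (fun i => (rotL y)^[k + 1] (Y i)) = fun i => (rotL y)^[k] (rotL y (Y i)) := by
        funext i
        rw [Function.iterate_succ_apply]
      rw [h1, ih, hrot]
  rw [← hit n (μ * ν).lst (μ * ν).val, ← hinv μ.val (ν * μ).lst (ν * μ).val]
  have h1 : μ.val * (ν * μ).val * μ.val⁻¹ = (μ * ν).val := by
    rw [Rec.mul_val, Rec.mul_val]
    group
  rw [h1]
  congr 1
  funext i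
  rw [Rec.mul_lst, ← hn i, rotL_iter, Rec.mul_lst, List.map_append, List.map_map, Rec.mul_val]
  congr 2
  funext x
  exact mul_assoc _ _ _

end

section

variable {G : Type} [Group G]
  (Pt : List (G × Multiplicative ℤ) → G × Multiplicative ℤ → Finset (G × Multiplicative ℤ))

/-- The cochain, in terms of lists. -/
def LL {n : ℕ} (L' : (Fin (n + 1) → List (G × Multiplicative ℤ)) → G × Multiplicative ℤ → ℚ)
    (Y : Fin (n + 2) → List (G × Multiplicative ℤ)) (y : G × Multiplicative ℤ) : ℚ := by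
  classical
  exact if (∀ i, Y i ≠ []) ∧ IsOfFinOrder y then
    L' (fun i => Y i.castSucc) y *
      ((tTau Pt (Y (Fin.last (n + 1))) y - tTau Pt (Y (Fin.last n).castSucc) y : ℤ) : ℚ) else 0

variable {Pt}

theorem LL_pos {n : ℕ} (L' : (Fin (n + 1) → List (G × Multiplicative ℤ)) → G × Multiplicative ℤ → ℚ)
    (Y : Fin (n + 2) → List (G × Multiplicative ℤ)) (y : G × Multiplicative ℤ)
    (h : (∀ i, Y i ≠ []) ∧ IsOfFinOrder y) : LL Pt L' Y y =
    L' (fun i => Y i.castSucc) y *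
      ((tTau Pt (Y (Fin.last (n + 1))) y - tTau Pt (Y (Fin.last n).castSucc) y : ℤ) : ℚ) := by
  unfold LL
  exact if_pos h

theorem LL_neg {n : ℕ} (L' : (Fin (n + 1) → List (G × Multiplicative ℤ)) → G × Multiplicative ℤ → ℚ)
    (Y : Fin (n + 2) → List (G × Multiplicative ℤ)) (y : G × Multiplicative ℤ)
    (h : ¬ ((∀ i, Y i ≠ []) ∧ IsOfFinOrder y)) : LL Pt L' Y y = 0 := by
  unfold LL
  exact if_neg h

theorem conj_fin (γ y : G × Multiplicative ℤ) : IsOfFinOrder (γ * y * γ⁻¹) ↔ IsOfFinOrder y := by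
  constructor
  · intro h
    have h1 := (MulAut.conj γ⁻¹).toMonoidHom.isOfFinOrder h
    have h2 : (MulAut.conj γ⁻¹).toMonoidHom (γ * y * γ⁻¹) = y := by
      change γ⁻¹ * (γ * y * γ⁻¹) * γ⁻¹⁻¹ = y
      group
    rwa [h2] at h1
  · exact fun h => (MulAut.conj γ).toMonoidHom.isOfFinOrder h

theorem LL_inv {dl : List (G × Multiplicative ℤ) → G × Multiplicative ℤ → G × Multiplicative ℤ}
    (hP : Pnt Pt dl) (havs : S_AVS) {n mm D : ℕ}
    {F : (Fin (n + 2) → G × Multiplicative ℤ) → G × Multiplicative ℤ → ℚ}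
    {L' : (Fin (n + 1) → List (G × Multiplicative ℤ)) → G × Multiplicative ℤ → ℚ}
    (hL : StrL Pt mm D F L') (γ : G × Multiplicative ℤ)
    (Y : Fin (n + 2) → List (G × Multiplicative ℤ)) (y : G × Multiplicative ℤ) :
    LL Pt L' (fun i => (Y i).map (γ * ·)) (γ * y * γ⁻¹) = LL Pt L' Y y := by
  have hiff : ((∀ i, (Y i).map (γ * ·) ≠ []) ∧ IsOfFinOrder (γ * y * γ⁻¹)) ↔
      ((∀ i, Y i ≠ []) ∧ IsOfFinOrder y) := by
    rw [conj_fin]
    simp only [ne_eq, List.map_eq_nil_iff]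
  by_cases h : (∀ i, Y i ≠ []) ∧ IsOfFinOrder y
  · rw [LL_pos L' _ _ (hiff.2 h), LL_pos L' Y y h, tTau_inv hP havs (h.1 _) h.2,
      tTau_inv hP havs (h.1 _) h.2, hL.inv γ (fun i : Fin (n + 1) => Y i.castSucc) y,
      add_sub_add_left_eq_sub]
  · rw [LL_neg L' _ _ (mt hiff.1 h), LL_neg L' Y y h]

theorem LL_rot {dl : List (G × Multiplicative ℤ) → G × Multiplicative ℤ → G × Multiplicative ℤ}
    (hP : Pnt Pt dl) {n mm D : ℕ}
    {F : (Fin (n + 2) → G × Multiplicative ℤ) → G × Multiplicative ℤ → ℚ}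
    {L' : (Fin (n + 1) → List (G × Multiplicative ℤ)) → G × Multiplicative ℤ → ℚ}
    (hL : StrL Pt mm D F L')
    (Y : Fin (n + 2) → List (G × Multiplicative ℤ)) (y : G × Multiplicative ℤ) :
    LL Pt L' (fun i => rotL y (Y i)) y = LL Pt L' Y y := by
  have hiff : ((∀ i, rotL y (Y i) ≠ []) ∧ IsOfFinOrder y) ↔
      ((∀ i, Y i ≠ []) ∧ IsOfFinOrder y) := by
    simp only [rotL_ne]
  by_cases h : (∀ i, Y i ≠ []) ∧ IsOfFinOrder y
  · rw [LL_pos L' _ _ (hiff.2 h), LL_pos L' Y y h, tTau_rot hP (h.1 _) h.2,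
      tTau_rot hP (h.1 _) h.2,
      hL.rot (fun i : Fin (n + 1) => Y i.castSucc) y (fun i => h.1 _) h.2]
  · rw [LL_neg L' _ _ (mt hiff.1 h), LL_neg L' Y y h]

/-- The coboundary. -/
theorem cob {n : ℕ} (L' : (Fin (n + 1) → List (G × Multiplicative ℤ)) → G × Multiplicative ℤ → ℚ)
    (Y : Fin (n + 3) → List (G × Multiplicative ℤ)) (y : G × Multiplicative ℤ)
    (hY : ∀ i, Y i ≠ []) (hy : IsOfFinOrder y) :
    ∑ i : Fin (n + 3), (-1 : ℚ) ^ (i : ℕ) * LL Pt L' (fun j => Y (i.succAbove j)) y =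
      (∑ i : Fin (n + 2), (-1 : ℚ) ^ (i : ℕ) * L' (fun j => Y (i.succAbove j).castSucc) y) *
        ((tTau Pt (Y (Fin.last (n + 2))) y - tTau Pt (Y (Fin.last (n + 1)).castSucc) y : ℤ) : ℚ) := by
  have h1 : ∀ i : Fin (n + 3), LL Pt L' (fun j => Y (i.succAbove j)) y =
      L' (fun j : Fin (n + 1) => Y (i.succAbove j.castSucc)) y *
      ((tTau Pt (Y (i.succAbove (Fin.last (n + 1)))) y -
        tTau Pt (Y (i.succAbove (Fin.last n).castSucc)) y : ℤ) : ℚ) :=
    fun i => LL_pos L' _ y ⟨fun j => hY _, hy⟩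
  simp only [h1]
  rw [Fin.sum_univ_castSucc, Fin.sum_univ_castSucc,
    Fin.sum_univ_castSucc (fun i : Fin (n + 2) => (-1 : ℚ) ^ (i : ℕ) *
      L' (fun j => Y (i.succAbove j).castSucc) y), add_mul, Finset.sum_mul]
  have h2 : ∀ i : Fin (n + 1), (i.castSucc.castSucc : Fin (n + 3)).succAbove (Fin.last (n + 1)) =
      Fin.last (n + 2) := by
    intro i
    rw [Fin.succAbove_of_le_castSucc _ _ (by
      rw [Fin.le_def]
      simp only [Fin.val_castSucc, Fin.val_last]
      omega)]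
    rfl
  have h3 : ∀ i : Fin (n + 1), (i.castSucc.castSucc : Fin (n + 3)).succAbove
      ((Fin.last n).castSucc) = (Fin.last (n + 1)).castSucc := by
    intro i
    rw [Fin.succAbove_of_le_castSucc _ _ (by
      rw [Fin.le_def]
      simp only [Fin.val_castSucc, Fin.val_last]
      omega)]
    rfl
  have h4 : ∀ (i : Fin (n + 2)) (j : Fin (n + 1)), (i.castSucc : Fin (n + 3)).succAbove
      j.castSucc = (i.succAbove j).castSucc := fun i j => Fin.castSucc_succAbove_castSucc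
  have h5 : ((Fin.last (n + 1)).castSucc : Fin (n + 3)).succAbove (Fin.last (n + 1)) =
      Fin.last (n + 2) := by
    rw [Fin.succAbove_of_le_castSucc _ _ (by
      rw [Fin.le_def])]
    rfl
  have h6 : ((Fin.last (n + 1)).castSucc : Fin (n + 3)).succAbove (Fin.last n).castSucc =
      (Fin.last n).castSucc.castSucc := by
    rw [h4, Fin.succAbove_last]
  simp only [h2, h3, h4, h5, h6, Fin.succAbove_last, Fin.val_castSucc, Fin.val_last]
  rw [add_assoc]
  congr 1
  · refine Finset.sum_congr rfl fun i _ => ?_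
    ring
  · push_cast
    ring

/-- The value on the averages. -/
theorem evs_cup {dl : List (G × Multiplicative ℤ) → G × Multiplicative ℤ → G × Multiplicative ℤ}
    (hP : Pnt Pt dl) (havs : S_AVS) {n : ℕ} (F : (Fin (n + 1) → G) → G → ℚ)
    (μ : Rec (G × Multiplicative ℤ) (Fin (n + 2))) (hne : ∀ i, μ.lst i ≠ [])
    (hy : IsOfFinOrder μ.val) :
    evs (cup F) (avS Pt) μ = mA Pt (Fh F) (fun i => μ.lst i.castSucc) μ.val *
      ((tTau Pt (μ.lst (Fin.last (n + 1))) μ.val -
        tTau Pt (μ.lst (Fin.last n).castSucc) μ.val : ℤ) : ℚ) := by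
  classical
  set c : ℚ := ((tTau Pt (μ.lst (Fin.last (n + 1))) μ.val -
        tTau Pt (μ.lst (Fin.last n).castSucc) μ.val : ℤ) : ℚ) with hc
  have haug : ∀ i, aug (avS Pt (μ.lst i) μ.val) = 1 := fun i =>
    (havs _ Pt dl hP).1.aug _ _ hy (hne i)
  have hMEX := t_MEX (G × Multiplicative ℤ)
  have h1 : evs (cup F) (avS Pt) μ =
      mex (fun a => cup F a μ.val) (fun i => avS Pt (μ.lst i) μ.val) := by
    unfold evs
    exact if_pos hne
  have h2 : mex (fun a => cup F a μ.val) (fun i => avS Pt (μ.lst i) μ.val) =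
      mex (fun a => c * Fh F (fun j => a ((Fin.last (n + 1)).succAbove j)) μ.val)
        (fun i => avS Pt (μ.lst i) μ.val) := by
    rw [MEX.mex_def, MEX.mex_def]
    refine Finset.sum_congr rfl fun a ha => ?_
    rw [Fintype.mem_piFinset] at ha
    congr 1
    have h3 : ∀ i, Multiplicative.toAdd (a i).2 = tTau Pt (μ.lst i) μ.val := fun i =>
      tTau_eq hP havs (hne i) hy (avS_mem (ha i))
    unfold cup Fh
    rw [if_pos (snd_one hy), if_pos (snd_one hy), h3, h3, hc, mul_comm]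
    simp only [Fin.succAbove_last]
  have h4 := (hMEX (n + 2)).2.2.1 (Fin 1) Finset.univ (fun _ => c)
    (fun _ a => Fh F (fun j => a ((Fin.last (n + 1)).succAbove j)) μ.val)
    (fun i => avS Pt (μ.lst i) μ.val)
  simp only [Finset.univ_unique, Finset.sum_singleton] at h4
  rw [h1, h2, h4, mul_comm]
  congr 1
  have h5 := (hMEX (n + 1)).2.1 (fun a => Fh F a μ.val) (fun i => avS Pt (μ.lst i) μ.val)
    (Fin.last (n + 1)) haug
  rw [h5]
  unfold mA
  simp only [Fin.succAbove_last]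

end

end CUL

open CUL in
theorem t_CUL (havs : S_AVS) : S_CUL := by
  intro m hm hD G _ Pt dl hP S F hS hF
  obtain ⟨n, rfl⟩ : ∃ n, m = n + 1 := ⟨m - 1, by omega⟩
  obtain ⟨D, hD0, hDL⟩ := hD (G × Multiplicative ℤ) Pt dl hP
    (fun y : G × Multiplicative ℤ => S y.1 ∧ y.2 = 1) (Fh F)
    (fun y hy => fin_pair y (hS _ hy.1) hy.2) (coch hF)
  refine ⟨D, hD0, fun mm hmm => ?_⟩
  obtain ⟨L', hL'⟩ := hDL mm hmm
  refine ⟨fun μ => LL Pt L' μ.lst μ.val, ⟨?_, ?_, ?_⟩, ?_, ?_, ?_⟩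
  · -- conjugation
    intro γ μ
    have h1 := LL_inv hP havs hL' γ μ.lst (μ.val * γ)
    have h2 : γ * (μ.val * γ) * γ⁻¹ = γ * μ.val := by group
    rw [h2] at h1
    have h3 : (Rec.inc γ * μ).lst = fun i => (μ.lst i).map (γ * ·) := by
      funext i
      simp
    have h4 : (μ * Rec.inc γ).lst = μ.lst := by
      funext i
      simp
    change LL Pt L' (Rec.inc γ * μ).lst (γ * μ.val) = LL Pt L' (μ * Rec.inc γ).lst (μ.val * γ)
    rw [h3, h4]
    exact h1
  · -- finite order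
    intro μ h
    by_contra hf
    exact h (LL_neg L' _ _ fun h' => hf h'.2)
  · -- flat
    intro μ hfl
    by_cases h : (∀ i, μ.lst i ≠ []) ∧ IsOfFinOrder μ.val
    · change LL Pt L' μ.lst μ.val = 0
      rw [LL_pos L' _ _ h]
      obtain ⟨a, ha, h1⟩ := tTau_mem hP havs (h.1 (Fin.last (n + 1))) h.2
      obtain ⟨b, hb, h2⟩ := tTau_mem hP havs (h.1 (Fin.last n).castSucc) h.2
      have h3 : a.2 = b.2 := hfl _ _ a b ha hb
      rw [h1, h2, h3, sub_self, Int.cast_zero, mul_zero]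
    · exact LL_neg L' _ _ h
  · -- trace
    intro μ hμ ν _
    exact trace_bal (LL Pt L') (fun γ Y y => LL_inv hP havs hL' γ Y y)
      (fun Y y => LL_rot hP hL' Y y) μ ν hμ
  · -- support
    intro μ h
    have h0 : (∀ i, μ.lst i ≠ []) ∧ IsOfFinOrder μ.val := by
      by_contra hf
      exact h (LL_neg L' _ _ hf)
    change LL Pt L' μ.lst μ.val ≠ 0 at h
    rw [LL_pos L' _ _ h0] at h
    obtain ⟨a, ha⟩ := (hL'.supp _ _ (left_ne_zero_of_mul h)).2
    refine ⟨Fin.snoc a (1, Multiplicative.ofAdd (Multiplicative.toAdd (a (Fin.last (n + 1))).2 + 1)),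
      ?_⟩
    unfold Fh at ha
    unfold cup
    rw [if_pos (snd_one h0.2)] at ha ⊢
    simp only [Fin.snoc_castSucc, Fin.snoc_last, toAdd_ofAdd, add_sub_cancel_left, Int.cast_one,
      mul_one]
    exact ha
  · -- integrality
    intro μ hne hgood
    by_cases hy : IsOfFinOrder μ.val
    · obtain ⟨z, hz⟩ := hL'.int (fun i => μ.lst i.castSucc) μ.val (fun i => hne _) hy
        (fun i => hgood _)
      refine ⟨z * (tTau Pt (μ.lst (Fin.last (n + 2))) μ.val -
        tTau Pt (μ.lst (Fin.last (n + 1)).castSucc) μ.val), ?_⟩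
      rw [evs_cup hP havs F μ hne hy]
      have h1 : cobR (fun μ => LL Pt L' μ.lst μ.val) μ =
          ∑ i : Fin (n + 3), (-1 : ℚ) ^ (i : ℕ) *
            LL Pt L' (fun j => μ.lst (i.succAbove j)) μ.val := rfl
      rw [h1, cob L' μ.lst μ.val hne hy, ← sub_mul, ← mul_assoc, hz]
      push_cast
      rfl
    · refine ⟨0, ?_⟩
      have h1 : cobR (fun μ => LL Pt L' μ.lst μ.val) μ = 0 := by
        unfold cobR
        refine Finset.sum_eq_zero fun i _ => ?_
        have h2 : LL Pt L' (Rec.res i.succAbove μ).lst (Rec.res i.succAbove μ).val = 0 :=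
          LL_neg L' _ _ fun h => hy h.2
        change (-1 : ℚ) ^ (i : ℕ) * LL Pt L' (Rec.res i.succAbove μ).lst (Rec.res i.succAbove μ).val = 0
        rw [h2, mul_zero]
      have h3 : evs (cup F) (avS Pt) μ = 0 := by
        unfold evs
        rw [if_pos hne]
        refine MEX.vanish _ _ fun x _ => ?_
        unfold cup
        split_ifs with h4
        · have h5 : F (fun i => (x i.castSucc).1) μ.val.1 = 0 := by
            by_contra h6
            exact hy (fin_pair _ (hS _ (hF.supp _ _ h6)) h4)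
          rw [h5, zero_mul]
        · rfl
      rw [h1, h3]
      simp

end Pool.Agent.FJA
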