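import Pool.Agent.AUK.FJA.P_GAU
import Pool.Agent.AUK.FJA.P_TXD
import Pool.Agent.AUK.FJA.St5

/-!
# DIV: divisibility of the traces
-/

set_option autoImplicit false

open Matrix

namespace Pool.Agent.FJA

namespace DIV

theorem lin_mul {k : Type*} [Field k] [CharZero k] {M : Type*} (r : ℚ) (φ : M → ℚ)
    (x : MonoidAlgebra k M) : lin k (fun μ => r * φ μ) x = (r : k) * lin k φ x := by
  rw [lin_apply, lin_apply, Finsupp.mul_sum]
  refine Finset.sum_congr rfl fun μ _ => ?_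
  simp only
  rw [Rat.cast_mul]
  ring

theorem tr_pow {M : Type*} [Monoid M] (S : Submonoid M) (φ : M → ℚ)
    (h : ∀ μ ∈ S, ∀ ν ∈ S, φ (μ * ν) = φ (ν * μ)) (n : ℕ) (hn : n ≠ 0) :
    ∀ μ ∈ S, ∀ ν ∈ S, φ ((μ * ν) ^ n) = φ ((ν * μ) ^ n) := by
  intro μ hμ ν hν
  obtain ⟨m, rfl⟩ := Nat.exists_eq_succ_of_ne_zero hn
  have e : (μ * ν) ^ (m + 1) = μ * ((ν * μ) ^ m * ν) := by
    rw [pow_succ, ← mul_assoc, mul_pow_mul, mul_assoc]
  have e' : (ν * μ) ^ (m + 1) = (ν * μ) ^ m * ν * μ := by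
    rw [pow_succ, ← mul_assoc]
  rw [Nat.succ_eq_add_one, e, e']
  exact h μ hμ _ (S.mul_mem (S.pow_mem (S.mul_mem hν hμ) m) hν)

theorem no_order {Γ : Type} [Group Γ] {b : ℕ} (hb : TorBd Γ b) {p : ℕ} [hp : Fact p.Prime] {B : ℕ}
    (hB : b < p ^ B) (y : Γ) (h1 : IsOfFinOrder (y ^ p ^ B)) (h2 : p ∣ orderOf (y ^ p ^ B)) :
    False := by
  have hpB : p ^ B ≠ 0 := (pow_pos hp.out.pos B).ne'
  have hy : IsOfFinOrder y := by
    rcases isOfFinOrder_pow.mp h1 with h | h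
    · exact h
    · exact absurd h hpB
  have hle := hb y hy
  rw [hy.orderOf_pow] at h2
  obtain ⟨j, hj, hg⟩ := (Nat.dvd_prime_pow hp.out).mp (Nat.gcd_dvd_right (orderOf y) (p ^ B))
  rw [hg] at h2
  have hjv : p ^ j ∣ orderOf y := hg ▸ Nat.gcd_dvd_left (orderOf y) (p ^ B)
  have h3 : p ^ j * p ∣ orderOf y := Nat.mul_dvd_of_dvd_div hjv h2
  have h4 : j = B := by
    by_contra hne
    have hlt : j + 1 ≤ B := by omega
    have h5 : p ^ (j + 1) ∣ p ^ j := by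
      rw [← hg]
      exact Nat.dvd_gcd (by rw [pow_succ]; exact h3) (pow_dvd_pow p hlt)
    have h6 := Nat.le_of_dvd (pow_pos hp.out.pos j) h5
    rw [pow_succ] at h6
    have h7 : 0 < p ^ j := pow_pos hp.out.pos j
    have h8 := hp.out.two_le
    nlinarith
  subst h4
  have h9 := Nat.le_of_dvd hy.orderOf_pos hjv
  omega

theorem bal_of_ln {Γ V : Type} [Group Γ] {μ : Rec Γ V} (h : μ ∈ TXD.Ln (fun _ : V => 1)) :
    μ ∈ Bal Γ V := ⟨1, h⟩

end DIV

theorem t_DIV (hgas : S_GAS) : S_DIV := by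
  intro Γ _ b hb p _ B hB k hk M φ D e hD htr hsup hint ι _ _ X hX
  have hp : p.Prime := Fact.out
  have hpq : (p : ℚ) ≠ 0 := by exact_mod_cast hp.ne_zero
  have hpe : (p : ℚ) ^ e ≠ 0 := pow_ne_zero _ hpq
  set φ' : Rec Γ (Fin M) → ℚ := fun μ => φ μ / (p : ℚ) ^ e with hφ'
  have hφ : φ = fun μ => (p : ℚ) ^ e * φ' μ := by
    funext μ
    rw [hφ']
    field_simp
  have htr' : ∀ μ ∈ Bal Γ (Fin M), ∀ ν ∈ Bal Γ (Fin M), φ' (μ * ν) = φ' (ν * μ) := by
    intro μ hμ ν hν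
    rw [hφ']
    simp only
    rw [htr μ hμ ν hν]
  have hint' : ∀ μ, ∃ z : ℤ, (D : ℚ) * φ' μ = z := by
    intro μ
    obtain ⟨z, hz⟩ := hint μ
    refine ⟨z, ?_⟩
    rw [hφ']
    simp only
    rw [← mul_div_assoc, hz]
    field_simp
  have hU : NIM (UX X) := t_GAUint p Γ ι M X hX
  have hS : ∀ a b μ, (UX X a b).coeff μ ≠ 0 → μ ∈ Bal Γ (Fin M) := fun a b μ h =>
    DIV.bal_of_ln (TXD.spM_UX X a b μ h)
  set a : ℕ → ℚ_[p] := fun i => (D : ℚ_[p]) * lin ℚ_[p] (fun μ => φ' (μ ^ p ^ i))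
    (Matrix.trace (UX X ^ p ^ (k - i))) with ha
  have hp1 : (1 : ℝ) ≤ p := by exact_mod_cast hp.one_lt.le
  have hstep : ∀ i < B, ‖a i - a (i + 1)‖ ≤ (p : ℝ) ^ (-((k : ℤ) - B)) := by
    intro i hi
    have h1 := hgas p (Rec Γ (Fin M)) (Bal Γ (Fin M)) ι (fun μ => φ' (μ ^ p ^ i)) D
      (DIV.tr_pow _ _ htr' (p ^ i) (pow_pos hp.pos i).ne') hD (fun μ => hint' _) (UX X) hU hS
      (k - i - 1)
    have e1 : k - i - 1 + 1 = k - i := by omega
    have e2 : k - (i + 1) = k - i - 1 := by omega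
    have e3 : (fun μ : Rec Γ (Fin M) => φ' ((μ ^ p) ^ p ^ i)) = fun μ => φ' (μ ^ p ^ (i + 1)) := by
      funext μ
      rw [← pow_mul, ← pow_succ']
    rw [e1, e3] at h1
    have h2 : a i - a (i + 1) = (D : ℚ_[p]) *
        (lin ℚ_[p] (fun μ => φ' (μ ^ p ^ i)) (Matrix.trace (UX X ^ p ^ (k - i))) -
        lin ℚ_[p] (fun μ => φ' (μ ^ p ^ (i + 1))) (Matrix.trace (UX X ^ p ^ (k - i - 1)))) := by
      rw [ha]
      simp only
      rw [e2]
      ring
    rw [h2]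
    refine h1.trans (zpow_le_zpow_right₀ hp1 ?_)
    omega
  have hlast : a B = 0 := by
    have h0 : (fun μ : Rec Γ (Fin M) => φ' (μ ^ p ^ B)) = fun _ => 0 := by
      funext μ
      by_contra hne
      have h1 : φ (μ ^ p ^ B) ≠ 0 := by
        intro h
        apply hne
        rw [hφ']
        simp only
        rw [h, zero_div]
      obtain ⟨h2, h3⟩ := hsup _ h1
      have h4 : (μ ^ p ^ B).val = μ.val ^ p ^ B := map_pow Rec.valHom μ (p ^ B)
      rw [h4] at h2 h3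
      exact DIV.no_order hb hB μ.val h2 h3
    rw [ha]
    simp only
    rw [h0, lin_apply]
    simp
  have hall : ∀ t, t ≤ B → ‖a (B - t)‖ ≤ (p : ℝ) ^ (-((k : ℤ) - B)) := by
    intro t
    induction t with
    | zero =>
      intro _
      rw [Nat.sub_zero, hlast, norm_zero]
      positivity
    | succ t ih =>
      intro ht
      have h1 := hstep (B - (t + 1)) (by omega)
      have e1 : B - (t + 1) + 1 = B - t := by omega
      rw [e1] at h1
      have h2 : a (B - (t + 1)) = (a (B - (t + 1)) - a (B - t)) + a (B - t) := by ring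
      rw [h2]
      exact (Padic.nonarchimedean _ _).trans (max_le h1 (ih (by omega)))
  have hfin := hall B le_rfl
  rw [Nat.sub_self] at hfin
  have ha0 : a 0 = (D : ℚ_[p]) * TX φ' (p ^ k) X := by
    rw [ha]
    simp only [pow_zero, pow_one, Nat.sub_zero]
    rfl
  have hTX : TX φ (p ^ k) X = (((p : ℚ) ^ e : ℚ) : ℚ_[p]) * TX φ' (p ^ k) X := by
    unfold TX
    conv_lhs => rw [hφ]
    exact DIV.lin_mul _ _ _
  have hgoal : (D : ℚ_[p]) * TX φ (p ^ k) X = (p : ℚ_[p]) ^ e * a 0 := by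
    rw [hTX, ha0]
    push_cast
    ring
  rw [hgoal, norm_mul, Padic.norm_p_pow]
  have hsplit : (p : ℝ) ^ (-((e : ℤ) + k - B)) = (p : ℝ) ^ (-(e : ℤ)) * (p : ℝ) ^ (-((k : ℤ) - B)) := by
    rw [← zpow_add₀ (by exact_mod_cast hp.ne_zero)]
    congr 1
    ring
  rw [hsplit]
  exact mul_le_mul_of_nonneg_left hfin (by positivity)

end Pool.Agent.FJA
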