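import Pool.Agent.AUK.FJA.P_BRF
import Pool.Agent.AUK.FJA.P_CRS
import Pool.Agent.AUK.FJA.P_PRI

/-!
# TAV: averages of chains over right translations of the vertices
-/

set_option autoImplicit false
set_option linter.unusedSectionVars false

open Matrix Pool.Agent.WhK Pool.Agent.Lib25

noncomputable section

namespace Pool.Agent.FJA

namespace TAV

variable {U C : Type} [Group U] [Fintype C]

/-- The average of the lifts of the vertices. -/
def avL (C : Type) [Fintype C] {V : Type} (m : ℕ) :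
    ((Fin m → V) →₀ ℚ) →ₗ[ℚ] ((Fin m → V × C) →₀ ℚ) :=
  Finsupp.linearCombination ℚ fun X => ∑ x : Fin m → C,
    Finsupp.single (fun i => (X i, x i)) (((Fintype.card C : ℚ)⁻¹) ^ m)

/-- The average of the right translates. -/
def avR (ψ : C → U) (m : ℕ) : ((Fin m → U) →₀ ℚ) →ₗ[ℚ] ((Fin m → U) →₀ ℚ) :=
  (hmap ℚ (fun z : U × C => z.1 * ψ z.2) m).comp (avL C m)

variable {V : Type}

theorem avL_single (m : ℕ) (X : Fin m → V) (q : ℚ) :
    avL C m (Finsupp.single X q) = ∑ x : Fin m → C,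
      Finsupp.single (fun i => (X i, x i)) (q * ((Fintype.card C : ℚ)⁻¹) ^ m) := by
  unfold avL
  rw [Finsupp.linearCombination_single, Finset.smul_sum]
  refine Finset.sum_congr rfl fun x _ => ?_
  rw [Finsupp.smul_single, smul_eq_mul]

theorem avR_single (ψ : C → U) (m : ℕ) (X : Fin m → U) (q : ℚ) :
    avR ψ m (Finsupp.single X q) = ∑ x : Fin m → C,
      Finsupp.single (fun i => X i * ψ (x i)) (q * ((Fintype.card C : ℚ)⁻¹) ^ m) := by
  change hmap ℚ (fun z : U × C => z.1 * ψ z.2) m (avL C m (Finsupp.single X q)) = _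
  rw [avL_single, map_sum]
  refine Finset.sum_congr rfl fun x _ => ?_
  rw [hmap_single]

theorem card_pos' [Nonempty C] : (Fintype.card C : ℚ) ≠ 0 :=
  Nat.cast_ne_zero.2 Fintype.card_ne_zero

theorem fst_avL [Nonempty C] (m : ℕ) (Y : (Fin m → V) →₀ ℚ) :
    hmap ℚ (fun z : V × C => z.1) m (avL C m Y) = Y := by
  induction Y using Finsupp.induction_linear with
  | zero => simp only [map_zero]
  | add x y hx hy => simp only [map_add, hx, hy]
  | single X q =>
    rw [avL_single, map_sum]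
    have h1 : ∀ x : Fin m → C, hmap ℚ (fun z : V × C => z.1) m
        (Finsupp.single (fun i => (X i, x i)) (q * ((Fintype.card C : ℚ)⁻¹) ^ m)) =
        Finsupp.single X (q * ((Fintype.card C : ℚ)⁻¹) ^ m) := fun x => hmap_single _ _ _ _
    rw [Finset.sum_congr rfl fun x _ => h1 x, Finset.sum_const, Finset.card_univ,
      Fintype.card_fun, Fintype.card_fin, Finsupp.smul_single, nsmul_eq_mul]
    congr 1
    push_cast
    rw [mul_left_comm, ← mul_pow, mul_inv_cancel₀ card_pos', one_pow, mul_one]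

theorem bd_avL [Nonempty C] (m : ℕ) (Y : (Fin (m + 1) → V) →₀ ℚ) :
    bd ℚ (V × C) m (avL C (m + 1) Y) = avL C m (bd ℚ V m Y) := by
  induction Y using Finsupp.induction_linear with
  | zero => simp only [map_zero]
  | add x y hx hy => simp only [map_add, hx, hy]
  | single X q =>
    rw [avL_single, map_sum, bd_single, map_sum]
    have h1 : ∀ x : Fin (m + 1) → C, bd ℚ (V × C) m
        (Finsupp.single (fun i => (X i, x i)) (q * ((Fintype.card C : ℚ)⁻¹) ^ (m + 1))) =
        ∑ i : Fin (m + 1), (-1 : ℚ) ^ (i : ℕ) • Finsupp.single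
          (fun j => (X (i.succAbove j), x (i.succAbove j)))
            (q * ((Fintype.card C : ℚ)⁻¹) ^ (m + 1)) := fun x => bd_single _ _ _ _
    rw [Finset.sum_congr rfl fun x _ => h1 x, Finset.sum_comm]
    refine Finset.sum_congr rfl fun i _ => ?_
    rw [← Finset.smul_sum, map_smul, avL_single]
    congr 1
    rw [← (Fin.insertNthEquiv (fun _ => C) i).sum_comp, Fintype.sum_prod_type]
    have h2 : ∀ (c : C) (x : Fin m → C), (Finsupp.single
        (fun j => (X (i.succAbove j), (Fin.insertNthEquiv (fun _ => C) i) (c, x) (i.succAbove j)))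
          (q * ((Fintype.card C : ℚ)⁻¹) ^ (m + 1)) : (Fin m → V × C) →₀ ℚ) =
        Finsupp.single (fun j => (X (i.succAbove j), x j))
          (q * ((Fintype.card C : ℚ)⁻¹) ^ (m + 1)) := by
      intro c x
      congr 1
      funext j
      rw [Fin.insertNthEquiv_apply, Fin.insertNth_apply_succAbove]
    rw [Finset.sum_congr rfl fun c _ => Finset.sum_congr rfl fun x _ => h2 c x,
      Finset.sum_const, Finset.card_univ, Finset.smul_sum]
    refine Finset.sum_congr rfl fun x _ => ?_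
    rw [Finsupp.smul_single, nsmul_eq_mul]
    congr 1
    rw [pow_succ, mul_left_comm, mul_left_comm (Fintype.card C : ℚ), mul_inv_cancel₀ card_pos',
      mul_one]

/-- The average of the right translates of a cycle is homologous to the cycle. -/
theorem avR_sub (hPRI : S_PRI.{0, 0, 0}) (hBD : S_BD.{0, 0, 0}) [Nonempty C] (ψ : C → U) (m : ℕ)
    (Y : HCh ℚ U m) (hY : Y ∈ cyc ℚ U m) :
    Y - avR ψ (m + 1) Y ∈ LinearMap.range (bd ℚ U (m + 1)) ⊔ hdeg ℚ U m := by
  have h1 := hPRI ℚ (U × C) U (fun z => z.1 * ψ z.2) (fun z => z.1) m (avL C (m + 1) Y)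
  rw [fst_avL, bd_avL] at h1
  have h2 : Y - avR ψ (m + 1) Y =
      bd ℚ U (m + 1) (prism ℚ (fun z : U × C => z.1 * ψ z.2) (fun z => z.1) (m + 1)
        (avL C (m + 1) Y)) +
      prism ℚ (fun z : U × C => z.1 * ψ z.2) (fun z => z.1) m (avL C m (bd ℚ U m Y)) := by
    rw [h1]
    change Y - hmap ℚ (fun z : U × C => z.1 * ψ z.2) (m + 1) (avL C (m + 1) Y) = _
    abel
  rw [h2]
  refine Submodule.add_mem _ (Submodule.mem_sup_left ⟨_, rfl⟩) (Submodule.mem_sup_right ?_)
  cases m with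
  | zero =>
    have h3 : ∀ z : (Fin 0 → U × C) →₀ ℚ,
        prism ℚ (fun z : U × C => z.1 * ψ z.2) (fun z => z.1) 0 z = 0 := PRI.prism_zero _ _
    rw [h3]
    exact Submodule.zero_mem _
  | succ m =>
    have h3 : bd ℚ U (m + 1) Y ∈ hdeg ℚ U m := hY
    have h4 : hdeg ℚ U m ≤ (hdeg ℚ U (m + 1)).comap
        ((prism ℚ (fun z : U × C => z.1 * ψ z.2) (fun z => z.1) (m + 1)).comp
          (avL C (m + 1))) := by
      unfold hdeg
      rw [Submodule.span_le]
      rintro x ⟨γ, X, rfl⟩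
      change prism ℚ (fun z : U × C => z.1 * ψ z.2) (fun z => z.1) (m + 1)
        (avL C (m + 1) _) ∈ hdeg ℚ U (m + 1)
      have h5 : avL C (m + 1) (Finsupp.single (fun i => γ * X i) 1) =
          hmap ℚ (fun z : U × C => (γ * z.1, z.2)) (m + 1)
            (avL C (m + 1) (Finsupp.single X 1)) := by
        rw [avL_single, avL_single, map_sum]
        refine Finset.sum_congr rfl fun x _ => ?_
        rw [hmap_single]
      have h6 := (hBD ℚ (U × C) (m + 1)).2.2 U (fun z => z.1 * ψ z.2) (fun z => z.1)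
        (fun z => (γ * z.1, z.2)) (γ * ·) (avL C (m + 1) (Finsupp.single X 1))
        (fun v => mul_assoc _ _ _) (fun v => rfl)
      rw [map_sub, map_sub, h5, h6]
      exact hmap_sub_mem (m + 1) γ _
    exact h4 h3

/-! ### The chain `E1` -/

variable {G : Type} [Group G]

/-- The chain of the general linear group under `E1`. -/
def E1p {N : ℕ} (m : ℕ) (φ : Cyc N →* G) (u : (MonoidAlgebra ℤ (Cyc N))ˣ)
    (w : (Fin (m + 1) → Cen (φ (gen N))) →₀ ℚ) :
    (Fin (m + 3) → GLn (LaurentPolynomial (MonoidAlgebra ℤ G)) 1) →₀ ℚ :=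
  prism ℚ id (fun x => x * sEl G) (m + 2)
      (prism ℚ (fun z : Cen (φ (gen N)) => gl1 elt (z : G))
        (fun z : Cen (φ (gen N)) => gl1 elt (z : G) * uEl φ u) (m + 1) w)

theorem sEl_comm (X : GLn (LaurentPolynomial (MonoidAlgebra ℤ G)) 1) :
    sEl G * X = X * sEl G := BRF.comm_t X

/-- Right multiplication by `g`. -/
theorem cyc_prism (hPRI : S_PRI.{0, 0, 0}) (hBD : S_BD.{0, 0, 0}) {P Q : Type} [Group P]
    [Group Q] (f : P →* Q) (g : Q) (hg : ∀ z, g * f z = f z * g) (m : ℕ) (w : HCh ℚ P m)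
    (hw : w ∈ cyc ℚ P m) :
    prism ℚ f (fun z => f z * g) (m + 1) w ∈ cyc ℚ Q (m + 1) := by
  change bd ℚ Q (m + 1) _ ∈ hdeg ℚ Q m
  rw [hPRI ℚ P Q f (fun z => f z * g) m w]
  have h1 : hmap ℚ (fun z => f z * g) (m + 1) w =
      hmap ℚ (g * ·) (m + 1) (hmap ℚ f (m + 1) w) := by
    rw [hmap_hmap]
    congr 1
    congr 1
    funext z
    exact (hg z).symm
  refine Submodule.sub_mem _ ?_ ?_
  · rw [h1]
    exact hmap_sub_mem m g _
  · cases m with
    | zero =>
      rw [PRI.prism_zero]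
      exact Submodule.zero_mem _
    | succ m => exact CRS.prism_mem hBD m f g hw

theorem E1p_cyc (hPRI : S_PRI.{0, 0, 0}) (hBD : S_BD.{0, 0, 0}) {N : ℕ} (m : ℕ)
    (φ : Cyc N →* G) (u : (MonoidAlgebra ℤ (Cyc N))ˣ)
    (w : (Fin (m + 1) → Cen (φ (gen N))) →₀ ℚ) (hw : w ∈ cyc ℚ (Cen (φ (gen N))) m) :
    E1p m φ u w ∈ cyc ℚ (GLn (LaurentPolynomial (MonoidAlgebra ℤ G)) 1) (m + 2) := by
  have h1 := cyc_prism hPRI hBD ((gl1 elt).comp (Cen (φ (gen N))).subtype) (uEl φ u)
    (fun z => ?_) m w hw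
  · exact cyc_prism hPRI hBD (MonoidHom.id _) (sEl G) (fun z => sEl_comm z) (m + 1) _ h1
  · have h2 : uEl φ u = uL G (uG φ u) := rfl
    have h3 : ((gl1 elt).comp (Cen (φ (gen N))).subtype) z = uL G (gU G z) := rfl
    rw [h2, h3, ← map_mul, ← map_mul, BRF.comm_unit]

/-- `E1` is equivalent to the average of its right translates. -/
theorem E1_sub (hPRI : S_PRI.{0, 0, 0}) (hBD : S_BD.{0, 0, 0}) [Nonempty C] {N : ℕ} (m : ℕ)
    (φ : Cyc N →* G) (u : (MonoidAlgebra ℤ (Cyc N))ˣ)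
    (w : (Fin (m + 1) → Cen (φ (gen N))) →₀ ℚ) (hw : w ∈ cyc ℚ (Cen (φ (gen N))) m)
    (ψ : C → GLn (LaurentPolynomial (MonoidAlgebra ℤ G)) 1) :
    E1 m φ u w - kinS (LaurentPolynomial (MonoidAlgebra ℤ G)) (m + 3) 1
        (avR ψ (m + 3) (E1p m φ u w)) ∈
      LinearMap.range (bdS (LaurentPolynomial (MonoidAlgebra ℤ G)) (m + 3)) ⊔
        Kil (MonoidAlgebra ℤ G) (m + 3) := by
  have h1 := avR_sub hPRI hBD ψ (m + 2) (E1p m φ u w) (E1p_cyc hPRI hBD m φ u w hw)
  have h2 : E1 m φ u w = kinS (LaurentPolynomial (MonoidAlgebra ℤ G)) (m + 3) 1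
      (E1p m φ u w) := rfl
  rw [h2, ← map_sub]
  obtain ⟨_, ⟨a, rfl⟩, b, hb, hab⟩ := Submodule.mem_sup.1 h1
  rw [← hab, map_add, kinS_bd]
  exact Submodule.add_mem _ (Submodule.mem_sup_left ⟨_, rfl⟩)
    (Submodule.mem_sup_right (kinS_hdeg _ _ _ hb))

end TAV

end Pool.Agent.FJA
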