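import Pool.Agent.AUK.FJA.Avg
import Pool.Agent.AUK.FJA.St7

/-!
# Module EXT: extension of a homomorphism to a linear map
-/

set_option autoImplicit false

noncomputable section

namespace Pool.Agent.FJA

namespace EXT

/-- A common denominator. -/
theorem exists_den {A : Type} (q : A →₀ ℚ) :
    ∃ n : ℕ, 0 < n ∧ ∃ z : A → ℤ, ∀ a ∈ q.support, (n : ℚ) * q a = z a := by
  classical
  refine ⟨∏ a ∈ q.support, (q a).den, Finset.prod_pos fun a _ => (q a).den_pos, ?_⟩
  have h : ∀ a, ∃ z : ℤ, a ∈ q.support → ((∏ a ∈ q.support, (q a).den : ℕ) : ℚ) * q a = z := by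
    intro a
    by_cases ha : a ∈ q.support
    · obtain ⟨c, hc⟩ := Finset.dvd_prod_of_mem (fun a => (q a).den) ha
      refine ⟨c * (q a).num, fun _ => ?_⟩
      have h1 : ((q a).den : ℚ) * q a = (q a).num := by
        rw [mul_comm]
        exact Rat.mul_den_eq_num (q a)
      rw [hc]
      push_cast
      rw [← h1]
      ring
    · exact ⟨0, fun h => absurd h ha⟩
  choose z hz using h
  exact ⟨z, hz⟩

theorem rel {A V : Type} [CommGroup A] [AddCommGroup V] [Module ℚ V] (f : A → V) (g : A → ℚ)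
    (hf : ∀ a b, f (a * b) = f a + f b) (hg : ∀ a b, g (a * b) = g a + g b)
    (h0 : ∀ a, f a = 0 → g a = 0) (q : A →₀ ℚ) (hq : (q.sum fun a r => r • f a) = 0) :
    (q.sum fun a r => r * g a) = 0 := by
  obtain ⟨n, hn, z, hz⟩ := exists_den q
  let f' : Additive A →+ V := AddMonoidHom.mk' (fun a => f a.toMul) (fun a b => hf _ _)
  let g' : Additive A →+ ℚ := AddMonoidHom.mk' (fun a => g a.toMul) (fun a b => hg _ _)
  let x : Additive A := ∑ a ∈ q.support, z a • Additive.ofMul a
  have h1 : f' x = 0 := by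
    have h2 : f' x = ∑ a ∈ q.support, z a • f a := by
      change f' (∑ a ∈ q.support, z a • Additive.ofMul a) = _
      rw [map_sum]
      exact Finset.sum_congr rfl fun a _ => map_zsmul f' _ _
    have h3 : ∑ a ∈ q.support, z a • f a = (n : ℚ) • q.sum fun a r => r • f a := by
      rw [Finsupp.sum, Finset.smul_sum]
      refine Finset.sum_congr rfl fun a ha => ?_
      rw [smul_smul, hz a ha, Int.cast_smul_eq_zsmul]
    rw [h2, h3, hq, smul_zero]
  have h4 : g' x = 0 := h0 _ h1
  have h5 : g' x = (n : ℚ) * q.sum fun a r => r * g a := by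
    change g' (∑ a ∈ q.support, z a • Additive.ofMul a) = _
    rw [map_sum, Finsupp.sum, Finset.mul_sum]
    refine Finset.sum_congr rfl fun a ha => ?_
    rw [map_zsmul, ← mul_assoc, hz a ha, zsmul_eq_mul]
    rfl
  rw [h4] at h5
  rcases mul_eq_zero.1 h5.symm with h6 | h6
  · exact absurd (Nat.cast_eq_zero.1 h6) hn.ne'
  · exact h6

end EXT

theorem t_EXT : S_EXT := by
  intro A V _ _ _ f g hf hg h0
  exact exists_fun f g fun q hq => EXT.rel f g hf hg h0 q hq

end Pool.Agent.FJA
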