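import Pool.Agent.AUK.FJA.Hom
import Pool.Agent.AUK.FJA.St3
import Pool.Agent.AUK.FJA.St7

/-!
# Module FAV: families of cocycles from functionals
-/

set_option autoImplicit false

open Matrix Pool.Agent.WhK Pool.Agent.Lib25 CategoryTheory

noncomputable section

namespace Pool.Agent.FJA

namespace FAV

theorem evc_hmap {G P Q : Type} (j : Q → G) (f : P → Q) {m : ℕ} (F : (Fin m → G) → G → ℚ)
    (w : (Fin m → P) →₀ ℚ) (y : G) :
    evc j F (hmap ℚ f m w) y = evc (fun z => j (f z)) F w y := by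
  unfold evc hmap
  rw [Finsupp.lmapDomain_apply, Finsupp.sum_mapDomain_index]
  · intro b
    rw [zero_mul]
  · intro b c d
    rw [add_mul]

theorem evc_single {G P : Type} (j : P → G) {m : ℕ} (F : (Fin m → G) → G → ℚ)
    (X : Fin m → P) (q : ℚ) (y : G) :
    evc j F (Finsupp.single X q) y = q * F (fun i => j (X i)) y := by
  unfold evc
  rw [Finsupp.sum_single_index]
  rw [zero_mul]

/-- The case of positive degree. -/
theorem pos (hF : S_FCA) (G : Type) [Group G] (m : ℕ) (t : G)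
    (lam : Hk ℚ (m + 1) (Cen t) →ₗ[ℚ] ℚ) (hlam : DenG (m + 1) lam) :
    ∃ F : (Fin (m + 1 + 1) → G) → G → ℚ, GCoch (m + 1) (fun y => ∃ x : G, y = x * t * x⁻¹) F ∧
      ∀ (P : Type) [Group P] (j : P →* G) (x : G) (κ : P →* Cen t),
        (∀ z, (κ z : G) = x * j z * x⁻¹) → ∀ z : ZC ℚ (m + 1) P,
        evc j F (psi ℚ (m + 1) P (ch ℚ (m + 1) P z)) (x⁻¹ * t * x) =
          lam (Hk.map ℚ (m + 1) κ (cl ℚ (m + 1) P z)) := by
  obtain ⟨F, hF1, hF2⟩ := hF G m t lam hlam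
  refine ⟨F, hF1, ?_⟩
  intro P _ j x κ hκ z
  have hy : x⁻¹ * t * x = x⁻¹ * t * x⁻¹⁻¹ := by rw [inv_inv]
  have hmem : ∀ z : P, j z ∈ Cen (x⁻¹ * t * x⁻¹⁻¹) := by
    intro z
    have h1 := (κ z).2
    rw [hκ z] at h1
    rw [Subgroup.mem_centralizer_singleton_iff] at h1 ⊢
    rw [inv_inv]
    have h2 : x⁻¹ * (x * j z * x⁻¹ * t) * x = x⁻¹ * (t * (x * j z * x⁻¹)) * x := by rw [h1]
    simpa [mul_assoc] using h2
  let ι : P →* Cen (x⁻¹ * t * x⁻¹⁻¹) := j.codRestrict _ hmem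
  have hι : ∀ z, (ι z : G) = j z := fun z => rfl
  have H : ∀ z ∈ Cen (x⁻¹ * t * x⁻¹⁻¹), x⁻¹⁻¹ * z * x⁻¹⁻¹⁻¹ ∈ Cen t := by
    intro z hz
    rw [Subgroup.mem_centralizer_singleton_iff] at hz ⊢
    simp only [inv_inv] at hz ⊢
    have h2 : x * (z * (x⁻¹ * t * x)) * x⁻¹ = x * (x⁻¹ * t * x * z) * x⁻¹ := by rw [hz]
    simpa [mul_assoc] using h2
  obtain ⟨z', hz1, hz2⟩ := Hk.map_cl (k := ℚ) ι z
  have h1 := hF2 x⁻¹ H z'
  rw [← hz1, ← Hk.map_comp, hz2, psi_map, evc_hmap] at h1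
  have h2 : (cHom x⁻¹⁻¹ H).comp ι = κ := by
    ext z
    change x⁻¹⁻¹ * (ι z : G) * x⁻¹⁻¹⁻¹ = (κ z : G)
    rw [hκ, hι]
    simp only [inv_inv]
  rw [h2] at h1
  rw [hy]
  exact h1

theorem chain_zero {P : Type} (w : IC ℚ 0 P) : w = Finsupp.single default (w default) := by
  ext
  rw [Finsupp.single_eq_same]

/-- The case of degree zero. -/
theorem zero (hU : S_UCZ) (G : Type) [Group G] (t : G)
    (lam : Hk ℚ 0 (Cen t) →ₗ[ℚ] ℚ) (hlam : DenG 0 lam) :
    ∃ F : (Fin (0 + 1) → G) → G → ℚ, GCoch 0 (fun y => ∃ x : G, y = x * t * x⁻¹) F ∧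
      ∀ (P : Type) [Group P] (j : P →* G) (x : G) (κ : P →* Cen t),
        (∀ z, (κ z : G) = x * j z * x⁻¹) → ∀ z : ZC ℚ 0 P,
        evc j F (psi ℚ 0 P (ch ℚ 0 P z)) (x⁻¹ * t * x) =
          lam (Hk.map ℚ 0 κ (cl ℚ 0 P z)) := by
  classical
  obtain ⟨z1, hz1⟩ := hU.1 (Cen t) (Finsupp.single default 1)
  obtain ⟨D, f, hD, -, hf⟩ := hlam
  refine ⟨fun _ y => if (∃ x : G, y = x * t * x⁻¹) then lam (cl ℚ 0 _ z1) else 0, ?_, ?_⟩
  · refine ⟨?_, ?_, ?_, ?_⟩
    · intro γ a y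
      have h1 : (∃ x : G, γ * y * γ⁻¹ = x * t * x⁻¹) ↔ ∃ x : G, y = x * t * x⁻¹ := by
        constructor
        · rintro ⟨x, hx⟩
          refine ⟨γ⁻¹ * x, ?_⟩
          have h2 : γ⁻¹ * (γ * y * γ⁻¹) * γ = γ⁻¹ * (x * t * x⁻¹) * γ := by rw [hx]
          simpa [mul_assoc] using h2
        · rintro ⟨x, hx⟩
          refine ⟨γ * x, ?_⟩
          rw [hx]
          simp [mul_assoc]
      simp only [h1]
    · intro a y
      rw [Fin.sum_univ_two]
      by_cases hy : ∃ x : G, y = x * t * x⁻¹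
      · simp only [if_pos hy]
        simp
      · simp only [if_neg hy]
        simp
    · intro a y h
      by_contra hn
      exact h (if_neg hn)
    · refine ⟨D, hD, ?_⟩
      intro a y
      by_cases hy : ∃ x : G, y = x * t * x⁻¹
      · refine ⟨f default, ?_⟩
        have h1 := hf z1
        rw [hz1, pair_single, one_mul] at h1
        simp only [if_pos hy]
        exact h1
      · refine ⟨0, ?_⟩
        simp only [if_neg hy, mul_zero, Int.cast_zero]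
  · intro P _ j x κ hκ z
    obtain ⟨y1, hy1, hy2⟩ := Hk.map_cl (k := ℚ) κ z
    have hex : ∃ x' : G, x⁻¹ * t * x = x' * t * x'⁻¹ := ⟨x⁻¹, by rw [inv_inv]⟩
    have h1 : ch ℚ 0 P z = Finsupp.single default (ch ℚ 0 P z default) := chain_zero _
    have h2 : ch ℚ 0 _ y1 = ch ℚ 0 _ ((ch ℚ 0 P z default) • z1) := by
      rw [hy2, map_smul, hz1, h1, IC.map_single, Finsupp.smul_single, smul_eq_mul, mul_one,
        Finsupp.single_eq_same]
      congr 1
      exact Subsingleton.elim _ _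
    rw [hy1, cl_congr h2, map_smul, map_smul, smul_eq_mul]
    conv_lhs => rw [h1]
    rw [psi_single, evc_single]
    simp only [if_pos hex]

end FAV

theorem t_FAV : S_FCA → S_UCZ → S_FAV := by
  intro hF hU G _ m t lam hlam
  cases m with
  | zero => exact FAV.zero hU G t lam hlam
  | succ m => exact FAV.pos hF G m t lam hlam

end Pool.Agent.FJA
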