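import Pool.Agent.AUK.FJA.St3

/-!
# Module FNB: the value of `Q` on the restriction of `L p` to the elements of order `n0`
-/

set_option autoImplicit false

open Matrix Pool.Agent.WhK Pool.Agent.Lib25

noncomputable section

namespace Pool.Agent.FJA

namespace FNB

theorem orderOf_conj {G : Type} [Group G] (γ y : G) : orderOf (γ * y * γ⁻¹) = orderOf y := by
  symm
  exact SemiconjBy.orderOf_eq γ (show γ * y = γ * y * γ⁻¹ * γ by group)

theorem rsF_pos {G : Type} [Group G] {m : ℕ} {n0 : ℕ} (F : (Fin m → G) → G → ℚ)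
    (a : Fin m → G) {y : G} (h : orderOf y = n0) : rsF n0 F a y = F a y := if_pos h

theorem rsF_neg {G : Type} [Group G] {m : ℕ} {n0 : ℕ} (F : (Fin m → G) → G → ℚ)
    (a : Fin m → G) {y : G} (h : orderOf y ≠ n0) : rsF n0 F a y = 0 := if_neg h

/-- The restriction of a family of cocycles to the elements of a given order. -/
theorem gcoch_rsF {G : Type} [Group G] {m : ℕ} {S : G → Prop} {F : (Fin (m + 1) → G) → G → ℚ}
    (hF : GCoch m S F) (n0 : ℕ) : GCoch m (fun y => orderOf y = n0) (rsF n0 F) where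
  inv γ a y := by
    unfold rsF
    rw [orderOf_conj, hF.inv]
  coc a y := by
    by_cases h : orderOf y = n0
    · simp only [rsF_pos _ _ h]
      exact hF.coc a y
    · simp only [rsF_neg _ _ h, mul_zero, Finset.sum_const_zero]
  supp a y h := by
    by_contra h1
    exact h (rsF_neg F a h1)
  den := by
    obtain ⟨D, hD, h⟩ := hF.den
    refine ⟨D, hD, fun a y => ?_⟩
    by_cases h1 : orderOf y = n0
    · rw [rsF_pos _ _ h1]
      exact h a y
    · rw [rsF_neg _ _ h1, mul_zero]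
      exact ⟨0, by simp⟩

theorem evc_rsF {G : Type} [Group G] {P : Type} (i : P → G) {m : ℕ} (n0 : ℕ)
    (F : (Fin m → G) → G → ℚ) (w : (Fin m → P) →₀ ℚ) {y : G} (h : orderOf y = n0) :
    evc i (rsF n0 F) w y = evc i F w y := by
  unfold evc
  apply Finsupp.sum_congr
  intro x _
  rw [rsF_pos _ _ h]

theorem orderOf_gen (N : ℕ) [NeZero N] : orderOf (gen N) = N := by
  have h1 := Pool.Agent.Lib25.orderOf_gen (zpowers_one_eq_top N)
  rw [card_Cn] at h1
  exact h1

theorem coprime_val {n0 : ℕ} [NeZero n0] (u : (ZMod n0)ˣ) : n0.Coprime (u : ZMod n0).val :=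
  (ZMod.val_coe_unit_coprime u).symm

/-- The values on the powers `h ^ u`, for `u` equivalent to `1`. -/
theorem key {G : Type} [Group G] {n n0 : ℕ} [NeZero n0]
    {L : ℕ → (Fin (n + 2) → G) → G → ℚ} (hL : FamC n L) {p : ℕ} (hp : p.Prime) (hpn : p ∣ n0)
    {h : G} (ho : orderOf h = n0) {u : (ZMod n0)ˣ} (hu : uRel n0 p u 1)
    {w : (Fin (n + 2) → Cen h) →₀ ℚ} (hw : w ∈ cyc ℚ (Cen h) (n + 1)) :
    evc (fun z : Cen h => (z : G)) (rsF n0 (L p)) w (h ^ (u : ZMod n0).val) =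
      evc (fun z : Cen h => (z : G)) (L p) w h := by
  have hc : (orderOf h).Coprime (u : ZMod n0).val := by
    rw [ho]
    exact coprime_val u
  have ho' : orderOf (h ^ (u : ZMod n0).val) = n0 := by
    rw [hc.orderOf_pow, ho]
  rw [evc_rsF _ _ _ _ ho']
  obtain ⟨j, k, hjk⟩ := hu
  refine hL.frob p hp h _ k j ?_ ?_ ?_ ?_ ?_ w hw
  · rw [← orderOf_pos_iff, ho]
    exact Nat.pos_of_ne_zero (NeZero.ne n0)
  · rw [ho]
    exact hpn
  · exact Subgroup.pow_mem _ (Subgroup.mem_zpowers h) _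
  · exact mem_zpowers_pow_iff.2 hc.symm
  · rw [← pow_mul, pow_eq_pow_iff_modEq, ho, ← ZMod.natCast_eq_natCast_iff]
    push_cast
    rw [ZMod.natCast_zmod_val, hjk, Units.val_one, one_mul]

end FNB

theorem t_FNB (hfna : S_FNA) : S_FNB := by
  classical
  intro ε v K hND G _ n n0 _ D Q hQ L hL p hp hpn
  have hpf : Fact p.Prime := ⟨hp⟩
  have hF := FNB.gcoch_rsF (hL.gc p hp) n0
  have h1 := hfna ε v K hND G n n0 D Q hQ (rsF n0 (L p)) hF p hpn
  have h2 := hND.cls n0 p hpn (fun u => ∑ j ∈ D.s with D.N j = n0 ∧ D.p j = p, D.q j *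
    evc (fun z : Cen (D.φ j (gen (D.N j))) => (z : G)) (rsF n0 (L p)) (D.w j)
      (D.φ j (gen (D.N j)) ^ (u : ZMod n0).val)) (Q (rsF n0 (L p))) h1 1
  have h3 : ∀ u : (ZMod n0)ˣ, uRel n0 p u 1 →
      (∑ j ∈ D.s with D.N j = n0 ∧ D.p j = p, D.q j *
        evc (fun z : Cen (D.φ j (gen (D.N j))) => (z : G)) (rsF n0 (L p)) (D.w j)
          (D.φ j (gen (D.N j)) ^ (u : ZMod n0).val)) =
      ∑ j ∈ D.s with D.N j = n0 ∧ D.p j = p, D.q j *
        evc (fun z : Cen (D.φ j (gen (D.N j))) => (z : G)) (L p) (D.w j)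
          (D.φ j (gen (D.N j))) := by
    intro u hu
    refine Finset.sum_congr rfl fun j hj => ?_
    have ho : orderOf (D.φ j (gen (D.N j))) = n0 := by
      rw [orderOf_injective _ (D.inj j), FNB.orderOf_gen]
      exact (Finset.mem_filter.1 hj).2.1
    rw [FNB.key hL hp hpn ho hu (D.mem j)]
  rw [Finset.sum_congr rfl fun u hu => h3 u (Finset.mem_filter.1 hu).2, Finset.sum_const,
    nsmul_eq_mul] at h2
  have h4 : ((Finset.univ.filter (fun u : (ZMod n0)ˣ => uRel n0 p u 1)).card : ℚ) ≠ 0 := by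
    rw [Nat.cast_ne_zero]
    refine Finset.card_ne_zero_of_mem (a := 1) ?_
    rw [Finset.mem_filter]
    exact ⟨Finset.mem_univ _, 0, 0, rfl⟩
  apply mul_right_cancel₀ h4
  rw [← h2]
  ring

end Pool.Agent.FJA
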