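import Pool.Agent.AUK.FJA.St1
import Pool.Agent.AUK.H2.Gauss

/-!
# GAU: the Gauss congruences and the integrality of `UX`
-/

set_option autoImplicit false

namespace Pool.Agent.FJA

universe u w x

namespace GAU

/-! ### integral coefficients -/

section NI

variable {ℓ : ℕ} [Fact ℓ.Prime] {M : Type*} [Monoid M]

/-- The ring homomorphism which extends the scalars. -/
noncomputable def ext (ℓ : ℕ) [Fact ℓ.Prime] (M : Type*) [Monoid M] :
    MonoidAlgebra ℤ_[ℓ] M →+* MonoidAlgebra ℚ_[ℓ] M :=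
  MonoidAlgebra.mapRingHom M PadicInt.Coe.ringHom

theorem coeff_ext (x : MonoidAlgebra ℤ_[ℓ] M) (μ : M) :
    (ext ℓ M x).coeff μ = ((x.coeff μ : ℤ_[ℓ]) : ℚ_[ℓ]) := by
  unfold ext
  rw [MonoidAlgebra.coeff_mapRingHom]
  rfl

theorem exists_lift (x : MonoidAlgebra ℚ_[ℓ] M) (hx : ∀ c, ‖x.coeff c‖ ≤ 1) :
    ∃ y : MonoidAlgebra ℤ_[ℓ] M, ext ℓ M y = x := by
  classical
  have hF : ∀ z : ℚ_[ℓ], ∃ y : ℤ_[ℓ], ‖z‖ ≤ 1 → (y : ℚ_[ℓ]) = z := by
    intro z
    by_cases hz : ‖z‖ ≤ 1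
    · exact ⟨⟨z, hz⟩, fun _ => rfl⟩
    · exact ⟨0, fun h => absurd h hz⟩
  choose F hF using hF
  have hF0 : F 0 = 0 := by
    apply PadicInt.ext
    rw [hF 0 (by simp)]
    rfl
  refine ⟨⟨x.coeff.mapRange F hF0⟩, ?_⟩
  ext c
  rw [coeff_ext]
  exact hF _ (hx c)

theorem ni_iff (x : MonoidAlgebra ℚ_[ℓ] M) : NI x ↔ x ∈ (ext ℓ M).range := by
  constructor
  · intro h
    obtain ⟨y, hy⟩ := exists_lift x h
    exact ⟨y, hy⟩
  · rintro ⟨y, rfl⟩ μ
    rw [coeff_ext]
    exact (y.coeff μ).2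

omit [Monoid M] in
theorem ni_single (μ : M) {c : ℚ_[ℓ]} (hc : ‖c‖ ≤ 1) : NI (MonoidAlgebra.single μ c) := by
  classical
  intro ν
  rw [MonoidAlgebra.coeff_single, Finsupp.single_apply]
  split_ifs
  · exact hc
  · simp

variable {ι : Type*} [Fintype ι] [DecidableEq ι]

omit [DecidableEq ι] in
theorem nim_mul {A B : Matrix ι ι (MonoidAlgebra ℚ_[ℓ] M)} (hA : NIM A) (hB : NIM B) :
    NIM (A * B) := by
  intro a b
  rw [ni_iff, Matrix.mul_apply]
  exact Subring.sum_mem _ fun c _ =>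
    Subring.mul_mem _ ((ni_iff _).1 (hA a c)) ((ni_iff _).1 (hB c b))

omit [Fintype ι] in
theorem nim_one : NIM (1 : Matrix ι ι (MonoidAlgebra ℚ_[ℓ] M)) := by
  intro a b
  rw [ni_iff, Matrix.one_apply]
  split_ifs
  · exact Subring.one_mem _
  · exact Subring.zero_mem _

theorem nim_list (l : List (Matrix ι ι (MonoidAlgebra ℚ_[ℓ] M))) (h : ∀ A ∈ l, NIM A) :
    NIM l.prod := by
  induction l with
  | nil => exact nim_one
  | cons A l ih =>
    rw [List.prod_cons]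
    exact nim_mul (h A (by simp)) (ih fun B hB => h B (by simp [hB]))

theorem nim_jm {Γ : Type*} [Group Γ] (V : Type*) {A : Matrix ι ι (MonoidAlgebra ℚ_[ℓ] Γ)}
    (hA : NIM A) : NIM (jm ℚ_[ℓ] V A) := by
  intro a b
  obtain ⟨y, hy⟩ := (ni_iff _).1 (hA a b)
  have h1 : (jm ℚ_[ℓ] V A) a b =
      ext ℓ (Rec Γ V) (MonoidAlgebra.mapDomainRingHom ℤ_[ℓ] (Rec.inc (Γ := Γ) (V := V)) y) := by
    have h2 : (jm ℚ_[ℓ] V A) a b =
      MonoidAlgebra.mapDomainRingHom ℚ_[ℓ] (Rec.inc (Γ := Γ) (V := V)) (A a b) := rfl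
    rw [h2, ← hy]
    have h3 : (MonoidAlgebra.mapDomainRingHom ℚ_[ℓ] (Rec.inc (Γ := Γ) (V := V))).comp
        (ext ℓ Γ) = (ext ℓ (Rec Γ V)).comp
        (MonoidAlgebra.mapDomainRingHom ℤ_[ℓ] (Rec.inc (Γ := Γ) (V := V))) := by
      unfold ext
      ext <;> simp
    exact congrArg (fun f => f y) h3
  rw [h1, ni_iff]
  exact ⟨_, rfl⟩

end NI

/-! ### products over ranges -/

section pr

variable {R : Type*} [Monoid R]

/-- The product of the first values of a sequence. -/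
def pr (f : ℕ → R) (N : ℕ) : R := ((List.range N).map f).prod

theorem pr_zero (f : ℕ → R) : pr f 0 = 1 := rfl

theorem pr_succ (f : ℕ → R) (N : ℕ) : pr f (N + 1) = pr f N * f N := by
  unfold pr
  exact List.prod_range_succ f N

theorem pr_succ' (f : ℕ → R) (N : ℕ) : pr f (N + 1) = f 0 * pr (fun i => f (i + 1)) N := by
  unfold pr
  exact List.prod_range_succ' f N

theorem pr_add (f : ℕ → R) (a b : ℕ) : pr f (a + b) = pr f a * pr (fun i => f (a + i)) b := by
  induction b with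
  | zero => rw [add_zero, pr_zero, mul_one]
  | succ b ih => rw [← add_assoc, pr_succ, ih, pr_succ, mul_assoc]

theorem pr_congr {f g : ℕ → R} (N : ℕ) (h : ∀ i, i < N → f i = g i) : pr f N = pr g N := by
  induction N with
  | zero => rfl
  | succ N ih =>
    rw [pr_succ, pr_succ, ih fun i hi => h i (by omega), h N (by omega)]

theorem pr_periodic (f : ℕ → R) (a r : ℕ) (hf : ∀ i, f (a + i) = f i) :
    pr f (a * r) = (pr f a) ^ r := by
  induction r with
  | zero => rw [mul_zero, pr_zero, pow_zero]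
  | succ r ih =>
    rw [Nat.mul_succ, add_comm, pr_add, pow_succ', pr_congr _ fun i _ => hf i, ih]

theorem pr_ofFn (f : ℕ → R) (N : ℕ) : (List.ofFn fun t : Fin N => f t).prod = pr f N := by
  induction N generalizing f with
  | zero => simp [pr_zero]
  | succ N ih =>
    rw [List.ofFn_succ, List.prod_cons, pr_succ', ← ih fun i => f (i + 1)]
    simp

/-- a property of products of nonempty families -/
theorem pr_ind {P : R → Prop} (hmul : ∀ x y, P x → P y → P (x * y)) (f : ℕ → R)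
    (hf : ∀ i, P (f i)) (N : ℕ) : P (pr f (N + 1)) := by
  induction N with
  | zero => rw [pr_succ, pr_zero, one_mul]; exact hf 0
  | succ N ih => rw [pr_succ]; exact hmul _ _ ih (hf _)

end pr

/-! ### the expansion of the power of a sum -/

section expand

variable {k : Type*} [Field k] {R : Type*} [Ring R] [Algebra k R] {J : Type*} [Fintype J]

theorem sum_pow (c : J → k) (x : J → R) (N : ℕ) :
    (∑ j, c j • x j) ^ N =
      ∑ v : Fin N → J, (∏ t, c (v t)) • (List.ofFn fun t => x (v t)).prod := by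
  induction N with
  | zero => simp
  | succ N ih =>
    rw [pow_succ', ih, ← (Fin.consEquiv fun _ : Fin (N + 1) => J).sum_comp,
      Fintype.sum_prod_type, Finset.sum_mul_sum]
    refine Finset.sum_congr rfl fun j _ => Finset.sum_congr rfl fun v _ => ?_
    rw [smul_mul_smul_comm, Fin.prod_univ_succ, List.ofFn_succ, List.prod_cons]
    simp [Fin.consEquiv]

theorem sum_pow_zmod (c : J → k) (x : J → R) (N : ℕ) [NeZero N] :
    (∑ j, c j • x j) ^ N =
      ∑ v : ZMod N → J, (∏ t, c (v t)) • pr (fun i => x (v (i : ZMod N))) N := by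
  cases N with
  | zero => exact absurd rfl (NeZero.ne 0)
  | succ N =>
    rw [sum_pow]
    change _ = ∑ v : Fin (N + 1) → J, (∏ t, c (v t)) • _
    refine Finset.sum_congr rfl fun v _ => ?_
    congr 1
    rw [← pr_ofFn]
    congr 2
    funext t
    congr 2
    exact (Fin.cast_val_eq_self t).symm

end expand

/-! ### the trace functional -/

section trace

variable {k : Type w} [Field k] {M : Type u} [Monoid M] {ι : Type x} [Fintype ι] [DecidableEq ι]

theorem lin_mul_comm [CharZero k] {φ : M → ℚ} (hφ : IsTr φ) (x y : MonoidAlgebra k M) :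
    lin k φ (x * y) = lin k φ (y * x) := by
  induction x using MonoidAlgebra.induction_linear with
  | zero => rw [zero_mul, mul_zero]
  | add x x' h h' => rw [add_mul, mul_add, map_add, map_add, h, h']
  | single μ c =>
    induction y using MonoidAlgebra.induction_linear with
    | zero => rw [zero_mul, mul_zero]
    | add y y' h h' => rw [add_mul, mul_add, map_add, map_add, h, h']
    | single ν d =>
      rw [MonoidAlgebra.single_mul_single, MonoidAlgebra.single_mul_single, lin_single,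
        lin_single, hφ μ ν, mul_comm c d]

/-- The trace functional. -/
noncomputable def Lt (k : Type w) [Field k] (ι : Type x) [Fintype ι] (φ : M → ℚ) :
    Matrix ι ι (MonoidAlgebra k M) →ₗ[k] k :=
  lin k φ ∘ₗ Matrix.traceLinearMap ι k (MonoidAlgebra k M)

omit [Monoid M] [DecidableEq ι] in
theorem Lt_apply (φ : M → ℚ) (A : Matrix ι ι (MonoidAlgebra k M)) :
    Lt k ι φ A = lin k φ (Matrix.trace A) := rfl

omit [DecidableEq ι] in
theorem Lt_comm [CharZero k] {φ : M → ℚ} (hφ : IsTr φ) (A B : Matrix ι ι (MonoidAlgebra k M)) :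
    Lt k ι φ (A * B) = Lt k ι φ (B * A) := by
  rw [Lt_apply, Lt_apply, Matrix.trace, Matrix.trace, map_sum, map_sum]
  simp only [Matrix.diag_apply, Matrix.mul_apply, map_sum]
  rw [Finset.sum_comm]
  refine Finset.sum_congr rfl fun a _ => Finset.sum_congr rfl fun b _ => ?_
  exact lin_mul_comm hφ _ _

/-- The monomial matrices. -/
noncomputable def em (k : Type w) [Field k] {ι : Type x} [DecidableEq ι] (j : ι × ι × M) :
    Matrix ι ι (MonoidAlgebra k M) := Matrix.single j.1 j.2.1 (MonoidAlgebra.single j.2.2 1)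

theorem em_mul (a b b' c : ι) (μ ν : M) :
    em k (a, b, μ) * em k (b', c, ν) = if b = b' then em k (a, c, μ * ν) else 0 := by
  unfold em
  split_ifs with h
  · subst h
    rw [Matrix.single_mul_single_same, MonoidAlgebra.single_mul_single, one_mul]
  · rw [Matrix.single_mul_single_of_ne _ a b b' h]

/-- Zero or a monomial matrix. -/
def IsEm (A : Matrix ι ι (MonoidAlgebra k M)) : Prop := A = 0 ∨ ∃ j, A = em k j

theorem isEm_mul (A B : Matrix ι ι (MonoidAlgebra k M)) (hA : IsEm A) (hB : IsEm B) :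
    IsEm (A * B) := by
  rcases hA with hA | ⟨⟨a, b, μ⟩, hA⟩
  · left
    rw [hA, Matrix.zero_mul]
  rcases hB with hB | ⟨⟨b', c, ν⟩, hB⟩
  · left
    rw [hB, Matrix.mul_zero]
  rw [hA, hB, em_mul]
  by_cases h : b = b'
  · rw [if_pos h]
    exact Or.inr ⟨_, rfl⟩
  · rw [if_neg h]
    exact Or.inl rfl

theorem Lt_em (φ : M → ℚ) (a b : ι) (μ : M) :
    Lt k ι φ (em k (a, b, μ)) = if a = b then ((φ μ : ℚ) : k) else 0 := by
  rw [Lt_apply]
  unfold em
  split_ifs with h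
  · subst h
    rw [Matrix.trace_single_eq_same, lin_single, one_mul]
  · rw [Matrix.trace_single_eq_of_ne _ _ _ h, map_zero]

theorem em_pow (a : ι) (μ : M) (r : ℕ) : (em k (a, a, μ)) ^ (r + 1) = em k (a, a, μ ^ (r + 1)) := by
  induction r with
  | zero => rw [zero_add, pow_one, pow_one]
  | succ r ih => rw [pow_succ, ih, em_mul, if_pos rfl, ← pow_succ]

theorem Lt_pow (φ : M → ℚ) (r : ℕ) {A : Matrix ι ι (MonoidAlgebra k M)} (hA : IsEm A) :
    Lt k ι φ (A ^ (r + 2)) = Lt k ι (fun μ => φ (μ ^ (r + 2))) A := by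
  rcases hA with rfl | ⟨⟨a, b, μ⟩, rfl⟩
  · rw [zero_pow (by omega), map_zero, map_zero]
  by_cases h : a = b
  · subst h
    rw [em_pow, Lt_em, Lt_em, if_pos rfl]
  · rw [Lt_em, if_neg h, pow_succ', pow_succ', ← mul_assoc, em_mul, if_neg (Ne.symm h), zero_mul,
      map_zero]

theorem exists_expand (U : Matrix ι ι (MonoidAlgebra k M)) : ∃ S : Finset M,
    U = ∑ j : ι × ι × S, (U j.1 j.2.1).coeff j.2.2 • em k (j.1, j.2.1, (j.2.2 : M)) := by
  classical
  refine ⟨Finset.univ.biUnion fun a => Finset.univ.biUnion fun b => (U a b).coeff.support, ?_⟩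
  set S := Finset.univ.biUnion fun a => Finset.univ.biUnion fun b => (U a b).coeff.support with hS
  have hsub : ∀ a b, (U a b).coeff.support ⊆ S := by
    intro a b μ hμ
    rw [hS, Finset.mem_biUnion]
    exact ⟨a, Finset.mem_univ _, Finset.mem_biUnion.2 ⟨b, Finset.mem_univ _, hμ⟩⟩
  conv_lhs => rw [Matrix.matrix_eq_sum_single U]
  rw [Fintype.sum_prod_type]
  refine Finset.sum_congr rfl fun a _ => ?_
  rw [Fintype.sum_prod_type]
  refine Finset.sum_congr rfl fun b _ => ?_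
  have h1 : U a b = ∑ s : S, MonoidAlgebra.single (s : M) ((U a b).coeff s) := by
    rw [Finset.sum_coe_sort S fun s => MonoidAlgebra.single s ((U a b).coeff s)]
    apply MonoidAlgebra.coeff_injective
    rw [MonoidAlgebra.coeff_sum]
    simp only [MonoidAlgebra.coeff_single]
    conv_lhs => rw [← Finsupp.sum_single (U a b).coeff]
    rw [Finsupp.sum_of_support_subset _ (hsub a b)]
    intro _ _
    exact Finsupp.single_zero _
  conv_lhs => rw [h1]
  have h2 : Matrix.single a b (∑ s : S, MonoidAlgebra.single (s : M) ((U a b).coeff s)) =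
      ∑ s : S, Matrix.single a b (MonoidAlgebra.single (s : M) ((U a b).coeff s)) := by
    exact map_sum (Matrix.singleAddMonoidHom a b) _ _
  rw [h2]
  refine Finset.sum_congr rfl fun s _ => ?_
  unfold em
  rw [Matrix.smul_single]
  congr 1
  apply MonoidAlgebra.coeff_injective
  rw [MonoidAlgebra.coeff_smul]
  simp

theorem Lt_rot [CharZero k] {φ : M → ℚ} (hφ : IsTr φ) (N : ℕ) [NeZero N]
    (f : ZMod N → Matrix ι ι (MonoidAlgebra k M)) :
    Lt k ι φ (pr (fun i : ℕ => f ((i : ZMod N) + 1)) N) = Lt k ι φ (pr (fun i : ℕ => f i) N) := by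
  cases N with
  | zero => exact absurd rfl (NeZero.ne 0)
  | succ N =>
    rw [pr_succ, pr_succ', Lt_comm hφ]
    congr 2
    · congr 1
      rw [Nat.cast_zero]
      have h : ((N : ZMod (N + 1)) + 1) = ((N + 1 : ℕ) : ZMod (N + 1)) := by push_cast; rfl
      rw [h, ZMod.natCast_self]
    · refine pr_congr _ fun i _ => ?_
      push_cast
      rfl

theorem isEm_pr {J : Type*} (x : J → Matrix ι ι (MonoidAlgebra k M)) (hx : ∀ j, IsEm (x j))
    (N : ℕ) (hN : 0 < N) (v : ℕ → J) : IsEm (pr (fun i => x (v i)) N) := by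
  obtain ⟨N', rfl⟩ : ∃ N', N = N' + 1 := ⟨N - 1, by omega⟩
  exact pr_ind (P := IsEm) isEm_mul _ (fun i => hx (v i)) N'

end trace

theorem norm_Lt {ℓ : ℕ} [Fact ℓ.Prime] {M : Type u} [Monoid M] {ι : Type x} [Fintype ι]
    [DecidableEq ι] {φ : M → ℚ} {D : ℕ} (hden : ∀ μ, ∃ z : ℤ, (D : ℚ) * φ μ = z)
    {A : Matrix ι ι (MonoidAlgebra ℚ_[ℓ] M)} (hA : IsEm A) :
    ‖(D : ℚ_[ℓ]) * Lt ℚ_[ℓ] ι φ A‖ ≤ 1 := by
  rcases hA with hA | ⟨⟨a, b, μ⟩, hA⟩
  · rw [hA, map_zero, mul_zero, norm_zero]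
    exact zero_le_one
  · rw [hA, Lt_em]
    split_ifs
    · obtain ⟨z, hz⟩ := hden μ
      have h1 : (D : ℚ_[ℓ]) * ((φ μ : ℚ) : ℚ_[ℓ]) = ((z : ℤ) : ℚ_[ℓ]) := by
        have h2 := congrArg (fun q : ℚ => (q : ℚ_[ℓ])) hz
        push_cast at h2
        exact h2
      rw [h1]
      exact Padic.norm_int_le_one z
    · rw [mul_zero, norm_zero]
      exact zero_le_one

end GAU

open GAU Pool.Agent.Lib25.H2 in
theorem t_GAU : S_GAU.{u, x} := by
  intro ℓ hℓ M _ ι _ _ φ D hφ hD hden U hU n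
  obtain ⟨S, hS⟩ := exists_expand U
  have hn0 : NeZero (ℓ ^ n) := ⟨pow_ne_zero _ hℓ.out.ne_zero⟩
  have hn1 : NeZero (ℓ ^ (n + 1)) := ⟨pow_ne_zero _ hℓ.out.ne_zero⟩
  let c : ι × ι × S → ℚ_[ℓ] := fun j => (U j.1 j.2.1).coeff j.2.2
  let cz : ι × ι × S → ℤ_[ℓ] := fun j => ⟨c j, hU _ _ _⟩
  let x : ι × ι × S → Matrix ι ι (MonoidAlgebra ℚ_[ℓ] M) :=
    fun j => em ℚ_[ℓ] (j.1, j.2.1, (j.2.2 : M))
  have hx : ∀ j, IsEm (x j) := fun j => Or.inr ⟨_, rfl⟩
  have hexp : ∀ (ψ : M → ℚ) (N : ℕ) [NeZero N], (D : ℚ_[ℓ]) * Lt ℚ_[ℓ] ι ψ (U ^ N) =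
      ∑ v : ZMod N → ι × ι × S, (∏ t, c (v t)) *
        ((D : ℚ_[ℓ]) * Lt ℚ_[ℓ] ι ψ (pr (fun i => x (v (i : ZMod N))) N)) := by
    intro ψ N _
    have h1 : U ^ N = ∑ v : ZMod N → ι × ι × S, (∏ t, c (v t)) •
        pr (fun i => x (v (i : ZMod N))) N := by
      conv_lhs => rw [hS]
      exact sum_pow_zmod c x N
    rw [h1, map_sum, Finset.mul_sum]
    refine Finset.sum_congr rfl fun v _ => ?_
    rw [map_smul, smul_eq_mul]
    ring
  have hnorm : ∀ v : ZMod (ℓ ^ (n + 1)) → ι × ι × S, ‖(D : ℚ_[ℓ]) * Lt ℚ_[ℓ] ι φ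
      (pr (fun i => x (v (i : ZMod (ℓ ^ (n + 1))))) (ℓ ^ (n + 1)))‖ ≤ 1 := fun v =>
    norm_Lt hden (isEm_pr x hx _ (Nat.pos_of_ne_zero hn1.out) fun i => v i)
  let T : (ZMod (ℓ ^ (n + 1)) → ι × ι × S) → ℤ_[ℓ] := fun v => ⟨_, hnorm v⟩
  have hT : ∀ v, T (fun t => v (t + 1)) = T v := by
    intro v
    apply Subtype.ext
    change (D : ℚ_[ℓ]) * _ = (D : ℚ_[ℓ]) * _
    congr 1
    exact Lt_rot hφ (ℓ ^ (n + 1)) fun t => x (v t)
  have hcast : ∀ (N : ℕ) [NeZero N] (F : (ZMod N → ι × ι × S) → ℤ_[ℓ]),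
      ((∑ v : ZMod N → ι × ι × S, (∏ t, cz (v t)) * F v : ℤ_[ℓ]) : ℚ_[ℓ]) =
        ∑ v : ZMod N → ι × ι × S, (∏ t, c (v t)) * (F v : ℚ_[ℓ]) := by
    intro N _ F
    have h1 := map_sum (PadicInt.Coe.ringHom (p := ℓ)) (fun v : ZMod N → ι × ι × S =>
      (∏ t, cz (v t)) * F v) Finset.univ
    refine h1.trans (Finset.sum_congr rfl fun v _ => ?_)
    rw [map_mul, map_prod]
    rfl
  have hg := gauss n (fun a _ => cz a) T hT
  rw [← Ideal.mem_span_singleton, ← PadicInt.norm_le_pow_iff_mem_span_pow] at hg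
  refine le_trans (le_of_eq ?_) (hg.trans (le_of_eq ?_))
  · rw [PadicInt.norm_def]
    congr 1
    rw [← Lt_apply, ← Lt_apply, mul_sub, hexp, hexp]
    rw [PadicInt.coe_sub, hcast, hcast]
    congr 1
    refine Finset.sum_congr rfl fun v _ => ?_
    congr 1
    change _ = (D : ℚ_[ℓ]) * _
    congr 1
    have h1 : pr (fun i : ℕ => x (v (cas ℓ n (i : ZMod (ℓ ^ (n + 1)))))) (ℓ ^ (n + 1)) =
        (pr (fun i : ℕ => x (v (i : ZMod (ℓ ^ n)))) (ℓ ^ n)) ^ ℓ := by
      rw [← pr_periodic, ← pow_succ]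
      · refine pr_congr _ fun i _ => ?_
        rw [cas_natCast]
      · intro i
        push_cast
        have h2 : ((ℓ : ZMod (ℓ ^ n)) ^ n) = 0 := by
          rw [← Nat.cast_pow, ZMod.natCast_self]
        rw [h2, zero_add]
    rw [h1]
    obtain ⟨r, hr⟩ : ∃ r, ℓ = r + 2 := ⟨ℓ - 2, by have := hℓ.out.two_le; omega⟩
    have h3 := isEm_pr x hx (ℓ ^ n) (Nat.pos_of_ne_zero hn0.out) fun i => v i
    generalize pr (fun i : ℕ => x (v (i : ZMod (ℓ ^ n)))) (ℓ ^ n) = A at h3 ⊢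
    have h4 := Lt_pow φ r h3
    rw [← hr] at h4
    exact h4.symm
  · push_cast
    rfl

open GAU in
theorem t_GAUint : S_GAUint.{u, x} := by
  intro ℓ _ Γ _ ι _ _ M X hX
  unfold UX
  refine nim_list _ fun A hA => ?_
  rw [List.mem_ofFn'] at hA
  obtain ⟨i, rfl⟩ := hA
  refine nim_mul (nim_mul (nim_jm _ (hX i).1) ?_) (nim_jm _ (hX i).2)
  intro a b
  unfold wm
  rw [Matrix.diagonal_apply]
  split_ifs
  · exact ni_single _ (by simp)
  · exact (ni_iff _).2 (Subring.zero_mem _)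

end Pool.Agent.FJA
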