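import Pool.Agent.AUK.FJA.St7

/-!
# KER: units whose logarithm is supported on smaller subgroups
-/

set_option autoImplicit false

noncomputable section

namespace Pool.Agent.FJA

namespace KER

/-- the induction over the set of the subgroups -/
theorem claim (hPLC : S_PLC) (hNRM : S_NRM) (p : ℕ) [Fact p.Prime] (C : Type) [CommGroup C]
    [Finite C] (v : (MonoidAlgebra ℤ C)ˣ) (S : Finset C) :
    ∃ (K K' : ℕ) (w : C → (MonoidAlgebra ℤ C)ˣ), 0 < K ∧ (∀ d ∈ S, w d ∈ UnS d) ∧
      (∀ c : C, (∃ d ∈ S, c ∈ Subgroup.zpowers d) → plog p (v ^ K * ∏ d ∈ S, w d) c = 0) ∧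
      ∀ c : C, (∀ d ∈ S, c ∉ Subgroup.zpowers d) →
        plog p (v ^ K * ∏ d ∈ S, w d) c = K' * plog p v c := by
  classical
  obtain ⟨hmul, _, hinv, hpow, _, _⟩ := hPLC p C
  induction S using Finset.induction_on with
  | empty =>
    refine ⟨1, 1, fun _ => 1, one_pos, fun d hd => absurd hd (Finset.notMem_empty d), ?_, ?_⟩
    · rintro c ⟨d, hd, _⟩
      exact absurd hd (Finset.notMem_empty d)
    · intro c _
      rw [Finset.prod_empty, mul_one, pow_one, Nat.cast_one, one_mul]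
  | insert d S hd ih =>
    obtain ⟨K, K', w, hK, hw, h1, h2⟩ := ih
    obtain ⟨w0, κ, hw0, hκ, h3, h4⟩ := hNRM p C d (v ^ K * ∏ d ∈ S, w d)
    have hprod : v ^ (K * κ) * ∏ e ∈ insert d S, (if e = d then w0⁻¹ else w e ^ κ) =
        (v ^ K * ∏ d ∈ S, w d) ^ κ * w0⁻¹ := by
      rw [Finset.prod_insert hd, if_pos rfl, mul_pow, ← pow_mul, ← Finset.prod_pow]
      have h5 : ∏ e ∈ S, (if e = d then w0⁻¹ else w e ^ κ) = ∏ e ∈ S, w e ^ κ := by
        refine Finset.prod_congr rfl fun e he => ?_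
        rw [if_neg]
        rintro rfl
        exact hd he
      rw [h5, mul_assoc, mul_comm w0⁻¹]
    refine ⟨K * κ, κ * K', fun e => if e = d then w0⁻¹ else w e ^ κ, Nat.mul_pos hK hκ,
      ?_, ?_, ?_⟩
    · intro e he
      by_cases hed : e = d
      · subst hed
        simp only [if_true]
        exact (UnS e).inv_mem hw0
      · simp only [if_neg hed]
        exact (UnS e).pow_mem (hw e ((Finset.mem_insert.1 he).resolve_left hed)) κ
    · rintro c ⟨e, he, hce⟩
      rw [hprod, hmul, hinv, hpow]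
      by_cases hcd : c ∈ Subgroup.zpowers d
      · rw [h3 c hcd, add_neg_cancel]
      · rw [h4 c hcd, neg_zero, add_zero, h1 c, mul_zero]
        refine ⟨e, (Finset.mem_insert.1 he).resolve_left ?_, hce⟩
        rintro rfl
        exact hcd hce
    · intro c hc
      rw [hprod, hmul, hinv, hpow, h4 c (hc d (Finset.mem_insert_self d S)), neg_zero, add_zero,
        h2 c fun e he => hc e (Finset.mem_insert_of_mem he)]
      push_cast
      ring

end KER

theorem t_KER : S_PLC → S_NRM → S_KER := by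
  intro hPLC hNRM p _ C _ _ S v hv
  obtain ⟨K, K', w, hK, hw, h1, h2⟩ := KER.claim hPLC hNRM p C v S
  obtain ⟨_, _, _, _, _, htor⟩ := hPLC p C
  obtain ⟨K2, hK2, h3⟩ := htor (v ^ K * ∏ d ∈ S, w d) (by
    intro c
    by_cases hc : ∃ d ∈ S, c ∈ Subgroup.zpowers d
    · exact h1 c hc
    · push Not at hc
      rw [h2 c hc, hv c hc, mul_zero])
  refine ⟨K * K2, fun d => (w d ^ K2)⁻¹, Nat.mul_pos hK hK2, ?_, ?_⟩
  · intro d hd
    exact (UnS d).inv_mem ((UnS d).pow_mem (hw d hd) K2)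
  · rw [mul_pow, ← pow_mul, ← Finset.prod_pow] at h3
    rw [Finset.prod_inv_distrib]
    exact eq_inv_of_mul_eq_one_left h3

end Pool.Agent.FJA
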