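import Pool.Agent.AUK.FJA.St7

/-!
# PLB: the p-adic logarithm of a unit: existence, uniqueness, estimate
-/

set_option autoImplicit false

open Filter Topology

noncomputable section

namespace Pool.Agent.FJA

namespace PLB

section coeffs

variable {C : Type} [CommGroup C]

theorem coeff_nat_mul (n : ℕ) (x : MonoidAlgebra ℤ C) (c : C) :
    ((n : MonoidAlgebra ℤ C) * x).coeff c = (n : ℤ) * x.coeff c := by
  rw [← nsmul_eq_mul, MonoidAlgebra.coeff_smul_apply, nsmul_eq_mul]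

theorem coeff_pow_mul (p k : ℕ) (x : MonoidAlgebra ℤ C) (c : C) :
    ((p : MonoidAlgebra ℤ C) ^ k * x).coeff c = (p : ℤ) ^ k * x.coeff c := by
  have h := coeff_nat_mul (p ^ k) x c
  rw [Nat.cast_pow, Nat.cast_pow] at h
  exact h

theorem coeff_add' (x y : MonoidAlgebra ℤ C) (c : C) :
    (x + y).coeff c = x.coeff c + y.coeff c := rfl

theorem exists_of_dvd (p k : ℕ) (x : MonoidAlgebra ℤ C)
    (h : ∀ c, (p : ℤ) ^ k ∣ x.coeff c) : ∃ y, x = (p : MonoidAlgebra ℤ C) ^ k * y := by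
  refine ⟨MonoidAlgebra.ofCoeff (x.coeff.mapRange (fun z => z / (p : ℤ) ^ k) (Int.zero_ediv _)), ?_⟩
  apply MonoidAlgebra.coeff_injective
  ext c
  rw [coeff_pow_mul]
  change x.coeff c = (p : ℤ) ^ k * (x.coeff c / (p : ℤ) ^ k)
  rw [Int.mul_ediv_cancel' (h c)]

/-- The first terms of the binomial formula. -/
theorem one_add_pow' {R : Type} [CommRing R] (y : R) (n : ℕ) :
    ∃ w : R, (1 + y) ^ n = 1 + n * y + y ^ 2 * w := by
  induction n with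
  | zero => exact ⟨0, by simp⟩
  | succ n ih =>
    obtain ⟨w, hw⟩ := ih
    refine ⟨n + w + y * w, ?_⟩
    rw [pow_succ, hw]
    push_cast
    ring

end coeffs

section norms

variable (p : ℕ) [hp : Fact p.Prime]

theorem p_ne : (p : ℚ_[p]) ≠ 0 := by
  exact_mod_cast hp.out.ne_zero

theorem cast_ne {E : ℕ} (hE : 0 < E) : (E : ℚ_[p]) ≠ 0 := by
  exact_mod_cast hE.ne'

theorem pow_ne (b : ℕ) : (p : ℚ_[p]) ^ b ≠ 0 := pow_ne_zero _ (p_ne p)

theorem p_pos : (0 : ℝ) < p := by exact_mod_cast hp.out.pos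

theorem one_lt : (1 : ℝ) < p := by exact_mod_cast hp.out.one_lt

end norms

section main

variable (p : ℕ) [hp : Fact p.Prime] {C : Type} [CommGroup C]

/-- The terms of the sequence. -/
def T (u : MonoidAlgebra ℤ C) (E : ℕ) (c : C) (b : ℕ) : ℚ_[p] :=
  (((u ^ (E * p ^ b) - 1).coeff c : ℤ) : ℚ_[p]) / ((E * p ^ b : ℕ) : ℚ_[p])

theorem expand (hPLA : S_PLA) {u : MonoidAlgebra ℤ C} {E e : ℕ} (he : 1 ≤ e)
    (h : ∀ c, (p : ℤ) ^ e ∣ (u ^ E - 1).coeff c) (b : ℕ) :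
    ∃ z : MonoidAlgebra ℤ C, ∀ c, (u ^ (E * p ^ b) - 1).coeff c =
      (p : ℤ) ^ b * (u ^ E - 1).coeff c + (p : ℤ) ^ (b + 2 * e - 1) * z.coeff c := by
  obtain ⟨x, hx⟩ := exists_of_dvd p e _ h
  obtain ⟨z, hz⟩ := hPLA (MonoidAlgebra ℤ C) p e he x b
  refine ⟨z, fun c => ?_⟩
  have h1 : u ^ E = 1 + (p : MonoidAlgebra ℤ C) ^ e * x := by rw [← hx]; ring
  have h2 : u ^ (E * p ^ b) - 1 = (p : MonoidAlgebra ℤ C) ^ b * (u ^ E - 1) +
      (p : MonoidAlgebra ℤ C) ^ (b + 2 * e - 1) * z := by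
    rw [pow_mul, h1, hz]
    rw [pow_add]
    ring
  rw [h2, coeff_add', coeff_pow_mul, coeff_pow_mul]

theorem dvd_pow (hPLA : S_PLA) {u : MonoidAlgebra ℤ C} {E e : ℕ} (he : 1 ≤ e)
    (h : ∀ c, (p : ℤ) ^ e ∣ (u ^ E - 1).coeff c) (b : ℕ) (c : C) :
    (p : ℤ) ^ (e + b) ∣ (u ^ (E * p ^ b) - 1).coeff c := by
  obtain ⟨z, hz⟩ := expand p hPLA he h b
  rw [hz c]
  refine dvd_add ?_ ?_
  · rw [add_comm, pow_add]
    exact mul_dvd_mul_left _ (h c)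
  · exact Dvd.dvd.mul_right (pow_dvd_pow _ (by omega)) _

theorem mul_T (u : MonoidAlgebra ℤ C) {E : ℕ} (hE : 0 < E) (c : C) (b : ℕ) :
    ((E * p ^ b : ℕ) : ℚ_[p]) * T p u E c b = (((u ^ (E * p ^ b) - 1).coeff c : ℤ) : ℚ_[p]) := by
  unfold T
  rw [mul_div_cancel₀]
  exact cast_ne p (Nat.mul_pos hE (Nat.pos_of_ne_zero (pow_ne_zero _ hp.out.ne_zero)))

/-- The basic estimate. -/
theorem est (hPLA : S_PLA) {u : MonoidAlgebra ℤ C} {E e : ℕ} (hE : 0 < E) (he : 1 ≤ e)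
    (h : ∀ c, (p : ℤ) ^ e ∣ (u ^ E - 1).coeff c) (c : C) (b : ℕ) :
    ‖(E : ℚ_[p]) * T p u E c b - (((u ^ E - 1).coeff c : ℤ) : ℚ_[p])‖ ≤
      (p : ℝ) ^ (-(2 * e - 1 : ℤ)) := by
  obtain ⟨z, hz⟩ := expand p hPLA he h b
  have h1 := mul_T p u hE c b
  rw [hz c] at h1
  push_cast at h1
  have h2 : (E : ℚ_[p]) * T p u E c b - (((u ^ E - 1).coeff c : ℤ) : ℚ_[p]) =
      (p : ℚ_[p]) ^ (2 * e - 1) * ((z.coeff c : ℤ) : ℚ_[p]) := by
    apply mul_left_cancel₀ (pow_ne p b)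
    rw [mul_sub, ← mul_assoc, mul_comm ((p : ℚ_[p]) ^ b) (E : ℚ_[p]), h1, ← mul_assoc, ← pow_add]
    have h3 : b + (2 * e - 1) = b + 2 * e - 1 := by omega
    rw [h3]
    ring
  rw [h2, norm_mul, Padic.norm_p_pow]
  have h4 : (-((2 * e - 1 : ℕ) : ℤ)) = -(2 * e - 1 : ℤ) := by
    push_cast [Nat.cast_sub (by omega : 1 ≤ 2 * e)]
    ring
  rw [h4]
  exact mul_le_of_le_one_right (zpow_nonneg (p_pos p).le _) (Padic.norm_int_le_one _)

theorem T_shift (u : MonoidAlgebra ℤ C) (E : ℕ) (c : C) (b b' : ℕ) :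
    T p u (E * p ^ b) c b' = T p u E c (b + b') := by
  unfold T
  have h1 : E * p ^ b * p ^ b' = E * p ^ (b + b') := by rw [pow_add, mul_assoc]
  rw [h1]

theorem dist_T (hPLA : S_PLA) {u : MonoidAlgebra ℤ C} {E e : ℕ} (hE : 0 < E) (he : 1 ≤ e)
    (h : ∀ c, (p : ℤ) ^ e ∣ (u ^ E - 1).coeff c) (c : C) (b b' : ℕ) :
    ‖T p u E c (b + b') - T p u E c b‖ ≤ ‖(E : ℚ_[p])‖⁻¹ * (p : ℝ) ^ (-(b : ℤ)) := by
  have hE' : 0 < E * p ^ b := Nat.mul_pos hE (Nat.pos_of_ne_zero (pow_ne_zero _ hp.out.ne_zero))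
  have h1 := est p hPLA (u := u) (E := E * p ^ b) (e := e + b) hE' (by omega)
    (dvd_pow p hPLA he h b) c b'
  rw [T_shift, ← mul_T p u hE c b, ← mul_sub, norm_mul] at h1
  have h2 : ‖((E * p ^ b : ℕ) : ℚ_[p])‖ = ‖(E : ℚ_[p])‖ * (p : ℝ) ^ (-(b : ℤ)) := by
    push_cast
    rw [norm_mul, Padic.norm_p_pow]
  rw [h2] at h1
  have hn : 0 < ‖(E : ℚ_[p])‖ := norm_pos_iff.2 (cast_ne p hE)
  have hz : 0 < (p : ℝ) ^ (-(b : ℤ)) := zpow_pos (p_pos p) _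
  have h3 : ‖T p u E c (b + b') - T p u E c b‖ ≤
      (‖(E : ℚ_[p])‖ * (p : ℝ) ^ (-(b : ℤ)))⁻¹ * (p : ℝ) ^ (-(2 * ((e + b : ℕ) : ℤ) - 1)) := by
    rw [inv_mul_eq_div, le_div_iff₀ (mul_pos hn hz), mul_comm]
    exact h1
  refine h3.trans ?_
  rw [mul_inv, mul_assoc]
  refine mul_le_mul_of_nonneg_left ?_ (inv_nonneg.2 hn.le)
  rw [← zpow_neg, ← zpow_add₀ (p_pos p).ne']
  refine zpow_le_zpow_right₀ (one_lt p).le ?_
  push_cast
  omega

theorem tendsto_pow : Tendsto (fun b : ℕ => (p : ℝ) ^ (-(b : ℤ))) atTop (𝓝 0) := by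
  have h1 : (fun b : ℕ => (p : ℝ) ^ (-(b : ℤ))) = fun b : ℕ => ((p : ℝ)⁻¹) ^ b := by
    funext b
    rw [zpow_neg, zpow_natCast, inv_pow]
  rw [h1]
  exact tendsto_pow_atTop_nhds_zero_of_lt_one (inv_nonneg.2 (p_pos p).le)
    (inv_lt_one_of_one_lt₀ (one_lt p))

theorem exists_lim (hPLA : S_PLA) {u : MonoidAlgebra ℤ C} {E e : ℕ} (hE : 0 < E) (he : 1 ≤ e)
    (h : ∀ c, (p : ℤ) ^ e ∣ (u ^ E - 1).coeff c) (c : C) :
    ∃ L : ℚ_[p], Tendsto (T p u E c) atTop (𝓝 L) ∧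
      ‖(E : ℚ_[p]) * L - (((u ^ E - 1).coeff c : ℤ) : ℚ_[p])‖ ≤ (p : ℝ) ^ (-(2 * e - 1 : ℤ)) := by
  have h1 : CauchySeq (T p u E c) := by
    refine cauchySeq_of_le_tendsto_0' (fun b => ‖(E : ℚ_[p])‖⁻¹ * (p : ℝ) ^ (-(b : ℤ))) ?_ ?_
    · intro n m hnm
      obtain ⟨k, rfl⟩ := Nat.exists_eq_add_of_le hnm
      rw [dist_comm, dist_eq_norm]
      exact dist_T p hPLA hE he h c n k
    · have h2 := (tendsto_pow p).const_mul ‖(E : ℚ_[p])‖⁻¹
      rwa [mul_zero] at h2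
  obtain ⟨L, hL⟩ := cauchySeq_tendsto_of_complete h1
  refine ⟨L, hL, ?_⟩
  have h2 : Tendsto (fun b => ‖(E : ℚ_[p]) * T p u E c b -
      (((u ^ E - 1).coeff c : ℤ) : ℚ_[p])‖) atTop
      (𝓝 ‖(E : ℚ_[p]) * L - (((u ^ E - 1).coeff c : ℤ) : ℚ_[p])‖) :=
    ((hL.const_mul _).sub_const _).norm
  exact le_of_tendsto h2 (Eventually.of_forall fun b => est p hPLA hE he h c b)

/-- The limit does not depend on the exponent. -/
theorem lim_mul (hPLA : S_PLA) {u : MonoidAlgebra ℤ C} {E E' : ℕ} (hE : 0 < E) (hE' : 0 < E')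
    (h : ∀ c, (p : ℤ) ∣ (u ^ E - 1).coeff c) (c : C) {L L' : ℚ_[p]}
    (hL : Tendsto (T p u E c) atTop (𝓝 L)) (hL' : Tendsto (T p u (E * E') c) atTop (𝓝 L')) :
    L = L' := by
  have h0 : ∀ c, (p : ℤ) ^ 1 ∣ (u ^ E - 1).coeff c := by simpa using h
  have key : ∀ b, ‖T p u (E * E') c b - T p u E c b‖ ≤
      ‖((E * E' : ℕ) : ℚ_[p])‖⁻¹ * (p : ℝ) ^ (-(b : ℤ)) := by
    intro b
    have hEE : 0 < E * E' := Nat.mul_pos hE hE'
    obtain ⟨x, hx⟩ := exists_of_dvd p (1 + b) _ (dvd_pow p hPLA le_rfl h0 b)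
    obtain ⟨w, hw⟩ := one_add_pow' (u ^ (E * p ^ b) - 1) E'
    have h1 : u ^ (E * E' * p ^ b) - 1 = (E' : MonoidAlgebra ℤ C) * (u ^ (E * p ^ b) - 1) +
        (p : MonoidAlgebra ℤ C) ^ (2 * (1 + b)) * (x ^ 2 * w) := by
      have h2 : E * E' * p ^ b = (E * p ^ b) * E' := by ring
      rw [h2, pow_mul]
      have h3 : u ^ (E * p ^ b) = 1 + (u ^ (E * p ^ b) - 1) := by ring
      have h4 : (u ^ (E * p ^ b)) ^ E' = 1 + E' * (u ^ (E * p ^ b) - 1) +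
          (u ^ (E * p ^ b) - 1) ^ 2 * w := by
        rw [← hw, ← h3]
      rw [h4]
      have h5 : (u ^ (E * p ^ b) - 1) ^ 2 = (p : MonoidAlgebra ℤ C) ^ (2 * (1 + b)) * x ^ 2 := by
        rw [hx, mul_pow, ← pow_mul, mul_comm (1 + b) 2]
      rw [h5]
      ring
    have h2 := mul_T p u hEE c b
    rw [h1, coeff_add', coeff_nat_mul, coeff_pow_mul] at h2
    have h3 := mul_T p u hE c b
    have h4 : ((E * E' * p ^ b : ℕ) : ℚ_[p]) * (T p u (E * E') c b - T p u E c b) =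
        (p : ℚ_[p]) ^ (2 * (1 + b)) * (((x ^ 2 * w).coeff c : ℤ) : ℚ_[p]) := by
      rw [mul_sub, h2]
      have h5 : ((E * E' * p ^ b : ℕ) : ℚ_[p]) * T p u E c b =
          (E' : ℚ_[p]) * (((u ^ (E * p ^ b) - 1).coeff c : ℤ) : ℚ_[p]) := by
        rw [← h3]
        push_cast
        ring
      rw [h5]
      push_cast
      ring
    have h5 := congrArg norm h4
    rw [norm_mul, norm_mul, Padic.norm_p_pow] at h5
    have h6 : ‖((E * E' * p ^ b : ℕ) : ℚ_[p])‖ =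
        ‖((E * E' : ℕ) : ℚ_[p])‖ * (p : ℝ) ^ (-(b : ℤ)) := by
      push_cast
      rw [norm_mul, norm_mul, Padic.norm_p_pow]
    rw [h6] at h5
    have hn : 0 < ‖((E * E' : ℕ) : ℚ_[p])‖ := norm_pos_iff.2 (cast_ne p hEE)
    have hz : 0 < (p : ℝ) ^ (-(b : ℤ)) := zpow_pos (p_pos p) _
    have h7 : ‖((E * E' : ℕ) : ℚ_[p])‖ * (p : ℝ) ^ (-(b : ℤ)) *
        ‖T p u (E * E') c b - T p u E c b‖ ≤ (p : ℝ) ^ (-((2 * (1 + b) : ℕ) : ℤ)) := by
      rw [h5]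
      exact mul_le_of_le_one_right (zpow_nonneg (p_pos p).le _) (Padic.norm_int_le_one _)
    have h8 : ‖T p u (E * E') c b - T p u E c b‖ ≤
        (‖((E * E' : ℕ) : ℚ_[p])‖ * (p : ℝ) ^ (-(b : ℤ)))⁻¹ *
          (p : ℝ) ^ (-((2 * (1 + b) : ℕ) : ℤ)) := by
      rw [inv_mul_eq_div, le_div_iff₀ (mul_pos hn hz), mul_comm]
      exact h7
    refine h8.trans ?_
    rw [mul_inv, mul_assoc]
    refine mul_le_mul_of_nonneg_left ?_ (inv_nonneg.2 hn.le)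
    rw [← zpow_neg, ← zpow_add₀ (p_pos p).ne']
    refine zpow_le_zpow_right₀ (one_lt p).le ?_
    push_cast
    omega
  have h1 : Tendsto (fun b => T p u (E * E') c b - T p u E c b) atTop (𝓝 0) := by
    refine squeeze_zero_norm key ?_
    have h2 := (tendsto_pow p).const_mul ‖((E * E' : ℕ) : ℚ_[p])‖⁻¹
    rwa [mul_zero] at h2
  have h2 := tendsto_nhds_unique h1 (hL'.sub hL)
  exact (sub_eq_zero.1 h2.symm).symm

end main

section unit

variable (p : ℕ) [hp : Fact p.Prime] (C : Type) [CommGroup C] [Finite C]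

theorem finite_alg : Finite (MonoidAlgebra (ZMod p) C) := by
  have : NeZero p := ⟨hp.out.ne_zero⟩
  exact Finite.of_injective (fun x : MonoidAlgebra (ZMod p) C => (fun c => x.coeff c))
    fun x y h => MonoidAlgebra.coeff_injective (Finsupp.ext fun c => congrFun h c)

theorem pE_pos : 0 < pE p C := by
  have := finite_alg p C
  exact Nat.card_pos

theorem dvd_pE (u : (MonoidAlgebra ℤ C)ˣ) (c : C) :
    (p : ℤ) ∣ ((u : MonoidAlgebra ℤ C) ^ pE p C - 1).coeff c := by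
  have h1 : (Units.map (MonoidAlgebra.mapRingHom C (Int.castRingHom (ZMod p)) :
      MonoidAlgebra ℤ C →* MonoidAlgebra (ZMod p) C) u) ^ pE p C = 1 := pow_card_eq_one'
  have h2 := congrArg (fun z : (MonoidAlgebra (ZMod p) C)ˣ => (z : MonoidAlgebra (ZMod p) C)) h1
  have h3 : MonoidAlgebra.mapRingHom C (Int.castRingHom (ZMod p))
      ((u : MonoidAlgebra ℤ C) ^ pE p C - 1) = 0 := by
    rw [map_sub, map_pow, map_one, sub_eq_zero]
    exact h2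
  have h4 := MonoidAlgebra.coeff_mapRingHom (Int.castRingHom (ZMod p))
    ((u : MonoidAlgebra ℤ C) ^ pE p C - 1) c
  rw [h3] at h4
  rw [← ZMod.intCast_zmod_eq_zero_iff_dvd]
  exact h4.symm

end unit

end PLB

open PLB in
theorem t_PLB : S_PLA → S_PLB := by
  intro hPLA p _ C _ _ u
  have hE0 := pE_pos p C
  have hd0 := dvd_pE p C u
  -- the limits exist for all admissible exponents, and agree
  have hlim : ∀ E : ℕ, 0 < E → (∀ c : C, (p : ℤ) ∣ ((u : MonoidAlgebra ℤ C) ^ E - 1).coeff c) →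
      ∀ c : C, ∃ L : ℚ_[p], Tendsto (T p (u : MonoidAlgebra ℤ C) E c) atTop (𝓝 L) := by
    intro E hE hd c
    obtain ⟨L, hL, -⟩ := exists_lim p hPLA (u := (u : MonoidAlgebra ℤ C)) (E := E) (e := 1) hE le_rfl
      (by simpa using hd) c
    exact ⟨L, hL⟩
  have hplog : ∀ c : C, Tendsto (T p (u : MonoidAlgebra ℤ C) (pE p C) c) atTop
      (𝓝 (plog p u c)) := by
    intro c
    obtain ⟨L, hL⟩ := hlim _ hE0 hd0 c
    have h1 : plogS p u c = T p (u : MonoidAlgebra ℤ C) (pE p C) c := by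
      funext a
      unfold plogS T
      rw [Units.val_pow_eq_pow_val]
    unfold plog
    rw [h1, hL.limUnder_eq]
    exact hL
  have hsame : ∀ E : ℕ, 0 < E → (∀ c : C, (p : ℤ) ∣ ((u : MonoidAlgebra ℤ C) ^ E - 1).coeff c) →
      ∀ (c : C) (L : ℚ_[p]), Tendsto (T p (u : MonoidAlgebra ℤ C) E c) atTop (𝓝 L) →
        L = plog p u c := by
    intro E hE hd c L hL
    have hdd : ∀ c : C, (p : ℤ) ∣ ((u : MonoidAlgebra ℤ C) ^ (E * pE p C) - 1).coeff c := by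
      intro c
      obtain ⟨x, hx⟩ := exists_of_dvd p 1 _
        (by simpa using hd : ∀ c : C, (p : ℤ) ^ 1 ∣ ((u : MonoidAlgebra ℤ C) ^ E - 1).coeff c)
      obtain ⟨w, hw⟩ := one_add_pow' ((u : MonoidAlgebra ℤ C) ^ E - 1) (pE p C)
      have h1 : (u : MonoidAlgebra ℤ C) ^ (E * pE p C) - 1 = (p : MonoidAlgebra ℤ C) ^ 1 *
          ((pE p C : MonoidAlgebra ℤ C) * x + ((u : MonoidAlgebra ℤ C) ^ E - 1) * x * w) := by
        have h2 : (u : MonoidAlgebra ℤ C) ^ E = 1 + ((u : MonoidAlgebra ℤ C) ^ E - 1) := by ring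
        have h3 : (u : MonoidAlgebra ℤ C) ^ (E * pE p C) =
            1 + (pE p C : MonoidAlgebra ℤ C) * ((u : MonoidAlgebra ℤ C) ^ E - 1) +
              ((u : MonoidAlgebra ℤ C) ^ E - 1) ^ 2 * w := by
          rw [← hw, ← h2, pow_mul]
        rw [h3]
        have h4 : ((u : MonoidAlgebra ℤ C) ^ E - 1) ^ 2 = (p : MonoidAlgebra ℤ C) ^ 1 *
            (((u : MonoidAlgebra ℤ C) ^ E - 1) * x) := by
          rw [sq]
          nth_rewrite 2 [hx]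
          ring
        rw [h4]
        nth_rewrite 1 [hx]
        ring
      rw [h1, coeff_pow_mul, pow_one]
      exact Dvd.intro _ rfl
    obtain ⟨L', hL'⟩ := hlim (E * pE p C) (Nat.mul_pos hE hE0) hdd c
    have h1 := lim_mul p hPLA hE hE0 hd c hL hL'
    have hL'' : Tendsto (T p (u : MonoidAlgebra ℤ C) (pE p C * E) c) atTop (𝓝 L') := by
      rw [mul_comm]
      exact hL'
    have h2 := lim_mul p hPLA hE0 hE hd0 c (hplog c) hL''
    rw [h1, h2]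
  refine ⟨⟨pE p C, hE0, hd0, hplog⟩, ?_, ?_⟩
  · rintro l ⟨E, hE, hd, hl⟩
    funext c
    exact hsame E hE hd c (l c) (hl c)
  · intro E e hE he hd c
    obtain ⟨L, hL, h1⟩ := exists_lim p hPLA (u := (u : MonoidAlgebra ℤ C)) hE he hd c
    have hd1 : ∀ c : C, (p : ℤ) ∣ ((u : MonoidAlgebra ℤ C) ^ E - 1).coeff c := fun c =>
      (dvd_pow_self (p : ℤ) (by omega)).trans (hd c)
    rw [← hsame E hE hd1 c L hL]
    exact h1

end Pool.Agent.FJA
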