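import Pool.Agent.AUK.FJA.P_SEC
import Pool.Agent.AUK.FJA.St8

/-!
# FJA: the module PNT

The points of a vertex.
-/

set_option autoImplicit false

noncomputable section

namespace Pool.Agent.FJA

namespace PNT

variable {Γ : Type} [Group Γ]

open SEC

lemma rotL_ne {Y : List Γ} (hY : Y ≠ []) (y : Γ) : rotL y Y ≠ [] := by
  cases Y with
  | nil => exact absurd rfl hY
  | cons a Y => simp [rotL]

lemma rotL_length (y : Γ) (Y : List Γ) : (rotL y Y).length = Y.length := by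
  cases Y with
  | nil => rfl
  | cons a Y => simp [rotL]

lemma sq_rotL {Y : List Γ} (hY : Y ≠ []) (y : Γ) (n : ℤ) :
    sq (rotL y Y) y n = sq Y y (n + 1) := by
  cases Y with
  | nil => exact absurd rfl hY
  | cons a Y => exact sq_rot a Y y n

lemma iter_spec (y : Γ) (e : ℕ) : ∀ {Y : List Γ}, Y ≠ [] →
    (rotL y)^[e] Y ≠ [] ∧ ((rotL y)^[e] Y).length = Y.length ∧
      ∀ n : ℤ, sq ((rotL y)^[e] Y) y n = sq Y y (n + e) := by
  induction e with
  | zero =>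
    intro Y hY
    refine ⟨hY, rfl, fun n => by simp⟩
  | succ e ih =>
    intro Y hY
    obtain ⟨h1, h2, h3⟩ := ih (rotL_ne hY y)
    rw [Function.iterate_succ_apply]
    refine ⟨h1, by rw [h2, rotL_length], fun n => ?_⟩
    rw [h3, sq_rotL hY]
    push_cast
    rw [add_assoc]

lemma sq_nat {Y : List Γ} (y : Γ) {i : ℕ} (hi : i < Y.length) : sq Y y (i : ℤ) = Y[i] := by
  have h1 : ((i : ℤ) / (Y.length : ℤ)) = 0 := Int.ediv_eq_zero_of_lt (by omega) (by omega)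
  have h2 : ((i : ℤ) % (Y.length : ℤ)) = i := Int.emod_eq_of_lt (by omega) (by omega)
  rw [SEC.sq, h1, h2, zpow_zero, one_mul, Int.toNat_natCast, List.getD_eq_getElem _ _ hi]

lemma ext_sq {Y Y' : List Γ} (y : Γ) (hl : Y.length = Y'.length)
    (h : ∀ n : ℤ, sq Y y n = sq Y' y n) : Y = Y' := by
  refine List.ext_getElem hl fun i h1 h2 => ?_
  have := h i
  rwa [sq_nat y h1, sq_nat y h2] at this

/-- `δ` maps the shift of `A` by `e` to `A`. -/
def St (A : ℤ → Γ) (δ : Γ) (e : ℤ) : Prop := ∀ a : ℤ, A a = δ * A (a + e)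

lemma sq_map {Y : List Γ} (hY : Y ≠ []) {y δ : Γ} (h : δ * y = y * δ) (n : ℤ) :
    sq (Y.map (δ * ·)) y n = δ * sq Y y n := by
  have h1 : δ * y * δ⁻¹ = y := by
    rw [h, mul_assoc, mul_inv_cancel, mul_one]
  have h2 := sq_conj hY δ y n
  rwa [h1] at h2

lemma stb_iff {Y : List Γ} (hY : Y ≠ []) (y δ : Γ) (e : ℕ) :
    Stb Y y δ e ↔ St (sq Y y) δ e := by
  obtain ⟨h1, h2, h3⟩ := iter_spec y e hY
  constructor
  · rintro ⟨hc, hm⟩ a
    conv_lhs => rw [← hm]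
    rw [sq_map h1 hc, h3]
  · intro h
    have hc : δ * y = y * δ := by
      have e1 : y * sq Y y 0 = δ * y * sq Y y (0 + e) := by
        rw [← sq_add hY, h (0 + Y.length), show (0 : ℤ) + Y.length + e = 0 + e + Y.length by ring,
          sq_add hY, mul_assoc]
      have e2 : y * sq Y y 0 = y * δ * sq Y y (0 + e) := by
        rw [h 0, mul_assoc]
      exact mul_right_cancel (e1.symm.trans e2)
    refine ⟨hc, ext_sq y (by rw [List.length_map, h2]) fun n => ?_⟩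
    rw [sq_map h1 hc, h3, ← h n]

lemma st_unique {A : ℤ → Γ} {δ δ' : Γ} {e : ℤ} (h : St A δ e) (h' : St A δ' e) : δ = δ' :=
  mul_right_cancel ((h 0).symm.trans (h' 0))

lemma st_pow {A : ℤ → Γ} {δ : Γ} {e : ℤ} (h : St A δ e) (t : ℤ) : St A (δ ^ t) (t * e) := by
  have h1 : (δ, Multiplicative.ofAdd e) ∈ stab A := h
  have h2 := (stab A).zpow_mem h1 t
  intro a
  have h3 := h2 a
  simpa using h3

lemma st_inv {A : ℤ → Γ} {δ : Γ} {e : ℤ} (h : St A δ e) : St A δ⁻¹ (-e) := by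
  have := st_pow h (-1)
  simpa using this

lemma st_mul {A : ℤ → Γ} {δ δ' : Γ} {e e' : ℤ} (h : St A δ e) (h' : St A δ' e') :
    St A (δ * δ') (e + e') := by
  intro a
  rw [h a, h' (a + e), mul_assoc, add_assoc]

/-- `δ` belongs to the smallest positive exponent. -/
def IsDl (A : ℤ → Γ) (δ : Γ) : Prop :=
  ∃ e : ℕ, 0 < e ∧ St A δ e ∧ ∀ (e' : ℕ) (δ' : Γ), 0 < e' → St A δ' e' → e ≤ e'

lemma isDl_unique {A : ℤ → Γ} {δ δ' : Γ} (h : IsDl A δ) (h' : IsDl A δ') : δ = δ' := by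
  obtain ⟨e, h1, h2, h3⟩ := h
  obtain ⟨e', h1', h2', h3'⟩ := h'
  have he : e = e' := le_antisymm (h3 _ _ h1' h2') (h3' _ _ h1 h2)
  subst he
  exact st_unique h2 h2'

lemma isDl_exists {Y : List Γ} (hY : Y ≠ []) (y : Γ) : ∃ δ, IsDl (sq Y y) δ := by
  classical
  have h0 : 0 < Y.length := List.length_pos_iff.mpr hY
  have hex : ∃ e : ℕ, 0 < e ∧ ∃ δ, St (sq Y y) δ e := by
    refine ⟨Y.length, h0, y⁻¹, fun a => ?_⟩
    rw [sq_add hY, inv_mul_cancel_left]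
  obtain ⟨h1, δ, h2⟩ := Nat.find_spec hex
  exact ⟨δ, Nat.find hex, h1, h2, fun e' δ' h3 h4 => Nat.find_min' hex ⟨h3, δ', h4⟩⟩

lemma isDl_gen {A : ℤ → Γ} {δ0 δ : Γ} (h0 : IsDl A δ0) {e : ℤ} (h : St A δ e) :
    ∃ t : ℤ, δ = δ0 ^ t := by
  obtain ⟨e0, h1, h2, h3⟩ := h0
  have h4 : St A (δ0 ^ (-(e / e0)) * δ) (-(e / e0) * e0 + e) := st_mul (st_pow h2 _) h
  have h5 : -(e / (e0 : ℤ)) * e0 + e = e % e0 := by
    have := Int.emod_add_mul_ediv e e0
    linarith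
  rw [h5] at h4
  have h6 : 0 ≤ e % (e0 : ℤ) := Int.emod_nonneg _ (by omega)
  have h7 : e % (e0 : ℤ) < e0 := Int.emod_lt_of_pos _ (by omega)
  have h8 : e % (e0 : ℤ) = 0 := by
    by_contra hne
    have h9 : 0 < (e % (e0 : ℤ)).toNat := by omega
    have h10 := h3 _ (δ0 ^ (-(e / e0)) * δ) h9 (by
      rw [Int.toNat_of_nonneg h6]
      exact h4)
    omega
  rw [h8] at h4
  have h9 := h4 0
  rw [add_zero] at h9
  have h10 : (1 : Γ) = δ0 ^ (-(e / e0)) * δ := mul_right_cancel (b := A 0) (by rw [one_mul]; exact h9)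
  refine ⟨e / e0, ?_⟩
  have h11 : δ = (δ0 ^ (-(e / e0)))⁻¹ := eq_inv_of_mul_eq_one_right h10.symm
  rw [h11, zpow_neg, inv_inv]

open Classical in
/-- The generator. -/
def dlf (Y : List Γ) (y : Γ) : Γ := if h : ∃ δ, IsDl (sq Y y) δ then h.choose else 1

lemma dlf_spec {Y : List Γ} (hY : Y ≠ []) (y : Γ) : IsDl (sq Y y) (dlf Y y) := by
  unfold dlf
  rw [dif_pos (isDl_exists hY y)]
  exact (isDl_exists hY y).choose_spec

lemma dlf_mem {Y : List Γ} (hY : Y ≠ []) (y : Γ) : dlf Y y ∈ stab1 (sq Y y) := by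
  obtain ⟨e, -, h, -⟩ := dlf_spec hY y
  exact (mem_stab1 _ _).mpr ⟨e, h⟩

lemma dlf_fin {Y : List Γ} (hY : Y ≠ []) {y : Γ} (hy : IsOfFinOrder y) :
    IsOfFinOrder (dlf Y y) := fin_order hY hy (dlf_mem hY y)

lemma dlf_gen {Y : List Γ} (hY : Y ≠ []) {y : Γ} (hy : IsOfFinOrder y) {δ : Γ}
    (h : δ ∈ stab1 (sq Y y)) : ∃ t : ℕ, δ = dlf Y y ^ t := by
  obtain ⟨e, he⟩ := (mem_stab1 _ _).mp h
  obtain ⟨t, ht⟩ := isDl_gen (dlf_spec hY y) (e := e) he
  have h1 : δ ∈ Subgroup.zpowers (dlf Y y) := ⟨t, ht.symm⟩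
  rw [← (dlf_fin hY hy).mem_powers_iff_mem_zpowers] at h1
  obtain ⟨n, hn⟩ := h1
  exact ⟨n, hn.symm⟩

lemma pos_orb {A : ℤ → Γ} {x δ : Γ} (hx : x ∈ pos A) (h : δ ∈ stab1 A) : δ * x ∈ pos A := by
  obtain ⟨e, he⟩ := (mem_stab1 _ _).mp h
  obtain ⟨γ, m, h1, rfl⟩ := hx
  refine ⟨δ * γ, e + m, fun n => ?_, by rw [mul_assoc]⟩
  rw [he n, h1 (n + e), mul_assoc, add_assoc]

lemma pos_trans {Y : List Γ} (hY : Y ≠ []) {y : Γ} (hy : IsOfFinOrder y) {x x' : Γ}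
    (hx : x ∈ pos (sq Y y)) (hx' : x' ∈ pos (sq Y y)) : ∃ t : ℕ, x' = dlf Y y ^ t * x := by
  obtain ⟨δ, -, rfl⟩ := pos_sub _ hx hx'
  obtain ⟨t, ht⟩ := dlf_gen hY hy δ.2
  exact ⟨t, by simp only [ht]⟩

lemma pos_eq {Y : List Γ} (hY : Y ≠ []) {y : Γ} (hy : IsOfFinOrder y) {x : Γ}
    (hx : x ∈ pos (sq Y y)) :
    pos (sq Y y) = (fun t : ℕ => dlf Y y ^ t * x) '' (Finset.range (orderOf (dlf Y y))) := by
  ext x'
  constructor
  · intro hx'
    obtain ⟨t, rfl⟩ := pos_trans hY hy hx hx'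
    refine ⟨t % orderOf (dlf Y y), ?_, ?_⟩
    · rw [Finset.mem_coe, Finset.mem_range]
      exact Nat.mod_lt _ (dlf_fin hY hy).orderOf_pos
    · simp only
      rw [pow_mod_orderOf]
  · rintro ⟨t, -, rfl⟩
    exact pos_orb hx (Subgroup.pow_mem _ (dlf_mem hY y) t)

lemma pos_fin {Y : List Γ} (hY : Y ≠ []) {y : Γ} (hy : IsOfFinOrder y) :
    (pos (sq Y y)).Finite := by
  obtain ⟨x, hx⟩ := pos_nonempty (sq Y y)
  rw [pos_eq hY hy hx]
  exact (Finset.finite_toSet _).image _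

lemma pos_card {Y : List Γ} (hY : Y ≠ []) {y : Γ} (hy : IsOfFinOrder y) :
    (pos (sq Y y)).ncard = orderOf (dlf Y y) := by
  obtain ⟨x, hx⟩ := pos_nonempty (sq Y y)
  rw [pos_eq hY hy hx, Set.ncard_image_of_injOn, Set.ncard_coe_finset, Finset.card_range]
  intro s hs t ht h
  rw [Finset.mem_coe, Finset.mem_range] at hs ht
  have h1 : dlf Y y ^ s = dlf Y y ^ t := mul_right_cancel h
  exact pow_injOn_Iio_orderOf hs ht h1

open Classical in
/-- The points. -/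
def Ptf (Y : List Γ) (y : Γ) : Finset Γ :=
  if h : Y ≠ [] ∧ IsOfFinOrder y then (pos_fin h.1 h.2).toFinset else ∅

lemma mem_Ptf {Y : List Γ} (hY : Y ≠ []) {y : Γ} (hy : IsOfFinOrder y) (x : Γ) :
    x ∈ Ptf Y y ↔ x ∈ pos (sq Y y) := by
  unfold Ptf
  rw [dif_pos ⟨hY, hy⟩, Set.Finite.mem_toFinset]

lemma isDl_conj {A B : ℤ → Γ} {γ δ : Γ} {l : ℤ} (hAB : ∀ n, B n = γ * A (n + l))
    (h : IsDl A δ) : IsDl B (γ * δ * γ⁻¹) := by
  obtain ⟨e, h1, h2, h3⟩ := h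
  have hBA : ∀ n, A n = γ⁻¹ * B (n - l) := fun n => by
    rw [hAB (n - l), sub_add_cancel, inv_mul_cancel_left]
  refine ⟨e, h1, fun a => ?_, fun e' δ' h4 h5 => ?_⟩
  · rw [hAB a, h2 (a + l), hAB (a + e), show a + l + (e : ℤ) = a + e + l by ring]
    group
  · refine h3 e' (γ⁻¹ * δ' * γ) h4 fun a => ?_
    rw [hBA a, h5 (a - l), hBA (a + e'), show a - l + (e' : ℤ) = a + e' - l by ring]
    group

lemma conj_fin {y : Γ} (hy : IsOfFinOrder y) (γ : Γ) : IsOfFinOrder (γ * y * γ⁻¹) := by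
  have := (isConj_iff.mpr ⟨γ, rfl⟩ : IsConj y (γ * y * γ⁻¹))
  exact this.isOfFinOrder hy

end PNT

open PNT SEC in
theorem t_PNT : S_PNT := by
  intro Γ _
  refine ⟨Ptf, dlf, ?_⟩
  constructor
  · intro y
    unfold Ptf
    rw [dif_neg (by simp)]
  · intro Y y hY hy
    obtain ⟨x, hx⟩ := pos_nonempty (sq Y y)
    exact ⟨x, (mem_Ptf hY hy x).mpr hx⟩
  · intro Y y hY hy x hx
    obtain ⟨n, rfl⟩ := pos_mem ((mem_Ptf hY hy x).mp hx)
    exact sq_mem hY y n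
  · intro γ Y y hY hy x
    have hY' : Y.map (γ * ·) ≠ [] := by simpa using hY
    rw [mem_Ptf hY hy, mem_Ptf hY' (conj_fin hy γ),
      pos_translate (sq Y y) _ γ 0 fun n => by rw [add_zero]; exact sq_conj hY γ y n]
    constructor
    · rintro ⟨x', hx', h⟩
      have : x' = x := mul_left_cancel h
      rwa [← this]
    · intro h
      exact ⟨x, h, rfl⟩
  · intro Y y hY hy
    ext x
    rw [mem_Ptf hY hy, mem_Ptf (rotL_ne hY y) hy,
      pos_translate (sq Y y) _ 1 1 fun n => by rw [one_mul]; exact sq_rotL hY y n]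
    simp
  · intro γ Y y hY hy
    have hY' : Y.map (γ * ·) ≠ [] := by simpa using hY
    exact isDl_unique (dlf_spec hY' _)
      (isDl_conj (l := 0) (fun n => by rw [add_zero]; exact sq_conj hY γ y n) (dlf_spec hY y))
  · intro Y y hY hy
    have h := isDl_conj (γ := 1) (l := 1) (A := sq Y y) (B := sq (rotL y Y) y)
      (fun n => by rw [one_mul]; exact sq_rotL hY y n) (dlf_spec hY y)
    rw [one_mul, inv_one, mul_one] at h
    exact isDl_unique (dlf_spec (rotL_ne hY y) y) h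
  · intro Y y hY hy
    obtain ⟨e, -, h, -⟩ := dlf_spec hY y
    exact ⟨e, (stb_iff hY y _ e).mpr h⟩
  · intro Y y hY hy δ e h
    exact dlf_gen hY hy ((mem_stab1 _ _).mpr ⟨e, (stb_iff hY y δ e).mp h⟩)
  · intro Y y hY hy
    exact dlf_fin hY hy
  · intro Y y hY hy
    unfold Ptf
    rw [dif_pos ⟨hY, hy⟩, ← Set.ncard_eq_toFinset_card _ (pos_fin hY hy)]
    exact pos_card hY hy
  · intro Y y hY hy x hx
    rw [mem_Ptf hY hy] at hx ⊢
    exact pos_orb hx (dlf_mem hY y)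
  · intro Y y hY hy x hx x' hx'
    rw [mem_Ptf hY hy] at hx hx'
    exact pos_trans hY hy hx hx'

end Pool.Agent.FJA
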