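import Pool.Agent.AUK.FJA.Asm
import Pool.Agent.AUK.FJA.Rel1
import Pool.Agent.AUK.FJA.St7

/-!
# Module TPA: conjugation of symbols
-/

set_option autoImplicit false

open Matrix Pool.Agent.WhK Pool.Agent.Lib25 CategoryTheory

noncomputable section

namespace Pool.Agent.FJA

namespace TPA

variable {G : Type} [Group G]

theorem uG_comp {A B C : Type} [Group A] [Group B] [Group C] (f : A →* B) (g : B →* C)
    (u : (MonoidAlgebra ℤ A)ˣ) : uG g (uG f u) = uG (g.comp f) u := by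
  apply Units.ext
  change MonoidAlgebra.mapDomain _ (MonoidAlgebra.mapDomain _ u.val) =
    MonoidAlgebra.mapDomain _ u.val
  have h1 : ∀ w : MonoidAlgebra ℤ A, MonoidAlgebra.mapDomain g (MonoidAlgebra.mapDomain f w) =
      MonoidAlgebra.mapDomain (g.comp f) w := by
    intro w
    induction w using MonoidAlgebra.induction_linear with
    | zero => simp
    | add x y hx hy => rw [MonoidAlgebra.mapDomain_add, MonoidAlgebra.mapDomain_add, hx, hy,
        MonoidAlgebra.mapDomain_add]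
    | single g c => rw [MonoidAlgebra.mapDomain_single, MonoidAlgebra.mapDomain_single,
        MonoidAlgebra.mapDomain_single]; rfl
  exact h1 _

theorem uG_conj (x : G) (u : (MonoidAlgebra ℤ G)ˣ) :
    uG (MulAut.conj x).toMonoidHom u = gU G x * u * (gU G x)⁻¹ := by
  rw [eq_mul_inv_iff_mul_eq]
  apply Units.ext
  change MonoidAlgebra.mapDomain _ u.val * MonoidAlgebra.of ℤ G x =
    MonoidAlgebra.of ℤ G x * u.val
  have h1 : ∀ w : MonoidAlgebra ℤ G,
      MonoidAlgebra.mapDomain (MulAut.conj x).toMonoidHom w * MonoidAlgebra.of ℤ G x =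
      MonoidAlgebra.of ℤ G x * w := by
    intro w
    induction w using MonoidAlgebra.induction_linear with
    | zero => simp
    | add y z hy hz => rw [MonoidAlgebra.mapDomain_add, add_mul, mul_add, hy, hz]
    | single g c =>
      rw [MonoidAlgebra.mapDomain_single, MonoidAlgebra.of_apply,
        MonoidAlgebra.single_mul_single, MonoidAlgebra.single_mul_single]
      simp [MulAut.conj_apply]
  exact h1 _

/-- Conjugation, with a general target. -/
theorem conj' {m : ℕ} (h x : G) (h' : G) (e : x * h * x⁻¹ = h') (C : HQ m (Cen h))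
    (u : (MonoidAlgebra ℤ G)ˣ) : ∃ K : ∀ z ∈ Cen h, x * z * x⁻¹ ∈ Cen h',
      sym1 h' (HQ.map m (cHom x K) C) (gU G x * u * (gU G x)⁻¹) = sym1 h C u := by
  subst e
  exact ⟨cHom_conj x h, sym1_conj h x C u⟩

/-- A unit of the group ring of the cyclic group gives an admissible symbol. -/
theorem mem_unS {N : ℕ} [NeZero N] (ψ : Cyc N →* G) (v : (MonoidAlgebra ℤ (Cyc N))ˣ) :
    uG ψ v ∈ UnS (ψ (gen N)) := by
  have h1 : ∀ c : Cyc N, ψ c ∈ Subgroup.zpowers (ψ (gen N)) := by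
    intro c
    rw [cyc_eq_pow c, map_pow]
    exact Subgroup.pow_mem _ (Subgroup.mem_zpowers _) _
  refine ⟨uG (ψ.codRestrict _ h1) v, ?_⟩
  change uG (Subgroup.zpowers (ψ (gen N))).subtype (uG (ψ.codRestrict _ h1) v) = uG ψ v
  rw [uG_comp]
  rfl

theorem fin_gen {N : ℕ} [NeZero N] (ψ : Cyc N →* G) : IsOfFinOrder (ψ (gen N)) :=
  MonoidHom.isOfFinOrder ψ (isOfFinOrder_of_finite (gen N))

/-- The composite of the two homomorphisms. -/
theorem comp_eq {h h' : G} (x : G) (hz : h' ∈ Subgroup.zpowers h)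
    (Hx : ∀ z ∈ Cen h, x * z * x⁻¹ ∈ Cen h) (K : ∀ z ∈ Cen h, x * z * x⁻¹ ∈ Cen h') :
    (cHom 1 (cHom_pow h hz)).comp (cHom x Hx) = cHom x K := by
  refine MonoidHom.ext fun z => ?_
  apply Subtype.ext
  change 1 * (x * (z : G) * x⁻¹) * 1⁻¹ = x * (z : G) * x⁻¹
  rw [one_mul, inv_one, mul_one]

/-- The statement for elements of `G`. -/
theorem main {m : ℕ} (h x h' : G) (e : x * h * x⁻¹ = h') (hz : h' ∈ Subgroup.zpowers h)
    (C : HQ m (Cen h)) (u u' : (MonoidAlgebra ℤ G)ˣ) (hu : gU G x * u * (gU G x)⁻¹ = u')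
    (hf : IsOfFinOrder h) (hv : Adm1 h' u') (Hx : ∀ z ∈ Cen h, x * z * x⁻¹ ∈ Cen h) :
    sym1 h (HQ.map m (cHom x Hx) C) u' = sym1 h C u := by
  obtain ⟨K, hK⟩ := conj' (m := m) h x h' e C u
  rw [hu] at hK
  have h5 := sym1_res h h' hz (HQ.map m (cHom x Hx) C) u' hf hv
  have h6 : HQ.map m (cHom 1 (cHom_pow h hz)) (HQ.map m (cHom x Hx) C) = HQ.map m (cHom x K) C := by
    rw [← HQ.map_comp, comp_eq x hz Hx K]
  rw [h6] at h5
  exact h5.symm.trans hK

end TPA

open TPA in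
theorem t_TPA : S_TPA := by
  intro m G _ N _ φ _ C v a x hx Hx
  have h1 : (MulAut.conj x).toMonoidHom.comp φ = φ.comp (powMonoidHom a) := by
    apply cyc_ext
    rw [MonoidHom.comp_apply, MonoidHom.comp_apply, powMonoidHom_apply, map_pow, ← hx]
    rfl
  have h2 : gU G x * uG φ v * (gU G x)⁻¹ = uG φ (uG (powMonoidHom a) v) := by
    rw [← uG_conj, uG_comp, uG_comp, h1]
  have hz : φ (gen N) ^ a ∈ Subgroup.zpowers (φ (gen N)) :=
    Subgroup.pow_mem _ (Subgroup.mem_zpowers _) a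
  have h4 : (φ.comp (powMonoidHom a)) (gen N) = φ (gen N) ^ a := by
    rw [MonoidHom.comp_apply, powMonoidHom_apply, map_pow]
  have h3 : Adm1 (φ (gen N) ^ a) (uG φ (uG (powMonoidHom a) v)) := by
    rw [uG_comp, ← h4]
    exact ⟨fin_gen _, mem_unS _ v⟩
  exact main (φ (gen N)) x (φ (gen N) ^ a) hx hz C (uG φ v) _ h2 (fin_gen φ) h3 Hx

end Pool.Agent.FJA

end
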