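import Pool.Agent.AUK.FJA.Avg
import Pool.Agent.AUK.FJA.St7

/-!
# TPD: the evaluation of the hypothesis
-/

set_option autoImplicit false

open Matrix Pool.Agent.WhK Pool.Agent.Lib25 CategoryTheory

noncomputable section

namespace Pool.Agent.FJA

namespace TPD

theorem exists_val {G P : Type} (j : P → G) {m : ℕ} (F : (Fin m → G) → G → ℚ)
    (w : (Fin m → P) →₀ ℚ) (y : G) (h : evc j F w y ≠ 0) : ∃ a, F a y ≠ 0 := by
  by_contra hc
  push Not at hc
  apply h
  unfold evc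
  refine Finset.sum_eq_zero fun x _ => ?_
  change w x * F (fun i => j (x i)) y = 0
  rw [hc, mul_zero]

theorem order_top {N : ℕ} [NeZero N] {c : Cyc N} (hc : Subgroup.zpowers c = ⊤) :
    orderOf c = N := by
  have h1 := Pool.Agent.Lib25.orderOf_gen hc
  rw [card_Cn] at h1
  exact h1

theorem top_order {N : ℕ} [NeZero N] {c : Cyc N} (hc : orderOf c = N) :
    Subgroup.zpowers c = ⊤ := by
  apply Subgroup.eq_top_of_card_eq
  rw [Nat.card_zpowers, hc, card_Cn]

/-- the element `c'` with `c' ^ w = c` -/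
def rt {N : ℕ} (c : Cyc N) (w : (ZMod N)ˣ) : Cyc N := c ^ ((w⁻¹ : (ZMod N)ˣ) : ZMod N).val

theorem rt_pow {N : ℕ} [NeZero N] (c : Cyc N) (w : (ZMod N)ˣ) :
    rt c w ^ (w : ZMod N).val = c := by
  unfold rt
  rw [← pow_val_mul (cyc_pow c), inv_mul_cancel, pow_val_one (cyc_pow c)]

theorem rt_of {N : ℕ} [NeZero N] (c' : Cyc N) (w : (ZMod N)ˣ) :
    rt (c' ^ (w : ZMod N).val) w = c' := by
  unfold rt
  rw [← pow_val_mul (cyc_pow c'), mul_inv_cancel, pow_val_one (cyc_pow c')]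

theorem rt_inj {N : ℕ} [NeZero N] {c : Cyc N} (hc : Subgroup.zpowers c = ⊤) {w w' : (ZMod N)ˣ}
    (h : rt c w = rt c w') : w = w' := by
  unfold rt at h
  have ho := order_top hc
  have h1 : ((w⁻¹ : (ZMod N)ˣ) : ZMod N).val = ((w'⁻¹ : (ZMod N)ˣ) : ZMod N).val := by
    refine pow_injOn_Iio_orderOf (x := c) ?_ ?_ h
    · rw [ho]
      exact ZMod.val_lt _
    · rw [ho]
      exact ZMod.val_lt _
  exact inv_injective (Units.ext (ZMod.val_injective _ h1))

/-- if the conjugation by `x` raises `φ d` to the power `a`, it raises the powers of `φ d` to it -/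
theorem conj_pow' {N : ℕ} {G : Type} [Group G] (φ : Cyc N →* G) (x : G) (d e : Cyc N) (a j : ℕ)
    (he : e = d ^ j) (hx : x * φ d * x⁻¹ = φ d ^ a) : x * φ e * x⁻¹ = φ e ^ a := by
  rw [he, map_pow, ← conj_pow, hx, ← pow_mul, ← pow_mul, mul_comm]

end TPD

open TPD

theorem t_TPD : S_TPB → S_PLC → S_TPD := by
  intro htpb hplc m G _ N _ p _ φ hφ K s r z v hH W X κ hW hX hκ lam hlam c hc
  classical
  obtain ⟨F, hF, hev⟩ := htpb m G N φ hφ lam hlam c hc
  have hoc : orderOf c = N := order_top hc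
  have hF' : GCoch m (fun y => orderOf y = N ∧
      ∃ x : G, x * y * x⁻¹ ∈ Subgroup.zpowers (φ (gen N))) F := by
    refine ⟨hF.inv, hF.coc, fun a y h => ?_, hF.den⟩
    obtain ⟨x, rfl⟩ := hF.supp a y h
    refine ⟨?_, x⁻¹, ?_⟩
    · rw [orderOf_conj, orderOf_injective φ hφ, hoc]
    · have h1 : x⁻¹ * (x * φ c * x⁻¹) * x⁻¹⁻¹ = φ c := by group
      rw [h1, cyc_eq_pow c, map_pow]
      exact Subgroup.pow_mem _ (Subgroup.mem_zpowers _) _
  rw [← hH F hF']
  refine Finset.sum_congr rfl fun k _ => ?_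
  congr 1
  have hinj : ∀ w ∈ W, ∀ w' ∈ W, rt c w = rt c w' → w = w' := fun w _ w' _ h => rt_inj hc h
  symm
  rw [← Finset.sum_subset (Finset.subset_univ (W.image (rt c)))]
  · rw [Finset.sum_image hinj]
    refine Finset.sum_congr rfl fun w hw => ?_
    have Hx : ∀ z ∈ Cen (φ (gen N)), X w * z * (X w)⁻¹ ∈ Cen (φ (gen N)) := by
      intro z hz
      rw [← hκ w hw ⟨z, hz⟩]
      exact (κ w ⟨z, hz⟩).2
    have h1 : X w * φ (rt c w) * (X w)⁻¹ = φ c := by
      rw [conj_pow' φ (X w) (gen N) (rt c w) (w : ZMod N).val _ (cyc_eq_pow _) (hX w hw),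
        ← map_pow, rt_pow]
    have h2 : κ w = cHom (X w) Hx := by
      refine MonoidHom.ext fun z => ?_
      apply Subtype.ext
      exact hκ w hw z
    have h3 := ((hplc p (Cyc N)).2.2.2.2.1 (Cyc N) (powMonoidHom (w : ZMod N).val) (inj_pw w)
      (v k)).1 (rt c w)
    have h4 : (powMonoidHom (w : ZMod N).val : Cyc N →* Cyc N) (rt c w) = c := rt_pow c w
    rw [h4] at h3
    rw [hev (z k) (rt c w) (X w) h1 Hx, h2, ← h3]
  · intro c' _ hc'
    by_contra hne
    apply hc'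
    have h0 : evc (fun z : Cen (φ (gen N)) => (z : G)) F (psi ℚ m _ (ch ℚ m _ (z k))) (φ c') ≠ 0 := by
      intro h0
      apply hne
      rw [h0, Rat.cast_zero, zero_mul]
    obtain ⟨a, ha⟩ := exists_val _ _ _ _ h0
    obtain ⟨x, hx⟩ := hF.supp a _ ha
    have ho' : orderOf c' = N := by
      rw [← orderOf_injective φ hφ, hx, orderOf_conj, orderOf_injective φ hφ, hoc]
    have htop : Subgroup.zpowers c' = ⊤ := top_order ho'
    obtain ⟨w, hw⟩ := exists_unit_of_zpowers ho' (htop.trans hc.symm)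
    have hx' : x⁻¹ * φ c' * x⁻¹⁻¹ = φ c' ^ (w : ZMod N).val := by
      rw [← map_pow, ← hw, hx]
      group
    obtain ⟨j, hj⟩ : ∃ j : ℕ, gen N = c' ^ j := by
      have h5 : gen N ∈ Subgroup.zpowers c' := by rw [htop]; trivial
      obtain ⟨i, hi⟩ := (Submonoid.mem_powers_iff _ _).1
        ((mem_powers_iff_mem_zpowers (x := c')).2 h5)
      exact ⟨i, hi.symm⟩
    have hwW : w ∈ W := hW w ⟨x⁻¹, conj_pow' φ x⁻¹ c' (gen N) (w : ZMod N).val j hj hx'⟩
    rw [Finset.mem_image]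
    refine ⟨w, hwW, ?_⟩
    rw [hw, rt_of]

end Pool.Agent.FJA
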