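import Pool.Agent.AUK.FJA.Asm
import Pool.Agent.AUK.FJA.Rel1
import Pool.Agent.AUK.FJA.St7

/-!
# Module TTH: functionals factor through the logarithms at the generators
-/

set_option autoImplicit false

open Matrix Pool.Agent.WhK Pool.Agent.Lib25 CategoryTheory

noncomputable section

namespace Pool.Agent.FJA

namespace TTH

theorem uG_comp {A B C : Type} [Group A] [Group B] [Group C] (φ : A →* B) (ψ : B →* C)
    (u : (MonoidAlgebra ℤ A)ˣ) : uG ψ (uG φ u) = uG (ψ.comp φ) u := by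
  apply Units.ext
  change MonoidAlgebra.mapDomain _ (MonoidAlgebra.mapDomain _ u.val) =
    MonoidAlgebra.mapDomain _ u.val
  have h1 : ∀ w : MonoidAlgebra ℤ A,
      MonoidAlgebra.mapDomain ψ (MonoidAlgebra.mapDomain φ w) =
      MonoidAlgebra.mapDomain (ψ.comp φ) w := by
    intro w
    induction w using MonoidAlgebra.induction_linear with
    | zero => simp
    | add x y hx hy => rw [MonoidAlgebra.mapDomain_add, MonoidAlgebra.mapDomain_add, hx, hy,
        MonoidAlgebra.mapDomain_add]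
    | single g c => rw [MonoidAlgebra.mapDomain_single, MonoidAlgebra.mapDomain_single,
        MonoidAlgebra.mapDomain_single]; rfl
  exact h1 _

theorem uG_id {A : Type} [Group A] (u : (MonoidAlgebra ℤ A)ˣ) : uG (MonoidHom.id A) u = u := by
  apply Units.ext
  change MonoidAlgebra.mapDomain _ u.val = u.val
  have h1 : ∀ w : MonoidAlgebra ℤ A,
      MonoidAlgebra.mapDomain (MonoidHom.id A) w = w := by
    intro w
    induction w using MonoidAlgebra.induction_linear with
    | zero => simp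
    | add x y hx hy => rw [MonoidAlgebra.mapDomain_add, hx, hy]
    | single g c => rw [MonoidAlgebra.mapDomain_single]; rfl
  exact h1 _

theorem mem_unS {G : Type} [Group G] (h : G) (u : (MonoidAlgebra ℤ G)ˣ) :
    u ∈ UnS h ↔ ∃ v : (MonoidAlgebra ℤ (Subgroup.zpowers h))ˣ,
      uG (Subgroup.zpowers h).subtype v = u := Iff.rfl

/-- The image of a unit of `ℤ[⟨d⟩]` is a unit of `ℤ[⟨φ d⟩]`. -/
theorem uG_unS {C G : Type} [Group C] [Group G] (φ : C →* G) (d : C) {v : (MonoidAlgebra ℤ C)ˣ}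
    (hv : v ∈ UnS d) : uG φ v ∈ UnS (φ d) := by
  rw [mem_unS] at hv ⊢
  obtain ⟨w, rfl⟩ := hv
  have hle : ∀ x : Subgroup.zpowers d, φ x.1 ∈ Subgroup.zpowers (φ d) := by
    rintro ⟨x, k, rfl⟩
    exact ⟨k, by simp⟩
  let ψ : Subgroup.zpowers d →* Subgroup.zpowers (φ d) :=
    (φ.comp (Subgroup.zpowers d).subtype).codRestrict _ hle
  refine ⟨uG ψ w, ?_⟩
  rw [uG_comp, uG_comp]
  rfl

/-- All the units come from `⟨d⟩` if `d` is a generator. -/
theorem unS_top {C : Type} [Group C] (d : C) (hd : Subgroup.zpowers d = ⊤)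
    (v : (MonoidAlgebra ℤ C)ˣ) : v ∈ UnS d := by
  rw [mem_unS]
  let ψ : C →* Subgroup.zpowers d :=
    (MonoidHom.id C).codRestrict _ (fun x => by rw [hd]; exact Subgroup.mem_top _)
  refine ⟨uG ψ v, ?_⟩
  rw [uG_comp]
  exact uG_id v

theorem adm {G : Type} [Group G] {N : ℕ} [NeZero N] (φ : Cyc N →* G) (d : Cyc N)
    {v : (MonoidAlgebra ℤ (Cyc N))ˣ} (hv : v ∈ UnS d) : Adm1 (φ d) (uG φ v) :=
  ⟨φ.isOfFinOrder (isOfFinOrder_of_finite d), uG_unS φ d hv⟩

theorem sym1_prod {m : ℕ} {G : Type} [Group G] (h : G) (c : HQ m (Cen h)) {ι : Type}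
    (S : Finset ι) {A : Type} [CommGroup A] (F : A →* (MonoidAlgebra ℤ G)ˣ)
    (hF : ∀ a, Adm1 h (F a)) (w : ι → A) :
    sym1 h c (F (∏ d ∈ S, w d)) = ∑ d ∈ S, sym1 h c (F (w d)) := by
  classical
  induction S using Finset.induction_on with
  | empty => rw [Finset.prod_empty, Finset.sum_empty, map_one, sym1_one]
  | insert a S ha ih =>
    rw [Finset.prod_insert ha, Finset.sum_insert ha, map_mul, sym1_mul h c _ _ (hF _) (hF _), ih]

end TTH

open TTH in
theorem t_TTH : S_KER → S_PLC → S_EXT → S_TTH := by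
  intro hKER hPLC hEXT m G _ N _ p _ φ hφ e Λ hΛ
  classical
  have htop : Subgroup.zpowers (gen N) = ⊤ := zpowers_one_eq_top N
  have hadm : ∀ v : (MonoidAlgebra ℤ (Cyc N))ˣ, Adm1 (φ (gen N)) (uG φ v) := fun v =>
    adm φ (gen N) (unS_top _ htop v)
  obtain ⟨hP1, -⟩ := hPLC p (Cyc N)
  refine hEXT ((MonoidAlgebra ℤ (Cyc N))ˣ) (Cyc N → ℚ_[p])
    (fun v c => if Subgroup.zpowers c = ⊤ then plog p v c else 0)
    (fun v => Λ (sym1 (φ (gen N)) e (uG φ v))) ?_ ?_ ?_
  · intro u v
    funext c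
    rw [Pi.add_apply]
    by_cases hc : Subgroup.zpowers c = ⊤
    · simp only [if_pos hc]
      exact hP1 u v c
    · simp only [if_neg hc, add_zero]
  · intro u v
    rw [map_mul, sym1_mul _ _ _ _ (hadm u) (hadm v), map_add]
  · intro v hv
    obtain ⟨K, w, hK, hw, hvw⟩ := hKER p (Cyc N)
      (Finset.univ.filter fun d : Cyc N => Subgroup.zpowers d ≠ ⊤) v (by
        intro c hc
        by_cases hc1 : Subgroup.zpowers c = ⊤
        · have h1 := congrFun hv c
          simp only [if_pos hc1] at h1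
          exact h1
        · exact absurd (Subgroup.mem_zpowers c)
            (hc c (Finset.mem_filter.2 ⟨Finset.mem_univ _, hc1⟩)))
    have h1 : (K : ℚ) • sym1 (φ (gen N)) e (uG φ v) =
        ∑ d ∈ (Finset.univ.filter fun d : Cyc N => Subgroup.zpowers d ≠ ⊤),
          sym1 (φ (gen N)) e (uG φ (w d)) := by
      rw [← sym1_pow _ _ _ (hadm v), ← map_pow, hvw]
      exact sym1_prod _ _ _ (uG φ) hadm w
    have h2 : ∀ d ∈ (Finset.univ.filter fun d : Cyc N => Subgroup.zpowers d ≠ ⊤),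
        Λ (sym1 (φ (gen N)) e (uG φ (w d))) = 0 := by
      intro d hd
      have hd1 := (Finset.mem_filter.1 hd).2
      have hmem : φ d ∈ Subgroup.zpowers (φ (gen N)) := by
        rw [cyc_eq_pow d, map_pow]
        exact Subgroup.pow_mem _ (Subgroup.mem_zpowers _) _
      have hA := adm φ d (hw d hd)
      rw [← sym1_res (φ (gen N)) (φ d) hmem e (uG φ (w d)) (hadm 1).1 hA]
      apply hΛ
      refine Submodule.subset_span ⟨φ d, _, uG φ (w d), hA, ?_, rfl⟩
      rw [orderOf_injective φ hφ]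
      have hcard : Nat.card (Cyc N) = N := card_Cn N
      have hle : orderOf d ≤ N := le_of_le_of_eq orderOf_le_card hcard
      refine lt_of_le_of_ne hle fun h3 => hd1 ?_
      apply Subgroup.eq_top_of_card_eq
      rw [Nat.card_zpowers, h3, hcard]
    have h3 : (K : ℚ) * Λ (sym1 (φ (gen N)) e (uG φ v)) = 0 := by
      rw [← smul_eq_mul, ← map_smul, h1, map_sum]
      exact Finset.sum_eq_zero h2
    rcases mul_eq_zero.1 h3 with h4 | h4
    · exact absurd (Nat.cast_eq_zero.1 h4) hK.ne'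
    · exact h4

end Pool.Agent.FJA
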