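import Pool.Agent.AUK.FJA.Hom

/-!
# The product map

For rings `A'`, `A`, a homomorphism `γ : A' → A`, a group `P` and a homomorphism `u` of `P` to the
multiplicative monoid of `A` whose values commute with the values of `γ`, there is a bilinear map
`K_{-1}(A') × H_{n+1}(P; ℚ) → K_n(A) ⊗ ℚ`.
-/

set_option autoImplicit false
set_option linter.unusedSectionVars false

open Matrix Pool.Agent.WhK Pool.Agent.Lib25 CategoryTheory

noncomputable section

namespace Pool.Agent.FJA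

section Th

variable {S : Type} [Ring S] {P Q : Type} [Group P] [Group Q]

theorem HQ.map_comp (m : ℕ) {T : Type} [Group T] (f : P →* Q) (g : Q →* T) (c : HQ m P) :
    HQ.map m (g.comp f) c = HQ.map m g (HQ.map m f c) := Hk.map_comp m f g c

/-- The map induced on homology by a homomorphism to the general linear group. -/
def Th (n : ℕ) {r : ℕ} (ρ : P →* GLn S r) : HQ (n + 1) P →ₗ[ℚ] KQ (n + 1) S :=
  KQ.mk (n + 1) S r ∘ₗ HQ.map (n + 1) ρ

theorem Th_apply (n : ℕ) {r : ℕ} (ρ : P →* GLn S r) (c : HQ (n + 1) P) :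
    Th n ρ c = KQ.mk (n + 1) S r (HQ.map (n + 1) ρ c) := rfl

theorem Th_comp (n : ℕ) {r : ℕ} (ρ : P →* GLn S r) (f : Q →* P) (c : HQ (n + 1) Q) :
    Th n (ρ.comp f) c = Th n ρ (HQ.map (n + 1) f c) := by
  rw [Th_apply, Th_apply, HQ.map_comp]

theorem Th_conj (hPRI : S_PRI.{0, 0, 0}) (hBD : S_BD.{0, 0, 0}) (n : ℕ) {r : ℕ}
    (ρ : P →* GLn S r) (X : GLn S r) :
    Th n ((MulAut.conj X).toMonoidHom.comp ρ) = Th n ρ := by
  apply LinearMap.ext
  intro c
  rw [Th_apply, Th_apply, HQ.map_comp]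
  congr 1
  exact Hk.map_conj hPRI hBD n X _

theorem Th_one (n r : ℕ) : Th n (1 : P →* GLn S r) = 0 := by
  apply LinearMap.ext
  intro c
  rw [Th_apply]
  have h1 : HQ.map (n + 1) (1 : P →* GLn S r) c = 0 := Hk.map_one n c
  rw [h1, map_zero]
  rfl

theorem Th_bsum (n : ℕ) {a b : ℕ} (ρ : P →* GLn S a) (ρ' : P →* GLn S b) :
    Th n ((bsumHom S a b).comp (ρ.prod ρ')) = Th n ρ + Th n ρ' := by
  apply LinearMap.ext
  intro c
  rw [LinearMap.add_apply, Th_apply, Th_apply, Th_apply, HQ.map_comp]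
  have h1 : HQ.map (n + 1) ρ c = HQ.map (n + 1) (MonoidHom.fst _ _)
      (HQ.map (n + 1) (ρ.prod ρ') c) := by
    rw [← HQ.map_comp]
    rfl
  have h2 : HQ.map (n + 1) ρ' c = HQ.map (n + 1) (MonoidHom.snd _ _)
      (HQ.map (n + 1) (ρ.prod ρ') c) := by
    rw [← HQ.map_comp]
    rfl
  rw [h1, h2, ← sub_eq_zero, ← sub_sub]
  generalize HQ.map (n + 1) (ρ.prod ρ') c = c'
  change (blockRel (n + 1) S).mkQ _ - (blockRel (n + 1) S).mkQ _ -
    (blockRel (n + 1) S).mkQ _ = 0
  rw [← map_sub, ← map_sub, Submodule.mkQ_apply, Submodule.Quotient.mk_eq_zero]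
  exact Submodule.subset_span ⟨a, b, c', rfl⟩

end Th

section RhoMat

variable {S : Type} [Ring S]

theorem mul_smul_comm' {r : ℕ} (W E : Matrix (Fin r) (Fin r) S) (v : S)
    (hv : ∀ i j, Commute v (W i j)) : W * (v • E) = v • (W * E) := by
  ext i j
  rw [Matrix.mul_apply, Matrix.smul_apply, Matrix.mul_apply, smul_eq_mul, Finset.mul_sum]
  refine Finset.sum_congr rfl fun k _ => ?_
  rw [Matrix.smul_apply, smul_eq_mul, ← mul_assoc, ← mul_assoc, (hv i k).eq]

theorem rhoMat_conj {r : ℕ} {W W' : Matrix (Fin r) (Fin r) S} (hW : W * W' = 1)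
    (E : Matrix (Fin r) (Fin r) S) (v : S) (hv : ∀ i j, Commute v (W i j)) :
    W * rhoMat E v * W' = rhoMat (W * E * W') v := by
  unfold rhoMat
  rw [mul_add, add_mul, mul_smul_comm' W E v hv, Matrix.smul_mul, mul_sub, mul_one, sub_mul, hW]

theorem bsum_add {a b : ℕ} (X X' : Matrix (Fin a) (Fin a) S) (Y Y' : Matrix (Fin b) (Fin b) S) :
    bsum (X + X') (Y + Y') = bsum X Y + bsum X' Y' := by
  unfold bsum
  have h1 : Matrix.fromBlocks (X + X') 0 0 (Y + Y') =
      Matrix.fromBlocks X 0 0 Y + Matrix.fromBlocks X' 0 0 Y' := by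
    rw [Matrix.fromBlocks_add, add_zero, add_zero]
  rw [h1]
  rfl

theorem bsum_smul {a b : ℕ} (v : S) (X : Matrix (Fin a) (Fin a) S)
    (Y : Matrix (Fin b) (Fin b) S) : bsum (v • X) (v • Y) = v • bsum X Y := by
  unfold bsum
  have h1 : Matrix.fromBlocks (v • X) 0 0 (v • Y) = v • Matrix.fromBlocks X 0 0 Y := by
    rw [Matrix.fromBlocks_smul, smul_zero, smul_zero]
  rw [h1]
  rfl

theorem bsum_sub {a b : ℕ} (X X' : Matrix (Fin a) (Fin a) S) (Y Y' : Matrix (Fin b) (Fin b) S) :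
    bsum (X - X') (Y - Y') = bsum X Y - bsum X' Y' := by
  rw [eq_sub_iff_add_eq, ← bsum_add, sub_add_cancel, sub_add_cancel]

theorem bsum_rhoMat {a b : ℕ} (E : Matrix (Fin a) (Fin a) S) (F : Matrix (Fin b) (Fin b) S)
    (v : S) : bsum (rhoMat E v) (rhoMat F v) = rhoMat (bsum E F) v := by
  unfold rhoMat
  rw [bsum_add, bsum_smul, bsum_sub, bsum_one]

theorem rhoMat_zero {r : ℕ} (v : S) : rhoMat (0 : Matrix (Fin r) (Fin r) S) v = 1 := by
  unfold rhoMat
  rw [smul_zero, zero_add, sub_zero]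

theorem bsum_map {S' : Type} [Ring S'] {a b : ℕ} (γ : S' →+* S) (X : Matrix (Fin a) (Fin a) S')
    (Y : Matrix (Fin b) (Fin b) S') : (bsum X Y).map γ = bsum (X.map γ) (Y.map γ) := by
  ext i j
  simp only [bsum, Matrix.map_apply, Matrix.submatrix_apply]
  rcases finSumFinEquiv.symm i with i | i <;> rcases finSumFinEquiv.symm j with j | j <;> simp

/-- Equivalent idempotents become conjugate by an involution. -/
theorem exists_invol {a b : ℕ} (e : Matrix (Fin a) (Fin a) S) (f : Matrix (Fin b) (Fin b) S)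
    (he : e * e = e) (hf : f * f = f) (hef : MvN e f) :
    ∃ W : Matrix (Fin (a + b)) (Fin (a + b)) S, W * W = 1 ∧ W * bsum e 0 * W = bsum 0 f := by
  obtain ⟨x0, y0, hxy0, hyx0⟩ := hef
  obtain ⟨x, hx⟩ : ∃ x, x = e * x0 * f := ⟨_, rfl⟩
  obtain ⟨y, hy⟩ : ∃ y, y = f * y0 * e := ⟨_, rfl⟩
  have hex : e * x = x := by rw [hx, ← Matrix.mul_assoc, ← Matrix.mul_assoc, he]
  have hxf : x * f = x := by rw [hx, Matrix.mul_assoc, hf]
  have hfy : f * y = y := by rw [hy, ← Matrix.mul_assoc, ← Matrix.mul_assoc, hf]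
  have hye : y * e = y := by rw [hy, Matrix.mul_assoc, he]
  have hxy : x * y = e := by
    calc x * y = e * (x0 * (f * f) * y0) * e := by
          rw [hx, hy]
          simp only [Matrix.mul_assoc]
      _ = e * ((x0 * y0) * (x0 * y0)) * e := by
          rw [hf, ← hyx0]
          simp only [Matrix.mul_assoc]
      _ = e := by rw [hxy0, he, he, he]
  have hyx : y * x = f := by
    calc y * x = f * (y0 * (e * e) * x0) * f := by
          rw [hx, hy]
          simp only [Matrix.mul_assoc]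
      _ = f * ((y0 * x0) * (y0 * x0)) * f := by
          rw [he, ← hxy0]
          simp only [Matrix.mul_assoc]
      _ = f := by rw [hyx0, hf, hf, hf]
  let W0 : Matrix (Fin a ⊕ Fin b) (Fin a ⊕ Fin b) S := Matrix.fromBlocks (1 - e) x y (1 - f)
  have e1 : (1 - e) * e = 0 := by rw [sub_mul, one_mul, he, sub_self]
  have e2 : (1 - e) * (1 - e) = 1 - e := by rw [mul_sub, mul_one, e1, sub_zero]
  have f1 : (1 - f) * f = 0 := by rw [sub_mul, one_mul, hf, sub_self]
  have f2 : (1 - f) * (1 - f) = 1 - f := by rw [mul_sub, mul_one, f1, sub_zero]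
  have x1 : (1 - e) * x = 0 := by rw [Matrix.sub_mul, Matrix.one_mul, hex, sub_self]
  have x2 : x * (1 - f) = 0 := by rw [Matrix.mul_sub, Matrix.mul_one, hxf, sub_self]
  have y1 : (1 - f) * y = 0 := by rw [Matrix.sub_mul, Matrix.one_mul, hfy, sub_self]
  have y2 : y * (1 - e) = 0 := by rw [Matrix.mul_sub, Matrix.mul_one, hye, sub_self]
  have hW0 : W0 * W0 = 1 := by
    change Matrix.fromBlocks (1 - e) x y (1 - f) * Matrix.fromBlocks (1 - e) x y (1 - f) = 1
    rw [Matrix.fromBlocks_multiply, ← Matrix.fromBlocks_one, e2, f2, x1, x2, y1, y2, hxy, hyx,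
      add_zero, add_zero, sub_add_cancel, add_sub_cancel]
  have hW0e : W0 * Matrix.fromBlocks e 0 0 0 * W0 = Matrix.fromBlocks 0 0 0 f := by
    change Matrix.fromBlocks (1 - e) x y (1 - f) * Matrix.fromBlocks e 0 0 0 *
      Matrix.fromBlocks (1 - e) x y (1 - f) = _
    rw [Matrix.fromBlocks_multiply, Matrix.fromBlocks_multiply]
    simp only [e1, Matrix.mul_zero, Matrix.zero_mul, add_zero, hye, y2, hyx]
  refine ⟨W0.submatrix finSumFinEquiv.symm finSumFinEquiv.symm, ?_, ?_⟩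
  · rw [Matrix.submatrix_mul_equiv, hW0, Matrix.submatrix_one_equiv]
  · unfold bsum
    rw [Matrix.submatrix_mul_equiv, Matrix.submatrix_mul_equiv, hW0e]

end RhoMat

section RhoG

variable {S S' : Type} [Ring S] [Ring S'] {P Q : Type} [Group P] [Group Q]

/-- The values of `u` commute with the values of `γ`. -/
def Comm (γ : S' →+* S) (u : P →* S) : Prop := ∀ z x, Commute (u z) (γ x)

/-- The homomorphism `z ↦ u(z) γ(e) + 1 - γ(e)`. -/
def rhoG (γ : S' →+* S) (u : P →* S) (hu : Comm γ u) (e : IdemMat S') :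
    P →* GLn S e.n :=
  rho (e.mat.map γ) (by rw [← Matrix.map_mul, e.idem]) u (fun z _ _ => hu z _)

theorem rhoG_val (γ : S' →+* S) (u : P →* S) (hu : Comm γ u) (e : IdemMat S')
    (z : P) : (rhoG γ u hu e z).val = rhoMat (e.mat.map γ) (u z) := rfl

/-- Equivalent idempotents give the same map. -/
theorem Th_rhoG_congr (hPRI : S_PRI.{0, 0, 0}) (hBD : S_BD.{0, 0, 0}) (n : ℕ)
    (γ : S' →+* S) (u : P →* S) (hu : Comm γ u) (e f : IdemMat S')
    (hef : MvN e.mat f.mat) : Th n (rhoG γ u hu e) = Th n (rhoG γ u hu f) := by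
  obtain ⟨W, hW, hWe⟩ := exists_invol e.mat f.mat e.idem f.idem hef
  obtain ⟨a, e, he⟩ := e
  obtain ⟨b, f, hf⟩ := f
  change Matrix (Fin (a + b)) (Fin (a + b)) S' at W
  change W * bsum e 0 * W = bsum 0 f at hWe
  have hWγ : W.map γ * W.map γ = 1 := by
    rw [← Matrix.map_mul, hW, Matrix.map_one γ (map_zero γ) (map_one γ)]
  let Wu : GLn S (a + b) := ⟨W.map γ, W.map γ, hWγ, hWγ⟩
  have key : (MulAut.conj Wu).toMonoidHom.comp
      ((bsumHom S a b).comp ((rhoG γ u hu ⟨a, e, he⟩).prod 1)) =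
      (bsumHom S a b).comp ((1 : P →* GLn S a).prod (rhoG γ u hu ⟨b, f, hf⟩)) := by
    refine MonoidHom.ext fun z => ?_
    apply Units.ext
    change W.map γ * bsum (rhoMat (e.map γ) (u z)) 1 * W.map γ =
      bsum 1 (rhoMat (f.map γ) (u z))
    have h1 : (1 : Matrix (Fin b) (Fin b) S) = rhoMat ((0 : Matrix (Fin b) (Fin b) S').map γ)
        (u z) := by
      rw [Matrix.map_zero γ (map_zero γ), rhoMat_zero]
    have h2 : (1 : Matrix (Fin a) (Fin a) S) = rhoMat ((0 : Matrix (Fin a) (Fin a) S').map γ)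
        (u z) := by
      rw [Matrix.map_zero γ (map_zero γ), rhoMat_zero]
    rw [h1, h2, bsum_rhoMat, bsum_rhoMat, ← bsum_map, ← bsum_map]
    refine (rhoMat_conj hWγ _ _ (fun i j => hu z (W i j))).trans ?_
    rw [← Matrix.map_mul, ← Matrix.map_mul, hWe]
  have h3 := Th_conj hPRI hBD n ((bsumHom S a b).comp ((rhoG γ u hu ⟨a, e, he⟩).prod 1)) Wu
  rw [key, Th_bsum, Th_bsum, Th_one, Th_one, zero_add, add_zero] at h3
  exact h3.symm

/-- Block sums. -/
theorem Th_rhoG_add (n : ℕ) (γ : S' →+* S) (u : P →* S) (hu : Comm γ u)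
    (e f : IdemMat S') :
    Th n (rhoG γ u hu (e.add f)) = Th n (rhoG γ u hu e) + Th n (rhoG γ u hu f) := by
  rw [← Th_bsum]
  congr 1
  refine MonoidHom.ext fun z => ?_
  apply Units.ext
  change rhoMat ((bsum e.mat f.mat).map γ) (u z) =
    bsum (rhoMat (e.mat.map γ) (u z)) (rhoMat (f.mat.map γ) (u z))
  rw [bsum_map, bsum_rhoMat]

theorem Th_rhoG_zero (n : ℕ) (γ : S' →+* S) (u : P →* S) (hu : Comm γ u) :
    Th n (rhoG γ u hu (IdemMat.zero S')) = 0 := by
  have h1 : rhoG γ u hu (IdemMat.zero S') = 1 := by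
    refine MonoidHom.ext fun z => ?_
    apply Units.ext
    ext i
    exact i.elim0
  rw [h1, Th_one]

/-- The product map on classes of idempotent matrices. -/
def prodI (hPRI : S_PRI.{0, 0, 0}) (hBD : S_BD.{0, 0, 0}) (n : ℕ) (γ : S' →+* S) (u : P →* S)
    (hu : Comm γ u) :
    IdemClass S' →+ (HQ (n + 1) P →ₗ[ℚ] KQ (n + 1) S) where
  toFun := Quotient.lift (fun e => Th n (rhoG γ u hu e))
    (fun e f hef => Th_rhoG_congr hPRI hBD n γ u hu e f hef)
  map_zero' := Th_rhoG_zero n γ u hu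
  map_add' := by
    rintro ⟨e⟩ ⟨f⟩
    exact Th_rhoG_add n γ u hu e f

/-- The product map on `K₀`. -/
def prodK0 (hPRI : S_PRI.{0, 0, 0}) (hBD : S_BD.{0, 0, 0}) (n : ℕ) (γ : S' →+* S) (u : P →* S)
    (hu : Comm γ u) :
    K0 S' →+ (HQ (n + 1) P →ₗ[ℚ] KQ (n + 1) S) :=
  Algebra.GrothendieckAddGroup.lift (prodI hPRI hBD n γ u hu)

theorem prodK0_of (hPRI : S_PRI.{0, 0, 0}) (hBD : S_BD.{0, 0, 0}) (n : ℕ) (γ : S' →+* S)
    (u : P →* S) (hu : Comm γ u) (e : IdemMat S') :
    prodK0 hPRI hBD n γ u hu (K0.of e) = Th n (rhoG γ u hu e) := by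
  unfold prodK0 K0.of
  exact congrArg (fun F => F (IdemClass.mk e)) ((Algebra.GrothendieckAddGroup.lift
    (M := IdemClass S') (G := (HQ (n + 1) P →ₗ[ℚ] KQ (n + 1) S))).symm_apply_apply
    (prodI hPRI hBD n γ u hu))

end RhoG

section KN

open Polynomial

variable {A A' : Type} [Ring A] [Ring A'] {P Q : Type} [Group P] [Group Q]

/-- Constant Laurent polynomials. -/
def cst (A : Type) [Ring A] : A →+* LaurentPolynomial A := AddMonoidAlgebra.singleZeroRingHom

theorem cst_apply (a : A) : cst A a = AddMonoidAlgebra.single 0 a := rfl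

theorem commute_cst (γ : A' →+* A) {v : A} (hv : ∀ x, Commute v (γ x))
    (x : LaurentPolynomial A') : Commute (cst A v) (mapL γ x) := by
  induction x using AddMonoidAlgebra.induction_linear with
  | zero => rw [map_zero]; exact Commute.zero_right _
  | add f g hf hg => rw [map_add]; exact hf.add_right hg
  | single n a =>
    have h4 : mapL γ (AddMonoidAlgebra.single n a) = AddMonoidAlgebra.single n (γ a) :=
      mapL_single _ _ _
    rw [h4, cst_apply]
    show _ * _ = _ * _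
    rw [AddMonoidAlgebra.single_mul_single, AddMonoidAlgebra.single_mul_single, zero_add, add_zero,
      (hv a).eq]

theorem commute_C (γ : A' →+* A) {v : A} (hv : ∀ x, Commute v (γ x)) (x : A'[X]) :
    Commute (C v) (Polynomial.mapRingHom γ x) := by
  induction x using Polynomial.induction_on' with
  | add f g hf hg => rw [map_add]; exact hf.add_right hg
  | monomial n a =>
    rw [Polynomial.coe_mapRingHom, Polynomial.map_monomial, ← Polynomial.monomial_zero_left]
    show _ * _ = _ * _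
    rw [Polynomial.monomial_mul_monomial, Polynomial.monomial_mul_monomial, zero_add, add_zero,
      (hv a).eq]

theorem rhoMat_map {S S' : Type} [Ring S] [Ring S'] (g : S →+* S') {r : ℕ}
    (E : Matrix (Fin r) (Fin r) S) (v : S) : (rhoMat E v).map g = rhoMat (E.map g) (g v) := by
  unfold rhoMat
  ext i j
  by_cases hij : i = j
  · subst hij
    simp
  · simp [hij]

/-- The homomorphism to the constants of `A[t,t⁻¹]`. -/
def cu (u : P →* A) : P →* LaurentPolynomial A := (cst A : A →* LaurentPolynomial A).comp u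

/-- The homomorphism to the constants of `A[X]`. -/
def cp (u : P →* A) : P →* A[X] := ((C : A →+* A[X]) : A →* A[X]).comp u

theorem comm_cu {γ : A' →+* A} {u : P →* A} (hu : Comm γ u) : Comm (mapL γ) (cu u) :=
  fun z x => commute_cst γ (hu z) x

theorem comm_cp {γ : A' →+* A} {u : P →* A} (hu : Comm γ u) :
    Comm (Polynomial.mapRingHom γ) (cp u) :=
  fun z x => commute_C γ (hu z) x

/-- The product map to `K_n(A) ⊗ ℚ`, on `K₀(A'[t,t⁻¹])`. -/
def prodKB (hPRI : S_PRI.{0, 0, 0}) (hBD : S_BD.{0, 0, 0}) (n : ℕ) (γ : A' →+* A) (u : P →* A)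
    (hu : Comm γ u) :
    K0 (LaurentPolynomial A') →+ (HQ (n + 1) P →ₗ[ℚ] KB n A) where
  toFun x := (KQ.im (n + 1) (posIncl A) ⊔ KQ.im (n + 1) (negIncl A)).mkQ ∘ₗ
    prodK0 hPRI hBD n (mapL γ) (cu u) (comm_cu hu) x
  map_zero' := by rw [map_zero, LinearMap.comp_zero]
  map_add' x y := by rw [map_add, LinearMap.comp_add]

theorem prodKB_of (hPRI : S_PRI.{0, 0, 0}) (hBD : S_BD.{0, 0, 0}) (n : ℕ) (γ : A' →+* A)
    (u : P →* A) (hu : Comm γ u) (e : IdemMat (LaurentPolynomial A'))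
    (c : HQ (n + 1) P) :
    prodKB hPRI hBD n γ u hu (K0.of e) c =
      KB.mk n A e.n (HQ.map (n + 1) (rhoG (mapL γ) (cu u) (comm_cu hu) e) c) := by
  change (KQ.im (n + 1) (posIncl A) ⊔ KQ.im (n + 1) (negIncl A)).mkQ
    (prodK0 hPRI hBD n (mapL γ) (cu u) (comm_cu hu) (K0.of e) c) = _
  rw [prodK0_of]
  rfl

theorem KB_mk_pos (n r : ℕ) (c : HQ (n + 1) (GLn A[X] r)) :
    KB.mk n A r (HQ.map (n + 1) (glm (posIncl A) r) c) = 0 := by
  unfold KB.mk
  rw [LinearMap.comp_apply, Submodule.mkQ_apply, Submodule.Quotient.mk_eq_zero]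
  exact Submodule.mem_sup_left (Submodule.subset_span ⟨r, c, rfl⟩)

theorem KB_mk_neg (n r : ℕ) (c : HQ (n + 1) (GLn A[X] r)) :
    KB.mk n A r (HQ.map (n + 1) (glm (negIncl A) r) c) = 0 := by
  unfold KB.mk
  rw [LinearMap.comp_apply, Submodule.mkQ_apply, Submodule.Quotient.mk_eq_zero]
  exact Submodule.mem_sup_right (Submodule.subset_span ⟨r, c, rfl⟩)

theorem prodKB_pos (hPRI : S_PRI.{0, 0, 0}) (hBD : S_BD.{0, 0, 0}) (n : ℕ) (γ : A' →+* A)
    (u : P →* A) (hu : Comm γ u) (e : IdemMat A'[X]) :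
    prodKB hPRI hBD n γ u hu (K0.of (e.map (posIncl A'))) = 0 := by
  apply LinearMap.ext
  intro c
  rw [prodKB_of, LinearMap.zero_apply]
  have h1 : rhoG (mapL γ) (cu u) (comm_cu hu) (e.map (posIncl A')) =
      (glm (posIncl A) e.n).comp (rhoG (Polynomial.mapRingHom γ) (cp u) (comm_cp hu) e) := by
    refine MonoidHom.ext fun z => ?_
    apply Units.ext
    change rhoMat ((e.mat.map (posIncl A')).map (mapL γ)) (cst A (u z)) =
      (rhoMat (e.mat.map (Polynomial.mapRingHom γ)) (C (u z))).map (posIncl A)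
    rw [rhoMat_map]
    congr 1
    · ext1 i j
      exact congrArg (fun F => F (e.mat i j)) (mapL_posIncl γ)
    · rw [← Polynomial.monomial_zero_left, posIncl_monomial]
      rfl
  rw [h1]
  exact (congrArg (KB.mk n A e.n) (HQ.map_comp (n + 1) _ _ c)).trans (KB_mk_pos n e.n _)

theorem prodKB_neg (hPRI : S_PRI.{0, 0, 0}) (hBD : S_BD.{0, 0, 0}) (n : ℕ) (γ : A' →+* A)
    (u : P →* A) (hu : Comm γ u) (e : IdemMat A'[X]) :
    prodKB hPRI hBD n γ u hu (K0.of (e.map (negIncl A'))) = 0 := by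
  apply LinearMap.ext
  intro c
  rw [prodKB_of, LinearMap.zero_apply]
  have h1 : rhoG (mapL γ) (cu u) (comm_cu hu) (e.map (negIncl A')) =
      (glm (negIncl A) e.n).comp (rhoG (Polynomial.mapRingHom γ) (cp u) (comm_cp hu) e) := by
    refine MonoidHom.ext fun z => ?_
    apply Units.ext
    change rhoMat ((e.mat.map (negIncl A')).map (mapL γ)) (cst A (u z)) =
      (rhoMat (e.mat.map (Polynomial.mapRingHom γ)) (C (u z))).map (negIncl A)
    rw [rhoMat_map]
    congr 1
    · ext1 i j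
      exact congrArg (fun F => F (e.mat i j)) (mapL_negIncl γ)
    · unfold negIncl
      rw [RingHom.comp_apply, ← Polynomial.monomial_zero_left, posIncl_monomial, flipT_single]
      rfl
  rw [h1]
  exact (congrArg (KB.mk n A e.n) (HQ.map_comp (n + 1) _ _ c)).trans (KB_mk_neg n e.n _)

theorem prodKB_ext (hPRI : S_PRI.{0, 0, 0}) (hBD : S_BD.{0, 0, 0}) (n : ℕ) (γ : A' →+* A)
    (u : P →* A) (hu : Comm γ u) :
    extImage A' ≤ (prodKB hPRI hBD n γ u hu).ker := by
  unfold extImage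
  rw [sup_le_iff]
  constructor
  · rintro _ ⟨x, rfl⟩
    obtain ⟨e, f, rfl⟩ := K0.exists_sub x
    rw [AddMonoidHom.mem_ker, map_sub, K0.map_of, K0.map_of, map_sub, prodKB_pos, prodKB_pos,
      sub_self]
  · rintro _ ⟨x, rfl⟩
    obtain ⟨e, f, rfl⟩ := K0.exists_sub x
    rw [AddMonoidHom.mem_ker, map_sub, K0.map_of, K0.map_of, map_sub, prodKB_neg, prodKB_neg,
      sub_self]

/-- The product map on `K_{-1}`. -/
def prodKN (hPRI : S_PRI.{0, 0, 0}) (hBD : S_BD.{0, 0, 0}) (n : ℕ) (γ : A' →+* A) (u : P →* A)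
    (hu : Comm γ u) : KNegOne A' →+ (HQ (n + 1) P →ₗ[ℚ] KB n A) :=
  QuotientAddGroup.lift (extImage A') (prodKB hPRI hBD n γ u hu)
    (prodKB_ext hPRI hBD n γ u hu)

/-- The class in `K_{-1}(A)` of an idempotent matrix over `A[t,t⁻¹]`. -/
def KNegOne.of (e : IdemMat (LaurentPolynomial A)) : KNegOne A :=
  QuotientAddGroup.mk' (extImage A) (K0.of e)

theorem prodKN_of (hPRI : S_PRI.{0, 0, 0}) (hBD : S_BD.{0, 0, 0}) (n : ℕ) (γ : A' →+* A)
    (u : P →* A) (hu : Comm γ u) (e : IdemMat (LaurentPolynomial A'))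
    (c : HQ (n + 1) P) :
    prodKN hPRI hBD n γ u hu (KNegOne.of e) c =
      KB.mk n A e.n (HQ.map (n + 1) (rhoG (mapL γ) (cu u) (comm_cu hu) e) c) :=
  prodKB_of hPRI hBD n γ u hu e c

end KN

end Pool.Agent.FJA
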